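import Pool.Agent.Q201.AR.Stm2

/-!
# Project AR, part 2: the job ENUM (injective enumeration relative to an oracle)
-/

set_option autoImplicit false

namespace Pool.Agent.Q149.AR

open Encodable Pool.Agent.Helper578.JD Pool.Agent.Helper578.JD.Oracle Q201.AR

section dec
variable {A : Set ℕ}

/-- correctness of information is enumerable in `A` -/
lemma re_ok {α : Type} [Primcodable α] {c : α → Info} (hc : Computable c) :
    REIn A fun a => Ok A (c a) := by
  refine REIn.and ?_ ?_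
  · exact REIn.all_mem (S := fun (_ : α) x => x ∈ A) (l := fun a => (c a).1)
      (REIn.mem Computable.snd) (by fun_prop)
  · exact REIn.all_mem (S := fun (_ : α) x => x ∉ A) (l := fun a => (c a).2)
      (REIn.not_mem Computable.snd) (by fun_prop)

/-- incorrectness of information is enumerable in `A` -/
lemma re_not_ok {α : Type} [Primcodable α] {c : α → Info} (hc : Computable c) :
    REIn A fun a => ¬ Ok A (c a) := by
  have h : REIn A fun a => (∃ x, x ∈ (c a).1 ∧ x ∉ A) ∨ ∃ x, x ∈ (c a).2 ∧ x ∈ A := by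
    refine REIn.or ?_ ?_
    · refine REIn.ex (S := fun (a : α) (x : ℕ) => x ∈ (c a).1 ∧ x ∉ A) ?_
      refine REIn.and (REIn.of_re ?_) (REIn.not_mem Computable.snd)
      exact RE.mem_list (f := fun y : α × ℕ => y.2) (l := fun y : α × ℕ => (c y.1).1)
        (by fun_prop) (by fun_prop)
    · refine REIn.ex (S := fun (a : α) (x : ℕ) => x ∈ (c a).2 ∧ x ∈ A) ?_
      refine REIn.and (REIn.of_re ?_) (REIn.mem Computable.snd)
      exact RE.mem_list (f := fun y : α × ℕ => y.2) (l := fun y : α × ℕ => (c y.1).2)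
        (by fun_prop) (by fun_prop)
  refine h.of_eq fun a => ?_
  unfold Ok
  rw [not_and_or]
  push Not
  rfl

/-- an enumerable set is the projection of a decidable relation -/
lemma exists_dec {V : ℕ → Prop} (hV : REIn A V) :
    ∃ D : ℕ → ℕ → Prop, (REIn A fun x : ℕ × ℕ => D x.1 x.2) ∧
      (REIn A fun x : ℕ × ℕ => ¬ D x.1 x.2) ∧ ∀ x, V x ↔ ∃ t, D x t := by
  obtain ⟨R, hR, h⟩ := hV
  obtain ⟨q, hq, h1⟩ := RE.re_iff.1 hR
  have hof : Computable fun x : ℕ × ℕ => Denumerable.ofNat (Info × ℕ) x.2 :=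
    (Computable.ofNat (Info × ℕ)).comp Computable.snd
  have hc : Computable fun x : ℕ × ℕ => (Denumerable.ofNat (Info × ℕ) x.2).1 :=
    Computable.fst.comp hof
  have hm : Computable fun x : ℕ × ℕ => (Denumerable.ofNat (Info × ℕ) x.2).2 :=
    Computable.snd.comp hof
  have hb : Computable fun x : ℕ × ℕ =>
      q (x.1, (Denumerable.ofNat (Info × ℕ) x.2).1) (Denumerable.ofNat (Info × ℕ) x.2).2 :=
    hq.comp (Computable.fst.pair hc) hm
  refine ⟨fun x t => q (x, (Denumerable.ofNat (Info × ℕ) t).1)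
    (Denumerable.ofNat (Info × ℕ) t).2 = true ∧ Ok A (Denumerable.ofNat (Info × ℕ) t).1,
    ?_, ?_, ?_⟩
  · exact REIn.and (REIn.of_re (RE.of_bool hb)) (re_ok hc)
  · have h2 : REIn A fun x : ℕ × ℕ => (!(q (x.1, (Denumerable.ofNat (Info × ℕ) x.2).1)
        (Denumerable.ofNat (Info × ℕ) x.2).2)) = true ∨
        ¬ Ok A (Denumerable.ofNat (Info × ℕ) x.2).1 :=
      REIn.or (REIn.of_re (RE.of_bool (Primrec.not.to_comp.comp hb))) (re_not_ok hc)
    refine h2.of_eq fun x => ?_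
    rw [not_and_or]
    simp
  · intro x
    rw [h x]
    constructor
    · rintro ⟨c, hc1, hc2⟩
      obtain ⟨m, hm⟩ := (h1 (x, c)).1 hc1
      refine ⟨encode (c, m), ?_⟩
      simp only [Denumerable.ofNat_encode]
      exact ⟨hm, hc2⟩
    · rintro ⟨t, ht1, ht2⟩
      exact ⟨_, (h1 (x, _)).2 ⟨_, ht1⟩, ht2⟩

lemma nth_surj {W : ℕ → Prop} (hinf : (Set.ofPred W).Infinite) (w : ℕ) (hw : W w) :
    ∃ n, Nat.nth W n = w := by
  have h := Nat.range_nth_of_infinite hinf
  have h2 : w ∈ Set.range (Nat.nth W) := by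
    rw [h]
    exact hw
  exact h2

/-- the enumeration in increasing order of an infinite decidable set has an enumerable graph -/
lemma graph_nth {W : ℕ → Prop} (h1 : REIn A W) (h2 : REIn A fun w => ¬ W w)
    (hinf : (Set.ofPred W).Infinite) : REIn A fun q : ℕ × ℕ => Nat.nth W q.1 = q.2 := by
  have hre : REIn A fun q : ℕ × ℕ => ∃ l : List ℕ, l[q.1]? = some q.2 ∧
      (∃ x : ℕ, l[0]? = some x ∧ W x ∧ ∀ y < x, ¬ W y) ∧
      ∀ i < q.1, ∃ u : ℕ × ℕ, l[i]? = some u.1 ∧ l[i + 1]? = some u.2 ∧ u.1 < u.2 ∧ W u.2 ∧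
        ∀ y < u.2, y ≤ u.1 ∨ ¬ W y := by
    refine REIn.ex (S := fun (q : ℕ × ℕ) (l : List ℕ) => l[q.1]? = some q.2 ∧
      (∃ x : ℕ, l[0]? = some x ∧ W x ∧ ∀ y < x, ¬ W y) ∧
      ∀ i < q.1, ∃ u : ℕ × ℕ, l[i]? = some u.1 ∧ l[i + 1]? = some u.2 ∧ u.1 < u.2 ∧ W u.2 ∧
        ∀ y < u.2, y ≤ u.1 ∨ ¬ W y) ?_
    refine REIn.and (REIn.of_re (RE.eq (by fun_prop) (by fun_prop))) (REIn.and ?_ ?_)
    · refine REIn.ex (S := fun (z : (ℕ × ℕ) × List ℕ) (x : ℕ) =>
        z.2[0]? = some x ∧ W x ∧ ∀ y < x, ¬ W y) ?_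
      refine REIn.and (REIn.of_re (RE.eq (by fun_prop) (by fun_prop))) (REIn.and ?_ ?_)
      · exact h1.comp (f := fun z : ((ℕ × ℕ) × List ℕ) × ℕ => z.2) (by fun_prop)
      · refine REIn.all_lt (S := fun (_ : ((ℕ × ℕ) × List ℕ) × ℕ) (y : ℕ) => ¬ W y) ?_
          (by fun_prop)
        exact h2.comp (f := fun z : (((ℕ × ℕ) × List ℕ) × ℕ) × ℕ => z.2) (by fun_prop)
    · refine REIn.all_lt (S := fun (z : (ℕ × ℕ) × List ℕ) (i : ℕ) =>
        ∃ u : ℕ × ℕ, z.2[i]? = some u.1 ∧ z.2[i + 1]? = some u.2 ∧ u.1 < u.2 ∧ W u.2 ∧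
        ∀ y < u.2, y ≤ u.1 ∨ ¬ W y) ?_ (by fun_prop)
      refine REIn.ex (S := fun (z : ((ℕ × ℕ) × List ℕ) × ℕ) (u : ℕ × ℕ) =>
        z.1.2[z.2]? = some u.1 ∧ z.1.2[z.2 + 1]? = some u.2 ∧ u.1 < u.2 ∧ W u.2 ∧
        ∀ y < u.2, y ≤ u.1 ∨ ¬ W y) ?_
      refine REIn.and (REIn.of_re (RE.eq (by fun_prop) (by fun_prop)))
        (REIn.and (REIn.of_re (RE.eq (by fun_prop) (by fun_prop)))
          (REIn.and (REIn.of_re (RE.lt (by fun_prop) (by fun_prop))) (REIn.and ?_ ?_)))
      · exact h1.comp (f := fun z : (((ℕ × ℕ) × List ℕ) × ℕ) × (ℕ × ℕ) => z.2.2) (by fun_prop)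
      · refine REIn.all_lt (S := fun (z : (((ℕ × ℕ) × List ℕ) × ℕ) × (ℕ × ℕ)) (y : ℕ) =>
          y ≤ z.2.1 ∨ ¬ W y) ?_ (by fun_prop)
        refine REIn.or (REIn.of_re (RE.le (by fun_prop) (by fun_prop))) ?_
        exact h2.comp (f := fun z : ((((ℕ × ℕ) × List ℕ) × ℕ) × (ℕ × ℕ)) × ℕ => z.2)
          (by fun_prop)
  have hmono : StrictMono (Nat.nth W) := Nat.nth_strictMono hinf
  have hmem : ∀ n, W (Nat.nth W n) := Nat.nth_mem_of_infinite hinf
  have hsurj : ∀ w, W w → ∃ n, Nat.nth W n = w := nth_surj hinf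
  refine hre.of_eq fun q => ?_
  obtain ⟨n, w⟩ := q
  simp only
  constructor
  · rintro ⟨l, h3, ⟨x, hx1, hx2, hx3⟩, h4⟩
    have key : ∀ i ≤ n, l[i]? = some (Nat.nth W i) := by
      intro i
      induction i with
      | zero =>
        intro _
        rw [hx1]
        obtain ⟨j, hj⟩ := hsurj x hx2
        rcases Nat.eq_zero_or_pos j with hj0 | hj0
        · rw [← hj, hj0]
        · exfalso
          exact hx3 _ (hj ▸ hmono hj0) (hmem 0)
      | succ i ih =>
        intro hi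
        obtain ⟨u, hu1, hu2, hu3, hu4, hu5⟩ := h4 i (by omega)
        rw [ih (by omega)] at hu1
        have hu1' : Nat.nth W i = u.1 := Option.some.inj hu1
        rw [hu2]
        obtain ⟨j, hj⟩ := hsurj u.2 hu4
        have hij : i < j := by
          rw [← hj, ← hu1'] at hu3
          exact hmono.lt_iff_lt.1 hu3
        have hji : j = i + 1 := by
          by_contra hne
          have h6 : Nat.nth W (i + 1) < u.2 := by
            rw [← hj]
            exact hmono (by omega)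
          rcases hu5 _ h6 with h7 | h7
          · rw [← hu1'] at h7
            exact absurd (hmono (Nat.lt_succ_self i)) (by simpa using h7)
          · exact h7 (hmem _)
        rw [← hj, hji]
    rw [key n le_rfl] at h3
    exact Option.some.inj h3
  · rintro rfl
    refine ⟨(List.range (n + 1)).map (Nat.nth W), ?_, ⟨Nat.nth W 0, ?_, hmem 0, ?_⟩, ?_⟩
    · simp
    · simp
    · intro y hy hWy
      obtain ⟨j, rfl⟩ := hsurj y hWy
      exact absurd (hmono.lt_iff_lt.1 hy) (Nat.not_lt_zero j)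
    · intro i hi
      refine ⟨(Nat.nth W i, Nat.nth W (i + 1)), ?_, ?_, hmono (Nat.lt_succ_self i), hmem _, ?_⟩
      · simp only
        rw [List.getElem?_map, List.getElem?_range (by omega)]
        rfl
      · simp only
        rw [List.getElem?_map, List.getElem?_range (by omega)]
        rfl
      · intro y hy
        by_cases hWy : W y
        · left
          obtain ⟨j, rfl⟩ := hsurj y hWy
          have := hmono.lt_iff_lt.1 hy
          exact hmono.monotone (by omega)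
        · exact Or.inr hWy

end dec

theorem t_ENUM : S_ENUM := by
  intro A V hV hinf
  obtain ⟨D, hD1, hD2, hVD⟩ := exists_dec hV
  set W : ℕ → Prop := fun w => D w.unpair.1 w.unpair.2 ∧ ∀ t' < w.unpair.2, ¬ D w.unpair.1 t'
    with hW
  have hW1 : REIn A W := by
    refine REIn.and ?_ ?_
    · exact hD1.comp (f := fun w : ℕ => (w.unpair.1, w.unpair.2)) (by fun_prop)
    · refine REIn.all_lt (S := fun (w t : ℕ) => ¬ D w.unpair.1 t) ?_ (by fun_prop)
      exact hD2.comp (f := fun z : ℕ × ℕ => (z.1.unpair.1, z.2)) (by fun_prop)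
  have hW2 : REIn A fun w => ¬ W w := by
    have h : REIn A fun w : ℕ => (¬ D w.unpair.1 w.unpair.2) ∨
        ∃ t, t < w.unpair.2 ∧ D w.unpair.1 t := by
      refine REIn.or ?_ ?_
      · exact hD2.comp (f := fun w : ℕ => (w.unpair.1, w.unpair.2)) (by fun_prop)
      · refine REIn.ex (S := fun (w t : ℕ) => t < w.unpair.2 ∧ D w.unpair.1 t) ?_
        refine REIn.and (REIn.of_re (RE.lt (by fun_prop) (by fun_prop))) ?_
        exact hD1.comp (f := fun z : ℕ × ℕ => (z.1.unpair.1, z.2)) (by fun_prop)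
    refine h.of_eq fun w => ?_
    rw [hW]
    simp only [not_and_or]
    push Not
    rfl
  have hWV : ∀ x, V x → ∃ w, W w ∧ w.unpair.1 = x := by
    intro x hx
    classical
    have hex := (hVD x).1 hx
    refine ⟨Nat.pair x (Nat.find hex), ⟨?_, ?_⟩, ?_⟩
    · rw [Nat.unpair_pair]
      exact Nat.find_spec hex
    · rw [Nat.unpair_pair]
      intro t ht
      exact Nat.find_min hex ht
    · rw [Nat.unpair_pair]
  have hWinj : ∀ w w', W w → W w' → w.unpair.1 = w'.unpair.1 → w = w' := by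
    intro w w' h1 h2 h3
    have h4 : w.unpair.2 = w'.unpair.2 := by
      rcases lt_trichotomy w.unpair.2 w'.unpair.2 with h | h | h
      · exact absurd (h3 ▸ h1.1) (h2.2 _ h)
      · exact h
      · exact absurd (h3 ▸ h2.1) (h1.2 _ h)
    rw [← Nat.pair_unpair w, ← Nat.pair_unpair w', h3, h4]
  have hWinf : (Set.ofPred W).Infinite := by
    intro hfin
    apply hinf
    refine (hfin.image (fun w : ℕ => w.unpair.1)).subset ?_
    intro x hx
    obtain ⟨w, hw, h⟩ := hWV x hx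
    exact ⟨w, hw, h⟩
  have hg := graph_nth hW1 hW2 hWinf
  have hmem : ∀ n, W (Nat.nth W n) := Nat.nth_mem_of_infinite hWinf
  refine ⟨fun n => (Nat.nth W n).unpair.1, ?_, ?_, ?_, ?_⟩
  · intro n m hnm
    exact (Nat.nth_strictMono hWinf).injective (hWinj _ _ (hmem n) (hmem m) hnm)
  · intro x
    constructor
    · intro hx
      obtain ⟨w, hw, h⟩ := hWV x hx
      obtain ⟨n, hn⟩ := nth_surj hWinf w hw
      exact ⟨n, by rw [← h, ← hn]⟩
    · rintro ⟨n, rfl⟩
      exact (hVD _).2 ⟨_, (hmem n).1⟩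
  · have h : REIn A fun q : ℕ × ℕ => ∃ w, Nat.nth W q.1 = w ∧ w.unpair.1 = q.2 := by
      refine REIn.ex (S := fun (q : ℕ × ℕ) (w : ℕ) => Nat.nth W q.1 = w ∧ w.unpair.1 = q.2) ?_
      refine REIn.and ?_ (REIn.of_re (RE.eq (by fun_prop) (by fun_prop)))
      exact hg.comp (f := fun z : (ℕ × ℕ) × ℕ => (z.1.1, z.2)) (by fun_prop)
    refine h.of_eq fun q => ?_
    simp
  · have h : REIn A fun q : ℕ × ℕ => ∃ w, Nat.nth W q.1 = w ∧ w.unpair.1 ≠ q.2 := by
      refine REIn.ex (S := fun (q : ℕ × ℕ) (w : ℕ) => Nat.nth W q.1 = w ∧ w.unpair.1 ≠ q.2) ?_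
      refine REIn.and ?_ (REIn.of_re (RE.ne (by fun_prop) (by fun_prop)))
      exact hg.comp (f := fun z : (ℕ × ℕ) × ℕ => (z.1.1, z.2)) (by fun_prop)
    refine h.of_eq fun q => ?_
    simp

end Pool.Agent.Q149.AR
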