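import Pool.Agent.Q201.AR.Stm3

/-!
# Project AR, part 3: the job LVA (the levels of codes are arithmetical)
-/

set_option autoImplicit false

namespace Pool.Agent.Q149.ARL

open Pool.Agent.Helper578.JD Pool.Agent.Helper578.JD.Oracle Q201.AR

lemma primrec_cex : Primrec₂ cex := by
  unfold cex
  exact Primrec.nat_add.comp (Primrec.nat_mul.comp (Primrec.const 8)
    (Primrec₂.natPair.comp Primrec.fst Primrec.snd)) (Primrec.const 7)

lemma primrec_cneg : Primrec cneg := by
  unfold cneg cnor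
  exact Primrec.nat_add.comp (Primrec.nat_mul.comp (Primrec.const 8)
    (Primrec₂.natPair.comp Primrec.id Primrec.id)) (Primrec.const 6)

lemma primrec_block : Primrec fun x : ℕ × (List ℕ × ℕ) => x.2.1.foldr cex (cneg x.2.2) := by
  have h := Primrec.list_foldr (α := ℕ × (List ℕ × ℕ)) (f := fun x => x.2.1)
    (g := fun x => cneg x.2.2) (h := fun _ (p : ℕ × ℕ) => cex p.1 p.2)
    (Primrec.fst.comp Primrec.snd)
    (primrec_cneg.comp (Primrec.snd.comp Primrec.snd))
    (primrec_cex.comp (Primrec.fst.comp Primrec.snd) (Primrec.snd.comp Primrec.snd))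
  exact h

theorem t_LVA : S_LVA := by
  intro h1 h2 _ m
  have hB : Arith B0 := h2 h1
  obtain ⟨hcomp, hcp, -, hand, hex⟩ := h1
  induction m with
  | zero =>
    have e : Lv 0 = B0 := funext fun c => rfl
    rw [e]
    exact hB
  | succ m ih =>
    have h3 : Arith fun x : ℕ × (List ℕ × ℕ) =>
        Lv m x.2.2 ∧ x.1 = x.2.1.foldr cex (cneg x.2.2) := by
      refine hand (ℕ × (List ℕ × ℕ)) (fun x : ℕ × (List ℕ × ℕ) => Lv m x.2.2)
        (fun x : ℕ × (List ℕ × ℕ) => x.1 = x.2.1.foldr cex (cneg x.2.2)) ?_ ?_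
      · exact hcomp (ℕ × (List ℕ × ℕ)) ℕ (Lv m) (fun x => x.2.2)
          (Computable.snd.comp Computable.snd) ih
      · exact hcp _ _ (RE.cp_eq Computable.fst primrec_block.to_comp)
    have h4 := hex ℕ (List ℕ × ℕ) (fun x => Lv m x.2.2 ∧ x.1 = x.2.1.foldr cex (cneg x.2.2)) h3
    have e : (fun c : ℕ => ∃ b : List ℕ × ℕ, Lv m b.2 ∧ c = b.1.foldr cex (cneg b.2)) =
        Lv (m + 1) := by
      funext c
      apply propext
      constructor
      · rintro ⟨⟨is, c'⟩, h5, h6⟩
        exact ⟨is, c', h5, h6⟩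
      · rintro ⟨is, c', h5, h6⟩
        exact ⟨(is, c'), h5, h6⟩
    rw [← e]
    exact h4

end Pool.Agent.Q149.ARL
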