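import Mathlib

set_option autoImplicit false

/-!
Alternating orderings of points and two-sided cuts, combinatorial core.

`B i p = true` means that the point `p` is on the left of the cut `i`.
-/

namespace Q149.Alt

open Finset

variable {n : ℕ}

/-- The cuts which separate two points of `X`. -/
def splits (B : Fin n → Fin n → Bool) (X : Finset (Fin n)) : Finset (Fin n) :=
  univ.filter fun i => (∃ p ∈ X, B i p = true) ∧ ∃ q ∈ X, B i q = false

lemma mem_splits {B : Fin n → Fin n → Bool} {X : Finset (Fin n)} {i : Fin n} :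
    i ∈ splits B X ↔ (∃ p ∈ X, B i p = true) ∧ ∃ q ∈ X, B i q = false := by
  rw [splits, mem_filter]
  exact and_iff_right (mem_univ _)

lemma splits_mono {B : Fin n → Fin n → Bool} {X Y : Finset (Fin n)} (h : X ⊆ Y) :
    splits B X ⊆ splits B Y := by
  intro i hi
  rw [mem_splits] at hi ⊢
  obtain ⟨⟨p, hp, hp'⟩, q, hq, hq'⟩ := hi
  exact ⟨⟨p, h hp, hp'⟩, q, h hq, hq'⟩

lemma splits_union {B : Fin n → Fin n → Bool} {X Y : Finset (Fin n)} (h : (X ∩ Y).Nonempty) :
    splits B (X ∪ Y) ⊆ splits B X ∪ splits B Y := by
  intro i hi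
  rw [mem_splits] at hi
  obtain ⟨⟨p, hp, hp'⟩, q, hq, hq'⟩ := hi
  obtain ⟨z, hz⟩ := h
  rw [mem_inter] at hz
  rw [mem_union] at hp hq ⊢
  rw [mem_splits, mem_splits]
  rcases hzB : B i z with _ | _
  · rcases hp with hp | hp
    · exact Or.inl ⟨⟨p, hp, hp'⟩, z, hz.1, hzB⟩
    · exact Or.inr ⟨⟨p, hp, hp'⟩, z, hz.2, hzB⟩
  · rcases hq with hq | hq
    · exact Or.inl ⟨⟨z, hz.1, hzB⟩, q, hq, hq'⟩
    · exact Or.inr ⟨⟨z, hz.2, hzB⟩, q, hq, hq'⟩

/-- A tight set. -/
def Tight (B : Fin n → Fin n → Bool) (X : Finset (Fin n)) : Prop :=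
  X.card = (splits B X).card + 1

lemma tight_union {B : Fin n → Fin n → Bool}
    (hB : ∀ X : Finset (Fin n), X.card ≤ (splits B X).card + 1)
    {X Y : Finset (Fin n)} (hX : Tight B X) (hY : Tight B Y) (h : (X ∩ Y).Nonempty) :
    Tight B (X ∪ Y) := by
  have h1 : (splits B (X ∪ Y)).card + (splits B (X ∩ Y)).card ≤
      (splits B X).card + (splits B Y).card := by
    calc (splits B (X ∪ Y)).card + (splits B (X ∩ Y)).card
        ≤ (splits B X ∪ splits B Y).card + (splits B X ∩ splits B Y).card := by
          refine add_le_add (card_le_card (splits_union h)) (card_le_card ?_)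
          exact subset_inter (splits_mono inter_subset_left) (splits_mono inter_subset_right)
      _ = _ := card_union_add_card_inter _ _
  have h2 := card_union_add_card_inter X Y
  have h3 := hB (X ∪ Y)
  have h4 := hB (X ∩ Y)
  unfold Tight at *
  omega

open Classical in
/-- The union of all tight sets which contain `p`. -/
noncomputable def hull (B : Fin n → Fin n → Bool) (p : Fin n) : Finset (Fin n) :=
  (univ.filter fun X : Finset (Fin n) => Tight B X ∧ p ∈ X).biUnion id

lemma tight_singleton (B : Fin n → Fin n → Bool) (p : Fin n) : Tight B {p} := by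
  have : splits B {p} = ∅ := by
    rw [eq_empty_iff_forall_notMem]
    intro i hi
    rw [mem_splits] at hi
    obtain ⟨⟨a, ha, ha'⟩, b, hb, hb'⟩ := hi
    rw [mem_singleton] at ha hb
    subst ha
    subst hb
    rw [ha'] at hb'
    exact Bool.noConfusion hb'
  rw [Tight, this]
  simp

lemma mem_hull {B : Fin n → Fin n → Bool} {p q : Fin n} :
    q ∈ hull B p ↔ ∃ X, Tight B X ∧ p ∈ X ∧ q ∈ X := by
  classical
  rw [hull, mem_biUnion]
  constructor
  · rintro ⟨X, hX, hq⟩
    rw [mem_filter] at hX
    exact ⟨X, hX.2.1, hX.2.2, hq⟩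
  · rintro ⟨X, hX, hp, hq⟩
    exact ⟨X, mem_filter.2 ⟨mem_univ _, hX, hp⟩, hq⟩

lemma self_mem_hull (B : Fin n → Fin n → Bool) (p : Fin n) : p ∈ hull B p :=
  mem_hull.2 ⟨{p}, tight_singleton B p, mem_singleton_self p, mem_singleton_self p⟩

lemma tight_hull {B : Fin n → Fin n → Bool}
    (hB : ∀ X : Finset (Fin n), X.card ≤ (splits B X).card + 1) (p : Fin n) :
    Tight B (hull B p) := by
  classical
  have key : ∀ F : Finset (Finset (Fin n)), (∀ X ∈ F, Tight B X ∧ p ∈ X) →
      Tight B ({p} ∪ F.biUnion id) ∧ p ∈ {p} ∪ F.biUnion id := by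
    intro F
    induction F using Finset.induction_on with
    | empty =>
      intro _
      rw [biUnion_empty, union_empty]
      exact ⟨tight_singleton B p, mem_singleton_self p⟩
    | insert X F hX ih =>
      intro h
      obtain ⟨h1, h2⟩ := ih (fun Y hY => h Y (mem_insert_of_mem hY))
      have h3 := h X (mem_insert_self _ _)
      have e : {p} ∪ (insert X F).biUnion id = X ∪ ({p} ∪ F.biUnion id) := by
        rw [biUnion_insert, id]
        ext z
        simp only [mem_union]
        tauto
      rw [e]
      exact ⟨tight_union hB h3.1 h1 ⟨p, mem_inter.2 ⟨h3.2, h2⟩⟩, mem_union_left _ h3.2⟩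
  have h1 := (key (univ.filter fun X : Finset (Fin n) => Tight B X ∧ p ∈ X)
    (fun X hX => (mem_filter.1 hX).2)).1
  have e : {p} ∪ (univ.filter fun X : Finset (Fin n) => Tight B X ∧ p ∈ X).biUnion id =
      hull B p := by
    rw [hull]
    apply union_eq_right.2
    rw [singleton_subset_iff]
    exact self_mem_hull B p
  rwa [e] at h1

lemma hull_eq {B : Fin n → Fin n → Bool}
    (hB : ∀ X : Finset (Fin n), X.card ≤ (splits B X).card + 1) {p q : Fin n}
    (h : q ∈ hull B p) : hull B q = hull B p := by
  have h1 := tight_hull hB p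
  have h2 := tight_hull hB q
  have h3 := tight_union hB h1 h2 ⟨q, mem_inter.2 ⟨h, self_mem_hull B q⟩⟩
  apply Subset.antisymm
  · intro z hz
    exact mem_hull.2 ⟨_, h3, mem_union_left _ (self_mem_hull B p), mem_union_right _ hz⟩
  · intro z hz
    exact mem_hull.2 ⟨_, h3, mem_union_right _ (self_mem_hull B q), mem_union_left _ hz⟩

/-- Some cut separates no two points of a tight set. -/
lemma exists_free (hn : 0 < n) {B : Fin n → Fin n → Bool}
    (hB : ∀ X : Finset (Fin n), X.card ≤ (splits B X).card + 1) :
    ∃ g : Fin n, ∀ X, Tight B X → g ∉ splits B X := by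
  classical
  set C : Finset (Finset (Fin n)) := univ.image (hull B) with hC
  have hCne : 1 ≤ C.card := by
    rw [Nat.one_le_iff_ne_zero, Ne, card_eq_zero, ← Ne, ← nonempty_iff_ne_empty]
    exact ⟨hull B ⟨0, hn⟩, mem_image_of_mem _ (mem_univ _)⟩
  have hfib : ∀ K ∈ C, (univ.filter fun p => hull B p = K) = K := by
    intro K hK
    rw [hC, mem_image] at hK
    obtain ⟨q, -, rfl⟩ := hK
    ext p
    rw [mem_filter]
    constructor
    · rintro ⟨-, h⟩
      rw [← h]
      exact self_mem_hull B p
    · intro h
      exact ⟨mem_univ _, hull_eq hB h⟩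
  have hsum : ∑ K ∈ C, K.card = n := by
    have h1 := card_eq_sum_card_fiberwise (s := (univ : Finset (Fin n))) (t := C) (f := hull B)
      (fun p _ => mem_coe.2 (mem_image_of_mem _ (mem_univ p)))
    rw [card_univ, Fintype.card_fin] at h1
    exact (sum_congr rfl (fun K hK => by rw [hfib K hK])).trans h1.symm
  have hU : (C.biUnion (splits B)).card + C.card ≤ n := by
    have h1 : (C.biUnion (splits B)).card ≤ ∑ K ∈ C, (splits B K).card := card_biUnion_le
    have h2 : ∑ K ∈ C, K.card = ∑ K ∈ C, (splits B K).card + C.card := by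
      rw [card_eq_sum_ones, ← sum_add_distrib]
      refine sum_congr rfl (fun K hK => ?_)
      rw [hC, mem_image] at hK
      obtain ⟨q, -, rfl⟩ := hK
      exact tight_hull hB q
    omega
  have h3 : (C.biUnion (splits B)).card < (univ : Finset (Fin n)).card := by
    rw [card_univ, Fintype.card_fin]
    omega
  obtain ⟨g, -, hg⟩ := exists_mem_notMem_of_card_lt_card h3
  refine ⟨g, fun X hX hgX => hg ?_⟩
  have hXne : X.Nonempty := by
    rw [nonempty_iff_ne_empty]
    rintro rfl
    unfold Tight at hX
    simp at hX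
  obtain ⟨p, hp⟩ := hXne
  rw [mem_biUnion]
  refine ⟨hull B p, mem_image_of_mem _ (mem_univ _), splits_mono ?_ hgX⟩
  intro z hz
  exact mem_hull.2 ⟨X, hX, hp, hz⟩

/-- The condition without the free cut. -/
lemma card_le_erase {B : Fin n → Fin n → Bool}
    (hB : ∀ X : Finset (Fin n), X.card ≤ (splits B X).card + 1) {g : Fin n}
    (hg : ∀ X, Tight B X → g ∉ splits B X) (X : Finset (Fin n)) :
    X.card ≤ ((splits B X).erase g).card + 1 := by
  have h := hB X
  by_cases hgX : g ∈ splits B X
  · have h1 : ¬ Tight B X := fun ht => hg X ht hgX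
    rw [card_erase_of_mem hgX]
    unfold Tight at h1
    omega
  · rw [erase_eq_of_notMem hgX]
    exact h

/-- Hall's theorem for one of the sides. -/
lemma matching {B : Fin n → Fin n → Bool} {g : Fin n}
    (hB : ∀ X : Finset (Fin n), X.card ≤ ((splits B X).erase g).card + 1) (b : Bool) :
    ∃ f : Equiv.Perm (Fin n), ∀ i, i ≠ g → B i (f i) = b := by
  classical
  have h := (Finset.all_card_le_biUnion_card_iff_exists_injective
    (fun i : Fin n => if i = g then (univ : Finset (Fin n)) else univ.filter fun p => B i p = b)).1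
    (by
      intro s
      by_cases hgs : g ∈ s
      · have e : s.biUnion (fun i : Fin n => if i = g then (univ : Finset (Fin n)) else
            univ.filter fun p => B i p = b) = univ := by
          rw [eq_univ_iff_forall]
          intro p
          rw [mem_biUnion]
          exact ⟨g, hgs, by rw [if_pos rfl]; exact mem_univ p⟩
        rw [e]
        exact card_le_univ s
      · set U := s.biUnion (fun i : Fin n => if i = g then (univ : Finset (Fin n)) else
            univ.filter fun p => B i p = b) with hU
        have hX : ∀ p ∈ Uᶜ, ∀ i ∈ s, B i p = !b := by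
          intro p hp i hi
          rw [mem_compl, hU, mem_biUnion] at hp
          push Not at hp
          have h1 := hp i hi
          rw [if_neg (fun e : i = g => hgs (e ▸ hi)), mem_filter] at h1
          have h2 : B i p ≠ b := fun e => h1 ⟨mem_univ _, e⟩
          cases hb : B i p <;> cases b <;> simp_all
        have h1 : (splits B Uᶜ).erase g ⊆ (insert g s)ᶜ := by
          intro i hi
          rw [mem_erase, mem_splits] at hi
          obtain ⟨hig, ⟨p, hp, hp'⟩, q, hq, hq'⟩ := hi
          rw [mem_compl, mem_insert]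
          rintro (h2 | h2)
          · exact hig h2
          · rw [hX p hp i h2] at hp'
            rw [hX q hq i h2] at hq'
            rw [hp'] at hq'
            exact Bool.noConfusion hq'
        have h2 := card_le_card h1
        have h3 := hB Uᶜ
        have h4 := card_compl_add_card U
        have h5 := card_compl_add_card (insert g s)
        rw [card_insert_of_notMem hgs] at h5
        rw [Fintype.card_fin] at h4 h5
        omega)
  obtain ⟨f, hinj, hf⟩ := h
  refine ⟨Equiv.ofBijective f (Finite.injective_iff_bijective.1 hinj), fun i hi => ?_⟩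
  have h1 := hf i
  rw [if_neg hi, mem_filter] at h1
  exact h1.2

end Q149.Alt
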