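import Pool.Agent.Q149.Alt1

set_option autoImplicit false

/-!
Alternating orderings of points and two-sided cuts: merging the cycles of a factor.
-/

namespace Q149.Alt

open Equiv Equiv.Perm Function

section merge

variable {α : Type*} [Fintype α] [DecidableEq α]

omit [Fintype α] in
lemma reach (ρ : Perm α) (a b : α) (hab : ¬ ρ.SameCycle a b) :
    ∀ (k : ℕ) (z : α), (ρ ^ k) z = a → z ≠ a → (swap a b * ρ).SameCycle z b
  | 0, z, h, hz => absurd h hz
  | k + 1, z, h, hz => by
    rw [pow_succ, Perm.mul_apply] at h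
    by_cases h1 : ρ z = a
    · have : (swap a b * ρ) z = b := by
        rw [Perm.mul_apply, h1, swap_apply_left]
      have h5 : (swap a b * ρ).SameCycle z ((swap a b * ρ) z) := by
        rw [sameCycle_apply_right]
      rwa [this] at h5
    · have h2 := reach ρ a b hab k (ρ z) h h1
      have h3 : ρ z ≠ b := by
        intro e
        apply hab
        rw [e] at h
        rw [← h, sameCycle_pow_left]
      have h4 : (swap a b * ρ) z = ρ z := by
        rw [Perm.mul_apply, swap_apply_of_ne_of_ne h1 h3]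
      rw [← h4, sameCycle_apply_left] at h2
      exact h2

lemma join (ρ : Perm α) (a b : α) (hab : ¬ ρ.SameCycle a b) : (swap a b * ρ).SameCycle a b := by
  by_cases h1 : ρ a = a
  · have : (swap a b * ρ) a = b := by
      rw [Perm.mul_apply, h1, swap_apply_left]
    have h5 : (swap a b * ρ).SameCycle a ((swap a b * ρ) a) := by
      rw [sameCycle_apply_right]
    rwa [this] at h5
  · have h3 : ρ a ≠ b := by
      intro e
      apply hab
      rw [← e, sameCycle_apply_right]
    have h4 : (swap a b * ρ) a = ρ a := by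
      rw [Perm.mul_apply, swap_apply_of_ne_of_ne h1 h3]
    have h5 : ρ.SameCycle (ρ a) a := by rw [sameCycle_apply_left]
    obtain ⟨k, hk⟩ := h5.exists_nat_pow_eq
    have h6 := reach ρ a b hab k (ρ a) hk h1
    rw [← h4, sameCycle_apply_left] at h6
    exact h6

/-- The cycle of `g` grows when it contains `a` but not `b`. -/
lemma merge (ρ : Perm α) (g a b : α) (ha : ρ.SameCycle g a) (hb : ¬ ρ.SameCycle g b) :
    (∀ z, ρ.SameCycle g z → (swap a b * ρ).SameCycle g z) ∧ (swap a b * ρ).SameCycle g b := by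
  have hab : ¬ ρ.SameCycle a b := fun h => hb (ha.trans h)
  have h1 := join ρ a b hab
  have h2 : ∀ z, ρ.SameCycle g z → (swap a b * ρ).SameCycle z b := by
    intro z hz
    by_cases hza : z = a
    · rw [hza]; exact h1
    · obtain ⟨k, hk⟩ := (hz.symm.trans ha).exists_nat_pow_eq
      exact reach ρ a b hab k z hk hza
  exact ⟨fun z hz => (h2 g (SameCycle.refl _ _)).trans (h2 z hz).symm, h2 g (SameCycle.refl _ _)⟩

end merge

variable {n : ℕ}

/-- The in- and out-matchings of the cuts other than `g`. -/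
def Valid (B : Fin n → Fin n → Bool) (g : Fin n) (F : Perm (Fin n) × Perm (Fin n)) : Prop :=
  (∀ i, i ≠ g → B i (F.1 i) = true) ∧ ∀ i, i ≠ g → B i (F.2 i) = false

open Classical in
/-- The size of the cycle of `g`. -/
noncomputable def size (g : Fin n) (F : Perm (Fin n) × Perm (Fin n)) : ℕ :=
  (Finset.univ.filter fun z => (F.1⁻¹ * F.2).SameCycle g z).card

lemma size_lt (g : Fin n) (F F' : Perm (Fin n) × Perm (Fin n)) (a b : Fin n)
    (ha : (F.1⁻¹ * F.2).SameCycle g a) (hb : ¬ (F.1⁻¹ * F.2).SameCycle g b)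
    (h : F'.1⁻¹ * F'.2 = swap a b * (F.1⁻¹ * F.2)) : size g F < size g F' := by
  classical
  obtain ⟨h1, h2⟩ := merge (F.1⁻¹ * F.2) g a b ha hb
  rw [size, size, h]
  apply Finset.card_lt_card
  rw [Finset.ssubset_iff_of_subset]
  · exact ⟨b, by rw [Finset.mem_filter]; exact ⟨Finset.mem_univ _, h2⟩,
      by rw [Finset.mem_filter]; exact fun hc => hb hc.2⟩
  · intro z hz
    rw [Finset.mem_filter] at hz ⊢
    exact ⟨hz.1, h1 z hz.2⟩

/-- There is a pair of matchings which consists of a single cycle. -/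
lemma exists_single {B : Fin n → Fin n → Bool} {g : Fin n}
    (hex : ∃ F, Valid B g F) :
    ∃ F, Valid B g F ∧ ∀ z, (F.1⁻¹ * F.2).SameCycle g z := by
  classical
  obtain ⟨F0, hF0⟩ := hex
  obtain ⟨F, hF, hmax⟩ := Finset.exists_max_image (Finset.univ.filter fun F => Valid B g F)
    (size g) ⟨F0, by rw [Finset.mem_filter]; exact ⟨Finset.mem_univ _, hF0⟩⟩
  rw [Finset.mem_filter] at hF
  obtain ⟨-, hv⟩ := hF
  have hmax' : ∀ F', Valid B g F' → size g F' ≤ size g F := fun F' hF' =>
    hmax F' (by rw [Finset.mem_filter]; exact ⟨Finset.mem_univ _, hF'⟩)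
  refine ⟨F, hv, ?_⟩
  by_contra hcon
  push Not at hcon
  obtain ⟨v0, hv0⟩ := hcon
  set ρ := F.1⁻¹ * F.2 with hρ
  have hfi : ∀ y, F.1 (ρ y) = F.2 y := by
    intro y
    rw [hρ, Perm.mul_apply]
    exact Equiv.apply_symm_apply F.1 _
  -- swapping the out-values of `a` (inside) and `b` (outside) is never valid
  have swapOut : ∀ a b, ρ.SameCycle g a → ¬ ρ.SameCycle g b →
      (a ≠ g → B a (F.2 b) = false) → B b (F.2 a) = false → False := by
    intro a b ha hb h1 h2
    have hbg : b ≠ g := fun e => hb (e ▸ SameCycle.refl _ _)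
    have hval : Valid B g (F.1, F.2 * swap a b) := by
      refine ⟨hv.1, fun i hi => ?_⟩
      simp only [Perm.mul_apply]
      by_cases hia : i = a
      · subst hia; rw [swap_apply_left]; exact h1 hi
      · by_cases hib : i = b
        · subst hib; rw [swap_apply_right]; exact h2
        · rw [swap_apply_of_ne_of_ne hia hib]; exact hv.2 i hi
    have hlt := size_lt g F (F.1, F.2 * swap a b) (ρ a) (ρ b)
      (by rw [← hρ, sameCycle_apply_right]; exact ha)
      (by rw [← hρ, sameCycle_apply_right]; exact hb)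
      (by
        simp only
        rw [← mul_assoc, ← hρ, mul_swap_eq_swap_mul])
    exact absurd (hmax' _ hval) (not_le.2 hlt)
  have swapIn : ∀ a b, ρ.SameCycle g a → ¬ ρ.SameCycle g b →
      (a ≠ g → B a (F.1 b) = true) → B b (F.1 a) = true → False := by
    intro a b ha hb h1 h2
    have hbg : b ≠ g := fun e => hb (e ▸ SameCycle.refl _ _)
    have hval : Valid B g (F.1 * swap a b, F.2) := by
      refine ⟨fun i hi => ?_, hv.2⟩
      simp only [Perm.mul_apply]
      by_cases hia : i = a
      · subst hia; rw [swap_apply_left]; exact h1 hi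
      · by_cases hib : i = b
        · subst hib; rw [swap_apply_right]; exact h2
        · rw [swap_apply_of_ne_of_ne hia hib]; exact hv.1 i hi
    have hlt := size_lt g F (F.1 * swap a b, F.2) a b
      (by rw [← hρ]; exact ha) (by rw [← hρ]; exact hb)
      (by
        simp only
        rw [mul_inv_rev, swap_inv, mul_assoc])
    exact absurd (hmax' _ hval) (not_le.2 hlt)
  have hin : ∀ i : ℕ, ρ.SameCycle g ((ρ ^ i) g) := by
    intro i
    rw [sameCycle_pow_right]
  -- the points of the path are on the left of all outside cuts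
  have hP : ∀ i : ℕ, (∀ j, 0 < j → j ≤ i → (ρ ^ j) g ≠ g) →
      ∀ v, ¬ ρ.SameCycle g v → B v (F.2 ((ρ ^ i) g)) = true := by
    intro i
    induction i with
    | zero =>
      intro _ v hvo
      by_contra hc
      rw [pow_zero, Perm.one_apply] at hc
      exact swapOut g v (SameCycle.refl _ _) hvo (fun h => absurd rfl h) (by simpa using hc)
    | succ i ih =>
      intro hne v hvo
      have ih' := ih (fun j hj1 hj2 => hne j hj1 (by omega))
      set y := (ρ ^ (i + 1)) g with hy
      have hyg : y ≠ g := hne (i + 1) (by omega) le_rfl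
      have hyc : ρ.SameCycle g y := hin (i + 1)
      have hyin : F.1 y = F.2 ((ρ ^ i) g) := by
        rw [hy, pow_succ', Perm.mul_apply, hfi]
      have h1 : ∀ w, ¬ ρ.SameCycle g w → B y (F.1 w) = false := by
        intro w hw
        by_contra hc
        refine swapIn y w hyc hw (fun _ => by simpa using hc) ?_
        rw [hyin]
        exact ih' w hw
      by_contra hc
      refine swapOut y v hyc hvo (fun _ => ?_) (by simpa using hc)
      rw [← hfi]
      apply h1
      rw [sameCycle_apply_right]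
      exact hvo
  -- the end of the path
  have hper : ∃ m, 0 < m ∧ (ρ ^ m) g = g := by
    refine ⟨orderOf ρ, orderOf_pos ρ, ?_⟩
    rw [pow_orderOf_eq_one, Perm.one_apply]
  classical
  set p := Nat.find hper with hp
  obtain ⟨hp0, hpg⟩ := Nat.find_spec hper
  rw [← hp] at hp0 hpg
  have hmin : ∀ j, 0 < j → j ≤ p - 1 → (ρ ^ j) g ≠ g := by
    intro j hj1 hj2 hj3
    have := Nat.find_min' hper ⟨hj1, hj3⟩
    omega
  have h1 := hP (p - 1) hmin v0 hv0
  have h2 : F.1 g = F.2 ((ρ ^ (p - 1)) g) := by
    rw [← hfi]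
    congr 1
    conv_lhs => rw [← hpg]
    rw [← Perm.mul_apply, ← pow_succ']
    congr 2
    omega
  exact swapIn g v0 (SameCycle.refl _ _) hv0 (fun h => absurd rfl h) (by rw [h2]; exact h1)

/-- **The combinatorial theorem.** If every set of `k` points is separated by at least `k - 1`
cuts, there is an alternating ordering. -/
theorem alternating (B : Fin n → Fin n → Bool)
    (hB : ∀ X : Finset (Fin n), X.card ≤ (splits B X).card + 1) :
    ∃ σ τ : Perm (Fin n), ∀ (i : ℕ) (hi : i + 1 < n),
      B (τ ⟨i, by omega⟩) (σ ⟨i, by omega⟩) = true ∧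
      B (τ ⟨i, by omega⟩) (σ ⟨i + 1, hi⟩) = false := by
  classical
  rcases Nat.eq_zero_or_pos n with rfl | hn
  · exact ⟨1, 1, fun i hi => absurd hi (by omega)⟩
  obtain ⟨g, hg⟩ := exists_free hn hB
  have hB' := card_le_erase hB hg
  obtain ⟨fi, hfi⟩ := matching hB' true
  obtain ⟨fo, hfo⟩ := matching hB' false
  obtain ⟨F, hv, hall⟩ := exists_single (B := B) (g := g) ⟨(fi, fo), hfi, hfo⟩
  set ρ := F.1⁻¹ * F.2 with hρ
  have hfio : ∀ y, F.1 (ρ y) = F.2 y := by
    intro y
    rw [hρ, Perm.mul_apply]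
    exact Equiv.apply_symm_apply F.1 _
  -- the minimal period of `g`
  have hper : ∃ m, 0 < m ∧ (ρ ^ m) g = g := by
    refine ⟨orderOf ρ, orderOf_pos ρ, ?_⟩
    rw [pow_orderOf_eq_one, Perm.one_apply]
  set p := Nat.find hper with hp
  obtain ⟨hp0, hpg⟩ := Nat.find_spec hper
  rw [← hp] at hp0 hpg
  have hmod : ∀ k : ℕ, (ρ ^ k) g = (ρ ^ (k % p)) g := by
    intro k
    conv_lhs => rw [← Nat.mod_add_div k p, pow_add, pow_mul, Perm.mul_apply]
    congr 1
    have : ∀ t : ℕ, ((ρ ^ p) ^ t) g = g := by
      intro t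
      induction t with
      | zero => simp
      | succ t ih => rw [pow_succ, Perm.mul_apply, hpg, ih]
    exact this _
  have hcover : n ≤ p := by
    have h1 : (Finset.univ : Finset (Fin n)) ⊆ (Finset.range p).image (fun i => (ρ ^ i) g) := by
      intro z _
      obtain ⟨k, hk⟩ := (hall z).exists_nat_pow_eq
      rw [Finset.mem_image]
      exact ⟨k % p, Finset.mem_range.2 (Nat.mod_lt _ hp0), by rw [← hmod, hk]⟩
    have h2 := (Finset.card_le_card h1).trans Finset.card_image_le
    rwa [Finset.card_univ, Fintype.card_fin, Finset.card_range] at h2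
  have hne : ∀ j, 0 < j → j < n → (ρ ^ j) g ≠ g := by
    intro j hj1 hj2 hj3
    have := Nat.find_min' hper ⟨hj1, hj3⟩
    omega
  have hinj : Function.Injective (fun i : Fin n => (ρ ^ i.val) g) := by
    have key : ∀ i j : Fin n, i < j → (ρ ^ i.val) g ≠ (ρ ^ j.val) g := by
      intro i j hij h
      have hlt := Fin.lt_def.1 hij
      have e : j.val = i.val + (j.val - i.val) := by omega
      rw [e, pow_add, Perm.mul_apply] at h
      have h1 := (ρ ^ i.val).injective h
      exact hne (j.val - i.val) (by omega) (by have := j.isLt; omega) h1.symm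
    intro i j h
    rcases lt_trichotomy i j with h1 | h1 | h1
    · exact absurd h (key i j h1)
    · exact h1
    · exact absurd h.symm (key j i h1)
  set π : Perm (Fin n) := Equiv.ofBijective _ (Finite.injective_iff_bijective.1 hinj) with hπ
  have hπ' : ∀ i : Fin n, π i = (ρ ^ i.val) g := fun i => rfl
  refine ⟨F.2 * π, ρ * π, fun i hi => ?_⟩
  have h1 : (ρ * π) ⟨i, by omega⟩ = (ρ ^ (i + 1)) g := by
    change ρ (π _) = _
    rw [hπ', pow_succ']
    rfl
  have h2 : (ρ ^ (i + 1)) g ≠ g := hne (i + 1) (by omega) hi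
  constructor
  · have h3 : (F.2 * π) ⟨i, by omega⟩ = F.1 ((ρ * π) ⟨i, by omega⟩) := by
      rw [Perm.mul_apply, Perm.mul_apply, hfio]
    rw [h3, h1]
    exact hv.1 _ h2
  · have h3 : (F.2 * π) ⟨i + 1, hi⟩ = F.2 ((ρ ^ (i + 1)) g) := by
      rw [Perm.mul_apply, hπ']
    rw [h3, h1]
    exact hv.2 _ h2

end Q149.Alt
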