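import Mathlib

/-!
# Second moment: codes with threshold views

Tables `τ : Fin n → α → Bool` are read through views `vw : Fin n → S → α`; if the views of two
states mostly differ then half of the tables reach a given word, and `n + 1` tables reach all words.
-/

set_option autoImplicit false

namespace Pool.Agent.Q149.BDCode

open Finset

/-- Number of tables with one or two prescribed values. -/
theorem card_tab {α : Type} [Fintype α] [DecidableEq α] (v v' : α) (d : Bool) :
    4 * (univ.filter (fun g : α → Bool => g v = d ∧ g v' = d)).card =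
      (if v = v' then 2 else 1) * 2 ^ Fintype.card α := by
  have h1 : univ.filter (fun g : α → Bool => g v = d ∧ g v' = d) =
      Fintype.piFinset (fun x => if x = v ∨ x = v' then ({d} : Finset Bool) else univ) := by
    ext g
    rw [mem_filter, Fintype.mem_piFinset]
    constructor
    · rintro ⟨_, h, h'⟩ x
      by_cases hx : x = v ∨ x = v'
      · rw [if_pos hx, mem_singleton]
        rcases hx with rfl | rfl
        · exact h
        · exact h'
      · rw [if_neg hx]
        exact mem_univ _
    · intro h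
      refine ⟨mem_univ _, ?_, ?_⟩
      · have := h v
        rwa [if_pos (Or.inl rfl), mem_singleton] at this
      · have := h v'
        rwa [if_pos (Or.inr rfl), mem_singleton] at this
  rw [h1, Fintype.card_piFinset]
  have h2 : ∀ x, (if x = v ∨ x = v' then ({d} : Finset Bool) else univ).card =
      if x = v ∨ x = v' then 1 else 2 := by
    intro x
    by_cases hx : x = v ∨ x = v'
    · rw [if_pos hx, if_pos hx, card_singleton]
    · rw [if_neg hx, if_neg hx]
      rfl
  rw [prod_congr rfl (fun x _ => h2 x), prod_ite, prod_const_one, one_mul, prod_const]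
  have h3 := card_filter_add_card_filter_not (s := (univ : Finset α)) (fun x => x = v ∨ x = v')
  rw [card_univ] at h3
  have h4 : (univ.filter (fun x => x = v ∨ x = v')) = {v, v'} := by
    ext x
    simp
  rw [h4] at h3
  by_cases hv : v = v'
  · rw [if_pos hv]
    have h5 : ({v, v'} : Finset α).card = 1 := by
      rw [hv]
      simp
    rw [h5] at h3
    rw [← h3, pow_add]
    ring
  · rw [if_neg hv]
    have h5 : ({v, v'} : Finset α).card = 2 := card_pair hv
    rw [h5] at h3
    rw [← h3, pow_add]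
    ring

/-- Number of families of tables with prescribed values. -/
theorem card_tabs {α : Type} [Fintype α] [DecidableEq α] (n : ℕ) (v v' : Fin n → α)
    (D : Fin n → Bool) :
    4 ^ n * (univ.filter (fun τ : Fin n → α → Bool => ∀ b, τ b (v b) = D b ∧
      τ b (v' b) = D b)).card =
      2 ^ (univ.filter (fun b => v b = v' b)).card * (2 ^ Fintype.card α) ^ n := by
  have h1 : univ.filter (fun τ : Fin n → α → Bool => ∀ b, τ b (v b) = D b ∧ τ b (v' b) = D b) =
      Fintype.piFinset (fun b => univ.filter (fun g : α → Bool => g (v b) = D b ∧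
        g (v' b) = D b)) := by
    ext τ
    simp only [mem_filter, mem_univ, true_and, Fintype.mem_piFinset]
  rw [h1, Fintype.card_piFinset]
  have h2 : (4 : ℕ) ^ n = ∏ _b : Fin n, 4 := by
    rw [prod_const, card_univ, Fintype.card_fin]
  rw [h2, ← prod_mul_distrib, prod_congr rfl (fun b _ => card_tab (v b) (v' b) (D b)),
    prod_mul_distrib, prod_ite, prod_const_one, mul_one, prod_const, prod_const, card_univ,
    Fintype.card_fin]

/-- The second moment method. -/
theorem half {S α : Type} [Fintype S] [Fintype α] [DecidableEq α] (n : ℕ) (vw : Fin n → S → α)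
    (D : Fin n → Bool) (hS : 0 < Fintype.card S)
    (h : ∑ s : S, ∑ s' : S, 2 ^ (univ.filter (fun b => vw b s = vw b s')).card ≤
      2 * Fintype.card S ^ 2) :
    Fintype.card (Fin n → α → Bool) ≤
      2 * (univ.filter (fun τ : Fin n → α → Bool => ∃ s, ∀ b, τ b (vw b s) = D b)).card := by
  classical
  set F := univ.filter (fun τ : Fin n → α → Bool => ∃ s, ∀ b, τ b (vw b s) = D b) with hF
  let X : (Fin n → α → Bool) → ℕ := fun τ =>
    (univ.filter (fun s : S => ∀ b, τ b (vw b s) = D b)).card
  set Q : ℕ := 2 ^ Fintype.card α with hQ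
  have hX0 : ∑ τ, X τ = ∑ τ ∈ F, X τ := by
    symm
    apply sum_subset (subset_univ _)
    intro τ _ hτ
    simp only [X]
    rw [card_eq_zero, filter_eq_empty_iff]
    intro s _ hs
    apply hτ
    rw [hF, mem_filter]
    exact ⟨mem_univ _, s, hs⟩
  have hX1 : 4 ^ n * ∑ τ, X τ = Fintype.card S * (2 ^ n * Q ^ n) := by
    simp only [X]
    simp_rw [card_filter]
    rw [sum_comm, mul_sum]
    have : ∀ s : S, 4 ^ n * (∑ τ : Fin n → α → Bool, if ∀ b, τ b (vw b s) = D b then 1 else 0) =
        2 ^ n * Q ^ n := by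
      intro s
      rw [← card_filter]
      have h1 := card_tabs n (fun b => vw b s) (fun b => vw b s) D
      simp only [and_self, filter_true, card_univ, Fintype.card_fin] at h1
      exact h1
    rw [sum_congr rfl (fun s _ => this s), sum_const, card_univ, smul_eq_mul]
  have hX2 : 4 ^ n * ∑ τ, X τ ^ 2 ≤ 2 * Fintype.card S ^ 2 * Q ^ n := by
    have h1 : ∀ τ, X τ ^ 2 = ∑ s : S, ∑ s' : S,
        if ∀ b, τ b (vw b s) = D b ∧ τ b (vw b s') = D b then 1 else 0 := by
      intro τ
      simp only [X]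
      rw [card_filter, sq, sum_mul_sum]
      apply sum_congr rfl
      intro s _
      apply sum_congr rfl
      intro s' _
      have e1 : (∀ b, τ b (vw b s) = D b ∧ τ b (vw b s') = D b) ↔
          ((∀ b, τ b (vw b s) = D b) ∧ ∀ b, τ b (vw b s') = D b) := forall_and
      by_cases hs : ∀ b, τ b (vw b s) = D b
      · by_cases hs' : ∀ b, τ b (vw b s') = D b
        · rw [if_pos (show ∀ b, τ b (vw b s) = D b from hs),
            if_pos (show ∀ b, τ b (vw b s') = D b from hs'), if_pos (e1.2 ⟨hs, hs'⟩), mul_one]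
        · rw [if_neg (show ¬ ∀ b, τ b (vw b s') = D b from hs'), if_neg (fun h => hs' (e1.1 h).2),
            mul_zero]
      · rw [if_neg (show ¬ ∀ b, τ b (vw b s) = D b from hs), if_neg (fun h => hs (e1.1 h).1),
          zero_mul]
    rw [sum_congr rfl (fun τ _ => h1 τ), sum_comm, mul_sum]
    have h2 : ∀ s : S, 4 ^ n * (∑ τ : Fin n → α → Bool, ∑ s' : S,
        if ∀ b, τ b (vw b s) = D b ∧ τ b (vw b s') = D b then 1 else 0) =
        (∑ s' : S, 2 ^ (univ.filter (fun b => vw b s = vw b s')).card) * Q ^ n := by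
      intro s
      rw [sum_comm, mul_sum, sum_mul]
      apply sum_congr rfl
      intro s' _
      rw [← card_filter]
      exact card_tabs n (fun b => vw b s) (fun b => vw b s') D
    rw [sum_congr rfl (fun s _ => h2 s), ← sum_mul]
    exact Nat.mul_le_mul_right _ h
  have hcs := sq_sum_le_card_mul_sum_sq (s := F) (f := X)
  have hle : ∑ τ ∈ F, X τ ^ 2 ≤ ∑ τ, X τ ^ 2 :=
    sum_le_sum_of_subset (subset_univ _)
  have hcard : Fintype.card (Fin n → α → Bool) = Q ^ n := by
    rw [Fintype.card_fun, Fintype.card_fun, Fintype.card_fin, Fintype.card_bool]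
  rw [hcard]
  rw [← hX0] at hcs
  have h3 : (4 ^ n * ∑ τ, X τ) ^ 2 ≤ F.card * 4 ^ n * (2 * Fintype.card S ^ 2 * Q ^ n) := by
    calc (4 ^ n * ∑ τ, X τ) ^ 2 = (4 ^ n * 4 ^ n) * (∑ τ, X τ) ^ 2 := by ring
      _ ≤ (4 ^ n * 4 ^ n) * (F.card * ∑ τ ∈ F, X τ ^ 2) := Nat.mul_le_mul_left _ hcs
      _ ≤ (4 ^ n * 4 ^ n) * (F.card * ∑ τ, X τ ^ 2) :=
          Nat.mul_le_mul_left _ (Nat.mul_le_mul_left _ hle)
      _ = F.card * 4 ^ n * (4 ^ n * ∑ τ, X τ ^ 2) := by ring
      _ ≤ F.card * 4 ^ n * (2 * Fintype.card S ^ 2 * Q ^ n) := Nat.mul_le_mul_left _ hX2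
  rw [hX1] at h3
  have h4 : (2 : ℕ) ^ n * 2 ^ n = 4 ^ n := by
    rw [← mul_pow]
    norm_num
  have h5 : Fintype.card S ^ 2 * 4 ^ n * Q ^ n * Q ^ n ≤
      Fintype.card S ^ 2 * 4 ^ n * Q ^ n * (2 * F.card) := by
    calc Fintype.card S ^ 2 * 4 ^ n * Q ^ n * Q ^ n
        = (Fintype.card S * (2 ^ n * Q ^ n)) ^ 2 := by rw [← h4]; ring
      _ ≤ F.card * 4 ^ n * (2 * Fintype.card S ^ 2 * Q ^ n) := h3
      _ = Fintype.card S ^ 2 * 4 ^ n * Q ^ n * (2 * F.card) := by ring
  have h6 : 0 < Fintype.card S ^ 2 * 4 ^ n * Q ^ n := by positivity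
  exact Nat.le_of_mul_le_mul_left h5 h6

/-- Greedy covering. -/
theorem greedy_cover {T U : Type} [Fintype T] [Inhabited T] (R : T → U → Prop)
    [∀ τ u, Decidable (R τ u)]
    (h : ∀ u, Fintype.card T ≤ 2 * (univ.filter (fun τ => R τ u)).card) :
    ∀ (l : ℕ) (A : Finset U), A.card < 2 ^ l → ∃ f : Fin l → T, ∀ u ∈ A, ∃ i, R (f i) u := by
  intro l
  induction l with
  | zero =>
    intro A hA
    rw [pow_zero, Nat.lt_one_iff, card_eq_zero] at hA
    subst hA
    exact ⟨fun _ => default, fun u hu => absurd hu (notMem_empty _)⟩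
  | succ l ih =>
    intro A hA
    -- a good first table
    have hex : ∃ τ, A.card ≤ 2 * (A.filter (fun u => R τ u)).card := by
      by_contra hcon
      push Not at hcon
      have h1 : ∑ τ : T, 2 * (A.filter (fun u => R τ u)).card < ∑ _τ : T, A.card :=
        sum_lt_sum_of_nonempty univ_nonempty (fun τ _ => hcon τ)
      rw [sum_const, card_univ, smul_eq_mul, ← mul_sum] at h1
      have h2 : ∑ τ : T, (A.filter (fun u => R τ u)).card =
          ∑ u ∈ A, (univ.filter (fun τ => R τ u)).card := by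
        simp_rw [card_filter]
        rw [sum_comm]
      rw [h2, mul_sum] at h1
      have h3 : ∑ u ∈ A, Fintype.card T ≤ ∑ u ∈ A, 2 * (univ.filter (fun τ => R τ u)).card :=
        sum_le_sum (fun u _ => h u)
      rw [sum_const, smul_eq_mul, mul_comm] at h3
      omega
    obtain ⟨τ, hτ⟩ := hex
    have h1 := card_filter_add_card_filter_not (s := A) (fun u => R τ u)
    obtain ⟨f, hf⟩ := ih (A.filter (fun u => ¬ R τ u)) (by
      rw [pow_succ] at hA
      omega)
    refine ⟨Fin.cons τ f, ?_⟩
    intro u hu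
    by_cases hR : R τ u
    · exact ⟨0, by simpa using hR⟩
    · obtain ⟨i, hi⟩ := hf u (mem_filter.2 ⟨hu, hR⟩)
      exact ⟨i.succ, by simpa using hi⟩

/-- `n + 1` tables reach all words. -/
theorem all_words {S α : Type} [Fintype S] [Fintype α] [DecidableEq α] (n : ℕ)
    (vw : Fin n → S → α) (hS : 0 < Fintype.card S)
    (h : ∑ s : S, ∑ s' : S, 2 ^ (univ.filter (fun b => vw b s = vw b s')).card ≤
      2 * Fintype.card S ^ 2) :
    ∃ f : Fin (n + 1) → Fin n → α → Bool, ∀ D : Fin n → Bool, ∃ i s, ∀ b,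
      f i b (vw b s) = D b := by
  classical
  obtain ⟨f, hf⟩ := greedy_cover (T := Fin n → α → Bool) (U := Fin n → Bool)
    (fun τ D => ∃ s, ∀ b, τ b (vw b s) = D b) (fun D => half n vw D hS h) (n + 1) univ (by
      rw [card_univ, Fintype.card_fun, Fintype.card_fin, Fintype.card_bool]
      exact Nat.pow_lt_pow_right (by norm_num) (Nat.lt_succ_self n))
  exact ⟨f, fun D => hf D (mem_univ _)⟩

end Pool.Agent.Q149.BDCode
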