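import Pool.Agent.Q149.BDThr

/-!
# The numerical estimate
-/

set_option autoImplicit false

namespace Pool.Agent.Q149.BDNum

open Finset Pool.Agent.Q149.BDThr

/-- Normalised power sums. -/
noncomputable def hh (M j : ℕ) : ℝ := (SS M j : ℝ) / (M : ℝ) ^ (j + 2)

theorem hh_nonneg (M j : ℕ) : 0 ≤ hh M j := by
  unfold hh
  positivity

theorem hh_zero (M : ℕ) (hM : 0 < M) : hh M 0 = 1 := by
  unfold hh
  rw [SS_zero]
  push_cast
  have : (0 : ℝ) < M := by exact_mod_cast hM
  field_simp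

theorem hh_le (M j : ℕ) (hM : 0 < M) : hh M j ≤ 1 / M + 2 / (j + 1) := by
  have hM' : (0 : ℝ) < M := by exact_mod_cast hM
  have h := SS_le M j
  have h' : ((j : ℝ) + 1) * SS M j ≤ M * ((j + 1) * (M : ℝ) ^ j + 2 * (M : ℝ) ^ (j + 1)) := by
    exact_mod_cast h
  unfold hh
  rw [div_le_iff₀ (by positivity)]
  have hj : (0 : ℝ) < (j : ℝ) + 1 := by positivity
  have e : (1 / (M : ℝ) + 2 / (j + 1)) * (M : ℝ) ^ (j + 2) =
      (M * ((j + 1) * (M : ℝ) ^ j + 2 * (M : ℝ) ^ (j + 1))) / (j + 1) := by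
    field_simp
    ring
  rw [e, le_div_iff₀ hj]
  linarith

theorem hh_step (M j i : ℕ) (hM : 0 < M) : hh M (j + i) ≤ hh M j := by
  have hM' : (0 : ℝ) < M := by exact_mod_cast hM
  have h := SS_step M j i
  have h' : (SS M (j + i) : ℝ) ≤ (M : ℝ) ^ i * SS M j := by exact_mod_cast h
  unfold hh
  rw [div_le_div_iff₀ (by positivity) (by positivity)]
  calc (SS M (j + i) : ℝ) * (M : ℝ) ^ (j + 2) ≤ ((M : ℝ) ^ i * SS M j) * (M : ℝ) ^ (j + 2) := by
        gcongr
    _ = (SS M j : ℝ) * (M : ℝ) ^ (j + i + 2) := by ring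

theorem hh_two (M : ℕ) (hM : 12 ≤ M) : hh M 2 ≤ 3 / 4 := by
  have h := hh_le M 2 (by omega)
  have hM' : (12 : ℝ) ≤ M := by exact_mod_cast hM
  have h1 : 1 / (M : ℝ) ≤ 1 / 12 := by
    apply one_div_le_one_div_of_le <;> linarith
  push_cast at h
  linarith

theorem hh_one (M : ℕ) (hM : 12 ≤ M) : hh M 1 ≤ 7 / 8 := by
  have hM' : (0 : ℝ) < M := by
    have : 0 < M := by omega
    exact_mod_cast this
  have h := SS_one_sq M
  have h' : (SS M 1 : ℝ) ^ 2 ≤ (M : ℝ) ^ 2 * SS M 2 := by exact_mod_cast h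
  have h2 : hh M 1 ^ 2 ≤ hh M 2 := by
    unfold hh
    rw [div_pow, div_le_div_iff₀ (by positivity) (by positivity)]
    calc (SS M 1 : ℝ) ^ 2 * (M : ℝ) ^ (2 + 2) ≤ ((M : ℝ) ^ 2 * SS M 2) * (M : ℝ) ^ (2 + 2) := by
          gcongr
      _ = (SS M 2 : ℝ) * ((M : ℝ) ^ (1 + 2)) ^ 2 := by ring
  have h3 := hh_two M hM
  have h4 := hh_nonneg M 1
  nlinarith

theorem hh_78 (M j : ℕ) (hM : 12 ≤ M) (hj : 1 ≤ j) : hh M j ≤ 7 / 8 := by
  have h := hh_step M 1 (j - 1) (by omega)
  have e : 1 + (j - 1) = j := by omega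
  rw [e] at h
  exact h.trans (hh_one M hM)

/-- `C(n, j)⁸ ≤ 2^(3 n)` for `16 j ≤ n`. -/
theorem choose_le (n j : ℕ) (hj : 16 * j ≤ n) : n.choose j ^ 8 ≤ 2 ^ (3 * n) := by
  have h1 : (n.choose j : ℝ) * (1 / 16) ^ j ≤ (17 / 16) ^ n := by
    have h2 : ((1 : ℝ) / 16 + 1) ^ n = ∑ m ∈ range (n + 1), (1 / 16) ^ m * 1 ^ (n - m) *
        (n.choose m : ℝ) := add_pow _ _ _
    have h3 : ((1 : ℝ) / 16 + 1) = 17 / 16 := by norm_num
    rw [h3] at h2
    rw [h2]
    have hjn : j ∈ range (n + 1) := by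
      rw [mem_range]
      omega
    have h4 := single_le_sum (f := fun m => ((1 : ℝ) / 16) ^ m * 1 ^ (n - m) *
      (n.choose m : ℝ)) (s := range (n + 1)) (fun m _ => by positivity) hjn
    simp only [one_pow, mul_one] at h4 ⊢
    linarith
  have h5 : (n.choose j : ℝ) ≤ (17 / 16) ^ n * 16 ^ j := by
    have h6 : (n.choose j : ℝ) = (n.choose j : ℝ) * (1 / 16) ^ j * 16 ^ j := by
      rw [mul_assoc, ← mul_pow]
      norm_num
    rw [h6]
    gcongr
  have h7 : ((n.choose j : ℕ) : ℝ) ^ 8 ≤ 2 ^ (3 * n) := by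
    calc ((n.choose j : ℕ) : ℝ) ^ 8 ≤ ((17 / 16) ^ n * 16 ^ j) ^ 8 := by gcongr
      _ = ((17 / 16) ^ 8) ^ n * (2 : ℝ) ^ (32 * j) := by
          rw [mul_pow]
          have e1 : (16 : ℝ) = 2 ^ 4 := by norm_num
          have e2 : ((16 : ℝ) ^ j) ^ 8 = 2 ^ (32 * j) := by
            rw [e1, ← pow_mul, ← pow_mul]
            congr 1
            ring
          rw [e2, ← pow_mul, ← pow_mul, mul_comm n 8]
      _ ≤ 2 ^ n * (2 : ℝ) ^ (2 * n) := by
          have a1 : (((17 : ℝ) / 16) ^ 8) ^ n ≤ 2 ^ n :=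
            pow_le_pow_left₀ (by positivity) (by norm_num) n
          have a2 : (2 : ℝ) ^ (32 * j) ≤ 2 ^ (2 * n) :=
            pow_le_pow_right₀ (by norm_num) (by omega)
          exact mul_le_mul a1 a2 (by positivity) (by positivity)
      _ = 2 ^ (3 * n) := by
          rw [← pow_add]
          congr 1
          ring
  exact_mod_cast h7

theorem exp_grow : ∀ m : ℕ, 12 ≤ m → 6 * (2 * m + 1) * (2 * m + 2) + 7 ≤ 2 ^ m := by
  intro m hm
  induction m, hm using Nat.le_induction with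
  | base => norm_num
  | succ m hm ih =>
    rw [pow_succ]
    nlinarith

/-- The sum of the middle and small ranges. -/
theorem num (n k l : ℕ) (hl : 26 ≤ l) (hn1 : 2 ^ l ≤ n) (hn2 : n < 2 ^ (l + 1))
    (hk : n + 2 ≤ (l - 6) * k) :
    ∑ j ∈ range (n + 1), hh (2 ^ l) j ^ k * (n.choose j : ℝ) ≤ 2 := by
  set M := 2 ^ l with hM
  have hMpos : 0 < M := by positivity
  have hM12 : 12 ≤ M := by
    calc 12 ≤ 2 ^ 4 := by norm_num
      _ ≤ 2 ^ l := Nat.pow_le_pow_right (by norm_num) (by omega)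
  have hn16 : 2 ^ 26 ≤ n := le_trans (Nat.pow_le_pow_right (by norm_num) hl) hn1
  -- the three ranges
  have hI : ∀ j ∈ (range (n + 1)).filter (fun j => n ≤ 16 * j),
      hh M j ^ k * (n.choose j : ℝ) ≤ (1 / 2) ^ (n + 2) * (n.choose j : ℝ) := by
    intro j hj
    rw [mem_filter] at hj
    have hnpos : (0 : ℝ) < n := by
      have : 0 < n := by omega
      exact_mod_cast this
    have h1 : hh M j ≤ (1 / 2) ^ (l - 6) := by
      refine (hh_le M j hMpos).trans ?_
      have h2 : (2 : ℝ) / (j + 1) ≤ 32 / n := by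
        rw [div_le_div_iff₀ (by positivity) hnpos]
        have : (n : ℝ) ≤ 16 * j := by exact_mod_cast hj.2
        nlinarith
      have h3 : (32 : ℝ) / n ≤ 32 / M := by
        apply div_le_div_of_nonneg_left (by norm_num)
        · exact_mod_cast hMpos
        · exact_mod_cast hn1
      have h4 : (1 : ℝ) / M + 32 / M ≤ 64 / M := by
        rw [← add_div]
        apply div_le_div_of_nonneg_right _ (by positivity)
        norm_num
      have h5 : (64 : ℝ) / M = (1 / 2) ^ (l - 6) := by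
        rw [hM]
        push_cast
        have e : (2 : ℝ) ^ l = 2 ^ (l - 6) * 64 := by
          have : (64 : ℝ) = 2 ^ 6 := by norm_num
          rw [this, ← pow_add]
          congr 1
          omega
        rw [e, one_div, inv_pow]
        field_simp
      linarith
    have h6 : hh M j ^ k ≤ (1 / 2) ^ (n + 2) := by
      calc hh M j ^ k ≤ ((1 / 2) ^ (l - 6)) ^ k := pow_le_pow_left₀ (hh_nonneg M j) h1 k
        _ = (1 / 2) ^ ((l - 6) * k) := by rw [← pow_mul]
        _ ≤ (1 / 2) ^ (n + 2) := pow_le_pow_of_le_one (by norm_num) (by norm_num) hk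
    gcongr
  have hsumI : ∑ j ∈ (range (n + 1)).filter (fun j => n ≤ 16 * j),
      hh M j ^ k * (n.choose j : ℝ) ≤ 1 / 4 := by
    refine (sum_le_sum hI).trans ?_
    rw [← mul_sum]
    have h1 : ∑ j ∈ (range (n + 1)).filter (fun j => n ≤ 16 * j), (n.choose j : ℝ) ≤ 2 ^ n := by
      have h2 : (∑ j ∈ range (n + 1), (n.choose j : ℝ)) = 2 ^ n := by
        exact_mod_cast Nat.sum_range_choose n
      rw [← h2]
      apply sum_le_sum_of_subset_of_nonneg (filter_subset _ _)
      intro j _ _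
      positivity
    calc (1 / 2 : ℝ) ^ (n + 2) * ∑ j ∈ (range (n + 1)).filter (fun j => n ≤ 16 * j),
          (n.choose j : ℝ) ≤ (1 / 2) ^ (n + 2) * 2 ^ n := by gcongr
      _ = 1 / 4 := by
          rw [pow_add, mul_right_comm, ← mul_pow]
          norm_num
  -- middle range
  have hII : ∀ j ∈ ((range (n + 1)).filter (fun j => ¬ n ≤ 16 * j)).filter (fun j => n ≤ j * j),
      hh M j ^ k * (n.choose j : ℝ) ≤ 1 / (4 * n) := by
    intro j hj
    rw [mem_filter, mem_filter] at hj
    obtain ⟨⟨_, hj1⟩, hj2⟩ := hj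
    set m := l / 2 with hm
    have hjm : 2 ^ m ≤ j := by
      by_contra hcon
      push Not at hcon
      have h1 : j * j < 2 ^ m * 2 ^ m := Nat.mul_lt_mul'' hcon hcon
      rw [← pow_add] at h1
      have h2 : 2 ^ (m + m) ≤ 2 ^ l := Nat.pow_le_pow_right (by norm_num) (by omega)
      omega
    have hjm' : (2 : ℝ) ^ m ≤ j := by exact_mod_cast hjm
    have h1 : hh M j ≤ (1 / 2) ^ (m - 2) := by
      refine (hh_le M j hMpos).trans ?_
      have h2 : (2 : ℝ) / (j + 1) ≤ 2 / 2 ^ m := by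
        apply div_le_div_of_nonneg_left (by norm_num) (by positivity)
        linarith
      have h3 : (1 : ℝ) / M ≤ 1 / 2 ^ m := by
        rw [hM]
        push_cast
        apply one_div_le_one_div_of_le (by positivity)
        exact pow_le_pow_right₀ (by norm_num) (by omega)
      have h5 : (4 : ℝ) / 2 ^ m = (1 / 2) ^ (m - 2) := by
        have e : (2 : ℝ) ^ m = 2 ^ (m - 2) * 4 := by
          have : (4 : ℝ) = 2 ^ 2 := by norm_num
          rw [this, ← pow_add]
          congr 1
          omega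
        rw [e, one_div, inv_pow]
        field_simp
      have h6 : (1 : ℝ) / 2 ^ m + 2 / 2 ^ m ≤ 4 / 2 ^ m := by
        rw [← add_div]
        apply div_le_div_of_nonneg_right _ (by positivity)
        norm_num
      linarith
    have h6 : hh M j ^ k ≤ (1 / 2) ^ ((m - 2) * k) := by
      calc hh M j ^ k ≤ ((1 / 2) ^ (m - 2)) ^ k := pow_le_pow_left₀ (hh_nonneg M j) h1 k
        _ = (1 / 2) ^ ((m - 2) * k) := by rw [← pow_mul]
    have h7 : n + 2 ≤ 2 * ((m - 2) * k) := by
      calc n + 2 ≤ (l - 6) * k := hk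
        _ ≤ (2 * (m - 2)) * k := Nat.mul_le_mul_right _ (by omega)
        _ = 2 * ((m - 2) * k) := by ring
    -- eighth powers
    have h8 : (hh M j ^ k * (n.choose j : ℝ)) ^ 8 ≤ (1 / 2) ^ (n + 8) := by
      rw [mul_pow]
      have h9 : ((n.choose j : ℕ) : ℝ) ^ 8 ≤ 2 ^ (3 * n) := by
        exact_mod_cast choose_le n j (by omega)
      calc (hh M j ^ k) ^ 8 * (n.choose j : ℝ) ^ 8
          ≤ ((1 / 2) ^ ((m - 2) * k)) ^ 8 * 2 ^ (3 * n) := by
            gcongr
            exact pow_nonneg (hh_nonneg M j) k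
        _ = (1 / 2) ^ (8 * ((m - 2) * k)) * 2 ^ (3 * n) := by
            rw [← pow_mul, mul_comm ((m - 2) * k) 8]
        _ ≤ (1 / 2) ^ (4 * (n + 2)) * 2 ^ (3 * n) := by
            gcongr ?_ * _
            apply pow_le_pow_of_le_one (by norm_num) (by norm_num)
            omega
        _ = (1 / 2) ^ (n + 8) := by
            have e : 4 * (n + 2) = 3 * n + (n + 8) := by ring
            rw [e, pow_add, mul_right_comm, ← mul_pow]
            norm_num
    have h10 : ((1 : ℝ) / 2) ^ (n + 8) ≤ (1 / (4 * n)) ^ 8 := by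
      have h11 : (4 * n) ^ 8 ≤ 2 ^ (n + 8) := by
        have h12 : 4 * n ≤ 2 ^ (l + 3) := by
          have : 2 ^ (l + 3) = 4 * 2 ^ (l + 1) := by ring
          omega
        calc (4 * n) ^ 8 ≤ (2 ^ (l + 3)) ^ 8 := Nat.pow_le_pow_left h12 8
          _ = 2 ^ (8 * (l + 3)) := by rw [← pow_mul, mul_comm]
          _ ≤ 2 ^ (n + 8) := by
              apply Nat.pow_le_pow_right (by norm_num)
              have h13 : 8 * l + 24 ≤ 2 ^ l := by
                have : ∀ l, 26 ≤ l → 8 * l + 24 ≤ 2 ^ l := by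
                  intro l hl
                  induction l, hl using Nat.le_induction with
                  | base => norm_num
                  | succ l hl ih =>
                    rw [pow_succ]
                    omega
                exact this l hl
              omega
      have h11' : ((4 : ℝ) * n) ^ 8 ≤ 2 ^ (n + 8) := by exact_mod_cast h11
      have hnpos : (0 : ℝ) < n := by
        have : 0 < n := by omega
        exact_mod_cast this
      rw [div_pow, div_pow, one_pow, one_pow]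
      exact one_div_le_one_div_of_le (by positivity) h11'
    have h14 : (0 : ℝ) ≤ 1 / (4 * n) := by positivity
    exact le_of_pow_le_pow_left₀ (by norm_num : (8 : ℕ) ≠ 0) h14 (h8.trans h10)
  have hsumII : ∑ j ∈ ((range (n + 1)).filter (fun j => ¬ n ≤ 16 * j)).filter
      (fun j => n ≤ j * j), hh M j ^ k * (n.choose j : ℝ) ≤ 1 / 4 := by
    refine (sum_le_sum hII).trans ?_
    rw [sum_const, nsmul_eq_mul]
    have h1 : (((range (n + 1)).filter (fun j => ¬ n ≤ 16 * j)).filter
        (fun j => n ≤ j * j)).card ≤ n := by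
      have : ((range (n + 1)).filter (fun j => ¬ n ≤ 16 * j)).filter
        (fun j => n ≤ j * j) ⊆ range n := by
        intro j hj
        rw [mem_filter, mem_filter] at hj
        rw [mem_range]
        omega
      have h2 := card_le_card this
      rwa [card_range] at h2
    have h1' : ((((range (n + 1)).filter (fun j => ¬ n ≤ 16 * j)).filter
        (fun j => n ≤ j * j)).card : ℝ) ≤ n := by exact_mod_cast h1
    have hnpos : (0 : ℝ) < n := by
      have : 0 < n := by omega
      exact_mod_cast this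
    calc ((((range (n + 1)).filter (fun j => ¬ n ≤ 16 * j)).filter
        (fun j => n ≤ j * j)).card : ℝ) * (1 / (4 * n)) ≤ n * (1 / (4 * n)) := by gcongr
      _ = 1 / 4 := by field_simp
  -- small range
  set q := Nat.sqrt n with hq
  have hqn : q * q ≤ n := Nat.sqrt_le n
  have hq2 : 2 ^ (l / 2) ≤ q := by
    rw [hq, Nat.le_sqrt, ← pow_add]
    exact le_trans (Nat.pow_le_pow_right (by norm_num) (by omega)) hn1
  have hgrow : 6 * l * (l + 1) + 7 ≤ q := by
    have h1 := exp_grow (l / 2) (by omega)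
    have h2 : l ≤ 2 * (l / 2) + 1 := by omega
    have h3 : 6 * l * (l + 1) ≤ 6 * (2 * (l / 2) + 1) * (2 * (l / 2) + 2) := by
      apply Nat.mul_le_mul
      · omega
      · omega
    omega
  have hk6 : 6 * ((l + 1) * (q + 1) + 2) + 6 ≤ k := by
    by_contra hcon
    push Not at hcon
    have h1 : n + 2 ≤ l * k := hk.trans (Nat.mul_le_mul_right _ (by omega))
    have h2 : l * k ≤ l * (6 * ((l + 1) * (q + 1) + 2) + 6) := Nat.mul_le_mul_left _ hcon.le
    nlinarith
  have hIII : ∀ j ∈ ((range (n + 1)).filter (fun j => ¬ n ≤ 16 * j)).filter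
      (fun j => ¬ n ≤ j * j), j ≠ 0 → hh M j ^ k * (n.choose j : ℝ) ≤ 1 / (4 * n) := by
    intro j hj hj0
    rw [mem_filter, mem_filter] at hj
    have hjq : j ≤ q := by
      rw [hq, Nat.le_sqrt]
      omega
    have h1 : hh M j ^ k ≤ (1 / 2) ^ ((l + 1) * (q + 1) + 2) := by
      calc hh M j ^ k ≤ (7 / 8) ^ k :=
            pow_le_pow_left₀ (hh_nonneg M j) (hh_78 M j hM12 (by omega)) k
        _ ≤ (7 / 8) ^ (6 * ((l + 1) * (q + 1) + 2)) :=
            pow_le_pow_of_le_one (by norm_num) (by norm_num) (by omega)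
        _ = ((7 / 8) ^ 6) ^ ((l + 1) * (q + 1) + 2) := by rw [← pow_mul]
        _ ≤ (1 / 2) ^ ((l + 1) * (q + 1) + 2) := by
            gcongr
            norm_num
    have h2 : (n.choose j : ℝ) ≤ 2 ^ ((l + 1) * q) := by
      have h3 : n.choose j ≤ 2 ^ ((l + 1) * q) := by
        calc n.choose j ≤ n ^ j := Nat.choose_le_pow n j
          _ ≤ n ^ q := Nat.pow_le_pow_right (by omega) hjq
          _ ≤ (2 ^ (l + 1)) ^ q := Nat.pow_le_pow_left hn2.le q
          _ = 2 ^ ((l + 1) * q) := by rw [← pow_mul]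
      exact_mod_cast h3
    have hnpos : (0 : ℝ) < n := by
      have : 0 < n := by omega
      exact_mod_cast this
    calc hh M j ^ k * (n.choose j : ℝ)
        ≤ (1 / 2) ^ ((l + 1) * (q + 1) + 2) * 2 ^ ((l + 1) * q) := by gcongr
      _ = 1 / (4 * 2 ^ (l + 1)) := by
          have e : (l + 1) * (q + 1) + 2 = (l + 1) * q + (l + 1) + 2 := by ring
          have e3 : ((1 : ℝ) / 2) ^ ((l + 1) * q) * 2 ^ ((l + 1) * q) = 1 := by
            rw [← mul_pow]
            norm_num
          have e4 : ((1 : ℝ) / 2) ^ (l + 1) = 1 / 2 ^ (l + 1) := by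
            rw [div_pow, one_pow]
          rw [e, pow_add, pow_add, e4]
          calc ((1 : ℝ) / 2) ^ ((l + 1) * q) * (1 / 2 ^ (l + 1)) * (1 / 2) ^ 2 *
                2 ^ ((l + 1) * q)
              = (((1 : ℝ) / 2) ^ ((l + 1) * q) * 2 ^ ((l + 1) * q)) *
                ((1 / 2 ^ (l + 1)) * (1 / 2) ^ 2) := by ring
            _ = 1 / (4 * 2 ^ (l + 1)) := by
                rw [e3]
                field_simp
                norm_num
      _ ≤ 1 / (4 * n) := by
          apply one_div_le_one_div_of_le (by positivity)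
          have : (n : ℝ) ≤ 2 ^ (l + 1) := by exact_mod_cast hn2.le
          linarith
  have hsumIII : ∑ j ∈ ((range (n + 1)).filter (fun j => ¬ n ≤ 16 * j)).filter
      (fun j => ¬ n ≤ j * j), hh M j ^ k * (n.choose j : ℝ) ≤ 1 + 1 / 4 := by
    set A := ((range (n + 1)).filter (fun j => ¬ n ≤ 16 * j)).filter (fun j => ¬ n ≤ j * j)
      with hA
    have h0 : 0 ∈ A := by
      rw [hA, mem_filter, mem_filter, mem_range]
      omega
    rw [← add_sum_erase A _ h0]
    have h1 : hh M 0 ^ k * (n.choose 0 : ℝ) = 1 := by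
      rw [hh_zero M hMpos]
      simp
    rw [h1]
    have h2 : ∑ j ∈ A.erase 0, hh M j ^ k * (n.choose j : ℝ) ≤ 1 / 4 := by
      refine (sum_le_sum (fun j hj => hIII j (mem_of_mem_erase hj) (ne_of_mem_erase hj))).trans ?_
      rw [sum_const, nsmul_eq_mul]
      have h3 : (A.erase 0).card ≤ n := by
        have : A.erase 0 ⊆ (range (n + 1)).erase 0 := by
          apply erase_subset_erase
          intro j hj
          rw [hA, mem_filter, mem_filter] at hj
          exact hj.1.1
        have h4 := card_le_card this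
        have h5 : ((range (n + 1)).erase 0).card = n := by
          rw [card_erase_of_mem (by simp), card_range]
          rfl
        omega
      have h3' : ((A.erase 0).card : ℝ) ≤ n := by exact_mod_cast h3
      have hnpos : (0 : ℝ) < n := by
        have : 0 < n := by omega
        exact_mod_cast this
      calc ((A.erase 0).card : ℝ) * (1 / (4 * n)) ≤ n * (1 / (4 * n)) := by gcongr
        _ = 1 / 4 := by field_simp
    linarith
  rw [← sum_filter_add_sum_filter_not (range (n + 1)) (fun j => n ≤ 16 * j)]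
  rw [← sum_filter_add_sum_filter_not ((range (n + 1)).filter (fun j => ¬ n ≤ 16 * j))
    (fun j => n ≤ j * j)]
  linarith

/-- Codes exist for `k` with `n + 2 ≤ (l - 6) k`. -/
theorem code (n k l : ℕ) (hl : 26 ≤ l) (hn1 : 2 ^ l ≤ n) (hn2 : n < 2 ^ (l + 1))
    (hk : n + 2 ≤ (l - 6) * k) :
    ∃ (r : Fin n → Fin k → Fin (2 ^ l)) (f : Fin (n + 1) → Fin n → (Fin k → Bool) → Bool),
      ∀ D : Fin n → Bool, ∃ i s, ∀ b, f i b (vw r b s) = D b := by
  apply BDThr.code n k (2 ^ l) (by positivity)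
  have h := num n k l hl hn1 hn2 hk
  set M := 2 ^ l with hM
  have hMpos : 0 < M := by positivity
  have hM' : (0 : ℝ) < M := by exact_mod_cast hMpos
  have e : ((∑ j ∈ range (n + 1), SS M j ^ k * (M ^ k) ^ (n - j) * n.choose j : ℕ) : ℝ) =
      (∑ j ∈ range (n + 1), hh M j ^ k * (n.choose j : ℝ)) * (((M : ℝ) ^ k) ^ 2 *
        ((M : ℝ) ^ k) ^ n) := by
    push_cast
    rw [sum_mul]
    apply sum_congr rfl
    intro j hj
    rw [mem_range] at hj
    have hs : (SS M j : ℝ) = hh M j * (M : ℝ) ^ (j + 2) := by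
      unfold hh
      field_simp
    rw [hs, mul_pow]
    have e2 : ((M : ℝ) ^ (j + 2)) ^ k * ((M : ℝ) ^ k) ^ (n - j) =
        ((M : ℝ) ^ k) ^ 2 * ((M : ℝ) ^ k) ^ n := by
      rw [← pow_mul, ← pow_mul, ← pow_mul, ← pow_mul, ← pow_add, ← pow_add]
      congr 1
      have : n = j + (n - j) := by omega
      nth_rewrite 2 [this]
      ring
    rw [mul_assoc (hh M j ^ k), e2]
    ring
  have h2 : ((∑ j ∈ range (n + 1), SS M j ^ k * (M ^ k) ^ (n - j) * n.choose j : ℕ) : ℝ) ≤
      2 * (((M : ℝ) ^ k) ^ 2 * ((M : ℝ) ^ k) ^ n) := by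
    rw [e]
    gcongr
  have h3 : ((∑ j ∈ range (n + 1), SS M j ^ k * (M ^ k) ^ (n - j) * n.choose j : ℕ) : ℝ) ≤
      ((2 * (M ^ k) ^ 2 * (M ^ k) ^ n : ℕ) : ℝ) := by
    refine h2.trans (le_of_eq ?_)
    push_cast
    ring
  exact_mod_cast h3

end Pool.Agent.Q149.BDNum
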