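import Pool.Agent.Q149.BDNum

/-!
# Boolean realizers from codes
-/

set_option autoImplicit false

namespace Pool.Agent.Q149.BDPoset

open Finset

/-- A Boolean realizer of size `d`: `d` linear orders and a Boolean function `τ` such that for
distinct `x`, `y` one has `x < y` in the poset if and only if `τ` is true at the vector whose `i`-th
entry says whether `x < y` in the `i`-th linear order. -/
def HasBooleanRealizer (X : Type) [PartialOrder X] (d : ℕ) : Prop :=
  ∃ (L : Fin d → LinearOrder X) (τ : (Fin d → Prop) → Prop),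
    ∀ x y : X, x ≠ y → (x < y ↔ τ (fun i => (L i).lt x y))

/-- A criterion with ranks. -/
theorem of_ranks (X : Type) [PartialOrder X] (ι : Type) [Fintype ι] (R : ι → X → ℕ)
    (hR : ∀ i, Function.Injective (R i))
    (h : ∀ x y x' y' : X, x ≠ y → x' ≠ y' → (∀ i, R i x < R i y ↔ R i x' < R i y') →
      x < y → x' < y') : HasBooleanRealizer X (Fintype.card ι) := by
  let e := Fintype.equivFin ι
  refine ⟨fun i => LinearOrder.lift' (R (e.symm i)) (hR _), fun v => ∃ x y : X, x ≠ y ∧ x < y ∧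
    ∀ i, v i ↔ R (e.symm i) x < R (e.symm i) y, ?_⟩
  intro x y hxy
  constructor
  · intro hlt
    exact ⟨x, y, hxy, hlt, fun i => Iff.rfl⟩
  · rintro ⟨x', y', hxy', hlt, hv⟩
    refine h x' y' x y hxy' hxy ?_ hlt
    intro i
    have h1 : R (e.symm (e i)) x < R (e.symm (e i)) y ↔ R (e.symm (e i)) x' < R (e.symm (e i)) y' :=
      hv (e i)
    rw [Equiv.symm_apply_apply] at h1
    exact h1.symm

/-- The criterion for four ranks and five families of ranks. -/
theorem of_families (X : Type) [PartialOrder X] (w k e : ℕ) (R0 R1 R2 R3 : X → ℕ)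
    (R4 R5 R6 : Fin w → X → ℕ) (R7 : Fin k → X → ℕ) (R8 : Fin e → X → ℕ)
    (i0 : Function.Injective R0) (i1 : Function.Injective R1) (i2 : Function.Injective R2)
    (i3 : Function.Injective R3) (i4 : ∀ j, Function.Injective (R4 j))
    (i5 : ∀ j, Function.Injective (R5 j)) (i6 : ∀ j, Function.Injective (R6 j))
    (i7 : ∀ j, Function.Injective (R7 j)) (i8 : ∀ j, Function.Injective (R8 j))
    (h : ∀ x y x' y' : X, x ≠ y → x' ≠ y' → (R0 x < R0 y ↔ R0 x' < R0 y') →
      (R1 x < R1 y ↔ R1 x' < R1 y') → (R2 x < R2 y ↔ R2 x' < R2 y') →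
      (R3 x < R3 y ↔ R3 x' < R3 y') → (∀ j, R4 j x < R4 j y ↔ R4 j x' < R4 j y') →
      (∀ j, R5 j x < R5 j y ↔ R5 j x' < R5 j y') → (∀ j, R6 j x < R6 j y ↔ R6 j x' < R6 j y') →
      (∀ j, R7 j x < R7 j y ↔ R7 j x' < R7 j y') → (∀ j, R8 j x < R8 j y ↔ R8 j x' < R8 j y') →
      x < y → x' < y') : HasBooleanRealizer X (4 + (w + (w + (w + (k + e))))) := by
  let Rs : Fin 4 → X → ℕ := ![R0, R1, R2, R3]
  let R : Fin 4 ⊕ (Fin w ⊕ (Fin w ⊕ (Fin w ⊕ (Fin k ⊕ Fin e)))) → X → ℕ :=
    Sum.elim Rs (Sum.elim R4 (Sum.elim R5 (Sum.elim R6 (Sum.elim R7 R8))))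
  have hc : Fintype.card (Fin 4 ⊕ (Fin w ⊕ (Fin w ⊕ (Fin w ⊕ (Fin k ⊕ Fin e))))) =
      4 + (w + (w + (w + (k + e)))) := by
    simp
  rw [← hc]
  apply of_ranks X _ R
  · rintro (i | i | i | i | i | i)
    · fin_cases i
      · exact i0
      · exact i1
      · exact i2
      · exact i3
    · exact i4 i
    · exact i5 i
    · exact i6 i
    · exact i7 i
    · exact i8 i
  · intro x y x' y' hxy hxy' hR
    exact h x y x' y' hxy hxy' (hR (Sum.inl 0)) (hR (Sum.inl 1)) (hR (Sum.inl 2))
      (hR (Sum.inl 3)) (fun j => hR (Sum.inr (Sum.inl j)))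
      (fun j => hR (Sum.inr (Sum.inr (Sum.inl j))))
      (fun j => hR (Sum.inr (Sum.inr (Sum.inr (Sum.inl j)))))
      (fun j => hR (Sum.inr (Sum.inr (Sum.inr (Sum.inr (Sum.inl j))))))
      (fun j => hR (Sum.inr (Sum.inr (Sum.inr (Sum.inr (Sum.inr j))))))

/-- Ranks from keys and ties. -/
def rk (N : ℕ) (κ t : ℕ) : ℕ := κ * N + t

theorem rk_lt {N κ t κ' t' : ℕ} (ht : t < N) (ht' : t' < N) :
    rk N κ t < rk N κ' t' ↔ κ < κ' ∨ (κ = κ' ∧ t < t') := by
  unfold rk
  constructor
  · intro h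
    rcases lt_trichotomy κ κ' with h1 | h1 | h1
    · exact Or.inl h1
    · right
      subst h1
      exact ⟨rfl, by omega⟩
    · exfalso
      have : (κ' + 1) * N ≤ κ * N := Nat.mul_le_mul_right _ h1
      rw [add_mul] at this
      omega
  · rintro (h1 | ⟨rfl, h2⟩)
    · have : (κ + 1) * N ≤ κ' * N := Nat.mul_le_mul_right _ h1
      rw [add_mul] at this
      omega
    · omega

theorem rk_inj {N κ t κ' t' : ℕ} (ht : t < N) (ht' : t' < N) (h : rk N κ t = rk N κ' t') :
    κ = κ' ∧ t = t' := by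
  have h1 := (rk_lt (κ := κ) (κ' := κ') ht ht').not.1 (by omega)
  have h2 := (rk_lt (κ := κ') (κ' := κ) ht' ht).not.1 (by omega)
  push Not at h1 h2
  have h3 : κ = κ' := le_antisymm h2.1 h1.1
  exact ⟨h3, le_antisymm (h2.2 h3.symm) (h1.2 h3)⟩

/-- Three orders tell the classes of both elements. -/
theorem cls (N u v a b a' b' : ℕ) (p q p' q' : Prop) [Decidable p] [Decidable q] [Decidable p']
    [Decidable q'] (huv : u < v) (ha : a < N) (hb : b < N) (ha' : a' < N) (hb' : b' < N)
    (hab : a ≠ b) (hab' : a' ≠ b')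
    (h1 : rk N (if p then u else v) a < rk N (if q then u else v) b ↔
      rk N (if p' then u else v) a' < rk N (if q' then u else v) b')
    (h2 : rk N (if p then u else v) (N - 1 - a) < rk N (if q then u else v) (N - 1 - b) ↔
      rk N (if p' then u else v) (N - 1 - a') < rk N (if q' then u else v) (N - 1 - b'))
    (h3 : rk N (if p then u else v) (if p then a else N - 1 - a) <
        rk N (if q then u else v) (if q then b else N - 1 - b) ↔
      rk N (if p' then u else v) (if p' then a' else N - 1 - a') <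
        rk N (if q' then u else v) (if q' then b' else N - 1 - b')) :
    (p ↔ p') ∧ (q ↔ q') := by
  have e : ∀ (r : Prop) [Decidable r] (c : ℕ), c < N → (if r then c else N - 1 - c) < N := by
    intro r _ c hc
    split_ifs <;> omega
  rw [rk_lt ha hb, rk_lt ha' hb'] at h1
  rw [rk_lt (by omega) (by omega), rk_lt (by omega) (by omega)] at h2
  rw [rk_lt (e p a ha) (e q b hb), rk_lt (e p' a' ha') (e q' b' hb')] at h3
  by_cases c1 : p <;> by_cases c2 : q <;> by_cases c3 : p' <;> by_cases c4 : q' <;>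
    simp only [c1, c2, c3, c4, if_true, if_false, iff_true, iff_false, not_true_eq_false,
      not_false_eq_true, and_self, and_true, true_and, and_false, false_and] at h1 h2 h3 ⊢ <;>
    omega

/-- Ranks with injective ties are injective. -/
theorem inj_tie {X : Type} (N : ℕ) (κ t : X → ℕ) (ht : ∀ x, t x < N)
    (hi : ∀ x y, κ x = κ y → t x = t y → x = y) : Function.Injective (fun x => rk N (κ x) (t x)) :=
  fun x y h => hi x y (rk_inj (ht x) (ht y) h).1 (rk_inj (ht x) (ht y) h).2

end Pool.Agent.Q149.BDPoset
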