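import Pool.Agent.Q149.BDPoset

/-!
# Boolean realizers of an antichain plus a set
-/

set_option autoImplicit false

namespace Pool.Agent.Q149.BDReal

open Finset Pool.Agent.Q149.BDPoset

theorem eq_of_bits (w m m' : ℕ) (hm : m < 2 ^ w) (hm' : m' < 2 ^ w)
    (h : ∀ j : Fin w, m.testBit j = true ↔ m'.testBit j = true) : m = m' := by
  apply Nat.eq_of_testBit_eq
  intro i
  by_cases hi : i < w
  · have h1 := h ⟨i, hi⟩
    rw [Bool.eq_iff_iff]
    exact h1
  · have h2 : 2 ^ w ≤ 2 ^ i := Nat.pow_le_pow_right (by norm_num) (by omega)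
    rw [Nat.testBit_lt_two_pow (by omega), Nat.testBit_lt_two_pow (by omega)]

/-- A poset which is an antichain plus the set `B` has a Boolean realizer. -/
theorem realizer (X : Type) [Fintype X] [PartialOrder X] (B : Finset X)
    (hB : ∀ x y, x ∉ B → y ∉ B → ¬ x < y) (n w k T e M : ℕ) (hn : B.card = n) (hw : n ≤ 2 ^ w)
    (hT : T ≤ 2 ^ e) (r : Fin n → Fin k → Fin M) (f : Fin T → Fin n → (Fin k → Bool) → Bool)
    (hcode : ∀ D : Fin n → Bool, ∃ i s, ∀ b, f i b (BDThr.vw r b s) = D b) :
    HasBooleanRealizer X (4 + (w + (w + (w + (k + e))))) := by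
  classical
  obtain ⟨N, hN⟩ : ∃ N, N = Fintype.card X := ⟨_, rfl⟩
  obtain ⟨t1, ht1, ht1i⟩ : ∃ t1 : X → ℕ, (∀ x, t1 x < N) ∧ ∀ x y, t1 x = t1 y → x = y := by
    refine ⟨fun x => (Fintype.equivFin X x).1, ?_, ?_⟩
    · intro x
      rw [hN]
      exact (Fintype.equivFin X x).2
    · intro x y h
      exact (Fintype.equivFin X).injective (Fin.ext h)
  have ht2 : ∀ x, N - 1 - t1 x < N := fun x => by
    have := ht1 x
    omega
  have ht2i : ∀ x y, N - 1 - t1 x = N - 1 - t1 y → x = y := fun x y h => by
    apply ht1i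
    have h1 := ht1 x
    have h2 := ht1 y
    omega
  -- the index of the elements of `B`
  let eb : B ≃ Fin n := B.equivFinOfCardEq hn
  obtain ⟨β, hβ, hβ0⟩ : ∃ β : X → ℕ, (∀ x (h : x ∈ B), β x = (eb ⟨x, h⟩).1) ∧
      ∀ x, x ∉ B → β x = 0 := by
    refine ⟨fun x => if h : x ∈ B then (eb ⟨x, h⟩).1 else 0, ?_, ?_⟩
    · intro x h
      show (if h : x ∈ B then (eb ⟨x, h⟩).1 else 0) = _
      rw [dif_pos h]
    · intro x h
      show (if h : x ∈ B then (eb ⟨x, h⟩).1 else 0) = _
      rw [dif_neg h]
  have hβlt : ∀ x, x ∈ B → β x < 2 ^ w := by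
    intro x h
    rw [hβ x h]
    exact lt_of_lt_of_le (eb ⟨x, h⟩).2 hw
  have hβinj : ∀ x y, x ∈ B → y ∈ B → β x = β y → x = y := by
    intro x y hx hy h
    rw [hβ x hx, hβ y hy] at h
    have := eb.injective (Fin.ext h)
    exact congrArg Subtype.val this
  -- the codes of the elements
  have hcd : ∀ x : X, ∃ (i : Fin T) (s : Fin k → Fin M), ∀ b : Fin n,
      f i b (BDThr.vw r b s) = decide (((eb.symm b).1 < x) ∨ (x < (eb.symm b).1)) :=
    fun x => hcode (fun b => decide (((eb.symm b).1 < x) ∨ (x < (eb.symm b).1)))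
  choose tt ss htt using hcd
  obtain ⟨rr, hrr⟩ : ∃ rr : X → Fin k → ℕ, ∀ x (h : x ∈ B) i, rr x i = (r (eb ⟨x, h⟩) i).1 := by
    refine ⟨fun x i => if h : x ∈ B then (r (eb ⟨x, h⟩) i).1 else 0, ?_⟩
    intro x h i
    show (if h : x ∈ B then (r (eb ⟨x, h⟩) i).1 else 0) = _
    rw [dif_pos h]
  -- comparability is a function of the code
  have hcomp : ∀ b a a', b ∈ B → tt a = tt a' → (∀ i, rr b i < (ss a i).1 ↔ rr b i < (ss a' i).1) →
      (b < a ∨ a < b) → (b < a' ∨ a' < b) := by
    intro b a a' hb htt' hss hba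
    have h1 := htt a (eb ⟨b, hb⟩)
    have h2 := htt a' (eb ⟨b, hb⟩)
    rw [Equiv.symm_apply_apply] at h1 h2
    have h3 : BDThr.vw r (eb ⟨b, hb⟩) (ss a) = BDThr.vw r (eb ⟨b, hb⟩) (ss a') := by
      rw [BDThr.vw_eq]
      intro i
      have h4 := hss i
      rw [hrr b hb i] at h4
      exact h4
    rw [htt', h3, h2] at h1
    have h5 := decide_eq_decide.1 h1
    exact h5.2 hba
  let κ0 : X → ℕ := fun x => (univ.filter (fun y => y < x)).card
  have hκ0 : ∀ x y, x < y → κ0 x < κ0 y := by
    intro x y h
    apply card_lt_card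
    rw [ssubset_iff_of_subset]
    · exact ⟨x, by simpa using h, by simp⟩
    · intro z hz
      rw [mem_filter] at hz ⊢
      exact ⟨mem_univ _, hz.2.trans h⟩
  let κB : X → ℕ := fun x => if x ∈ B then 0 else 1
  let κ2 : Fin w → X → ℕ := fun j x =>
    if x ∈ B then (if ¬ (β x).testBit j = true then 0 else 2) else 1
  let κ3 : Fin k → X → ℕ := fun i x => if x ∈ B then 2 * rr x i + 1 else 2 * (ss x i).1
  let κ4 : Fin e → X → ℕ := fun c x =>
    if x ∈ B then 1 else (if ((tt x).1).testBit c = true then 2 else 0)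
  have hκBt : ∀ x, x ∈ B → κB x = 0 := fun x h => if_pos h
  have hκBf : ∀ x, x ∉ B → κB x = 1 := fun x h => if_neg h
  have hκ2t : ∀ j x, x ∈ B → κ2 j x = if ¬ (β x).testBit j = true then 0 else 2 :=
    fun j x h => if_pos h
  have hκ2f : ∀ j x, x ∉ B → κ2 j x = 1 := fun j x h => if_neg h
  have hκ3t : ∀ j x, x ∈ B → κ3 j x = 2 * rr x j + 1 := fun j x h => if_pos h
  have hκ3f : ∀ j x, x ∉ B → κ3 j x = 2 * (ss x j).1 := fun j x h => if_neg h
  have hκ4t : ∀ j x, x ∈ B → κ4 j x = 1 := fun j x h => if_pos h
  have hκ4f : ∀ j x, x ∉ B → κ4 j x = if ((tt x).1).testBit j = true then 2 else 0 :=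
    fun j x h => if_neg h
  apply of_families X w k e
    (fun x => rk N (κ0 x) (t1 x)) (fun x => rk N (κB x) (t1 x))
    (fun x => rk N (κB x) (N - 1 - t1 x))
    (fun x => rk N (κB x) (if x ∈ B then t1 x else N - 1 - t1 x))
    (fun j x => rk N (κ2 j x) (t1 x)) (fun j x => rk N (κ2 j x) (N - 1 - t1 x))
    (fun j x => rk N (κ2 j x) (if ¬ (β x).testBit j = true then t1 x else N - 1 - t1 x))
    (fun j x => rk N (κ3 j x) (t1 x)) (fun j x => rk N (κ4 j x) (t1 x))
  · exact inj_tie N _ _ ht1 (fun x y _ h => ht1i x y h)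
  · exact inj_tie N _ _ ht1 (fun x y _ h => ht1i x y h)
  · exact inj_tie N _ _ ht2 (fun x y _ h => ht2i x y h)
  · apply inj_tie N
    · intro x
      split_ifs
      · exact ht1 x
      · exact ht2 x
    · intro x y h1 h2
      by_cases hx : x ∈ B
      · by_cases hy : y ∈ B
        · rw [if_pos hx, if_pos hy] at h2
          exact ht1i x y h2
        · rw [hκBt x hx, hκBf y hy] at h1
          exact absurd h1 (by norm_num)
      · by_cases hy : y ∈ B
        · rw [hκBf x hx, hκBt y hy] at h1
          exact absurd h1 (by norm_num)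
        · rw [if_neg hx, if_neg hy] at h2
          exact ht2i x y h2
  · exact fun j => inj_tie N _ _ ht1 (fun x y _ h => ht1i x y h)
  · exact fun j => inj_tie N _ _ ht2 (fun x y _ h => ht2i x y h)
  · intro j
    apply inj_tie N
    · intro x
      split_ifs
      · exact ht2 x
      · exact ht1 x
    · intro x y h1 h2
      have hb : ((β x).testBit j = true ↔ (β y).testBit j = true) := by
        by_cases hx : x ∈ B
        · by_cases hy : y ∈ B
          · rw [hκ2t j x hx, hκ2t j y hy] at h1
            by_cases c1 : (β x).testBit j = true <;> by_cases c2 : (β y).testBit j = true <;>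
              simp only [c1, c2, not_true_eq_false, not_false_eq_true, if_true, if_false, iff_true,
                iff_false, iff_self, Bool.false_eq_true] at h1 ⊢ <;>
              omega
          · rw [hκ2t j x hx, hκ2f j y hy] at h1
            split_ifs at h1 <;> omega
        · by_cases hy : y ∈ B
          · rw [hκ2f j x hx, hκ2t j y hy] at h1
            split_ifs at h1 <;> omega
          · rw [hβ0 x hx, hβ0 y hy]
      by_cases c1 : (β x).testBit j = true
      · have c2 := hb.1 c1
        rw [if_neg (not_not.2 c1), if_neg (not_not.2 c2)] at h2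
        exact ht2i x y h2
      · have c2 : ¬ (β y).testBit j = true := fun h => c1 (hb.2 h)
        rw [if_pos c1, if_pos c2] at h2
        exact ht1i x y h2
  · exact fun j => inj_tie N _ _ ht1 (fun x y _ h => ht1i x y h)
  · exact fun j => inj_tie N _ _ ht1 (fun x y _ h => ht1i x y h)
  · intro x y x' y' hxy hxy' h0 h1 h2 h3 h4 h5 h6 h7 h8 hlt
    have hne : t1 x ≠ t1 y := fun h => hxy (ht1i x y h)
    have hne' : t1 x' ≠ t1 y' := fun h => hxy' (ht1i x' y' h)
    obtain ⟨hx, hy⟩ := cls N 0 1 (t1 x) (t1 y) (t1 x') (t1 y') (x ∈ B) (y ∈ B) (x' ∈ B) (y' ∈ B)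
      (by norm_num) (ht1 x) (ht1 y) (ht1 x') (ht1 y') hne hne' h1 h2 h3
    simp only [rk_lt (ht1 x) (ht1 y), rk_lt (ht1 x') (ht1 y')] at h0 h4 h7 h8
    have h0' : κ0 x' < κ0 y' ∨ κ0 x' = κ0 y' ∧ t1 x' < t1 y' := h0.1 (Or.inl (hκ0 x y hlt))
    have hnot : ¬ y' < x' := by
      intro h
      have := hκ0 y' x' h
      omega
    by_cases hxB : x ∈ B
    · have hxB' := hx.1 hxB
      by_cases hyB : y ∈ B
      · have hyB' := hy.1 hyB
        have hbit : ∀ j : Fin w, ((β x).testBit j = true ↔ (β x').testBit j = true) ∧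
            ((β y).testBit j = true ↔ (β y').testBit j = true) := by
          intro j
          have g4 := h4 j
          have g5 := h5 j
          have g6 := h6 j
          rw [← rk_lt (ht1 x) (ht1 y), ← rk_lt (ht1 x') (ht1 y')] at g4
          simp only [hκ2t j x hxB, hκ2t j y hyB, hκ2t j x' hxB', hκ2t j y' hyB'] at g4 g5 g6
          have g := cls N 0 2 (t1 x) (t1 y) (t1 x') (t1 y') (¬ (β x).testBit j = true)
            (¬ (β y).testBit j = true) (¬ (β x').testBit j = true) (¬ (β y').testBit j = true)
            (by norm_num) (ht1 x) (ht1 y) (ht1 x') (ht1 y') hne hne' g4 g5 g6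
          exact ⟨not_iff_not.1 g.1, not_iff_not.1 g.2⟩
        have e1 : x = x' := hβinj x x' hxB hxB'
          (eq_of_bits w _ _ (hβlt x hxB) (hβlt x' hxB') (fun j => (hbit j).1))
        have e2 : y = y' := hβinj y y' hyB hyB'
          (eq_of_bits w _ _ (hβlt y hyB) (hβlt y' hyB') (fun j => (hbit j).2))
        rw [← e1, ← e2]
        exact hlt
      · have hyB' : y' ∉ B := fun h => hyB (hy.2 h)
        have e1 : x = x' := by
          apply hβinj x x' hxB hxB'
          apply eq_of_bits w _ _ (hβlt x hxB) (hβlt x' hxB')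
          intro j
          have g4 := h4 j
          rw [hκ2t j x hxB, hκ2f j y hyB, hκ2t j x' hxB', hκ2f j y' hyB'] at g4
          by_cases c1 : (β x).testBit j = true <;> by_cases c2 : (β x').testBit j = true <;>
            simp only [c1, c2, not_true_eq_false, not_false_eq_true, if_true, if_false, iff_true,
                iff_false, iff_self, Bool.false_eq_true] at g4 ⊢ <;>
            omega
        subst e1
        have e2 : tt y = tt y' := by
          apply Fin.ext
          apply eq_of_bits e _ _ (lt_of_lt_of_le (tt y).2 hT) (lt_of_lt_of_le (tt y').2 hT)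
          intro j
          have g8 := h8 j
          rw [hκ4t j x hxB, hκ4f j y hyB, hκ4f j y' hyB'] at g8
          by_cases c1 : ((tt y).1).testBit j = true <;>
            by_cases c2 : ((tt y').1).testBit j = true <;>
            simp only [c1, c2, not_true_eq_false, not_false_eq_true, if_true, if_false, iff_true,
                iff_false, iff_self, Bool.false_eq_true] at g8 ⊢ <;> omega
        have e3 : ∀ i, rr x i < (ss y i).1 ↔ rr x i < (ss y' i).1 := by
          intro i
          have g7 := h7 i
          rw [hκ3t i x hxB, hκ3f i y hyB, hκ3f i y' hyB'] at g7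
          omega
        rcases hcomp x y y' hxB e2 e3 (Or.inl hlt) with h | h
        · exact h
        · exact absurd h hnot
    · have hxB' : x' ∉ B := fun h => hxB (hx.2 h)
      by_cases hyB : y ∈ B
      · have hyB' := hy.1 hyB
        have e1 : y = y' := by
          apply hβinj y y' hyB hyB'
          apply eq_of_bits w _ _ (hβlt y hyB) (hβlt y' hyB')
          intro j
          have g4 := h4 j
          rw [hκ2f j x hxB, hκ2t j y hyB, hκ2f j x' hxB', hκ2t j y' hyB'] at g4
          by_cases c1 : (β y).testBit j = true <;> by_cases c2 : (β y').testBit j = true <;>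
            simp only [c1, c2, not_true_eq_false, not_false_eq_true, if_true, if_false, iff_true,
                iff_false, iff_self, Bool.false_eq_true] at g4 ⊢ <;>
            omega
        subst e1
        have e2 : tt x = tt x' := by
          apply Fin.ext
          apply eq_of_bits e _ _ (lt_of_lt_of_le (tt x).2 hT) (lt_of_lt_of_le (tt x').2 hT)
          intro j
          have g8 := h8 j
          rw [hκ4f j x hxB, hκ4t j y hyB, hκ4f j x' hxB'] at g8
          by_cases c1 : ((tt x).1).testBit j = true <;>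
            by_cases c2 : ((tt x').1).testBit j = true <;>
            simp only [c1, c2, not_true_eq_false, not_false_eq_true, if_true, if_false, iff_true,
                iff_false, iff_self, Bool.false_eq_true] at g8 ⊢ <;> omega
        have e3 : ∀ i, rr y i < (ss x i).1 ↔ rr y i < (ss x' i).1 := by
          intro i
          have g7 := h7 i
          rw [hκ3f i x hxB, hκ3t i y hyB, hκ3f i x' hxB'] at g7
          omega
        rcases hcomp y x x' hyB e2 e3 (Or.inr hlt) with h | h
        · exact absurd h hnot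
        · exact h
      · exact absurd hlt (hB x y hxB hyB)

end Pool.Agent.Q149.BDReal
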