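import Pool.Agent.Q149.BDCode

/-!
# Threshold views: the sum over all pairs of states
-/

set_option autoImplicit false

namespace Pool.Agent.Q149.BDThr

open Finset

/-- The number of thresholds which do not separate `a` and `a'`. -/
def cc (M : ℕ) (a a' : Fin M) : ℕ := (univ.filter (fun x : Fin M => x < a ↔ x < a')).card

/-- Power sums. -/
def SS (M j : ℕ) : ℕ := ∑ a : Fin M, ∑ a' : Fin M, cc M a a' ^ j

theorem cc_symm (M : ℕ) (a a' : Fin M) : cc M a a' = cc M a' a := by
  unfold cc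
  congr 1
  apply filter_congr
  intro x _
  exact iff_comm

theorem cc_le (M : ℕ) (a a' : Fin M) : cc M a a' ≤ M := by
  unfold cc
  refine (card_filter_le _ _).trans ?_
  rw [card_univ, Fintype.card_fin]

/-- The value for `a ≤ a'`. -/
theorem cc_eq (M : ℕ) (a a' : Fin M) (h : a ≤ a') : cc M a a' + (a'.1 - a.1) = M := by
  unfold cc
  have h1 : univ.filter (fun x : Fin M => ¬ (x < a ↔ x < a')) = Finset.Ico a a' := by
    ext x
    simp only [mem_filter, mem_univ, true_and, mem_Ico]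
    constructor
    · intro hx
      by_cases h1 : x < a
      · exact absurd ⟨fun _ => lt_of_lt_of_le h1 h, fun _ => h1⟩ hx
      · refine ⟨not_lt.1 h1, ?_⟩
        by_contra h2
        exact hx ⟨fun h3 => absurd h3 h1, fun h3 => absurd h3 h2⟩
    · rintro ⟨h1, h2⟩ h3
      exact absurd (h3.2 h2) (not_lt.2 h1)
  have h2 := card_filter_add_card_filter_not (s := (univ : Finset (Fin M)))
    (fun x : Fin M => (x < a ↔ x < a'))
  rw [h1, card_univ, Fintype.card_fin, Fin.card_Ico] at h2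
  exact h2

theorem cc_self (M : ℕ) (a : Fin M) : cc M a a = M := by
  have := cc_eq M a a le_rfl
  omega

theorem bern (M : ℕ) : ∀ j : ℕ, M ^ (j + 1) + (j + 1) * M ^ j ≤ (M + 1) ^ (j + 1) := by
  intro j
  induction j with
  | zero => simp
  | succ j ih =>
    calc M ^ (j + 1 + 1) + (j + 1 + 1) * M ^ (j + 1)
        ≤ (M ^ (j + 1 + 1) + (j + 1 + 1) * M ^ (j + 1)) + (j + 1) * M ^ j := Nat.le_add_right _ _
      _ = (M ^ (j + 1) + (j + 1) * M ^ j) * (M + 1) := by ring
      _ ≤ (M + 1) ^ (j + 1) * (M + 1) := Nat.mul_le_mul_right _ ih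
      _ = (M + 1) ^ (j + 1 + 1) := by ring

/-- Sums of powers. -/
theorem pow_sum_le (j : ℕ) : ∀ M : ℕ, (j + 1) * ∑ m ∈ range M, m ^ j ≤ M ^ (j + 1) := by
  intro M
  induction M with
  | zero => simp
  | succ M ih =>
    rw [sum_range_succ, mul_add]
    have h1 := bern M j
    omega

theorem row_le (M j : ℕ) (a : Fin M) :
    ∑ a' : Fin M, cc M a a' ^ j ≤ M ^ j + 2 * ∑ m ∈ range M, m ^ j := by
  classical
  have hsub : (univ : Finset (Fin M)) ⊆ {a} ∪ (Ioi a ∪ Iio a) := by
    intro x _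
    rw [mem_union, mem_union, mem_singleton, mem_Ioi, mem_Iio]
    rcases lt_trichotomy x a with h | h | h
    · exact Or.inr (Or.inr h)
    · exact Or.inl h
    · exact Or.inr (Or.inl h)
  have h1 : ∑ a' ∈ Ioi a, cc M a a' ^ j ≤ ∑ m ∈ range M, m ^ j := by
    have h2 : ∑ a' ∈ Ioi a, cc M a a' ^ j = ∑ m ∈ (Ioi a).image (fun a' => cc M a a'), m ^ j := by
      rw [sum_image]
      intro x hx y hy hxy
      rw [mem_coe, mem_Ioi] at hx hy
      have e1 := cc_eq M a x hx.le
      have e2 := cc_eq M a y hy.le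
      have hx' : a.1 < x.1 := hx
      have hy' : a.1 < y.1 := hy
      have hxy' : cc M a x = cc M a y := hxy
      apply Fin.ext
      omega
    rw [h2]
    apply sum_le_sum_of_subset
    intro m hm
    rw [mem_image] at hm
    obtain ⟨x, hx, rfl⟩ := hm
    rw [mem_Ioi] at hx
    have e1 := cc_eq M a x hx.le
    have hx' : a.1 < x.1 := hx
    have := x.2
    rw [mem_range]
    omega
  have h3 : ∑ a' ∈ Iio a, cc M a a' ^ j ≤ ∑ m ∈ range M, m ^ j := by
    have h2 : ∑ a' ∈ Iio a, cc M a a' ^ j = ∑ m ∈ (Iio a).image (fun a' => cc M a a'), m ^ j := by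
      rw [sum_image]
      intro x hx y hy hxy
      rw [mem_coe, mem_Iio] at hx hy
      have e1 := cc_eq M x a hx.le
      have e2 := cc_eq M y a hy.le
      rw [cc_symm] at e1 e2
      have hx' : x.1 < a.1 := hx
      have hy' : y.1 < a.1 := hy
      have hxy' : cc M a x = cc M a y := hxy
      apply Fin.ext
      omega
    rw [h2]
    apply sum_le_sum_of_subset
    intro m hm
    rw [mem_image] at hm
    obtain ⟨x, hx, rfl⟩ := hm
    rw [mem_Iio] at hx
    have e1 := cc_eq M x a hx.le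
    rw [cc_symm] at e1
    have hx' : x.1 < a.1 := hx
    have := a.2
    rw [mem_range]
    omega
  calc ∑ a' : Fin M, cc M a a' ^ j ≤ ∑ a' ∈ {a} ∪ (Ioi a ∪ Iio a), cc M a a' ^ j :=
        sum_le_sum_of_subset hsub
    _ ≤ ∑ a' ∈ {a}, cc M a a' ^ j + ∑ a' ∈ (Ioi a ∪ Iio a), cc M a a' ^ j := by
        rw [← sum_union_inter]
        exact Nat.le_add_right _ _
    _ ≤ ∑ a' ∈ {a}, cc M a a' ^ j + (∑ a' ∈ Ioi a, cc M a a' ^ j +
          ∑ a' ∈ Iio a, cc M a a' ^ j) := by
        apply Nat.add_le_add_left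
        rw [← sum_union_inter]
        exact Nat.le_add_right _ _
    _ ≤ M ^ j + 2 * ∑ m ∈ range M, m ^ j := by
        rw [sum_singleton, cc_self]
        omega

theorem SS_le (M j : ℕ) : (j + 1) * SS M j ≤ M * ((j + 1) * M ^ j + 2 * M ^ (j + 1)) := by
  unfold SS
  have h1 : ∑ a : Fin M, ∑ a' : Fin M, cc M a a' ^ j ≤
      ∑ _a : Fin M, (M ^ j + 2 * ∑ m ∈ range M, m ^ j) := sum_le_sum (fun a _ => row_le M j a)
  rw [sum_const, card_univ, Fintype.card_fin, smul_eq_mul] at h1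
  have h2 := pow_sum_le j M
  calc (j + 1) * ∑ a : Fin M, ∑ a' : Fin M, cc M a a' ^ j
      ≤ (j + 1) * (M * (M ^ j + 2 * ∑ m ∈ range M, m ^ j)) := Nat.mul_le_mul_left _ h1
    _ = M * ((j + 1) * M ^ j + 2 * ((j + 1) * ∑ m ∈ range M, m ^ j)) := by ring
    _ ≤ M * ((j + 1) * M ^ j + 2 * M ^ (j + 1)) := by
        apply Nat.mul_le_mul_left
        omega

theorem SS_zero (M : ℕ) : SS M 0 = M ^ 2 := by
  unfold SS
  simp [sq]

theorem SS_step (M j i : ℕ) : SS M (j + i) ≤ M ^ i * SS M j := by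
  unfold SS
  rw [mul_sum]
  apply sum_le_sum
  intro a _
  rw [mul_sum]
  apply sum_le_sum
  intro a' _
  rw [pow_add, mul_comm]
  exact Nat.mul_le_mul_right _ (Nat.pow_le_pow_left (cc_le M a a') i)

theorem SS_one_sq (M : ℕ) : SS M 1 ^ 2 ≤ M ^ 2 * SS M 2 := by
  unfold SS
  have h := sq_sum_le_card_mul_sum_sq (s := (univ : Finset (Fin M × Fin M)))
    (f := fun p => cc M p.1 p.2)
  rw [card_univ, Fintype.card_prod, Fintype.card_fin, Fintype.sum_prod_type,
    Fintype.sum_prod_type] at h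
  simpa [sq] using h

/-- The view of the state `s` at `b`. -/
def vw {n k M : ℕ} (r : Fin n → Fin k → Fin M) (b : Fin n) (s : Fin k → Fin M) : Fin k → Bool :=
  fun i => decide (r b i < s i)

theorem vw_eq {n k M : ℕ} (r : Fin n → Fin k → Fin M) (b : Fin n) (s s' : Fin k → Fin M) :
    vw r b s = vw r b s' ↔ ∀ i, (r b i < s i ↔ r b i < s' i) := by
  unfold vw
  rw [funext_iff]
  apply forall_congr'
  intro i
  exact decide_eq_decide

theorem sum_r (n k M : ℕ) (s s' : Fin k → Fin M) :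
    ∑ r : Fin n → Fin k → Fin M, 2 ^ (univ.filter (fun b => vw r b s = vw r b s')).card =
      (∏ i, cc M (s i) (s' i) + M ^ k) ^ n := by
  classical
  have h1 : ∀ r : Fin n → Fin k → Fin M, 2 ^ (univ.filter (fun b => vw r b s = vw r b s')).card =
      ∏ b, (if ∀ i, (r b i < s i ↔ r b i < s' i) then 2 else 1) := by
    intro r
    rw [prod_ite, prod_const_one, mul_one, prod_const]
    congr 2
    apply filter_congr
    intro b _
    exact vw_eq r b s s'
  rw [sum_congr rfl (fun r _ => h1 r)]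
  have h2 := Finset.sum_pow' (univ : Finset (Fin k → Fin M))
    (fun ρ : Fin k → Fin M => if ∀ i, (ρ i < s i ↔ ρ i < s' i) then 2 else 1) n
  rw [Fintype.piFinset_univ] at h2
  rw [← h2]
  congr 1
  have h3 : ∀ ρ : Fin k → Fin M, (if ∀ i, (ρ i < s i ↔ ρ i < s' i) then 2 else 1) =
      (if ∀ i, (ρ i < s i ↔ ρ i < s' i) then 1 else 0) + 1 := by
    intro ρ
    split_ifs <;> rfl
  rw [sum_congr rfl (fun ρ _ => h3 ρ), sum_add_distrib, ← card_filter, sum_const, card_univ,
    Fintype.card_fun, Fintype.card_fin, Fintype.card_fin, smul_eq_mul, mul_one]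
  congr 1
  have h4 : univ.filter (fun ρ : Fin k → Fin M => ∀ i, (ρ i < s i ↔ ρ i < s' i)) =
      Fintype.piFinset (fun i => univ.filter (fun x : Fin M => x < s i ↔ x < s' i)) := by
    ext ρ
    simp only [mem_filter, mem_univ, true_and, Fintype.mem_piFinset]
  rw [h4, Fintype.card_piFinset]
  rfl

theorem sum_ss (k M j : ℕ) :
    ∑ s : Fin k → Fin M, ∑ s' : Fin k → Fin M, (∏ i, cc M (s i) (s' i)) ^ j = SS M j ^ k := by
  classical
  unfold SS
  have h2 := Finset.sum_pow' (univ : Finset (Fin M)) (fun a => ∑ a' : Fin M, cc M a a' ^ j) k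
  rw [Fintype.piFinset_univ] at h2
  rw [h2]
  apply sum_congr rfl
  intro s _
  have h3 := Finset.prod_univ_sum (fun _ : Fin k => (univ : Finset (Fin M)))
    (fun i a' => cc M (s i) a' ^ j)
  rw [Fintype.piFinset_univ] at h3
  rw [h3]
  apply sum_congr rfl
  intro s' _
  rw [prod_pow]

/-- The sum over all thresholds and all pairs of states. -/
theorem total (n k M : ℕ) :
    ∑ r : Fin n → Fin k → Fin M, ∑ s : Fin k → Fin M, ∑ s' : Fin k → Fin M,
      2 ^ (univ.filter (fun b => vw r b s = vw r b s')).card =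
      ∑ j ∈ range (n + 1), SS M j ^ k * (M ^ k) ^ (n - j) * n.choose j := by
  rw [sum_comm]
  have h1 : ∀ s : Fin k → Fin M, ∑ r : Fin n → Fin k → Fin M, ∑ s' : Fin k → Fin M,
      2 ^ (univ.filter (fun b => vw r b s = vw r b s')).card =
      ∑ s' : Fin k → Fin M, ∑ j ∈ range (n + 1),
        (∏ i, cc M (s i) (s' i)) ^ j * (M ^ k) ^ (n - j) * n.choose j := by
    intro s
    rw [sum_comm]
    apply sum_congr rfl
    intro s' _
    rw [sum_r, add_pow]
    simp only [Nat.cast_id]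
  rw [sum_congr rfl (fun s _ => h1 s)]
  have h2 : ∀ s : Fin k → Fin M, ∑ s' : Fin k → Fin M, ∑ j ∈ range (n + 1),
        (∏ i, cc M (s i) (s' i)) ^ j * (M ^ k) ^ (n - j) * n.choose j =
      ∑ j ∈ range (n + 1), (∑ s' : Fin k → Fin M, (∏ i, cc M (s i) (s' i)) ^ j) *
        (M ^ k) ^ (n - j) * n.choose j := by
    intro s
    rw [sum_comm]
    apply sum_congr rfl
    intro j _
    rw [sum_mul, sum_mul]
  rw [sum_congr rfl (fun s _ => h2 s), sum_comm]
  apply sum_congr rfl
  intro j _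
  rw [← sum_mul, ← sum_mul, sum_ss]

/-- If the sum is small then there is a code. -/
theorem code (n k M : ℕ) (hM : 0 < M)
    (h : ∑ j ∈ range (n + 1), SS M j ^ k * (M ^ k) ^ (n - j) * n.choose j ≤
      2 * (M ^ k) ^ 2 * (M ^ k) ^ n) :
    ∃ (r : Fin n → Fin k → Fin M) (f : Fin (n + 1) → Fin n → (Fin k → Bool) → Bool),
      ∀ D : Fin n → Bool, ∃ i s, ∀ b, f i b (vw r b s) = D b := by
  classical
  have hex : ∃ r : Fin n → Fin k → Fin M, ∑ s : Fin k → Fin M, ∑ s' : Fin k → Fin M,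
      2 ^ (univ.filter (fun b => vw r b s = vw r b s')).card ≤
        2 * Fintype.card (Fin k → Fin M) ^ 2 := by
    by_contra hcon
    push Not at hcon
    have : Nonempty (Fin M) := ⟨⟨0, hM⟩⟩
    have h1 : ∑ _r : Fin n → Fin k → Fin M, 2 * Fintype.card (Fin k → Fin M) ^ 2 <
        ∑ r : Fin n → Fin k → Fin M, ∑ s : Fin k → Fin M, ∑ s' : Fin k → Fin M,
          2 ^ (univ.filter (fun b => vw r b s = vw r b s')).card :=
      sum_lt_sum_of_nonempty univ_nonempty (fun r _ => hcon r)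
    rw [total, sum_const, card_univ, smul_eq_mul, Fintype.card_fun, Fintype.card_fun,
      Fintype.card_fin, Fintype.card_fin, Fintype.card_fin] at h1
    have h2 : (M ^ k) ^ n * (2 * (M ^ k) ^ 2) = 2 * (M ^ k) ^ 2 * (M ^ k) ^ n := by ring
    omega
  obtain ⟨r, hr⟩ := hex
  obtain ⟨f, hf⟩ := BDCode.all_words n (vw r) (by
    have : Nonempty (Fin M) := ⟨⟨0, hM⟩⟩
    exact Fintype.card_pos) hr
  exact ⟨r, f, hf⟩

end Pool.Agent.Q149.BDThr
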