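import Pool.Agent.Q17.ML2.Stm2

/-! Transitive permutation groups with blocks of size two and a transposition (`S_BL`). -/

set_option autoImplicit false

namespace Pool.Agent.Q149.CABL

open Pool.Agent.Q17.ML2

section

variable {n : ℕ} {G : Subgroup (Equiv.Perm (Fin n))} {B : Setoid (Fin n)}

/-- the action on the blocks -/
@[reducible] def act (B : Setoid (Fin n)) (hB : ∀ g ∈ G, ∀ i j, B i j → B (g i) (g j)) :
    MulAction G (Quotient B) where
  smul g q := Quotient.map' (s₁ := B) (s₂ := B) (g : Equiv.Perm (Fin n))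
    (fun i j h => hB g.1 g.2 i j h) q
  one_smul q := by
    induction q using Quotient.inductionOn'
    rfl
  mul_smul g g' q := by
    induction q using Quotient.inductionOn'
    rfl

lemma other {i : Fin n} (h2 : {j | B i j}.ncard = 2) : ∃ j, j ≠ i ∧ B i j ∧
    ∀ k, B i k → k = i ∨ k = j := by
  rw [Set.ncard_eq_two] at h2
  obtain ⟨x, y, hxy, he⟩ := h2
  have hi : i ∈ ({x, y} : Set (Fin n)) := by rw [← he]; exact B.refl i
  have hx : B i x := by
    have : x ∈ {j | B i j} := by rw [he]; simp
    exact this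
  have hy : B i y := by
    have : y ∈ {j | B i j} := by rw [he]; simp
    exact this
  have hk : ∀ k, B i k → k = x ∨ k = y := by
    intro k hk
    have : k ∈ ({x, y} : Set (Fin n)) := by rw [← he]; exact hk
    simpa using this
  rcases hi with rfl | rfl
  · exact ⟨y, hxy.symm, hy, hk⟩
  · exact ⟨x, hxy, hx, fun k h => (hk k h).symm⟩

lemma swap_block (hB : ∀ g ∈ G, ∀ i j, B i j → B (g i) (g j))
    (h2 : ∀ i, {j | B i j}.ncard = 2) {a b : Fin n} (hab : a ≠ b) (hs : Equiv.swap a b ∈ G) :
    B a b := by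
  by_contra hn
  obtain ⟨a', h1, h3, -⟩ := other (h2 a)
  have hb : a' ≠ b := by
    rintro rfl
    exact hn h3
  have := hB _ hs a a' h3
  rw [Equiv.swap_apply_left, Equiv.swap_apply_of_ne_of_ne h1 hb] at this
  exact hn (B.trans h3 (B.symm this))

lemma swap_mem (ht : ∀ i j : Fin n, ∃ g ∈ G, g i = j)
    (hB : ∀ g ∈ G, ∀ i j, B i j → B (g i) (g j))
    (h2 : ∀ i, {j | B i j}.ncard = 2) {a b : Fin n} (hab : a ≠ b) (hs : Equiv.swap a b ∈ G)
    {c d : Fin n} (hcd : c ≠ d) (hc : B c d) : Equiv.swap c d ∈ G := by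
  have hBab := swap_block hB h2 hab hs
  obtain ⟨g, hg, hgc⟩ := ht a c
  have h3 : B c (g b) := by
    have := hB g hg a b hBab
    rwa [hgc] at this
  obtain ⟨c', h4, h5, h6⟩ := other (h2 c)
  have h7 : g b ≠ c := by
    rw [← hgc]
    exact fun h => hab (g.injective h).symm
  have h8 : g b = c' := (h6 _ h3).resolve_left h7
  have h9 : d = c' := (h6 _ hc).resolve_left hcd.symm
  have : Equiv.swap c d = g * Equiv.swap a b * g⁻¹ := by
    rw [h9, ← h8, ← hgc, Equiv.mul_swap_eq_swap_mul, mul_assoc, mul_inv_cancel, mul_one]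
  rw [this]
  exact G.mul_mem (G.mul_mem hg hs) (G.inv_mem hg)

lemma mem_of_block (ht : ∀ i j : Fin n, ∃ g ∈ G, g i = j)
    (hB : ∀ g ∈ G, ∀ i j, B i j → B (g i) (g j))
    (h2 : ∀ i, {j | B i j}.ncard = 2) {a b : Fin n} (hab : a ≠ b) (hs : Equiv.swap a b ∈ G) :
    ∀ (m : ℕ) (τ : Equiv.Perm (Fin n)), τ.support.card ≤ m → (∀ i, B i (τ i)) → τ ∈ G := by
  intro m
  induction m with
  | zero =>
    intro τ h0 _
    have : τ.support.card = 0 := by omega
    rw [Equiv.Perm.card_support_eq_zero] at this
    rw [this]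
    exact G.one_mem
  | succ m ih =>
    intro τ hm hτ
    by_cases h1 : τ = 1
    · rw [h1]; exact G.one_mem
    obtain ⟨c, hc⟩ : ∃ c, τ c ≠ c := by
      by_contra hn
      push Not at hn
      exact h1 (Equiv.ext hn)
    have hsw : Equiv.swap c (τ c) ∈ G := swap_mem ht hB h2 hab hs hc.symm (hτ c)
    have hlt := Equiv.Perm.card_support_swap_mul hc
    have hmem : Equiv.swap c (τ c) * τ ∈ G := by
      refine ih _ (by omega) (fun i => ?_)
      rw [Equiv.Perm.mul_apply]
      refine B.trans (hτ i) ?_
      generalize τ i = j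
      by_cases hj : j = c
      · rw [hj, Equiv.swap_apply_left]; exact hτ c
      · by_cases hj' : j = τ c
        · rw [hj', Equiv.swap_apply_right]; exact B.symm (hτ c)
        · rw [Equiv.swap_apply_of_ne_of_ne hj hj']
    have : τ = Equiv.swap c (τ c) * (Equiv.swap c (τ c) * τ) := by
      rw [← mul_assoc, Equiv.swap_mul_self, one_mul]
    rw [this]
    exact G.mul_mem hsw hmem

lemma exists_equiv (h2 : ∀ i, {j | B i j}.ncard = 2) :
    ∃ e : Fin n ≃ Quotient B × Bool, ∀ i, (e i).1 = Quotient.mk B i := by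
  have hf : ∀ d : Quotient B, Nonempty ({i : Fin n // Quotient.mk B i = d} ≃ Bool) := by
    intro d
    induction d using Quotient.inductionOn with
    | _ i =>
      have hc : Nat.card {j : Fin n // Quotient.mk B j = Quotient.mk B i} = Nat.card Bool := by
        rw [Nat.card_eq_fintype_card (α := Bool), Fintype.card_bool, ← h2 i,
          ← Nat.card_coe_set_eq]
        refine Nat.card_congr (Equiv.subtypeEquivRight fun j => ?_)
        rw [Quotient.eq]
        exact ⟨fun h => B.symm h, fun h => B.symm h⟩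
      exact ⟨(Finite.equivFinOfCardEq hc).trans (Finite.equivFinOfCardEq rfl).symm⟩
  let e : (d : Quotient B) → ({i : Fin n // Quotient.mk B i = d} ≃ Bool) :=
    fun d => Classical.choice (hf d)
  refine ⟨(Equiv.sigmaFiberEquiv (Quotient.mk B)).symm.trans
    ((Equiv.sigmaCongrRight e).trans (Equiv.sigmaEquivProd (Quotient B) Bool)), fun i => ?_⟩
  rfl

end

theorem t_BL : S_BL := by
  intro n G B C hn ht hB hC hBC h2 ⟨a, b, hab, hs⟩ hcore
  let _ : MulAction G (Quotient B) := act B hB
  let _ : MulAction G (Quotient C) := act C hC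
  have smulB : ∀ (g : G) (i : Fin n), g • Quotient.mk B i = Quotient.mk B (g.1 i) :=
    fun g i => rfl
  have smulC : ∀ (g : G) (i : Fin n), g • Quotient.mk C i = Quotient.mk C (g.1 i) :=
    fun g i => rfl
  let φ : G →* Equiv.Perm (Quotient B) := MulAction.toPermHom G (Quotient B)
  let φ' : G →* φ.range := φ.rangeRestrict
  have hsurj : Function.Surjective φ' := φ.rangeRestrict_surjective
  have hφ : ∀ (g : G) (d : Quotient B), φ' g • d = g • d := fun g d => rfl
  let i₀ : Fin n := ⟨0, hn⟩
  have htrB : MulAction.IsPretransitive φ.range (Quotient B) := by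
    constructor
    intro x y
    induction x using Quotient.inductionOn with
    | _ i =>
      induction y using Quotient.inductionOn with
      | _ j =>
        obtain ⟨g, hg, hgi⟩ := ht i j
        refine ⟨φ' ⟨g, hg⟩, ?_⟩
        rw [hφ, smulB, hgi]
  have htrC : MulAction.IsPretransitive G (Quotient C) := by
    constructor
    intro x y
    induction x using Quotient.inductionOn with
    | _ i =>
      induction y using Quotient.inductionOn with
      | _ j =>
        obtain ⟨g, hg, hgi⟩ := ht i j
        refine ⟨⟨g, hg⟩, ?_⟩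
        rw [smulC, hgi]
  have hker : ∀ g : G, φ' g = 1 → ∀ i, B i (g.1 i) := by
    intro g hg i
    have h1 : φ' g • Quotient.mk B i = Quotient.mk B i := by
      rw [hg, one_smul]
    rw [hφ, smulB] at h1
    exact B.symm (Quotient.exact h1)
  have hkerC : ∀ g : G, φ' g = 1 → ∀ q : Quotient C, g • q = q := by
    intro g hg q
    induction q using Quotient.inductionOn with
    | _ i =>
      rw [smulC]
      exact Quotient.sound (C.symm (hBC (hker g hg i)))
  let x₀ : Quotient B := Quotient.mk B i₀
  let c₀ : Quotient C := Quotient.mk C i₀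
  let W : Subgroup φ.range := MulAction.stabilizer φ.range x₀
  let S : Subgroup G := MulAction.stabilizer G c₀
  obtain ⟨e, he⟩ := exists_equiv h2
  refine ⟨φ.range, inferInstance, inferInstance, W, S.map φ', ?_, ?_, ?_, ?_, ?_, φ', hsurj⟩
  · -- the wreath product
    let r : φ.range ⧸ W ≃ Quotient B := Equiv.ofBijective
      (MulAction.ofQuotientStabilizer φ.range x₀)
      ⟨MulAction.injective_ofQuotientStabilizer _ _, fun d => by
        obtain ⟨h, hh⟩ := MulAction.exists_smul_eq φ.range x₀ d
        exact ⟨QuotientGroup.mk h, by rw [MulAction.ofQuotientStabilizer_mk, hh]⟩⟩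
    let q : Quotient B ≃ φ.range ⧸ W := r.symm
    have hq : ∀ (h : φ.range) (d : Quotient B), q (h • d) = h • q d := by
      intro h d
      apply r.injective
      have h3 : r (h • q d) = h • r (q d) := MulAction.ofQuotientStabilizer_smul _ _ _ _
      rw [h3]
      show r (r.symm (h • d)) = h • r (r.symm d)
      rw [Equiv.apply_symm_apply, Equiv.apply_symm_apply]
    refine ⟨e.trans (Equiv.prodCongr q (Equiv.refl Bool)), fun π => ?_⟩
    have h1 : ∀ i, ((e.trans (Equiv.prodCongr q (Equiv.refl Bool))) i).1 = q (Quotient.mk B i) := by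
      intro i
      rw [← he i]
      rfl
    simp only [h1]
    constructor
    · intro hπ
      refine ⟨φ' ⟨π, hπ⟩, fun i => ?_⟩
      rw [← hq, hφ, smulB]
    · rintro ⟨h, hh⟩
      obtain ⟨g, rfl⟩ := hsurj h
      have h3 : g.1⁻¹ * π ∈ G := by
        refine mem_of_block ht hB h2 hab hs _ _ le_rfl (fun i => ?_)
        have h4 := hh i
        rw [← hq, hφ, smulB] at h4
        have h5 : B (π i) (g.1 i) := Quotient.exact (q.injective h4)
        have h6 := hB _ (G.inv_mem g.2) _ _ h5
        have h7 : g.1⁻¹ (g.1 i) = i := by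
          rw [← Equiv.Perm.mul_apply, inv_mul_cancel, Equiv.Perm.one_apply]
        rw [h7] at h6
        exact B.symm h6
      have : π = g.1 * (g.1⁻¹ * π) := by rw [mul_inv_cancel_left]
      rw [this]
      exact G.mul_mem g.2 h3
  · -- `W ≤ U`
    intro h hh
    obtain ⟨g, rfl⟩ := hsurj h
    refine ⟨g, ?_, rfl⟩
    have h1 : φ' g • x₀ = x₀ := hh
    rw [hφ] at h1
    have h3 : B (g.1 i₀) i₀ := Quotient.exact h1
    show g • c₀ = c₀
    exact Quotient.sound (hBC h3)
  · -- the normal core
    rw [eq_bot_iff]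
    intro h hh
    obtain ⟨g, rfl⟩ := hsurj h
    rw [Subgroup.mem_bot]
    have hgC : ∀ i, C i (g.1 i) := by
      intro i
      obtain ⟨t, ht1, ht2⟩ := ht i₀ i
      have h1 := hh (φ' ⟨t, ht1⟩)⁻¹
      rw [inv_inv, ← map_inv, ← map_mul, ← map_mul] at h1
      obtain ⟨s, hs1, hs2⟩ := h1
      have h3 : φ' (s⁻¹ * ((⟨t, ht1⟩ : G)⁻¹ * g * ⟨t, ht1⟩)) = 1 := by
        rw [map_mul, map_inv, hs2, inv_mul_cancel]
      have h4 := hkerC _ h3 c₀
      rw [mul_smul, inv_smul_eq_iff] at h4
      have h5 : s • c₀ = c₀ := hs1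
      rw [h5, mul_smul, mul_smul, inv_smul_eq_iff] at h4
      have h6 : (⟨t, ht1⟩ : G) • c₀ = Quotient.mk C i := by
        show Quotient.mk C (t i₀) = _
        rw [ht2]
      rw [h6, smulC] at h4
      exact C.symm (Quotient.exact h4)
    have hgB := hcore g.1 g.2 hgC
    apply Subtype.ext
    apply Equiv.ext
    intro d
    induction d using Quotient.inductionOn with
    | _ i =>
      show g • Quotient.mk B i = Quotient.mk B i
      rw [smulB]
      exact Quotient.sound (B.symm (hgB i))
  · have h1 : Nat.card (Fin n) = Nat.card (Quotient B × Bool) := Nat.card_congr e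
    rw [Nat.card_prod, Nat.card_eq_fintype_card (α := Bool), Fintype.card_bool,
      Nat.card_eq_fintype_card (α := Fin n), Fintype.card_fin] at h1
    have h3 : W.index = Nat.card (Quotient B) := MulAction.index_stabilizer_of_transitive _ _
    rw [h3]
    omega
  · have h1 : (S.map φ').index = S.index := by
      apply Subgroup.index_map_eq S hsurj
      intro g hg
      exact hkerC g hg c₀
    rw [h1]
    exact MulAction.index_stabilizer_of_transitive _ _

end Pool.Agent.Q149.CABL
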