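import Mathlib

namespace Pool.Agent.Q149.Cop

open Finset Function

variable {n : ℕ}

/-- stay or change one coordinate by one -/
def NS (u v : Fin n → ℕ) : Prop :=
  u = v ∨ ∃ i, (u i + 1 = v i ∨ v i + 1 = u i) ∧ ∀ j, j ≠ i → u j = v j

/-- distance from a point `c` below `r` -/
def dd (c r : Fin n → ℕ) : ℕ := ∑ i, (r i - c i)

/-- coordinate potential -/
def gg (T : Finset (Fin n)) (m : Fin n → ℕ) (N : ℕ) (i : Fin n) (x y : ℕ) : ℕ :=
  (if i ∈ T then (4 * N + 1) * (y - x) + (if x = y then N + y else m i - 1 - y)
    else 2 * ((4 * N + 1) * (y - x)))

/-- potential of a cop at `c` against the robber at `r` -/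
def psi (T : Finset (Fin n)) (m : Fin n → ℕ) (N : ℕ) (c r : Fin n → ℕ) : ℕ :=
  ∑ i, gg T m N i (c i) (r i)

theorem sum_one (f f' : Fin n → ℕ) (i : Fin n) (h : ∀ j, j ≠ i → f j = f' j) :
    ∑ j, f' j + f i = ∑ j, f j + f' i := by
  rw [← Finset.add_sum_erase univ f (mem_univ i), ← Finset.add_sum_erase univ f' (mem_univ i)]
  have : ∑ x ∈ univ.erase i, f x = ∑ x ∈ univ.erase i, f' x :=
    Finset.sum_congr rfl (fun x hx => h x (Finset.ne_of_mem_erase hx))
  rw [this]; ring

theorem sum_two (f f' : Fin n → ℕ) (i k : Fin n) (hik : i ≠ k)
    (h : ∀ j, j ≠ i → j ≠ k → f j = f' j) :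
    ∑ j, f' j + f i + f k = ∑ j, f j + f' i + f' k := by
  have h1 := sum_one f (update f i (f' i)) i (by
    intro j hj; rw [update_of_ne hj])
  have h2 := sum_one (update f i (f' i)) f' k (by
    intro j hj
    by_cases hji : j = i
    · subst hji; simp
    · rw [update_of_ne hji]; exact h j hji hj)
  rw [update_of_ne hik.symm] at h2
  rw [update_self] at h1
  omega

theorem mulsucc (N e : ℕ) : (4 * N + 1) * (e + 1) = (4 * N + 1) * e + (4 * N + 1) := by ring

/-- `gg` decreases by a lot when the difference decreases by one -/
theorem gg_succ (T : Finset (Fin n)) (m : Fin n → ℕ) (N : ℕ) (hN : ∀ i, m i ≤ N) (i : Fin n)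
    (x y x' y' : ℕ) (hy : y' < m i) (h : y - x = (y' - x') + 1) :
    gg T m N i x' y' + 2 * N < gg T m N i x y := by
  have h1 := mulsucc N (y' - x')
  have h2 := hN i
  unfold gg
  rw [h]
  split_ifs <;> omega

theorem gg_up (T : Finset (Fin n)) (m : Fin n → ℕ) (N : ℕ) (hN : ∀ i, m i ≤ N) (i : Fin n)
    (x y : ℕ) (hi : i ∈ T) (hxy : x ≤ y) (hy : y + 1 < m i) :
    gg T m N i x (y + 1) ≤ gg T m N i x y + (4 * N + 1) := by
  have h1 := mulsucc N (y - x)
  have h3 := hN i
  have h2 : y + 1 - x = (y - x) + 1 := by omega
  unfold gg
  rw [h2]
  simp only [if_pos hi]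
  split_ifs <;> omega

theorem gg_not (T : Finset (Fin n)) (m : Fin n → ℕ) (N : ℕ) (i : Fin n) (x y x' y' : ℕ)
    (hi : i ∉ T) (h : y - x = (y' - x') + 1) :
    gg T m N i x' y' + 2 * (4 * N + 1) = gg T m N i x y := by
  have h1 := mulsucc N (y' - x')
  unfold gg
  rw [h]
  simp only [if_neg hi]
  omega

theorem gg_same (T : Finset (Fin n)) (m : Fin n → ℕ) (N : ℕ) (i : Fin n) (x y x' y' : ℕ)
    (hi : i ∉ T) (h : y - x = y' - x') :
    gg T m N i x' y' = gg T m N i x y := by
  unfold gg
  rw [h]
  simp only [if_neg hi]

theorem gg_mirror_up (T : Finset (Fin n)) (m : Fin n → ℕ) (N : ℕ) (i : Fin n) (x y : ℕ)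
    (hi : i ∈ T) (hxy : x < y) (hy : y + 1 < m i) :
    gg T m N i (x + 1) (y + 1) < gg T m N i x y := by
  unfold gg
  simp only [if_pos hi]
  have : y + 1 - (x + 1) = y - x := by omega
  rw [this]
  split_ifs <;> omega

theorem gg_mirror_down (T : Finset (Fin n)) (m : Fin n → ℕ) (N : ℕ) (i : Fin n) (y : ℕ)
    (hi : i ∈ T) :
    gg T m N i y y < gg T m N i (y + 1) (y + 1) := by
  unfold gg
  simp only [if_pos hi]
  simp

theorem dd_one {c r : Fin n → ℕ} (hcr : ∀ i, c i ≤ r i) (h : dd c r = 1) : NS c r := by
  have hex : ∃ i, r i - c i ≠ 0 := by
    by_contra hne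
    push Not at hne
    have : dd c r = 0 := Finset.sum_eq_zero (fun i _ => hne i)
    omega
  obtain ⟨i, hi⟩ := hex
  have h1 := Finset.add_sum_erase univ (fun i => r i - c i) (mem_univ i)
  unfold dd at h
  rw [← h1] at h
  have h2 : ∑ x ∈ univ.erase i, (r x - c x) = 0 := by omega
  rw [Finset.sum_eq_zero_iff] at h2
  refine Or.inr ⟨i, Or.inl ?_, ?_⟩
  · have := hcr i; omega
  · intro j hj
    have := h2 j (Finset.mem_erase.2 ⟨hj, mem_univ j⟩)
    have := hcr j; omega

theorem dd_self_move {c r : Fin n → ℕ} {j : Fin n} (hj : c j < r j) :
    dd (update c j (c j + 1)) r + 1 = dd c r := by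
  have := sum_one (fun i => r i - c i) (fun i => r i - (update c j (c j + 1)) i) j (by
    intro i hi; simp only [update_of_ne hi])
  simp only [update_self] at this
  unfold dd
  omega

theorem psi_self_move (T : Finset (Fin n)) (m : Fin n → ℕ) (N : ℕ) (hN : ∀ i, m i ≤ N)
    {c r : Fin n → ℕ} (hr : ∀ i, r i < m i) {j : Fin n} (hj : c j < r j) :
    psi T m N (update c j (c j + 1)) r < psi T m N c r := by
  have := sum_one (fun i => gg T m N i (c i) (r i))
    (fun i => gg T m N i ((update c j (c j + 1)) i) (r i)) j (by
    intro i hi; simp only [update_of_ne hi])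
  simp only [update_self] at this
  have h2 := gg_succ T m N hN j (c j) (r j) (c j + 1) (r j) (hr j) (by omega)
  unfold psi
  omega

/-- the response of a cop -/
theorem respond (T : Finset (Fin n)) (hT : T.card ≤ 2) (m : Fin n → ℕ) (N : ℕ)
    (hN : ∀ i, m i ≤ N) (c r r' : Fin n → ℕ) (hcr : ∀ i, c i ≤ r i) (hr : ∀ i, r i < m i)
    (hr' : ∀ i, r' i < m i) (hd : 2 ≤ dd c r) (hs : NS r r') :
    ∃ c', NS c c' ∧ (∀ i, c' i ≤ r' i) ∧ (c' = r' ∨ (2 ≤ dd c' r' ∧
      psi T m N c' r' ≤ psi T m N c r ∧
      ((∃ i ∈ T, r i ≠ r' i) → psi T m N c' r' < psi T m N c r) ∧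
      (r' = r → 3 ≤ dd c r → psi T m N c' r' < psi T m N c r) ∧
      (r' = r → dd c r = 2 → c' = c))) := by
  rcases hs with rfl | ⟨i, hi, hij⟩
  · -- pass
    rcases Nat.lt_or_ge 2 (dd c r) with h3 | h3
    · have hex : ∃ j, c j < r j := by
        by_contra hne
        push Not at hne
        have : dd c r = 0 := Finset.sum_eq_zero (fun i _ => by have := hne i; omega)
        omega
      obtain ⟨j, hj⟩ := hex
      refine ⟨update c j (c j + 1), Or.inr ⟨j, Or.inl (by simp), ?_⟩, ?_, Or.inr ⟨?_, ?_, ?_, ?_, ?_⟩⟩
      · intro k hk; rw [update_of_ne hk]
      · intro k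
        by_cases hk : k = j
        · subst hk; simp; omega
        · rw [update_of_ne hk]; exact hcr k
      · have := dd_self_move hj; omega
      · exact (psi_self_move T m N hN hr hj).le
      · rintro ⟨k, _, hk⟩; exact absurd rfl hk
      · intro _ _; exact psi_self_move T m N hN hr hj
      · intro _ h; omega
    · refine ⟨c, Or.inl rfl, hcr, Or.inr ⟨hd, le_refl _, ?_, ?_, ?_⟩⟩
      · rintro ⟨k, _, hk⟩; exact absurd rfl hk
      · intro _ h; omega
      · intro _ _; rfl
  · rcases hi with hi | hi
    · -- robber goes up in coordinate i
      have hne : r' ≠ r := fun h => by rw [h] at hi; omega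
      have hri : r' i = r i + 1 := hi.symm
      have hrj : ∀ j, j ≠ i → r' j = r j := fun j hj => (hij j hj).symm
      have hri' := hr' i
      rw [hri] at hri'
      by_cases hiT : i ∈ T
      · by_cases hB : ∃ j, j ∉ T ∧ c j < r j
        · obtain ⟨j, hjT, hj⟩ := hB
          have hji : j ≠ i := fun h => hjT (h ▸ hiT)
          have key := sum_two (fun k => gg T m N k (c k) (r k))
            (fun k => gg T m N k ((update c j (c j + 1)) k) (r' k)) i j hji.symm (by
            intro k hk hk'; simp only [update_of_ne hk', hrj k hk])
          have key2 := sum_two (fun k => (r k) - (c k))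
            (fun k => (r' k) - ((update c j (c j + 1)) k)) i j hji.symm (by
            intro k hk hk'; simp only [update_of_ne hk', hrj k hk])
          simp only [update_self, update_of_ne hji.symm, hri, hrj j hji] at key key2
          have g1 := gg_up T m N hN i (c i) (r i) hiT (hcr i) hri'
          have g2 := gg_not T m N j (c j) (r j) (c j + 1) (r j) hjT (by omega)
          have hlt : psi T m N (update c j (c j + 1)) r' < psi T m N c r := by
            unfold psi; omega
          refine ⟨update c j (c j + 1), Or.inr ⟨j, Or.inl (by simp), ?_⟩, ?_,
            Or.inr ⟨?_, hlt.le, fun _ => hlt, fun h => absurd h hne, fun h => absurd h hne⟩⟩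
          · intro k hk; rw [update_of_ne hk]
          · intro k
            by_cases hk : k = j
            · subst hk; simp; rw [hrj k hji]; omega
            · rw [update_of_ne hk]
              by_cases hk' : k = i
              · subst hk'; have := hcr k; omega
              · rw [hrj k hk']; exact hcr k
          · have := hcr i
            unfold dd at hd ⊢; omega
        · push Not at hB
          rcases Nat.eq_or_lt_of_le (hcr i) with h0 | h0
          · -- c i = r i : another coordinate of T
            have hsupp : ∀ j, j ∉ T.erase i → r j - c j = 0 := by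
              intro j hj
              by_cases hji : j = i
              · subst hji; omega
              · have : j ∉ T := fun h => hj (Finset.mem_erase.2 ⟨hji, h⟩)
                have := hB j this; omega
            have hsum : dd c r = ∑ j ∈ T.erase i, (r j - c j) := by
              unfold dd
              symm
              apply Finset.sum_subset (Finset.subset_univ _)
              intro x _ hx; exact hsupp x hx
            have hcard : (T.erase i).card ≤ 1 := by
              rw [Finset.card_erase_of_mem hiT]; omega
            have hex : ∃ j ∈ T.erase i, 2 ≤ r j - c j := by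
              by_contra hne'
              push Not at hne'
              have hle : ∑ j ∈ T.erase i, (r j - c j) ≤ 1 := by
                calc ∑ j ∈ T.erase i, (r j - c j) ≤ ∑ j ∈ T.erase i, 1 :=
                      Finset.sum_le_sum (fun j hj => by have := hne' j hj; omega)
                  _ = (T.erase i).card := by simp
                  _ ≤ 1 := hcard
              omega
            obtain ⟨j, hjm, hj⟩ := hex
            have hji : j ≠ i := Finset.ne_of_mem_erase hjm
            have hjT : j ∈ T := Finset.mem_of_mem_erase hjm
            have key := sum_two (fun k => gg T m N k (c k) (r k))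
              (fun k => gg T m N k ((update c j (c j + 1)) k) (r' k)) i j hji.symm (by
              intro k hk hk'; simp only [update_of_ne hk', hrj k hk])
            have key2 := sum_two (fun k => (r k) - (c k))
              (fun k => (r' k) - ((update c j (c j + 1)) k)) i j hji.symm (by
              intro k hk hk'; simp only [update_of_ne hk', hrj k hk])
            simp only [update_self, update_of_ne hji.symm, hri, hrj j hji] at key key2
            have hlt : psi T m N (update c j (c j + 1)) r' < psi T m N c r := by
              have e1 : gg T m N i (c i) (r i + 1) + (N + r i) = gg T m N i (c i) (r i) + (4 * N + 1) + (m i - 1 - (r i + 1)) := by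
                unfold gg
                simp only [if_pos hiT]
                rw [if_neg (by omega), if_pos h0, show r i + 1 - c i = (r i - c i) + 1 by omega,
                  mulsucc]
                omega
              have e2 : gg T m N j (c j + 1) (r j) + (4 * N + 1) = gg T m N j (c j) (r j) := by
                unfold gg
                simp only [if_pos hjT]
                rw [if_neg (by omega), if_neg (by omega), show r j - c j = (r j - (c j + 1)) + 1 by omega,
                  mulsucc]
                omega
              have := hN i
              unfold psi; omega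
            refine ⟨update c j (c j + 1), Or.inr ⟨j, Or.inl (by simp), ?_⟩, ?_,
              Or.inr ⟨?_, hlt.le, fun _ => hlt, fun h => absurd h hne, fun h => absurd h hne⟩⟩
            · intro k hk; rw [update_of_ne hk]
            · intro k
              by_cases hk : k = j
              · subst hk; simp; rw [hrj k hji]; omega
              · rw [update_of_ne hk]
                by_cases hk' : k = i
                · subst hk'; have := hcr k; omega
                · rw [hrj k hk']; exact hcr k
            · unfold dd at hd ⊢; omega
          · -- mirror
            have key := sum_one (fun k => gg T m N k (c k) (r k))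
              (fun k => gg T m N k ((update c i (c i + 1)) k) (r' k)) i (by
              intro k hk; simp only [update_of_ne hk, hrj k hk])
            have key2 := sum_one (fun k => (r k) - (c k))
              (fun k => (r' k) - ((update c i (c i + 1)) k)) i (by
              intro k hk; simp only [update_of_ne hk, hrj k hk])
            simp only [update_self, hri] at key key2
            have g1 := gg_mirror_up T m N i (c i) (r i) hiT h0 hri'
            have hlt : psi T m N (update c i (c i + 1)) r' < psi T m N c r := by
              unfold psi; omega
            refine ⟨update c i (c i + 1), Or.inr ⟨i, Or.inl (by simp), ?_⟩, ?_,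
              Or.inr ⟨?_, hlt.le, fun _ => hlt, fun h => absurd h hne, fun h => absurd h hne⟩⟩
            · intro k hk; rw [update_of_ne hk]
            · intro k
              by_cases hk : k = i
              · subst hk; simp; omega
              · rw [update_of_ne hk, hrj k hk]; exact hcr k
            · unfold dd at hd ⊢; omega
      · -- i ∉ T : mirror
        have key := sum_one (fun k => gg T m N k (c k) (r k))
          (fun k => gg T m N k ((update c i (c i + 1)) k) (r' k)) i (by
          intro k hk; simp only [update_of_ne hk, hrj k hk])
        have key2 := sum_one (fun k => (r k) - (c k))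
          (fun k => (r' k) - ((update c i (c i + 1)) k)) i (by
          intro k hk; simp only [update_of_ne hk, hrj k hk])
        simp only [update_self, hri] at key key2
        have hci := hcr i
        have g1 := gg_same T m N i (c i) (r i) (c i + 1) (r i + 1) hiT (by omega)
        have hle : psi T m N (update c i (c i + 1)) r' ≤ psi T m N c r := by
          unfold psi; omega
        refine ⟨update c i (c i + 1), Or.inr ⟨i, Or.inl (by simp), ?_⟩, ?_,
          Or.inr ⟨?_, hle, ?_, fun h => absurd h hne, fun h => absurd h hne⟩⟩
        · intro k hk; rw [update_of_ne hk]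
        · intro k
          by_cases hk : k = i
          · subst hk; simp; omega
          · rw [update_of_ne hk, hrj k hk]; exact hcr k
        · unfold dd at hd ⊢; omega
        · rintro ⟨k, hkT, hk⟩
          exact absurd (hij k (fun h => hiT (h ▸ hkT))) hk
    · -- robber goes down in coordinate i
      have hne : r' ≠ r := fun h => by rw [h] at hi; omega
      have hrj : ∀ j, j ≠ i → r' j = r j := fun j hj => (hij j hj).symm
      rcases Nat.eq_or_lt_of_le (hcr i) with h0 | h0
      · -- mirror
        have hri : r' i = c i - 1 := by omega
        have key := sum_one (fun k => gg T m N k (c k) (r k))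
          (fun k => gg T m N k ((update c i (c i - 1)) k) (r' k)) i (by
          intro k hk; simp only [update_of_ne hk, hrj k hk])
        have key2 := sum_one (fun k => (r k) - (c k))
          (fun k => (r' k) - ((update c i (c i - 1)) k)) i (by
          intro k hk; simp only [update_of_ne hk, hrj k hk])
        simp only [update_self, hri] at key key2
        have hle : gg T m N i (c i - 1) (c i - 1) ≤ gg T m N i (c i) (r i) := by
          by_cases hiT : i ∈ T
          · have := gg_mirror_down T m N i (c i - 1) hiT
            rw [← h0]
            rw [show c i - 1 + 1 = c i by omega] at this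
            exact this.le
          · exact (gg_same T m N i (c i) (r i) (c i - 1) (c i - 1) hiT (by omega)).le
        have hlt : i ∈ T → gg T m N i (c i - 1) (c i - 1) < gg T m N i (c i) (r i) := by
          intro hiT
          have := gg_mirror_down T m N i (c i - 1) hiT
          rw [← h0]
          rw [show c i - 1 + 1 = c i by omega] at this
          exact this
        refine ⟨update c i (c i - 1), Or.inr ⟨i, Or.inr (by simp; omega), ?_⟩, ?_,
          Or.inr ⟨?_, ?_, ?_, fun h => absurd h hne, fun h => absurd h hne⟩⟩
        · intro k hk; rw [update_of_ne hk]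
        · intro k
          by_cases hk : k = i
          · subst hk; simp; omega
          · rw [update_of_ne hk, hrj k hk]; exact hcr k
        · unfold dd at hd ⊢; omega
        · unfold psi; omega
        · rintro ⟨k, hkT, hk⟩
          have hki : k = i := by
            by_contra h; exact hk (hij k h)
          have := hlt (hki ▸ hkT)
          unfold psi; omega
      · -- approach
        have key := sum_one (fun k => gg T m N k (c k) (r k))
          (fun k => gg T m N k (c k) (r' k)) i (by
          intro k hk; simp only [hrj k hk])
        have key2 := sum_one (fun k => (r k) - (c k))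
          (fun k => (r' k) - (c k)) i (by
          intro k hk; simp only [hrj k hk])
        have hle : ∀ k, c k ≤ r' k := by
          intro k
          by_cases hk : k = i
          · subst hk; omega
          · rw [hrj k hk]; exact hcr k
        have g1 := gg_succ T m N hN i (c i) (r i) (c i) (r' i) (hr' i) (by omega)
        have hlt : psi T m N c r' < psi T m N c r := by
          unfold psi; omega
        by_cases h2 : 2 ≤ dd c r'
        · exact ⟨c, Or.inl rfl, hle, Or.inr ⟨h2, hlt.le, fun _ => hlt, fun h => absurd h hne,
            fun h => absurd h hne⟩⟩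
        · have h1 : dd c r' = 1 := by
            unfold dd at hd h2 ⊢; omega
          exact ⟨r', dd_one hle h1, fun k => le_refl _, Or.inl rfl⟩

end Pool.Agent.Q149.Cop
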