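import Mathlib

namespace Pool.Agent.Q149.Cop

/-- A move of a player: stay put or go to an adjacent vertex. -/
def Step {V : Type*} (G : SimpleGraph V) (u v : V) : Prop := u = v ∨ G.Adj u v

/-- The cops that are still in the game after the robber moved onto the vertex `r`, when the cops of
the set `S` were in the game at the vertices `c i`: if exactly one of them stands on `r`, it is
removed; otherwise nothing changes. -/
def after {V : Type*} [DecidableEq V] {k : ℕ} (S : Finset (Fin k)) (c : Fin k → V) (r : V) :
    Finset (Fin k) :=
  if (S.filter fun i => c i = r).card = 1 then S.filter fun i => c i ≠ r else S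

/-- `CopsWin G S c r`: it is the cops' turn, the cops still in the game are those of the set `S`,
cop `i ∈ S` stands on `c i`, the robber on `r`, and the cops can force that at some point a cop
occupies the robber's vertex.  Either they move so that some cop occupies the robber's vertex
(this includes staying on it), or they move so that every answer of the robber leads again to such
a position. -/
inductive CopsWin {V : Type*} [DecidableEq V] (G : SimpleGraph V) {k : ℕ} :
    Finset (Fin k) → (Fin k → V) → V → Prop
  | capture (S : Finset (Fin k)) (c : Fin k → V) (r : V) (c' : Fin k → V)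
      (hc : ∀ i ∈ S, Step G (c i) (c' i)) (i : Fin k) (hi : i ∈ S) (h : c' i = r) :
      CopsWin G S c r
  | turn (S : Finset (Fin k)) (c : Fin k → V) (r : V) (c' : Fin k → V)
      (hc : ∀ i ∈ S, Step G (c i) (c' i))
      (h : ∀ r', Step G r r' → CopsWin G (after S c' r') c' r') : CopsWin G S c r

/-- `k` cops win on `G`: they can choose their initial vertices such that, wherever the robber
starts, they win with all `k` cops in the game and the cops moving first. -/
def Winning {V : Type*} [DecidableEq V] (G : SimpleGraph V) (k : ℕ) : Prop :=
  ∃ c : Fin k → V, ∀ r, CopsWin G Finset.univ c r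

/-- The grid `P_{m 0} □ ⋯ □ P_{m (n-1)}`: two vertices are adjacent when they differ by `1` in
exactly one coordinate. -/
def grid {n : ℕ} (m : Fin n → ℕ) : SimpleGraph ((i : Fin n) → Fin (m i)) where
  Adj u v := ∃ i, ((u i : ℕ) + 1 = v i ∨ (v i : ℕ) + 1 = u i) ∧ ∀ j, j ≠ i → u j = v j
  symm := ⟨by
    rintro u v ⟨i, hi, hj⟩
    exact ⟨i, hi.symm, fun j h => (hj j h).symm⟩⟩
  loopless := ⟨by
    rintro u ⟨i, hi, _⟩
    omega⟩

end Pool.Agent.Q149.Cop
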