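import Pool.Agent.Q149.CopA
import Pool.Agent.Q149.CopDefs

namespace Pool.Agent.Q149.Cop

open Finset Function

variable {n : ℕ} {m : Fin n → ℕ}

/-- coordinates as natural numbers -/
def val (u : (i : Fin n) → Fin (m i)) : Fin n → ℕ := fun i => (u i : ℕ)

theorem val_inj {u v : (i : Fin n) → Fin (m i)} (h : val u = val v) : u = v := by
  funext i; exact Fin.ext (congrFun h i)

theorem step_iff (u v : (i : Fin n) → Fin (m i)) : Step (grid m) u v ↔ NS (val u) (val v) := by
  constructor
  · rintro (rfl | ⟨i, hi, hj⟩)
    · exact Or.inl rfl
    · exact Or.inr ⟨i, hi, fun j h => congrArg Fin.val (hj j h)⟩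
  · rintro (h | ⟨i, hi, hj⟩)
    · exact Or.inl (val_inj h)
    · exact Or.inr ⟨i, hi, fun j h => Fin.ext (hj j h)⟩

theorem step_refl (u : (i : Fin n) → Fin (m i)) : Step (grid m) u u := Or.inl rfl

theorem step_symm {u v : (i : Fin n) → Fin (m i)} (h : Step (grid m) u v) :
    Step (grid m) v u := by
  rcases h with h | h
  · exact Or.inl h.symm
  · exact Or.inr h.symm

theorem NS_symm {u v : Fin n → ℕ} (h : NS u v) : NS v u := by
  rcases h with h | ⟨i, hi, hj⟩
  · exact Or.inl h.symm
  · exact Or.inr ⟨i, hi.symm, fun j h => (hj j h).symm⟩

theorem dd_step {c r r' : Fin n → ℕ} (h : NS r r') : dd c r ≤ dd c r' + 1 := by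
  rcases h with rfl | ⟨i, hi, hj⟩
  · omega
  · have := sum_one (fun k => r k - c k) (fun k => r' k - c k) i (by
      intro k hk; simp only [hj k hk])
    unfold dd; omega

theorem dd_self (c : Fin n → ℕ) : dd c c = 0 := by simp [dd]

theorem respondV (T : Finset (Fin n)) (hT : T.card ≤ 2) (N : ℕ)
    (hN : ∀ i, m i ≤ N) (c r r' : (i : Fin n) → Fin (m i)) (hcr : ∀ i, val c i ≤ val r i)
    (hd : 2 ≤ dd (val c) (val r)) (hs : Step (grid m) r r') :
    ∃ c' : (i : Fin n) → Fin (m i), Step (grid m) c c' ∧ (c' = r' ∨
      ((∀ i, val c' i ≤ val r' i) ∧ 2 ≤ dd (val c') (val r') ∧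
      psi T m N (val c') (val r') ≤ psi T m N (val c) (val r) ∧
      ((∃ i ∈ T, r i ≠ r' i) → psi T m N (val c') (val r') < psi T m N (val c) (val r)) ∧
      (r' = r → 3 ≤ dd (val c) (val r) →
        psi T m N (val c') (val r') < psi T m N (val c) (val r)) ∧
      (r' = r → dd (val c) (val r) = 2 → c' = c))) := by
  obtain ⟨c', h1, h2, h3⟩ := respond T hT m N hN (val c) (val r) (val r') hcr
    (fun i => (r i).isLt) (fun i => (r' i).isLt) hd ((step_iff r r').1 hs)
  refine ⟨fun i => ⟨c' i, lt_of_le_of_lt (h2 i) (r' i).isLt⟩, (step_iff _ _).2 h1, ?_⟩
  rcases h3 with h3 | ⟨h3, h4, h5, h6, h7⟩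
  · exact Or.inl (val_inj h3)
  · refine Or.inr ⟨h2, h3, h4, ?_, ?_, ?_⟩
    · rintro ⟨i, hi, hne⟩
      exact h5 ⟨i, hi, fun h => hne (Fin.ext h)⟩
    · intro h; exact h6 (congrArg val h)
    · intro h h'; exact val_inj (h7 (congrArg val h) h')

theorem exists_between {c r : (i : Fin n) → Fin (m i)} (hcr : ∀ i, val c i ≤ val r i)
    (hd : dd (val c) (val r) = 2) :
    ∃ w, Step (grid m) c w ∧ Step (grid m) w r ∧ w ≠ r := by
  have hex : ∃ j, val c j < val r j := by
    by_contra hne
    push Not at hne
    have : dd (val c) (val r) = 0 :=
      Finset.sum_eq_zero (fun i _ => by have := hne i; omega)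
    omega
  obtain ⟨j, hj⟩ := hex
  have h1 := dd_self_move hj
  have hle : ∀ i, update (val c) j (val c j + 1) i ≤ val r i := by
    intro k
    by_cases hk : k = j
    · rw [hk, update_self]; exact hj
    · rw [update_of_ne hk]; exact hcr k
  refine ⟨fun i => ⟨update (val c) j (val c j + 1) i, lt_of_le_of_lt (hle i) (r i).isLt⟩, ?_, ?_, ?_⟩
  · apply (step_iff _ _).2
    refine Or.inr ⟨j, Or.inl ?_, ?_⟩
    · simp [val]
    · intro k hk; simp [val, update_of_ne hk]
  · apply (step_iff _ _).2
    have h3 : dd (update (val c) j (val c j + 1)) (val r) = 1 := by omega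
    exact dd_one hle h3
  · intro h
    have h2 : update (val c) j (val c j + 1) = val r := congrArg val h
    rw [h2, dd_self] at h1
    omega

/-- the coordinates of the block of cop `t` -/
def block (n t : ℕ) : Finset (Fin n) := univ.filter fun i => i.val / 2 = t

theorem block_card (n t : ℕ) : (block n t).card ≤ 2 := by
  have h : (block n t).image (fun i : Fin n => i.val) ⊆ ({2 * t, 2 * t + 1} : Finset ℕ) := by
    intro x hx
    rw [Finset.mem_image] at hx
    obtain ⟨i, hi, rfl⟩ := hx
    simp only [block, Finset.mem_filter, Finset.mem_univ, true_and] at hi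
    simp only [Finset.mem_insert, Finset.mem_singleton]
    omega
  have h1 := Finset.card_le_card h
  rw [Finset.card_image_of_injective _ Fin.val_injective] at h1
  exact h1.trans (Finset.card_le_two)

section strat

variable (m) (K : ℕ) (N : ℕ)

/-- invariant at the robber's turn -/
def Inv (c : Fin (K + 2) → ((i : Fin n) → Fin (m i))) (r : (i : Fin n) → Fin (m i)) : Prop :=
  (∀ t : Fin (K + 1), (∀ i, val (c t.castSucc) i ≤ val r i) ∧
    2 ≤ dd (val (c t.castSucc)) (val r)) ∧
  Step (grid m) (c (Fin.last (K + 1))) (c 0) ∧ c (Fin.last (K + 1)) ≠ r

open Classical in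
/-- phase of the follower -/
noncomputable def phase (c : Fin (K + 2) → ((i : Fin n) → Fin (m i))) (r : (i : Fin n) → Fin (m i)) :
    ℕ :=
  if Step (grid m) (c (Fin.last (K + 1))) r then 0
  else if c (Fin.last (K + 1)) = c 0 then 1 else 2

/-- total potential -/
noncomputable def Psi (c : Fin (K + 2) → ((i : Fin n) → Fin (m i))) (r : (i : Fin n) → Fin (m i)) :
    ℕ :=
  ∑ t : Fin (K + 1), psi (block n t) m N (val (c t.castSucc)) (val r)

theorem main_upper (hN : ∀ i, m i ≤ N) (hK : (n + 1) / 2 = K + 1) (M : ℕ) :
    ∀ (c : Fin (K + 2) → ((i : Fin n) → Fin (m i))) (r : (i : Fin n) → Fin (m i)),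
      Inv m K c r → 3 * Psi m K N c r + phase m K c r < M →
      ∀ r', Step (grid m) r r' → CopsWin (grid m) (after univ c r') c r' := by
  induction M with
  | zero => intro c r _ h; omega
  | succ M ih =>
    intro c r hinv hmu r' hr'
    obtain ⟨hI1, hI2, hI3⟩ := hinv
    have h0c : ((0 : Fin (K + 1)).castSucc : Fin (K + 2)) = 0 := rfl
    have hne : ∀ t : Fin (K + 1), c t.castSucc ≠ r' := by
      intro t h
      have h1 := dd_step (c := val (c t.castSucc)) ((step_iff _ _).1 hr')
      rw [← h, dd_self] at h1
      have := (hI1 t).2
      omega
    by_cases hA : c (Fin.last (K + 1)) = r'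
    · have hf : (univ.filter fun i => c i = r') = {Fin.last (K + 1)} := by
        ext i
        simp only [Finset.mem_filter, Finset.mem_univ, true_and, Finset.mem_singleton]
        constructor
        · intro hi
          refine Fin.lastCases (motive := fun i => c i = r' → i = Fin.last (K + 1)) ?_ ?_ i hi
          · intro _; rfl
          · intro t ht; exact absurd ht (hne t)
        · rintro rfl; exact hA
      have haf : after univ c r' = univ.filter fun i => c i ≠ r' := by
        unfold after
        rw [hf, if_pos (Finset.card_singleton _)]
      rw [haf]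
      have h0 : c 0 ≠ r' := hne 0
      refine CopsWin.capture _ c r' (update c 0 r') ?_ 0 ?_ (by simp)
      · intro i _
        by_cases hi : i = 0
        · subst hi; rw [update_self]; rw [← hA]; exact step_symm hI2
        · rw [update_of_ne hi]; exact step_refl _
      · simp only [Finset.mem_filter, Finset.mem_univ, true_and]; exact h0
    · have hf : (univ.filter fun i => c i = r') = ∅ := by
        apply Finset.filter_eq_empty_iff.2
        intro i _
        refine Fin.lastCases (motive := fun i => ¬ c i = r') hA (fun t => hne t) i
      have haf : after univ c r' = univ := by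
        unfold after
        rw [hf, if_neg (by simp)]
      rw [haf]
      by_cases hff : Step (grid m) (c (Fin.last (K + 1))) r'
      · refine CopsWin.capture _ c r' (update c (Fin.last (K + 1)) r') ?_ (Fin.last (K + 1))
          (Finset.mem_univ _) (by simp)
        intro i _
        by_cases hi : i = Fin.last (K + 1)
        · subst hi; rw [update_self]; exact hff
        · rw [update_of_ne hi]; exact step_refl _
      · choose d hd1 hd2 using fun t : Fin (K + 1) => respondV (block n t) (block_card n t) N hN
          (c t.castSucc) r r' (hI1 t).1 (hI1 t).2 hr'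
        by_cases hcap : ∃ t, d t = r'
        · obtain ⟨t, ht⟩ := hcap
          refine CopsWin.capture _ c r' (update c t.castSucc r') ?_ t.castSucc
            (Finset.mem_univ _) (by simp)
          intro i _
          by_cases hi : i = t.castSucc
          · subst hi; rw [update_self, ← ht]; exact hd1 t
          · rw [update_of_ne hi]; exact step_refl _
        · push Not at hcap
          have hd3 := fun t => (hd2 t).resolve_left (hcap t)
          -- the follower's answer
          have hfol : ∃ f, Step (grid m) (c (Fin.last (K + 1))) f ∧ Step (grid m) f (d 0) ∧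
              f ≠ r' ∧ (r' = r → dd (val (c 0)) (val r) = 2 →
                ((c (Fin.last (K + 1)) = c 0 → Step (grid m) f r) ∧
                 (c (Fin.last (K + 1)) ≠ c 0 → f = c 0))) := by
            by_cases hsp : r' = r ∧ dd (val (c 0)) (val r) = 2 ∧ c (Fin.last (K + 1)) = c 0
            · obtain ⟨h1, h2, h3⟩ := hsp
              obtain ⟨w, hw1, hw2, hw3⟩ := exists_between (hI1 0).1 h2
              have hd0 : d 0 = c 0 := (hd3 0).2.2.2.2.2 h1 h2
              refine ⟨w, ?_, ?_, ?_, ?_⟩
              · rw [h3]; exact hw1
              · rw [hd0]; exact step_symm hw1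
              · rw [h1]; exact hw3
              · intro _ _
                exact ⟨fun _ => hw2, fun h => absurd h3 h⟩
            · refine ⟨c 0, hI2, hd1 0, hne 0, ?_⟩
              intro h1 h2
              exact ⟨fun h => absurd ⟨h1, h2, h⟩ hsp, fun _ => rfl⟩
          obtain ⟨f, hf1, hf2, hf3, hf4⟩ := hfol
          let c' : Fin (K + 2) → ((i : Fin n) → Fin (m i)) :=
            Fin.lastCases (motive := fun _ => ((i : Fin n) → Fin (m i))) f d
          have hc'l : c' (Fin.last (K + 1)) = f := by simp [c']
          have hc't : ∀ t : Fin (K + 1), c' t.castSucc = d t := by intro t; simp [c']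
          have hc'0 : c' 0 = d 0 := hc't 0
          refine CopsWin.turn _ c r' c' ?_ ?_
          · intro i _
            refine Fin.lastCases (motive := fun i => Step (grid m) (c i) (c' i)) ?_ ?_ i
            · rw [hc'l]; exact hf1
            · intro t; rw [hc't]; exact hd1 t
          · apply ih c' r'
            · refine ⟨?_, ?_, ?_⟩
              · intro t; rw [hc't]; exact ⟨(hd3 t).1, (hd3 t).2.1⟩
              · rw [hc'l, hc'0]; exact hf2
              · rw [hc'l]; exact hf3
            · -- the measure decreases
              have hle : Psi m K N c' r' ≤ Psi m K N c r := by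
                unfold Psi
                apply Finset.sum_le_sum
                intro t _
                rw [hc't]; exact (hd3 t).2.2.1
              have hph : ∀ (c : Fin (K + 2) → ((i : Fin n) → Fin (m i))) r, phase m K c r ≤ 2 := by
                intro c r; unfold phase; split_ifs <;> omega
              by_cases hrr : r' = r
              · rcases Nat.lt_or_ge 2 (dd (val (c 0)) (val r)) with h3 | h3
                · have hlt : Psi m K N c' r' < Psi m K N c r := by
                    unfold Psi
                    apply Finset.sum_lt_sum
                    · intro t _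
                      rw [hc't]; exact (hd3 t).2.2.1
                    · refine ⟨0, Finset.mem_univ _, ?_⟩
                      rw [hc't]
                      exact (hd3 0).2.2.2.2.1 hrr h3
                  have := hph c' r'
                  omega
                · have h2 : dd (val (c 0)) (val r) = 2 := by
                    have := (hI1 0).2
                    rw [h0c] at this
                    omega
                  have hp : phase m K c' r' < phase m K c r := by
                    have hnf : ¬ Step (grid m) (c (Fin.last (K + 1))) r := by
                      rw [← hrr]; exact hff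
                    by_cases h4 : c (Fin.last (K + 1)) = c 0
                    · have h5 := (hf4 hrr h2).1 h4
                      have e1 : phase m K c' r' = 0 := by
                        unfold phase
                        rw [hc'l, hrr, if_pos h5]
                      have e2 : phase m K c r = 1 := by
                        unfold phase
                        rw [if_neg hnf, if_pos h4]
                      omega
                    · have h5 := (hf4 hrr h2).2 h4
                      have hd0 : d 0 = c 0 := (hd3 0).2.2.2.2.2 hrr h2
                      have e1 : phase m K c' r' ≤ 1 := by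
                        unfold phase
                        rw [hc'l, hc'0, hd0, h5]
                        split_ifs <;> simp_all
                      have e2 : phase m K c r = 2 := by
                        unfold phase
                        rw [if_neg hnf, if_neg h4]
                      omega
                  omega
              · have hex : ∃ i, r i ≠ r' i := by
                  by_contra h
                  push Not at h
                  exact hrr (funext fun i => (h i).symm)
                obtain ⟨i, hi⟩ := hex
                have hi2 : i.val / 2 < K + 1 := by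
                  have := i.isLt
                  omega
                have hlt : Psi m K N c' r' < Psi m K N c r := by
                  unfold Psi
                  apply Finset.sum_lt_sum
                  · intro t _
                    rw [hc't]; exact (hd3 t).2.2.1
                  · refine ⟨⟨i.val / 2, hi2⟩, Finset.mem_univ _, ?_⟩
                    rw [hc't]
                    exact (hd3 ⟨i.val / 2, hi2⟩).2.2.2.1 ⟨i, by simp [block], hi⟩
                have := hph c' r'
                omega

end strat

theorem upper (m : Fin n → ℕ) (hm : ∀ i, 1 ≤ m i) (hn : 1 ≤ n) :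
    Winning (grid m) ((n + 1) / 2 + 1) := by
  obtain ⟨K, hK⟩ : ∃ K, (n + 1) / 2 = K + 1 := ⟨(n + 1) / 2 - 1, by omega⟩
  rw [hK]
  let o : (i : Fin n) → Fin (m i) := fun i => ⟨0, hm i⟩
  refine ⟨fun _ => o, ?_⟩
  intro r
  by_cases h : Step (grid m) o r
  · exact CopsWin.capture _ _ r (fun _ => r) (fun i _ => h) 0 (Finset.mem_univ _) rfl
  · have h2 : 2 ≤ dd (val o) (val r) := by
      by_contra hlt
      have : dd (val o) (val r) = 0 ∨ dd (val o) (val r) = 1 := by omega
      rcases this with h0 | h1
      · apply h
        left
        funext i
        apply Fin.ext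
        have h3 := (Finset.sum_eq_zero_iff.1 (show ∑ i, (val r i - val o i) = 0 from h0)) i
          (Finset.mem_univ _)
        simp only [val, o] at h3 ⊢
        omega
      · exact h ((step_iff _ _).2 (dd_one (fun i => by simp [val, o]) h1))
    refine CopsWin.turn _ _ r (fun _ => o) (fun i _ => step_refl _) ?_
    obtain ⟨N, hN⟩ : ∃ N, ∀ i, m i ≤ N := ⟨∑ i, m i, fun i =>
      Finset.single_le_sum (f := m) (fun j _ => Nat.zero_le _) (Finset.mem_univ i)⟩
    refine main_upper m K N hN hK _ (fun _ => o) r ⟨?_, step_refl _, ?_⟩ (Nat.lt_succ_self _)
    · intro t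
      exact ⟨fun i => by simp [val, o], h2⟩
    · intro he
      exact h (Or.inl he)

end Pool.Agent.Q149.Cop
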