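import Pool.Agent.Q149.CopB

namespace Pool.Agent.Q149.Cop

open Finset Function

variable {n : ℕ} {m : Fin n → ℕ}

theorem exists_nb (hm : ∀ i, 2 ≤ m i) (r : (i : Fin n) → Fin (m i)) :
    ∃ nb : Fin n → ((i : Fin n) → Fin (m i)),
      ∀ a, ((r a : ℕ) + 1 = nb a a ∨ (nb a a : ℕ) + 1 = r a) ∧ ∀ j, j ≠ a → nb a j = r j := by
  have h : ∀ a : Fin n, ∃ v : (i : Fin n) → Fin (m i),
      ((r a : ℕ) + 1 = v a ∨ (v a : ℕ) + 1 = r a) ∧ ∀ j, j ≠ a → v j = r j := by
    intro a
    by_cases h : (r a : ℕ) + 1 < m a
    · refine ⟨update r a ⟨r a + 1, h⟩, Or.inl (by simp), fun j hj => ?_⟩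
      rw [update_of_ne hj]
    · have h2 := hm a
      have h3 := (r a).isLt
      refine ⟨update r a ⟨r a - 1, by omega⟩, Or.inr (by simp; omega), fun j hj => ?_⟩
      rw [update_of_ne hj]
  choose nb hnb using h
  exact ⟨nb, hnb⟩

/-- a common neighbour in direction `a` -/
theorem codeg {r u w : (i : Fin n) → Fin (m i)} {a : Fin n}
    (h1 : (r a : ℕ) + 1 = w a ∨ (w a : ℕ) + 1 = r a) (h2 : ∀ j, j ≠ a → w j = r j)
    (hu : u ≠ r) (had : (grid m).Adj u w) :
    u a ≠ r a ∧ (univ.filter fun j => u j ≠ r j).card ≤ 2 := by
  obtain ⟨x, hx, hxj⟩ := had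
  have hsub : (univ.filter fun j => u j ≠ r j) ⊆ {a, x} := by
    intro j hj
    simp only [Finset.mem_filter, Finset.mem_univ, true_and] at hj
    simp only [Finset.mem_insert, Finset.mem_singleton]
    by_contra hne
    push Not at hne
    exact hj ((hxj j hne.2).trans (h2 j hne.1))
  refine ⟨?_, (Finset.card_le_card hsub).trans Finset.card_le_two⟩
  intro hua
  by_cases hxa : x = a
  · subst hxa
    apply hu
    funext j
    by_cases hj : j = x
    · subst hj; exact hua
    · exact (hxj j hj).trans (h2 j hj)
  · have h3 := hxj a (fun h => hxa h.symm)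
    rw [hua] at h3
    have h4 := congrArg Fin.val h3
    omega

theorem no_triangle {r u w : (i : Fin n) → Fin (m i)} {a : Fin n}
    (h1 : (r a : ℕ) + 1 = w a ∨ (w a : ℕ) + 1 = r a) (h2 : ∀ j, j ≠ a → w j = r j)
    (hu : (grid m).Adj u r) (had : (grid m).Adj u w) : False := by
  obtain ⟨x, hx, hxj⟩ := had
  obtain ⟨y, hy, hyj⟩ := hu
  by_cases hxa : x = a
  · subst hxa
    by_cases hyx : y = x
    · subst hyx; omega
    · have h3 := hyj x (fun h => hyx h.symm)
      have h5 := hxj y hyx
      have h6 := h2 y hyx
      rw [h6] at h5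
      have h7 := congrArg Fin.val h5
      omega
  · have h3 := hxj a (fun h => hxa h.symm)
    have h4 := h2 x hxa
    rw [h4] at hx
    by_cases hya : y = a
    · subst hya
      have h5 := hyj x hxa
      have h7 := congrArg Fin.val h5
      omega
    · have h5 := hyj a (fun h => hya h.symm)
      rw [h5] at h3
      have h7 := congrArg Fin.val h3
      omega

theorem evade (K : ℕ) (hK : 2 * K ≤ n + 1) (hm : ∀ i, 2 ≤ m i) {k : ℕ} (S : Finset (Fin k))
    (c : Fin k → ((i : Fin n) → Fin (m i))) (r : (i : Fin n) → Fin (m i))
    (h : CopsWin (grid m) S c r) :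
    S.card ≤ K → (∀ i ∈ S, ¬ Step (grid m) (c i) r) → False := by
  induction h with
  | capture S c r c' hc i hi h =>
    intro _ hs
    exact hs i hi (h ▸ hc i hi)
  | turn S c r c' hc h ih =>
    intro hcard hs
    have hcr : ∀ i ∈ S, c' i ≠ r := fun i hi he => hs i hi (he ▸ hc i hi)
    by_cases hA : ∃ i0 ∈ S, Step (grid m) (c' i0) r
    · obtain ⟨i0, hi0, hst⟩ := hA
      have hadj0 : (grid m).Adj (c' i0) r := hst.resolve_left (hcr i0 hi0)
      obtain ⟨nb, hnb⟩ := exists_nb hm r
      have hinj : Injective nb := by
        intro a b hab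
        by_contra hne
        have h1 := (hnb b).2 a hne
        rw [← hab] at h1
        have h2 := (hnb a).1
        rw [h1] at h2
        omega
      classical
      let D : Fin k → Finset (Fin n) := fun i =>
        if (grid m).Adj (c' i) r then univ.filter fun a => c' i = nb a
        else univ.filter fun a => (grid m).Adj (c' i) (nb a)
      have hD : ∀ i ∈ S.erase i0, (D i).card ≤ 2 := by
        intro i hi
        by_cases hadj : (grid m).Adj (c' i) r
        · simp only [D, if_pos hadj]
          have : (univ.filter fun a => c' i = nb a).card ≤ 1 := by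
            rw [Finset.card_le_one]
            intro a ha b hb
            simp only [Finset.mem_filter, Finset.mem_univ, true_and] at ha hb
            exact hinj (ha.symm.trans hb)
          omega
        · simp only [D, if_neg hadj]
          by_cases hemp : (univ.filter fun a => (grid m).Adj (c' i) (nb a)) = ∅
          · rw [hemp]; simp
          · obtain ⟨a, ha⟩ := Finset.nonempty_iff_ne_empty.2 hemp
            simp only [Finset.mem_filter, Finset.mem_univ, true_and] at ha
            have h2 := (codeg (hnb a).1 (hnb a).2 (hcr i (Finset.mem_of_mem_erase hi)) ha).2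
            refine (Finset.card_le_card ?_).trans h2
            intro b hb
            simp only [Finset.mem_filter, Finset.mem_univ, true_and] at hb ⊢
            exact (codeg (hnb b).1 (hnb b).2 (hcr i (Finset.mem_of_mem_erase hi)) hb).1
      have hB : ((S.erase i0).biUnion D).card < n := by
        have h1 : ((S.erase i0).biUnion D).card ≤ (S.erase i0).card * 2 :=
          Finset.card_biUnion_le_card_mul _ _ _ hD
        have h2 := Finset.card_erase_of_mem hi0
        have h3 : 0 < S.card := Finset.card_pos.2 ⟨i0, hi0⟩
        omega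
      obtain ⟨a, ha⟩ : ∃ a, a ∉ (S.erase i0).biUnion D := by
        by_contra hne
        push Not at hne
        have : (S.erase i0).biUnion D = univ := Finset.eq_univ_of_forall hne
        rw [this, Finset.card_univ, Fintype.card_fin] at hB
        omega
      have hstep : Step (grid m) r (nb a) := Or.inr ⟨a, (hnb a).1, fun j hj => ((hnb a).2 j hj).symm⟩
      have hnoadj : ∀ i ∈ S, ¬ (grid m).Adj (c' i) (nb a) := by
        intro i hi hadj
        by_cases hir : (grid m).Adj (c' i) r
        · exact no_triangle (hnb a).1 (hnb a).2 hir hadj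
        · apply ha
          rw [Finset.mem_biUnion]
          refine ⟨i, Finset.mem_erase.2 ⟨?_, hi⟩, ?_⟩
          · rintro rfl; exact hir hadj0
          · simp only [D, if_neg hir]
            simp [hadj]
      have hone : (S.filter fun i => c' i = nb a).card ≤ 1 := by
        rw [Finset.card_le_one]
        intro i hi j hj
        simp only [Finset.mem_filter] at hi hj
        by_contra hij
        have key : ∀ i ∈ S, c' i = nb a → i ≠ i0 → False := by
          intro i hi hia hne
          apply ha
          rw [Finset.mem_biUnion]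
          refine ⟨i, Finset.mem_erase.2 ⟨hne, hi⟩, ?_⟩
          have hadj : (grid m).Adj (c' i) r := by
            rw [hia]
            exact ⟨a, (hnb a).1.symm, (hnb a).2⟩
          simp only [D, if_pos hadj]
          simp [hia]
        by_cases hi0' : i = i0
        · exact key j hj.1 hj.2 (fun h => hij (hi0'.trans h.symm))
        · exact key i hi.1 hi.2 hi0'
      refine ih (nb a) hstep ?_ ?_
      · unfold after
        split_ifs with hc1
        · exact (Finset.card_le_card (Finset.filter_subset _ _)).trans hcard
        · exact hcard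
      · intro i hi hst'
        unfold after at hi
        split_ifs at hi with hc1
        · rw [Finset.mem_filter] at hi
          rcases hst' with h | h
          · exact hi.2 h
          · exact hnoadj i hi.1 h
        · rcases hst' with h | h
          · apply hc1
            have : 0 < (S.filter fun i => c' i = nb a).card :=
              Finset.card_pos.2 ⟨i, Finset.mem_filter.2 ⟨hi, h⟩⟩
            omega
          · exact hnoadj i hi h
    · push Not at hA
      have hf : (S.filter fun i => c' i = r) = ∅ :=
        Finset.filter_eq_empty_iff.2 (fun i hi => hcr i hi)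
      have haf : after S c' r = S := by
        unfold after
        rw [hf, if_neg (by simp)]
      refine ih r (Or.inl rfl) ?_ ?_
      · rw [haf]; exact hcard
      · rw [haf]; exact hA

theorem lower (hm : ∀ i, 2 ≤ m i) (k : ℕ) (hk : 2 * k ≤ n + 1)
    (hdom : ∀ c : Fin k → ((i : Fin n) → Fin (m i)), ∃ r, ∀ i, ¬ Step (grid m) (c i) r) :
    ¬ Winning (grid m) k := by
  rintro ⟨c, hc⟩
  obtain ⟨r, hr⟩ := hdom c
  exact evade k hk hm univ c r (hc r) (by simp) (fun i _ => hr i)

/-- corners -/
def corner (hm : ∀ i, 2 ≤ m i) (b : Fin n → Bool) : (i : Fin n) → Fin (m i) := fun i =>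
  if b i then ⟨m i - 1, by have := hm i; omega⟩ else ⟨0, by have := hm i; omega⟩

/-- nearest corner -/
def near (c : (i : Fin n) → Fin (m i)) : Fin n → Bool := fun i => decide (m i ≤ 2 * (c i : ℕ))

theorem near_corner (hm : ∀ i, 2 ≤ m i) (c : (i : Fin n) → Fin (m i)) (b : Fin n → Bool)
    (j : Fin n) (h : c j = corner hm b j) : b j = near c j := by
  have h2 := hm j
  have h1 := congrArg Fin.val h
  unfold near
  unfold corner at h1
  cases hb : b j
  · rw [hb] at h1
    simp at h1
    symm
    rw [decide_eq_false_iff_not]; omega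
  · rw [hb] at h1
    simp at h1
    symm
    rw [decide_eq_true_iff]; omega

open Classical in
/-- corners in the closed neighbourhood of `c` -/
noncomputable def cov (hm : ∀ i, 2 ≤ m i) (c : (i : Fin n) → Fin (m i)) :
    Finset (Fin n → Bool) := univ.filter fun b => Step (grid m) c (corner hm b)

theorem dom_of_cov (hm : ∀ i, 2 ≤ m i) (k q : ℕ) (hq : ∀ c, (cov hm c).card ≤ q)
    (hkq : k * q < 2 ^ n) (c : Fin k → ((i : Fin n) → Fin (m i))) :
    ∃ r, ∀ i, ¬ Step (grid m) (c i) r := by
  classical
  have h1 : (univ.biUnion fun i => cov hm (c i)).card ≤ (univ : Finset (Fin k)).card * q :=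
    Finset.card_biUnion_le_card_mul _ _ _ (fun i _ => hq (c i))
  obtain ⟨b, hb⟩ : ∃ b, b ∉ univ.biUnion fun i => cov hm (c i) := by
    by_contra hne
    push Not at hne
    have : (univ.biUnion fun i => cov hm (c i)) = univ := Finset.eq_univ_of_forall hne
    rw [this] at h1
    simp at h1
    omega
  refine ⟨corner hm b, fun i hi => hb ?_⟩
  rw [Finset.mem_biUnion]
  exact ⟨i, Finset.mem_univ _, by simp [cov, hi]⟩

theorem cov_cases (hm : ∀ i, 2 ≤ m i) (c : (i : Fin n) → Fin (m i)) (b : Fin n → Bool)
    (hb : b ∈ cov hm c) : b = near c ∨ ∃ a, b = update (near c) a (! near c a) ∧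
      (∀ j, j ≠ a → c j = corner hm b j) ∧
      ((c a : ℕ) + 1 = corner hm b a ∨ (corner hm b a : ℕ) + 1 = c a) := by
  simp only [cov, Finset.mem_filter, Finset.mem_univ, true_and] at hb
  rcases hb with hb | ⟨a, ha, haj⟩
  · left
    funext j
    exact near_corner hm c b j (congrFun hb j)
  · by_cases hba : b a = near c a
    · left
      funext j
      by_cases hj : j = a
      · subst hj; exact hba
      · exact near_corner hm c b j (haj j hj)
    · right
      refine ⟨a, ?_, haj, ha⟩
      funext j
      by_cases hj : j = a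
      · subst hj
        rw [update_self]
        cases h1 : b j <;> cases h2 : near c j <;> simp_all
      · rw [update_of_ne hj]
        exact near_corner hm c b j (haj j hj)

theorem cov_card (hm : ∀ i, 2 ≤ m i) (c : (i : Fin n) → Fin (m i)) :
    (cov hm c).card ≤ n + 1 := by
  classical
  have hsub : cov hm c ⊆ insert (near c) (univ.image fun a => update (near c) a (! near c a)) := by
    intro b hb
    rw [Finset.mem_insert, Finset.mem_image]
    rcases cov_cases hm c b hb with h | ⟨a, h, _⟩
    · exact Or.inl h
    · exact Or.inr ⟨a, Finset.mem_univ _, h.symm⟩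
  refine (Finset.card_le_card hsub).trans ?_
  refine (Finset.card_insert_le _ _).trans ?_
  have := Finset.card_image_le (s := (univ : Finset (Fin n)))
    (f := fun a => update (near c) a (! near c a))
  simp at this
  simpa using this

theorem cov_card' (hm : ∀ i, 2 ≤ m i) (hn : 2 ≤ n) (a0 : Fin n) (ha0 : 3 ≤ m a0)
    (c : (i : Fin n) → Fin (m i)) : (cov hm c).card ≤ n := by
  classical
  by_cases hext : (c a0 : ℕ) = 0 ∨ (c a0 : ℕ) = m a0 - 1
  · have hsub : cov hm c ⊆
        insert (near c) ((univ.erase a0).image fun a => update (near c) a (! near c a)) := by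
      intro b hb
      rw [Finset.mem_insert, Finset.mem_image]
      rcases cov_cases hm c b hb with h | ⟨a, h, h2, h3⟩
      · exact Or.inl h
      · refine Or.inr ⟨a, Finset.mem_erase.2 ⟨?_, Finset.mem_univ _⟩, h.symm⟩
        rintro rfl
        unfold corner at h3
        cases hba : b a
        · rw [hba] at h3; simp at h3; omega
        · rw [hba] at h3; simp at h3; omega
    refine (Finset.card_le_card hsub).trans ?_
    refine (Finset.card_insert_le _ _).trans ?_
    have := Finset.card_image_le (s := (univ : Finset (Fin n)).erase a0)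
      (f := fun a => update (near c) a (! near c a))
    rw [Finset.card_erase_of_mem (Finset.mem_univ _)] at this
    simp only [Finset.card_univ, Fintype.card_fin] at this
    omega
  · have hsub : cov hm c ⊆ {near c, update (near c) a0 (! near c a0)} := by
      intro b hb
      rw [Finset.mem_insert, Finset.mem_singleton]
      rcases cov_cases hm c b hb with h | ⟨a, h, h2, h3⟩
      · exact Or.inl h
      · by_cases ha : a = a0
        · subst ha; exact Or.inr h
        · exfalso
          have h4 := congrArg Fin.val (h2 a0 (fun h => ha h.symm))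
          apply hext
          unfold corner at h4
          cases hba : b a0
          · rw [hba] at h4; simp at h4; left; omega
          · rw [hba] at h4; simp at h4; right; omega
    exact ((Finset.card_le_card hsub).trans Finset.card_le_two).trans hn

theorem pow_ineq (n : ℕ) (hn : 4 ≤ n) : (n + 1) * (n + 1) < 2 ^ (n + 1) := by
  induction n, hn using Nat.le_induction with
  | base => norm_num
  | succ n hn ih =>
    rw [pow_succ]
    nlinarith

/-- the attacking cop number of the grid -/
def answer {n : ℕ} (m : Fin n → ℕ) : ℕ :=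
  if n = 1 ∧ ∀ i, m i ≤ 3 then 1
  else if n = 3 ∧ ∀ i, m i = 2 then 2
  else (n + 1) / 2 + 1

theorem winning_path (m : Fin 1 → ℕ) (hm : ∀ i, 2 ≤ m i) (h3 : ∀ i, m i ≤ 3) :
    Winning (grid m) 1 := by
  refine ⟨fun _ => fun i => ⟨1, hm i⟩, fun r => ?_⟩
  refine CopsWin.capture _ _ r (fun _ => r) (fun i _ => ?_) 0 (Finset.mem_univ _) rfl
  have h0 := (r 0).isLt
  have h1 := h3 0
  by_cases h : (r 0 : ℕ) = 1
  · left
    funext j
    have hj : j = 0 := Subsingleton.elim _ _
    subst hj
    exact Fin.ext h.symm
  · right
    refine ⟨0, ?_, ?_⟩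
    · show 1 + 1 = (r 0 : ℕ) ∨ (r 0 : ℕ) + 1 = 1
      omega
    · intro j hj
      exact absurd (Subsingleton.elim j 0) hj

theorem cube_dec : ∀ r : Fin 3 → Fin 2,
    ((∀ i, (0 : Fin 2) = r i) ∨ ∃ i, (((0 : Fin 2) : ℕ) + 1 = r i ∨ (r i : ℕ) + 1 = ((0 : Fin 2) : ℕ)) ∧
      ∀ j, j ≠ i → (0 : Fin 2) = r j) ∨
    ((∀ i, (1 : Fin 2) = r i) ∨ ∃ i, (((1 : Fin 2) : ℕ) + 1 = r i ∨ (r i : ℕ) + 1 = ((1 : Fin 2) : ℕ)) ∧
      ∀ j, j ≠ i → (1 : Fin 2) = r j) := by
  decide

theorem winning_cube (m : Fin 3 → ℕ) (h2 : ∀ i, m i = 2) : Winning (grid m) 2 := by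
  obtain rfl : m = fun _ => 2 := funext h2
  refine ⟨![fun _ => (0 : Fin 2), fun _ => (1 : Fin 2)], fun r => ?_⟩
  rcases cube_dec r with h | h
  · refine CopsWin.capture _ _ r (update ![fun _ => (0 : Fin 2), fun _ => (1 : Fin 2)] 0 r) ?_ 0
      (Finset.mem_univ _) (by simp)
    intro i _
    by_cases hi : i = 0
    · subst hi
      rw [update_self]
      rcases h with h | ⟨a, ha, haj⟩
      · left; funext j; exact h j
      · right; exact ⟨a, ha, haj⟩
    · rw [update_of_ne hi]; exact Or.inl rfl
  · refine CopsWin.capture _ _ r (update ![fun _ => (0 : Fin 2), fun _ => (1 : Fin 2)] 1 r) ?_ 1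
      (Finset.mem_univ _) (by simp)
    intro i _
    by_cases hi : i = 1
    · subst hi
      rw [update_self]
      rcases h with h | ⟨a, ha, haj⟩
      · left; funext j; exact h j
      · right; exact ⟨a, ha, haj⟩
    · rw [update_of_ne hi]; exact Or.inl rfl

theorem determination {n : ℕ} (hn : 1 ≤ n) (m : Fin n → ℕ) (hm : ∀ i, 2 ≤ m i) :
    IsLeast {k | Winning (grid m) k} (answer m) := by
  unfold answer
  split_ifs with h1 h2
  · obtain ⟨rfl, h3⟩ := h1
    refine ⟨winning_path m hm h3, ?_⟩
    intro k hk
    by_contra hlt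
    have hk0 : k = 0 := by omega
    subst hk0
    refine lower hm 0 (by omega) ?_ hk
    intro c
    exact ⟨fun i => ⟨0, by have := hm i; omega⟩, fun i => i.elim0⟩
  · obtain ⟨rfl, h3⟩ := h2
    refine ⟨winning_cube m h3, ?_⟩
    intro k hk
    by_contra hlt
    refine lower hm k (by omega) (dom_of_cov hm k 4 (cov_card hm) ?_) hk
    have : k ≤ 1 := by omega
    norm_num
    omega
  · refine ⟨upper m (fun i => le_trans (by norm_num) (hm i)) hn, ?_⟩
    intro k hk
    by_contra hlt
    have hk2 : k ≤ (n + 1) / 2 := by omega
    rcases (by omega : n = 1 ∨ n = 2 ∨ n = 3 ∨ 4 ≤ n) with rfl | rfl | rfl | h4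
    · -- a long path
      have h4 : ∃ i, 4 ≤ m i := by
        by_contra hne
        push Not at hne
        exact h1 ⟨rfl, fun i => by have := hne i; omega⟩
      obtain ⟨i, hi⟩ := h4
      have hi0 : i = 0 := Subsingleton.elim _ _
      subst hi0
      refine lower hm k (by omega) (dom_of_cov hm k 1 ?_ ?_) hk
      · intro c
        rw [Finset.card_le_one]
        have key : ∀ b ∈ cov hm c, b = fun _ => decide (2 ≤ (c 0 : ℕ)) := by
          intro b hb
          funext j
          have hj : j = 0 := Subsingleton.elim _ _
          subst hj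
          simp only [cov, Finset.mem_filter, Finset.mem_univ, true_and] at hb
          have hle : (c 0 : ℕ) ≤ (corner hm b 0 : ℕ) + 1 ∧ (corner hm b 0 : ℕ) ≤ (c 0 : ℕ) + 1 := by
            rcases hb with hb | ⟨a, ha, _⟩
            · rw [hb]; omega
            · have ha0 : a = 0 := Subsingleton.elim _ _
              subst ha0; omega
          unfold corner at hle
          cases hb0 : b 0
          · rw [hb0] at hle
            simp at hle
            symm; rw [decide_eq_false_iff_not]; omega
          · rw [hb0] at hle
            simp at hle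
            symm; rw [decide_eq_true_iff]; omega
        intro b hb b' hb'
        rw [key b hb, key b' hb']
      · norm_num
        omega
    · refine lower hm k (by omega) (dom_of_cov hm k 3 (cov_card hm) ?_) hk
      norm_num
      omega
    · have h3 : ∃ i, 3 ≤ m i := by
        by_contra hne
        push Not at hne
        exact h2 ⟨rfl, fun i => by have := hne i; have := hm i; omega⟩
      obtain ⟨i, hi⟩ := h3
      refine lower hm k (by omega) (dom_of_cov hm k 3 (cov_card' hm (by norm_num) i hi) ?_) hk
      norm_num
      omega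
    · refine lower hm k (by omega) (dom_of_cov hm k (n + 1) (cov_card hm) ?_) hk
      have h5 := pow_ineq n h4
      rw [pow_succ] at h5
      have h6 : 2 * k ≤ n + 1 := by omega
      have h7 : 2 * (k * (n + 1)) ≤ (n + 1) * (n + 1) := by
        rw [← mul_assoc]; exact Nat.mul_le_mul_right _ h6
      omega

end Pool.Agent.Q149.Cop
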