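import Mathlib

namespace Q149.CovSp

/-- A finite set of integer points with all squared distances at most `16` has at most `14`
points. -/
theorem card_le_14 (P : Finset (ℤ × ℤ))
    (h : ∀ p ∈ P, ∀ q ∈ P, (p.1 - q.1) ^ 2 + (p.2 - q.2) ^ 2 ≤ 16) : P.card ≤ 14 := by
  classical
  rcases P.eq_empty_or_nonempty with hP | hP
  · simp [hP]
  obtain ⟨p0, hp0, hmin⟩ := P.exists_min_image (fun p => p.2) hP
  set m := p0.2 with hm
  set K : ℤ → ℕ := fun y => (P.filter (fun p => p.2 = y)).card with hK
  -- structure of rows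
  have hrow : ∀ y : ℤ, K y = 0 ∨ ∃ a b : ℤ, (a, y) ∈ P ∧ (b, y) ∈ P ∧ (K y : ℤ) ≤ b - a + 1 := by
    intro y
    rcases (P.filter (fun p => p.2 = y)).eq_empty_or_nonempty with he | he
    · left; simp [hK, he]
    · right
      obtain ⟨p, hp, hpm⟩ := Finset.exists_min_image _ (fun p : ℤ × ℤ => p.1) he
      obtain ⟨q, hq, hqm⟩ := Finset.exists_max_image _ (fun p : ℤ × ℤ => p.1) he
      rw [Finset.mem_filter] at hp hq
      refine ⟨p.1, q.1, ?_, ?_, ?_⟩
      · rw [← hp.2]; exact hp.1
      · rw [← hq.2]; exact hq.1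
      · have hc : (P.filter (fun p => p.2 = y)).card ≤ (Finset.Icc p.1 q.1).card := by
          apply Finset.card_le_card_of_injOn (fun p => p.1)
          · intro r hr
            have hr' := Finset.mem_coe.mp hr
            have h1 := hpm r hr'
            have h2 := hqm r hr'
            exact Finset.mem_coe.mpr (Finset.mem_Icc.mpr ⟨h1, h2⟩)
          · intro r hr s hs hrs
            have hr' := (Finset.mem_filter.mp (Finset.mem_coe.mp hr)).2
            have hs' := (Finset.mem_filter.mp (Finset.mem_coe.mp hs)).2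
            exact Prod.ext hrs (hr'.trans hs'.symm)
        rw [Int.card_Icc] at hc
        have hpq : p.1 ≤ q.1 := hpm q (Finset.mem_filter.mpr hq)
        have : ((P.filter (fun p => p.2 = y)).card : ℤ) ≤ ((q.1 + 1 - p.1).toNat : ℤ) := by
          exact_mod_cast hc
        simp only [hK]
        omega
  have hone : ∀ y : ℤ, K y ≤ 5 := by
    intro y
    rcases hrow y with h0 | ⟨a, b, ha, hb, hk⟩
    · omega
    · have h1 := h _ ha _ hb
      simp only [sub_self] at h1
      have : b - a ≤ 4 := by nlinarith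
      omega
  -- pair bound
  have hpair : ∀ y y' : ℤ, 0 < K y → 0 < K y' → ∃ u v : ℤ, (K y : ℤ) + K y' ≤ u + v + 2 ∧
      u ^ 2 + (y - y') ^ 2 ≤ 16 ∧ v ^ 2 + (y - y') ^ 2 ≤ 16 := by
    intro y y' h1 h2
    rcases hrow y with h0 | ⟨a, b, ha, hb, hk⟩
    · omega
    rcases hrow y' with h0 | ⟨a', b', ha', hb', hk'⟩
    · omega
    refine ⟨b - a', b' - a, by omega, ?_, ?_⟩
    · exact h _ hb _ ha'
    · have := h _ hb' _ ha
      simp only at this
      nlinarith
  have hp1 : ∀ y y' : ℤ, (y - y') ^ 2 = 1 → K y + K y' ≤ 8 := by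
    intro y y' hyy
    have := hone y; have := hone y'
    by_cases h1 : 0 < K y
    · by_cases h2 : 0 < K y'
      · obtain ⟨u, v, huv, hu, hv⟩ := hpair y y' h1 h2
        have : u ≤ 3 := by nlinarith
        have : v ≤ 3 := by nlinarith
        omega
      · omega
    · omega
  have hp2 : ∀ y y' : ℤ, (y - y') ^ 2 = 4 → K y + K y' ≤ 8 := by
    intro y y' hyy
    have := hone y; have := hone y'
    by_cases h1 : 0 < K y
    · by_cases h2 : 0 < K y'
      · obtain ⟨u, v, huv, hu, hv⟩ := hpair y y' h1 h2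
        have : u ≤ 3 := by nlinarith
        have : v ≤ 3 := by nlinarith
        omega
      · omega
    · omega
  have hp3 : ∀ y y' : ℤ, (y - y') ^ 2 = 9 → K y + K y' ≤ 6 := by
    intro y y' hyy
    have := hone y; have := hone y'
    by_cases h1 : 0 < K y
    · by_cases h2 : 0 < K y'
      · obtain ⟨u, v, huv, hu, hv⟩ := hpair y y' h1 h2
        have : u ≤ 2 := by nlinarith
        have : v ≤ 2 := by nlinarith
        omega
      · omega
    · omega
  have hp4 : ∀ y y' : ℤ, (y - y') ^ 2 = 16 → 0 < K y → 0 < K y' → K y + K y' ≤ 2 := by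
    intro y y' hyy h1 h2
    obtain ⟨u, v, huv, hu, hv⟩ := hpair y y' h1 h2
    have : u ≤ 0 := by nlinarith
    have : v ≤ 0 := by nlinarith
    omega
  -- rows m .. m+4
  have hcard : P.card = ∑ t ∈ Finset.range 5, K (m + t) := by
    have hmaps : ∀ p ∈ P, (fun p : ℤ × ℤ => (p.2 - m).toNat) p ∈ Finset.range 5 := by
      intro p hp
      have h1 : m ≤ p.2 := hmin p hp
      have h2 := h p hp p0 hp0
      have h3 : (p.2 - m) ^ 2 ≤ 16 := by nlinarith [sq_nonneg (p.1 - p0.1)]
      have h4 : p.2 - m ≤ 4 := by nlinarith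
      simp only [Finset.mem_range]
      omega
    rw [Finset.card_eq_sum_card_fiberwise hmaps]
    apply Finset.sum_congr rfl
    intro t ht
    simp only [hK]
    congr 1
    ext p
    simp only [Finset.mem_filter, and_congr_right_iff]
    intro hp
    have h1 : m ≤ p.2 := hmin p hp
    omega
  rw [hcard]
  simp only [Finset.sum_range_succ, Finset.sum_range_zero, Nat.cast_zero, Nat.cast_one,
    Nat.cast_ofNat, zero_add, add_zero]
  have a01 := hp1 m (m + 1) (by ring)
  have a12 := hp1 (m + 1) (m + 2) (by ring)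
  have a23 := hp1 (m + 2) (m + 3) (by ring)
  have a13 := hp2 (m + 1) (m + 3) (by ring)
  have a03 := hp3 m (m + 3) (by ring)
  have a04 := hp4 m (m + 4) (by ring)
  have h0 : 0 < K m := by
    simp only [hK]
    apply Finset.card_pos.mpr
    exact ⟨p0, Finset.mem_filter.mpr ⟨hp0, rfl⟩⟩
  by_cases h4 : 0 < K (m + 4)
  · have := a04 h0 h4
    omega
  · omega

end Q149.CovSp
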