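import Mathlib

namespace Q149.CovSp

theorem cos_arg_sub_le (a b : ℂ) (ha : 2 ≤ ‖a‖) (ha' : ‖a‖ < 54 / 25) (hb : 2 ≤ ‖b‖)
    (hb' : ‖b‖ < 54 / 25) (hab : 2 ≤ ‖a - b‖) :
    Real.cos (Complex.arg a - Complex.arg b) ≤ 58 / 100 := by
  have ha0 : a ≠ 0 := by
    intro h; rw [h, norm_zero] at ha; linarith
  have hb0 : b ≠ 0 := by
    intro h; rw [h, norm_zero] at hb; linarith
  rw [Real.cos_sub, Complex.cos_arg ha0, Complex.cos_arg hb0, Complex.sin_arg, Complex.sin_arg]
  have h1 : a.re / ‖a‖ * (b.re / ‖b‖) + a.im / ‖a‖ * (b.im / ‖b‖) =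
      (a.re * b.re + a.im * b.im) / (‖a‖ * ‖b‖) := by
    field_simp
  rw [h1, div_le_iff₀ (by positivity)]
  have h2 : ‖a - b‖ ^ 2 = ‖a‖ ^ 2 + ‖b‖ ^ 2 - 2 * (a.re * b.re + a.im * b.im) := by
    rw [← Complex.normSq_eq_norm_sq, ← Complex.normSq_eq_norm_sq, ← Complex.normSq_eq_norm_sq,
      Complex.normSq_apply, Complex.normSq_apply, Complex.normSq_apply]
    simp only [Complex.sub_re, Complex.sub_im]
    ring
  have h3 : 4 ≤ ‖a - b‖ ^ 2 := by nlinarith
  nlinarith [mul_nonneg (sub_nonneg.mpr ha) (sub_nonneg.mpr hb),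
    mul_nonneg (sub_nonneg.mpr ha'.le) (sub_nonneg.mpr hb'.le),
    mul_nonneg (sub_nonneg.mpr ha) (sub_nonneg.mpr ha'.le),
    mul_nonneg (sub_nonneg.mpr hb) (sub_nonneg.mpr hb'.le),
    mul_nonneg (sub_nonneg.mpr ha) (sub_nonneg.mpr hb'.le),
    mul_nonneg (sub_nonneg.mpr hb) (sub_nonneg.mpr ha'.le)]

theorem card_le_6 (c : ℂ) (N : Finset ℂ)
    (h1 : ∀ z ∈ N, 2 ≤ ‖z - c‖) (h2 : ∀ z ∈ N, ‖z - c‖ < 54 / 25)
    (h3 : ∀ z ∈ N, ∀ w ∈ N, z ≠ w → 2 ≤ ‖z - w‖) : N.card ≤ 6 := by
  classical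
  rcases N.eq_empty_or_nonempty with hN | hN
  · simp [hN]
  obtain ⟨z0, hz0, hmin⟩ := N.exists_min_image (fun z => Complex.arg (z - c)) hN
  have hcos : ∀ z ∈ N, ∀ w ∈ N, z ≠ w →
      Real.cos (Complex.arg (z - c) - Complex.arg (w - c)) ≤ 58 / 100 := by
    intro z hz w hw hzw
    apply cos_arg_sub_le _ _ (h1 z hz) (h2 z hz) (h1 w hw) (h2 w hw)
    have := h3 z hz w hw hzw
    simpa using this
  have hsmall : ∀ t : ℝ, -(9/10) < t → t < 9/10 → 58/100 < Real.cos t := by
    intro t ht1 ht2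
    have := Real.one_sub_sq_div_two_le_cos (x := t)
    nlinarith
  have hpi := Real.pi_lt_d2
  set δ : ℂ → ℝ := fun z => Complex.arg (z - c) - Complex.arg (z0 - c) with hδ
  have hδ0 : ∀ z ∈ N, 0 ≤ δ z := fun z hz => sub_nonneg.mpr (hmin z hz)
  have hδ1 : ∀ z ∈ N, δ z < 54/10 := by
    intro z hz
    by_contra hcon
    push Not at hcon
    have hne : z ≠ z0 := by
      intro h
      rw [h] at hcon
      simp only [hδ, sub_self] at hcon
      linarith
    have h4 := hcos z hz z0 hz0 hne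
    have h5 : Real.cos (2 * Real.pi - δ z) = Real.cos (δ z) := by
      rw [Real.cos_two_pi_sub]
    have h6 : δ z ≤ 2 * Real.pi := by
      have a1 := Complex.arg_le_pi (z - c)
      have a2 := Complex.neg_pi_lt_arg (z0 - c)
      simp only [hδ]; linarith
    have h7 := hsmall (2 * Real.pi - δ z) (by linarith) (by linarith)
    rw [h5] at h7
    simp only [hδ] at h7
    linarith
  have hcard : N.card ≤ (Finset.range 6).card := by
    apply Finset.card_le_card_of_injOn (fun z => ⌊δ z / (9/10)⌋₊)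
    · intro z hz
      have hz' := Finset.mem_coe.mp hz
      apply Finset.mem_coe.mpr
      rw [Finset.mem_range]
      rw [Nat.floor_lt (by have := hδ0 z hz'; positivity)]
      rw [div_lt_iff₀ (by norm_num)]
      have := hδ1 z hz'
      push_cast
      linarith
    · intro z hz w hw hzw
      have hz' := Finset.mem_coe.mp hz
      have hw' := Finset.mem_coe.mp hw
      by_contra hne
      simp only at hzw
      have b1 := Nat.floor_le (a := δ z / (9/10)) (by have := hδ0 z hz'; positivity)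
      have b2 := Nat.lt_floor_add_one (δ z / (9/10))
      have b3 := Nat.floor_le (a := δ w / (9/10)) (by have := hδ0 w hw'; positivity)
      have b4 := Nat.lt_floor_add_one (δ w / (9/10))
      rw [hzw] at b1 b2
      have b5 : δ z / (9/10) - δ w / (9/10) < 1 := by linarith
      have b6 : -1 < δ z / (9/10) - δ w / (9/10) := by linarith
      have b7 : δ z - δ w < 9/10 := by
        have : (δ z - δ w) / (9/10) < 1 := by rw [sub_div]; exact b5
        rw [div_lt_iff₀ (by norm_num)] at this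
        linarith
      have b8 : -(9/10) < δ z - δ w := by
        have : -1 < (δ z - δ w) / (9/10) := by rw [sub_div]; exact b6
        rw [lt_div_iff₀ (by norm_num)] at this
        linarith
      have h7 := hsmall (δ z - δ w) b8 b7
      have h8 := hcos z hz' w hw' hne
      have h9 : δ z - δ w = Complex.arg (z - c) - Complex.arg (w - c) := by
        simp only [hδ]; ring
      rw [h9] at h7
      linarith
  simpa using hcard

end Q149.CovSp
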