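import Mathlib
import Pool.Agent.Q149.CovSp2

namespace Q149.CovSp

open MeasureTheory

/-- A rectangle symmetric about the real axis. -/
def Rect (a b h : ℝ) : Set ℂ := {z | a ≤ z.re ∧ z.re ≤ b ∧ -h ≤ z.im ∧ z.im ≤ h}

theorem vol_rect (a b h : ℝ) (hab : a ≤ b) :
    volume (Rect a b h) = ENNReal.ofReal ((b - a) * (2 * h)) := by
  have h1 : Rect a b h = Complex.measurableEquivRealProd ⁻¹' (Set.Icc a b ×ˢ Set.Icc (-h) h) := by
    ext z
    simp only [Rect, Set.mem_ofPred_eq, Set.mem_preimage, Complex.measurableEquivRealProd_apply,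
      Set.mem_prod, Set.mem_Icc]
    tauto
  rw [h1, Complex.volume_preserving_equiv_real_prod.measure_preimage_equiv,
    Measure.volume_eq_prod, Measure.prod_prod, Real.volume_Icc, Real.volume_Icc,
    ENNReal.ofReal_mul (by linarith)]
  congr 2
  ring

/-- The part of the ball of radius `27/25` about `c` which is at least as close to `c'`. -/
def cap (c c' : ℂ) : Set ℂ := {z | ‖z - c‖ < 27 / 25 ∧ ‖z - c'‖ ≤ ‖z - c‖}

theorem vol_cap (c c' : ℂ) (h : 2 ≤ ‖c' - c‖) :
    volume (cap c c') ≤ ENNReal.ofReal (5598 / 100000) := by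
  have hpos : 0 < ‖c' - c‖ := by linarith
  set u : ℂ := (starRingEnd ℂ) (c' - c) / (‖c' - c‖ : ℂ) with hu
  have hun : ‖u‖ = 1 := by
    rw [hu, norm_div, Complex.norm_real, RCLike.norm_conj, norm_norm, div_self hpos.ne']
  let U : Circle := ⟨u, by rw [Submonoid.unitSphere]; simp [hun]⟩
  have hrot : ∀ z : ℂ, rotation U z = u * z := fun z => by
    rw [rotation_apply]
  have hmp : MeasurePreserving (rotation U) (volume : Measure ℂ) volume :=
    (rotation U).measurePreserving
  have hsub : MeasurePreserving (fun z : ℂ => z - c) (volume : Measure ℂ) volume :=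
    measurePreserving_sub_right volume c
  have hcomp : MeasurePreserving (fun z : ℂ => rotation U (z - c)) (volume : Measure ℂ) volume :=
    hmp.comp hsub
  have hss : cap c c' ⊆ (fun z : ℂ => rotation U (z - c)) ⁻¹'
      (Rect 1 (105/100) (408/1000) ∪ Rect (105/100) (108/100) (253/1000)) := by
    intro z hz
    obtain ⟨hz1, hz2⟩ := hz
    rw [Set.mem_preimage, hrot]
    set w := u * (z - c) with hw
    have hwn : ‖w‖ = ‖z - c‖ := by rw [hw, norm_mul, hun, one_mul]
    have hre : w.re = ((z - c).re * (c' - c).re + (z - c).im * (c' - c).im) / ‖c' - c‖ := by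
      rw [hw, hu, div_mul_eq_mul_div, Complex.div_ofReal_re, Complex.mul_re, Complex.conj_re,
        Complex.conj_im]
      congr 1
      ring
    have h2 : ‖z - c'‖ ^ 2 = ‖z - c‖ ^ 2 + ‖c' - c‖ ^ 2
        - 2 * ((z - c).re * (c' - c).re + (z - c).im * (c' - c).im) := by
      rw [← Complex.normSq_eq_norm_sq, ← Complex.normSq_eq_norm_sq, ← Complex.normSq_eq_norm_sq,
        Complex.normSq_apply, Complex.normSq_apply, Complex.normSq_apply]
      simp only [Complex.sub_re, Complex.sub_im]
      ring
    have h3 : ‖z - c'‖ ^ 2 ≤ ‖z - c‖ ^ 2 := by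
      have := norm_nonneg (z - c')
      nlinarith
    have h4 : 1 ≤ w.re := by
      rw [hre, le_div_iff₀ hpos]
      nlinarith
    have h5 : w.re ^ 2 + w.im ^ 2 < (27/25) ^ 2 := by
      have h6 : ‖w‖ ^ 2 = w.re ^ 2 + w.im ^ 2 := by
        rw [← Complex.normSq_eq_norm_sq, Complex.normSq_apply]; ring
      rw [← h6, hwn]
      have := norm_nonneg (z - c)
      nlinarith
    have h7 : w.re ≤ 108/100 := by nlinarith [sq_nonneg w.im]
    by_cases h8 : w.re ≤ 105/100
    · left
      refine ⟨h4, h8, ?_, ?_⟩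
      · nlinarith
      · nlinarith
    · right
      push Not at h8
      refine ⟨h8.le, h7, ?_, ?_⟩
      · nlinarith
      · nlinarith
  have hmeas : MeasurableSet
      (Rect 1 (105/100) (408/1000) ∪ Rect (105/100) (108/100) (253/1000)) := by
    have hm : ∀ a b h : ℝ, MeasurableSet (Rect a b h) := by
      intro a b h
      have : IsClosed (Rect a b h) := by
        have e : Rect a b h = {z : ℂ | a ≤ z.re} ∩ ({z | z.re ≤ b} ∩ ({z | -h ≤ z.im} ∩
            {z | z.im ≤ h})) := by
          ext z; simp [Rect]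
        rw [e]
        exact (isClosed_le continuous_const Complex.continuous_re).inter
          ((isClosed_le Complex.continuous_re continuous_const).inter
          ((isClosed_le continuous_const Complex.continuous_im).inter
          (isClosed_le Complex.continuous_im continuous_const)))
      exact this.measurableSet
    exact (hm _ _ _).union (hm _ _ _)
  calc volume (cap c c') ≤ volume ((fun z : ℂ => rotation U (z - c)) ⁻¹'
      (Rect 1 (105/100) (408/1000) ∪ Rect (105/100) (108/100) (253/1000))) :=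
        measure_mono hss
    _ = volume (Rect 1 (105/100) (408/1000) ∪ Rect (105/100) (108/100) (253/1000)) :=
        hcomp.measure_preimage hmeas.nullMeasurableSet
    _ ≤ volume (Rect 1 (105/100) (408/1000)) + volume (Rect (105/100) (108/100) (253/1000)) :=
        measure_union_le _ _
    _ = ENNReal.ofReal ((105/100 - 1) * (2 * (408/1000))) +
        ENNReal.ofReal ((108/100 - 105/100) * (2 * (253/1000))) := by
        rw [vol_rect _ _ _ (by norm_num), vol_rect _ _ _ (by norm_num)]
    _ = ENNReal.ofReal (5598 / 100000) := by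
        rw [← ENNReal.ofReal_add (by norm_num) (by norm_num)]
        norm_num

/-- The truncated Voronoi cell of `c` with respect to `S`. -/
def cell (S : Finset ℂ) (c : ℂ) : Set ℂ :=
  {z | ‖z - c‖ < 27 / 25 ∧ ∀ c' ∈ S, c' ≠ c → ‖z - c‖ < ‖z - c'‖}

theorem cell_isOpen (S : Finset ℂ) (c : ℂ) : IsOpen (cell S c) := by
  have e : cell S c = {z | ‖z - c‖ < 27 / 25} ∩
      ⋂ c' ∈ S.filter (fun c' => c' ≠ c), {z | ‖z - c‖ < ‖z - c'‖} := by
    ext z
    simp [cell]
  rw [e]
  refine (isOpen_lt (by fun_prop) continuous_const).inter ?_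
  apply isOpen_biInter_finset
  intro c' _
  exact isOpen_lt (by fun_prop) (by fun_prop)

theorem vol_cell (S : Finset ℂ) (hS : ∀ p ∈ S, ∀ q ∈ S, p ≠ q → 2 ≤ ‖p - q‖) (c : ℂ)
    (hc : c ∈ S) : ENNReal.ofReal (33266 / 10000) ≤ volume (cell S c) := by
  classical
  set N := S.filter (fun c' => c' ≠ c ∧ ‖c' - c‖ < 54 / 25) with hN
  have hNc : N.card ≤ 6 := by
    apply card_le_6 c N
    · intro z hz
      have := (Finset.mem_filter.mp hz)
      exact hS z this.1 c hc this.2.1
    · intro z hz
      exact (Finset.mem_filter.mp hz).2.2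
    · intro z hz w hw hzw
      exact hS z (Finset.mem_filter.mp hz).1 w (Finset.mem_filter.mp hw).1 hzw
  have hcov : Metric.ball c (27/25) ⊆ cell S c ∪ ⋃ c' ∈ N, cap c c' := by
    intro z hz
    rw [Metric.mem_ball, dist_eq_norm] at hz
    by_cases h : z ∈ cell S c
    · exact Or.inl h
    · right
      simp only [cell, Set.mem_ofPred_eq, not_and, not_forall, not_lt] at h
      obtain ⟨c', hc', hne, hle⟩ := h hz
      have h1 : ‖c' - c‖ < 54 / 25 := by
        have : c' - c = (z - c) - (z - c') := by ring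
        rw [this]
        calc ‖(z - c) - (z - c')‖ ≤ ‖z - c‖ + ‖z - c'‖ := norm_sub_le _ _
          _ < 54 / 25 := by linarith
      simp only [Set.mem_iUnion]
      exact ⟨c', Finset.mem_filter.mpr ⟨hc', hne, h1⟩, hz, hle⟩
  have hvb : volume (Metric.ball c (27/25) : Set ℂ) = ENNReal.ofReal (Real.pi * (27/25)^2) := by
    rw [Complex.volume_ball, ENNReal.ofReal_mul Real.pi_pos.le, ENNReal.ofReal_pow (by norm_num)]
    rw [mul_comm]
    congr 1
    rw [← ENNReal.ofReal_coe_nnreal]
    rfl
  have h1 : volume (Metric.ball c (27/25) : Set ℂ) ≤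
      volume (cell S c) + ENNReal.ofReal (33588 / 100000) := by
    calc volume (Metric.ball c (27/25) : Set ℂ) ≤ volume (cell S c ∪ ⋃ c' ∈ N, cap c c') :=
          measure_mono hcov
      _ ≤ volume (cell S c) + volume (⋃ c' ∈ N, cap c c') := measure_union_le _ _
      _ ≤ volume (cell S c) + ∑ c' ∈ N, volume (cap c c') := by
          gcongr
          exact measure_biUnion_finset_le _ _
      _ ≤ volume (cell S c) + ∑ c' ∈ N, ENNReal.ofReal (5598 / 100000) := by
          gcongr with c' hc'
          have h2 := Finset.mem_filter.mp hc'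
          exact vol_cap c c' (hS c' h2.1 c hc h2.2.1)
      _ = volume (cell S c) + (N.card : ENNReal) * ENNReal.ofReal (5598 / 100000) := by
          rw [Finset.sum_const, nsmul_eq_mul]
      _ ≤ volume (cell S c) + (6 : ENNReal) * ENNReal.ofReal (5598 / 100000) := by
          gcongr
          exact_mod_cast hNc
      _ = volume (cell S c) + ENNReal.ofReal (33588 / 100000) := by
          congr 1
          have : (6 : ENNReal) = ENNReal.ofReal 6 := by norm_num
          rw [this, ← ENNReal.ofReal_mul (by norm_num)]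
          norm_num
  rw [hvb] at h1
  have h3 : ENNReal.ofReal (33266 / 10000) + ENNReal.ofReal (33588 / 100000) ≤
      volume (cell S c) + ENNReal.ofReal (33588 / 100000) := by
    refine le_trans ?_ h1
    rw [← ENNReal.ofReal_add (by norm_num) (by norm_num)]
    apply ENNReal.ofReal_le_ofReal
    have := Real.pi_gt_d2
    nlinarith
  exact (ENNReal.add_le_add_iff_right ENNReal.ofReal_ne_top).mp h3

theorem cell_disjoint (S : Finset ℂ) (c c' : ℂ) (hc : c ∈ S) (hc' : c' ∈ S) (hne : c ≠ c') :
    Disjoint (cell S c) (cell S c') := by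
  rw [Set.disjoint_left]
  intro z h1 h2
  have h3 := h1.2 c' hc' hne.symm
  have h4 := h2.2 c hc hne
  linarith

/-- A packing of unit disks with centres in the square `[-m,m]²` has bounded cardinality. -/
theorem card_bound (S : Finset ℂ) (hS : ∀ p ∈ S, ∀ q ∈ S, p ≠ q → 2 ≤ ‖p - q‖) (m : ℝ)
    (hm : 0 ≤ m) (hb : ∀ c ∈ S, |c.re| ≤ m ∧ |c.im| ≤ m) :
    (S.card : ℝ) * (33266 / 10000) ≤ 4 * (m + 27/25) ^ 2 := by
  have h1 : ∑ c ∈ S, volume (cell S c) ≤ volume (Rect (-(m+27/25)) (m+27/25) (m+27/25)) := by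
    rw [← measure_biUnion_finset]
    · apply measure_mono
      intro z hz
      simp only [Set.mem_iUnion] at hz
      obtain ⟨c, hc, hz⟩ := hz
      have h2 := hz.1
      have h3 := hb c hc
      have h4 : |(z - c).re| ≤ ‖z - c‖ := Complex.abs_re_le_norm _
      have h5 : |(z - c).im| ≤ ‖z - c‖ := Complex.abs_im_le_norm _
      rw [Complex.sub_re] at h4
      rw [Complex.sub_im] at h5
      have a1 := abs_le.mp h3.1
      have a2 := abs_le.mp h3.2
      have a3 := abs_le.mp h4
      have a4 := abs_le.mp h5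
      refine ⟨?_, ?_, ?_, ?_⟩ <;> linarith
    · intro c hc c' hc' hne
      exact cell_disjoint S c c' hc hc' hne
    · intro c _
      exact (cell_isOpen S c).measurableSet
  have h2 : ∑ c ∈ S, ENNReal.ofReal (33266 / 10000) ≤ ∑ c ∈ S, volume (cell S c) :=
    Finset.sum_le_sum fun c hc => vol_cell S hS c hc
  rw [Finset.sum_const, nsmul_eq_mul] at h2
  have h3 := h2.trans h1
  rw [vol_rect _ _ _ (by linarith)] at h3
  have h4 : (S.card : ENNReal) = ENNReal.ofReal (S.card : ℝ) := by
    rw [ENNReal.ofReal_natCast]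
  rw [h4, ← ENNReal.ofReal_mul (by positivity)] at h3
  have h5 := (ENNReal.ofReal_le_ofReal_iff (by nlinarith)).mp h3
  nlinarith

end Q149.CovSp
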