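import Mathlib

namespace Q149.CovSp

open Metric

/-- The Euclidean plane. -/
abbrev Plane := EuclideanSpace ℝ (Fin 2)

/-- The point `(d*a, d*b)` of the square lattice `d ℤ²`. -/
noncomputable def latPt (d : ℝ) (a b : ℤ) : Plane := !₂[d * (a : ℝ), d * (b : ℝ)]

/-- `L_d = d ℤ²` is coverable: there is a set `S` of centres such that the closed unit disks
centred at distinct points of `S` have disjoint interiors and every point of `L_d` lies in one of
the disks. -/
def Coverable (d : ℝ) : Prop :=
  ∃ S : Set Plane,
    (∀ p ∈ S, ∀ q ∈ S, p ≠ q →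
      Disjoint (interior (closedBall p 1)) (interior (closedBall q 1))) ∧
    ∀ a b : ℤ, ∃ p ∈ S, latPt d a b ∈ closedBall p 1

end Q149.CovSp
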