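import Mathlib
import Pool.Agent.Q149.CovSp1
import Pool.Agent.Q149.CovSp3
import Pool.Agent.Q149.CovSpDefs

namespace Q149.CovSp

open MeasureTheory

/-- No packing of unit disks covers `d ℤ[i]` when `4/17 < d² ≤ 0.2362`. -/
theorem no_cover_complex (d : ℝ) (hd : 0 < d) (hd1 : 4 / 17 < d ^ 2) (hd2 : d ^ 2 ≤ 2362 / 10000)
    (T : Set ℂ) (hT : ∀ p ∈ T, ∀ q ∈ T, p ≠ q → 2 ≤ ‖p - q‖)
    (hcov : ∀ a b : ℤ, ∃ c ∈ T, ‖(⟨d * a, d * b⟩ : ℂ) - c‖ ≤ 1) : False := by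
  classical
  choose f hfT hf using hcov
  have hd3 : d < 4861 / 10000 := by nlinarith
  obtain ⟨n, hn⟩ : ∃ n : ℕ, n = 3000 := ⟨_, rfl⟩
  have hnR : (n : ℝ) = 3000 := by rw [hn]; norm_num
  set G : Finset (ℤ × ℤ) := Finset.Icc (-(n : ℤ)) n ×ˢ Finset.Icc (-(n : ℤ)) n with hG
  set S : Finset ℂ := G.image (fun p => f p.1 p.2) with hS
  have hGc : G.card = (2 * n + 1) ^ 2 := by
    rw [hG, Finset.card_product, Int.card_Icc]
    have : ((n : ℤ) + 1 - -(n : ℤ)).toNat = 2 * n + 1 := by omega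
    rw [this]; ring
  have h14 : G.card ≤ 14 * S.card := by
    apply Finset.card_le_mul_card_image
    intro c hc
    apply card_le_14
    intro p hp q hq
    rw [Finset.mem_filter] at hp hq
    have h1 := hf p.1 p.2
    have h2 := hf q.1 q.2
    rw [hp.2] at h1
    rw [hq.2] at h2
    have h3 : ‖(⟨d * p.1, d * p.2⟩ : ℂ) - ⟨d * q.1, d * q.2⟩‖ ≤ 2 := by
      have e : (⟨d * p.1, d * p.2⟩ : ℂ) - ⟨d * q.1, d * q.2⟩ =
        ((⟨d * p.1, d * p.2⟩ : ℂ) - c) - ((⟨d * q.1, d * q.2⟩ : ℂ) - c) := by ring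
      rw [e]
      calc _ ≤ ‖(⟨d * p.1, d * p.2⟩ : ℂ) - c‖ + ‖(⟨d * q.1, d * q.2⟩ : ℂ) - c‖ :=
            norm_sub_le _ _
        _ ≤ 2 := by linarith
    have h4 : ‖(⟨d * p.1, d * p.2⟩ : ℂ) - ⟨d * q.1, d * q.2⟩‖ ^ 2 ≤ 4 := by
      have := norm_nonneg ((⟨d * p.1, d * p.2⟩ : ℂ) - ⟨d * q.1, d * q.2⟩)
      nlinarith
    rw [← Complex.normSq_eq_norm_sq, Complex.normSq_apply] at h4
    simp only [Complex.sub_re, Complex.sub_im] at h4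
    have h5 : d ^ 2 * ((((p.1 - q.1) ^ 2 + (p.2 - q.2) ^ 2 : ℤ)) : ℝ) ≤ 4 := by
      push_cast
      nlinarith
    have h6 : ((((p.1 - q.1) ^ 2 + (p.2 - q.2) ^ 2 : ℤ)) : ℝ) < 17 := by
      by_contra hcon
      push Not at hcon
      nlinarith
    have h7 : (p.1 - q.1) ^ 2 + (p.2 - q.2) ^ 2 < 17 := by exact_mod_cast h6
    omega
  have hSpack : ∀ p ∈ S, ∀ q ∈ S, p ≠ q → 2 ≤ ‖p - q‖ := by
    intro p hp q hq hpq
    obtain ⟨g, _, hg⟩ := Finset.mem_image.mp hp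
    obtain ⟨g', _, hg'⟩ := Finset.mem_image.mp hq
    apply hT p _ q _ hpq
    · rw [← hg]; exact hfT _ _
    · rw [← hg']; exact hfT _ _
  have hSb : ∀ c ∈ S, |c.re| ≤ n * d + 1 ∧ |c.im| ≤ n * d + 1 := by
    intro c hc
    obtain ⟨g, hg, hgc⟩ := Finset.mem_image.mp hc
    rw [hG, Finset.mem_product, Finset.mem_Icc, Finset.mem_Icc] at hg
    have h1 := hf g.1 g.2
    rw [hgc] at h1
    have h4 := (Complex.abs_re_le_norm ((⟨d * g.1, d * g.2⟩ : ℂ) - c)).trans h1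
    have h5 := (Complex.abs_im_le_norm ((⟨d * g.1, d * g.2⟩ : ℂ) - c)).trans h1
    simp only [Complex.sub_re, Complex.sub_im] at h4 h5
    have a1 := abs_le.mp h4
    have a2 := abs_le.mp h5
    have b1 : (-(n : ℝ)) ≤ g.1 := by exact_mod_cast hg.1.1
    have b2 : (g.1 : ℝ) ≤ n := by exact_mod_cast hg.1.2
    have b3 : (-(n : ℝ)) ≤ g.2 := by exact_mod_cast hg.2.1
    have b4 : (g.2 : ℝ) ≤ n := by exact_mod_cast hg.2.2
    refine ⟨abs_le.mpr ⟨?_, ?_⟩, abs_le.mpr ⟨?_, ?_⟩⟩ <;> nlinarith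
  have hfin := card_bound S hSpack (n * d + 1) (by positivity) hSb
  rw [hGc] at h14
  have h14' : ((2 * (n : ℝ) + 1) ^ 2 : ℝ) ≤ 14 * S.card := by exact_mod_cast h14
  rw [hnR] at h14' hfin
  nlinarith

end Q149.CovSp
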