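import Mathlib
import Pool.Agent.Q149.CovSp4

namespace Q149.CovSp

open Metric

theorem norm_toC (p q : Plane) : ‖(⟨p 0, p 1⟩ : ℂ) - ⟨q 0, q 1⟩‖ = dist p q := by
  rw [EuclideanSpace.dist_eq, Fin.sum_univ_two, Complex.norm_def, Complex.normSq_apply]
  simp only [Complex.sub_re, Complex.sub_im, Real.dist_eq, sq_abs]
  congr 1
  ring

theorem disjoint_iff (p q : Plane) :
    Disjoint (interior (closedBall p 1)) (interior (closedBall q 1)) ↔ 2 ≤ dist p q := by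
  rw [interior_closedBall _ one_ne_zero, interior_closedBall _ one_ne_zero,
    disjoint_ball_ball_iff one_pos one_pos]
  norm_num

theorem dist_latPt_sq (d : ℝ) (a b a' b' : ℤ) :
    dist (latPt d a b) (latPt d a' b') ^ 2 =
      d ^ 2 * (((a - a') ^ 2 + (b - b') ^ 2 : ℤ) : ℝ) := by
  rw [← norm_toC, ← Complex.normSq_eq_norm_sq, Complex.normSq_apply]
  simp only [latPt, Complex.sub_re, Complex.sub_im]
  simp
  ring

theorem not_coverable (d : ℝ) (hd : 0 < d) (hd1 : 4 / 17 < d ^ 2) (hd2 : d ^ 2 ≤ 2362 / 10000) :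
    ¬ Coverable d := by
  rintro ⟨S, hS, hcov⟩
  apply no_cover_complex d hd hd1 hd2 ((fun p : Plane => (⟨p 0, p 1⟩ : ℂ)) '' S)
  · rintro _ ⟨p, hp, rfl⟩ _ ⟨q, hq, rfl⟩ hpq
    rw [norm_toC]
    rw [← disjoint_iff]
    apply hS p hp q hq
    intro h
    exact hpq (by rw [h])
  · intro a b
    obtain ⟨p, hp, hpc⟩ := hcov a b
    refine ⟨_, ⟨p, hp, rfl⟩, ?_⟩
    rw [mem_closedBall, ← norm_toC] at hpc
    simpa [latPt] using hpc

/-- A sublattice family criterion for coverability. -/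
theorem coverable_of (d : ℝ) (C : Set (ℤ × ℤ))
    (h1 : ∀ p ∈ C, ∀ q ∈ C, p ≠ q →
      4 ≤ d ^ 2 * (((p.1 - q.1) ^ 2 + (p.2 - q.2) ^ 2 : ℤ) : ℝ))
    (h2 : ∀ a b : ℤ, ∃ p ∈ C, d ^ 2 * (((a - p.1) ^ 2 + (b - p.2) ^ 2 : ℤ) : ℝ) ≤ 1) :
    Coverable d := by
  refine ⟨(fun p : ℤ × ℤ => latPt d p.1 p.2) '' C, ?_, ?_⟩
  · rintro _ ⟨p, hp, rfl⟩ _ ⟨q, hq, rfl⟩ hpq
    rw [disjoint_iff]
    have hne : p ≠ q := fun h => hpq (by rw [h])
    have h3 := h1 p hp q hq hne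
    rw [← dist_latPt_sq] at h3
    have := dist_nonneg (x := latPt d p.1 p.2) (y := latPt d q.1 q.2)
    simp only
    nlinarith
  · intro a b
    obtain ⟨p, hp, hpc⟩ := h2 a b
    refine ⟨_, ⟨p, hp, rfl⟩, ?_⟩
    rw [← dist_latPt_sq] at hpc
    rw [mem_closedBall]
    have := dist_nonneg (x := latPt d a b) (y := latPt d p.1 p.2)
    nlinarith

theorem coverable_inv_sqrt_five : Coverable (1 / √5) := by
  have hd : (1 / √5 : ℝ) ^ 2 = 1 / 5 := by
    rw [div_pow, Real.sq_sqrt (by norm_num)]; norm_num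
  apply coverable_of _ {p | ∃ a b : ℤ, p = (4 * a, 2 * a + 5 * b)}
  · rintro _ ⟨a, b, rfl⟩ _ ⟨a', b', rfl⟩ hne
    rw [hd]
    have h : (20 : ℤ) ≤ (4 * a - 4 * a') ^ 2 + (2 * a + 5 * b - (2 * a' + 5 * b')) ^ 2 := by
      obtain ⟨x, hx⟩ : ∃ x, x = a - a' := ⟨_, rfl⟩
      obtain ⟨y, hy⟩ : ∃ y, y = b - b' := ⟨_, rfl⟩
      have e1 : (4 * a - 4 * a') ^ 2 + (2 * a + 5 * b - (2 * a' + 5 * b')) ^ 2 =
          16 * x ^ 2 + (2 * x + 5 * y) ^ 2 := by rw [hx, hy]; ring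
      rw [e1]
      have hxy : ¬ (x = 0 ∧ y = 0) := by
        rintro ⟨h1, h2⟩
        apply hne
        have : a = a' := by omega
        have : b = b' := by omega
        simp [*]
      rcases lt_trichotomy x 0 with h | h | h
      · by_cases hx1 : x = -1
        · subst hx1
          have : y ≤ 0 ∨ 1 ≤ y := by omega
          rcases this with h5 | h5 <;> nlinarith
        · have : x ≤ -2 := by omega
          nlinarith [sq_nonneg (2 * x + 5 * y)]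
      · subst h
        have : y ≠ 0 := fun h => hxy ⟨rfl, h⟩
        have : 1 ≤ y ∨ y ≤ -1 := by omega
        rcases this with h5 | h5 <;> nlinarith
      · by_cases hx1 : x = 1
        · subst hx1
          have : y ≤ -1 ∨ 0 ≤ y := by omega
          rcases this with h5 | h5 <;> nlinarith
        · have : 2 ≤ x := by omega
          nlinarith [sq_nonneg (2 * x + 5 * y)]
    have h' : (20 : ℝ) ≤ (((4 * a - 4 * a') ^ 2 + (2 * a + 5 * b - (2 * a' + 5 * b')) ^ 2 : ℤ) : ℝ) := by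
      exact_mod_cast h
    simp only
    linarith
  · intro u v
    rw [hd]
    have key : ∃ a b : ℤ, (u - 4 * a) ^ 2 + (v - (2 * a + 5 * b)) ^ 2 ≤ 5 := by
      obtain ⟨a, e, he, hu⟩ : ∃ a e : ℤ, (e = -1 ∨ e = 0 ∨ e = 1 ∨ e = 2) ∧ u = 4 * a + e := by
        refine ⟨(u + 1) / 4, u - 4 * ((u + 1) / 4), ?_, ?_⟩ <;> omega
      obtain ⟨b, f, hf, hv⟩ : ∃ b f : ℤ, (f = -2 ∨ f = -1 ∨ f = 0 ∨ f = 1 ∨ f = 2) ∧
          v = 2 * a + 5 * b + f := by
        refine ⟨(v - 2 * a + 2) / 5, v - 2 * a - 5 * ((v - 2 * a + 2) / 5), ?_, ?_⟩ <;> omega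
      by_cases h : e = 2 ∧ (f = 2 ∨ f = -2)
      · rcases h with ⟨rfl, rfl | rfl⟩
        · refine ⟨a + 1, b, ?_⟩
          rw [hu, hv]; ring_nf; norm_num
        · refine ⟨a + 1, b - 1, ?_⟩
          rw [hu, hv]; ring_nf; norm_num
      · refine ⟨a, b, ?_⟩
        have e1 : u - 4 * a = e := by omega
        have e2 : v - (2 * a + 5 * b) = f := by omega
        rw [e1, e2]
        rcases he with rfl | rfl | rfl | rfl <;> rcases hf with rfl | rfl | rfl | rfl | rfl <;>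
          first | (norm_num; done) | (exfalso; apply h; norm_num)
    obtain ⟨a, b, hab⟩ := key
    refine ⟨(4 * a, 2 * a + 5 * b), ⟨a, b, rfl⟩, ?_⟩
    have h' : (((u - 4 * a) ^ 2 + (v - (2 * a + 5 * b)) ^ 2 : ℤ) : ℝ) ≤ 5 := by
      exact_mod_cast hab
    simp only
    linarith

theorem coverable_blocks (d : ℝ) (hd1 : 4 / 9 ≤ d ^ 2) (hd2 : d ^ 2 ≤ 1 / 2) : Coverable d := by
  apply coverable_of _ {p | ∃ a b : ℤ, p = (3 * a, 3 * b)}
  · rintro _ ⟨a, b, rfl⟩ _ ⟨a', b', rfl⟩ hne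
    have h : (9 : ℤ) ≤ (3 * a - 3 * a') ^ 2 + (3 * b - 3 * b') ^ 2 := by
      have h1 : a ≠ a' ∨ b ≠ b' := by
        by_contra hcon
        push Not at hcon
        apply hne
        rw [hcon.1, hcon.2]
      rcases h1 with h1 | h1
      · have : 1 ≤ a - a' ∨ a - a' ≤ -1 := by omega
        rcases this with h5 | h5 <;> nlinarith [sq_nonneg (3 * b - 3 * b')]
      · have : 1 ≤ b - b' ∨ b - b' ≤ -1 := by omega
        rcases this with h5 | h5 <;> nlinarith [sq_nonneg (3 * a - 3 * a')]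
    have h' : (9 : ℝ) ≤ (((3 * a - 3 * a') ^ 2 + (3 * b - 3 * b') ^ 2 : ℤ) : ℝ) := by
      exact_mod_cast h
    simp only
    nlinarith
  · intro u v
    have key : ∃ a b : ℤ, (u - 3 * a) ^ 2 + (v - 3 * b) ^ 2 ≤ 2 := by
      refine ⟨(u + 1) / 3, (v + 1) / 3, ?_⟩
      have e1 : -1 ≤ u - 3 * ((u + 1) / 3) ∧ u - 3 * ((u + 1) / 3) ≤ 1 := by omega
      have e2 : -1 ≤ v - 3 * ((v + 1) / 3) ∧ v - 3 * ((v + 1) / 3) ≤ 1 := by omega
      nlinarith
    obtain ⟨a, b, hab⟩ := key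
    refine ⟨(3 * a, 3 * b), ⟨a, b, rfl⟩, ?_⟩
    have h' : (((u - 3 * a) ^ 2 + (v - 3 * b) ^ 2 : ℤ) : ℝ) ≤ 2 := by
      exact_mod_cast hab
    simp only
    nlinarith [sq_nonneg d]

end Q149.CovSp
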