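import Pool.Agent.Q256.EC.Stm

/-!
# Project EC (helper256), job DC1. Author of this file: helper149.
-/

set_option autoImplicit false

namespace Pool.Agent.Q149.EC_DC1

open MvPolynomial Topology
open Filter (Tendsto atTop)
open Pool.Agent.Q256.EC
open Pool.Agent.Q170.GP (GapP)

theorem eval_map_hom {A B ι : Type} [CommRing A] [CommRing B] (φ : A →+* B) (x : ι → A) (P : MvPolynomial ι A) :
    eval (fun i => φ (x i)) (map φ P) = φ (eval x P) := by
  induction P using MvPolynomial.induction_on with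
  | C a => simp
  | add p q hp hq => rw [map_add, map_add, map_add, map_add, hp, hq]
  | mul_X p i hp => rw [map_mul, map_mul, map_mul, map_mul, hp, map_X, eval_X, eval_X]

theorem dc1 : S_WEO → S_WEV → S_UNP → S_WEC → S_GAN → S_FLD → S_DC1 := by
  intro hWEO hWEV hUNP hWEC hGAN hFLD p _ hp2 ι _ _ g u w horb σ C hσ0 hσ1 hC
  have hp : Nat.Prime p := Fact.out
  have hp1 : (1 : ℝ) < p := by exact_mod_cast hp.one_lt
  obtain ⟨E, hfin, hsplit⟩ := hFLD p (lin g).charpoly (Matrix.charpoly_monic _).ne_zero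
  have hcomp : CompleteSpace E := FiniteDimensional.complete ℚ_[p] E
  have hprop : ProperSpace E := FiniteDimensional.proper ℚ_[p] E
  obtain ⟨φ, hφ⟩ : ∃ φ : ℚ_[p] →+* E, φ = algebraMap ℚ_[p] E := ⟨_, rfl⟩
  have hφn : ∀ x, ‖φ x‖ = ‖x‖ := fun x => by
    rw [hφ]
    exact norm_algebraMap' E x
  have hφi : ∀ x, φ x = 0 → x = 0 := fun x hx => by
    rw [← norm_eq_zero, ← hφn, hx, norm_zero]
  obtain ⟨w', hw'⟩ : ∃ w' : ℕ → ι → E, w' = fun n i => φ (w n i) := ⟨_, rfl⟩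
  have hev : ∀ n (P : MvPolynomial ι ℚ_[p]), eval (w' n) (map φ P) = φ (eval (w n) P) := fun n P => by
    rw [hw']
    exact eval_map_hom φ (w n) P
  have hwn : ∀ n, ‖w' n‖ ≤ ‖w n‖ := fun n => by
    rw [pi_norm_le_iff_of_nonneg (norm_nonneg _)]
    intro i
    rw [hw']
    simp only
    rw [hφn]
    exact norm_le_pi_norm (w n) i
  have horb' : Orb (fun i => map φ (g i)) (map φ u) w' := by
    refine ⟨fun i => ?_, ?_, fun n i => ?_, fun n => ?_, fun n => (hwn n).trans (horb.le n)⟩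
    · rw [constantCoeff_map, horb.g0, map_zero]
    · rw [constantCoeff_map]
      exact fun h => horb.u0 (hφi _ h)
    · rw [hev, hev, ← horb.step, map_mul, hw']
    · rw [hev, hφn]
      exact horb.unit n
  have hlin : lin (fun i => map φ (g i)) = (lin g).map φ := by
    ext i j
    simp only [lin, Matrix.of_apply, Matrix.map_apply, coeff_map]
  have hsplit' : (lin fun i => map φ (g i)).charpoly.Splits := by
    rw [hlin, Matrix.charpoly_map, hφ]
    exact hsplit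
  have hC' : ∀ n, ‖w' n‖ ≤ C * σ ^ n := fun n => (hwn n).trans (hC n)
  have h1 : ∀ k : ℕ, 1 ≤ k → ∀ i, We (σ ^ k) (fun n => w' n i) :=
    hWEO E ι (fun i => map φ (g i)) (map φ u) w' horb' hsplit' σ C hσ0 hσ1.le hC'
  have h2 : ∀ k : ℕ, 1 ≤ k → ∀ G : MvPolynomial ι E, We (σ ^ k) (fun n => eval (w' n) G) := fun k hk G =>
    (hWEV E ι σ C k w' hσ0 hσ1.le hk hC' (h1 k hk) G).1
  have hq0 : (0 : ℝ) < (p : ℝ)⁻¹ := inv_pos.2 (by linarith)
  have hq1 : (p : ℝ)⁻¹ ≤ 1 := inv_le_one_of_one_le₀ hp1.le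
  obtain ⟨m, hm, hmx⟩ := hUNP E ((p : ℝ)⁻¹) hq0
  refine ⟨m, hm, fun c G => ?_⟩
  have h3 : ∀ k : ℕ, 1 ≤ k → _ := fun k hk =>
    hWEC E ((p : ℝ)⁻¹) m hq0 hq1 hm hmx (σ ^ k) (fun n => eval (w' n) (map φ G)) (pow_pos hσ0 k) (h2 k hk _) c
  by_cases hcase : ∃ μ, GapP p μ {n | eval (w (c + m * n)) G = 0}
  · exact Or.inl hcase
  · right
    have h4 : ∀ k : ℕ, 1 ≤ k → ∃ C : ℝ, ∀ n, ‖eval (w (c + m * n)) G‖ ≤ C * (σ ^ k) ^ (m * n) := by
      intro k hk
      rcases h3 k hk with ⟨C1, hC1⟩ | ⟨ν, b, ε, C1, hν, hb, hne, hε0, hε1, hbd⟩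
      · refine ⟨C1, fun n => ?_⟩
        have := hC1 n
        simp only [hev, hφn] at this
        exact this
      · exfalso
        apply hcase
        refine hGAN p hp2 E b ε C1 hb hne hε0 hε1 _ fun n hn => ?_
        have h5 := hbd n
        have h6 : eval (w (c + m * n)) G = 0 := hn
        simp only [hev, h6, map_zero, zero_mul, zero_sub, norm_neg] at h5
        exact h5
    intro k
    have h5 : ∀ k : ℕ, 1 ≤ k → ∃ C : ℝ, 0 ≤ C ∧ ∀ n, ‖eval (w (c + m * n)) G‖ ≤ C * (σ ^ k) ^ n := by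
      intro k hk
      obtain ⟨C1, hC1⟩ := h4 k hk
      refine ⟨|C1|, abs_nonneg _, fun n => (hC1 n).trans ?_⟩
      have h6 : (σ ^ k) ^ (m * n) ≤ (σ ^ k) ^ n :=
        pow_le_pow_of_le_one (by positivity) (pow_le_one₀ hσ0.le hσ1.le) (by nlinarith)
      calc C1 * (σ ^ k) ^ (m * n) ≤ |C1| * (σ ^ k) ^ (m * n) :=
            mul_le_mul_of_nonneg_right (le_abs_self _) (by positivity)
        _ ≤ |C1| * (σ ^ k) ^ n := mul_le_mul_of_nonneg_left h6 (abs_nonneg _)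
    rcases Nat.eq_zero_or_pos k with h0 | h0
    · obtain ⟨C1, hC10, hC1⟩ := h5 1 le_rfl
      refine ⟨C1, fun n => ?_⟩
      rw [abs_of_nonneg (norm_nonneg _), h0, pow_zero, one_pow, mul_one]
      refine (hC1 n).trans ?_
      have h6 : (σ ^ 1) ^ n ≤ 1 := pow_le_one₀ (by positivity) (pow_le_one₀ hσ0.le hσ1.le)
      calc C1 * (σ ^ 1) ^ n ≤ C1 * 1 := mul_le_mul_of_nonneg_left h6 hC10
        _ = C1 := mul_one _
    · obtain ⟨C1, _, hC1⟩ := h5 k h0
      refine ⟨C1, fun n => ?_⟩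
      rw [abs_of_nonneg (norm_nonneg _)]
      exact hC1 n

end Pool.Agent.Q149.EC_DC1
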