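import Pool.Agent.Q256.EC.Stm

/-!
# Project EC (helper256), job GAN. Author of this file: helper149.
-/

set_option autoImplicit false

namespace Pool.Agent.Q149.EC_GAN

open Topology
open Filter (Tendsto atTop)
open Pool.Agent.Q256.EC
open Pool.Agent.Q170.GP (GapP)

theorem fwd_hom {A B : Type} [AddCommGroup A] [AddCommGroup B] (F : A →+ B) (b : ℕ → A) (i : ℕ) :
    ∀ n, F ((fwdDiff 1)^[i] b n) = (fwdDiff 1)^[i] (fun n => F (b n)) n := by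
  induction i with
  | zero => intro n; rfl
  | succ i ih =>
    intro n
    rw [Function.iterate_succ_apply', Function.iterate_succ_apply']
    unfold fwdDiff
    rw [map_sub]
    have h1 := ih (n + 1)
    have h2 := ih n
    unfold fwdDiff at h1 h2
    rw [h1, h2]

theorem dvd_of_norm {p : ℕ} [Fact p.Prime] (x : ℤ_[p]) (i : ℕ) (h : ‖x‖ ≤ ((p : ℝ)⁻¹) ^ i) : (p : ℤ_[p]) ^ i ∣ x := by
  rw [← Ideal.mem_span_singleton, ← PadicInt.norm_le_pow_iff_mem_span_pow, zpow_neg, zpow_natCast, ← inv_pow]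
  exact h

theorem norm_of_dvd {p : ℕ} [Fact p.Prime] (x : ℤ_[p]) (i : ℕ) (h : (p : ℤ_[p]) ^ i ∣ x) : ‖x‖ ≤ ((p : ℝ)⁻¹) ^ i := by
  rw [← Ideal.mem_span_singleton, ← PadicInt.norm_le_pow_iff_mem_span_pow, zpow_neg, zpow_natCast, ← inv_pow] at h
  exact h

theorem gan : S_GDV → S_GAN := by
  intro hG p _ hp2 K _ _ _ b ε C hb hne hε0 hε1
  obtain ⟨n0, hn0⟩ := hne
  obtain ⟨C1, hC1⟩ := hb
  have hp : Nat.Prime p := Fact.out
  have hp1 : (1 : ℝ) < p := by exact_mod_cast hp.one_lt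
  have hp0 : (0 : ℝ) < p := by linarith
  -- the linear form
  obtain ⟨ℓ, hℓ⟩ : ∃ ℓ : Module.Dual ℚ_[p] K, ℓ (b n0) ≠ 0 := by
    by_contra hcon
    push Not at hcon
    exact hn0 ((Module.forall_dual_apply_eq_zero_iff ℚ_[p] _).1 hcon)
  obtain ⟨D, hD0, hD⟩ : ∃ D : ℝ, 0 ≤ D ∧ ∀ x : K, ‖ℓ x‖ ≤ D * ‖x‖ := by
    refine ⟨‖LinearMap.toContinuousLinearMap ℓ‖, norm_nonneg _, fun x => ?_⟩
    exact (LinearMap.toContinuousLinearMap ℓ).le_opNorm x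
  obtain ⟨s, hs⟩ : ∃ s : ℕ, D * max |C1| |C| ≤ (p : ℝ) ^ s := by
    obtain ⟨s, hs⟩ := pow_unbounded_of_one_lt (D * max |C1| |C|) hp1
    exact ⟨s, hs.le⟩
  have hsp : (0 : ℝ) < (p : ℝ) ^ s := pow_pos hp0 s
  have hnps : ‖(p : ℚ_[p]) ^ s‖ = ((p : ℝ) ^ s)⁻¹ := by
    rw [norm_pow, Padic.norm_p, inv_pow]
  let F : K →+ ℚ_[p] := (AddMonoidHom.mulLeft ((p : ℚ_[p]) ^ s)).comp ℓ.toAddMonoidHom
  have hF : ∀ x, F x = (p : ℚ_[p]) ^ s * ℓ x := fun x => rfl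
  have hFn : ∀ (x : K) (M r : ℝ), |M| ≤ max |C1| |C| → 0 ≤ r → ‖x‖ ≤ M * r → ‖F x‖ ≤ r := by
    intro x M r hM hr hx
    rw [hF, norm_mul, hnps]
    have h1 : ‖ℓ x‖ ≤ (p : ℝ) ^ s * r := by
      calc ‖ℓ x‖ ≤ D * ‖x‖ := hD x
        _ ≤ D * (max |C1| |C| * r) := by
          refine mul_le_mul_of_nonneg_left (hx.trans ?_) hD0
          exact mul_le_mul_of_nonneg_right ((le_abs_self M).trans hM) hr
        _ = D * max |C1| |C| * r := by ring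
        _ ≤ (p : ℝ) ^ s * r := mul_le_mul_of_nonneg_right hs hr
    calc ((p : ℝ) ^ s)⁻¹ * ‖ℓ x‖ ≤ ((p : ℝ) ^ s)⁻¹ * ((p : ℝ) ^ s * r) :=
          mul_le_mul_of_nonneg_left h1 (inv_nonneg.2 hsp.le)
      _ = r := by
        rw [← mul_assoc, inv_mul_cancel₀ hsp.ne', one_mul]
  have hFb : ∀ n, ‖F (b n)‖ ≤ 1 := fun n => by
    refine hFn (b n) C1 1 (le_max_left _ _) zero_le_one ?_
    have := hC1 0 n
    simpa using this
  obtain ⟨g, hg⟩ : ∃ g : ℕ → ℤ_[p], ∀ n, ((g n : ℤ_[p]) : ℚ_[p]) = F (b n) := ⟨fun n => ⟨F (b n), hFb n⟩, fun n => rfl⟩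
  have hgd : ∀ i n, (p : ℤ_[p]) ^ i ∣ (fwdDiff 1)^[i] g n := by
    intro i n
    refine dvd_of_norm _ i ?_
    have h1 := fwd_hom (PadicInt.Coe.ringHom (p := p)).toAddMonoidHom g i n
    have h2 := fwd_hom F b i n
    have h3 : (fun n => (PadicInt.Coe.ringHom (p := p)).toAddMonoidHom (g n)) = fun n => F (b n) := funext hg
    rw [h3, ← h2] at h1
    have h4 : ‖(fwdDiff 1)^[i] g n‖ = ‖F ((fwdDiff 1)^[i] b n)‖ := by
      rw [← h1]
      exact PadicInt.norm_def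
    rw [h4]
    exact hFn _ C1 _ (le_max_left _ _) (by positivity) (hC1 i n)
  have hgn0 : g n0 ≠ 0 := by
    intro h0
    have h1 := hg n0
    rw [h0, hF] at h1
    have h2 : (p : ℚ_[p]) ^ s ≠ 0 := pow_ne_zero _ (by exact_mod_cast hp.ne_zero)
    exact mul_ne_zero h2 hℓ (by rw [← h1]; rfl)
  have hinv : ((p : ℝ)⁻¹) < 1 := inv_lt_one_of_one_lt₀ hp1
  have hinv0 : 0 < ((p : ℝ)⁻¹) := inv_pos.2 hp0
  obtain ⟨μ, hμ⟩ : ∃ μ : ℕ, ¬ (p : ℤ_[p]) ^ μ ∣ g n0 := by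
    obtain ⟨μ, hμ⟩ := exists_pow_lt_of_lt_one (norm_pos_iff.2 hgn0) hinv
    exact ⟨μ, fun h => absurd (norm_of_dvd _ _ h) (not_le.2 hμ)⟩
  obtain ⟨T, hT1, hT⟩ : ∃ T : ℕ, 1 ≤ T ∧ ε ^ T ≤ (p : ℝ)⁻¹ := by
    obtain ⟨T, hT⟩ := exists_pow_lt_of_lt_one hinv0 hε1
    refine ⟨T + 1, by omega, ?_⟩
    rw [pow_succ]
    have h1 : ε ^ T * ε ≤ ε ^ T * 1 := mul_le_mul_of_nonneg_left hε1.le (by positivity)
    linarith
  intro S hS
  refine ⟨(μ + 1) * T, fun A hA hc X L hX hL => ?_⟩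
  have hdvd : ∀ n ∈ A, (p : ℤ_[p]) ^ (X / T) ∣ g n := by
    intro n hn
    refine dvd_of_norm _ _ ?_
    have h1 : ‖g n‖ = ‖F (b n)‖ := by
      rw [← hg]
      exact PadicInt.norm_def
    rw [h1]
    calc ‖F (b n)‖ ≤ ε ^ n := hFn _ C _ (le_max_right _ _) (by positivity) (hS n (hA n hn))
      _ ≤ ε ^ (T * (X / T)) := by
        refine pow_le_pow_of_le_one hε0.le hε1.le ?_
        exact (Nat.mul_div_le X T).trans (hX n hn)
      _ = (ε ^ T) ^ (X / T) := pow_mul _ _ _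
      _ ≤ ((p : ℝ)⁻¹) ^ (X / T) := pow_le_pow_left₀ (by positivity) hT _
  have hc' : 2 * μ < A.card := by nlinarith
  have hmain := hG p hp2 g hgd μ ⟨n0, hμ⟩ A (X / T) L hc' hL hdvd
  have hL1 : 1 ≤ L := by
    by_contra hcon
    have hL0 : L = 0 := by omega
    subst hL0
    rcases Nat.eq_zero_or_pos μ with h0 | h0
    · subst h0
      have h8 := Nat.one_le_pow (X / T) p hp.pos
      have h9 : p ^ 0 * 0 ^ (2 * 0) = 1 := by norm_num
      rw [h9] at hmain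
      omega
    · rw [zero_pow (by omega), mul_zero] at hmain
      omega
  calc p ^ X ≤ p ^ (X / T * T + T) := by
        refine Nat.pow_le_pow_right hp.pos ?_
        have := Nat.lt_div_mul_add (a := X) (b := T) (by omega)
        omega
    _ = (p ^ (X / T)) ^ T * p ^ T := by rw [pow_add, pow_mul]
    _ < (p ^ μ * L ^ (2 * μ)) ^ T * p ^ T := by
        refine Nat.mul_lt_mul_of_pos_right ?_ (pow_pos hp.pos T)
        exact Nat.pow_lt_pow_left hmain (by omega)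
    _ = p ^ ((μ + 1) * T) * L ^ (2 * μ * T) := by
        rw [mul_pow, ← pow_mul, ← pow_mul, add_mul, pow_add, one_mul]
        ring
    _ ≤ p ^ ((μ + 1) * T) * L ^ (2 * ((μ + 1) * T)) := by
        refine Nat.mul_le_mul_left _ (Nat.pow_le_pow_right hL1 ?_)
        nlinarith

end Pool.Agent.Q149.EC_GAN
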