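import Pool.Agent.Q149.EGtrans

/-!
# Labelled even graphs by the number of edges
-/

set_option autoImplicit false

namespace Pool.Agent.Q149.EGeven

open Finset

open Classical in
/-- The sum of `x ^ |E(G)|` over the even graphs `G` on `p` labelled vertices. -/
noncomputable def W (p : ℕ) (x : ℝ) : ℝ :=
  ∑ G : SimpleGraph (Fin p), if ∀ v, Even (G.degree v) then x ^ G.edgeFinset.card else 0

theorem W_edges (p : ℕ) (x : ℝ) : W p x =
    ∑ E ∈ ((⊤ : SimpleGraph (Fin p)).edgeFinset).powerset,
      if ∀ v : Fin p, Even (E.filter (fun e => v ∈ e)).card then x ^ E.card else 0 := by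
  classical
  unfold W
  refine Finset.sum_bij' (fun (G : SimpleGraph (Fin p)) _ => G.edgeFinset)
    (fun (E : Finset (Sym2 (Fin p))) _ => SimpleGraph.fromEdgeSet (E : Set (Sym2 (Fin p))))
    ?_ ?_ ?_ ?_ ?_
  · intro G _
    rw [mem_powerset]
    exact SimpleGraph.edgeFinset_subset_edgeFinset.2 le_top
  · intro E _
    exact mem_univ _
  · intro G _
    simp
  · intro E hE
    rw [mem_powerset] at hE
    ext e
    simp only [SimpleGraph.edgeFinset, Set.mem_toFinset]
    rw [SimpleGraph.edgeSet_fromEdgeSet]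
    constructor
    · intro h
      exact h.1
    · intro h
      refine ⟨h, ?_⟩
      have := hE h
      rw [SimpleGraph.mem_edgeFinset] at this
      simpa using this
  · intro G _
    have h : ∀ v, (G.edgeFinset.filter (fun e => v ∈ e)).card = G.degree v := by
      intro v
      rw [← SimpleGraph.card_incidenceFinset_eq_degree, SimpleGraph.incidenceFinset_eq_filter]
    simp only [h]

/-- The sign of an edge. -/
def sg {p : ℕ} (S : Finset (Fin p)) (e : Sym2 (Fin p)) : ℝ := ∏ v ∈ S, if v ∈ e then -1 else 1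

theorem prod_sg {p : ℕ} (S : Finset (Fin p)) (E : Finset (Sym2 (Fin p))) :
    ∏ e ∈ E, sg S e = ∏ v ∈ S, (-1 : ℝ) ^ (E.filter (fun e => v ∈ e)).card := by
  unfold sg
  rw [prod_comm]
  apply prod_congr rfl
  intro v _
  rw [prod_ite, prod_const_one, mul_one, prod_const]

theorem sum_sg {p : ℕ} (E : Finset (Sym2 (Fin p))) :
    ∑ S : Finset (Fin p), ∏ e ∈ E, sg S e =
      if ∀ v : Fin p, Even (E.filter (fun e => v ∈ e)).card then 2 ^ p else 0 := by
  have h1 : ∑ S : Finset (Fin p), ∏ e ∈ E, sg S e =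
      ∏ v : Fin p, ((-1 : ℝ) ^ (E.filter (fun e => v ∈ e)).card + 1) := by
    rw [prod_add_one, powerset_univ]
    apply sum_congr rfl
    intro S _
    exact prod_sg S E
  rw [h1]
  by_cases h : ∀ v : Fin p, Even (E.filter (fun e => v ∈ e)).card
  · rw [if_pos h]
    have h2 : ∀ v ∈ (univ : Finset (Fin p)),
        ((-1 : ℝ) ^ (E.filter (fun e => v ∈ e)).card + 1) = 2 := by
      intro v _
      rw [(h v).neg_one_pow]
      norm_num
    rw [prod_congr rfl h2, prod_const, card_univ, Fintype.card_fin]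
  · rw [if_neg h]
    push Not at h
    obtain ⟨v, hv⟩ := h
    apply prod_eq_zero (mem_univ v)
    rw [(Nat.not_even_iff_odd.1 hv).neg_one_pow]
    norm_num

theorem sg_mk {p : ℕ} (S : Finset (Fin p)) (a b : Fin p) (hab : a ≠ b) :
    sg S s(a, b) = (if a ∈ S then -1 else 1) * (if b ∈ S then -1 else 1) := by
  unfold sg
  have h1 : ∀ v ∈ S, (if v ∈ s(a, b) then (-1 : ℝ) else 1) =
      (if v = a then -1 else 1) * (if v = b then -1 else 1) := by
    intro v _
    have hm : v ∈ s(a, b) ↔ v = a ∨ v = b := Sym2.mem_iff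
    by_cases h : v = a
    · have h' : v ≠ b := fun h' => hab (h.symm.trans h')
      rw [if_pos (hm.2 (Or.inl h)), if_pos h, if_neg h', mul_one]
    · by_cases h' : v = b
      · rw [if_pos (hm.2 (Or.inr h')), if_neg h, if_pos h', one_mul]
      · rw [if_neg (fun h3 => (hm.1 h3).elim h h'), if_neg h, if_neg h', mul_one]
  rw [prod_congr rfl h1, prod_mul_distrib]
  congr 1
  · by_cases h : a ∈ S
    · rw [if_pos h, prod_ite_eq' S a (fun _ => (-1 : ℝ)), if_pos h]
    · rw [if_neg h, prod_ite_eq' S a (fun _ => (-1 : ℝ)), if_neg h]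
  · by_cases h : b ∈ S
    · rw [if_pos h, prod_ite_eq' S b (fun _ => (-1 : ℝ)), if_pos h]
    · rw [if_neg h, prod_ite_eq' S b (fun _ => (-1 : ℝ)), if_neg h]

/-- The number of edges with sign `-1`. -/
theorem card_neg {p : ℕ} (S : Finset (Fin p)) :
    (((⊤ : SimpleGraph (Fin p)).edgeFinset).filter (fun e => sg S e = -1)).card =
      S.card * (p - S.card) := by
  classical
  have h1 : ((⊤ : SimpleGraph (Fin p)).edgeFinset).filter (fun e => sg S e = -1) =
      (S ×ˢ Sᶜ).image (fun q : Fin p × Fin p => s(q.1, q.2)) := by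
    ext e
    induction e using Sym2.ind with
    | _ a b =>
      rw [mem_filter, SimpleGraph.mem_edgeFinset, SimpleGraph.mem_edgeSet, SimpleGraph.top_adj,
        mem_image]
      constructor
      · rintro ⟨hab, h⟩
        rw [sg_mk S a b hab] at h
        by_cases ha : a ∈ S
        · by_cases hb : b ∈ S
          · rw [if_pos ha, if_pos hb] at h
            norm_num at h
          · exact ⟨(a, b), mem_product.2 ⟨ha, mem_compl.2 hb⟩, rfl⟩
        · by_cases hb : b ∈ S
          · exact ⟨(b, a), mem_product.2 ⟨hb, mem_compl.2 ha⟩, Sym2.eq_swap⟩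
          · rw [if_neg ha, if_neg hb] at h
            norm_num at h
      · rintro ⟨⟨c, d⟩, hcd, h⟩
        rw [mem_product, mem_compl] at hcd
        have hne : c ≠ d := fun h' => hcd.2 (h' ▸ hcd.1)
        have h2 : sg S s(c, d) = -1 := by
          rw [sg_mk S c d hne, if_pos hcd.1, if_neg hcd.2, mul_one]
        have h' : s(c, d) = s(a, b) := h
        rw [← h']
        refine ⟨?_, h2⟩
        rintro rfl
        rcases Sym2.eq_iff.1 h' with ⟨h3, h4⟩ | ⟨h3, h4⟩
        · exact hne (h3.trans h4.symm)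
        · exact hne (h3.trans h4.symm)
  rw [h1, card_image_of_injOn, card_product, card_compl, Fintype.card_fin]
  rintro ⟨a, b⟩ h ⟨c, d⟩ h' heq
  rw [mem_coe, mem_product, mem_compl] at h h'
  have heq' : s(a, b) = s(c, d) := heq
  rcases Sym2.eq_iff.1 heq' with ⟨h3, h4⟩ | ⟨h3, h4⟩
  · exact Prod.ext h3 h4
  · exfalso
    have h5 : a ∈ S := h.1
    have h6 : d ∉ S := h'.2
    exact h6 (h3 ▸ h5)

theorem sg_pm {p : ℕ} (S : Finset (Fin p)) (e : Sym2 (Fin p)) : sg S e = 1 ∨ sg S e = -1 := by
  unfold sg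
  induction S using Finset.induction_on with
  | empty => simp
  | insert a S ha ih =>
    rw [prod_insert ha]
    split_ifs
    · rcases ih with h | h <;> rw [h] <;> norm_num
    · rw [one_mul]
      exact ih

/-- The known formula. -/
theorem formula (p : ℕ) (x : ℝ) : 2 ^ p * W p x =
    ∑ k ∈ range (p + 1), (p.choose k : ℝ) *
      ((1 + x) ^ (p.choose 2 - k * (p - k)) * (1 - x) ^ (k * (p - k))) := by
  classical
  set K := (⊤ : SimpleGraph (Fin p)).edgeFinset with hK
  have hKc : K.card = p.choose 2 := by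
    have := SimpleGraph.card_edgeFinset_top_eq_card_choose_two (V := Fin p)
    rw [Fintype.card_fin] at this
    rw [hK]
    convert this
  have h1 : ∑ S : Finset (Fin p), ∏ e ∈ K, (1 + sg S e * x) = 2 ^ p * W p x := by
    have h2 : ∀ S : Finset (Fin p), ∏ e ∈ K, (1 + sg S e * x) =
        ∑ E ∈ K.powerset, (∏ e ∈ E, sg S e) * x ^ E.card := by
      intro S
      rw [prod_one_add]
      apply sum_congr rfl
      intro E _
      rw [prod_mul_distrib, prod_const]
    rw [sum_congr rfl (fun S _ => h2 S), sum_comm, W_edges, mul_sum]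
    apply sum_congr rfl
    intro E _
    rw [← sum_mul, sum_sg]
    split_ifs
    · rfl
    · ring
  rw [← h1]
  have h3 : ∀ S : Finset (Fin p), ∏ e ∈ K, (1 + sg S e * x) =
      (1 + x) ^ (p.choose 2 - S.card * (p - S.card)) * (1 - x) ^ (S.card * (p - S.card)) := by
    intro S
    have h4 : ∀ e ∈ K, (1 + sg S e * x) = if sg S e = -1 then 1 - x else 1 + x := by
      intro e _
      rcases sg_pm S e with h | h
      · rw [h, if_neg (by norm_num), one_mul]
      · rw [h, if_pos rfl]
        ring
    rw [prod_congr rfl h4, prod_ite, prod_const, prod_const, card_neg S]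
    have h5 := card_filter_add_card_filter_not (s := K) (fun e => sg S e = -1)
    rw [card_neg S, hKc] at h5
    have h6 : (K.filter (fun e => ¬ sg S e = -1)).card =
        p.choose 2 - S.card * (p - S.card) := by omega
    rw [h6, mul_comm]
  rw [sum_congr rfl (fun S _ => h3 S)]
  have h7 := sum_powerset_apply_card (x := (univ : Finset (Fin p)))
    (fun k => (1 + x) ^ (p.choose 2 - k * (p - k)) * (1 - x) ^ (k * (p - k)))
  rw [powerset_univ, card_univ, Fintype.card_fin] at h7
  rw [h7]
  apply sum_congr rfl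
  intro k _
  rw [nsmul_eq_mul]

end Pool.Agent.Q149.EGeven
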