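import Mathlib

/-!
# Sums of power products: the Euler operator
-/

set_option autoImplicit false

namespace Pool.Agent.Q149.EGode

open Finset Polynomial

variable {ι : Type} [Fintype ι] [DecidableEq ι]

noncomputable def qq (g : ι → ℝ[X]) : ℝ[X] := ∏ l, g l

noncomputable def hd (g : ι → ℝ[X]) (e : ι → ℤ) (j : ℕ) : ℝ[X] :=
  ∑ l, C ((e l : ℝ) - j) * ((g l).derivative * ∏ l' ∈ univ.erase l, g l')

noncomputable def HH (g : ι → ℝ[X]) (e : ι → ℤ) : ℕ → ℝ[X]
  | 0 => 1
  | j + 1 => qq g * (X * (HH g e j).derivative) + X * (HH g e j * hd g e j)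

noncomputable def uu (g : ι → ℝ[X]) (e : ι → ℤ) (j : ℕ) (t : ℝ) : ℝ :=
  ∏ l, (g l).eval t ^ (e l - j)

theorem pow_step (x : ℝ) (hx : 0 < x) (a : ℤ) (j : ℕ) :
    x ^ (a - j) = x * x ^ (a - (j + 1 : ℕ)) := by
  have e : a - (j : ℤ) = 1 + (a - ((j + 1 : ℕ) : ℤ)) := by
    push_cast
    ring
  rw [e, zpow_add₀ hx.ne', zpow_one]

theorem uu_step (g : ι → ℝ[X]) (e : ι → ℤ) (j : ℕ) (t : ℝ)
    (hpos : ∀ l, 0 < (g l).eval t) : uu g e j t = (qq g).eval t * uu g e (j + 1) t := by
  unfold uu qq
  rw [eval_prod, ← prod_mul_distrib]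
  apply prod_congr rfl
  intro l _
  exact pow_step _ (hpos l) _ _

theorem uu_deriv (g : ι → ℝ[X]) (e : ι → ℤ) (j : ℕ) (t : ℝ)
    (hpos : ∀ l, 0 < (g l).eval t) :
    HasDerivAt (uu g e j) ((hd g e j).eval t * uu g e (j + 1) t) t := by
  have h1 : ∀ l ∈ (univ : Finset (ι)), HasDerivAt (fun t => (g l).eval t ^ (e l - j))
      (((e l - (j : ℤ) : ℤ) : ℝ) * (g l).eval t ^ (e l - (j : ℤ) - 1) *
        (g l).derivative.eval t) t := by
    intro l _
    exact (hasDerivAt_zpow (e l - j) ((g l).eval t) (Or.inl (hpos l).ne')).comp t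
      ((g l).hasDerivAt t)
  have h2 := HasDerivAt.fun_finsetProd h1
  refine HasDerivAt.congr_deriv h2 ?_
  unfold hd uu
  rw [eval_finset_sum, sum_mul]
  apply sum_congr rfl
  intro l _
  rw [smul_eq_mul, eval_mul, eval_C, eval_mul, eval_prod,
    ← mul_prod_erase univ (fun l' => (g l').eval t ^ (e l' - ((j + 1 : ℕ) : ℤ))) (mem_univ l)]
  have h3 : ∏ l' ∈ univ.erase l, (g l').eval t ^ (e l' - (j : ℤ)) =
      (∏ l' ∈ univ.erase l, (g l').eval t) *
        ∏ l' ∈ univ.erase l, (g l').eval t ^ (e l' - ((j + 1 : ℕ) : ℤ)) := by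
    rw [← prod_mul_distrib]
    apply prod_congr rfl
    intro l' _
    exact pow_step _ (hpos l') _ _
  rw [h3]
  have h4 : e l - (j : ℤ) - 1 = e l - ((j + 1 : ℕ) : ℤ) := by
    push_cast
    ring
  rw [h4]
  push_cast
  ring

theorem key {K : Type} (sK : Finset K) (a : K → ℝ) (n : K → ℕ) (m : ℕ) (g : ι → ℝ[X])
    (hpos : ∀ l, ∀ t ∈ Set.Ioo (0 : ℝ) 1, 0 < (g l).eval t) (c : Fin m → ℝ)
    (e : Fin m → ι → ℤ)
    (h : ∀ t ∈ Set.Ioo (0 : ℝ) 1, ∑ k ∈ sK, a k * t ^ n k = ∑ i, c i * uu g (e i) 0 t) :
    ∀ j : ℕ, ∀ t ∈ Set.Ioo (0 : ℝ) 1, ∑ k ∈ sK, a k * (n k : ℝ) ^ j * t ^ n k =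
      ∑ i, c i * ((HH g (e i) j).eval t * uu g (e i) j t) := by
  intro j
  induction j with
  | zero =>
    intro t ht
    simp only [pow_zero, mul_one, HH, eval_one, one_mul]
    exact h t ht
  | succ j ih =>
    intro t ht
    have hd1 : HasDerivAt (fun t : ℝ => ∑ k ∈ sK, a k * (n k : ℝ) ^ j * t ^ n k)
        (∑ k ∈ sK, a k * (n k : ℝ) ^ j * ((n k : ℝ) * t ^ (n k - 1))) t := by
      apply HasDerivAt.fun_sum
      intro k _
      exact (hasDerivAt_pow (n k) t).const_mul _
    have hd2 : HasDerivAt (fun t : ℝ => ∑ i, c i * ((HH g (e i) j).eval t * uu g (e i) j t))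
        (∑ i, c i * ((HH g (e i) j).derivative.eval t * uu g (e i) j t +
          (HH g (e i) j).eval t * ((hd g (e i) j).eval t * uu g (e i) (j + 1) t))) t := by
      apply HasDerivAt.fun_sum
      intro i _
      apply HasDerivAt.const_mul
      exact ((HH g (e i) j).hasDerivAt t).mul (uu_deriv g (e i) j t (fun l => hpos l t ht))
    have hev : (fun t : ℝ => ∑ i, c i * ((HH g (e i) j).eval t * uu g (e i) j t)) =ᶠ[nhds t]
        (fun t : ℝ => ∑ k ∈ sK, a k * (n k : ℝ) ^ j * t ^ n k) := by
      filter_upwards [isOpen_Ioo.mem_nhds ht] with t' ht'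
      exact (ih t' ht').symm
    have hd3 := hd1.congr_of_eventuallyEq hev
    have heq := hd3.unique hd2
    have h1 : ∑ k ∈ sK, a k * (n k : ℝ) ^ (j + 1) * t ^ n k =
        t * ∑ k ∈ sK, a k * (n k : ℝ) ^ j * ((n k : ℝ) * t ^ (n k - 1)) := by
      rw [mul_sum]
      apply sum_congr rfl
      intro k _
      rcases Nat.eq_zero_or_pos (n k) with h0 | h0
      · rw [h0]
        simp
      · have h2 : t ^ n k = t * t ^ (n k - 1) := by
          rw [← pow_succ']
          congr 1
          omega
        rw [h2]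
        ring
    rw [h1, heq, mul_sum]
    apply sum_congr rfl
    intro i _
    rw [uu_step g (e i) j t (fun l => hpos l t ht)]
    simp only [HH, eval_add, eval_mul, eval_X]
    ring

theorem natDegree_X_mul_derivative (p : ℝ[X]) : (X * p.derivative).natDegree ≤ p.natDegree := by
  rcases Nat.eq_zero_or_pos p.natDegree with h | h
  · rw [natDegree_eq_zero] at h
    obtain ⟨a, rfl⟩ := h
    simp
  · refine natDegree_mul_le.trans ?_
    have h1 := natDegree_derivative_le p
    have h2 := natDegree_X_le (R := ℝ)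
    omega

theorem natDegree_qq (g : ι → ℝ[X]) (s : ℕ) (hs : ∑ l, (g l).natDegree ≤ s) :
    (qq g).natDegree ≤ s := (natDegree_prod_le univ g).trans hs

theorem natDegree_hd (g : ι → ℝ[X]) (e : ι → ℤ) (j s : ℕ)
    (hs : ∑ l, (g l).natDegree ≤ s) : (X * hd g e j).natDegree ≤ s := by
  unfold hd
  rw [mul_sum]
  apply natDegree_sum_le_of_forall_le
  intro l _
  have e1 : X * (C ((e l : ℝ) - j) * ((g l).derivative * ∏ l' ∈ univ.erase l, g l')) =
      C ((e l : ℝ) - j) * ((X * (g l).derivative) * ∏ l' ∈ univ.erase l, g l') := by ring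
  rw [e1]
  refine (natDegree_C_mul_le _ _).trans ?_
  refine natDegree_mul_le.trans ?_
  have h1 := natDegree_X_mul_derivative (g l)
  have h2 := natDegree_prod_le (univ.erase l) g
  have h3 := add_sum_erase univ (fun l => (g l).natDegree) (mem_univ l)
  omega

theorem natDegree_HH (g : ι → ℝ[X]) (e : ι → ℤ) (s : ℕ)
    (hs : ∑ l, (g l).natDegree ≤ s) : ∀ j, (HH g e j).natDegree ≤ j * s := by
  intro j
  induction j with
  | zero => simp [HH]
  | succ j ih =>
    unfold HH
    refine (natDegree_add_le _ _).trans (max_le ?_ ?_)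
    · refine natDegree_mul_le.trans ?_
      have h1 := natDegree_qq g s hs
      have h2 := natDegree_X_mul_derivative (HH g e j)
      rw [add_mul, one_mul]
      omega
    · have e1 : X * (HH g e j * hd g e j) = HH g e j * (X * hd g e j) := by ring
      rw [e1]
      refine natDegree_mul_le.trans ?_
      have h1 := natDegree_hd g e j s hs
      rw [add_mul, one_mul]
      omega

/-- Linear algebra: a nonzero tuple of polynomials of degree at most `d` which kills given
polynomials. -/
theorem exists_kill (m d D : ℕ) (A : Fin m → Fin (m + 1) → ℝ[X])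
    (hA : ∀ i j, (A i j).natDegree + d ≤ D) (hdim : m * (D + 1) < (m + 1) * (d + 1)) :
    ∃ P : Fin (m + 1) → ℝ[X], P ≠ 0 ∧ (∀ j, (P j).natDegree ≤ d) ∧
      ∀ i, ∑ j, P j * A i j = 0 := by
  classical
  let PP : (Fin (m + 1) × Fin (d + 1) → ℝ) → Fin (m + 1) → ℝ[X] := fun v j =>
    ∑ a : Fin (d + 1), C (v (j, a)) * X ^ (a : ℕ)
  let φ : (Fin (m + 1) × Fin (d + 1) → ℝ) →ₗ[ℝ] (Fin m × Fin (D + 1) → ℝ) :=
    { toFun := fun v ir => (∑ j, PP v j * A ir.1 j).coeff ir.2
      map_add' := by
        intro v v'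
        funext ir
        simp only [PP, Pi.add_apply, C_add, add_mul, sum_add_distrib, coeff_add]
      map_smul' := by
        intro b v
        funext ir
        simp only [PP, Pi.smul_apply, smul_eq_mul, C_mul, RingHom.id_apply]
        have e1 : ∀ j, (∑ a : Fin (d + 1), C b * C (v (j, a)) * X ^ (a : ℕ)) * A ir.1 j =
            C b * ((∑ a : Fin (d + 1), C (v (j, a)) * X ^ (a : ℕ)) * A ir.1 j) := by
          intro j
          rw [← mul_assoc, mul_sum]
          congr 1
          apply sum_congr rfl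
          intro a _
          ring
        rw [sum_congr rfl (fun j _ => e1 j), ← mul_sum, coeff_C_mul] }
  have hker : LinearMap.ker φ ≠ ⊥ := by
    apply LinearMap.ker_ne_bot_of_finrank_lt
    rw [Module.finrank_fintype_fun_eq_card, Module.finrank_fintype_fun_eq_card,
      Fintype.card_prod, Fintype.card_prod, Fintype.card_fin, Fintype.card_fin, Fintype.card_fin,
      Fintype.card_fin]
    exact hdim
  obtain ⟨v, hv, hv0⟩ := (Submodule.ne_bot_iff _).1 hker
  have hdeg : ∀ j, (PP v j).natDegree ≤ d := by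
    intro j
    apply natDegree_sum_le_of_forall_le
    intro a _
    refine (natDegree_C_mul_X_pow_le _ _).trans ?_
    have := a.2
    omega
  refine ⟨PP v, ?_, hdeg, ?_⟩
  · intro h0
    apply hv0
    funext ja
    obtain ⟨j, a⟩ := ja
    have h1 : (PP v j).coeff a = 0 := by
      rw [h0]
      simp
    simp only [PP] at h1
    rw [finsetSum_coeff] at h1
    simp only [coeff_C_mul, coeff_X_pow] at h1
    rw [sum_eq_single a] at h1
    · simpa using h1
    · intro b _ hb
      rw [if_neg]
      · ring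
      · intro h
        exact hb (Fin.ext h.symm)
    · intro h
      exact absurd (mem_univ _) h
  · intro i
    ext n
    rw [coeff_zero]
    by_cases hn : n < D + 1
    · have h1 : φ v (i, ⟨n, hn⟩) = 0 := by
        rw [LinearMap.mem_ker] at hv
        rw [hv]
        rfl
      exact h1
    · apply coeff_eq_zero_of_natDegree_lt
      have h2 : (∑ j, PP v j * A i j).natDegree ≤ D := by
        apply natDegree_sum_le_of_forall_le
        intro j _
        refine natDegree_mul_le.trans ?_
        have h3 := hdeg j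
        have h4 := hA i j
        omega
      omega

/-- The gap argument. -/
theorem gap (p m d : ℕ) (R : ℕ → ℝ[X]) (hdeg : ∀ k, (R k).natDegree ≤ d)
    (hsym : ∀ k, k ≤ p → R (p - k) = R k)
    (hsum : ∑ k ∈ range (p + 1), C (p.choose k : ℝ) * R k * X ^ (k * (p - k)) = 0)
    (hp : d + 2 * m + 1 < p) : ∀ k, k ≤ m → R k = 0 := by
  classical
  intro k
  induction k using Nat.strong_induction_on with
  | _ k ih =>
    intro hk
    ext a
    rw [coeff_zero]
    by_cases ha : a ≤ d
    · have h1 := congrArg (fun q : ℝ[X] => q.coeff (k * (p - k) + a)) hsum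
      simp only [finsetSum_coeff, coeff_zero] at h1
      have hne : k ≠ p - k := by omega
      have hsub : ({k, p - k} : Finset ℕ) ⊆ range (p + 1) := by
        intro x hx
        rw [mem_insert, mem_singleton] at hx
        rw [mem_range]
        omega
      rw [← sum_subset hsub] at h1
      · rw [sum_pair hne] at h1
        have e1 : p - (p - k) = k := by omega
        rw [e1, hsym k (by omega), mul_comm (p - k) k, Nat.choose_symm (by omega : k ≤ p),
          coeff_mul_X_pow', if_pos (Nat.le_add_right _ _), Nat.add_sub_cancel_left,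
          coeff_C_mul] at h1
        have h2 : (0 : ℝ) < p.choose k := by
          exact_mod_cast Nat.choose_pos (by omega : k ≤ p)
        have h3 : (p.choose k : ℝ) * (R k).coeff a = 0 := by linarith
        rcases mul_eq_zero.1 h3 with h4 | h4
        · exact absurd h4 h2.ne'
        · exact h4
      · intro x hx hx2
        rw [mem_range] at hx
        rw [mem_insert, mem_singleton, not_or] at hx2
        by_cases hxk : x < k
        · rw [ih x hxk (by omega)]
          simp
        · by_cases hxk2 : p - k < x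
          · have h5 : R (p - x) = R x := hsym x (by omega)
            rw [← h5, ih (p - x) (by omega) (by omega)]
            simp
          · rw [coeff_mul_X_pow', if_neg]
            obtain ⟨y, rfl⟩ : ∃ y, x = k + 1 + y := ⟨x - (k + 1), by omega⟩
            obtain ⟨z, hz⟩ : ∃ z, p = (k + 1 + y) + (k + 1 + z) :=
              ⟨p - (k + 1 + y) - (k + 1), by omega⟩
            have e2 : p - (k + 1 + y) = k + 1 + z := by omega
            have e3 : p - k = k + 2 + y + z := by omega
            rw [e2, e3]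
            have h6 : (k + 1 + y) * (k + 1 + z) = k * (k + 2 + y + z) + (y + z + 1) + y * z := by
              ring
            rw [h6]
            have h7 : a < y + z + 1 := by omega
            have h8 : 0 ≤ y * z := Nat.zero_le _
            omega
    · exact coeff_eq_zero_of_natDegree_lt (lt_of_le_of_lt (hdeg k) (by omega))

theorem uu_steps (g : ι → ℝ[X]) (e : ι → ℤ) (t : ℝ) (hpos : ∀ l, 0 < (g l).eval t)
    (m : ℕ) : ∀ i, i ≤ m → uu g e (m - i) t = (qq g).eval t ^ i * uu g e m t := by
  intro i
  induction i with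
  | zero => simp
  | succ i ih =>
    intro hi
    rw [uu_step g e (m - (i + 1)) t hpos]
    have e1 : m - (i + 1) + 1 = m - i := by omega
    rw [e1, ih (by omega)]
    ring

/-- The sum `∑ C(p, k) t^(k (p - k))` has no expression with `m` power products of polynomials of
total degree at most `s` if `p` is large. -/
theorem no_rep (p m s : ℕ) (g : ι → ℝ[X]) (hs : ∑ l, (g l).natDegree ≤ s)
    (hpos : ∀ l, ∀ t ∈ Set.Ioo (0 : ℝ) 1, 0 < (g l).eval t) (c : Fin m → ℝ)
    (e : Fin m → ι → ℤ) (hp : m ^ 2 * s + 2 * m + 1 < p)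
    (h : ∀ t ∈ Set.Ioo (0 : ℝ) 1, ∑ k ∈ range (p + 1), (p.choose k : ℝ) * t ^ (k * (p - k)) =
      ∑ i, c i * ∏ l, (g l).eval t ^ e i l) : False := by
  classical
  have h0 : ∀ t ∈ Set.Ioo (0 : ℝ) 1, ∑ k ∈ range (p + 1), (p.choose k : ℝ) * t ^ (k * (p - k)) =
      ∑ i, c i * uu g (e i) 0 t := by
    intro t ht
    rw [h t ht]
    apply sum_congr rfl
    intro i _
    unfold uu
    simp
  have hkey := key (range (p + 1)) (fun k => (p.choose k : ℝ)) (fun k => k * (p - k)) m g hpos c e
    h0
  obtain ⟨P, hP0, hPd, hPk⟩ := exists_kill m (m ^ 2 * s) (m ^ 2 * s + m * s)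
    (fun i j => qq g ^ (m - (j : ℕ)) * HH g (e i) j) (by
      intro i j
      have h1 := natDegree_HH g (e i) s hs j
      have h2 : (qq g ^ (m - (j : ℕ))).natDegree ≤ (m - j) * s :=
        natDegree_pow_le.trans (Nat.mul_le_mul_left _ (natDegree_qq g s hs))
      have h3 : (qq g ^ (m - (j : ℕ)) * HH g (e i) j).natDegree ≤ m * s := by
        refine natDegree_mul_le.trans ?_
        have h4 : (m - (j : ℕ)) * s + j * s = m * s := by
          rw [← add_mul]
          congr 1
          have := j.2
          omega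
        omega
      omega) (by
      have e1 : m * (m ^ 2 * s + m * s + 1) + 1 = (m + 1) * (m ^ 2 * s + 1) := by ring
      omega)
  let R : ℕ → ℝ[X] := fun k => ∑ j : Fin (m + 1), P j * C (((k * (p - k) : ℕ) : ℝ) ^ (j : ℕ))
  have hRdeg : ∀ k, (R k).natDegree ≤ m ^ 2 * s := by
    intro k
    apply natDegree_sum_le_of_forall_le
    intro j _
    exact (natDegree_mul_C_le _ _).trans (hPd j)
  have hRsym : ∀ k, k ≤ p → R (p - k) = R k := by
    intro k hk
    simp only [R]
    have e1 : p - (p - k) = k := by omega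
    rw [e1, mul_comm (p - k) k]
  have hRsum : ∑ k ∈ range (p + 1), C (p.choose k : ℝ) * R k * X ^ (k * (p - k)) = 0 := by
    apply eq_zero_of_infinite_isRoot
    apply Set.Infinite.mono _ (Set.Ioo_infinite (show (0 : ℝ) < 1 by norm_num))
    intro t ht
    rw [Set.mem_setOf_eq, IsRoot.def, eval_finset_sum]
    have e1 : ∀ k ∈ range (p + 1), (C (p.choose k : ℝ) * R k * X ^ (k * (p - k))).eval t =
        ∑ j : Fin (m + 1), (P j).eval t * ((p.choose k : ℝ) *
          (((k * (p - k) : ℕ) : ℝ)) ^ (j : ℕ) * t ^ (k * (p - k))) := by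
      intro k _
      simp only [R, eval_mul, eval_C, eval_finset_sum, eval_pow, eval_X]
      rw [mul_sum, sum_mul]
      apply sum_congr rfl
      intro j _
      ring
    rw [sum_congr rfl e1, sum_comm]
    have e2 : ∀ j : Fin (m + 1), ∑ k ∈ range (p + 1), (P j).eval t * ((p.choose k : ℝ) *
          (((k * (p - k) : ℕ) : ℝ)) ^ (j : ℕ) * t ^ (k * (p - k))) =
        ∑ i, c i * uu g (e i) m t * (P j * (qq g ^ (m - (j : ℕ)) * HH g (e i) j)).eval t := by
      intro j
      rw [← mul_sum, hkey j t ht, mul_sum]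
      apply sum_congr rfl
      intro i _
      have hjm : m - (m - (j : ℕ)) = j := by
        have := j.2
        omega
      have h5 := uu_steps g (e i) t (fun l => hpos l t ht) m (m - j) (Nat.sub_le _ _)
      rw [hjm] at h5
      rw [h5]
      simp only [eval_mul, eval_pow]
      ring
    rw [sum_congr rfl (fun j _ => e2 j), sum_comm]
    apply sum_eq_zero
    intro i _
    rw [← mul_sum, ← eval_finset_sum, hPk i, eval_zero, mul_zero]
  have hR0 := gap p m (m ^ 2 * s) R hRdeg hRsym hRsum hp
  -- the polynomial in the second variable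
  let Q : ℝ[X][X] := ∑ j : Fin (m + 1), C (P j) * X ^ (j : ℕ)
  have hQdeg : Q.natDegree ≤ m := by
    apply natDegree_sum_le_of_forall_le
    intro j _
    refine (natDegree_C_mul_X_pow_le _ _).trans ?_
    have := j.2
    omega
  have hQ : Q = 0 := by
    apply eq_zero_of_natDegree_lt_card_of_eval_eq_zero Q
      (f := fun k : Fin (m + 1) => C ((((k : ℕ) * (p - k) : ℕ) : ℝ)))
    · intro k k' hkk
      have h1 := C_injective hkk
      have h2 : (k : ℕ) * (p - k) = k' * (p - k') := by exact_mod_cast h1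
      apply Fin.ext
      have hk := k.2
      have hk' := k'.2
      have h3 : ∀ a b : ℕ, a < b → b ≤ m → a * (p - a) < b * (p - b) := by
        intro a b hab hb
        obtain ⟨y, rfl⟩ : ∃ y, b = a + 1 + y := ⟨b - (a + 1), by omega⟩
        obtain ⟨z, hz⟩ : ∃ z, p = 2 * (a + 1 + y) + z := ⟨p - 2 * (a + 1 + y), by omega⟩
        have e1 : p - (a + 1 + y) = a + 1 + y + z := by omega
        have e2 : p - a = a + 2 + 2 * y + z := by omega
        rw [e1, e2]
        nlinarith
      rcases lt_trichotomy (k : ℕ) k' with h4 | h4 | h4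
      · have := h3 k k' h4 (by omega)
        omega
      · exact h4
      · have := h3 k' k h4 (by omega)
        omega
    · intro k
      have h1 := hR0 k (by have := k.2; omega)
      simp only [Q, eval_finset_sum, eval_mul, eval_C, eval_pow, eval_X]
      simp only [R] at h1
      rw [← h1]
      apply sum_congr rfl
      intro j _
      rw [C_pow]
    · rw [Fintype.card_fin]
      omega
  apply hP0
  funext j
  have h1 : Q.coeff j = P j := by
    simp only [Q]
    rw [finsetSum_coeff]
    simp only [coeff_C_mul, coeff_X_pow]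
    rw [sum_eq_single j]
    · simp
    · intro b _ hb
      rw [if_neg]
      · ring
      · intro h
        exact hb (Fin.ext h.symm)
    · intro h
      exact absurd (mem_univ _) h
  rw [← h1, hQ]
  simp

end Pool.Agent.Q149.EGode
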