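import Pool.Agent.Q149.EGode

/-!
# The change of variables `x = (1 - t) / (1 + t)`
-/

set_option autoImplicit false

namespace Pool.Agent.Q149.EGtrans

open Finset Polynomial

variable {ι : Type} [Fintype ι] [DecidableEq ι]

/-- The polynomial `(1 + t)^d g ((1 - t) / (1 + t))`. -/
noncomputable def tr (g : ℝ[X]) : ℝ[X] :=
  ∑ a ∈ range (g.natDegree + 1), C (g.coeff a) * ((1 - X) ^ a * (1 + X) ^ (g.natDegree - a))

theorem tr_natDegree (g : ℝ[X]) : (tr g).natDegree ≤ g.natDegree := by
  unfold tr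
  apply natDegree_sum_le_of_forall_le
  intro a ha
  rw [mem_range] at ha
  refine (natDegree_C_mul_le _ _).trans ?_
  refine natDegree_mul_le.trans ?_
  have h1 : ((1 - X : ℝ[X]) ^ a).natDegree ≤ a := by
    refine natDegree_pow_le.trans ?_
    have : (1 - X : ℝ[X]).natDegree ≤ 1 := by
      refine (natDegree_sub_le _ _).trans ?_
      simp
    nlinarith
  have h2 : ((1 + X : ℝ[X]) ^ (g.natDegree - a)).natDegree ≤ g.natDegree - a := by
    refine natDegree_pow_le.trans ?_
    have : (1 + X : ℝ[X]).natDegree ≤ 1 := by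
      refine (natDegree_add_le _ _).trans ?_
      simp
    nlinarith
  omega

theorem tr_eval (g : ℝ[X]) (t : ℝ) (ht : 0 < 1 + t) :
    (tr g).eval t = (1 + t) ^ g.natDegree * g.eval ((1 - t) / (1 + t)) := by
  unfold tr
  rw [eval_finset_sum, eval_eq_sum_range, mul_sum]
  apply sum_congr rfl
  intro a ha
  rw [mem_range] at ha
  simp only [eval_mul, eval_C, eval_pow, eval_sub, eval_add, eval_one, eval_X]
  have h1 : (1 + t) ^ g.natDegree = (1 + t) ^ (g.natDegree - a) * (1 + t) ^ a := by
    rw [← pow_add]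
    congr 1
    omega
  rw [h1, div_pow]
  field_simp

/-- Expressions in `x`. -/
theorem no_rep_x (p m s N : ℕ) (hN : ∀ k, k ≤ p → k * (p - k) ≤ N) (g : ι → ℝ[X])
    (hs : ∑ l, (g l).natDegree ≤ s)
    (hpos : ∀ l, ∀ x ∈ Set.Ioo (0 : ℝ) 1, 0 < (g l).eval x) (c : Fin m → ℝ)
    (e : Fin m → ι → ℤ) (hp : m ^ 2 * (s + 1) + 2 * m + 1 < p)
    (h : ∀ x ∈ Set.Ioo (0 : ℝ) 1, ∑ k ∈ range (p + 1), (p.choose k : ℝ) *
      ((1 + x) ^ (N - k * (p - k)) * (1 - x) ^ (k * (p - k))) =
      ∑ i, c i * ∏ l, (g l).eval x ^ e i l) : False := by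
  let g' : Option ι → ℝ[X] := fun o => o.elim (1 + X) (fun l => tr (g l))
  let e' : Fin m → Option ι → ℤ := fun i o =>
    o.elim ((N : ℤ) - ∑ l, ((g l).natDegree : ℤ) * e i l) (fun l => e i l)
  apply EGode.no_rep (ι := Option ι) p m (s + 1) g' ?_ ?_ (fun i => c i / 2 ^ N) e' hp
  · intro t ht
    have ht0 : 0 < t := ht.1
    have ht1 : t < 1 := ht.2
    have h1t : 0 < 1 + t := by linarith
    set x : ℝ := (1 - t) / (1 + t) with hx
    have hx0 : 0 < x := div_pos (by linarith) h1t
    have hx1 : x < 1 := by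
      rw [hx, div_lt_one h1t]
      linarith
    have e1 : 1 + x = 2 / (1 + t) := by
      rw [hx]
      field_simp
      ring
    have e2 : 1 - x = 2 / (1 + t) * t := by
      rw [hx]
      field_simp
      ring
    have h1 := h x ⟨hx0, hx1⟩
    have h2 : ∑ k ∈ range (p + 1), (p.choose k : ℝ) *
        ((1 + x) ^ (N - k * (p - k)) * (1 - x) ^ (k * (p - k))) =
        (2 / (1 + t)) ^ N * ∑ k ∈ range (p + 1), (p.choose k : ℝ) * t ^ (k * (p - k)) := by
      rw [mul_sum]
      apply sum_congr rfl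
      intro k hk
      rw [mem_range] at hk
      rw [e1, e2, mul_pow]
      have h3 : (2 / (1 + t)) ^ N = (2 / (1 + t)) ^ (N - k * (p - k)) *
          (2 / (1 + t)) ^ (k * (p - k)) := by
        rw [← pow_add]
        congr 1
        have := hN k (by omega)
        omega
      rw [h3]
      ring
    have h4 : ∑ k ∈ range (p + 1), (p.choose k : ℝ) * t ^ (k * (p - k)) =
        ((1 + t) / 2) ^ N * ∑ i, c i * ∏ l, (g l).eval x ^ e i l := by
      rw [← h1, h2, ← mul_assoc, ← mul_pow]
      have : (1 + t) / 2 * (2 / (1 + t)) = 1 := by field_simp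
      rw [this, one_pow, one_mul]
    rw [h4, mul_sum]
    apply sum_congr rfl
    intro i _
    rw [Fintype.prod_option]
    have h5 : (g' none).eval t ^ e' i none =
        (1 + t) ^ ((N : ℤ) - ∑ l, ((g l).natDegree : ℤ) * e i l) := by
      show ((1 + X : ℝ[X]).eval t) ^ ((N : ℤ) - ∑ l, ((g l).natDegree : ℤ) * e i l) = _
      rw [eval_add, eval_one, eval_X]
    have h6 : ∏ l, (g' (some l)).eval t ^ e' i (some l) =
        (∏ l, (1 + t) ^ (((g l).natDegree : ℤ) * e i l)) * ∏ l, (g l).eval x ^ e i l := by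
      rw [← prod_mul_distrib]
      apply prod_congr rfl
      intro l _
      show ((tr (g l)).eval t) ^ e i l = _
      rw [tr_eval (g l) t h1t, mul_zpow, zpow_mul, zpow_natCast]
    have h7 : ∏ l, (1 + t) ^ (((g l).natDegree : ℤ) * e i l) =
        (1 + t) ^ (∑ l, ((g l).natDegree : ℤ) * e i l) := by
      have h8 : ∀ A : Finset ι, ∏ l ∈ A, (1 + t) ^ (((g l).natDegree : ℤ) * e i l) =
          (1 + t) ^ (∑ l ∈ A, ((g l).natDegree : ℤ) * e i l) := by
        intro A
        induction A using Finset.induction_on with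
        | empty => simp
        | insert a A ha ih => rw [prod_insert ha, sum_insert ha, ih, zpow_add₀ h1t.ne']
      exact h8 univ
    rw [h5, h6, h7, zpow_sub₀ h1t.ne', zpow_natCast]
    have h9 : (1 + t) ^ (∑ l, ((g l).natDegree : ℤ) * e i l) ≠ 0 := (zpow_pos h1t _).ne'
    rw [div_pow]
    field_simp
  · rw [Fintype.sum_option]
    have h1 : (g' none).natDegree ≤ 1 := by
      show (1 + X : ℝ[X]).natDegree ≤ 1
      refine (natDegree_add_le _ _).trans ?_
      simp
    have h2 : ∑ l, (g' (some l)).natDegree ≤ s :=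
      (sum_le_sum (fun l _ => tr_natDegree (g l))).trans hs
    omega
  · intro o t ht
    have h1t : 0 < 1 + t := by linarith [ht.1]
    rcases o with _ | l
    · show 0 < (1 + X : ℝ[X]).eval t
      rw [eval_add, eval_one, eval_X]
      exact h1t
    · show 0 < (tr (g l)).eval t
      rw [tr_eval (g l) t h1t]
      apply mul_pos (by positivity)
      apply hpos l
      refine ⟨div_pos (by linarith [ht.2]) h1t, ?_⟩
      rw [div_lt_one h1t]
      linarith [ht.1]

end Pool.Agent.Q149.EGtrans
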