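import Pool.Agent.Y875.FP.MerH

/-!
Congruences modulo `2^n` in the ring of rational numbers with odd denominator, sums with signs.
-/

namespace Pool.Agent.Q149.FB

/-- `x ≡ y` modulo `2^n`, in the ring of rational numbers with odd denominator. -/
def Cg (n : ℕ) (x y : ℚ) : Prop := ∃ d k : ℤ, Odd d ∧ (d : ℚ) * (x - y) = 2 ^ n * k

lemma Cg.refl (n : ℕ) (x : ℚ) : Cg n x x := ⟨1, 0, odd_one, by simp⟩

lemma Cg.symm {n : ℕ} {x y : ℚ} (h : Cg n x y) : Cg n y x := by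
  obtain ⟨d, k, hd, h⟩ := h
  refine ⟨d, -k, hd, ?_⟩
  push_cast
  linear_combination -h

lemma Cg.trans {n : ℕ} {x y z : ℚ} (h : Cg n x y) (h' : Cg n y z) : Cg n x z := by
  obtain ⟨d, k, hd, h⟩ := h
  obtain ⟨d', k', hd', h'⟩ := h'
  refine ⟨d * d', d' * k + d * k', hd.mul hd', ?_⟩
  push_cast
  linear_combination (d' : ℚ) * h + (d : ℚ) * h'

lemma Cg.add {n : ℕ} {x y x' y' : ℚ} (h : Cg n x y) (h' : Cg n x' y') :
    Cg n (x + x') (y + y') := by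
  obtain ⟨d, k, hd, h⟩ := h
  obtain ⟨d', k', hd', h'⟩ := h'
  refine ⟨d * d', d' * k + d * k', hd.mul hd', ?_⟩
  push_cast
  linear_combination (d' : ℚ) * h + (d : ℚ) * h'

lemma Cg.mul_int {n : ℕ} {x y : ℚ} (h : Cg n x y) (c : ℤ) : Cg n (c * x) (c * y) := by
  obtain ⟨d, k, hd, h⟩ := h
  refine ⟨d, c * k, hd, ?_⟩
  push_cast
  linear_combination (c : ℚ) * h

lemma Cg.neg {n : ℕ} {x y : ℚ} (h : Cg n x y) : Cg n (-x) (-y) := by
  have := h.mul_int (-1)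
  simpa using this

lemma Cg.sub {n : ℕ} {x y x' y' : ℚ} (h : Cg n x y) (h' : Cg n x' y') :
    Cg n (x - x') (y - y') := by
  rw [sub_eq_add_neg, sub_eq_add_neg]
  exact h.add h'.neg

lemma Cg.of_eq {n : ℕ} {x y : ℚ} (h : x = y) : Cg n x y := h ▸ Cg.refl n x

lemma Cg.mono {n n' : ℕ} (hn : n ≤ n') {x y : ℚ} (h : Cg n' x y) : Cg n x y := by
  obtain ⟨d, k, hd, h⟩ := h
  refine ⟨d, 2 ^ (n' - n) * k, hd, ?_⟩
  rw [h]
  push_cast
  rw [← mul_assoc, ← pow_add, Nat.add_sub_cancel' hn]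

lemma Cg.sum_zero {n : ℕ} {ι : Type} (S : Finset ι) (f : ι → ℚ) (h : ∀ i ∈ S, Cg n (f i) 0) :
    Cg n (∑ i ∈ S, f i) 0 := by
  classical
  induction S using Finset.induction_on with
  | empty => simpa using Cg.refl n 0
  | insert a S ha ih =>
    rw [Finset.sum_insert ha]
    have h1 := h a (Finset.mem_insert_self _ _)
    have h2 := ih (fun i hi => h i (Finset.mem_insert_of_mem hi))
    simpa using h1.add h2

lemma Cg.dvd {n : ℕ} {a b : ℤ} (h : Cg n a b) : (2 : ℤ) ^ n ∣ a - b := by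
  obtain ⟨d, k, hd, h⟩ := h
  have h1 : d * (a - b) = 2 ^ n * k := by exact_mod_cast h
  have hcop : IsCoprime ((2 : ℤ) ^ n) (d : ℤ) := by
    apply IsCoprime.pow_left
    obtain ⟨c, hc⟩ := hd
    exact ⟨-c, 1, by rw [hc]; ring⟩
  exact hcop.dvd_of_dvd_mul_left (Dvd.intro _ h1.symm)

lemma Cg.of_dvd {n : ℕ} {a b : ℤ} (h : (2 : ℤ) ^ n ∣ a - b) : Cg n a b := by
  obtain ⟨k, hk⟩ := h
  refine ⟨1, k, odd_one, ?_⟩
  have : ((a - b : ℤ) : ℚ) = ((2 ^ n * k : ℤ) : ℚ) := by rw [hk]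
  push_cast at this ⊢
  linear_combination this

/-- A term `2^A / l`. -/
lemma cg_term {n A l e o : ℕ} (ho : Odd o) (hl : l = 2 ^ e * o) (h : n + e ≤ A) (c : ℤ) :
    Cg n (c * ((2 : ℚ) ^ A / l)) 0 := by
  refine ⟨o, c * 2 ^ (A - e - n), by exact_mod_cast ho, ?_⟩
  have h1 : A = n + (A - e - n) + e := by omega
  have h2 : ((l : ℕ) : ℚ) = 2 ^ e * (o : ℚ) := by rw [hl]; push_cast; ring
  have ho0 : (o : ℚ) ≠ 0 := by
    have := ho.pos
    positivity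
  rw [h2]
  conv_lhs => rw [h1]
  rw [pow_add, pow_add]
  push_cast
  field_simp
  ring

lemma cg_term' {n A l : ℕ} (hl : 0 < l) (h : n + l ≤ A + 1) (c : ℤ) :
    Cg n (c * ((2 : ℚ) ^ A / l)) 0 := by
  obtain ⟨e, o, ho, he⟩ := Nat.exists_eq_two_pow_mul_odd hl.ne'
  refine cg_term ho he ?_ c
  have h1 : e < 2 ^ e := Nat.lt_two_pow_self
  have h2 : 2 ^ e ≤ 2 ^ e * o := Nat.le_mul_of_pos_right _ ho.pos
  omega

lemma cg_term_odd {n A l : ℕ} (hl : Odd l) (h : n ≤ A) (c : ℤ) :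
    Cg n (c * ((2 : ℚ) ^ A / l)) 0 :=
  cg_term (e := 0) hl (by simp) (by simpa using h) c

/-- The sign: `+1` if `t` modulo `2 M` is less than `M`. -/
def sg (M t : ℕ) : ℤ := if t % (2 * M) < M then 1 else -1

lemma sg_or (M t : ℕ) : sg M t = 1 ∨ sg M t = -1 := by
  unfold sg
  split_ifs <;> simp

lemma sg_congr {M t t' : ℕ} (h : t % (2 * M) = t' % (2 * M)) : sg M t = sg M t' := by
  unfold sg
  rw [h]

lemma sg_add {M t : ℕ} (hM : 0 < M) : sg M (t + M) = - sg M t := by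
  unfold sg
  have h0 : t % (2 * M) < 2 * M := Nat.mod_lt _ (by omega)
  have h1 : (t + M) % (2 * M) = if t % (2 * M) < M then t % (2 * M) + M else t % (2 * M) - M := by
    rw [Nat.add_mod, Nat.mod_eq_of_lt (show M < 2 * M by omega)]
    split_ifs with h
    · rw [Nat.mod_eq_of_lt (by omega)]
    · rw [Nat.mod_eq_sub_mod (by omega), Nat.mod_eq_of_lt (by omega)]
      omega
  rw [h1]
  split_ifs <;> first | rfl | omega | simp

lemma sg_double (M t : ℕ) : sg (2 * M) (2 * t) = sg M t := by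
  unfold sg
  rw [Nat.mul_mod_mul_left 2 t (2 * M)]
  by_cases h : t % (2 * M) < M
  · rw [if_pos h, if_pos (by omega)]
  · rw [if_neg h, if_neg (by omega)]

/-- The truncated logarithmic series with signs. -/
def BB (M x c : ℕ) : ℚ :=
  ∑ l ∈ Finset.Icc 1 M, (sg M (l * c) : ℚ) * ((x : ℚ) ^ l / l)

lemma BB_congr {M x c c' : ℕ} (h : c % (2 * M) = c' % (2 * M)) : BB M x c = BB M x c' := by
  unfold BB
  refine Finset.sum_congr rfl fun l _ => ?_
  rw [sg_congr (M := M) (t := l * c) (t' := l * c')]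
  rw [Nat.mul_mod, h, ← Nat.mul_mod]

/-- Sum over `1..2M'`: even and odd part. -/
lemma sum_even_odd (M : ℕ) (f : ℕ → ℚ) :
    ∑ l ∈ Finset.Icc 1 (2 * M), f l =
      ∑ l ∈ Finset.Icc 1 M, f (2 * l) + ∑ l ∈ Finset.Icc 1 M, f (2 * l - 1) := by
  induction M with
  | zero => simp
  | succ M ih =>
    rw [show 2 * (M + 1) = 2 * M + 1 + 1 by ring, Finset.sum_Icc_succ_top (by omega),
      Finset.sum_Icc_succ_top (by omega), ih, Finset.sum_Icc_succ_top (by omega),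
      Finset.sum_Icc_succ_top (by omega)]
    rw [show 2 * (M + 1) - 1 = 2 * M + 1 by omega, show 2 * (M + 1) = 2 * M + 1 + 1 by ring]
    ring

/-- The recursion. -/
lemma BB_rec {M x s c c' : ℕ} (hM : 0 < M) (hc : Odd c)
    (hcc : c' % (2 * (2 * M)) = (c + 2 * M) % (2 * (2 * M))) :
    (s : ℚ) * BB (2 * M) x c + ((s + 2 * M : ℕ) : ℚ) * BB (2 * M) x c' =
      s * BB M (x ^ 2) c + M * BB M (x ^ 2) c -
        2 * M * ∑ l ∈ Finset.Icc 1 M,
          (sg (2 * M) ((2 * l - 1) * c) : ℚ) * ((x : ℚ) ^ (2 * l - 1) / ((2 * l - 1 : ℕ) : ℚ)) := by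
  rw [BB_congr hcc]
  unfold BB
  rw [sum_even_odd, sum_even_odd]
  have h1 : ∀ l : ℕ, sg (2 * M) (2 * l * (c + 2 * M)) = sg M (l * c) := by
    intro l
    rw [mul_assoc, sg_double]
    apply sg_congr
    rw [show l * (c + 2 * M) = l * c + l * (2 * M) by ring, Nat.add_mul_mod_self_right]
  have h2 : ∀ l : ℕ, sg (2 * M) (2 * l * c) = sg M (l * c) := by
    intro l
    rw [mul_assoc, sg_double]
  have h3 : ∀ l : ℕ, 1 ≤ l → sg (2 * M) ((2 * l - 1) * (c + 2 * M)) =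
      - sg (2 * M) ((2 * l - 1) * c) := by
    intro l hl
    rw [← sg_add (M := 2 * M) (by omega)]
    apply sg_congr
    obtain ⟨k, rfl⟩ : ∃ k, l = k + 1 := ⟨l - 1, by omega⟩
    rw [show 2 * (k + 1) - 1 = 2 * k + 1 by omega,
      show (2 * k + 1) * (c + 2 * M) = (2 * k + 1) * c + 2 * M + k * (2 * (2 * M)) by ring,
      Nat.add_mul_mod_self_right]
  have e1 : ∑ l ∈ Finset.Icc 1 M, (sg (2 * M) (2 * l * (c + 2 * M)) : ℚ) *
      ((x : ℚ) ^ (2 * l) / ((2 * l : ℕ) : ℚ)) =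
      (1 / 2) * ∑ l ∈ Finset.Icc 1 M, (sg M (l * c) : ℚ) * (((x ^ 2 : ℕ) : ℚ) ^ l / l) := by
    rw [Finset.mul_sum]
    refine Finset.sum_congr rfl fun l _ => ?_
    rw [h1]
    push_cast
    rw [← pow_mul]
    ring
  have e2 : ∑ l ∈ Finset.Icc 1 M, (sg (2 * M) (2 * l * c) : ℚ) *
      ((x : ℚ) ^ (2 * l) / ((2 * l : ℕ) : ℚ)) =
      (1 / 2) * ∑ l ∈ Finset.Icc 1 M, (sg M (l * c) : ℚ) * (((x ^ 2 : ℕ) : ℚ) ^ l / l) := by
    rw [Finset.mul_sum]
    refine Finset.sum_congr rfl fun l _ => ?_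
    rw [h2]
    push_cast
    rw [← pow_mul]
    ring
  have e3 : ∑ l ∈ Finset.Icc 1 M, (sg (2 * M) ((2 * l - 1) * (c + 2 * M)) : ℚ) *
      ((x : ℚ) ^ (2 * l - 1) / ((2 * l - 1 : ℕ) : ℚ)) =
      - ∑ l ∈ Finset.Icc 1 M, (sg (2 * M) ((2 * l - 1) * c) : ℚ) *
      ((x : ℚ) ^ (2 * l - 1) / ((2 * l - 1 : ℕ) : ℚ)) := by
    rw [← Finset.sum_neg_distrib]
    refine Finset.sum_congr rfl fun l hl => ?_
    rw [h3 l (Finset.mem_Icc.mp hl).1]
    push_cast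
    ring
  rw [e1, e2, e3]
  push_cast
  ring

end Pool.Agent.Q149.FB
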