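import Pool.Agent.Q149.FBA

/-!
The index of `2^a - 1` modulo a Fermat prime, `a` even: induction on the `2`-part of `a`.
-/

namespace Pool.Agent.Q149.FB

open Pool.Agent.Y875.FP

/-- `E` is the index of `2^a - 1`. -/
def IsE (m a E : ℕ) : Prop :=
  ((2 : ZMod (Nat.fermatNumber m)) ^ a - 1) ^ (2 ^ (2 ^ m - (m + 1))) = 2 ^ E

def Claim (m j : ℕ) (κ : ℕ → ℤ) : Prop := ∀ s c : ℕ, Odd s → s * c % 2 ^ (m + 1) = 1 →
  ∃ E : ℕ, Cg (m + 3) (4 * E) (s * BB (2 ^ (m - j)) (2 ^ (2 ^ j)) c + κ c) ∧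
    ((Nat.fermatNumber m).Prime → IsE m (2 ^ j * s) E)

lemma Cg.sum_split {n : ℕ} {S T : Finset ℕ} (hT : T ⊆ S) (f : ℕ → ℚ)
    (h : ∀ l ∈ S, l ∉ T → Cg n (f l) 0) : Cg n (∑ l ∈ S, f l) (∑ l ∈ T, f l) := by
  rw [← Finset.sum_sdiff hT]
  have h1 : Cg n (∑ l ∈ S \ T, f l) 0 :=
    Cg.sum_zero _ f (fun l hl => h l (Finset.mem_sdiff.mp hl).1 (Finset.mem_sdiff.mp hl).2)
  simpa using h1.add (Cg.refl n (∑ l ∈ T, f l))

lemma two_pow_two_pow (m : ℕ) : (2 : ZMod (Nat.fermatNumber m)) ^ (2 ^ m) = -1 := by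
  have h1 : ((Nat.fermatNumber m : ℕ) : ZMod (Nat.fermatNumber m)) = 0 := ZMod.natCast_self _
  unfold Nat.fermatNumber at h1 ⊢
  push_cast at h1
  linear_combination h1

lemma big {m : ℕ} (hm : 4 ≤ m) : 2 * m + 4 ≤ 2 ^ m := by
  induction m, hm using Nat.le_induction with
  | base => norm_num
  | succ m hm ih => rw [pow_succ]; omega

lemma evenT {m : ℕ} (hm : 4 ≤ m) : Even (2 ^ (2 ^ m - (m + 1))) := by
  have := big hm
  apply Even.pow_of_ne_zero even_two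
  omega

lemma isE_double {m a E E' : ℕ} (hm : 4 ≤ m) (h : IsE m a E) (h' : IsE m (a + 2 ^ m) E') :
    IsE m (2 * a) (E + E') := by
  unfold IsE at h h' ⊢
  rw [pow_add, ← h, ← h', ← mul_pow]
  have h1 : ((2 : ZMod (Nat.fermatNumber m)) ^ a - 1) * (2 ^ (a + 2 ^ m) - 1) =
      - (2 ^ (2 * a) - 1) := by
    rw [pow_add, two_pow_two_pow, two_mul, pow_add]
    ring
  rw [h1, (evenT hm).neg_pow]

lemma exists_inv {m s : ℕ} (hs : Odd s) : ∃ c : ℕ, s * c % 2 ^ (m + 1) = 1 := by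
  have hcop : Nat.Coprime s (2 ^ (m + 1)) := by
    apply Nat.Coprime.pow_right
    rw [Nat.coprime_two_right]
    exact hs
  have h1 : 1 < 2 ^ (m + 1) := Nat.one_lt_two_pow (by omega)
  exact (Nat.exists_mul_mod_eq_one_of_coprime hcop h1).imp fun c hc => hc.2

lemma odd_inv {m s c : ℕ} (h : s * c % 2 ^ (m + 1) = 1) : Odd c := by
  have h1 : s * c % 2 = 1 := by
    have h2 : (2 : ℕ) ∣ 2 ^ (m + 1) := dvd_pow_self 2 (by omega)
    have h3 := Nat.mod_mod_of_dvd (s * c) h2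
    rw [h] at h3
    omega
  have h4 : Odd (s * c) := Nat.odd_iff.mpr h1
  exact (Nat.odd_mul.mp h4).2

lemma inv_rel {m r s c c' : ℕ} (hr : r ≤ m) (hr1 : 1 ≤ r) (hs : Odd s)
    (h : s * c % 2 ^ (m + 1) = 1) (h' : (s + 2 ^ r) * c' % 2 ^ (m + 1) = 1) :
    c' % (2 * 2 ^ r) = (c + 2 ^ r) % (2 * 2 ^ r) := by
  have hd : 2 * 2 ^ r ∣ 2 ^ (m + 1) := by
    rw [← pow_succ']
    exact pow_dvd_pow 2 (by omega)
  have h1 : s * c ≡ 1 [MOD 2 * 2 ^ r] := by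
    have : s * c ≡ 1 [MOD 2 ^ (m + 1)] := by
      unfold Nat.ModEq
      rw [h, Nat.mod_eq_of_lt (Nat.one_lt_two_pow (by omega))]
    exact this.of_dvd hd
  have h2 : (s + 2 ^ r) * c' ≡ 1 [MOD 2 * 2 ^ r] := by
    have : (s + 2 ^ r) * c' ≡ 1 [MOD 2 ^ (m + 1)] := by
      unfold Nat.ModEq
      rw [h', Nat.mod_eq_of_lt (Nat.one_lt_two_pow (by omega))]
    exact this.of_dvd hd
  have hc := odd_inv h
  have h3 : (s + 2 ^ r) * (c + 2 ^ r) ≡ 1 [MOD 2 * 2 ^ r] := by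
    obtain ⟨k, hk⟩ := hs.add_odd hc
    have e1 : (s + 2 ^ r) * (c + 2 ^ r) = s * c + (2 * 2 ^ r) * (k + 2 ^ (r - 1)) := by
      have e2 : (2 : ℕ) ^ r = 2 * 2 ^ (r - 1) := by
        rw [← pow_succ']
        congr 1
        omega
      have e3 : (s + 2 ^ r) * (c + 2 ^ r) = s * c + 2 ^ r * (s + c) + 2 ^ r * 2 ^ r := by ring
      rw [e3, hk, e2]
      ring
    rw [e1]
    exact (Nat.ModEq.symm (by
      have := Nat.ModEq.add_right ((2 * 2 ^ r) * (k + 2 ^ (r - 1))) h1.symm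
      refine Nat.ModEq.trans ?_ this
      unfold Nat.ModEq
      rw [Nat.add_mul_mod_self_left]))
  have hcop : Nat.gcd (2 * 2 ^ r) (s + 2 ^ r) = 1 := by
    rw [← pow_succ']
    apply Nat.Coprime.pow_left
    rw [Nat.coprime_two_left]
    apply hs.add_even
    exact Even.pow_of_ne_zero even_two (by omega)
  exact (Nat.ModEq.cancel_left_of_coprime hcop (h2.trans h3.symm))

lemma claim_step {m j : ℕ} {κ κ' : ℕ → ℤ} (hm : 4 ≤ m) (hj : j + 1 ≤ m) (h : Claim m j κ)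
    (hk : ∀ s c c' : ℕ, Odd s → s * c % 2 ^ (m + 1) = 1 →
      (s + 2 ^ (m - j)) * c' % 2 ^ (m + 1) = 1 →
      Cg (m + 3) ((κ c + κ c' : ℚ) + (((2 ^ (m - (j + 1)) : ℕ) : ℚ) *
        BB (2 ^ (m - (j + 1))) ((2 ^ (2 ^ j)) ^ 2) c - 2 * ((2 ^ (m - (j + 1)) : ℕ) : ℚ) *
        ∑ l ∈ Finset.Icc 1 (2 ^ (m - (j + 1))),
          (sg (2 * 2 ^ (m - (j + 1))) ((2 * l - 1) * c) : ℚ) *
            (((2 ^ (2 ^ j) : ℕ) : ℚ) ^ (2 * l - 1) / ((2 * l - 1 : ℕ) : ℚ)))) (κ' c)) :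
    Claim m (j + 1) κ' := by
  intro s c hs hc
  have hM : 2 * 2 ^ (m - (j + 1)) = 2 ^ (m - j) := by
    rw [← pow_succ']
    congr 1
    omega
  have hs' : Odd (s + 2 ^ (m - j)) :=
    hs.add_even (Even.pow_of_ne_zero even_two (by omega))
  obtain ⟨c', hc'⟩ := exists_inv (m := m) hs'
  obtain ⟨E, hE1, hE2⟩ := h s c hs hc
  obtain ⟨E', hE1', hE2'⟩ := h _ c' hs' hc'
  refine ⟨E + E', ?_, ?_⟩
  · have h1 := hE1.add hE1'
    have h2 := hk s c c' hs hc hc'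
    have hcc := inv_rel (by omega) (by omega) hs hc hc'
    rw [← hM] at hcc
    have h3 := BB_rec (x := 2 ^ (2 ^ j)) (s := s) (show 0 < 2 ^ (m - (j + 1)) by positivity)
      (odd_inv hc) hcc
    rw [hM] at h3
    rw [hM] at h2
    have h4 : (2 : ℕ) ^ 2 ^ (j + 1) = (2 ^ 2 ^ j) ^ 2 := by
      rw [← pow_mul, ← pow_succ]
    rw [h4]
    have h5 := h1.trans (Cg.of_eq (show _ = (s : ℚ) * BB (2 ^ (m - (j + 1))) ((2 ^ 2 ^ j) ^ 2) c +
      ((κ c + κ c' : ℚ) + (((2 ^ (m - (j + 1)) : ℕ) : ℚ) *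
        BB (2 ^ (m - (j + 1))) ((2 ^ (2 ^ j)) ^ 2) c - 2 * ((2 ^ (m - (j + 1)) : ℕ) : ℚ) *
        ∑ l ∈ Finset.Icc 1 (2 ^ (m - (j + 1))),
          (sg (2 ^ (m - j)) ((2 * l - 1) * c) : ℚ) *
            (((2 ^ (2 ^ j) : ℕ) : ℚ) ^ (2 * l - 1) / ((2 * l - 1 : ℕ) : ℚ)))) by
      linear_combination h3))
    have h6 := h5.trans ((Cg.refl _ _).add h2)
    refine Cg.trans (Cg.of_eq ?_) h6
    push_cast
    ring
  · intro hF
    have h1 := hE2 hF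
    have h2 := hE2' hF
    have e1 : 2 ^ j * (s + 2 ^ (m - j)) = 2 ^ j * s + 2 ^ m := by
      rw [mul_add, ← pow_add]
      congr 2
      omega
    rw [e1] at h2
    have h3 := isE_double hm h1 h2
    rwa [← mul_assoc, ← pow_succ'] at h3

lemma sgn_eq_sg {m s c k : ℕ} (hc : s * c % 2 ^ (m + 1) = 1) : sgn m s k = sg (2 ^ m) (k * c) := by
  unfold sgn sg
  have h1 : ((s : ℕ) : ZMod (2 ^ (m + 1))) * ((c : ℕ) : ZMod (2 ^ (m + 1))) = 1 := by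
    rw [← Nat.cast_mul]
    have : ((s * c : ℕ) : ZMod (2 ^ (m + 1))) = ((1 : ℕ) : ZMod (2 ^ (m + 1))) := by
      rw [ZMod.natCast_eq_natCast_iff]
      unfold Nat.ModEq
      rw [hc, Nat.mod_eq_of_lt (Nat.one_lt_two_pow (by omega))]
    simpa using this
  have h2 : ((s : ZMod (2 ^ (m + 1))))⁻¹ = ((c : ℕ) : ZMod (2 ^ (m + 1))) :=
    ZMod.inv_eq_of_mul_eq_one _ _ _ h1
  rw [h2, ← Nat.cast_mul, ZMod.val_natCast, pow_succ']

lemma claim_zero {m : ℕ} (hm : 4 ≤ m) : Claim m 0 (fun _ => 0) := by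
  intro s c hs hc
  obtain ⟨E, hE⟩ := exists_isInd m s (2 * m + 2)
  refine ⟨E, ?_, fun hF => by simpa [IsE] using mersenne_index hm hs hE hF⟩
  have h1 : Cg (m + 3) (4 * E) (s * AA m 2 s (2 * m + 4)) := by
    obtain ⟨d, n, hd, h⟩ := hE
    exact ⟨d, n, hd, h⟩
  refine h1.trans ?_
  have h2 : Cg (m + 3) (BB (2 ^ (m - 0)) (2 ^ 2 ^ 0) c) (AA m 2 s (2 * m + 4)) := by
    have h3 : AA m 2 s (2 * m + 4) = ∑ l ∈ Finset.Icc 1 (2 * m + 4),
        (sg (2 ^ m) (l * c) : ℚ) * (((2 : ℕ) : ℚ) ^ l / l) := by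
      unfold AA
      rw [Finset.range_eq_Ico, Finset.sum_Ico_add' (fun k => (sgn m s k : ℚ) *
        (((2 : ℕ) : ℚ) ^ k / (k : ℚ))) 0 (2 * m + 4) 1]
      rw [show Finset.Ico (0 + 1) (2 * m + 4 + 1) = Finset.Icc 1 (2 * m + 4) by
        ext k; simp only [Finset.mem_Ico, Finset.mem_Icc]; omega]
      refine Finset.sum_congr rfl fun k _ => ?_
      rw [sgn_eq_sg hc]
    rw [h3]
    unfold BB
    simp only [Nat.sub_zero, pow_zero, pow_one]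
    apply Cg.sum_split
    · intro k hk
      rw [Finset.mem_Icc] at hk ⊢
      exact ⟨hk.1, hk.2.trans (big hm)⟩
    · intro l hl hl'
      rw [Finset.mem_Icc] at hl hl'
      have hl2 : 2 * m + 4 < l := by omega
      obtain ⟨e, o, ho, he⟩ := Nat.exists_eq_two_pow_mul_odd (show l ≠ 0 by omega)
      have h5 := prec_two (m := m) ho (by omega : 2 * m + 4 < 2 ^ e * o)
      have h6 : e + m + 3 ≤ l := by
        rw [he]
        exact (Nat.pow_dvd_pow_iff_le_right (by norm_num)).mp h5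
      have := cg_term (n := m + 3) (A := l) ho he (by omega) (sg (2 ^ m) (l * c))
      simpa using this
  have h4 := (h2.symm).mul_int s
  simpa using h4

end Pool.Agent.Q149.FB
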