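import Pool.Agent.Q149.FBB

/-!
The constants in the index formula.
-/

namespace Pool.Agent.Q149.FB

open Pool.Agent.Y875.FP

lemma partA_eq (r j c : ℕ) : ((2 ^ r : ℕ) : ℚ) * BB (2 ^ r) ((2 ^ (2 ^ j)) ^ 2) c =
    ∑ l ∈ Finset.Icc 1 (2 ^ r), ((sg (2 ^ r) (l * c) : ℤ) : ℚ) *
      ((2 : ℚ) ^ (r + 2 ^ (j + 1) * l) / (l : ℕ)) := by
  unfold BB
  rw [Finset.mul_sum]
  refine Finset.sum_congr rfl fun l _ => ?_
  have h : (((2 ^ 2 ^ j) ^ 2 : ℕ) : ℚ) ^ l = 2 ^ (2 ^ (j + 1) * l) := by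
    push_cast
    rw [← pow_mul, ← pow_mul]
    congr 1
    rw [pow_succ]
    ring
  rw [h, pow_add]
  push_cast
  ring

lemma partB_eq (r j c : ℕ) : 2 * ((2 ^ r : ℕ) : ℚ) * ∑ l ∈ Finset.Icc 1 (2 ^ r),
      (sg (2 * 2 ^ r) ((2 * l - 1) * c) : ℚ) *
        (((2 ^ (2 ^ j) : ℕ) : ℚ) ^ (2 * l - 1) / ((2 * l - 1 : ℕ) : ℚ)) =
    ∑ l ∈ Finset.Icc 1 (2 ^ r), ((sg (2 * 2 ^ r) ((2 * l - 1) * c) : ℤ) : ℚ) *
      ((2 : ℚ) ^ (r + 1 + 2 ^ j * (2 * l - 1)) / ((2 * l - 1 : ℕ) : ℚ)) := by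
  rw [Finset.mul_sum]
  refine Finset.sum_congr rfl fun l _ => ?_
  have h : (((2 ^ 2 ^ j : ℕ) : ℚ)) ^ (2 * l - 1) = 2 ^ (2 ^ j * (2 * l - 1)) := by
    push_cast
    rw [← pow_mul]
  rw [h, pow_add, pow_add]
  push_cast
  ring

lemma partB_cg {n r j c : ℕ} (T : Finset ℕ) (hT : T ⊆ Finset.Icc 1 (2 ^ r))
    (h : ∀ l, 1 ≤ l → l ∉ T → n ≤ r + 1 + 2 ^ j * (2 * l - 1)) :
    Cg n (2 * ((2 ^ r : ℕ) : ℚ) * ∑ l ∈ Finset.Icc 1 (2 ^ r),
      (sg (2 * 2 ^ r) ((2 * l - 1) * c) : ℚ) *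
        (((2 ^ (2 ^ j) : ℕ) : ℚ) ^ (2 * l - 1) / ((2 * l - 1 : ℕ) : ℚ)))
    (∑ l ∈ T, ((sg (2 * 2 ^ r) ((2 * l - 1) * c) : ℤ) : ℚ) *
      ((2 : ℚ) ^ (r + 1 + 2 ^ j * (2 * l - 1)) / ((2 * l - 1 : ℕ) : ℚ))) := by
  rw [partB_eq]
  apply Cg.sum_split hT
  intro l hl hl'
  rw [Finset.mem_Icc] at hl
  apply cg_term_odd
  · exact ⟨l - 1, by omega⟩
  · exact h l hl.1 hl'

lemma partA_cg {n r j c : ℕ} (T : Finset ℕ) (hT : T ⊆ Finset.Icc 1 (2 ^ r))
    (h : ∀ l, 1 ≤ l → l ∉ T → n + l ≤ r + 2 ^ (j + 1) * l + 1) :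
    Cg n (((2 ^ r : ℕ) : ℚ) * BB (2 ^ r) ((2 ^ (2 ^ j)) ^ 2) c)
    (∑ l ∈ T, ((sg (2 ^ r) (l * c) : ℤ) : ℚ) *
      ((2 : ℚ) ^ (r + 2 ^ (j + 1) * l) / (l : ℕ))) := by
  rw [partA_eq]
  apply Cg.sum_split hT
  intro l hl hl'
  rw [Finset.mem_Icc] at hl
  apply cg_term' (by omega)
  exact h l hl.1 hl'

/-- The constant for `a = 2 s`. -/
def k1 (m c : ℕ) : ℤ := 2 ^ (m + 1) * (2 + sg (2 ^ (m - 1)) c - sg (2 ^ m) c)

lemma claim_one {m : ℕ} (hm : 4 ≤ m) : Claim m 1 (k1 m) := by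
  apply claim_step (j := 0) hm (by omega) (claim_zero hm)
  intro s c c' hs hc hc'
  obtain ⟨r, hr⟩ : ∃ r, m = r + 1 := ⟨m - 1, by omega⟩
  have e0 : m - (0 + 1) = r := by omega
  have e1 : m - 1 = r := by omega
  rw [e0]
  unfold k1
  rw [e1]
  have hA := partA_cg (n := m + 3) (r := r) (j := 0) (c := c) {1, 2} (by
    intro l hl
    simp only [Finset.mem_insert, Finset.mem_singleton] at hl
    rw [Finset.mem_Icc]
    have : 2 ^ 1 ≤ 2 ^ r := Nat.pow_le_pow_right (by norm_num) (by omega)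
    omega) (by
    intro l hl hl'
    simp only [Finset.mem_insert, Finset.mem_singleton, not_or] at hl'
    norm_num
    omega)
  have hB := partB_cg (n := m + 3) (r := r) (j := 0) (c := c) {1} (by
    intro l hl
    simp only [Finset.mem_singleton] at hl
    rw [Finset.mem_Icc]
    have : 1 ≤ 2 ^ r := Nat.one_le_two_pow
    omega) (by
    intro l hl hl'
    simp only [Finset.mem_singleton] at hl'
    norm_num
    omega)
  rw [Finset.sum_pair (by norm_num)] at hA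
  rw [Finset.sum_singleton] at hB
  have h1 := (Cg.refl (m + 3) ((((0 : ℤ) : ℚ) + ((0 : ℤ) : ℚ)))).add (hA.sub hB)
  refine h1.trans ?_
  have e2 : (2 : ℕ) * 2 ^ r = 2 ^ m := by rw [hr, pow_succ']
  rw [e2]
  have hs2 := sg_or (2 ^ r) (2 * c)
  have e3 : (2 : ℚ) ^ (r + 2 ^ (0 + 1) * 1) = 2 ^ (m + 1) := by
    congr 1
    omega
  have e4 : (2 : ℚ) ^ (r + 2 ^ (0 + 1) * 2) = 2 ^ (m + 3) := by
    congr 1
    omega
  have e5 : (2 : ℚ) ^ (r + 1 + 2 ^ 0 * (2 * 1 - 1)) = 2 ^ (m + 1) := by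
    congr 1
    norm_num
    omega
  rw [e3, e4, e5]
  rcases hs2 with h | h
  · apply Cg.of_eq
    rw [h]
    norm_num
    ring
  · refine ⟨1, -1, odd_one, ?_⟩
    rw [h]
    norm_num
    ring

lemma quad {q c c' : ℕ} (hq : 0 < q) (h : c' % (4 * q) = (c + 3 * q) % (4 * q)) :
    ∃ k : ℤ, 5 - sg (2 * q) c - sg (2 * q) c' - sg q c = 4 * k := by
  unfold sg
  have e : 2 * (2 * q) = 4 * q := by ring
  rw [e, h]
  have ht : c % (4 * q) < 4 * q := Nat.mod_lt _ (by omega)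
  have h1 : c % (2 * q) = (c % (4 * q)) % (2 * q) := by
    rw [Nat.mod_mod_of_dvd]
    exact ⟨2, by ring⟩
  have h2 : (c + 3 * q) % (4 * q) = (c % (4 * q) + 3 * q) % (4 * q) := by
    rw [Nat.add_mod, Nat.mod_eq_of_lt (show 3 * q < 4 * q by omega)]
  rw [h1, h2]
  set t := c % (4 * q) with ht'
  rcases lt_or_ge t q with a | a
  · rw [Nat.mod_eq_of_lt (show t + 3 * q < 4 * q by omega), Nat.mod_eq_of_lt (show t < 2 * q by omega),
      if_pos (by omega), if_neg (by omega), if_pos (by omega)]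
    exact ⟨1, by norm_num⟩
  · have e3 : (t + 3 * q) % (4 * q) = t - q := by
      rw [Nat.mod_eq_sub_mod (by omega), Nat.mod_eq_of_lt (by omega)]
      omega
    rw [e3]
    rcases lt_or_ge t (2 * q) with b | b
    · rw [Nat.mod_eq_of_lt b, if_pos b, if_pos (by omega), if_neg (by omega)]
      exact ⟨1, by norm_num⟩
    · have e4 : t % (2 * q) = t - 2 * q := by
        rw [Nat.mod_eq_sub_mod (by omega), Nat.mod_eq_of_lt (by omega)]
      rw [e4]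
      rcases lt_or_ge t (3 * q) with d | d
      · rw [if_neg (by omega), if_pos (by omega), if_pos (by omega)]
        exact ⟨1, by norm_num⟩
      · rw [if_neg (by omega), if_neg (by omega), if_neg (by omega)]
        exact ⟨2, by norm_num⟩

lemma inv_rel2 {m r s c c' : ℕ} (hr : m = r + 1) (hm : 4 ≤ m) (hs : Odd s)
    (h : s * c % 2 ^ (m + 1) = 1) (h' : (s + 2 ^ r) * c' % 2 ^ (m + 1) = 1) :
    c' % (4 * 2 ^ r) = (c + 3 * 2 ^ r) % (4 * 2 ^ r) := by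
  have e : 4 * 2 ^ r = 2 ^ (m + 1) := by
    rw [hr, pow_succ, pow_succ]
    ring
  rw [e]
  have h1 : s * c ≡ 1 [MOD 2 ^ (m + 1)] := by
    unfold Nat.ModEq
    rw [h, Nat.mod_eq_of_lt (Nat.one_lt_two_pow (by omega))]
  have h2 : (s + 2 ^ r) * c' ≡ 1 [MOD 2 ^ (m + 1)] := by
    unfold Nat.ModEq
    rw [h', Nat.mod_eq_of_lt (Nat.one_lt_two_pow (by omega))]
  have hc := odd_inv h
  -- `c ≡ s` modulo 4
  have h4 : ∃ k, c + 3 * s = 4 * k := by
    have h5 : s * c % 4 = 1 := by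
      have h6 : (4 : ℕ) ∣ 2 ^ (m + 1) := by
        rw [show (4 : ℕ) = 2 ^ 2 by norm_num]
        exact pow_dvd_pow 2 (by omega)
      have h7 := Nat.mod_mod_of_dvd (s * c) h6
      rw [h] at h7
      omega
    rw [Nat.mul_mod] at h5
    have hs4 : s % 4 = 1 ∨ s % 4 = 3 := by
      obtain ⟨k, hk⟩ := hs
      omega
    have hc4 : c % 4 = 1 ∨ c % 4 = 3 := by
      obtain ⟨k, hk⟩ := hc
      omega
    rcases hs4 with a | a <;> rcases hc4 with b | b <;> rw [a, b] at h5 <;> norm_num at h5 <;>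
      exact ⟨(c + 3 * s) / 4, by omega⟩
  obtain ⟨k, hk⟩ := h4
  have h3 : (s + 2 ^ r) * (c + 3 * 2 ^ r) ≡ 1 [MOD 2 ^ (m + 1)] := by
    have e1 : (s + 2 ^ r) * (c + 3 * 2 ^ r) = s * c + 2 ^ (m + 1) * (k + 3 * 2 ^ (r - 2)) := by
      have e2 : (2 : ℕ) ^ r = 4 * 2 ^ (r - 2) := by
        rw [show (4 : ℕ) = 2 ^ 2 by norm_num, ← pow_add]
        congr 1
        omega
      have e3 : (s + 2 ^ r) * (c + 3 * 2 ^ r) =
          s * c + 2 ^ r * (c + 3 * s) + 3 * 2 ^ r * 2 ^ r := by ring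
      rw [e3, hk, ← e, e2]
      ring
    rw [e1]
    have := Nat.ModEq.add_right ((2 ^ (m + 1)) * (k + 3 * 2 ^ (r - 2))) h1
    refine Nat.ModEq.trans this ?_
    unfold Nat.ModEq
    rw [Nat.add_mul_mod_self_left]
  have hcop : Nat.gcd (2 ^ (m + 1)) (s + 2 ^ r) = 1 := by
    apply Nat.Coprime.pow_left
    rw [Nat.coprime_two_left]
    apply hs.add_even
    exact Even.pow_of_ne_zero even_two (by omega)
  exact (Nat.ModEq.cancel_left_of_coprime hcop (h2.trans h3.symm))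

lemma claim_two {m : ℕ} (hm : 4 ≤ m) : Claim m 2 (fun _ => 2 ^ (m + 1)) := by
  apply claim_step (j := 1) hm (by omega) (claim_one hm)
  intro s c c' hs hc hc'
  obtain ⟨r, hr⟩ : ∃ r, m = r + 2 := ⟨m - 2, by omega⟩
  have e0 : m - (1 + 1) = r := by omega
  have e1 : m - 1 = r + 1 := by omega
  rw [e0]
  rw [e1] at hc'
  have hcc := inv_rel2 (r := r + 1) (by omega) hm hs hc hc'
  obtain ⟨k, hk⟩ := quad (by positivity) hcc
  have hcc1 : c' % (2 * 2 ^ (r + 1)) = (c + 2 ^ (r + 1)) % (2 * 2 ^ (r + 1)) := by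
    have h2 : 2 * 2 ^ (r + 1) ∣ 4 * 2 ^ (r + 1) := ⟨2, by ring⟩
    rw [← Nat.mod_mod_of_dvd c' h2, hcc, Nat.mod_mod_of_dvd _ h2,
      show c + 3 * 2 ^ (r + 1) = c + 2 ^ (r + 1) + 2 * 2 ^ (r + 1) by ring, Nat.add_mod_right]
  have hsg1 : sg (2 ^ (r + 1)) c' = - sg (2 ^ (r + 1)) c := by
    rw [sg_congr hcc1, sg_add (by positivity)]
  have e2 : (2 : ℕ) * 2 ^ (r + 1) = 2 ^ m := by rw [hr, ← pow_succ']
  rw [e2] at hk
  unfold k1
  rw [e1, hsg1]
  have hA := partA_cg (n := m + 3) (r := r) (j := 1) (c := c) {1} (by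
    intro l hl
    simp only [Finset.mem_singleton] at hl
    rw [Finset.mem_Icc]
    have : 1 ≤ 2 ^ r := Nat.one_le_two_pow
    omega) (by
    intro l hl hl'
    simp only [Finset.mem_singleton] at hl'
    norm_num
    omega)
  have hB := partB_cg (n := m + 3) (r := r) (j := 1) (c := c) {1} (by
    intro l hl
    simp only [Finset.mem_singleton] at hl
    rw [Finset.mem_Icc]
    have : 1 ≤ 2 ^ r := Nat.one_le_two_pow
    omega) (by
    intro l hl hl'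
    simp only [Finset.mem_singleton] at hl'
    norm_num
    omega)
  rw [Finset.sum_singleton] at hA hB
  refine ((Cg.refl (m + 3) _).add (hA.sub hB)).trans ?_
  have e3 : (2 : ℚ) ^ (r + 2 ^ (1 + 1) * 1) = 2 ^ (m + 2) := by
    congr 1
    omega
  have e5 : (2 : ℚ) ^ (r + 1 + 2 ^ 1 * (2 * 1 - 1)) = 2 ^ (m + 1) := by
    congr 1
    norm_num
    omega
  rw [e3, e5, ← pow_succ']
  have e6 : (2 * 1 - 1) * c = c := by norm_num
  rw [e6]
  have hk' : (5 : ℚ) - sg (2 ^ m) c - sg (2 ^ m) c' - sg (2 ^ (r + 1)) c = 4 * k := by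
    exact_mod_cast hk
  rcases sg_or (2 ^ r) c with h | h
  · refine ⟨1, k, odd_one, ?_⟩
    rw [h]
    push_cast
    rw [show (2 : ℚ) ^ (m + 3) = 2 ^ (m + 1) * 4 by ring, show (2 : ℚ) ^ (m + 2) = 2 ^ (m + 1) * 2 by ring]
    norm_num
    linear_combination (2 : ℚ) ^ (m + 1) * hk'
  · refine ⟨1, k - 1, odd_one, ?_⟩
    rw [h]
    push_cast
    rw [show (2 : ℚ) ^ (m + 3) = 2 ^ (m + 1) * 4 by ring, show (2 : ℚ) ^ (m + 2) = 2 ^ (m + 1) * 2 by ring]
    norm_num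
    linear_combination (2 : ℚ) ^ (m + 1) * hk'

lemma claim_three {m : ℕ} (hm : 4 ≤ m) : Claim m 3 (fun _ => 0) := by
  apply claim_step (j := 2) hm (by omega) (claim_two hm)
  intro s c c' hs hc hc'
  obtain ⟨r, hr⟩ : ∃ r, m = r + 3 := ⟨m - 3, by omega⟩
  have e0 : m - (2 + 1) = r := by omega
  rw [e0]
  have hA := partA_cg (n := m + 3) (r := r) (j := 2) (c := c) ∅ (by simp) (by
    intro l hl hl'
    norm_num
    omega)
  have hB := partB_cg (n := m + 3) (r := r) (j := 2) (c := c) {1} (by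
    intro l hl
    simp only [Finset.mem_singleton] at hl
    rw [Finset.mem_Icc]
    have : 1 ≤ 2 ^ r := Nat.one_le_two_pow
    omega) (by
    intro l hl hl'
    simp only [Finset.mem_singleton] at hl'
    norm_num
    omega)
  rw [Finset.sum_singleton] at hB
  rw [Finset.sum_empty] at hA
  refine ((Cg.refl (m + 3) _).add (hA.sub hB)).trans ?_
  have e5 : (2 : ℚ) ^ (r + 1 + 2 ^ 2 * (2 * 1 - 1)) = 2 ^ (m + 2) := by
    congr 1
    norm_num
    omega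
  rw [e5]
  have e6 : (2 * 1 - 1) * c = c := by norm_num
  rw [e6]
  rcases sg_or (2 * 2 ^ r) c with h | h
  · refine ⟨1, 0, odd_one, ?_⟩
    rw [h]
    push_cast
    ring
  · refine ⟨1, 1, odd_one, ?_⟩
    rw [h]
    push_cast
    ring

lemma pow_ge {j : ℕ} (hj : 3 ≤ j) : j + 4 ≤ 2 ^ j := by
  induction j, hj using Nat.le_induction with
  | base => norm_num
  | succ j hj ih => rw [pow_succ]; omega

lemma claim_ge {m j : ℕ} (hm : 4 ≤ m) (hj : 3 ≤ j) (hjm : j ≤ m) : Claim m j (fun _ => 0) := by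
  induction j, hj using Nat.le_induction with
  | base => exact claim_three hm
  | succ j hj ih =>
    apply claim_step hm hjm (ih (by omega))
    intro s c c' hs hc hc'
    obtain ⟨r, hr⟩ : ∃ r, m = r + (j + 1) := ⟨m - (j + 1), by omega⟩
    have e0 : m - (j + 1) = r := by omega
    rw [e0]
    have hp := pow_ge hj
    have hA := partA_cg (n := m + 3) (r := r) (j := j) (c := c) ∅ (by simp) (by
      intro l hl hl'
      have h2 : (2 : ℕ) ^ (j + 1) = 2 ^ j + 2 ^ j := by rw [pow_succ]; ring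
      have h1 : (j + 5) * l ≤ 2 ^ (j + 1) * l := Nat.mul_le_mul_right l (by omega)
      nlinarith)
    have hB := partB_cg (n := m + 3) (r := r) (j := j) (c := c) ∅ (by simp) (by
      intro l hl hl'
      have h1 : 2 ^ j * 1 ≤ 2 ^ j * (2 * l - 1) := Nat.mul_le_mul_left _ (by omega)
      omega)
    rw [Finset.sum_empty] at hA hB
    refine ((Cg.refl (m + 3) _).add (hA.sub hB)).trans ?_
    apply Cg.of_eq
    push_cast
    ring

end Pool.Agent.Q149.FB
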