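import Pool.Agent.Q149.FBC

/-!
Consequences: the bases `F_j`, the numbers `2^a - 1` with `a` divisible by a large power of two,
the Pell numbers.
-/

namespace Pool.Agent.Q149.FB

open Pool.Agent.Y875.FP

/-- The constant in the index formula. -/
def kap (m j c : ℕ) : ℤ :=
  if j = 0 then 0 else if j = 1 then k1 m c else if j = 2 then 2 ^ (m + 1) else 0

lemma claim_all {m j : ℕ} (hm : 4 ≤ m) (hj : j ≤ m) : Claim m j (kap m j) := by
  rcases (by omega : j = 0 ∨ j = 1 ∨ j = 2 ∨ 3 ≤ j) with h | h | h | h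
  · subst h
    exact claim_zero hm
  · subst h
    exact claim_one hm
  · subst h
    exact claim_two hm
  · have h1 := claim_ge hm h hj
    have h2 : kap m j = fun _ => 0 := by
      funext c
      unfold kap
      rw [if_neg (by omega), if_neg (by omega), if_neg (by omega)]
    rw [h2]
    exact h1

lemma order_two {m : ℕ} {E E' : ℕ} (h : (2 : ℤ) ^ (m + 1) ∣ (E : ℤ) - E') :
    (2 : ZMod (Nat.fermatNumber m)) ^ E = 2 ^ E' := by
  have h1 : (2 : ZMod (Nat.fermatNumber m)) ^ (2 ^ (m + 1)) = 1 := by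
    rw [pow_succ, pow_mul, two_pow_two_pow]
    ring
  have h2 : E ≡ E' [MOD 2 ^ (m + 1)] := by
    rw [Nat.modEq_iff_dvd]
    push_cast
    rw [← dvd_neg]
    simpa using h
  have h3 : ∀ E : ℕ, (2 : ZMod (Nat.fermatNumber m)) ^ E = 2 ^ (E % 2 ^ (m + 1)) := by
    intro E
    conv_lhs => rw [← Nat.mod_add_div E (2 ^ (m + 1))]
    rw [pow_add, pow_mul, h1, one_pow, mul_one]
  rw [h3 E, h3 E', h2]

/-- The index formula. -/
theorem index_all {m j s c E : ℕ} (hm : 4 ≤ m) (hj : j ≤ m) (hs : Odd s)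
    (hc : s * c % 2 ^ (m + 1) = 1)
    (hE : Cg (m + 3) (4 * E) (s * BB (2 ^ (m - j)) (2 ^ (2 ^ j)) c + kap m j c))
    (hF : (Nat.fermatNumber m).Prime) : IsE m (2 ^ j * s) E := by
  obtain ⟨E', h1, h2⟩ := claim_all hm hj s c hs hc
  have h3 := h2 hF
  have h4 : Cg (m + 3) ((4 * (E : ℤ) : ℤ) : ℚ) ((4 * (E' : ℤ) : ℤ) : ℚ) := by
    have := hE.trans h1.symm
    push_cast
    exact this
  have h5 := h4.dvd
  have h6 : (2 : ℤ) ^ (m + 1) ∣ (E : ℤ) - E' := by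
    have e1 : (2 : ℤ) ^ (m + 3) = 4 * 2 ^ (m + 1) := by ring
    rw [e1, ← mul_sub] at h5
    exact Int.dvd_of_mul_dvd_mul_left (by norm_num) h5
  unfold IsE at h3 ⊢
  rw [h3, order_two h6]

lemma BB_cg {n M j c : ℕ} (T : Finset ℕ) (hT : T ⊆ Finset.Icc 1 M)
    (h : ∀ l, 1 ≤ l → l ∉ T → n + l ≤ 2 ^ j * l + 1) :
    Cg n (BB M (2 ^ (2 ^ j)) c) (∑ l ∈ T, ((sg M (l * c) : ℤ) : ℚ) *
      ((2 : ℚ) ^ (2 ^ j * l) / (l : ℕ))) := by
  have e : BB M (2 ^ (2 ^ j)) c = ∑ l ∈ Finset.Icc 1 M, ((sg M (l * c) : ℤ) : ℚ) *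
      ((2 : ℚ) ^ (2 ^ j * l) / (l : ℕ)) := by
    unfold BB
    refine Finset.sum_congr rfl fun l _ => ?_
    push_cast
    rw [← pow_mul]
  rw [e]
  apply Cg.sum_split hT
  intro l hl hl'
  rw [Finset.mem_Icc] at hl
  apply cg_term' (by omega)
  exact h l hl.1 hl'

/-- `2^a - 1` is a `2^(m+1)`-th power residue if `a` is divisible by a power of two `≥ m + 3`. -/
theorem residue {m j s : ℕ} (hm : 4 ≤ m) (hj : j ≤ m) (h : m + 3 ≤ 2 ^ j) (hs : Odd s)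
    (hF : (Nat.fermatNumber m).Prime) :
    ((2 : ZMod (Nat.fermatNumber m)) ^ (2 ^ j * s) - 1) ^ (2 ^ (2 ^ m - (m + 1))) = 1 := by
  have hj3 : 3 ≤ j := by
    by_contra hlt
    have : 2 ^ j ≤ 2 ^ 2 := Nat.pow_le_pow_right (by norm_num) (by omega)
    omega
  obtain ⟨c, hc⟩ := exists_inv (m := m) hs
  have h1 : Cg (m + 3) (4 * ((0 : ℕ) : ℚ)) (s * BB (2 ^ (m - j)) (2 ^ (2 ^ j)) c + kap m j c) := by
    have h2 := BB_cg (n := m + 3) (M := 2 ^ (m - j)) (j := j) (c := c) ∅ (by simp) (by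
      intro l hl _
      have h3 : (m + 3) * l ≤ 2 ^ j * l := Nat.mul_le_mul_right l h
      nlinarith)
    rw [Finset.sum_empty] at h2
    have h4 := (h2.mul_int s).symm
    have h5 : kap m j c = 0 := by
      unfold kap
      rw [if_neg (by omega), if_neg (by omega), if_neg (by omega)]
    rw [h5]
    simpa using h4
  have h2 := index_all hm hj hs hc h1 hF
  simpa [IsE] using h2

lemma lt_of_two_pow_le {m j : ℕ} (hm : 4 ≤ m) (h : 2 ^ j ≤ m + 2) : j + 1 ≤ m := by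
  have h1 : ∀ j : ℕ, 3 ≤ j → j + 4 ≤ 2 ^ j := fun j hj => pow_ge hj
  rcases (by omega : j ≤ 2 ∨ 3 ≤ j) with h2 | h2
  · omega
  · have := h1 j h2
    omega

lemma two_le {j : ℕ} (hj : 1 ≤ j) : 2 ≤ 2 ^ j := by
  calc 2 = 2 ^ 1 := by norm_num
    _ ≤ 2 ^ j := Nat.pow_le_pow_right (by norm_num) hj

lemma index_gen {m j : ℕ} {y : ZMod (Nat.fermatNumber m)} (hF : (Nat.fermatNumber m).Prime)
    {E E' : ℕ} (hy : (2 : ZMod (Nat.fermatNumber m)) ^ E * y = 2 ^ E') (hj : 1 ≤ j)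
    (hD : Cg (2 ^ j + 1) (4 * E' - 4 * E) (2 ^ 2 ^ j)) :
    ∃ o : ℕ, Odd o ∧ y = 2 ^ (2 ^ (2 ^ j - 2) * o) := by
  have hjj := two_le hj
  have h3 : Cg (2 ^ j + 1) (((4 * (E' : ℤ) - 4 * E : ℤ)) : ℚ) (((2 ^ 2 ^ j : ℤ)) : ℚ) := by
    push_cast
    exact hD
  obtain ⟨t, ht⟩ := h3.dvd
  have e4 : (2 : ℤ) ^ (2 ^ j) = 4 * 2 ^ (2 ^ j - 2) := by
    rw [show (4 : ℤ) = 2 ^ 2 by norm_num, ← pow_add]
    congr 1
    omega
  have h8 : (E' : ℤ) - E = 2 ^ (2 ^ j - 2) * (2 * t + 1) := by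
    have e5 : (2 : ℤ) ^ (2 ^ j + 1) = 8 * 2 ^ (2 ^ j - 2) := by rw [pow_succ, e4]; ring
    rw [e5] at ht
    linarith [e4]
  -- a natural number `o`
  have hpos : (0 : ℤ) < 2 ^ (m + 1) := by positivity
  obtain ⟨u, hu⟩ : ∃ u : ℕ, (u : ℤ) = 2 * t + 1 + 2 ^ (m + 1) * (2 * |t| + 1) := by
    refine ⟨(2 * t + 1 + 2 ^ (m + 1) * (2 * |t| + 1)).toNat, ?_⟩
    apply Int.toNat_of_nonneg
    have h9 : -|t| ≤ t := neg_abs_le t
    have h10 : 0 ≤ |t| := abs_nonneg t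
    have h11 : (1 : ℤ) ≤ 2 ^ (m + 1) := by
      have := Nat.one_le_two_pow (n := m + 1)
      exact_mod_cast this
    nlinarith
  refine ⟨u, ?_, ?_⟩
  · have : Odd (u : ℤ) := by
      rw [hu]
      refine ⟨t + 2 ^ m * (2 * |t| + 1), ?_⟩
      rw [pow_succ]
      ring
    exact_mod_cast this
  · have hfield : Fact (Nat.fermatNumber m).Prime := ⟨hF⟩
    have h2ne : (2 : ZMod (Nat.fermatNumber m)) ≠ 0 := by
      intro h0
      have h9 := two_pow_two_pow m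
      rw [h0, zero_pow (by positivity)] at h9
      have h10 : (1 : ZMod (Nat.fermatNumber m)) = 0 := by linear_combination h9
      exact one_ne_zero h10
    have h9 : (2 : ZMod (Nat.fermatNumber m)) ^ (E + 2 ^ (2 ^ j - 2) * u) = 2 ^ E' := by
      apply order_two
      push_cast
      rw [hu]
      refine ⟨2 ^ (2 ^ j - 2) * (2 * |t| + 1), ?_⟩
      linear_combination -h8
    have h10 : (2 : ZMod (Nat.fermatNumber m)) ^ E ≠ 0 := pow_ne_zero _ h2ne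
    apply mul_left_cancel₀ h10
    rw [hy, ← pow_add, h9]

lemma kap_cg {m j c n : ℕ} (h : n ≤ m + 1 ∨ 3 ≤ j) : Cg n ((kap m j c : ℤ) : ℚ) 0 := by
  unfold kap
  split_ifs with h0 h1 h2
  · simpa using Cg.refl n 0
  · have hn : n ≤ m + 1 := by omega
    have : Cg (m + 1) ((k1 m c : ℤ) : ℚ) 0 := by
      refine ⟨1, 2 + sg (2 ^ (m - 1)) c - sg (2 ^ m) c, odd_one, ?_⟩
      unfold k1
      push_cast
      ring
    exact this.mono hn
  · have hn : n ≤ m + 1 := by omega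
    have : Cg (m + 1) (((2 ^ (m + 1) : ℤ)) : ℚ) 0 := by
      refine ⟨1, 1, odd_one, ?_⟩
      push_cast
      ring
    exact this.mono hn
  · simpa using Cg.refl n 0

/-- The first term of the series gives the exact power of two. -/
lemma lead {m j s c : ℕ} (hm : 4 ≤ m) (hj : 1 ≤ j) (hs : Odd s) (h : 2 ^ j ≤ m + 2) :
    Cg (2 ^ j + 1) (s * BB (2 ^ (m - j)) (2 ^ (2 ^ j)) c + kap m j c) (2 ^ 2 ^ j) := by
  have hjj := two_le hj
  have hb1 := BB_cg (n := 2 ^ j + 1) (M := 2 ^ (m - j)) (j := j) (c := c) {1} (by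
    intro l hl
    simp only [Finset.mem_singleton] at hl
    rw [Finset.mem_Icc]
    have : 1 ≤ 2 ^ (m - j) := Nat.one_le_two_pow
    omega) (by
    intro l hl hl'
    simp only [Finset.mem_singleton] at hl'
    have h3 : 2 ≤ l := by omega
    nlinarith)
  rw [Finset.sum_singleton] at hb1
  have hk : Cg (2 ^ j + 1) ((kap m j c : ℤ) : ℚ) 0 := by
    apply kap_cg
    rcases (by omega : j = 1 ∨ j = 2 ∨ 3 ≤ j) with h1 | h1 | h1
    · subst h1; left; norm_num; omega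
    · subst h1; left; norm_num; omega
    · right; exact h1
  refine ((hb1.mul_int s).add hk).trans ?_
  obtain ⟨t, ht⟩ := hs
  rcases sg_or (2 ^ (m - j)) (1 * c) with h7 | h7
  · rw [h7, ht]
    refine ⟨1, t, odd_one, ?_⟩
    push_cast
    rw [mul_one]
    ring
  · rw [h7, ht]
    refine ⟨1, -t - 1, odd_one, ?_⟩
    push_cast
    rw [mul_one]
    ring

lemma tail {m j s c : ℕ} (hm : 4 ≤ m) (hj : 1 ≤ j) (h : 2 ^ j ≤ m + 2) :
    Cg (2 ^ j + 1) (s * BB (2 ^ (m - (j + 1))) (2 ^ (2 ^ (j + 1))) c + kap m (j + 1) c) 0 := by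
  have hjj := two_le hj
  have hb2 := BB_cg (n := 2 ^ j + 1) (M := 2 ^ (m - (j + 1))) (j := j + 1) (c := c) ∅ (by simp) (by
    intro l hl _
    have h3 : 2 ^ (j + 1) = 2 ^ j + 2 ^ j := by rw [pow_succ]; ring
    rw [h3]
    nlinarith)
  rw [Finset.sum_empty] at hb2
  have hk : Cg (2 ^ j + 1) ((kap m (j + 1) c : ℤ) : ℚ) 0 := by
    apply kap_cg
    rcases (by omega : j = 1 ∨ 3 ≤ j + 1) with h1 | h1
    · subst h1; left; norm_num at h ⊢; omega
    · right; exact h1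
  have := (hb2.mul_int s).add hk
  simpa using this

/-- The exact index of `2^a - 1`. -/
lemma index_sub {m j s : ℕ} (hm : 4 ≤ m) (hj : 1 ≤ j) (h : 2 ^ j ≤ m + 2) (hs : Odd s)
    (hF : (Nat.fermatNumber m).Prime) :
    ∃ o : ℕ, Odd o ∧ ((2 : ZMod (Nat.fermatNumber m)) ^ (2 ^ j * s) - 1) ^
      (2 ^ (2 ^ m - (m + 1))) = 2 ^ (2 ^ (2 ^ j - 2) * o) := by
  obtain ⟨c, hc⟩ := exists_inv (m := m) hs
  have hjm := lt_of_two_pow_le hm h
  obtain ⟨E, hE1, hE2⟩ := claim_all (j := j) hm (by omega) s c hs hc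
  have h1 := hE2 hF
  unfold IsE at h1
  apply index_gen hF (E := 0) (E' := E) (by rw [h1]; ring) hj
  have h2 := (hE1.mono (show 2 ^ j + 1 ≤ m + 3 by omega)).trans (lead hm hj hs h)
  simpa using h2

/-- The exact index of `2^a + 1`. -/
lemma index_add {m j s : ℕ} (hm : 4 ≤ m) (hj : 1 ≤ j) (h : 2 ^ j ≤ m + 2) (hs : Odd s)
    (hF : (Nat.fermatNumber m).Prime) :
    ∃ o : ℕ, Odd o ∧ ((2 : ZMod (Nat.fermatNumber m)) ^ (2 ^ j * s) + 1) ^
      (2 ^ (2 ^ m - (m + 1))) = 2 ^ (2 ^ (2 ^ j - 2) * o) := by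
  obtain ⟨c, hc⟩ := exists_inv (m := m) hs
  have hjm := lt_of_two_pow_le hm h
  obtain ⟨E, hE1, hE2⟩ := claim_all (j := j) hm (by omega) s c hs hc
  obtain ⟨E', hE1', hE2'⟩ := claim_all (j := j + 1) hm hjm s c hs hc
  have h1 := hE2 hF
  have h2 := hE2' hF
  unfold IsE at h1 h2
  have h3 : (2 : ZMod (Nat.fermatNumber m)) ^ (2 ^ (j + 1) * s) - 1 =
      (2 ^ (2 ^ j * s) - 1) * (2 ^ (2 ^ j * s) + 1) := by
    rw [pow_succ, mul_right_comm, pow_mul _ (2 ^ j * s) 2]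
    ring
  rw [h3, mul_pow, h1] at h2
  apply index_gen hF h2 hj
  have h4 := (hE1.mono (show 2 ^ j + 1 ≤ m + 3 by omega)).trans (lead hm hj hs h)
  have h5 := (hE1'.mono (show 2 ^ j + 1 ≤ m + 3 by omega)).trans (tail hm hj h)
  refine (h5.sub h4).trans ?_
  refine ⟨1, -1, odd_one, ?_⟩
  push_cast
  ring

/-- Converse. -/
lemma prime_of_pow {m k b : ℕ} (hm : 4 ≤ m) (hk : 2 ^ (m - 1) ≤ k)
    (h : (b : ZMod (Nat.fermatNumber m)) ^ (2 ^ k) = -1) : (Nat.fermatNumber m).Prime := by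
  by_contra hnp
  have hF3 := Nat.three_le_fermatNumber m
  have hp : (Nat.minFac (Nat.fermatNumber m)).Prime := Nat.minFac_prime (by omega)
  have hsq := Nat.minFac_sq_le_self (by omega) hnp
  have hdvd := Nat.minFac_dvd (Nat.fermatNumber m)
  set p := Nat.minFac (Nat.fermatNumber m) with hpdef
  have : Fact p.Prime := ⟨hp⟩
  have h' : (b : ZMod p) ^ (2 ^ k) = -1 := by
    have h1 := congrArg (ZMod.castHom hdvd (ZMod p)) h
    rw [map_pow, map_natCast, map_neg, map_one] at h1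
    exact h1
  have hp2 : p ≠ 2 := by
    intro h2
    have h3 := Nat.odd_fermatNumber m
    rw [h2] at hdvd
    exact (Nat.not_even_iff_odd.mpr h3) (even_iff_two_dvd.mpr hdvd)
  have : Fact (2 < p) := ⟨lt_of_le_of_ne hp.two_le (Ne.symm hp2)⟩
  have hord : orderOf (b : ZMod p) = 2 ^ (k + 1) := by
    apply orderOf_eq_prime_pow
    · rw [h']
      exact ZMod.neg_one_ne_one
    · rw [pow_succ, pow_mul, h']
      ring
  have hb0 : (b : ZMod p) ≠ 0 := by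
    intro h0
    rw [h0, zero_pow (by positivity)] at h'
    have : (1 : ZMod p) = 0 := by linear_combination h'
    exact one_ne_zero this
  have h1 : orderOf (b : ZMod p) ∣ p - 1 := ZMod.orderOf_dvd_card_sub_one hb0
  rw [hord] at h1
  have h2 : 2 ^ (k + 1) ≤ p - 1 := Nat.le_of_dvd (by have := hp.two_le; omega) h1
  have h3 : 2 ^ (2 ^ (m - 1) + 1) ≤ 2 ^ (k + 1) := Nat.pow_le_pow_right (by norm_num) (by omega)
  have h4 : 2 ^ (2 ^ (m - 1) + 1) + 1 ≤ p := by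
    have := hp.two_le
    omega
  have h5 : (2 ^ (2 ^ (m - 1) + 1)) ^ 2 = 4 * 2 ^ 2 ^ m := by
    rw [← pow_mul, show (4 : ℕ) = 2 ^ 2 by norm_num, ← pow_add]
    congr 1
    have : 2 ^ m = 2 * 2 ^ (m - 1) := by
      rw [← pow_succ']
      congr 1
      omega
    omega
  have h6 : (2 ^ (2 ^ (m - 1) + 1)) ^ 2 ≤ p ^ 2 := Nat.pow_le_pow_left (by omega) 2
  rw [h5] at h6
  unfold Nat.fermatNumber at hsq
  have h7 : 1 ≤ 2 ^ 2 ^ m := Nat.one_le_two_pow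
  omega

lemma pow_neg_one {m j : ℕ} {y : ZMod (Nat.fermatNumber m)} (hm : 4 ≤ m) (hj : 1 ≤ j)
    (h : 2 ^ j ≤ m + 2) {o : ℕ} (ho : Odd o)
    (h1 : y ^ (2 ^ (2 ^ m - (m + 1))) = 2 ^ (2 ^ (2 ^ j - 2) * o)) :
    y ^ (2 ^ (2 ^ m - 2 ^ j + 1)) = -1 := by
  have hb := big hm
  have hjj := two_le hj
  have e1 : 2 ^ (2 ^ m - 2 ^ j + 1) = 2 ^ (2 ^ m - (m + 1)) * 2 ^ (m + 2 - 2 ^ j) := by
    rw [← pow_add]
    congr 1
    omega
  rw [e1, pow_mul, h1, ← pow_mul]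
  have e2 : 2 ^ (2 ^ j - 2) * o * 2 ^ (m + 2 - 2 ^ j) = 2 ^ m * o := by
    have e3 : (2 : ℕ) ^ m = 2 ^ (2 ^ j - 2) * 2 ^ (m + 2 - 2 ^ j) := by
      rw [← pow_add]
      congr 1
      omega
    rw [e3]
    ring
  rw [e2, pow_mul, two_pow_two_pow, ho.neg_one_pow]

lemma half_le {m j : ℕ} (hm : 4 ≤ m) (h : 2 ^ j ≤ m + 2) : 2 ^ (m - 1) ≤ 2 ^ m - 2 ^ j + 1 := by
  have hb := big hm
  have : 2 ^ m = 2 * 2 ^ (m - 1) := by
    rw [← pow_succ']
    congr 1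
    omega
  omega

/-- Pepin's test in the base `2^a - 1`. -/
theorem pepin_sub {m j s : ℕ} (hm : 4 ≤ m) (hj : 1 ≤ j) (h : 2 ^ j ≤ m + 2) (hs : Odd s) :
    (Nat.fermatNumber m).Prime ↔
      (((2 ^ (2 ^ j * s) - 1 : ℕ)) : ZMod (Nat.fermatNumber m)) ^ (2 ^ (2 ^ m - 2 ^ j + 1)) =
        -1 := by
  constructor
  · intro hF
    obtain ⟨o, ho, h1⟩ := index_sub hm hj h hs hF
    have h2 := pow_neg_one hm hj h ho h1
    rw [Nat.cast_sub Nat.one_le_two_pow]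
    push_cast
    exact h2
  · intro h1
    exact prime_of_pow hm (half_le hm h) h1

/-- Pepin's test in the base `2^a + 1`. -/
theorem pepin_add {m j s : ℕ} (hm : 4 ≤ m) (hj : 1 ≤ j) (h : 2 ^ j ≤ m + 2) (hs : Odd s) :
    (Nat.fermatNumber m).Prime ↔
      (((2 ^ (2 ^ j * s) + 1 : ℕ)) : ZMod (Nat.fermatNumber m)) ^ (2 ^ (2 ^ m - 2 ^ j + 1)) =
        -1 := by
  constructor
  · intro hF
    obtain ⟨o, ho, h1⟩ := index_add hm hj h hs hF
    have h2 := pow_neg_one hm hj h ho h1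
    push_cast
    exact h2
  · intro h1
    exact prime_of_pow hm (half_le hm h) h1

/-- `2^a + 1` is a `2^(m+1)`-th power residue if `a` is divisible by a power of two `≥ m + 3`. -/
theorem residue_add {m j s : ℕ} (hm : 4 ≤ m) (hj : j < m) (h : m + 3 ≤ 2 ^ j) (hs : Odd s)
    (hF : (Nat.fermatNumber m).Prime) :
    ((2 : ZMod (Nat.fermatNumber m)) ^ (2 ^ j * s) + 1) ^ (2 ^ (2 ^ m - (m + 1))) = 1 := by
  have h1 := residue hm hj.le h hs hF
  have h2 := residue (j := j + 1) hm hj (by rw [pow_succ]; omega) hs hF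
  have h3 : (2 : ZMod (Nat.fermatNumber m)) ^ (2 ^ (j + 1) * s) - 1 =
      (2 ^ (2 ^ j * s) - 1) * (2 ^ (2 ^ j * s) + 1) := by
    rw [pow_succ, mul_right_comm, pow_mul _ (2 ^ j * s) 2]
    ring
  rw [h3, mul_pow, h1, one_mul] at h2
  exact h2

end Pool.Agent.Q149.FB
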