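import Pool.Agent.Q149.FBD

/-!
Pell numbers modulo Fermat primes.
-/

namespace Pool.Agent.Q149.FB

open Pool.Agent.Y875.FP

/-- The Pell numbers `0, 1, 2, 5, 12, 29, ...`. -/
def pell : ℕ → ℕ
  | 0 => 0
  | 1 => 1
  | n + 2 => 2 * pell (n + 1) + pell n

lemma pell_binet {R : Type} [CommRing R] {r : R} (hr : r ^ 2 = 2) (n : ℕ) :
    2 * r * (pell n : R) = (1 + r) ^ n - (1 - r) ^ n ∧
    2 * r * (pell (n + 1) : R) = (1 + r) ^ (n + 1) - (1 - r) ^ (n + 1) := by
  induction n with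
  | zero =>
    constructor
    · simp [pell]
    · simp only [pell, zero_add, pow_one]
      push_cast
      ring
  | succ n ih =>
    refine ⟨ih.2, ?_⟩
    obtain ⟨h1, h2⟩ := ih
    have e : pell (n + 1 + 1) = 2 * pell (n + 1) + pell n := rfl
    rw [e]
    push_cast
    have h3 : (1 + r) ^ (n + 1 + 1) = 2 * (1 + r) ^ (n + 1) + (1 + r) ^ n := by
      have : (1 + r) ^ (n + 1 + 1) = (1 + r) ^ n * (1 + 2 * r + r ^ 2) := by ring
      rw [this, hr]
      ring
    have h4 : (1 - r) ^ (n + 1 + 1) = 2 * (1 - r) ^ (n + 1) + (1 - r) ^ n := by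
      have : (1 - r) ^ (n + 1 + 1) = (1 - r) ^ n * (1 - 2 * r + r ^ 2) := by ring
      rw [this, hr]
      ring
    rw [h3, h4]
    linear_combination 2 * h2 + h1

/-- Every Fermat prime `F_m`, `m ≥ 5`, divides the Pell number of index `(F_m - 1) / 2^(m+1)`. -/
theorem dvd_pell {m : ℕ} (hm : 5 ≤ m) (hF : (Nat.fermatNumber m).Prime) :
    Nat.fermatNumber m ∣ pell (2 ^ (2 ^ m - (m + 1))) := by
  have hfield : Fact (Nat.fermatNumber m).Prime := ⟨hF⟩
  have hm4 : 4 ≤ m := by omega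
  have hb := big hm4
  set T := 2 ^ (2 ^ m - (m + 1)) with hT
  set z : ZMod (Nat.fermatNumber m) := 2 ^ (2 ^ (m - 2)) with hz
  have hz4 : z ^ 4 = -1 := by
    rw [hz, ← pow_mul, show (4 : ℕ) = 2 ^ 2 by norm_num, ← pow_add,
      show m - 2 + 2 = m by omega, two_pow_two_pow]
  have hpow : m + 3 ≤ 2 ^ (m - 2) := by
    have : ∀ k : ℕ, 3 ≤ k → k + 5 ≤ 2 ^ k := by
      intro k hk
      induction k, hk using Nat.le_induction with
      | base => norm_num
      | succ k hk ih => rw [pow_succ]; omega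
    have := this (m - 2) (by omega)
    omega
  have h1 := residue hm4 (show m - 2 ≤ m by omega) hpow odd_one hF
  have h3 := residue hm4 (show m - 2 ≤ m by omega) hpow (show Odd 3 by decide) hF
  rw [mul_one, ← hz, ← hT] at h1
  rw [pow_mul, ← hz, ← hT] at h3
  have hTe := evenT hm4
  rw [← hT] at hTe
  obtain ⟨k, hk⟩ : ∃ k, T = 8 * k := by
    refine ⟨2 ^ (2 ^ m - (m + 1) - 3), ?_⟩
    rw [hT, show (8 : ℕ) = 2 ^ 3 by norm_num, ← pow_add]
    congr 1
    omega
  have hzT : z ^ T = 1 := by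
    rw [hk, pow_mul, show z ^ 8 = (z ^ 4) ^ 2 by ring, hz4]
    norm_num
  set r : ZMod (Nat.fermatNumber m) := z - z ^ 3 with hr
  have hr2 : r ^ 2 = 2 := by
    rw [hr]
    linear_combination (-2 + z ^ 2) * hz4
  have he : z * (1 + r) * (z - 1) = z ^ 3 - 1 := by
    rw [hr]
    linear_combination (1 - z) * hz4
  have hT1 : (1 + r) ^ T = 1 := by
    have := congrArg (· ^ T) he
    simp only [mul_pow] at this
    rw [hzT, h1, h3] at this
    simpa using this
  have hT2 : (1 - r) ^ T = 1 := by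
    have h5 : (1 + r) * (1 - r) = -1 := by linear_combination -hr2
    have := congrArg (· ^ T) h5
    simp only [mul_pow] at this
    rw [hT1, hTe.neg_one_pow] at this
    simpa using this
  have h6 := (pell_binet hr2 T).1
  rw [hT1, hT2, sub_self] at h6
  have h2ne : (2 : ZMod (Nat.fermatNumber m)) ≠ 0 := by
    intro h0
    have h9 := two_pow_two_pow m
    rw [h0, zero_pow (by positivity)] at h9
    have h10 : (1 : ZMod (Nat.fermatNumber m)) = 0 := by linear_combination h9
    exact one_ne_zero h10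
  have hrne : r ≠ 0 := by
    intro h0
    rw [h0] at hr2
    apply h2ne
    rw [← hr2]
    ring
  have h7 : ((pell T : ℕ) : ZMod (Nat.fermatNumber m)) = 0 := by
    rcases mul_eq_zero.mp h6 with h8 | h8
    · exfalso
      rcases mul_eq_zero.mp h8 with h9 | h9
      · exact h2ne h9
      · exact hrne h9
    · exact h8
  rwa [ZMod.natCast_eq_zero_iff] at h7

lemma unit_pow_of_pell {R : Type} [CommRing R] {r : R} (hr : r ^ 2 = 2) {n : ℕ} (hn : Even n)
    (h : (pell n : R) = 0) : (1 + r) ^ (2 * n) = 1 := by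
  have h2 := (pell_binet hr n).1
  rw [h, mul_zero] at h2
  have h3 : (1 + r) ^ n = (1 - r) ^ n := by linear_combination -h2
  have h4 : (1 + r) * (1 - r) = -1 := by linear_combination -hr
  calc (1 + r) ^ (2 * n) = (1 + r) ^ n * (1 + r) ^ n := by rw [two_mul, pow_add]
    _ = (1 + r) ^ n * (1 - r) ^ n := by rw [h3]
    _ = ((1 + r) * (1 - r)) ^ n := by rw [mul_pow]
    _ = 1 := by rw [h4, hn.neg_one_pow]

lemma not_dvd_four : ¬ 65537 ∣ pell (2 ^ 11) := by
  intro h
  have h1 : ((pell (2 ^ 11) : ℕ) : ZMod 65537) = 0 := by rwa [ZMod.natCast_eq_zero_iff]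
  have hr : ((4080 : ℕ) : ZMod 65537) ^ 2 = 2 := by decide +kernel
  have h2 := unit_pow_of_pell hr (by decide) h1
  have h3 : (((1 + 4080) ^ (2 * 2 ^ 11) : ℕ) : ZMod 65537) = ((1 : ℕ) : ZMod 65537) := by
    push_cast at h2 ⊢
    exact h2
  rw [ZMod.natCast_eq_natCast_iff] at h3
  unfold Nat.ModEq at h3
  revert h3
  decide +kernel

end Pool.Agent.Q149.FB
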