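import Mathlib

/-!
# Relations of linearly growing degree

Let `x_1, ..., x_n` be elements of a field extension of `K` and `b_j` finitely many elements which are
algebraic over `K(x)`. The values `y = P(b)` of the polynomials `P` of degree at most `k` satisfy
relations `f(y, x) = 0` over `K` of total degree at most `C k`.
-/

set_option autoImplicit false

open MvPolynomial

namespace Pool.Agent.Q149.FP

section det

variable {K σ ι : Type*} [Field K] [Fintype ι] [DecidableEq ι]

theorem totalDegree_det_le (A : Matrix ι ι (MvPolynomial σ K)) (d : ℕ)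
    (h : ∀ i j, (A i j).totalDegree ≤ d) : A.det.totalDegree ≤ Fintype.card ι * d := by
  rw [Matrix.det_apply]
  refine totalDegree_finsetSum_le fun s _ => ?_
  have h1 : (Equiv.Perm.sign s • ∏ i, A (s i) i).totalDegree ≤ (∏ i, A (s i) i).totalDegree := by
    rcases Int.units_eq_one_or (Equiv.Perm.sign s) with h | h
    · rw [h, one_smul]
    · rw [h, Units.neg_smul, one_smul, totalDegree_neg]
  refine h1.trans ((totalDegree_finsetProd _ _).trans ?_)
  refine (Finset.sum_le_card_nsmul _ _ d fun i _ => h _ _).trans ?_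
  rw [Finset.card_univ, smul_eq_mul]

end det

section main

variable {K Ω τ ι : Type*} [Field K] [Field Ω] [Algebra K Ω] {n : ℕ}

/-- multiplication by a monomial -/
theorem monomial_matrix [Fintype ι] [DecidableEq ι] (x : Fin n → Ω) (b : τ → Ω) (v : ι → Ω)
    (q : MvPolynomial (Fin n) K) (B : τ → Matrix ι ι (MvPolynomial (Fin n) K))
    (hB : ∀ j i, aeval x q * b j * v i = ∑ i', aeval x (B j i i') * v i')
    (s : ℕ) (hq : q.totalDegree ≤ s) (hs : ∀ j i i', (B j i i').totalDegree ≤ s) :
    ∀ (k : ℕ) (e : τ →₀ ℕ), e.degree ≤ k →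
      ∃ A : Matrix ι ι (MvPolynomial (Fin n) K), (∀ i i', (A i i').totalDegree ≤ k * s) ∧
        ∀ i, aeval x q ^ k * aeval b (monomial e (1 : K)) * v i =
          ∑ i', aeval x (A i i') * v i' := by
  classical
  intro k
  induction k with
  | zero =>
    intro e he
    have he0 : e = 0 := by rwa [Nat.le_zero, Finsupp.degree_eq_zero_iff] at he
    refine ⟨1, fun i i' => ?_, fun i => ?_⟩
    · rw [Matrix.one_apply]
      split_ifs
      · rw [totalDegree_one]
        exact Nat.zero_le _
      · rw [totalDegree_zero]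
        exact Nat.zero_le _
    · rw [he0, Finset.sum_eq_single i]
      · simp
      · intro i' _ hi'
        rw [Matrix.one_apply_ne (Ne.symm hi'), map_zero, zero_mul]
      · intro h
        exact absurd (Finset.mem_univ _) h
  | succ k ih =>
    intro e he
    by_cases h0 : e = 0
    · obtain ⟨A, hA, hA'⟩ := ih 0 (by simp)
      refine ⟨fun i i' => q * A i i', fun i i' => ?_, fun i => ?_⟩
      · refine (totalDegree_mul _ _).trans ?_
        have := hA i i'
        calc q.totalDegree + (A i i').totalDegree ≤ s + k * s := Nat.add_le_add hq this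
          _ = (k + 1) * s := by ring
      · have h1 := hA' i
        rw [h0, pow_succ', mul_assoc, mul_assoc, ← mul_assoc (aeval x q ^ k), h1, Finset.mul_sum]
        refine Finset.sum_congr rfl fun i' _ => ?_
        rw [map_mul, mul_assoc]
    · obtain ⟨j, hj⟩ := Finsupp.ne_iff.1 h0
      have hj' : 1 ≤ e j := Nat.one_le_iff_ne_zero.2 hj
      set w := e - Finsupp.single j 1 with hw
      have hew : e = w + Finsupp.single j 1 := by
        rw [hw, tsub_add_cancel_of_le]
        exact Finsupp.single_le_iff.2 hj'
      have hdw : w.degree ≤ k := by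
        have h2 := congrArg Finsupp.degree hew
        rw [map_add, Finsupp.degree_single] at h2
        omega
      obtain ⟨A, hA, hA'⟩ := ih w hdw
      have h3 : aeval b (monomial e (1 : K)) = aeval b (monomial w (1 : K)) * b j := by
        rw [hew, show monomial (w + Finsupp.single j 1) (1 : K) = monomial w 1 * X j by
          rw [X, monomial_mul, one_mul], map_mul, aeval_X]
      refine ⟨fun i i' => ∑ l, A i l * B j l i', fun i i' => ?_, fun i => ?_⟩
      · refine totalDegree_finsetSum_le fun l _ => (totalDegree_mul _ _).trans ?_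
        calc (A i l).totalDegree + (B j l i').totalDegree ≤ k * s + s :=
              Nat.add_le_add (hA i l) (hs j l i')
          _ = (k + 1) * s := by ring
      · rw [h3]
        have h4 : aeval x q ^ (k + 1) * (aeval b (monomial w (1 : K)) * b j) * v i =
            (aeval x q * b j) * (aeval x q ^ k * aeval b (monomial w (1 : K)) * v i) := by ring
        rw [h4, hA' i, Finset.mul_sum]
        have h5 : ∀ l, aeval x q * b j * (aeval x (A i l) * v l) =
            ∑ i', aeval x (A i l * B j l i') * v i' := by
          intro l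
          have h6 : aeval x q * b j * (aeval x (A i l) * v l) =
            aeval x (A i l) * (aeval x q * b j * v l) := by ring
          rw [h6, hB j l, Finset.mul_sum]
          refine Finset.sum_congr rfl fun i' _ => ?_
          rw [map_mul, mul_assoc]
        simp only [h5]
        rw [Finset.sum_comm]
        refine Finset.sum_congr rfl fun i' _ => ?_
        rw [map_sum, Finset.sum_mul]

/-- multiplication by the value of a polynomial -/
theorem poly_matrix [Fintype ι] [DecidableEq ι] (x : Fin n → Ω) (b : τ → Ω) (v : ι → Ω)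
    (q : MvPolynomial (Fin n) K) (B : τ → Matrix ι ι (MvPolynomial (Fin n) K))
    (hB : ∀ j i, aeval x q * b j * v i = ∑ i', aeval x (B j i i') * v i')
    (s : ℕ) (hq : q.totalDegree ≤ s) (hs : ∀ j i i', (B j i i').totalDegree ≤ s)
    (k : ℕ) (P : MvPolynomial τ K) (hP : P.totalDegree ≤ k) :
    ∃ A : Matrix ι ι (MvPolynomial (Fin n) K), (∀ i i', (A i i').totalDegree ≤ k * s) ∧
      ∀ i, aeval x q ^ k * aeval b P * v i = ∑ i', aeval x (A i i') * v i' := by
  classical
  have h1 : ∀ e ∈ P.support, e.degree ≤ k := by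
    intro e he
    have h2 := le_totalDegree he
    refine le_trans (le_of_eq ?_) (h2.trans hP)
    rfl
  have hch : ∀ e : τ →₀ ℕ, ∃ A : Matrix ι ι (MvPolynomial (Fin n) K), e ∈ P.support →
      (∀ i i', (A i i').totalDegree ≤ k * s) ∧
        ∀ i, aeval x q ^ k * aeval b (monomial e (1 : K)) * v i =
          ∑ i', aeval x (A i i') * v i' := by
    intro e
    by_cases he : e ∈ P.support
    · obtain ⟨A, hA⟩ := monomial_matrix x b v q B hB s hq hs k e (h1 e he)
      exact ⟨A, fun _ => hA⟩
    · exact ⟨0, fun h => absurd h he⟩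
  choose A hA using hch
  refine ⟨fun i i' => ∑ e ∈ P.support, C (coeff e P) * A e i i', fun i i' => ?_, fun i => ?_⟩
  · refine totalDegree_finsetSum_le fun e he => (totalDegree_mul _ _).trans ?_
    rw [totalDegree_C, zero_add]
    exact (hA e he).1 i i'
  · have h2 : aeval b P = ∑ e ∈ P.support, algebraMap K Ω (coeff e P) *
        aeval b (monomial e (1 : K)) := by
      conv_lhs => rw [P.as_sum, map_sum]
      refine Finset.sum_congr rfl fun e _ => ?_
      rw [aeval_monomial, aeval_monomial, map_one, one_mul]
    rw [h2, Finset.mul_sum, Finset.sum_mul]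
    have h3 : ∀ e ∈ P.support, aeval x q ^ k * (algebraMap K Ω (coeff e P) *
        aeval b (monomial e (1 : K))) * v i =
        ∑ i', aeval x (C (coeff e P) * A e i i') * v i' := by
      intro e he
      have h4 : aeval x q ^ k * (algebraMap K Ω (coeff e P) * aeval b (monomial e (1 : K))) * v i =
        algebraMap K Ω (coeff e P) * (aeval x q ^ k * aeval b (monomial e (1 : K)) * v i) := by
        ring
      rw [h4, (hA e he).2 i, Finset.mul_sum]
      refine Finset.sum_congr rfl fun i' _ => ?_
      rw [map_mul, aeval_C, mul_assoc]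
    rw [Finset.sum_congr rfl h3, Finset.sum_comm]
    refine Finset.sum_congr rfl fun i' _ => ?_
    rw [map_sum, Finset.sum_mul]

/-- a relation from a matrix -/
theorem exists_rel_of_matrix [Infinite Ω] [Fintype ι] [DecidableEq ι] (x : Fin n → Ω) (y : Ω)
    (v : ι → Ω) (hv : v ≠ 0) (Q : MvPolynomial (Fin n) K) (hQ : aeval x Q ≠ 0)
    (A : Matrix ι ι (MvPolynomial (Fin n) K)) (s : ℕ) (hQs : Q.totalDegree ≤ s)
    (hs : ∀ i i', (A i i').totalDegree ≤ s)
    (h : ∀ i, aeval x Q * y * v i = ∑ i', aeval x (A i i') * v i') :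
    ∃ f : MvPolynomial (Fin (n + 1)) K, f ≠ 0 ∧ f.totalDegree ≤ Fintype.card ι * (s + 1) ∧
      aeval (Fin.cons y x : Fin (n + 1) → Ω) f = 0 := by
  classical
  let M : Matrix ι ι (MvPolynomial (Fin (n + 1)) K) := fun i i' =>
    (if i = i' then rename Fin.succ Q * X 0 else 0) - rename Fin.succ (A i i')
  have hval : ∀ z : Ω, aeval (Fin.cons z x : Fin (n + 1) → Ω) M.det =
      Matrix.det (fun i i' => (if i = i' then aeval x Q * z else 0) - aeval x (A i i') :
        Matrix ι ι Ω) := by
    intro z
    rw [AlgHom.map_det]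
    congr 1
    ext i i'
    have h1 : ∀ p : MvPolynomial (Fin n) K,
        aeval (Fin.cons z x : Fin (n + 1) → Ω) (rename Fin.succ p) = aeval x p := by
      intro p
      rw [aeval_rename]
      rfl
    change aeval (Fin.cons z x : Fin (n + 1) → Ω) (M i i') = _
    simp only [M]
    rw [map_sub, h1]
    split_ifs
    · rw [map_mul, h1, aeval_X, Fin.cons_zero]
    · rw [map_zero]
  refine ⟨M.det, ?_, ?_, ?_⟩
  · intro h0
    -- evaluate at a number which is not an eigenvalue
    let A' : Matrix ι ι Ω := fun i i' => (aeval x Q)⁻¹ * aeval x (A i i')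
    obtain ⟨z, hz⟩ : ∃ z : Ω, (A'.charpoly).eval z ≠ 0 := by
      by_contra hcon
      push Not at hcon
      exact A'.charpoly_monic.ne_zero (Polynomial.funext fun r => by rw [hcon r, Polynomial.eval_zero])
    apply hz
    have h1 := hval z
    rw [h0, map_zero] at h1
    have h2 : (fun i i' => (if i = i' then aeval x Q * z else 0) - aeval x (A i i') :
        Matrix ι ι Ω) = aeval x Q • (Matrix.scalar ι z - A') := by
      ext i i'
      rw [Matrix.smul_apply, Matrix.sub_apply, Matrix.scalar_apply, Matrix.diagonal_apply,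
        smul_eq_mul, mul_sub]
      simp only [A']
      rw [mul_ite, mul_zero, mul_inv_cancel_left₀ hQ]
    rw [h2, Matrix.det_smul] at h1
    rw [Matrix.eval_charpoly]
    rcases mul_eq_zero.1 h1.symm with h3 | h3
    · exact absurd h3 (pow_ne_zero _ hQ)
    · exact h3
  · refine totalDegree_det_le M (s + 1) fun i i' => ?_
    simp only [M]
    refine (totalDegree_sub _ _).trans (max_le ?_ ?_)
    · split_ifs
      · refine (totalDegree_mul _ _).trans (Nat.add_le_add ((totalDegree_rename_le _ _).trans hQs) ?_)
        rw [totalDegree_X]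
      · rw [totalDegree_zero]
        exact Nat.zero_le _
    · exact ((totalDegree_rename_le _ _).trans (hs i i')).trans (Nat.le_succ _)
  · rw [hval y]
    refine Matrix.exists_mulVec_eq_zero_iff.1 ⟨v, hv, ?_⟩
    funext i
    change ∑ i', ((if i = i' then aeval x Q * y else 0) - aeval x (A i i')) * v i' = 0
    have h1 : ∀ i', ((if i = i' then aeval x Q * y else 0) - aeval x (A i i')) * v i' =
        (if i = i' then aeval x Q * y * v i' else 0) - aeval x (A i i') * v i' := by
      intro i'
      rw [sub_mul, ite_mul, zero_mul]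
    simp only [h1]
    rw [Finset.sum_sub_distrib, Finset.sum_ite_eq, if_pos (Finset.mem_univ _), ← h i, sub_self]

/-- denominators: the elements of `K(x)` -/
theorem exists_data [CharZero K] [Finite τ] (x : Fin n → Ω) (b : τ → Ω)
    (hb : ∀ j, IsAlgebraic (IntermediateField.adjoin K (Set.range x)) (b j)) :
    ∃ (d : ℕ) (v : Fin d → Ω) (q : MvPolynomial (Fin n) K)
      (B : τ → Matrix (Fin d) (Fin d) (MvPolynomial (Fin n) K)),
      v ≠ 0 ∧ aeval x q ≠ 0 ∧
        ∀ j i, aeval x q * b j * v i = ∑ i', aeval x (B j i i') * v i' := by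
  classical
  have := Fintype.ofFinite τ
  let E := IntermediateField.adjoin K (Set.range x)
  let L := IntermediateField.adjoin E (Set.range b)
  have hfd : FiniteDimensional E L := by
    refine IntermediateField.finiteDimensional_adjoin ?_
    rintro _ ⟨j, rfl⟩
    exact (hb j).isIntegral
  let w := Module.finBasis E L
  let v : Fin (Module.finrank E L) → Ω := fun i => (w i : Ω)
  let bL : τ → L := fun j => ⟨b j, IntermediateField.subset_adjoin _ _ ⟨j, rfl⟩⟩
  let c : τ → Fin (Module.finrank E L) → Fin (Module.finrank E L) → E :=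
    fun j i i' => w.repr (bL j * w i) i'
  have hc : ∀ j i, b j * v i = ∑ i', (c j i i' : Ω) * v i' := by
    intro j i
    have h1 := w.sum_repr (bL j * w i)
    have h2 : ((∑ i', w.repr (bL j * w i) i' • w i' : L) : Ω) = ((bL j * w i : L) : Ω) :=
      congrArg (fun z : L => (z : Ω)) h1
    rw [IntermediateField.coe_sum] at h2
    have h3 : ((bL j * w i : L) : Ω) = b j * v i := rfl
    rw [← h3, ← h2]
    refine Finset.sum_congr rfl fun i' _ => ?_
    rfl
  have hfrac : ∀ j i i', ∃ r s : MvPolynomial (Fin n) K, aeval x s ≠ 0 ∧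
      (c j i i' : Ω) * aeval x s = aeval x r := by
    intro j i i'
    obtain ⟨r, s, hrs⟩ := (IntermediateField.mem_adjoin_range_iff K x (c j i i' : Ω)).1
      (c j i i').2
    by_cases hs : aeval x s = 0
    · refine ⟨0, 1, by rw [map_one]; exact one_ne_zero, ?_⟩
      rw [hrs, hs, div_zero, zero_mul, map_zero]
    · exact ⟨r, s, hs, by rw [hrs, div_mul_cancel₀ _ hs]⟩
  choose r s hs hrs using hfrac
  let q : MvPolynomial (Fin n) K := ∏ t : τ × Fin (Module.finrank E L) × Fin (Module.finrank E L),
    s t.1 t.2.1 t.2.2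
  let B : τ → Matrix (Fin (Module.finrank E L)) (Fin (Module.finrank E L))
      (MvPolynomial (Fin n) K) := fun j i i' =>
    r j i i' * ∏ t ∈ Finset.univ.erase (j, i, i'), s t.1 t.2.1 t.2.2
  have hB : ∀ j i i', aeval x q * (c j i i' : Ω) = aeval x (B j i i') := by
    intro j i i'
    have h1 : q = s j i i' * ∏ t ∈ Finset.univ.erase (j, i, i'), s t.1 t.2.1 t.2.2 :=
      (Finset.mul_prod_erase Finset.univ (fun t : τ × Fin (Module.finrank E L) ×
        Fin (Module.finrank E L) => s t.1 t.2.1 t.2.2) (Finset.mem_univ (j, i, i'))).symm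
    rw [h1]
    simp only [B]
    rw [map_mul, map_mul, ← hrs j i i']
    ring
  refine ⟨_, v, q, B, ?_, ?_, fun j i => ?_⟩
  · intro h0
    have h1 : ∀ i, w i = 0 := fun i => Subtype.ext (congrFun h0 i)
    have h2 : (1 : L) = 0 := by
      rw [← w.sum_repr 1]
      exact Finset.sum_eq_zero fun i _ => by rw [h1 i, smul_zero]
    exact one_ne_zero h2
  · rw [map_prod]
    exact Finset.prod_ne_zero_iff.2 fun t _ => hs _ _ _
  · rw [mul_assoc, hc j i, Finset.mul_sum]
    refine Finset.sum_congr rfl fun i' _ => ?_
    rw [← hB j i i', mul_assoc]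

/-- **Relations of linearly growing degree.** -/
theorem exists_rel_linear [CharZero K] [Finite τ] (x : Fin n → Ω) (b : τ → Ω)
    (hb : ∀ j, IsAlgebraic (IntermediateField.adjoin K (Set.range x)) (b j)) :
    ∃ Cc : ℕ, ∀ k : ℕ, 1 ≤ k → ∀ P : MvPolynomial τ K, P.totalDegree ≤ k →
      ∃ f : MvPolynomial (Fin (n + 1)) K, f ≠ 0 ∧ f.totalDegree ≤ Cc * k ∧
        aeval (Fin.cons (aeval b P) x : Fin (n + 1) → Ω) f = 0 := by
  classical
  have := Fintype.ofFinite τ
  have hchar : CharZero Ω := charZero_of_injective_algebraMap (algebraMap K Ω).injective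
  obtain ⟨d, v, q, B, hv, hq, hB⟩ := exists_data x b hb
  let s : ℕ := q.totalDegree + ∑ t : τ × Fin d × Fin d, (B t.1 t.2.1 t.2.2).totalDegree
  have hqs : q.totalDegree ≤ s := Nat.le_add_right _ _
  have hs : ∀ j i i', (B j i i').totalDegree ≤ s := fun j i i' =>
    (Finset.single_le_sum (f := fun t : τ × Fin d × Fin d => (B t.1 t.2.1 t.2.2).totalDegree)
      (fun _ _ => Nat.zero_le _) (Finset.mem_univ (j, i, i'))).trans (Nat.le_add_left _ _)
  refine ⟨d * (s + 1), fun k hk P hP => ?_⟩
  obtain ⟨A, hA, hA'⟩ := poly_matrix x b v q B hB s hqs hs k P hP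
  obtain ⟨f, hf0, hfd, hf⟩ := exists_rel_of_matrix x (aeval b P) v hv (q ^ k)
    (by rw [map_pow]; exact pow_ne_zero _ hq) A (k * s)
    ((totalDegree_pow _ _).trans (Nat.mul_le_mul_left _ hqs)) hA (fun i => by
      rw [map_pow]
      exact hA' i)
  refine ⟨f, hf0, hfd.trans ?_, hf⟩
  rw [Fintype.card_fin, mul_assoc]
  refine Nat.mul_le_mul_left _ ?_
  nlinarith

end main

section count

/-- the number of monomials -/
theorem finrank_restrict {K : Type*} [Field K] (n m : ℕ) :
    Module.finrank K (restrictTotalDegree (Fin n) K m) = (m + n).choose n := by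
  classical
  have h : Module.finrank K (restrictTotalDegree (Fin n) K m) =
      Nat.card {s : Fin n →₀ ℕ | (s.sum fun _ e => e) ≤ m} :=
    Module.finrank_eq_nat_card_basis
      (basisRestrictSupport K {s : Fin n →₀ ℕ | (s.sum fun _ e => e) ≤ m})
  rw [h]
  set T := (Finset.univ : Finset (Option (Fin n))).finsuppAntidiag m with hT
  have hcard : T.card = (m + n).choose n := by
    rw [hT, Finset.card_finsuppAntidiag_nat_eq_choose]
    rw [Finset.card_univ, Fintype.card_option, Fintype.card_fin]
    rw [show n + 1 + m - 1 = m + n by omega]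
    exact (Nat.choose_symm_of_eq_add rfl)
  rw [← hcard, ← Fintype.card_coe, ← Nat.card_eq_fintype_card]
  refine Nat.card_congr (Equiv.ofBijective
    (fun s : {s : Fin n →₀ ℕ | (s.sum fun _ e => e) ≤ m} =>
      (⟨s.1.optionElim (m - s.1.degree), by
        rw [hT, Finset.mem_finsuppAntidiag]
        refine ⟨?_, Finset.subset_univ _⟩
        rw [Fintype.sum_option]
        simp only [Finsupp.optionElim_apply_none, Finsupp.optionElim_apply_some]
        have h1 : s.1.degree = ∑ i, s.1 i := Finsupp.degree_eq_sum _
        have h2 : (s.1.sum fun _ e => e) ≤ m := s.2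
        rw [Finsupp.sum_fintype _ _ (fun _ => rfl)] at h2
        omega⟩ : T)) ⟨?_, ?_⟩)
  · intro s s' hss
    apply Subtype.ext
    ext i
    have h1 := congrArg (fun z : T => z.1 (some i)) hss
    simpa using h1
  · rintro ⟨f, hf⟩
    rw [hT, Finset.mem_finsuppAntidiag, Fintype.sum_option] at hf
    have h1 : (f.some.sum fun _ e => e) ≤ m := by
      rw [Finsupp.sum_fintype _ _ (fun _ => rfl)]
      have : ∑ i, f.some i = ∑ i, f (some i) := rfl
      omega
    refine ⟨⟨f.some, h1⟩, ?_⟩
    apply Subtype.ext
    ext o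
    have h3 : f.some.degree = ∑ i, f (some i) := Finsupp.degree_eq_sum _
    cases o with
    | none =>
      simp only [Finsupp.optionElim_apply_none]
      omega
    | some i =>
      simp only [Finsupp.optionElim_apply_some]
      rfl

end count

end Pool.Agent.Q149.FP
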