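import Pool.Agent.Q147.GP.PlainMain
import Pool.Agent.Q57.PH.Law
import Pool.Agent.Q149.FPdeg

/-!
# Elements of an algebra whose values are related in bounded degree to given numbers
-/

set_option autoImplicit false
set_option linter.unusedSectionVars false

open MvPolynomial Module

namespace Pool.Agent.Q149.FP

universe uk uo ua

variable {K : Type uk} {Ω : Type uo} {A : Type ua} [Field K] [IsAlgClosed K] [CharZero K] [Field Ω]
  [Algebra K Ω] [IsAlgClosed Ω] [CommRing A] [Algebra K A]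

/-- a nonzero relation of total degree at most `D` between `y` and `x_1, ..., x_n` -/
def Rl (K : Type uk) [Field K] {Ω : Type uo} [Field Ω] [Algebra K Ω] {n : ℕ} (x : Fin n → Ω) (D : ℕ)
    (y : Ω) : Prop :=
  ∃ f : MvPolynomial (Fin (n + 1)) K, f ≠ 0 ∧ f.totalDegree ≤ D ∧
    aeval (Fin.cons y x : Fin (n + 1) → Ω) f = 0

theorem rl_iff {n : ℕ} (x : Fin n → Ω) (D : ℕ) (y : Ω) :
    Rl K x D y ↔ Pool.Agent.Q147.GP.RelT (k := K) x D y :=
  (Pool.Agent.Q147.GP.relT_iff x D y).symm

/-- the exact set of the elements with related values -/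
theorem structure_thm {n : ℕ} (hn : 0 < n) (x : Fin n → Ω) (hx : AlgebraicIndependent K x) (D : ℕ)
    (ev : A →ₐ[K] Ω) (F : Submodule K A) [FiniteDimensional K F] :
    ∃ UU : Set (Submodule K A), UU.Finite ∧
      (∀ p, (p ∈ F ∧ Rl K x D (ev p)) ↔ ∃ U ∈ UU, p ∈ U) ∧
      ∀ U ∈ UU, finrank K U ≤
        (D + n).choose n + finrank K (F ⊓ LinearMap.ker ev.toLinearMap : Submodule K A) := by
  obtain ⟨VV, hf, hV, hd⟩ := Pool.Agent.Q147.GP.plain_main hn x hx D (F.map ev.toLinearMap)
  refine ⟨(fun V : Submodule K Ω => F ⊓ V.comap ev.toLinearMap) '' VV, hf.image _, fun p => ?_, ?_⟩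
  · constructor
    · rintro ⟨hpF, hp⟩
      obtain ⟨V, hVV, hpV⟩ := (hV (ev p)).1 ⟨⟨p, hpF, rfl⟩, (rl_iff x D _).1 hp⟩
      exact ⟨_, ⟨V, hVV, rfl⟩, hpF, hpV⟩
    · rintro ⟨_, ⟨V, hVV, rfl⟩, hpF, hpV⟩
      exact ⟨hpF, (rl_iff x D _).2 ((hV (ev p)).2 ⟨V, hVV, hpV⟩).2⟩
  · rintro _ ⟨V, hVV, rfl⟩
    obtain ⟨hfd, -, hdim⟩ := hd V hVV
    have hfdV : FiniteDimensional K V := Submodule.finiteDimensional_of_le (le_sup_left :
      V ≤ V ⊔ Submodule.span K ({1} ∪ Set.range x))
    have h1 : finrank K V ≤ (D + n).choose n := (Submodule.finrank_mono le_sup_left).trans hdim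
    have : FiniteDimensional K (F ⊓ V.comap ev.toLinearMap : Submodule K A) :=
      Submodule.finiteDimensional_of_le inf_le_left
    have : FiniteDimensional K (F ⊓ LinearMap.ker ev.toLinearMap : Submodule K A) :=
      Submodule.finiteDimensional_of_le inf_le_left
    have h2 := Pool.Agent.Q57.PH.finrank_map_add ev.toLinearMap
      (F ⊓ V.comap ev.toLinearMap : Submodule K A)
    have h3 : finrank K ((F ⊓ V.comap ev.toLinearMap : Submodule K A).map ev.toLinearMap) ≤
        finrank K V := by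
      refine Submodule.finrank_mono ?_
      rintro _ ⟨p, ⟨-, hp⟩, rfl⟩
      exact hp
    have h4 : finrank K ((F ⊓ V.comap ev.toLinearMap) ⊓ LinearMap.ker ev.toLinearMap :
        Submodule K A) ≤ finrank K (F ⊓ LinearMap.ker ev.toLinearMap : Submodule K A) :=
      Submodule.finrank_mono (inf_le_inf_right _ inf_le_left)
    change finrank K (F ⊓ V.comap ev.toLinearMap : Submodule K A) ≤ _
    omega

/-- spaces of elements with related values -/
theorem finrank_le_of_related {n : ℕ} (hn : 0 < n) (x : Fin n → Ω) (hx : AlgebraicIndependent K x)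
    (D : ℕ) (ev : A →ₐ[K] Ω) (U : Submodule K A) [FiniteDimensional K U]
    (h : ∀ p ∈ U, Rl K x D (ev p)) :
    finrank K U ≤
      (D + n).choose n + finrank K (U ⊓ LinearMap.ker ev.toLinearMap : Submodule K A) := by
  have h1 : finrank K (U.map ev.toLinearMap) ≤ (D + n).choose n := by
    refine Pool.Agent.Q147.GP.finrank_le_tot hn x hx D _ ?_
    rintro _ ⟨p, hp, rfl⟩
    exact (rl_iff x D _).1 (h p hp)
  have h2 := Pool.Agent.Q57.PH.finrank_map_add ev.toLinearMap U
  omega

/-- the bound is attained -/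
theorem sharp {n : ℕ} (x : Fin n → Ω) (hx : AlgebraicIndependent K x) {D : ℕ} (hD : 1 ≤ D)
    (ev : A →ₐ[K] Ω) (hr : ∀ i, x i ∈ Set.range ev) :
    ∃ U : Submodule K A, FiniteDimensional K U ∧ finrank K U = (D + n).choose n ∧
      U ⊓ LinearMap.ker ev.toLinearMap = ⊥ ∧
      ∀ p ∈ U ⊔ LinearMap.ker ev.toLinearMap, Rl K x D (ev p) := by
  choose a ha using hr
  let φ : MvPolynomial (Fin n) K →ₗ[K] A := (aeval (R := K) a).toLinearMap
  have hφ : ∀ p, ev (φ p) = aeval x p := by
    intro p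
    have h := comp_aeval_apply a ev p
    have h2 : (fun i => ev (a i)) = x := funext ha
    rw [h2] at h
    exact h
  have hinj : Function.Injective φ := by
    intro p q hpq
    have h1 := congrArg ev hpq
    rw [hφ, hφ] at h1
    exact hx h1
  refine ⟨(restrictTotalDegree (Fin n) K D).map φ, inferInstance, ?_, ?_, ?_⟩
  · rw [← finrank_restrict (K := K) n D]
    exact (LinearEquiv.finrank_eq (Submodule.equivMapOfInjective φ hinj _)).symm
  · rw [eq_bot_iff]
    rintro _ ⟨⟨p, hp, rfl⟩, hk⟩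
    have h1 : ev (φ p) = 0 := hk
    rw [hφ] at h1
    have h2 : p = 0 := hx (by rw [h1, map_zero])
    rw [h2, map_zero]
    exact Submodule.zero_mem _
  · intro u hu
    obtain ⟨_, ⟨p, hp, rfl⟩, z, hz, rfl⟩ := Submodule.mem_sup.1 hu
    have h1 : ev z = 0 := hz
    rw [map_add, h1, add_zero, hφ]
    have hpD : p.totalDegree ≤ D := (mem_restrictTotalDegree (σ := Fin n) (R := K) _ _).1 hp
    refine ⟨X 0 - rename Fin.succ p, ?_, ?_, ?_⟩
    · intro h0
      have h3 := congrArg (aeval (Fin.cons 1 (fun _ => 0) : Fin (n + 1) → K)) h0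
      have h4 := congrArg (aeval (Fin.cons 0 (fun _ => 0) : Fin (n + 1) → K)) h0
      have h5 : ∀ c : K, aeval (Fin.cons c (fun _ => 0) : Fin (n + 1) → K) (rename Fin.succ p) =
          aeval (fun _ => (0 : K)) p := by
        intro c
        rw [aeval_rename]
        rfl
      rw [map_sub, aeval_X, h5, map_zero, Fin.cons_zero, sub_eq_zero] at h3 h4
      exact one_ne_zero (h3.trans h4.symm)
    · refine (totalDegree_sub _ _).trans (max_le ?_ ((totalDegree_rename_le _ _).trans hpD))
      rw [totalDegree_X]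
      exact hD
    · rw [map_sub, aeval_X, Fin.cons_zero, aeval_rename, sub_eq_zero]
      rfl

end Pool.Agent.Q149.FP
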