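import Pool.Agent.Q57.PH.Law
import Pool.Agent.Q149.FPdeg

/-!
# Ideals in the algebra of functions on a torsor
-/

set_option autoImplicit false
set_option linter.unusedSectionVars false

open MvPolynomial Module Pool.Agent.Q57.PH

namespace Pool.Agent.Q149.FP

section chain

variable {K A : Type*} [Field K] [AddCommGroup A] [Module K A]

/-- an increasing union of spaces of bounded dimension -/
theorem finite_of_bounded (V : ℕ → Submodule K A) (hV : Monotone V)
    (hfin : ∀ k, FiniteDimensional K (V k)) (hall : ∀ a, ∃ k, a ∈ V k) (c : ℕ)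
    (hc : ∀ k, finrank K (V k) ≤ c) : FiniteDimensional K A := by
  classical
  have hbdd : BddAbove (Set.range fun k => finrank K (V k)) := ⟨c, by rintro _ ⟨k, rfl⟩; exact hc k⟩
  obtain ⟨k, hk⟩ := Nat.sSup_mem (Set.range_nonempty fun k => finrank K (V k)) hbdd
  have hmax : ∀ j, finrank K (V j) ≤ finrank K (V k) := by
    intro j
    have h1 : finrank K (V k) = sSup (Set.range fun k => finrank K (V k)) := hk
    rw [h1]
    exact le_csSup hbdd ⟨j, rfl⟩
  have htop : V k = ⊤ := by
    rw [eq_top_iff]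
    intro a _
    obtain ⟨j, hj⟩ := hall a
    have h1 : V k ≤ V (max j k) := hV (le_max_right _ _)
    have h2 := Submodule.eq_of_le_of_finrank_le h1 (hmax _)
    rw [h2]
    exact hV (le_max_left _ _) hj
  have h3 := hfin k
  rw [htop] at h3
  exact Module.Finite.equiv (Submodule.topEquiv (R := K) (M := A))

end chain

variable {K : Type*} [Field K] {N : ℕ}

/-- a nonzero ideal of an infinite dimensional algebra of functions on a torsor contains spaces of
any dimension -/
theorem exists_large (G : Subgroup (GL (Fin N) K)) (g₀ : GL (Fin N) K)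
    (hinf : ¬ FiniteDimensional K (MvPolynomial (Fin N × Fin N) K ⧸ vI (pts G g₀)))
    (I : Ideal (MvPolynomial (Fin N × Fin N) K ⧸ vI (pts G g₀))) (hI : I ≠ ⊥) (m : ℕ) :
    ∃ U : Submodule K (MvPolynomial (Fin N × Fin N) K ⧸ vI (pts G g₀)),
      (∀ u ∈ U, u ∈ I) ∧ FiniteDimensional K U ∧ m ≤ finrank K U := by
  classical
  let T := pts G g₀
  let A := MvPolynomial (Fin N × Fin N) K ⧸ vI T
  let X' : Fin N × Fin N → A := fun e => Ideal.Quotient.mk (vI T) (X e)
  have hT : Homog T := homog G g₀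
  obtain ⟨f, hfI, hf0⟩ := Submodule.exists_mem_ne_zero_of_ne_bot hI
  obtain ⟨a, rfl⟩ := Ideal.Quotient.mk_surjective f
  have ha : a ∉ vI T := fun h => hf0 (Ideal.Quotient.eq_zero_iff_mem.2 h)
  obtain ⟨Q, hQc, haQ⟩ : ∃ Q ∈ comps T, a ∉ Q := by
    by_contra hcon
    push Not at hcon
    exact ha ((mem_vI_iff T).2 hcon)
  have hQp : Q.IsPrime := ((mem_comps T).1 hQc).isPrime
  have hle : vI T ≤ Q := ((mem_comps T).1 hQc).le
  -- the growth of the component is not bounded
  have hunb : ∃ k, m ≤ hQ Q k := by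
    by_contra hcon
    push Not at hcon
    apply hinf
    refine finite_of_bounded (fun k => vals K X' k) (fun i j hij => vals_mono K X' hij)
      (fun k => inferInstance) (fun b => ?_) ((comps T).card * m) fun k => ?_
    · obtain ⟨p, rfl⟩ := Ideal.Quotient.mk_surjective b
      exact ⟨p.totalDegree, (mem_vals K).2 ⟨p, le_rfl, aeval_mk _ p⟩⟩
    · have h1 : finrank K (vals K X' k) = hf K (xT T) k := by
        refine hf_eq_of_ker (xT T) X' (fun p => ?_) k
        rw [aeval_mk_eq_zero]
        rfl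
      rw [h1]
      refine (upper T k).trans ?_
      refine (Finset.sum_le_card_nsmul _ _ m fun Q' hQ' => ?_).trans (by rw [smul_eq_mul])
      rw [hQ_eq hT hQc hQ' k]
      exact (hcon k).le
  obtain ⟨k, hk⟩ := hunb
  let U : Submodule K A := (vals K X' k).map (LinearMap.mulLeft K (Ideal.Quotient.mk (vI T) a))
  refine ⟨U, ?_, inferInstance, hk.trans ?_⟩
  · rintro _ ⟨b, -, rfl⟩
    rw [LinearMap.mulLeft_apply, mul_comm]
    exact I.mul_mem_left _ hfI
  · -- the image in the component
    let π : A →ₐ[K] MvPolynomial (Fin N × Fin N) K ⧸ Q := Ideal.Quotient.factorₐ K hle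
    have hπ : ∀ p, π (Ideal.Quotient.mk (vI T) p) = Ideal.Quotient.mk Q p := fun p => rfl
    have h1 : ((vQ Q k).map (LinearMap.mulLeft K (Ideal.Quotient.mk Q a))) ≤ U.map π.toLinearMap := by
      rintro _ ⟨b, hb, rfl⟩
      obtain ⟨p, hp, rfl⟩ := (mem_vals K).1 hb
      refine ⟨Ideal.Quotient.mk (vI T) a * Ideal.Quotient.mk (vI T) p,
        ⟨Ideal.Quotient.mk (vI T) p, (mem_vals K).2 ⟨p, hp, aeval_mk _ p⟩, rfl⟩, ?_⟩
      rw [AlgHom.toLinearMap_apply, map_mul, hπ, hπ, LinearMap.mulLeft_apply, aeval_mk]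
    have h2 : Function.Injective (LinearMap.mulLeft K (Ideal.Quotient.mk Q a)) := by
      have ha' : Ideal.Quotient.mk Q a ≠ 0 := fun h => haQ (Ideal.Quotient.eq_zero_iff_mem.1 h)
      intro u v huv
      exact mul_left_cancel₀ ha' huv
    have h3 : finrank K ((vQ Q k).map (LinearMap.mulLeft K (Ideal.Quotient.mk Q a))) = hQ Q k :=
      (LinearEquiv.finrank_eq (Submodule.equivMapOfInjective _ h2 (vQ Q k))).symm
    rw [← h3]
    exact (Submodule.finrank_mono h1).trans (Submodule.finrank_map_le _ _)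

end Pool.Agent.Q149.FP
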