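import Pool.Agent.Q57.PH.Law
import Pool.Agent.Q149.FPgen
import Pool.Agent.Q149.FPtor

/-!
# Growth of the spaces of values and the transcendence degree
-/

set_option autoImplicit false
set_option linter.unusedSectionVars false

open MvPolynomial Module Pool.Agent.Q57.PH

namespace Pool.Agent.Q149.FP

section indep

variable {K L σ : Type} [Field K] [Field L] [Algebra K L] [Finite σ]

/-- algebraically independent generators -/
theorem exists_indep_gens (b : σ → L) {n : ℕ}
    (hn : Algebra.trdeg K (IntermediateField.adjoin K (Set.range b)) = n) :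
    ∃ f : Fin n → σ, AlgebraicIndependent K (fun i => b (f i)) := by
  classical
  let A := Algebra.adjoin K (Set.range b)
  let b' : σ → A := fun i => ⟨b i, Algebra.subset_adjoin ⟨i, rfl⟩⟩
  have htr : Algebra.trdeg K A = n := by rw [← trdeg_adjoin_aux, hn]
  have hgen : Algebra.adjoin K (Set.range b') = ⊤ := by
    rw [eq_top_iff]
    rintro ⟨z, hz⟩ -
    have h1 : Set.range b = A.val '' Set.range b' := by
      rw [← Set.range_comp]
      rfl
    have h2 : z ∈ (Algebra.adjoin K (Set.range b')).map A.val := by
      rw [AlgHom.map_adjoin, ← h1]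
      exact hz
    obtain ⟨w, hw, hwz⟩ := h2
    have : w = ⟨z, hz⟩ := Subtype.ext hwz
    rwa [← this]
  have halg : Algebra.IsAlgebraic (Algebra.adjoin K (Set.range b')) A := by
    rw [hgen]
    exact ⟨fun z => isAlgebraic_algebraMap (⟨z, Algebra.mem_top⟩ : (⊤ : Subalgebra K A))⟩
  obtain ⟨t, htS, ht⟩ := exists_isTranscendenceBasis_subset (R := K) (Set.range b')
  have hfin : t.Finite := (Set.finite_range b').subset htS
  have : Fintype t := hfin.fintype
  have hcard : Fintype.card t = n := by
    have h1 := ht.cardinalMk_eq_trdeg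
    rw [htr, Cardinal.mk_fintype] at h1
    exact_mod_cast h1
  have hch : ∀ z : t, ∃ i, b' i = z := fun z => htS z.2
  choose g hg using hch
  let e : Fin n ≃ t := (Fintype.equivFinOfCardEq hcard).symm
  refine ⟨fun i => g (e i), ?_⟩
  have h1 : AlgebraicIndependent K (fun z : t => (z : A)) := ht.1
  have h2 : AlgebraicIndependent K (fun i : Fin n => ((e i : t) : A)) :=
    h1.comp _ e.injective
  have h3 : AlgebraicIndependent K (fun i : Fin n => A.val ((e i : t) : A)) :=
    h2.map' (f := A.val) Subtype.val_injective
  have h4 : (fun i : Fin n => A.val ((e i : t) : A)) = fun i => b (g (e i)) := by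
    funext i
    rw [← hg (e i)]
    rfl
  rwa [h4] at h3

/-- lower bound for the growth -/
theorem choose_le_hf (b : σ → L) {n : ℕ}
    (hn : Algebra.trdeg K (IntermediateField.adjoin K (Set.range b)) = n) (k : ℕ) :
    (k + n).choose n ≤ hf K b k := by
  obtain ⟨f, hf⟩ := exists_indep_gens b hn
  rw [← finrank_restrict (K := K) n k]
  have h1 : Function.Injective (aeval (R := K) fun i => b (f i)).toLinearMap := hf
  rw [LinearEquiv.finrank_eq (Submodule.equivMapOfInjective _ h1 (restrictTotalDegree (Fin n) K k))]
  refine Submodule.finrank_mono ?_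
  rintro _ ⟨p, hp, rfl⟩
  have hp' : p.totalDegree ≤ k := (mem_restrictTotalDegree (σ := Fin n) (R := K) _ _).1 hp
  refine (mem_vals K).2 ⟨rename f p, (totalDegree_rename_le _ _).trans hp', ?_⟩
  rw [aeval_rename]
  rfl

end indep

end Pool.Agent.Q149.FP
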