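import Mathlib

/-!
# Coefficients of `1 / (1 - δ x² - α u² - β v² - γ x u v)`

`kap δ α β γ (n+3) (i+2) (j+2)` is the coefficient of `x^n u^i v^j`; the shift of the indices
avoids negative indices.  `Kh` is the sum over a box.
-/

namespace Pool.Agent.Q149.FT

/-- shifted coefficients -/
noncomputable def kap (de al be ga : ℝ) : ℕ → ℕ → ℕ → ℝ
  | n + 3, i + 2, j + 2 => (if n = 0 ∧ i = 0 ∧ j = 0 then 1 else 0)
      + de * kap de al be ga (n + 1) (i + 2) (j + 2)
      + al * kap de al be ga (n + 3) i (j + 2)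
      + be * kap de al be ga (n + 3) (i + 2) j
      + ga * kap de al be ga (n + 2) (i + 1) (j + 1)
  | 0, _, _ => 0
  | 1, _, _ => 0
  | 2, _, _ => 0
  | _ + 3, 0, _ => 0
  | _ + 3, 1, _ => 0
  | _ + 3, _ + 2, 0 => 0
  | _ + 3, _ + 2, 1 => 0
termination_by n i j => n + i + j

variable {de al be ga : ℝ}

lemma kap_rec (n i j : ℕ) : kap de al be ga (n + 3) (i + 2) (j + 2)
    = (if n = 0 ∧ i = 0 ∧ j = 0 then 1 else 0)
      + de * kap de al be ga (n + 1) (i + 2) (j + 2)
      + al * kap de al be ga (n + 3) i (j + 2)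
      + be * kap de al be ga (n + 3) (i + 2) j
      + ga * kap de al be ga (n + 2) (i + 1) (j + 1) := by
  rw [kap]

lemma kap_n (n i j : ℕ) (h : n < 3) : kap de al be ga n i j = 0 := by
  interval_cases n <;> simp [kap]

lemma kap_i (n i j : ℕ) (h : i < 2) : kap de al be ga n i j = 0 := by
  rcases n with _ | _ | _ | n
  · exact kap_n _ _ _ (by norm_num)
  · exact kap_n _ _ _ (by norm_num)
  · exact kap_n _ _ _ (by norm_num)
  · interval_cases i <;> simp [kap]

lemma kap_j (n i j : ℕ) (h : j < 2) : kap de al be ga n i j = 0 := by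
  rcases n with _ | _ | _ | n
  · exact kap_n _ _ _ (by norm_num)
  · exact kap_n _ _ _ (by norm_num)
  · exact kap_n _ _ _ (by norm_num)
  · rcases i with _ | _ | i
    · exact kap_i _ _ _ (by norm_num)
    · exact kap_i _ _ _ (by norm_num)
    · interval_cases j <;> simp [kap]

lemma kap_nonneg (h1 : 0 ≤ de) (h2 : 0 ≤ al) (h3 : 0 ≤ be) (h4 : 0 ≤ ga) :
    ∀ t n i j : ℕ, n + i + j ≤ t → 0 ≤ kap de al be ga n i j := by
  intro t
  induction t with
  | zero =>
    intro n i j h
    rw [kap_n n i j (by omega)]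
  | succ t ih =>
    intro n i j h
    by_cases hn : n < 3
    · rw [kap_n n i j hn]
    by_cases hi : i < 2
    · rw [kap_i n i j hi]
    by_cases hj : j < 2
    · rw [kap_j n i j hj]
    obtain ⟨n, rfl⟩ : ∃ n', n = n' + 3 := ⟨n - 3, by omega⟩
    obtain ⟨i, rfl⟩ : ∃ n', i = n' + 2 := ⟨i - 2, by omega⟩
    obtain ⟨j, rfl⟩ : ∃ n', j = n' + 2 := ⟨j - 2, by omega⟩
    rw [kap_rec]
    have a1 := ih (n + 1) (i + 2) (j + 2) (by omega)
    have a2 := ih (n + 3) i (j + 2) (by omega)
    have a3 := ih (n + 3) (i + 2) j (by omega)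
    have a4 := ih (n + 2) (i + 1) (j + 1) (by omega)
    have a0 : (0 : ℝ) ≤ (if n = 0 ∧ i = 0 ∧ j = 0 then 1 else 0) := by split_ifs <;> norm_num
    positivity

/-- parity in the second index -/
lemma kap_par_i : ∀ t n i j : ℕ, n + i + j ≤ t → (n + i) % 2 = 0 → kap de al be ga n i j = 0 := by
  intro t
  induction t with
  | zero =>
    intro n i j h _
    rw [kap_n n i j (by omega)]
  | succ t ih =>
    intro n i j h hp
    by_cases hn : n < 3
    · rw [kap_n n i j hn]
    by_cases hi : i < 2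
    · rw [kap_i n i j hi]
    by_cases hj : j < 2
    · rw [kap_j n i j hj]
    obtain ⟨n, rfl⟩ : ∃ n', n = n' + 3 := ⟨n - 3, by omega⟩
    obtain ⟨i, rfl⟩ : ∃ n', i = n' + 2 := ⟨i - 2, by omega⟩
    obtain ⟨j, rfl⟩ : ∃ n', j = n' + 2 := ⟨j - 2, by omega⟩
    rw [kap_rec, ih (n + 1) (i + 2) (j + 2) (by omega) (by omega),
      ih (n + 3) i (j + 2) (by omega) (by omega), ih (n + 3) (i + 2) j (by omega) (by omega),
      ih (n + 2) (i + 1) (j + 1) (by omega) (by omega), if_neg (by omega)]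
    ring

/-- parity in the third index -/
lemma kap_par_j : ∀ t n i j : ℕ, n + i + j ≤ t → (n + j) % 2 = 0 → kap de al be ga n i j = 0 := by
  intro t
  induction t with
  | zero =>
    intro n i j h _
    rw [kap_n n i j (by omega)]
  | succ t ih =>
    intro n i j h hp
    by_cases hn : n < 3
    · rw [kap_n n i j hn]
    by_cases hi : i < 2
    · rw [kap_i n i j hi]
    by_cases hj : j < 2
    · rw [kap_j n i j hj]
    obtain ⟨n, rfl⟩ : ∃ n', n = n' + 3 := ⟨n - 3, by omega⟩
    obtain ⟨i, rfl⟩ : ∃ n', i = n' + 2 := ⟨i - 2, by omega⟩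
    obtain ⟨j, rfl⟩ : ∃ n', j = n' + 2 := ⟨j - 2, by omega⟩
    rw [kap_rec, ih (n + 1) (i + 2) (j + 2) (by omega) (by omega),
      ih (n + 3) i (j + 2) (by omega) (by omega), ih (n + 3) (i + 2) j (by omega) (by omega),
      ih (n + 2) (i + 1) (j + 1) (by omega) (by omega), if_neg (by omega)]
    ring

/-- reflection -/
lemma kap_refl : ∀ t n i d : ℕ, n + i + i + 2 * d ≤ t →
    al ^ d * kap de al be ga n i (i + 2 * d) = be ^ d * kap de al be ga n (i + 2 * d) i := by
  intro t
  induction t with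
  | zero =>
    intro n i d h
    rw [kap_n n _ _ (by omega), kap_n n _ _ (by omega)]; ring
  | succ t ih =>
    intro n i d h
    rcases d with _ | d
    · simp
    by_cases hn : n < 3
    · rw [kap_n n _ _ hn, kap_n n _ _ hn]; ring
    by_cases hi : i < 2
    · rw [kap_i n i _ hi, kap_j n _ i hi]; ring
    obtain ⟨n, rfl⟩ : ∃ n', n = n' + 3 := ⟨n - 3, by omega⟩
    obtain ⟨i, rfl⟩ : ∃ n', i = n' + 2 := ⟨i - 2, by omega⟩
    have e : i + 2 + 2 * (d + 1) = (i + 2 * (d + 1)) + 2 := by ring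
    rw [e, kap_rec, kap_rec, if_neg (by omega), if_neg (by omega)]
    have b1 := ih (n + 1) (i + 2) (d + 1) (by omega)
    have b2 := ih (n + 3) i (d + 2) (by omega)
    have b3 := ih (n + 3) (i + 2) d (by omega)
    have b4 := ih (n + 2) (i + 1) (d + 1) (by omega)
    rw [e] at b1
    rw [show i + 2 * (d + 2) = i + 2 * (d + 1) + 2 by ring] at b2
    rw [show i + 2 + 2 * d = i + 2 * (d + 1) by ring] at b3
    rw [show i + 1 + 2 * (d + 1) = i + 2 * (d + 1) + 1 by ring] at b4
    linear_combination de * b1 + b2 + al * be * b3 + ga * b4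

/-- sums over boxes -/
noncomputable def Kh (de al be ga : ℝ) (n m s : ℕ) : ℝ :=
  ∑ i ∈ Finset.range m, ∑ j ∈ Finset.range s, kap de al be ga n i j

lemma Kh_n (n m s : ℕ) (h : n < 3) : Kh de al be ga n m s = 0 := by
  rw [Kh]
  exact Finset.sum_eq_zero fun i _ => Finset.sum_eq_zero fun j _ => kap_n n i j h

lemma Kh_m (n m s : ℕ) (h : m ≤ 2) : Kh de al be ga n m s = 0 := by
  rw [Kh]
  exact Finset.sum_eq_zero fun i hi => Finset.sum_eq_zero fun j _ =>
    kap_i n i j (lt_of_lt_of_le (Finset.mem_range.mp hi) h)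

lemma Kh_s (n m s : ℕ) (h : s ≤ 2) : Kh de al be ga n m s = 0 := by
  rw [Kh]
  exact Finset.sum_eq_zero fun i _ => Finset.sum_eq_zero fun j hj =>
    kap_j n i j (lt_of_lt_of_le (Finset.mem_range.mp hj) h)

/-- the box sum without the vanishing terms -/
lemma Kh_two (n m s : ℕ) : Kh de al be ga n (m + 2) (s + 2)
    = ∑ i ∈ Finset.range m, ∑ j ∈ Finset.range s, kap de al be ga n (i + 2) (j + 2) := by
  rw [Kh, Finset.sum_range_succ', Finset.sum_range_succ']
  have z1 : ∑ j ∈ Finset.range (s + 2), kap de al be ga n 0 j = 0 :=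
    Finset.sum_eq_zero fun j _ => kap_i n 0 j (by norm_num)
  have z2 : ∑ j ∈ Finset.range (s + 2), kap de al be ga n (0 + 1) j = 0 :=
    Finset.sum_eq_zero fun j _ => kap_i n _ j (by norm_num)
  rw [z1, z2, add_zero, add_zero]
  refine Finset.sum_congr rfl fun i _ => ?_
  rw [Finset.sum_range_succ', Finset.sum_range_succ', kap_j n _ 0 (by norm_num),
    kap_j n _ (0 + 1) (by norm_num), add_zero, add_zero]

lemma Kh_left (n m s : ℕ) : Kh de al be ga n m (s + 2)
    = ∑ i ∈ Finset.range m, ∑ j ∈ Finset.range s, kap de al be ga n i (j + 2) := by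
  rw [Kh]
  refine Finset.sum_congr rfl fun i _ => ?_
  rw [Finset.sum_range_succ', Finset.sum_range_succ', kap_j n _ 0 (by norm_num),
    kap_j n _ (0 + 1) (by norm_num), add_zero, add_zero]

lemma Kh_right (n m s : ℕ) : Kh de al be ga n (m + 2) s
    = ∑ i ∈ Finset.range m, ∑ j ∈ Finset.range s, kap de al be ga n (i + 2) j := by
  rw [Kh, Finset.sum_range_succ', Finset.sum_range_succ']
  have z1 : ∑ j ∈ Finset.range s, kap de al be ga n 0 j = 0 :=
    Finset.sum_eq_zero fun j _ => kap_i n 0 j (by norm_num)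
  have z2 : ∑ j ∈ Finset.range s, kap de al be ga n (0 + 1) j = 0 :=
    Finset.sum_eq_zero fun j _ => kap_i n _ j (by norm_num)
  rw [z1, z2, add_zero, add_zero]

lemma Kh_one (n m s : ℕ) : Kh de al be ga n (m + 1) (s + 1)
    = ∑ i ∈ Finset.range m, ∑ j ∈ Finset.range s, kap de al be ga n (i + 1) (j + 1) := by
  rw [Kh, Finset.sum_range_succ']
  have z1 : ∑ j ∈ Finset.range (s + 1), kap de al be ga n 0 j = 0 :=
    Finset.sum_eq_zero fun j _ => kap_i n 0 j (by norm_num)
  rw [z1, add_zero]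
  refine Finset.sum_congr rfl fun i _ => ?_
  rw [Finset.sum_range_succ', kap_j n _ 0 (by norm_num), add_zero]

lemma Kh_rec (n m s : ℕ) : Kh de al be ga (n + 3) (m + 3) (s + 3)
    = (if n = 0 then 1 else 0) + de * Kh de al be ga (n + 1) (m + 3) (s + 3)
      + al * Kh de al be ga (n + 3) (m + 1) (s + 3)
      + be * Kh de al be ga (n + 3) (m + 3) (s + 1)
      + ga * Kh de al be ga (n + 2) (m + 2) (s + 2) := by
  rw [show m + 3 = (m + 1) + 2 from rfl, show s + 3 = (s + 1) + 2 from rfl, Kh_two, Kh_two,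
    Kh_left, Kh_right, show m + 2 = (m + 1) + 1 from rfl, show s + 2 = (s + 1) + 1 from rfl, Kh_one]
  simp only [Finset.mul_sum, ← Finset.sum_add_distrib]
  have h0 : (if n = 0 then (1 : ℝ) else 0)
      = ∑ i ∈ Finset.range (m + 1), ∑ j ∈ Finset.range (s + 1),
        (if n = 0 ∧ i = 0 ∧ j = 0 then (1 : ℝ) else 0) := by
    by_cases hn : n = 0
    · simp [hn, ite_and]
    · simp [hn]
  rw [h0]
  simp only [← Finset.sum_add_distrib]
  refine Finset.sum_congr rfl fun i _ => Finset.sum_congr rfl fun j _ => ?_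
  rw [kap_rec]

end Pool.Agent.Q149.FT
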