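import Pool.Agent.Q149.FTa

/-!
# The tournament
-/

namespace Pool.Agent.Q149.FT

/-- father, mother, son -/
inductive Player
  | F
  | M
  | S

/-- the three possible games -/
inductive Pairing
  | FM
  | FS
  | MS

/-- a coin which shows `true` with probability `p` and `false` with probability `1 - p`
(for `0 ≤ p ≤ 1`; other `p` are replaced by the nearest number of `[0, 1]`) -/
noncomputable def coin (p : ℝ) : PMF Bool :=
  PMF.ofFintype (fun r => ENNReal.ofReal (if r then max 0 (min p 1) else 1 - max 0 (min p 1))) (by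
    rw [Fintype.sum_bool, if_pos rfl, if_neg (by simp), ← ENNReal.ofReal_add]
    · simp
    · exact le_max_left _ _
    · have : max 0 (min p 1) ≤ 1 := max_le (by norm_num) (min_le_right _ _)
      linarith)

/-- `winner a b c X f m s` is the law of the winner of the tournament if the next game is `X` and
the players `F`, `M`, `S` still need `f`, `m`, `s` won games.  The winner of a game next plays the
player who sat out that game. -/
noncomputable def winner (a b c : ℝ) : Pairing → ℕ → ℕ → ℕ → PMF Player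
  | _, 0, _, _ => PMF.pure Player.F
  | _, _ + 1, 0, _ => PMF.pure Player.M
  | _, _ + 1, _ + 1, 0 => PMF.pure Player.S
  | Pairing.FM, f + 1, m + 1, s + 1 => (coin a).bind fun r =>
      if r then winner a b c Pairing.FS f (m + 1) (s + 1)
      else winner a b c Pairing.MS (f + 1) m (s + 1)
  | Pairing.FS, f + 1, m + 1, s + 1 => (coin b).bind fun r =>
      if r then winner a b c Pairing.FM f (m + 1) (s + 1)
      else winner a b c Pairing.MS (f + 1) (m + 1) s
  | Pairing.MS, f + 1, m + 1, s + 1 => (coin c).bind fun r =>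
      if r then winner a b c Pairing.FM (f + 1) m (s + 1)
      else winner a b c Pairing.FS (f + 1) (m + 1) s
termination_by _ f m s => f + m + s

/-- probability that `F` wins -/
noncomputable def W (a b c : ℝ) (X : Pairing) (f m s : ℕ) : ℝ :=
  (winner a b c X f m s Player.F).toReal

variable {a b c : ℝ}

lemma coin_bind (p : ℝ) (h0 : 0 ≤ p) (h1 : p ≤ 1) (A B : PMF Player) (x : Player) :
    (((coin p).bind fun r => if r then A else B) x).toReal
      = p * (A x).toReal + (1 - p) * (B x).toReal := by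
  have hp : max 0 (min p 1) = p := by rw [min_eq_left h1, max_eq_right h0]
  rw [PMF.bind_apply, tsum_fintype, Fintype.sum_bool]
  simp only [coin, hp, PMF.ofFintype_apply, if_true, Bool.false_eq_true, if_false]
  rw [ENNReal.toReal_add (ENNReal.mul_ne_top (by simp) (PMF.apply_ne_top _ _))
    (ENNReal.mul_ne_top (by simp) (PMF.apply_ne_top _ _)), ENNReal.toReal_mul, ENNReal.toReal_mul,
    ENNReal.toReal_ofReal h0, ENNReal.toReal_ofReal (by linarith)]

lemma W_zero (X : Pairing) (m s : ℕ) : W a b c X 0 m s = 1 := by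
  cases X <;> simp [W, winner]

lemma W_m (X : Pairing) (f s : ℕ) : W a b c X (f + 1) 0 s = 0 := by
  cases X <;> simp [W, winner]

lemma W_s (X : Pairing) (f m : ℕ) : W a b c X (f + 1) m 0 = 0 := by
  rcases m with _ | m
  · exact W_m X f 0
  · cases X <;> simp [W, winner]

lemma W_FM (h0 : 0 ≤ a) (h1 : a ≤ 1) (f m s : ℕ) : W a b c Pairing.FM (f + 1) (m + 1) (s + 1)
    = a * W a b c Pairing.FS f (m + 1) (s + 1) + (1 - a) * W a b c Pairing.MS (f + 1) m (s + 1) := by
  rw [W, winner, coin_bind a h0 h1]; rfl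

lemma W_FS (h0 : 0 ≤ b) (h1 : b ≤ 1) (f m s : ℕ) : W a b c Pairing.FS (f + 1) (m + 1) (s + 1)
    = b * W a b c Pairing.FM f (m + 1) (s + 1) + (1 - b) * W a b c Pairing.MS (f + 1) (m + 1) s := by
  rw [W, winner, coin_bind b h0 h1]; rfl

lemma W_MS (h0 : 0 ≤ c) (h1 : c ≤ 1) (f m s : ℕ) : W a b c Pairing.MS (f + 1) (m + 1) (s + 1)
    = c * W a b c Pairing.FM (f + 1) m (s + 1) + (1 - c) * W a b c Pairing.FS (f + 1) (m + 1) s := by
  rw [W, winner, coin_bind c h0 h1]; rfl

/-- the box sum with the parameters of the tournament -/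
noncomputable def K (a b c : ℝ) (n m s : ℕ) : ℝ :=
  Kh (a * b) (c * (1 - a)) ((1 - c) * (1 - b)) (c * a * (1 - b) + (1 - c) * b * (1 - a)) n m s

lemma K_rec (n m s : ℕ) : K a b c (n + 3) (m + 3) (s + 3)
    = (if n = 0 then 1 else 0) + a * b * K a b c (n + 1) (m + 3) (s + 3)
      + c * (1 - a) * K a b c (n + 3) (m + 1) (s + 3)
      + (1 - c) * (1 - b) * K a b c (n + 3) (m + 3) (s + 1)
      + (c * a * (1 - b) + (1 - c) * b * (1 - a)) * K a b c (n + 2) (m + 2) (s + 2) :=
  Kh_rec n m s

lemma K_n (n m s : ℕ) (h : n < 3) : K a b c n m s = 0 := Kh_n n m s h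
lemma K_m (n m s : ℕ) (h : m ≤ 2) : K a b c n m s = 0 := Kh_m n m s h
lemma K_s (n m s : ℕ) (h : s ≤ 2) : K a b c n m s = 0 := Kh_s n m s h

/-- the closed formulas -/
theorem formulas (ha0 : 0 ≤ a) (ha1 : a ≤ 1) (hb0 : 0 ≤ b) (hb1 : b ≤ 1) (hc0 : 0 ≤ c)
    (hc1 : c ≤ 1) : ∀ t n m s : ℕ, n + m + s ≤ t →
    (W a b c Pairing.FM (n + 1) m s = a * K a b c (n + 3) (m + 2) (s + 2)
        - a * ((1 - c) * (1 - b)) * K a b c (n + 3) (m + 2) s
        + a * b * K a b c (n + 2) (m + 2) (s + 2)
        + b * (1 - a) * (1 - c) * K a b c (n + 3) (m + 1) (s + 1)) ∧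
    (W a b c Pairing.FS (n + 1) m s = b * K a b c (n + 3) (m + 2) (s + 2)
        - b * (c * (1 - a)) * K a b c (n + 3) m (s + 2)
        + a * b * K a b c (n + 2) (m + 2) (s + 2)
        + a * (1 - b) * c * K a b c (n + 3) (m + 1) (s + 1)) ∧
    (W a b c Pairing.MS (n + 1) m s = c * a * K a b c (n + 3) (m + 1) (s + 2)
        + c * a * b * K a b c (n + 2) (m + 1) (s + 2)
        + (1 - c) * b * K a b c (n + 3) (m + 2) (s + 1)
        + (1 - c) * a * b * K a b c (n + 2) (m + 2) (s + 1)) := by
  intro t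
  induction t with
  | zero =>
    intro n m s h
    obtain rfl : n = 0 := by omega
    obtain rfl : m = 0 := by omega
    obtain rfl : s = 0 := by omega
    refine ⟨?_, ?_, ?_⟩ <;>
    · rw [W_m]
      simp only [Nat.zero_add, K_m _ 0 _ (by norm_num), K_m _ 1 _ (by norm_num),
        K_m _ 2 _ (by norm_num)]
      ring
  | succ t ih =>
    intro n m s h
    rcases m with _ | m
    · refine ⟨?_, ?_, ?_⟩ <;>
      · rw [W_m]
        simp only [Nat.zero_add, K_m _ 0 _ (by norm_num), K_m _ 1 _ (by norm_num),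
          K_m _ 2 _ (by norm_num)]
        ring
    rcases s with _ | s
    · refine ⟨?_, ?_, ?_⟩ <;>
      · rw [W_s]
        simp only [Nat.zero_add, K_s _ _ 0 (by norm_num), K_s _ _ 1 (by norm_num),
          K_s _ _ 2 (by norm_num)]
        ring
    obtain ⟨-, -, q1⟩ := ih n m (s + 1) (by omega)
    obtain ⟨-, -, q2⟩ := ih n (m + 1) s (by omega)
    obtain ⟨f1, -, -⟩ := ih n m (s + 1) (by omega)
    obtain ⟨-, g1, -⟩ := ih n (m + 1) s (by omega)
    have e1 : m + 1 + 2 = m + 3 := rfl
    have e2 : s + 1 + 2 = s + 3 := rfl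
    have e3 : m + 1 + 1 = m + 2 := rfl
    have e4 : s + 1 + 1 = s + 2 := rfl
    have hr := K_rec (a := a) (b := b) (c := c) n m s
    refine ⟨?_, ?_, ?_⟩
    · rw [W_FM ha0 ha1, q1]
      rcases n with _ | n
      · rw [W_zero]
        rw [if_pos rfl, Nat.zero_add] at hr
        simp only [e1, e2, e3, e4, Nat.zero_add] at *
        simp only [K_n 2 _ _ (by norm_num)]
        rw [K_n 1 _ _ (by norm_num), K_n 2 _ _ (by norm_num)] at hr
        linear_combination -a * hr
      · obtain ⟨-, g2, -⟩ := ih n (m + 1) (s + 1) (by omega)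
        rw [g2]
        rw [if_neg (by omega)] at hr
        simp only [e1, e2, e3, e4] at *
        rw [show n + 1 + 3 = n + 4 from rfl, show n + 1 + 2 = n + 3 from rfl] at *
        rw [show n + 1 + 1 = n + 2 from rfl] at hr
        linear_combination -a * hr
    · rw [W_FS hb0 hb1, q2]
      rcases n with _ | n
      · rw [W_zero]
        rw [if_pos rfl, Nat.zero_add] at hr
        simp only [e1, e2, e3, e4, Nat.zero_add] at *
        simp only [K_n 2 _ _ (by norm_num)]
        rw [K_n 1 _ _ (by norm_num), K_n 2 _ _ (by norm_num)] at hr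
        linear_combination -b * hr
      · obtain ⟨g2, -, -⟩ := ih n (m + 1) (s + 1) (by omega)
        rw [g2]
        rw [if_neg (by omega)] at hr
        simp only [e1, e2, e3, e4] at *
        rw [show n + 1 + 3 = n + 4 from rfl, show n + 1 + 2 = n + 3 from rfl] at *
        rw [show n + 1 + 1 = n + 2 from rfl] at hr
        linear_combination -b * hr
    · rw [W_MS hc0 hc1, f1, g1]
      simp only [e1, e2, e3, e4]
      ring

end Pool.Agent.Q149.FT
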