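import Pool.Agent.Q149.FTb

/-!
# The comparison of the first games
-/

namespace Pool.Agent.Q149.FT

variable {a b c : ℝ}

lemma W_nonneg (X : Pairing) (f m s : ℕ) : 0 ≤ W a b c X f m s := ENNReal.toReal_nonneg

lemma W_mono (ha0 : 0 ≤ a) (ha1 : a ≤ 1) (hb0 : 0 ≤ b) (hb1 : b ≤ 1) (hc0 : 0 ≤ c)
    (hc1 : c ≤ 1) : ∀ t f m s : ℕ, f + m + s ≤ t → ∀ X,
    W a b c X f m s ≤ W a b c X f (m + 1) s ∧ W a b c X f m s ≤ W a b c X f m (s + 1) := by
  intro t
  induction t with
  | zero =>
    intro f m s h X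
    obtain rfl : f = 0 := by omega
    simp [W_zero]
  | succ t ih =>
    intro f m s h X
    rcases f with _ | f
    · simp [W_zero]
    rcases m with _ | m
    · simp only [W_m]
      exact ⟨W_nonneg _ _ _ _, le_rfl⟩
    rcases s with _ | s
    · simp only [W_s]
      exact ⟨le_rfl, W_nonneg _ _ _ _⟩
    cases X with
    | FM =>
      rw [W_FM ha0 ha1, W_FM ha0 ha1, W_FM ha0 ha1]
      have h1 := ih f (m + 1) (s + 1) (by omega) Pairing.FS
      have h2 := ih (f + 1) m (s + 1) (by omega) Pairing.MS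
      constructor
      · have := mul_le_mul_of_nonneg_left h1.1 ha0
        have := mul_le_mul_of_nonneg_left h2.1 (by linarith : 0 ≤ 1 - a)
        linarith
      · have := mul_le_mul_of_nonneg_left h1.2 ha0
        have := mul_le_mul_of_nonneg_left h2.2 (by linarith : 0 ≤ 1 - a)
        linarith
    | FS =>
      rw [W_FS hb0 hb1, W_FS hb0 hb1, W_FS hb0 hb1]
      have h1 := ih f (m + 1) (s + 1) (by omega) Pairing.FM
      have h2 := ih (f + 1) (m + 1) s (by omega) Pairing.MS
      constructor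
      · have := mul_le_mul_of_nonneg_left h1.1 hb0
        have := mul_le_mul_of_nonneg_left h2.1 (by linarith : 0 ≤ 1 - b)
        linarith
      · have := mul_le_mul_of_nonneg_left h1.2 hb0
        have := mul_le_mul_of_nonneg_left h2.2 (by linarith : 0 ≤ 1 - b)
        linarith
    | MS =>
      rw [W_MS hc0 hc1, W_MS hc0 hc1, W_MS hc0 hc1]
      have h1 := ih (f + 1) m (s + 1) (by omega) Pairing.FM
      have h2 := ih (f + 1) (m + 1) s (by omega) Pairing.FS
      constructor
      · have := mul_le_mul_of_nonneg_left h1.1 hc0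
        have := mul_le_mul_of_nonneg_left h2.1 (by linarith : 0 ≤ 1 - c)
        linarith
      · have := mul_le_mul_of_nonneg_left h1.2 hc0
        have := mul_le_mul_of_nonneg_left h2.2 (by linarith : 0 ≤ 1 - c)
        linarith

section box

variable {de al be ga : ℝ}

lemma par_i {n i j : ℕ} (h : (n + i) % 2 = 0) : kap de al be ga n i j = 0 :=
  kap_par_i (n + i + j) n i j le_rfl h

lemma par_j {n i j : ℕ} (h : (n + j) % 2 = 0) : kap de al be ga n i j = 0 :=
  kap_par_j (n + i + j) n i j le_rfl h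

/-- row sum -/
noncomputable def R (de al be ga : ℝ) (n : ℕ) : ℝ :=
  ∑ i ∈ Finset.range (n + 1), kap de al be ga (n + 3) i (n + 2)

/-- column sum -/
noncomputable def C (de al be ga : ℝ) (n : ℕ) : ℝ :=
  ∑ j ∈ Finset.range (n + 1), kap de al be ga (n + 3) (n + 2) j

lemma Kh_succ_m (n m s : ℕ) : Kh de al be ga n (m + 1) s
    = Kh de al be ga n m s + ∑ j ∈ Finset.range s, kap de al be ga n m j := by
  rw [Kh, Finset.sum_range_succ, Kh]

lemma Kh_succ_s (n m s : ℕ) : Kh de al be ga n m (s + 1)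
    = Kh de al be ga n m s + ∑ i ∈ Finset.range m, kap de al be ga n i s := by
  rw [Kh, Kh, ← Finset.sum_add_distrib]
  exact Finset.sum_congr rfl fun i _ => Finset.sum_range_succ _ _

lemma par_m (n s : ℕ) : Kh de al be ga (n + 3) (n + 2) s = Kh de al be ga (n + 3) (n + 1) s := by
  rw [show n + 2 = (n + 1) + 1 from rfl, Kh_succ_m]
  rw [Finset.sum_eq_zero fun j _ => par_i (by omega), add_zero]

lemma par_s (n m : ℕ) : Kh de al be ga (n + 3) m (n + 2) = Kh de al be ga (n + 3) m (n + 1) := by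
  rw [show n + 2 = (n + 1) + 1 from rfl, Kh_succ_s]
  rw [Finset.sum_eq_zero fun i _ => par_j (by omega), add_zero]

lemma box_R (n : ℕ) : Kh de al be ga (n + 3) (n + 1) (n + 3)
    = Kh de al be ga (n + 3) (n + 1) (n + 1) + R de al be ga n := by
  rw [show n + 3 = (n + 2) + 1 from rfl, Kh_succ_s, show n + 2 + 1 = n + 3 from rfl, par_s, R]

lemma box_C (n : ℕ) : Kh de al be ga (n + 3) (n + 3) (n + 1)
    = Kh de al be ga (n + 3) (n + 1) (n + 1) + C de al be ga n := by
  have : Kh de al be ga (n + 3) (n + 3) (n + 1) = Kh de al be ga (n + 3) (n + 2) (n + 1)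
      + ∑ j ∈ Finset.range (n + 1), kap de al be ga (n + 3) (n + 2) j := Kh_succ_m (n + 3) (n + 2) (n + 1)
  rw [this, par_m, C]

lemma box_all (n : ℕ) : Kh de al be ga (n + 3) (n + 3) (n + 3)
    = Kh de al be ga (n + 3) (n + 1) (n + 1) + R de al be ga n + C de al be ga n
      + kap de al be ga (n + 3) (n + 2) (n + 2) := by
  have h : Kh de al be ga (n + 3) (n + 3) (n + 3) = Kh de al be ga (n + 3) (n + 2) (n + 3)
      + ∑ j ∈ Finset.range (n + 3), kap de al be ga (n + 3) (n + 2) j := Kh_succ_m (n + 3) (n + 2) (n + 3)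
  have h2 : ∑ j ∈ Finset.range (n + 3), kap de al be ga (n + 3) (n + 2) j
      = C de al be ga n + kap de al be ga (n + 3) (n + 2) (n + 2) := by
    rw [show n + 3 = (n + 1) + 1 + 1 from rfl, Finset.sum_range_succ, Finset.sum_range_succ, C,
      show n + 1 + 1 + 1 = n + 3 from rfl, show n + 1 + 1 = n + 2 from rfl,
      par_j (n := n + 3) (j := n + 1) (by omega), add_zero]
  rw [h, h2, par_m, box_R]; ring

lemma R_nonneg (h1 : 0 ≤ de) (h2 : 0 ≤ al) (h3 : 0 ≤ be) (h4 : 0 ≤ ga) (n : ℕ) :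
    0 ≤ R de al be ga n :=
  Finset.sum_nonneg fun _ _ => kap_nonneg h1 h2 h3 h4 _ _ _ _ le_rfl

lemma C_nonneg (h1 : 0 ≤ de) (h2 : 0 ≤ al) (h3 : 0 ≤ be) (h4 : 0 ≤ ga) (n : ℕ) :
    0 ≤ C de al be ga n :=
  Finset.sum_nonneg fun _ _ => kap_nonneg h1 h2 h3 h4 _ _ _ _ le_rfl

/-- the comparison of the row and the column -/
lemma R_C (h1 : 0 ≤ de) (h2 : 0 < al) (h3 : al ≤ be) (h4 : 0 ≤ ga) (n : ℕ) :
    be * C de al be ga n ≤ al * R de al be ga n := by
  rw [C, R, Finset.mul_sum, Finset.mul_sum]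
  refine Finset.sum_le_sum fun i hi => ?_
  have hi' := Finset.mem_range.mp hi
  by_cases hp : (n + 3 + i) % 2 = 0
  · rw [par_i hp, par_j hp]; simp
  · obtain ⟨d, hd⟩ : ∃ d, n + 2 = i + 2 * (d + 1) := ⟨(n + 2 - i) / 2 - 1, by omega⟩
    have hr := kap_refl (de := de) (al := al) (be := be) (ga := ga) _ (n + 3) i (d + 1) le_rfl
    rw [← hd] at hr
    have hX := kap_nonneg h1 h2.le (h2.le.trans h3) h4 _ (n + 3) i (n + 2) le_rfl
    have hY := kap_nonneg h1 h2.le (h2.le.trans h3) h4 _ (n + 3) (n + 2) i le_rfl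
    set x := kap de al be ga (n + 3) i (n + 2)
    set y := kap de al be ga (n + 3) (n + 2) i
    have hpow : al ^ d ≤ be ^ d := pow_le_pow_left₀ h2.le h3 d
    have key : 0 ≤ al ^ d * (al * x - be * y) := by
      have e : al ^ d * (al * x - be * y) = (be ^ d - al ^ d) * (be * y) := by
        rw [pow_succ, pow_succ] at hr
        linear_combination hr
      rw [e]
      exact mul_nonneg (by linarith) (mul_nonneg (h2.le.trans h3) hY)
    have := nonneg_of_mul_nonneg_right key (pow_pos h2 d)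
    linarith

end box

/-- mother first is at least as good as son first -/
theorem FS_le_FM (ha0 : 0 < a) (ha1 : a < 1) (hb0 : 0 < b) (hb1 : b < 1) (hc0 : 0 < c)
    (hc1 : c < 1) (hba : b ≤ a) (hs : c * (1 - a) ≤ (1 - c) * (1 - b)) (n : ℕ) :
    W a b c Pairing.FS (n + 1) (n + 1) (n + 1) ≤ W a b c Pairing.FM (n + 1) (n + 1) (n + 1) := by
  obtain ⟨f1, f2, -⟩ := formulas ha0.le ha1.le hb0.le hb1.le hc0.le hc1.le _ n (n + 1) (n + 1) le_rfl
  rw [f1, f2]
  simp only [K]
  rw [show n + 1 + 2 = n + 3 from rfl, show n + 1 + 1 = n + 2 from rfl]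
  set al := c * (1 - a) with hal
  set be := (1 - c) * (1 - b) with hbe
  set ga := c * a * (1 - b) + (1 - c) * b * (1 - a) with hga
  have hal0 : 0 < al := mul_pos hc0 (by linarith)
  have hbe0 : 0 < be := mul_pos (by linarith) (by linarith)
  have hga0 : 0 ≤ ga := by
    have h1 : 0 ≤ 1 - a := by linarith
    have h2 : 0 ≤ 1 - b := by linarith
    have h3 : 0 ≤ 1 - c := by linarith
    positivity
  have hde0 : 0 ≤ a * b := by positivity
  have hal1 : al ≤ 1 := by rw [hal]; nlinarith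
  have hbe1 : be ≤ 1 := by rw [hbe]; nlinarith
  rw [par_m, par_s, box_R, box_C, box_all]
  have hR := R_nonneg hde0 hal0.le hbe0.le hga0 n
  have hC := C_nonneg hde0 hal0.le hbe0.le hga0 n
  have hRC := R_C hde0 hal0 hs hga0 n
  have hk := kap_nonneg hde0 hal0.le hbe0.le hga0 _ (n + 3) (n + 2) (n + 2) le_rfl
  set T := Kh (a * b) al be ga (n + 3) (n + 1) (n + 1)
  set R' := R (a * b) al be ga n
  set C' := C (a * b) al be ga n
  set k0 := kap (a * b) al be ga (n + 3) (n + 2) (n + 2)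
  have main : 0 ≤ R' * ((a - b) + b * al) + C' * ((a - b) - a * be) + (a - b) * k0 := by
    have hab : 0 ≤ a - b := by linarith
    have t0 : 0 ≤ (a - b) * k0 := mul_nonneg hab hk
    by_cases hw : 0 ≤ (a - b) - a * be
    · have : 0 ≤ R' * ((a - b) + b * al) := mul_nonneg hR (by positivity)
      have : 0 ≤ C' * ((a - b) - a * be) := mul_nonneg hC hw
      linarith
    · push Not at hw
      have hw' : 0 ≤ a * be - (a - b) := by linarith
      have h1 := mul_le_mul_of_nonneg_right hRC hw'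
      have h2 : 0 ≤ R' * (a - b) * (al + be - al * be) := by
        have : 0 ≤ al + be - al * be := by nlinarith
        positivity
      have h3 : 0 ≤ be * (R' * ((a - b) + b * al) + C' * ((a - b) - a * be)) := by nlinarith
      have h4 := nonneg_of_mul_nonneg_right h3 hbe0
      linarith
  have hid : (a * (T + R' + C' + k0) - a * be * (T + C') + a * b * Kh (a * b) al be ga (n + 2) (n + 3) (n + 3)
        + b * (1 - a) * (1 - c) * T)
      - (b * (T + R' + C' + k0) - b * al * (T + R') + a * b * Kh (a * b) al be ga (n + 2) (n + 3) (n + 3)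
        + a * (1 - b) * c * T)
      = R' * ((a - b) + b * al) + C' * ((a - b) - a * be) + (a - b) * k0 := by
    rw [hal, hbe]; ring
  linarith

/-- mother first is at least as good as watching the first game -/
theorem MS_le_FM (ha0 : 0 < a) (ha1 : a < 1) (hb0 : 0 < b) (hb1 : b < 1) (hc0 : 0 < c)
    (hc1 : c < 1) (hba : b ≤ a) (hs : c * (1 - a) ≤ (1 - c) * (1 - b)) (n : ℕ) :
    W a b c Pairing.MS (n + 1) (n + 1) (n + 1) ≤ W a b c Pairing.FM (n + 1) (n + 1) (n + 1) := by
  have h := FS_le_FM ha0 ha1 hb0 hb1 hc0 hc1 hba hs n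
  rw [W_MS hc0.le hc1.le]
  have h1 := (W_mono ha0.le ha1.le hb0.le hb1.le hc0.le hc1.le _ (n + 1) n (n + 1) le_rfl
    Pairing.FM).1
  have h2 := (W_mono ha0.le ha1.le hb0.le hb1.le hc0.le hc1.le _ (n + 1) (n + 1) n le_rfl
    Pairing.FS).2
  have h3 := mul_le_mul_of_nonneg_left h1 hc0.le
  have h4 := mul_le_mul_of_nonneg_left (h2.trans h) (by linarith : 0 ≤ 1 - c)
  linarith

end Pool.Agent.Q149.FT
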