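import Mathlib

/-!
# Closed form for the coefficients of the Fibonacci-type polynomials

`F_0 = F_1 = 1`, `F_{s+2} = (1+X+2X^2) F_{s+1} + X^3 F_s`.
For `1 ≤ s`, `m ≤ 2 s + 1` the coefficient of `X^m` in `F_s` is the coefficient of `X^m` in
`(1+X)^(m-s-1) (1-X)^(m-2s)`.
-/

namespace Pool.Agent.Q149.FU

open PowerSeries

/-- The polynomials of the problem. -/
noncomputable def F : ℕ → Polynomial ℤ
  | 0 => 1
  | 1 => 1
  | (s + 2) => (1 + Polynomial.X + 2 * Polynomial.X ^ 2) * F (s + 1) + Polynomial.X ^ 3 * F s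

/-- The unit `1 + X`. -/
noncomputable def uA : (ℤ⟦X⟧)ˣ :=
  (show IsUnit (1 + X : ℤ⟦X⟧) from by
    rw [PowerSeries.isUnit_iff_constantCoeff]; simp).unit

/-- The unit `1 - X`. -/
noncomputable def uB : (ℤ⟦X⟧)ˣ where
  val := 1 - X
  inv := PowerSeries.mk 1
  val_inv := by rw [mul_comm]; exact PowerSeries.mk_one_mul_one_sub_eq_one ℤ
  inv_val := PowerSeries.mk_one_mul_one_sub_eq_one ℤ

lemma uA_val : (uA : ℤ⟦X⟧) = 1 + X := rfl
lemma uB_val : (uB : ℤ⟦X⟧) = 1 - X := rfl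
lemma uB_inv_val : ((uB⁻¹ : (ℤ⟦X⟧)ˣ) : ℤ⟦X⟧) = PowerSeries.mk 1 := rfl

/-- `(1+X)^k`. -/
noncomputable def al (k : ℤ) : ℤ⟦X⟧ := ((uA ^ k : (ℤ⟦X⟧)ˣ) : ℤ⟦X⟧)
/-- `(1-X)^k`. -/
noncomputable def be (k : ℤ) : ℤ⟦X⟧ := ((uB ^ k : (ℤ⟦X⟧)ˣ) : ℤ⟦X⟧)

lemma al_succ (k : ℤ) : al (k + 1) = al k * (1 + X) := by
  rw [al, zpow_add_one, Units.val_mul, uA_val, al]

lemma be_succ (k : ℤ) : be (k + 1) = be k * (1 - X) := by
  rw [be, zpow_add_one, Units.val_mul, uB_val, be]

lemma al_zero : al 0 = 1 := by simp [al]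
lemma be_zero : be 0 = 1 := by simp [be]

/-- `(1+X)^(m-s-1) (1-X)^(m-2s)`. -/
noncomputable def H (s m : ℤ) : ℤ⟦X⟧ := al (m - s - 1) * be (m - 2 * s)

lemma H_rec (s m : ℤ) :
    H (s + 1) m + X * H (s + 1) (m - 1) + 2 * X ^ 2 * H (s + 1) (m - 2) + X ^ 3 * H s (m - 3)
      = H (s + 2) m := by
  have e1 : H (s + 1) m = al (m - s - 4) * be (m - 2 * s - 4) * ((1 + X) * (1 + X))
      * ((1 - X) * (1 - X)) := by
    rw [H, show m - (s + 1) - 1 = (m - s - 4) + 1 + 1 by ring,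
      show m - 2 * (s + 1) = (m - 2 * s - 4) + 1 + 1 by ring, al_succ, al_succ, be_succ, be_succ]
    ring
  have e2 : H (s + 1) (m - 1) = al (m - s - 4) * be (m - 2 * s - 4) * (1 + X) * (1 - X) := by
    rw [H, show m - 1 - (s + 1) - 1 = (m - s - 4) + 1 by ring,
      show m - 1 - 2 * (s + 1) = (m - 2 * s - 4) + 1 by ring, al_succ, be_succ]
    ring
  have e3 : H (s + 1) (m - 2) = al (m - s - 4) * be (m - 2 * s - 4) := by
    rw [H, show m - 2 - (s + 1) - 1 = (m - s - 4) by ring,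
      show m - 2 - 2 * (s + 1) = (m - 2 * s - 4) by ring]
  have e4 : H s (m - 3) = al (m - s - 4) * be (m - 2 * s - 4) * (1 - X) := by
    rw [H, show m - 3 - s - 1 = (m - s - 4) by ring,
      show m - 3 - 2 * s = (m - 2 * s - 4) + 1 by ring, be_succ]
    ring
  have e5 : H (s + 2) m = al (m - s - 4) * be (m - 2 * s - 4) * (1 + X) := by
    rw [H, show m - (s + 2) - 1 = (m - s - 4) + 1 by ring,
      show m - 2 * (s + 2) = (m - 2 * s - 4) by ring, al_succ]
    ring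
  rw [e1, e2, e3, e4, e5]
  ring

lemma constCoeff_al (k : ℤ) : constantCoeff (al k) = 1 := by
  have h : constantCoeff (al k) = ((Units.map (constantCoeff (R := ℤ)).toMonoidHom (uA ^ k) : ℤˣ) : ℤ) := rfl
  have h2 : Units.map (constantCoeff (R := ℤ)).toMonoidHom uA = 1 := by
    ext; simp [uA_val]
  rw [h, map_zpow, h2, one_zpow, Units.val_one]

lemma constCoeff_be (k : ℤ) : constantCoeff (be k) = 1 := by
  have h : constantCoeff (be k) = ((Units.map (constantCoeff (R := ℤ)).toMonoidHom (uB ^ k) : ℤˣ) : ℤ) := rfl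
  have h2 : Units.map (constantCoeff (R := ℤ)).toMonoidHom uB = 1 := by
    ext; simp [uB_val]
  rw [h, map_zpow, h2, one_zpow, Units.val_one]

lemma coeff_zero_H (s m : ℤ) : coeff 0 (H s m) = 1 := by
  rw [coeff_zero_eq_constantCoeff_apply, H, map_mul, constCoeff_al, constCoeff_be, one_mul]

/-- degree bound -/
lemma F_coeff_zero (s : ℕ) : ∀ m : ℕ, 2 * s ≤ m → 1 ≤ m → (F s).coeff m = 0 := by
  induction s using Nat.strong_induction_on with
  | _ s ih =>
    intro m hm hm1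
    match s, ih, hm with
    | 0, _, _ =>
      rw [F, Polynomial.coeff_one, if_neg (by omega)]
    | 1, _, hm =>
      rw [F, Polynomial.coeff_one, if_neg (by omega)]
    | (s + 2), ih, hm =>
      obtain ⟨k, rfl⟩ : ∃ k, m = k + 3 := ⟨m - 3, by omega⟩
      rw [F]
      have e : (1 + Polynomial.X + 2 * Polynomial.X ^ 2) * F (s + 1) + Polynomial.X ^ 3 * F s
        = F (s + 1) + Polynomial.X * F (s + 1) + 2 * (Polynomial.X ^ 2 * F (s + 1))
          + Polynomial.X ^ 3 * F s := by ring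
      rw [e]
      simp only [Polynomial.coeff_add]
      rw [show (2 : Polynomial ℤ) = Polynomial.C 2 from rfl, Polynomial.coeff_C_mul,
        Polynomial.coeff_X_mul, show k + 3 = (k + 1) + 2 from rfl, Polynomial.coeff_X_pow_mul,
        show k + 1 + 2 = k + 3 from rfl, Polynomial.coeff_X_pow_mul,
        ih (s + 1) (by omega) (k + 3) (by omega) (by omega),
        ih (s + 1) (by omega) (k + 2) (by omega) (by omega),
        ih (s + 1) (by omega) (k + 1) (by omega) (by omega)]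
      by_cases hk : k = 0
      · exfalso; omega
      · rw [ih s (by omega) k (by omega) (by omega)]
        ring

lemma shift (P Q : ℤ⟦X⟧) (k m : ℕ) (h : k ≤ m → coeff (m - k) P = coeff (m - k) Q) :
    coeff m (X ^ k * P) = coeff m (X ^ k * Q) := by
  rw [PowerSeries.coeff_X_pow_mul', PowerSeries.coeff_X_pow_mul']
  by_cases hk : k ≤ m
  · rw [if_pos hk, if_pos hk, h hk]
  · rw [if_neg hk, if_neg hk]

lemma al_nat (k : ℕ) : al (k : ℤ) = ((((1 + Polynomial.X) ^ k : Polynomial ℤ)) : ℤ⟦X⟧) := by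
  simp [al, uA_val]

lemma H_top1 (s : ℕ) (hs : 1 ≤ s) : coeff (2 * s) (H s ((2 * s : ℕ) : ℤ)) = 0 := by
  have e : H s ((2 * s : ℕ) : ℤ) = al ((s - 1 : ℕ) : ℤ) := by
    rw [H, show ((2 * s : ℕ) : ℤ) - s - 1 = ((s - 1 : ℕ) : ℤ) by push_cast [hs]; ring,
      show ((2 * s : ℕ) : ℤ) - 2 * s = 0 by push_cast; ring, be_zero, mul_one]
  rw [e, al_nat, Polynomial.coeff_coe]
  apply Polynomial.coeff_eq_zero_of_natDegree_lt
  refine lt_of_le_of_lt (Polynomial.natDegree_pow_le) ?_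
  have : (1 + Polynomial.X : Polynomial ℤ).natDegree = 1 := by
    rw [add_comm, ← Polynomial.C_1, Polynomial.natDegree_X_add_C]
  rw [this]; omega

lemma H_top2 (s : ℕ) (hs : 1 ≤ s) : coeff (2 * s + 1) (H s ((2 * s + 1 : ℕ) : ℤ)) = 0 := by
  have e : H s ((2 * s + 1 : ℕ) : ℤ) = al ((s : ℕ) : ℤ) * (1 - X) := by
    rw [H, show ((2 * s + 1 : ℕ) : ℤ) - s - 1 = ((s : ℕ) : ℤ) by push_cast; ring,
      show ((2 * s + 1 : ℕ) : ℤ) - 2 * s = 0 + 1 by push_cast; ring, be_succ, be_zero, one_mul]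
  have e2 : (al ((s : ℕ) : ℤ) * (1 - X) : ℤ⟦X⟧)
      = ((((1 + Polynomial.X) ^ s * (1 - Polynomial.X) : Polynomial ℤ)) : ℤ⟦X⟧) := by
    rw [al_nat]; simp
  rw [e, e2, Polynomial.coeff_coe]
  apply Polynomial.coeff_eq_zero_of_natDegree_lt
  refine lt_of_le_of_lt (Polynomial.natDegree_mul_le) ?_
  have h1 : (1 + Polynomial.X : Polynomial ℤ).natDegree = 1 := by
    rw [add_comm, ← Polynomial.C_1, Polynomial.natDegree_X_add_C]
  have h2 : (1 - Polynomial.X : Polynomial ℤ).natDegree ≤ 1 := by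
    refine (Polynomial.natDegree_sub_le _ _).trans ?_
    simp
  have h3 : ((1 + Polynomial.X : Polynomial ℤ) ^ s).natDegree ≤ s * 1 := by
    rw [← h1]; exact Polynomial.natDegree_pow_le
  omega

lemma base1 (m : ℕ) (hm : m ≤ 3) : (F 1).coeff m = coeff m (H 1 m) := by
  have key : ∀ k : ℤ, H 1 (k + 1) = H 1 k * (1 - X ^ 2) := by
    intro k
    rw [H, H, show k + 1 - 1 - 1 = (k - 1 - 1) + 1 by ring,
      show k + 1 - 2 * 1 = (k - 2 * 1) + 1 by ring, al_succ, be_succ]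
    ring
  have h2 : H 1 2 = 1 := by
    rw [H]; norm_num [al_zero, be_zero]
  have h3 : H 1 3 = 1 - X ^ 2 := by
    have := key 2
    rw [h2] at this
    rw [show (3 : ℤ) = 2 + 1 by norm_num, this, one_mul]
  have h1 : H 1 1 * (1 - X ^ 2) = 1 := by
    rw [← key 1]; exact h2
  rw [F, Polynomial.coeff_one]
  interval_cases m
  · simp [coeff_zero_H]
  · have := congrArg (coeff 1) h1
    rw [mul_sub, mul_one, map_sub, mul_comm _ (X ^ 2 : ℤ⟦X⟧), PowerSeries.coeff_X_pow_mul'] at this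
    simpa [PowerSeries.coeff_one] using this.symm
  · simp [h2, PowerSeries.coeff_one]
  · simp [h3, PowerSeries.coeff_one, PowerSeries.coeff_X_pow]

/-- The closed form. -/
theorem coeff_F (s : ℕ) : ∀ m : ℕ, ((1 ≤ s ∧ m ≤ 2 * s + 1) ∨ m = 0) →
    (F s).coeff m = coeff m (H s m) := by
  induction s using Nat.strong_induction_on with
  | _ s ih =>
    intro m hm
    match s, ih, hm with
    | 0, _, hm =>
      have : m = 0 := by omega
      subst this
      rw [F, Polynomial.coeff_one, if_pos rfl, coeff_zero_H]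
    | 1, _, hm =>
      have := base1 m (by omega)
      simpa using this
    | (s + 2), ih, hm =>
      by_cases h1 : m = 2 * (s + 2)
      · rw [F_coeff_zero _ _ (by omega) (by omega)]
        subst h1
        exact (H_top1 (s + 2) (by omega)).symm
      by_cases h2 : m = 2 * (s + 2) + 1
      · rw [F_coeff_zero _ _ (by omega) (by omega)]
        subst h2
        exact (H_top2 (s + 2) (by omega)).symm
      have hm' : m ≤ 2 * s + 3 := by omega
      have hr := H_rec s m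
      have ec : ((s + 2 : ℕ) : ℤ) = (s : ℤ) + 2 := by push_cast; ring
      have ec1 : ((s + 1 : ℕ) : ℤ) = (s : ℤ) + 1 := by push_cast; ring
      rw [ec, ← hr, ← Polynomial.coeff_coe, F]
      have e : (((1 + Polynomial.X + 2 * Polynomial.X ^ 2) * F (s + 1)
          + Polynomial.X ^ 3 * F s : Polynomial ℤ) : ℤ⟦X⟧)
        = X ^ 0 * (F (s + 1) : ℤ⟦X⟧) + X ^ 1 * (F (s + 1) : ℤ⟦X⟧)
          + (X ^ 2 * (F (s + 1) : ℤ⟦X⟧) + X ^ 2 * (F (s + 1) : ℤ⟦X⟧))
          + X ^ 3 * (F s : ℤ⟦X⟧) := by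
        have h2 : ((2 : Polynomial ℤ) : ℤ⟦X⟧) = 2 :=
          map_ofNat (Polynomial.coeToPowerSeries.ringHom (R := ℤ)) 2
        push_cast
        rw [h2]
        ring
      have e' : H (s + 1) m + X * H (s + 1) (m - 1) + 2 * X ^ 2 * H (s + 1) (m - 2)
          + X ^ 3 * H s (m - 3)
        = X ^ 0 * H (s + 1) m + X ^ 1 * H (s + 1) (m - 1) +
          (X ^ 2 * H (s + 1) (m - 2) + X ^ 2 * H (s + 1) (m - 2)) + X ^ 3 * H s (m - 3) := by ring
      rw [e, e']
      simp only [map_add]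
      have s0 : coeff m (X ^ 0 * (F (s + 1) : ℤ⟦X⟧)) = coeff m (X ^ 0 * H (s + 1) m) := by
        apply shift
        intro _
        rw [Polynomial.coeff_coe, Nat.sub_zero, ih (s + 1) (by omega) m (by omega), ec1]
      have s1 : coeff m (X ^ 1 * (F (s + 1) : ℤ⟦X⟧)) = coeff m (X ^ 1 * H (s + 1) (m - 1)) := by
        apply shift
        intro hk
        rw [Polynomial.coeff_coe, ih (s + 1) (by omega) (m - 1) (by omega), ec1]
        push_cast [hk]; rfl
      have s2 : coeff m (X ^ 2 * (F (s + 1) : ℤ⟦X⟧)) = coeff m (X ^ 2 * H (s + 1) (m - 2)) := by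
        apply shift
        intro hk
        rw [Polynomial.coeff_coe, ih (s + 1) (by omega) (m - 2) (by omega), ec1]
        push_cast [hk]; rfl
      have s3 : coeff m (X ^ 3 * (F s : ℤ⟦X⟧)) = coeff m (X ^ 3 * H s (m - 3)) := by
        apply shift
        intro hk
        rw [Polynomial.coeff_coe, ih s (by omega) (m - 3) (by omega)]
        push_cast [hk]; rfl
      rw [s0, s1, s2, s3]

end Pool.Agent.Q149.FU
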