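import Pool.Agent.Q149.FUa

/-!
# Recurrences for the coefficients of `F_s` in one row, beyond the index `s`
-/

namespace Pool.Agent.Q149.FU

open PowerSeries

/-- coefficients of `(1+X)^u / (1-X)^w` -/
noncomputable def g (u w m : ℕ) : ℤ := coeff m (al u * be (-(w : ℤ)))

lemma g_zero (u w : ℕ) : g u w 0 = 1 := by
  rw [g, coeff_zero_eq_constantCoeff_apply, map_mul, constCoeff_al, constCoeff_be, one_mul]

lemma g_u_succ (u w m : ℕ) : g (u + 1) w (m + 1) = g u w (m + 1) + g u w m := by
  rw [g, g, g, show ((u + 1 : ℕ) : ℤ) = (u : ℤ) + 1 by push_cast; ring, al_succ,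
    show al (u : ℤ) * (1 + X) * be (-(w : ℤ)) = al u * be (-(w : ℤ)) + X * (al u * be (-(w : ℤ)))
      by ring, map_add, coeff_succ_X_mul]

lemma g_w_succ (u w m : ℕ) : g u (w + 1) (m + 1) = g u (w + 1) m + g u w (m + 1) := by
  have h : al (u : ℤ) * be (-(w : ℤ)) = al u * be (-((w + 1 : ℕ) : ℤ))
      - X * (al u * be (-((w + 1 : ℕ) : ℤ))) := by
    rw [show (-(w : ℤ)) = -((w + 1 : ℕ) : ℤ) + 1 by push_cast; ring, be_succ]
    ring
  have := congrArg (coeff (m + 1)) h
  rw [map_sub, coeff_succ_X_mul] at this
  rw [g, g, g, this]; ring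

lemma g_00 (m : ℕ) : g 0 0 (m + 1) = 0 := by
  rw [g]; simp [al_zero, be_zero, PowerSeries.coeff_one]

/-- the differential equation, for `m = 0` -/
lemma g_one (u w : ℕ) : g u w 1 = (u + w : ℤ) := by
  induction u with
  | zero =>
    induction w with
    | zero => simpa using g_00 0
    | succ w ih =>
      have := g_w_succ 0 w 0
      rw [this, ih, g_zero]; push_cast; ring
  | succ u ih =>
    have := g_u_succ u w 0
    rw [this, ih, g_zero]; push_cast; ring

/-- the differential equation -/
lemma g_rec (u w m : ℕ) :
    ((m : ℤ) + 2) * g u w (m + 2) = ((u : ℤ) + w) * g u w (m + 1) + ((m : ℤ) - u + w) * g u w m := by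
  induction u generalizing m with
  | zero =>
    induction w generalizing m with
    | zero =>
      rcases m with _ | m
      · rw [g_00, g_00]; push_cast; ring
      · rw [g_00, g_00, g_00]; push_cast; ring
    | succ w ihw =>
      induction m with
      | zero =>
        have h1 := g_w_succ 0 w 1
        have h0 := g_w_succ 0 w 0
        have hw := ihw 0
        rw [g_zero] at h0 hw ⊢
        simp only [Nat.zero_add] at *
        rw [h1, h0]
        have e1 := g_one 0 w
        push_cast at hw e1 ⊢
        linear_combination hw + e1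
      | succ m ihm =>
        have h2 := g_w_succ 0 w (m + 2)
        have h1 := g_w_succ 0 w (m + 1)
        have h0 := g_w_succ 0 w m
        have hw := ihw (m + 1)
        push_cast at hw ihm ⊢
        rw [show m + 1 + 2 = m + 2 + 1 from rfl] at *
        rw [show m + 1 + 1 = m + 2 from rfl] at *
        linear_combination ihm + hw + ((m : ℤ) + 3) * h2 - ((w : ℤ) + 1) * h1
          + h1 - ((m : ℤ) + w + 1) * h0
  | succ u ih =>
    rcases m with _ | m
    · have h1 := g_u_succ u w 1
      have h0 := g_u_succ u w 0
      have hw := ih 0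
      have e1 := g_one u w
      rw [g_zero] at h0 hw ⊢
      simp only [Nat.zero_add] at *
      rw [h1, h0]
      push_cast at hw ⊢
      rw [e1] at *
      linear_combination hw
    · have h2 := g_u_succ u w (m + 2)
      have h1 := g_u_succ u w (m + 1)
      have h0 := g_u_succ u w m
      have hw := ih m
      have hw1 := ih (m + 1)
      push_cast at hw hw1 ⊢
      rw [show m + 1 + 2 = m + 2 + 1 from rfl] at *
      rw [show m + 1 + 1 = m + 2 from rfl] at *
      rw [h2, h1, h0]
      linear_combination hw1 + hw

end Pool.Agent.Q149.FU
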