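import Pool.Agent.Q149.FUb

/-!
# The three-term recurrence of a row and unimodality for `s ≥ 8`
-/

namespace Pool.Agent.Q149.FU

open PowerSeries

lemma g_nonneg (u w m : ℕ) : 0 ≤ g u w m := by
  induction u generalizing m with
  | zero =>
    induction w generalizing m with
    | zero =>
      rcases m with _ | m
      · rw [g_zero]; norm_num
      · rw [g_00]
    | succ w ihw =>
      induction m with
      | zero => rw [g_zero]; norm_num
      | succ m ihm => rw [g_w_succ]; exact add_nonneg ihm (ihw _)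
  | succ u ih =>
    rcases m with _ | m
    · rw [g_zero]; norm_num
    · rw [g_u_succ]; exact add_nonneg (ih _) (ih _)

lemma g_mono (u w m : ℕ) : g u (w + 1) m ≤ g u (w + 1) (m + 1) := by
  rw [g_w_succ]; linarith [g_nonneg u w (m + 1)]

/-- binomial ratio for `u = 0` -/
lemma g_ratio (w m : ℕ) : ((m : ℤ) + 1) * g 0 w (m + 1) = ((w : ℤ) + m) * g 0 w m := by
  induction m with
  | zero => rw [g_zero, g_one]; push_cast; ring
  | succ m ih =>
    have := g_rec 0 w m
    push_cast at this ⊢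
    rw [show m + 1 + 1 = m + 2 from rfl]
    linear_combination this - ih

lemma coeff_two (P : ℤ⟦X⟧) (m : ℕ) : coeff (m + 2) (P * (1 - X ^ 2)) = coeff (m + 2) P - coeff m P := by
  rw [mul_sub, mul_one, map_sub, mul_comm P (X ^ 2), PowerSeries.coeff_X_pow_mul]

/-- shorthand for the coefficients -/
noncomputable def f (s n : ℕ) : ℤ := (F s).coeff n

lemma f_eq (s n : ℕ) (hs : 1 ≤ s) (hn : n ≤ 2 * s + 1) : f s n = coeff n (H s n) :=
  coeff_F s n (Or.inl ⟨hs, hn⟩)

lemma f_nonneg (s n : ℕ) : 0 ≤ f s n := by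
  induction s using Nat.strong_induction_on generalizing n with
  | _ s ih =>
    match s, ih with
    | 0, _ => rw [f, F, Polynomial.coeff_one]; split_ifs <;> norm_num
    | 1, _ => rw [f, F, Polynomial.coeff_one]; split_ifs <;> norm_num
    | (s + 2), ih =>
      rw [f, F]
      have e : (1 + Polynomial.X + 2 * Polynomial.X ^ 2) * F (s + 1) + Polynomial.X ^ 3 * F s
        = Polynomial.X ^ 0 * F (s + 1) + Polynomial.X ^ 1 * F (s + 1)
          + (Polynomial.X ^ 2 * F (s + 1) + Polynomial.X ^ 2 * F (s + 1))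
          + Polynomial.X ^ 3 * F s := by ring
      rw [e]
      simp only [Polynomial.coeff_add]
      have key : ∀ (k t : ℕ), t < s + 2 → 0 ≤ (Polynomial.X ^ k * F t).coeff n := by
        intro k t ht
        rw [Polynomial.coeff_X_pow_mul']
        split_ifs
        · exact ih t ht _
        · exact le_refl _
      have a0 := key 0 (s + 1) (by omega)
      have a1 := key 1 (s + 1) (by omega)
      have a2 := key 2 (s + 1) (by omega)
      have a3 := key 3 s (by omega)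
      linarith

/-- row recurrence -/
lemma f_rec (s n : ℕ) : f (s + 2) (n + 3)
    = f (s + 1) (n + 3) + f (s + 1) (n + 2) + 2 * f (s + 1) (n + 1) + f s n := by
  rw [f, F]
  have e : (1 + Polynomial.X + 2 * Polynomial.X ^ 2) * F (s + 1) + Polynomial.X ^ 3 * F s
    = F (s + 1) + Polynomial.X ^ 1 * F (s + 1)
      + (Polynomial.X ^ 2 * F (s + 1) + Polynomial.X ^ 2 * F (s + 1))
      + Polynomial.X ^ 3 * F s := by ring
  rw [e]
  simp only [Polynomial.coeff_add]
  rw [show n + 3 = n + 2 + 1 from rfl, Polynomial.coeff_X_pow_mul,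
    show n + 2 + 1 = n + 1 + 2 from rfl, Polynomial.coeff_X_pow_mul,
    show n + 1 + 2 = n + 3 from rfl, Polynomial.coeff_X_pow_mul]
  simp only [f]
  ring

lemma f_rec2 (s : ℕ) : f (s + 2) 2 = f (s + 1) 2 + f (s + 1) 1 + 2 * f (s + 1) 0 := by
  rw [f, F]
  have e : (1 + Polynomial.X + 2 * Polynomial.X ^ 2) * F (s + 1) + Polynomial.X ^ 3 * F s
    = F (s + 1) + Polynomial.X ^ 1 * F (s + 1)
      + (Polynomial.X ^ 2 * F (s + 1) + Polynomial.X ^ 2 * F (s + 1))
      + Polynomial.X ^ 3 * F s := by ring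
  rw [e]
  simp only [Polynomial.coeff_add, Polynomial.coeff_X_pow_mul']
  norm_num [f]
  ring

lemma f_rec1 (s : ℕ) : f (s + 2) 1 = f (s + 1) 1 + f (s + 1) 0 := by
  rw [f, F]
  have e : (1 + Polynomial.X + 2 * Polynomial.X ^ 2) * F (s + 1) + Polynomial.X ^ 3 * F s
    = F (s + 1) + Polynomial.X ^ 1 * F (s + 1)
      + (Polynomial.X ^ 2 * F (s + 1) + Polynomial.X ^ 2 * F (s + 1))
      + Polynomial.X ^ 3 * F s := by ring
  rw [e]
  simp only [Polynomial.coeff_add, Polynomial.coeff_X_pow_mul']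
  norm_num [f]

lemma f_rec0 (s : ℕ) : f (s + 2) 0 = f (s + 1) 0 := by
  rw [f, F]
  have e : (1 + Polynomial.X + 2 * Polynomial.X ^ 2) * F (s + 1) + Polynomial.X ^ 3 * F s
    = F (s + 1) + Polynomial.X ^ 1 * F (s + 1)
      + (Polynomial.X ^ 2 * F (s + 1) + Polynomial.X ^ 2 * F (s + 1))
      + Polynomial.X ^ 3 * F s := by ring
  rw [e]
  simp only [Polynomial.coeff_add, Polynomial.coeff_X_pow_mul']
  norm_num [f]

/-- `f s n` beyond `s`. -/
lemma f_g (s n u w : ℕ) (hs : 1 ≤ s) (hu : s + 1 + u = n) (hw : n + w = 2 * s) :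
    f s n = g u w n := by
  rw [f_eq s n hs (by omega), H, g]
  congr 3
  · subst hu; push_cast; ring_nf
  · have : (n : ℤ) + w = 2 * s := by exact_mod_cast hw
    linarith

/-- `f s (n+1)` in terms of the same power series -/
lemma f_g1 (s k u w : ℕ) (hs : 1 ≤ s) (hu : s + 1 + u = k + 1) (hw : k + 1 + w = 2 * s) :
    f s (k + 2) = g u w (k + 2) - g u w k := by
  have hw' : (k : ℤ) + 1 + w = 2 * s := by exact_mod_cast hw
  have hu' : (s : ℤ) + 1 + u = k + 1 := by exact_mod_cast hu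
  rw [f_eq s (k + 2) hs (by omega), H, g, g, ← coeff_two]
  congr 1
  rw [show ((k + 2 : ℕ) : ℤ) - s - 1 = (u : ℤ) + 1 by push_cast; linarith,
    show ((k + 2 : ℕ) : ℤ) - 2 * s = -(w : ℤ) + 1 by push_cast; linarith, al_succ, be_succ]
  ring

/-- three consecutive coefficients -/
lemma f_g3 (s k u w : ℕ) (hs : 1 ≤ s) (hu : s + 3 + u = k + 4) (hw : k + 4 + w = 2 * s + 2)
    (hk : k + 4 ≤ 2 * s + 1) :
    f s (k + 2) = g u w (k + 2) ∧ f s (k + 3) = g u w (k + 3) - g u w (k + 1) ∧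
    f s (k + 4) = g u w (k + 4) - 2 * g u w (k + 2) + g u w k := by
  have hw' : (k : ℤ) + 4 + w = 2 * s + 2 := by exact_mod_cast hw
  have hu' : (s : ℤ) + 3 + u = k + 4 := by exact_mod_cast hu
  refine ⟨f_g s (k + 2) u w hs (by omega) (by omega), ?_, ?_⟩
  · rw [f_eq s (k + 3) hs (by omega), H, g, g, show k + 3 = (k + 1) + 2 from rfl, ← coeff_two]
    congr 1
    rw [show ((k + 1 + 2 : ℕ) : ℤ) - s - 1 = (u : ℤ) + 1 by push_cast; linarith,
      show ((k + 1 + 2 : ℕ) : ℤ) - 2 * s = -(w : ℤ) + 1 by push_cast; linarith, al_succ, be_succ]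
    ring
  · have e : H s ((k + 4 : ℕ) : ℤ) = (al u * be (-(w : ℤ)) * (1 - X ^ 2)) * (1 - X ^ 2) := by
      rw [H, show ((k + 4 : ℕ) : ℤ) - s - 1 = (u : ℤ) + 1 + 1 by push_cast; linarith,
        show ((k + 4 : ℕ) : ℤ) - 2 * s = -(w : ℤ) + 1 + 1 by push_cast; linarith, al_succ, be_succ,
        al_succ, be_succ]
      ring
    rw [f_eq s (k + 4) hs (by omega), e, show k + 4 = (k + 2) + 2 from rfl, coeff_two, coeff_two,
      coeff_two, g, g, g]
    ring

/-- The three-term recurrence in a row: for `s + 3 ≤ n ≤ 2 s + 1`, with `n = k + 4`. -/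
lemma three (s k : ℕ) (hs : 1 ≤ s) (h1 : s + 3 ≤ k + 4) (h2 : k + 4 ≤ 2 * s + 1) :
    ((k : ℤ) + 4) * (3 * s + 1 - (k + 4)) * (3 * s + 3 - 2 * (k + 4)) * f s (k + 4)
      = ((s : ℤ) - 1) * (3 * s + 1) * (3 * s + 2 - 2 * (k + 4)) * f s (k + 3)
        - 4 * ((k + 4) - s - 2) * (2 * s + 1 - (k + 4)) * (3 * s + 1 - 2 * (k + 4)) * f s (k + 2) := by
  obtain ⟨u, hu⟩ : ∃ u, k + 4 = s + 3 + u := ⟨k + 4 - (s + 3), by omega⟩
  obtain ⟨w, hw⟩ : ∃ w, 2 * s + 2 = k + 4 + w := ⟨2 * s + 2 - (k + 4), by omega⟩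
  obtain ⟨a2, a3, a4⟩ := f_g3 s k u w hs hu.symm hw.symm h2
  have r0 := g_rec u w k
  have r1 := g_rec u w (k + 1)
  have r2 := g_rec u w (k + 2)
  rw [show k + 1 + 2 = k + 3 from rfl, show k + 1 + 1 = k + 2 from rfl] at r1
  rw [show k + 2 + 2 = k + 4 from rfl, show k + 2 + 1 = k + 3 from rfl] at r2
  have hw' : (w : ℤ) = 2 * s + 2 - (k + 4) := by
    have : (2 : ℤ) * s + 2 = k + 4 + w := by exact_mod_cast hw
    linarith
  have hu' : (u : ℤ) = k + 4 - (s + 3) := by
    have : (k : ℤ) + 4 = s + 3 + u := by exact_mod_cast hu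
    linarith
  push_cast at r0 r1 r2
  rw [hw', hu'] at r0 r1 r2
  rw [a2, a3, a4]
  linear_combination (3 * (s : ℤ) + 1 - (k + 4)) * (3 * s + 3 - 2 * (k + 4)) * r2
    + ((s : ℤ) - 1) * (2 * (k + 4) - 3 * s - 1) * r1 - ((k : ℤ) + 4) * (3 * s + 3 - 2 * (k + 4)) * r0

end Pool.Agent.Q149.FU
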