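import Pool.Agent.Q149.FUc

/-!
# Unimodality for `s ≥ 8`, assuming the finite data
-/

namespace Pool.Agent.Q149.FU

open PowerSeries

/-- decreasing region -/
lemma desc (s k : ℕ) (hs : 1 ≤ s) (h1 : s + 1 ≤ k + 1) (h2 : k + 1 ≤ 2 * s - 1)
    (h3 : 4 * s ≤ 3 * (k + 1) + 3) : f s (k + 2) ≤ f s (k + 1) := by
  obtain ⟨u, hu⟩ : ∃ u, k + 1 = s + 1 + u := ⟨k + 1 - (s + 1), by omega⟩
  obtain ⟨w, hw⟩ : ∃ w, 2 * s = k + 1 + (w + 1) := ⟨2 * s - (k + 1) - 1, by omega⟩
  have e1 := f_g s (k + 1) u (w + 1) hs hu.symm (by omega)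
  have e2 := f_g1 s k u (w + 1) hs hu.symm (by omega)
  have r := g_rec u (w + 1) k
  have m := g_mono u w k
  have p := g_nonneg u (w + 1) k
  have p1 := g_nonneg u (w + 1) (k + 1)
  have hw' : (w : ℤ) = 2 * s - (k + 1) - 1 := by
    have : (2 : ℤ) * s = k + 1 + (w + 1) := by exact_mod_cast hw
    linarith
  have hu' : (u : ℤ) = k + 1 - (s + 1) := by
    have : (k : ℤ) + 1 = s + 1 + u := by exact_mod_cast hu
    linarith
  have h3' : (4 : ℤ) * s ≤ 3 * (k + 1) + 3 := by exact_mod_cast h3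
  push_cast at r
  rw [hw', hu'] at r
  rw [e1, e2]
  set G2 := g u (w + 1) (k + 2)
  set G1 := g u (w + 1) (k + 1)
  set G0 := g u (w + 1) k
  have hk : (0 : ℤ) < (k : ℤ) + 2 := by positivity
  have key : ((k : ℤ) + 2) * (G2 - G0 - G1) ≤ 0 := by
    have : ((k : ℤ) + 2) * (G2 - G0 - G1)
      = (3 * s - 2 * k - 3) * G0 - (k + 3 - s) * G1 := by linear_combination r
    rw [this]
    have hks : (s : ℤ) ≤ k := by exact_mod_cast (by omega : s ≤ k)
    rcases le_or_gt (0 : ℤ) (3 * s - 2 * k - 3) with hpos | hneg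
    · have : (3 * (s : ℤ) - 2 * k - 3) * G0 ≤ (3 * s - 2 * k - 3) * G1 :=
        mul_le_mul_of_nonneg_left m hpos
      nlinarith
    · nlinarith
  nlinarith

/-- the diagonal -/
lemma diag (s : ℕ) (hs : 8 ≤ s) : f s (s + 1) ≤ f s (s + 2) := by
  obtain ⟨w, hw⟩ : ∃ w, s = w + 1 := ⟨s - 1, by omega⟩
  have e1 := f_g s (s + 1) 0 w (by omega) (by omega) (by omega)
  have e2 := f_g1 s s 0 w (by omega) (by omega) (by omega)
  have r := g_rec 0 w s
  have q := g_ratio w s
  have p := g_nonneg 0 w s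
  have hw' : (w : ℤ) = s - 1 := by
    have : (s : ℤ) = w + 1 := by exact_mod_cast hw
    linarith
  have hs' : (8 : ℤ) ≤ s := by exact_mod_cast hs
  push_cast at r
  rw [hw'] at r q
  rw [e1, e2]
  set G2 := g 0 w (s + 2)
  set G1 := g 0 w (s + 1)
  set G0 := g 0 w s
  have h1 : ((s : ℤ) + 2) * (G2 - G0 - G1) = (s - 3) * G0 - 3 * G1 := by linear_combination r
  have h2 : ((s : ℤ) + 1) * (((s : ℤ) + 2) * (G2 - G0 - G1)) = (s * (s - 8)) * G0 := by
    rw [h1]; linear_combination (-3 : ℤ) * q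
  have h3 : 0 ≤ ((s : ℤ) + 1) * (((s : ℤ) + 2) * (G2 - G0 - G1)) := by
    rw [h2]
    exact mul_nonneg (mul_nonneg (by linarith) (by linarith)) p
  have h4 : 0 ≤ ((s : ℤ) + 2) * (G2 - G0 - G1) := nonneg_of_mul_nonneg_right h3 (by positivity)
  have h5 : 0 ≤ G2 - G0 - G1 := nonneg_of_mul_nonneg_right h4 (by positivity)
  linarith

/-- increasing region -/
lemma asc (base8 : ∀ n, n ≤ 9 → f 8 n ≤ f 8 (n + 1)) (base9 : ∀ n, n ≤ 10 → f 9 n ≤ f 9 (n + 1))
    (s : ℕ) (hs : 8 ≤ s) : ∀ n, n ≤ s + 1 → f s n ≤ f s (n + 1) := by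
  induction s using Nat.strong_induction_on with
  | _ s ih =>
    by_cases h8 : s = 8
    · subst h8; exact base8
    by_cases h9 : s = 9
    · subst h9; exact base9
    obtain ⟨t, rfl⟩ : ∃ t, s = t + 2 := ⟨s - 2, by omega⟩
    intro n hn
    by_cases hd : n = t + 2 + 1
    · subst hd; exact diag (t + 2) hs
    have i1 := ih (t + 1) (by omega) (by omega)
    have i0 := ih t (by omega) (by omega)
    match n, hn, hd with
    | 0, _, _ =>
      rw [f_rec0, f_rec1]
      have := i1 0 (by omega)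
      have p := f_nonneg (t + 1) 0
      linarith
    | 1, _, _ =>
      rw [f_rec1, f_rec2]
      have h0 := i1 0 (by omega)
      have h1 := i1 1 (by omega)
      have p := f_nonneg (t + 1) 0
      linarith
    | 2, _, _ =>
      rw [f_rec2, show 2 + 1 = 0 + 3 from rfl, f_rec]
      simp only [Nat.zero_add]
      have h0 := i1 0 (by omega)
      have h1 := i1 1 (by omega)
      have h2 := i1 2 (by omega)
      have p := f_nonneg t 0
      linarith
    | (n + 3), hn, hd =>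
      rw [f_rec, show n + 3 + 1 = (n + 1) + 3 from rfl, f_rec]
      have h3 := i1 (n + 3) (by omega)
      have h2 := i1 (n + 2) (by omega)
      have h1 := i1 (n + 1) (by omega)
      have h0 := i0 n (by omega)
      rw [show n + 1 + 3 = n + 3 + 1 from rfl, show n + 1 + 2 = n + 2 + 1 from rfl]
      linarith

/-- the sign function of the middle region -/
def D (S N : ℤ) : ℤ := (S - 1) * (3 * S + 1) * (3 * S + 2 - 2 * N)
  - 4 * (N - S - 2) * (2 * S + 1 - N) * (3 * S + 1 - 2 * N) - N * (3 * S + 1 - N) * (3 * S + 3 - 2 * N)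

lemma D_step (S N : ℤ) (hS : 8 ≤ S) (h1 : S + 2 ≤ N) (h2 : 2 * (N + 1) ≤ 3 * S) (hD : D S N ≤ 0) :
    D S (N + 1) ≤ 0 := by
  obtain ⟨t, rfl⟩ : ∃ t, N = S + t := ⟨N - S, by ring⟩
  by_cases hQ : S ^ 2 - 5 * S * (t + 1) + 5 * (t + 1) ^ 2 + 5 * S - 13 * (t + 1) + 7 ≤ 0
  · have e : D S (S + t + 1) = (S + 2 - 2 * (t + 1)) *
        (S ^ 2 - 5 * S * (t + 1) + 5 * (t + 1) ^ 2 + 5 * S - 13 * (t + 1) + 7)
        + (-2 * S ^ 2 + 3 * S * (t + 1) - 3 * (t + 1) ^ 2 - 9 * S + 11 * (t + 1) - 8) := by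
      rw [D]; ring
    rw [e]
    have h3 : 0 ≤ S + 2 - 2 * (t + 1) := by linarith
    have h4 := mul_nonneg h3 (neg_nonneg.mpr hQ)
    nlinarith
  · push Not at hQ
    have e : D S (S + t + 1) = D S (S + t) + (-5 * (S - 2 * t) ^ 2 - 15 * (S - 2 * t) - 8)
        - 2 * (S ^ 2 - 5 * S * (t + 1) + 5 * (t + 1) ^ 2 + 5 * S - 13 * (t + 1) + 7) := by
      rw [D, D]; ring
    rw [e]
    have h3 : 0 ≤ S - 2 * t := by linarith
    nlinarith [sq_nonneg (S - 2 * t)]

/-- the key inequality in the middle region, `n = k + 4` -/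
lemma mid (s k : ℕ) (hs : 8 ≤ s) (h1 : s + 3 ≤ k + 4) (h2 : 2 * (k + 4) ≤ 3 * s) :
    ∃ c : ℤ, 0 < c ∧ (∃ c2 : ℤ, 0 ≤ c2 ∧ c * (f s (k + 4) - f s (k + 3))
      = D s (k + 4) * f s (k + 3) + c2 * (f s (k + 3) - f s (k + 2))) := by
  have h := three s k (by omega) h1 (by omega)
  have hs' : (8 : ℤ) ≤ s := by exact_mod_cast hs
  have h1' : (s : ℤ) + 3 ≤ k + 4 := by exact_mod_cast h1
  have h2' : (2 : ℤ) * (k + 4) ≤ 3 * s := by exact_mod_cast h2
  refine ⟨((k : ℤ) + 4) * (3 * s + 1 - (k + 4)) * (3 * s + 3 - 2 * (k + 4)), ?_,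
    4 * ((k + 4) - s - 2) * (2 * s + 1 - (k + 4)) * (3 * s + 1 - 2 * (k + 4)), ?_, ?_⟩
  · apply mul_pos (mul_pos (by positivity) (by linarith)) (by linarith)
  · apply mul_nonneg (mul_nonneg (by linarith) (by linarith)) (by linarith)
  · rw [D]; linear_combination h

/-- unimodality for `s ≥ 8` -/
theorem unim (base8 : ∀ n, n ≤ 9 → f 8 n ≤ f 8 (n + 1))
    (base9 : ∀ n, n ≤ 10 → f 9 n ≤ f 9 (n + 1)) (s : ℕ) (hs : 8 ≤ s) :
    ∃ M, (∀ n, n < M → f s n ≤ f s (n + 1)) ∧ (∀ n, M ≤ n → f s (n + 1) ≤ f s n) := by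
  classical
  have hex : ∃ n, f s (n + 1) < f s n := by
    by_contra hcon
    push Not at hcon
    have h0 : f s 0 = 1 := by
      have := g_zero 0 0
      rw [f_eq s 0 (by omega) (by omega), coeff_zero_H]
    have hm : Monotone (f s) := monotone_nat_of_le_succ hcon
    have h1 : f s 0 ≤ f s (2 * s) := hm (Nat.zero_le _)
    have h2 : f s (2 * s) = 0 := F_coeff_zero s (2 * s) le_rfl (by omega)
    rw [h0, h2] at h1
    norm_num at h1
  set M := Nat.find hex with hM
  have hMs : f s (M + 1) < f s M := Nat.find_spec hex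
  have hmin : ∀ n, n < M → f s n ≤ f s (n + 1) := by
    intro n hn
    have := Nat.find_min hex hn
    exact not_lt.mp this
  have hasc := asc base8 base9 s hs
  have hM1 : s + 2 ≤ M := by
    by_contra hcon
    push Not at hcon
    have := hasc M (by omega)
    exact absurd hMs (not_lt.mpr this)
  refine ⟨M, hmin, ?_⟩
  -- D is nonpositive from M+1 on
  have hDM : 2 * (M + 1) ≤ 3 * s → D s ((M : ℤ) + 1) ≤ 0 := by
    intro h2
    obtain ⟨k, hk⟩ : ∃ k, M = k + 3 := ⟨M - 3, by omega⟩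
    obtain ⟨c, hc, c2, hc2, he⟩ := mid s k hs (by omega) (by omega)
    have hle : f s (k + 2) ≤ f s (k + 3) := by
      have := hmin (k + 2) (by omega)
      rwa [show k + 2 + 1 = k + 3 from rfl] at this
    rw [hk, show k + 3 + 1 = k + 4 from rfl] at hMs
    have hp := f_nonneg s (k + 3)
    rw [hk]
    push_cast
    rw [show (k : ℤ) + 3 + 1 = k + 4 by ring]
    by_contra hpos
    push Not at hpos
    have t1 := mul_nonneg hc2 (sub_nonneg.mpr hle)
    have t2 : 0 ≤ D s ((k : ℤ) + 4) * f s (k + 3) := mul_nonneg hpos.le hp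
    have t3 : c * (f s (k + 4) - f s (k + 3)) < 0 := mul_neg_of_pos_of_neg hc (by linarith)
    linarith
  have hDall : ∀ j, 2 * (M + 1 + j) ≤ 3 * s → D s ((M : ℤ) + 1 + j) ≤ 0 := by
    intro j
    induction j with
    | zero => intro h; simpa using hDM (by simpa using h)
    | succ j ih =>
      intro h
      have := D_step s ((M : ℤ) + 1 + j) (by exact_mod_cast hs)
        (by have : (s : ℤ) + 2 ≤ M := by exact_mod_cast hM1
            have : (0 : ℤ) ≤ j := by positivity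
            linarith)
        (by have : (2 : ℤ) * (M + 1 + (j + 1)) ≤ 3 * s := by exact_mod_cast h
            linarith) (ih (by omega))
      push_cast
      rw [← add_assoc]
      exact this
  intro n hn
  obtain ⟨j, rfl⟩ : ∃ j, n = M + j := ⟨n - M, by omega⟩
  induction j with
  | zero => exact hMs.le
  | succ j ih =>
    have ih' := ih (by omega)
    by_cases hbig : 2 * s ≤ M + (j + 1) + 1
    · have : f s (M + (j + 1) + 1) = 0 := F_coeff_zero s _ hbig (by omega)
      rw [this]; exact f_nonneg _ _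
    by_cases hIII : 4 * s ≤ 3 * (M + (j + 1)) + 3
    · obtain ⟨k, hk⟩ : ∃ k, M + (j + 1) = k + 1 := ⟨M + j, by omega⟩
      rw [hk]
      exact desc s k (by omega) (by omega) (by omega) (by omega)
    · -- middle region
      obtain ⟨k, hk⟩ : ∃ k, M + (j + 1) = k + 3 := ⟨M + (j + 1) - 3, by omega⟩
      obtain ⟨c, hc, c2, hc2, he⟩ := mid s k hs (by omega) (by omega)
      have hd := hDall (j + 1) (by omega)
      have hkz : (M : ℤ) + 1 + ((j + 1 : ℕ) : ℤ) = k + 4 := by
        have : (M : ℤ) + (j + 1) = k + 3 := by exact_mod_cast hk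
        push_cast; linarith
      rw [hkz] at hd
      rw [hk]
      have e2 : M + j = k + 2 := by omega
      rw [e2] at ih'
      have hp := f_nonneg s (k + 3)
      rw [show k + 2 + 1 = k + 3 from rfl] at ih'
      have t1 := mul_nonneg hc2 (sub_nonneg.mpr ih')
      have t2 : 0 ≤ -D s ((k : ℤ) + 4) * f s (k + 3) := mul_nonneg (by linarith) hp
      have t3 : c * (f s (k + 4) - f s (k + 3)) ≤ 0 := by nlinarith
      have t4 : f s (k + 4) - f s (k + 3) ≤ 0 := by
        by_contra hcon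
        push Not at hcon
        have := mul_pos hc hcon
        linarith
      rw [show k + 3 + 1 = k + 4 from rfl]
      linarith

end Pool.Agent.Q149.FU
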