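import Pool.Agent.Q149.FUd

/-!
# Small cases
-/

namespace Pool.Agent.Q149.FU

open Polynomial

/-- polynomial of a list of coefficients -/
noncomputable def P : List ℤ → ℤ[X]
  | [] => 0
  | a :: l => C a + X * P l

/-- addition of coefficient lists -/
def addL : List ℤ → List ℤ → List ℤ
  | [], l => l
  | l, [] => l
  | a :: l, b :: m => (a + b) :: addL l m

lemma P_add (l m : List ℤ) : P (addL l m) = P l + P m := by
  induction l generalizing m with
  | nil => cases m <;> simp [addL, P]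
  | cons a l ih =>
    cases m with
    | nil => simp [addL, P]
    | cons b m => rw [addL, P, P, P, ih, C_add]; ring

lemma P_shift (l : List ℤ) : P (0 :: l) = X * P l := by rw [P]; simp

/-- rows -/
def row : ℕ → List ℤ × List ℤ
  | 0 => ([1], [1])
  | (s + 1) => ((row s).2, addL (addL (row s).2 (0 :: (row s).2))
      (addL (0 :: 0 :: addL (row s).2 (row s).2) (0 :: 0 :: 0 :: (row s).1)))

lemma row_spec (s : ℕ) : P (row s).1 = F s ∧ P (row s).2 = F (s + 1) := by
  induction s with
  | zero => refine ⟨?_, ?_⟩ <;> simp [row, P, F]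
  | succ s ih =>
    refine ⟨ih.2, ?_⟩
    rw [row, F]
    simp only [P_add, P_shift, ih.1, ih.2]
    ring

lemma P_coeff (l : List ℤ) (n : ℕ) : (P l).coeff n = l.getD n 0 := by
  induction l generalizing n with
  | nil => simp [P]
  | cons a l ih =>
    rw [P]
    cases n with
    | zero => simp
    | succ n => rw [coeff_add, coeff_C_succ, coeff_X_mul, ih]; simp

lemma f_row (s n : ℕ) : f s n = (row s).1.getD n 0 := by
  rw [f, ← (row_spec s).1, P_coeff]

/-- the peaks for `s ≤ 7` -/
def peak : ℕ → ℕ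
  | 0 => 0 | 1 => 0 | 2 => 2 | 3 => 3 | 4 => 4 | 5 => 6 | 6 => 7 | 7 => 8 | _ => 0

lemma base8 : ∀ n, n ≤ 9 → f 8 n ≤ f 8 (n + 1) := by
  intro n hn
  rw [f_row, f_row]
  revert n
  decide

lemma base9 : ∀ n, n ≤ 10 → f 9 n ≤ f 9 (n + 1) := by
  intro n hn
  rw [f_row, f_row]
  revert n
  decide

lemma small (s : ℕ) (hs : s ≤ 7) :
    (∀ n, n < peak s → f s n ≤ f s (n + 1)) ∧ (∀ n, peak s ≤ n → n < 16 → f s (n + 1) ≤ f s n) := by
  simp only [f_row]
  interval_cases s <;> decide

theorem unim_all (s : ℕ) :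
    ∃ M, (∀ n, n < M → f s n ≤ f s (n + 1)) ∧ (∀ n, M ≤ n → f s (n + 1) ≤ f s n) := by
  by_cases hs : 8 ≤ s
  · exact unim base8 base9 s hs
  · obtain ⟨h1, h2⟩ := small s (by omega)
    refine ⟨peak s, h1, ?_⟩
    intro n hn
    by_cases h16 : n < 16
    · exact h2 n hn h16
    · have : f s (n + 1) = 0 := F_coeff_zero s _ (by omega) (by omega)
      rw [this]
      exact f_nonneg _ _

end Pool.Agent.Q149.FU
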