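import Pool.Agent.Helper717.Hull2

set_option autoImplicit false

/-!
Lower bound for the area of the convex hull of a finite planar set by a fan of triangles with a
common apex, together with a version that can be checked on integer points.
-/

namespace Q149.Fan

open MeasureTheory Set Pool.Agent.Helper717.Hull1 Pool.Agent.Helper717.Hull2
open scoped ENNReal NNReal

/-- Twice the total area of the fan of triangles with apex `v` along the list. -/
def fanSum (v : E2) : List E2 → ℝ
  | [] => 0
  | [_] => 0
  | a :: b :: l => orient v a b + fanSum v (b :: l)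

/-- Area of a (possibly degenerate) nonnegatively oriented triangle, lower bound. -/
lemma tri_lower (v a b : E2) (h : 0 ≤ orient v a b) :
    ENNReal.ofReal (orient v a b / 2) ≤ volume (convexHull ℝ ({v, a, b} : Set E2)) := by
  rcases h.eq_or_lt with h0 | h0
  · rw [← h0]; simp
  · rw [tri_vol_pos v a b h0]

lemma fan_nonneg (v : E2) : ∀ l : List E2, l.Pairwise (fun a b => 0 ≤ orient v a b) →
    0 ≤ fanSum v l
  | [], _ => le_refl _
  | [_], _ => le_refl _
  | a :: b :: l, h => by
    have h1 := fan_nonneg v (b :: l) (List.Pairwise.of_cons h)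
    have h2 : 0 ≤ orient v a b := (List.pairwise_cons.1 h).1 b (by simp)
    simp only [fanSum]
    linarith

theorem vol_fan (v : E2) : ∀ l : List E2, l.Pairwise (fun a b => 0 ≤ orient v a b) →
    (∀ a ∈ l, a ≠ v) →
    ENNReal.ofReal (fanSum v l / 2) ≤ volume (convexHull ℝ (insert v {x | x ∈ l}))
  | [], _, _ => by simp [fanSum]
  | [_], _, _ => by simp [fanSum]
  | a :: b :: l, h, hne => by
    have hp := List.pairwise_cons.1 h
    have h1 := vol_fan v (b :: l) hp.2 (fun x hx => hne x (List.mem_cons_of_mem _ hx))
    have h2 : 0 ≤ orient v a b := hp.1 b (by simp)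
    have h3 := tri_lower v a b h2
    have h4 := fan_nonneg v (b :: l) hp.2
    have hb : v ≠ b := fun e => hne b (by simp) e.symm
    set A : Set E2 := convexHull ℝ ({v, a, b} : Set E2) with hA
    set B : Set E2 := convexHull ℝ (insert v {x | x ∈ b :: l}) with hB
    have hAs : A ⊆ {q | orient v b q ≤ 0} := by
      apply convexHull_min _ (half_convex' v b)
      intro p hp
      simp only [mem_insert_iff, mem_singleton_iff] at hp
      rcases hp with rfl | rfl | rfl
      · simp [or_self3]
      · simp only [mem_ofPred_eq]; rw [or_swap']; linarith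
      · simp [or_self2]
    have hBs : B ⊆ {q | 0 ≤ orient v b q} := by
      apply convexHull_min _ (half_convex v b)
      intro p hp'
      simp only [mem_insert_iff, mem_ofPred_eq, List.mem_cons] at hp'
      rcases hp' with rfl | rfl | h5
      · simp [or_self3]
      · simp [or_self2]
      · exact (List.pairwise_cons.1 hp.2).1 p h5
    have hd : AEDisjoint volume A B := by
      refine measure_mono_null ?_ (line_null v b hb)
      rintro q ⟨hq1, hq2⟩
      exact le_antisymm (hAs hq1) (hBs hq2)
    have hAm : MeasurableSet A := tri_meas v a b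
    have hsub : A ∪ B ⊆ convexHull ℝ (insert v {x | x ∈ a :: b :: l}) := by
      apply union_subset
      · apply convexHull_mono
        intro p hp'
        simp only [mem_insert_iff, mem_singleton_iff] at hp'
        rcases hp' with rfl | rfl | rfl <;> simp
      · apply convexHull_mono
        intro p hp'
        simp only [mem_insert_iff, mem_ofPred_eq, List.mem_cons] at hp' ⊢
        tauto
    calc ENNReal.ofReal (fanSum v (a :: b :: l) / 2)
        = ENNReal.ofReal (orient v a b / 2) + ENNReal.ofReal (fanSum v (b :: l) / 2) := by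
          rw [← ENNReal.ofReal_add (by linarith) (by linarith)]
          congr 1
          simp only [fanSum]; ring
      _ ≤ volume A + volume B := add_le_add h3 h1
      _ = volume (A ∪ B) := by rw [union_comm, measure_union₀ hAm.nullMeasurableSet hd.symm, add_comm]
      _ ≤ _ := measure_mono hsub

/-- Twice the signed area for integer points. -/
def orZ (a b c : ℤ × ℤ) : ℤ := (b.1 - a.1) * (c.2 - a.2) - (b.2 - a.2) * (c.1 - a.1)

/-- Integer version of `fanSum`. -/
def fanZ (v : ℤ × ℤ) : List (ℤ × ℤ) → ℤ
  | [] => 0
  | [_] => 0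
  | a :: b :: l => orZ v a b + fanZ v (b :: l)

/-- The point of the plane with coordinates `x / N`, `y / N`. -/
noncomputable def pt (N : ℝ) (a : ℤ × ℤ) : E2 := !₂[(a.1 : ℝ) / N, (a.2 : ℝ) / N]

lemma pt_orient (N : ℝ) (a b c : ℤ × ℤ) :
    orient (pt N a) (pt N b) (pt N c) = (orZ a b c : ℝ) / N ^ 2 := by
  simp only [orient, pt, orZ]
  push_cast
  ring

lemma pt_fan (N : ℝ) (v : ℤ × ℤ) : ∀ l : List (ℤ × ℤ),
    fanSum (pt N v) (l.map (pt N)) = (fanZ v l : ℝ) / N ^ 2
  | [] => by simp [fanSum, fanZ]
  | [_] => by simp [fanSum, fanZ]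
  | a :: b :: l => by
    have := pt_fan N v (b :: l)
    simp only [List.map_cons, fanSum, fanZ] at this ⊢
    rw [this, pt_orient]
    push_cast
    ring

lemma pt_inj (N : ℝ) (hN : N ≠ 0) : Function.Injective (pt N) := by
  intro a b h
  have h0 := congrArg (fun q : E2 => q 0) h
  have h1 := congrArg (fun q : E2 => q 1) h
  simp only [pt] at h0 h1
  simp at h0 h1
  rw [div_left_inj' hN] at h0 h1
  ext
  · exact_mod_cast h0
  · exact_mod_cast h1

/-- The integer certificate: if `v` and the points of `l` belong to `S`, the area of the convex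
hull of `S` is at least the area of the fan. -/
theorem vol_lower (N : ℝ) (hN : 0 < N) (v : ℤ × ℤ) (l : List (ℤ × ℤ))
    (hl : l.Pairwise (fun a b => 0 ≤ orZ v a b)) (hv : v ∉ l) (S : Set E2)
    (hvS : pt N v ∈ S) (hlS : ∀ a ∈ l, pt N a ∈ S) :
    ENNReal.ofReal ((fanZ v l : ℝ) / N ^ 2 / 2) ≤ volume (convexHull ℝ S) := by
  rw [← pt_fan]
  refine (vol_fan (pt N v) (l.map (pt N)) ?_ ?_).trans (measure_mono (convexHull_mono ?_))
  · rw [List.pairwise_map]
    refine hl.imp ?_
    intro a b h
    rw [pt_orient]
    have : (0 : ℝ) ≤ (orZ v a b : ℝ) := by exact_mod_cast h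
    positivity
  · intro a ha
    rw [List.mem_map] at ha
    obtain ⟨b, hb, rfl⟩ := ha
    intro e
    exact hv (pt_inj N hN.ne' e ▸ hb)
  · intro p hp
    simp only [mem_insert_iff, mem_ofPred_eq, List.mem_map] at hp
    rcases hp with rfl | ⟨b, hb, rfl⟩
    · exact hvS
    · exact hlS b hb

end Q149.Fan
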