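import Pool.Agent.Q37.GU.Stm

/-!
# Project GU, job T1: pull-back of germs along a local homeomorphism is bijective
-/

set_option autoImplicit false
set_option linter.all false

open CategoryTheory CategoryTheory.Limits AlgebraicGeometry Topology

namespace Q149.GU_T1

open Pool.Agent.Q37.GU Pool.Agent.W481

theorem t1 : S_T1 := by
  intro T S _ _ f hf x x' hx
  subst hx
  constructor
  · intro g h hgh
    induction g using Filter.Germ.inductionOn with
    | h u =>
      induction h using Filter.Germ.inductionOn with
      | h v =>
        have h1 : (u ∘ f) =ᶠ[𝓝 x] (v ∘ f) := Filter.Germ.coe_eq.1 hgh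
        refine Filter.Germ.coe_eq.2 ?_
        have h2 : ∀ᶠ y in (𝓝 x).map f, u y = v y := Filter.eventually_map.2 h1
        rwa [hf.map_nhds_eq x] at h2
  · intro g
    induction g using Filter.Germ.inductionOn with
    | h w =>
      obtain ⟨e, he, hfe⟩ := hf x
      refine ⟨((w ∘ e.symm : S → ℂ) : Filter.Germ (𝓝 (f x)) ℂ), ?_⟩
      refine Filter.Germ.coe_eq.2 ?_
      filter_upwards [e.open_source.mem_nhds he] with y hy
      show w (e.symm (f y)) = w y
      rw [hfe, e.left_inv hy]

end Q149.GU_T1
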