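import Pool.Agent.Q149.Fan

set_option autoImplicit false

/-!
Integer certificate for fifteen points of the square `[0,30]²`: every six of them span a polygon
of (double) area at least `455`.
-/

namespace Q149.Heil

open Q149.Fan

/-- The points in the order of increasing height, each with the list of the later points in the
angular order around it. -/
def data : List ((ℤ × ℤ) × List (ℤ × ℤ)) :=
  [((3, 0), [(13, 0), (21, 0), (30, 0), (30, 9), (30, 17), (30, 27), (17, 17), (13, 13), (23, 30),
      (14, 30), (4, 30), (0, 26), (0, 16), (0, 7)]),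
   ((13, 0), [(21, 0), (30, 0), (30, 9), (30, 17), (30, 27), (23, 30), (17, 17), (14, 30),
      (13, 13), (4, 30), (0, 26), (0, 16), (0, 7)]),
   ((21, 0), [(30, 0), (30, 9), (30, 17), (30, 27), (23, 30), (14, 30), (17, 17), (4, 30),
      (13, 13), (0, 26), (0, 16), (0, 7)]),
   ((30, 0), [(30, 9), (30, 17), (30, 27), (23, 30), (14, 30), (17, 17), (4, 30), (0, 26),
      (13, 13), (0, 16), (0, 7)]),
   ((0, 7), [(30, 9), (30, 17), (13, 13), (17, 17), (30, 27), (23, 30), (14, 30), (4, 30),
      (0, 16), (0, 26)]),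
   ((30, 9), [(30, 17), (30, 27), (23, 30), (14, 30), (4, 30), (17, 17), (0, 26), (13, 13),
      (0, 16)]),
   ((13, 13), [(30, 17), (30, 27), (17, 17), (23, 30), (14, 30), (4, 30), (0, 26), (0, 16)]),
   ((0, 16), [(30, 17), (17, 17), (30, 27), (23, 30), (14, 30), (4, 30), (0, 26)]),
   ((17, 17), [(30, 17), (30, 27), (23, 30), (14, 30), (4, 30), (0, 26)]),
   ((30, 17), [(30, 27), (23, 30), (14, 30), (4, 30), (0, 26)]),
   ((0, 26), [(30, 27), (23, 30), (14, 30), (4, 30)]),
   ((30, 27), [(23, 30), (14, 30), (4, 30)]),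
   ((4, 30), [(14, 30), (23, 30)]),
   ((14, 30), [(23, 30)]),
   ((23, 30), [])]

/-- Some sublist has fan sum at least `455`. -/
def good (v : ℤ × ℤ) (l : List (ℤ × ℤ)) : Bool :=
  decide (455 ≤ fanZ v l) || l.sublists.any (fun m => decide (455 ≤ fanZ v m))

def okEntry (v : ℤ × ℤ) (R : List (ℤ × ℤ)) : Bool :=
  decide (R.Pairwise (fun a b => 0 ≤ orZ v a b)) && decide (v ∉ R) && decide R.Nodup &&
    (R.sublistsLen 5).all (fun l => good v l)

def chainOk : List ((ℤ × ℤ) × List (ℤ × ℤ)) → Bool
  | [] => true
  | (v, R) :: t => okEntry v R && decide (∀ w ∈ t.map Prod.fst, w ∈ R) && chainOk t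

theorem data_ok : chainOk data = true := by decide +kernel

theorem chain_spec : ∀ (D : List ((ℤ × ℤ) × List (ℤ × ℤ))), chainOk D = true →
    ∀ S : Finset (ℤ × ℤ), (∀ a ∈ S, a ∈ D.map Prod.fst) → S.card = 6 →
    ∃ v ∈ S, ∃ m : List (ℤ × ℤ), (∀ a ∈ m, a ∈ S) ∧ m.Pairwise (fun a b => 0 ≤ orZ v a b) ∧
      v ∉ m ∧ 455 ≤ fanZ v m
  | [], _, S, hS, hc => by
    exfalso
    have : S = ∅ := by
      rw [Finset.eq_empty_iff_forall_notMem]
      intro a ha
      simpa using hS a ha
    rw [this] at hc
    simp at hc
  | (v, R) :: t, h, S, hS, hc => by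
    simp only [chainOk, okEntry, Bool.and_eq_true, decide_eq_true_eq] at h
    obtain ⟨⟨⟨⟨⟨h1, h2⟩, h3⟩, h4⟩, h5⟩, h6⟩ := h
    by_cases hv : v ∈ S
    · set l := R.filter (fun a => decide (a ∈ S)) with hl
      have hsub : l.Sublist R := List.filter_sublist
      have hlS : ∀ a ∈ l, a ∈ S := by
        intro a ha
        rw [hl, List.mem_filter] at ha
        simpa using ha.2
      have hnd : l.Nodup := h3.sublist hsub
      have hlen : l.length = 5 := by
        have e : l.toFinset = S.erase v := by
          ext a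
          rw [List.mem_toFinset, Finset.mem_erase, hl, List.mem_filter]
          constructor
          · rintro ⟨ha, hb⟩
            exact ⟨fun e => h2 (e ▸ ha), by simpa using hb⟩
          · rintro ⟨ha, hb⟩
            refine ⟨?_, by simpa using hb⟩
            have := hS a hb
            rw [List.map_cons, List.mem_cons] at this
            rcases this with rfl | h7
            · exact absurd rfl ha
            · exact h5 a h7
        rw [← List.toFinset_card_of_nodup hnd, e, Finset.card_erase_of_mem hv, hc]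
      have hmem : l ∈ R.sublistsLen 5 := List.mem_sublistsLen.2 ⟨hsub, hlen⟩
      have hg := (List.all_eq_true.1 h4) l hmem
      simp only [good, Bool.or_eq_true, decide_eq_true_eq, List.any_eq_true,
        List.mem_sublists] at hg
      obtain ⟨m, hm, hm2⟩ : ∃ m : List (ℤ × ℤ), m.Sublist l ∧ 455 ≤ fanZ v m := by
        rcases hg with hg | ⟨m, hm, hm2⟩
        · exact ⟨l, List.Sublist.refl _, hg⟩
        · exact ⟨m, hm, hm2⟩
      exact ⟨v, hv, m, fun a ha => hlS a (hm.subset ha), (h1.sublist hsub).sublist hm,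
        fun e => h2 (hsub.subset (hm.subset e)), hm2⟩
    · refine chain_spec t h6 S ?_ hc
      intro a ha
      have := hS a ha
      rw [List.map_cons, List.mem_cons] at this
      rcases this with rfl | h7
      · exact absurd ha hv
      · exact h7

end Q149.Heil
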