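import Mathlib

/-!
Norm forms of the cubic orders `ℤ[t]`, `t³ - p t² + Q t - 1 = 0`, and a geometry of numbers lemma.
-/

namespace Pool.Agent.Q149.Hess

/-- the norm of `x + y t + z t²`, where `t³ - p t² + Q t - 1 = 0` -/
def Nf (p Q x y z : ℤ) : ℤ :=
  x^3 + x^2*y*p + x*y^2*Q + y^3 + x^2*z*(p^2-2*Q) + x*z^2*(Q^2-2*p) + x*y*z*(p*Q-3)
    + y^2*z*p + y*z^2*Q + z^3

lemma Nf_symm (p Q x y z : ℤ) : Nf p Q x y z = Nf Q p z y x := by
  unfold Nf; ring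

lemma Nf_neg (p Q x y z : ℤ) : Nf p Q (-x) (-y) (-z) = - Nf p Q x y z := by
  unfold Nf; ring

/-- multiplication by `t` -/
lemma Nf_t (p Q x y z : ℤ) : Nf p Q z (x - Q*z) (y + p*z) = Nf p Q x y z := by
  unfold Nf; ring

/-- multiplication by `t⁻¹ = t² - p t + Q` -/
lemma Nf_tinv (p Q x y z : ℤ) : Nf p Q (y + Q*x) (z - p*x) x = Nf p Q x y z := by
  unfold Nf; ring

/-- The real data: `τ` the real root, `a ± i √B` the other roots. -/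
structure Data (p Q : ℤ) (τ a B : ℝ) : Prop where
  hp : (p:ℝ) = τ + 2*a
  hQ : (Q:ℝ) = 2*τ*a + a^2 + B
  h1 : τ * (a^2 + B) = 1
  hB : 0 < B

lemma Data.τpos {p Q : ℤ} {τ a B : ℝ} (h : Data p Q τ a B) : 0 < τ := by
  have h1 := h.h1
  have hB := h.hB
  by_contra hc
  have hc : τ ≤ 0 := not_lt.mp hc
  nlinarith [mul_nonneg (neg_nonneg.mpr hc) (by positivity : (0:ℝ) ≤ a^2+B)]

lemma Data.symm {p Q : ℤ} {τ a B : ℝ} (h : Data p Q τ a B) :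
    Data Q p τ⁻¹ (a*τ) (B*τ^2) := by
  have hτ := h.τpos
  have h1 := h.h1
  have hinv : τ⁻¹ = a^2 + B := by
    field_simp
    linarith
  refine ⟨?_, ?_, ?_, ?_⟩
  · rw [hinv, h.hQ]; ring
  · rw [h.hp, hinv]
    linear_combination (-(2:ℝ)*a - τ) * h1
  · rw [hinv]
    linear_combination (τ*(a^2+B) + 1) * h1
  · have := h.hB
    positivity

lemma Data.norm {p Q : ℤ} {τ a B : ℝ} (h : Data p Q τ a B) (x y z : ℤ) :
    ((Nf p Q x y z : ℤ) : ℝ) = (x + y*τ + z*τ^2) *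
      ((x + y*a + z*(a^2-B))^2 + B*(y+2*a*z)^2) := by
  unfold Nf
  push_cast
  rw [h.hp, h.hQ]
  have h1 := h.h1
  linear_combination (-(y^3 - 3*x*y*z + y^2*z*(τ+2*a) + y*z^2*(2*τ*a + a^2 + B) - 2*x*z^2*(τ+2*a)
    : ℝ) - z^3*(1 + τ*(a^2+B))) * h1

lemma Data.disc {p Q : ℤ} {τ a B : ℝ} (h : Data p Q τ a B) :
    ((4*Q^3 + 4*p^3 + 27 - p^2*Q^2 - 18*p*Q : ℤ) : ℝ) = 4*B*((τ-a)^2+B)^2 := by
  push_cast
  rw [h.hp, h.hQ]
  have h1 := h.h1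
  linear_combination (-4*(τ+2*a)^3 + 18*(τ+2*a)*(2*τ*a + a^2 + B)
    - 27*(1 + τ*(a^2+B)) : ℝ) * h1

lemma aux_case {H B R L U : ℝ} (hB : 0 < B) (hRpos : 0 < R) (hL0 : 0 < L) (hL : L < H) (hU : H ≤ U)
    (H2 : 2 < 4/9*L*B*R) (H3 : U < R) (H4 : 6 < B*(R-U)^2) (hmain : H*B*(R-H)^2 ≤ 2*R) : False := by
  have hHpos : 0 < H := lt_trans hL0 hL
  rcases le_or_gt H (R/3) with hc | hc
  · have h7 : (2/3*R)^2 ≤ (R-H)^2 := by
      have h8 : 2/3*R ≤ R - H := by linarith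
      have h9 : 0 ≤ 2/3*R := by positivity
      exact pow_le_pow_left₀ h9 h8 2
    have h10 : L*B*(2/3*R)^2 ≤ H*B*(R-H)^2 := by
      have : L*B ≤ H*B := mul_le_mul_of_nonneg_right hL.le hB.le
      calc L*B*(2/3*R)^2 ≤ H*B*(2/3*R)^2 := mul_le_mul_of_nonneg_right this (by positivity)
        _ ≤ H*B*(R-H)^2 := mul_le_mul_of_nonneg_left h7 (by positivity)
    have h12 : 2*R < L*B*(2/3*R)^2 := by
      have := mul_lt_mul_of_pos_right H2 hRpos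
      calc 2*R < 4/9*L*B*R*R := this
        _ = L*B*(2/3*R)^2 := by ring
    linarith
  · have h13 : (R-U)^2 ≤ (R-H)^2 := by
      have h14 : R - U ≤ R - H := by linarith
      have h15 : 0 ≤ R - U := by linarith
      exact pow_le_pow_left₀ h15 h14 2
    have h16 : R/3*(B*(R-U)^2) ≤ H*B*(R-H)^2 := by
      have h17 : 0 ≤ B*(R-U)^2 := by positivity
      calc R/3*(B*(R-U)^2) ≤ H*(B*(R-U)^2) := mul_le_mul_of_nonneg_right hc.le h17
        _ ≤ H*(B*(R-H)^2) := mul_le_mul_of_nonneg_left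
            (mul_le_mul_of_nonneg_left h13 hB.le) hHpos.le
        _ = H*B*(R-H)^2 := by ring
    have h18 : 2*R < R/3*(B*(R-U)^2) := by
      have := mul_lt_mul_of_pos_left H4 (by positivity : 0 < R/3)
      linarith
    linarith

lemma aux_z {η z E H B R L U : ℝ} (hB : 0 < B) (hRpos : 0 < R) (hL0 : 0 < L) (hH : H = |η|)
    (hL : L < H) (hU : H ≤ U)
    (H2 : 2 < 4/9*L*B*R) (H3 : U < R) (H4 : 6 < B*(R-U)^2)
    (hE : H * E = 2) (hCS : B * (η - z*R)^2 ≤ E * R) (hz1 : 1 ≤ |z|) : False := by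
  have hHpos : 0 < H := lt_trans hL0 hL
  have hHR : H < R := lt_of_le_of_lt hU H3
  have habs : R - H ≤ |η - z*R| := by
    have h3 : |z*R| ≤ |η - z*R| + |η| := by
      have := abs_sub_abs_le_abs_sub (z*R) η
      rw [abs_sub_comm] at this
      linarith
    rw [abs_mul, abs_of_pos hRpos] at h3
    have h4 : 1 * R ≤ |z| * R := mul_le_mul_of_nonneg_right hz1 hRpos.le
    rw [hH]
    linarith
  have hsq : (R-H)^2 ≤ (η - z*R)^2 := by
    have h4 : 0 ≤ R - H := by linarith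
    have := pow_le_pow_left₀ h4 habs 2
    rwa [sq_abs] at this
  have hmain : H*B*(R-H)^2 ≤ 2*R := by
    have h5 : B*(R-H)^2 ≤ E * R := le_trans (mul_le_mul_of_nonneg_left hsq hB.le) hCS
    have h6 := mul_le_mul_of_nonneg_left h5 hHpos.le
    calc H*B*(R-H)^2 = H*(B*(R-H)^2) := by ring
      _ ≤ H*(E * R) := h6
      _ = (H*E) * R := by ring
      _ = 2*R := by rw [hE]
  exact aux_case hB hRpos hL0 hL hU H2 H3 H4 hmain

lemma cube_ne_two (x : ℤ) (hx : x^3 = 2 ∨ x^3 = -2) : False := by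
  have h1 : x < 2 := by
    by_contra h
    have h : 2 ≤ x := not_lt.mp h
    have : (2:ℤ)^3 ≤ x^3 := pow_le_pow_left₀ (by norm_num) h 3
    omega
  have h2 : -2 < x := by
    by_contra h
    have h : 2 ≤ -x := by omega
    have h3 : (2:ℤ)^3 ≤ (-x)^3 := pow_le_pow_left₀ (by norm_num) h 3
    have h4 : (-x)^3 = -(x^3) := by ring
    omega
  have h3 : x = -1 ∨ x = 0 ∨ x = 1 := by omega
  rcases h3 with rfl | rfl | rfl <;> norm_num at hx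

/-- The geometry of numbers step. -/
lemma core {p Q : ℤ} {τ a B : ℝ} (h : Data p Q τ a B) (x y z : ℤ)
    (hN : Nf p Q x y z = 2 ∨ Nf p Q x y z = -2) (L U : ℝ) (hL0 : 0 < L)
    (hL : L < |(x:ℝ) + y*τ + z*τ^2|) (hU : |(x:ℝ) + y*τ + z*τ^2| ≤ U)
    (H1 : 1/2 ≤ L*B) (H2 : 2 < 4/9*L*B*((τ-a)^2+B))
    (H3 : U < (τ-a)^2+B) (H4 : 6 < B*((τ-a)^2+B-U)^2) :
    z = 0 ∧ (y = 1 ∨ y = -1) := by
  have hB := h.hB
  have hHpos : 0 < |(x:ℝ) + y*τ + z*τ^2| := lt_trans hL0 hL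
  have hE : |(x:ℝ) + y*τ + z*τ^2| * ((x + y*a + z*(a^2-B))^2 + B*(y+2*a*z)^2) = 2 := by
    have hn := h.norm x y z
    have hE0 : 0 ≤ (x + y*a + z*(a^2-B))^2 + B*(y+2*a*z)^2 := by positivity
    have habs : |((Nf p Q x y z : ℤ) : ℝ)| = 2 := by
      rcases hN with h2 | h2 <;> rw [h2] <;> norm_num
    rw [hn, abs_mul, abs_of_nonneg hE0] at habs
    exact habs
  have hRpos : 0 < (τ-a)^2+B := by positivity
  -- `B (η - z R)² ≤ E R`
  have hCS : B * (((x:ℝ) + y*τ + z*τ^2) - z*((τ-a)^2+B))^2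
      ≤ ((x + y*a + z*(a^2-B))^2 + B*(y+2*a*z)^2) * ((τ-a)^2+B) := by
    have e1 : ((x:ℝ) + y*τ + z*τ^2) - z*((τ-a)^2+B)
        = (x + y*a + z*(a^2-B)) + (y+2*a*z)*(τ-a) := by ring
    rw [e1]
    have := sq_nonneg ((x + y*a + z*(a^2-B))*(τ-a) - B*(y+2*a*z))
    linarith [this]
  have hz : z = 0 := by
    by_contra hz
    have hz1 : (1:ℝ) ≤ |(z:ℝ)| := by
      have : 1 ≤ |z| := Int.one_le_abs hz
      exact_mod_cast this
    exact aux_z hB hRpos hL0 rfl hL hU H2 H3 H4 hE hCS hz1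
  subst hz
  refine ⟨rfl, ?_⟩
  -- y ≠ 0
  have hy0 : y ≠ 0 := by
    rintro rfl
    have : Nf p Q x 0 0 = x^3 := by unfold Nf; ring
    rw [this] at hN
    exact cube_ne_two x hN
  have hyp : 0 < B*(y:ℝ)^2 := by
    have : (y:ℝ) ≠ 0 := by exact_mod_cast hy0
    positivity
  have hy2 : (y:ℝ)^2 < 4 := by
    have h19 : B*(y:ℝ)^2 ≤ (x + y*a + ((0:ℤ):ℝ)*(a^2-B))^2 + B*(y+2*a*((0:ℤ):ℝ))^2 := by
      push_cast
      have : 0 ≤ ((x:ℝ) + y*a + 0*(a^2-B))^2 := sq_nonneg _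
      have e : (y + 2*a*(0:ℝ)) = y := by ring
      rw [e]
      linarith
    have h20 : |(x:ℝ) + y*τ + ((0:ℤ):ℝ)*τ^2| * (B*(y:ℝ)^2) ≤ 2 := by
      rw [← hE]
      exact mul_le_mul_of_nonneg_left h19 hHpos.le
    have h21 : L*(B*(y:ℝ)^2) < 2 := lt_of_lt_of_le (mul_lt_mul_of_pos_right hL hyp) h20
    have h22 : 1/2*(y:ℝ)^2 ≤ L*B*(y:ℝ)^2 := mul_le_mul_of_nonneg_right H1 (sq_nonneg _)
    have h23 : L*B*(y:ℝ)^2 = L*(B*(y:ℝ)^2) := by ring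
    linarith
  have hy3 : y^2 < 4 := by exact_mod_cast hy2
  have h22 : y < 2 := by nlinarith
  have h23 : -2 < y := by nlinarith
  omega

end Pool.Agent.Q149.Hess
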