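import Mathlib
import Pool.Agent.Q149.HessA

/-!
The elements of norm `± 2` of the orders `ℤ[t]`, `t³ - p t² + Q t - 1 = 0`.
-/

namespace Pool.Agent.Q149.Hess

lemma normalise {α : Type*} (S : α → Prop) (val : α → ℝ) (φ ψ : α → α) (g : ℝ) (hg : 1 < g)
    (hφ : ∀ v, S v → S (φ v)) (hψ : ∀ v, S v → S (ψ v))
    (vφ : ∀ v, val (φ v) = g * val v) (vψ : ∀ v, val (ψ v) = g⁻¹ * val v)
    (L : ℝ) (hL : 0 < L) (v : α) (hv : S v) (h0 : val v ≠ 0) :
    ∃ v', S v' ∧ L < |val v'| ∧ |val v'| ≤ L * g := by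
  have g0 : 0 < g := by linarith
  have hpow : ∀ (n : ℕ) (v : α), S v → ∃ v', S v' ∧ val v' = g^n * val v := by
    intro n
    induction n with
    | zero => intro v hv; exact ⟨v, hv, by simp⟩
    | succ n ih =>
      intro v hv
      obtain ⟨v', h1, h2⟩ := ih v hv
      exact ⟨φ v', hφ _ h1, by rw [vφ, h2]; ring⟩
  have hpow' : ∀ (n : ℕ) (v : α), S v → ∃ v', S v' ∧ val v' = (g⁻¹)^n * val v := by
    intro n
    induction n with
    | zero => intro v hv; exact ⟨v, hv, by simp⟩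
    | succ n ih =>
      intro v hv
      obtain ⟨v', h1, h2⟩ := ih v hv
      exact ⟨ψ v', hψ _ h1, by rw [vψ, h2]; ring⟩
  have hz : ∀ n : ℤ, ∃ v', S v' ∧ val v' = g^n * val v := by
    intro n
    obtain ⟨m, rfl | rfl⟩ := n.eq_nat_or_neg
    · obtain ⟨v', h1, h2⟩ := hpow m v hv
      exact ⟨v', h1, by rw [h2, zpow_natCast]⟩
    · obtain ⟨v', h1, h2⟩ := hpow' m v hv
      exact ⟨v', h1, by rw [h2, zpow_neg, zpow_natCast, inv_pow]⟩
  have hx : 0 < |val v| / L := div_pos (abs_pos.mpr h0) hL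
  obtain ⟨n, hn1, hn2⟩ := exists_mem_Ioc_zpow hx hg
  obtain ⟨v', h1, h2⟩ := hz (-n)
  refine ⟨v', h1, ?_, ?_⟩
  · rw [h2, abs_mul, abs_of_pos (zpow_pos g0 _), zpow_neg]
    have h3 : g^n * L < |val v| := by
      rwa [lt_div_iff₀ hL] at hn1
    have h4 := zpow_pos g0 n
    rw [inv_mul_eq_div, lt_div_iff₀ h4]
    linarith
  · rw [h2, abs_mul, abs_of_pos (zpow_pos g0 _), zpow_neg]
    have h3 : |val v| ≤ g^(n+1) * L := by
      rwa [div_le_iff₀ hL] at hn2
    have h4 := zpow_pos g0 n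
    rw [inv_mul_eq_div, div_le_iff₀ h4]
    rw [zpow_add_one₀ g0.ne'] at h3
    linarith

/-- the last step -/
lemma final_list {s k x y : ℤ} (hk : 0 ≤ k) (hred : 1 < (s+1)^2 + k)
    (hD : 0 < 4*k*(s^2+k)^2+4*s^3+36*s*k+27)
    (hN : Nf (-2*s) (s^2+k) x y 0 = 2 ∨ Nf (-2*s) (s^2+k) x y 0 = -2) (hy : y = 1 ∨ y = -1) :
    (s = 2 ∧ k = 0) ∨ (s = -3 ∧ k = 1) ∨ (s = 1 ∧ k = 1) ∨ (s = -1 ∧ k = 3) ∨ (s = 0 ∧ k = 2)
      ∨ (s = -2 ∧ k = 2) := by
  -- reduce to y = 1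
  obtain ⟨w, hw⟩ : ∃ w : ℤ, w * ((w - s)^2 + k) = 1 ∨ w * ((w-s)^2 + k) = -3 := by
    rcases hy with rfl | rfl
    · refine ⟨x, ?_⟩
      have e : Nf (-2*s) (s^2+k) x 1 0 = x * ((x-s)^2 + k) + 1 := by unfold Nf; ring
      rw [e] at hN
      rcases hN with h | h
      · left; linarith
      · right; linarith
    · refine ⟨-x, ?_⟩
      have e : Nf (-2*s) (s^2+k) x (-1) 0 = -((-x) * ((-x-s)^2 + k) + 1) := by unfold Nf; ring
      rw [e] at hN
      rcases hN with h | h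
      · right; linarith
      · left; linarith
  have hc : 0 ≤ (w-s)^2 + k := by positivity
  rcases hw with hw | hw
  · -- w = 1
    have h1 : w = 1 := by
      have hd : w ∣ 1 := ⟨_, hw.symm⟩
      rcases Int.isUnit_iff.mp (isUnit_of_dvd_one hd) with h | h
      · exact h
      · rw [h] at hw; nlinarith
    rw [h1] at hw
    have h2 : (1-s)^2 + k = 1 := by linarith
    have h3 : s ≤ 2 := by nlinarith
    have h4 : 0 ≤ s := by nlinarith
    have h5 : s = 0 ∨ s = 1 ∨ s = 2 := by omega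
    rcases h5 with rfl | rfl | rfl
    · norm_num at h2 hred; omega
    · norm_num at h2; right; right; left; exact ⟨rfl, h2⟩
    · norm_num at h2; left; exact ⟨rfl, by omega⟩
  · have hd : w ∣ 3 := ⟨-((w-s)^2+k), by linarith⟩
    have hle : w ≤ 3 := Int.le_of_dvd (by norm_num) hd
    have hge : -3 ≤ w := by
      have : -w ∣ 3 := (neg_dvd).mpr hd
      have := Int.le_of_dvd (by norm_num) this
      linarith
    have hneg : w < 0 := by
      by_contra h
      have h : 0 ≤ w := not_lt.mp h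
      have := mul_nonneg h hc
      linarith
    have h5 : w = -1 ∨ w = -2 ∨ w = -3 := by omega
    rcases h5 with rfl | rfl | rfl
    · have h2 : (s+1)^2 + k = 3 := by linarith
      have h3 : s ≤ 0 := by nlinarith
      have h4 : -2 ≤ s := by nlinarith
      have h5 : s = 0 ∨ s = -1 ∨ s = -2 := by omega
      rcases h5 with rfl | rfl | rfl
      · norm_num at h2; right; right; right; right; left; exact ⟨rfl, by omega⟩
      · norm_num at h2; right; right; right; left; exact ⟨rfl, by omega⟩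
      · norm_num at h2; right; right; right; right; right; exact ⟨rfl, by omega⟩
    · omega
    · have h2 : (s+3)^2 + k = 1 := by linarith
      have h3 : s ≤ -2 := by nlinarith
      have h4 : -4 ≤ s := by nlinarith
      have h5 : s = -2 ∨ s = -3 ∨ s = -4 := by omega
      rcases h5 with rfl | rfl | rfl
      · norm_num at h2 hred; omega
      · norm_num at h2; right; left; exact ⟨rfl, h2⟩
      · norm_num at h2 hred
        -- s = -4, k = 0
        exfalso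
        have h0 : k = 0 := by omega
        rw [h0] at hD
        norm_num at hD


lemma k_nonneg {s k : ℤ} (hD : 0 < 4*k*(s^2+k)^2+4*s^3+36*s*k+27) (hlt : -2*s+2 ≤ s^2+k) :
    0 ≤ k := by
  by_contra hk
  have hk : k ≤ -1 := by omega
  obtain ⟨Q, hQ⟩ : ∃ Q, Q = s^2 + k := ⟨_, rfl⟩
  obtain ⟨K, hK⟩ : ∃ K, K = -k := ⟨_, rfl⟩
  have hK1 : 1 ≤ K := by omega
  have hk' : k = -K := by omega
  rw [← hQ, hk'] at hD
  rw [← hQ] at hlt
  have hQK : s^2 = Q + K := by rw [hQ, hk']; ring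
  rcases lt_trichotomy s 0 with hs | hs | hs
  · obtain ⟨r, hr⟩ : ∃ r, r = -s := ⟨_, rfl⟩
    have hr1 : 1 ≤ r := by omega
    have hs' : s = -r := by omega
    rw [hs'] at hD hlt
    have h1 : 2*r+2 ≤ Q := by linarith
    have h2 : (2*r+2)^2 ≤ Q^2 := pow_le_pow_left₀ (by linarith) h1 2
    have h3 : K*(2*r+2)^2 ≤ K*Q^2 := mul_le_mul_of_nonneg_left h2 (by linarith)
    have h4 : 0 ≤ (K-1)*(16*r^2 - 4*r + 16) := mul_nonneg (by linarith) (by nlinarith)
    have h5 : 1 ≤ r^3 := one_le_pow₀ hr1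
    nlinarith
  · rw [hs] at hD hlt hQK
    have : Q = -K := by linarith
    linarith
  · have hs1 : 1 ≤ s := hs
    have hs3 : s^3 = s*Q + s*K := by
      calc s^3 = s*s^2 := by ring
        _ = s*Q + s*K := by rw [hQK]; ring
    rw [hs3] at hD
    -- 0 < -4KQ² + 4sQ + 4sK - 36 s K + 27
    have hD' : 0 < -4*K*Q^2 + 4*(s*Q) - 32*(s*K) + 27 := by linarith
    have hsK : 1 ≤ s*K := one_le_mul_of_one_le_of_one_le hs1 hK1
    rcases le_or_gt Q 0 with hq | hq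
    · have h1 : s*Q ≤ 0 := mul_nonpos_of_nonneg_of_nonpos (by linarith) hq
      have h2 : 0 ≤ K*Q^2 := by positivity
      nlinarith
    · rcases le_or_gt s Q with hq2 | hq2
      · have h1 : s*Q ≤ Q*Q := mul_le_mul_of_nonneg_right hq2 (by linarith)
        have h2 : 1*Q^2 ≤ K*Q^2 := mul_le_mul_of_nonneg_right hK1 (by positivity)
        nlinarith
      · -- Q < s, K = s² - Q
        have hKs : K = s^2 - Q := by linarith
        have h1 : 0 ≤ K*Q^2 := by positivity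
        have h2 : s*Q ≤ s*s := mul_le_mul_of_nonneg_left hq2.le (by linarith)
        have hs2 : 2 ≤ s := by linarith
        have h3 : s^2 - s + 1 ≤ K := by rw [hKs]; linarith
        have h4 : s*(s^2-s+1) ≤ s*K := mul_le_mul_of_nonneg_left h3 (by linarith)
        nlinarith

lemma gen {B R T θ b0 c T0 : ℝ} (hb0 : 0 < b0) (hθ : 0 < θ) (hθ1 : θ < 1) (hB : b0 ≤ B)
    (hT : T0 ≤ T) (hR : T - 2*c ≤ R) (g1 : 1/2 ≤ θ*b0) (g2 : 2 < 4/9*θ*b0*(T0-2*c))
    (g3 : 0 < (1-θ)*T0-2*c) (g4 : 6 < b0*((1-θ)*T0-2*c)^2) :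
    1/2 ≤ θ*B ∧ 2 < 4/9*θ*B*R ∧ θ*T < R ∧ 6 < B*(R-θ*T)^2 := by
  have h1 : (1-θ)*T0 ≤ (1-θ)*T := mul_le_mul_of_nonneg_left hT (by linarith)
  have h2 : (1-θ)*T0 - 2*c ≤ R - θ*T := by linarith
  have hB0 : 0 < B := lt_of_lt_of_le hb0 hB
  refine ⟨le_trans g1 (mul_le_mul_of_nonneg_left hB hθ.le), ?_, by linarith, ?_⟩
  · have h3 : 0 < T0 - 2*c := by
      by_contra h
      have h : T0 - 2*c ≤ 0 := not_lt.mp h
      have : 4/9*θ*b0*(T0-2*c) ≤ 0 := mul_nonpos_of_nonneg_of_nonpos (by positivity) h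
      linarith
    calc (2:ℝ) < 4/9*θ*b0*(T0-2*c) := g2
      _ ≤ 4/9*θ*B*(T0-2*c) := by
        apply mul_le_mul_of_nonneg_right _ h3.le
        apply mul_le_mul_of_nonneg_left hB (by positivity)
      _ ≤ 4/9*θ*B*R := by
        apply mul_le_mul_of_nonneg_left _ (by positivity)
        linarith
  · calc (6:ℝ) < b0*((1-θ)*T0-2*c)^2 := g4
      _ ≤ B*((1-θ)*T0-2*c)^2 := mul_le_mul_of_nonneg_right hB (by positivity)
      _ ≤ B*(R-θ*T)^2 := by
        apply mul_le_mul_of_nonneg_left _ hB0.le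
        exact pow_le_pow_left₀ g3.le h2 2

/-- The conditions of `core` for `k ≥ 1`. -/
lemma cond_pos {s k : ℤ} {τ : ℝ} (hτ : 0 < τ) (h1 : τ*((s+τ)^2+k) = 1) (hk : 1 ≤ k)
    (hpar : Even (s+k)) (e0 : 1 < (s+1)^2 + k) (e1 : ¬ (s = -3 ∧ k = 1)) (e2 : ¬ (s = 1 ∧ k = 1))
    (e3 : ¬ (s = -1 ∧ k = 3)) (e4 : ¬ (s = 0 ∧ k = 2)) (e5 : ¬ (s = -2 ∧ k = 2)) :
    ∃ θ : ℝ, 0 < θ ∧ 1 < (s+τ)^2+k ∧ (1/2 ≤ θ*(k+(s+τ)*τ-τ^2/4)) ∧
      (2 < 4/9*θ*(k+(s+τ)*τ-τ^2/4)*((s+τ)^2+k+2*(s+τ)*τ)) ∧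
      θ*((s+τ)^2+k) < (s+τ)^2+k+2*(s+τ)*τ ∧
      6 < (k+(s+τ)*τ-τ^2/4)*((s+τ)^2+k+2*(s+τ)*τ-θ*((s+τ)^2+k))^2 := by
  have hkR : (1:ℝ) ≤ k := by exact_mod_cast hk
  obtain ⟨T, hT⟩ : ∃ T : ℝ, T = (s+τ)^2+k := ⟨_, rfl⟩
  rw [← hT] at h1 ⊢
  have hTk : (k:ℝ) ≤ T := by rw [hT]; nlinarith [sq_nonneg ((s:ℝ)+τ)]
  have hT1 : (1:ℝ) ≤ T := by linarith
  have hτ1 : τ ≤ 1 := by nlinarith
  have hpar' := hpar
  rw [Int.even_iff] at hpar'
  rcases le_or_gt 0 s with hs | hs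
  · -- s ≥ 0
    have hsR : (0:ℝ) ≤ s := by exact_mod_cast hs
    have hB : (k:ℝ) ≤ k+(s+τ)*τ-τ^2/4 := by nlinarith [mul_nonneg hsR hτ.le]
    have hR : T - 2*0 ≤ T+2*(s+τ)*τ := by nlinarith [mul_nonneg hsR hτ.le]
    have hTs : (s:ℝ)^2 + k ≤ T := by rw [hT]; nlinarith [mul_nonneg hsR hτ.le]
    have hcase : (k = 1 ∧ 3 ≤ s) ∨ (k = 2 ∧ 2 ≤ s) ∨ (k = 3 ∧ 1 ≤ s) ∨ 4 ≤ k := by omega
    rcases hcase with ⟨rfl, h3⟩ | ⟨rfl, h3⟩ | ⟨rfl, h3⟩ | h3
    · have h3R : (3:ℝ) ≤ s := by exact_mod_cast h3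
      have hT0 : (10:ℝ) ≤ T := by push_cast at hTs; nlinarith
      obtain ⟨a1, a2, a3, a4⟩ := gen (θ := 5/8) (b0 := 1) (c := 0) (T0 := 10) (by norm_num)
        (by norm_num) (by norm_num) (le_trans (by norm_num) hB) hT0 hR (by norm_num) (by norm_num)
        (by norm_num) (by norm_num)
      exact ⟨5/8, by norm_num, by linarith, a1, a2, a3, a4⟩
    · have h3R : (2:ℝ) ≤ s := by exact_mod_cast h3
      have hT0 : (6:ℝ) ≤ T := by push_cast at hTs; nlinarith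
      obtain ⟨a1, a2, a3, a4⟩ := gen (θ := 5/8) (b0 := 2) (c := 0) (T0 := 6) (by norm_num)
        (by norm_num) (by norm_num) (le_trans (by norm_num) hB) hT0 hR (by norm_num) (by norm_num)
        (by norm_num) (by norm_num)
      exact ⟨5/8, by norm_num, by linarith, a1, a2, a3, a4⟩
    · have h3R : (1:ℝ) ≤ s := by exact_mod_cast h3
      have hT0 : (4:ℝ) ≤ T := by push_cast at hTs; nlinarith
      obtain ⟨a1, a2, a3, a4⟩ := gen (θ := 5/8) (b0 := 3) (c := 0) (T0 := 4) (by norm_num)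
        (by norm_num) (by norm_num) (le_trans (by norm_num) hB) hT0 hR (by norm_num) (by norm_num)
        (by norm_num) (by norm_num)
      exact ⟨5/8, by norm_num, by linarith, a1, a2, a3, a4⟩
    · have h3R : (4:ℝ) ≤ k := by exact_mod_cast h3
      have hT0 : (4:ℝ) ≤ T := by linarith
      obtain ⟨a1, a2, a3, a4⟩ := gen (θ := 5/8) (b0 := 4) (c := 0) (T0 := 4) (by norm_num)
        (by norm_num) (by norm_num) (le_trans h3R hB) hT0 hR (by norm_num) (by norm_num)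
        (by norm_num) (by norm_num)
      exact ⟨5/8, by norm_num, by linarith, a1, a2, a3, a4⟩
  · -- s < 0
    obtain ⟨q, hq⟩ : ∃ q : ℝ, q = -(s+τ) := ⟨_, rfl⟩
    have hTq : T = q^2 + k := by rw [hT, hq]; ring
    have hst : (s:ℝ)+τ = -q := by rw [hq]; ring
    rw [hst]
    have hs1 : (s:ℝ) ≤ -1 := by exact_mod_cast (by omega : s ≤ -1)
    have hq0 : 0 ≤ q := by rw [hq]; linarith
    have hcase : (k = 1 ∧ s ≤ -5) ∨ (k = 2 ∧ s ≤ -4) ∨ (k = 3 ∧ s ≤ -3) ∨ (k = 4 ∧ s ≤ -2)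
        ∨ 5 ≤ k := by
      by_contra hcon
      push Not at hcon
      obtain ⟨c1, c2, c3, c4, c5⟩ := hcon
      have : k = 1 ∨ k = 2 ∨ k = 3 ∨ k = 4 := by omega
      rcases this with rfl | rfl | rfl | rfl
      · have := c1 rfl
        have : s = -1 ∨ s = -3 := by omega
        rcases this with rfl | rfl
        · norm_num at e0
        · exact e1 ⟨rfl, rfl⟩
      · have := c2 rfl
        have : s = -2 := by omega
        exact e5 ⟨this, rfl⟩
      · have := c3 rfl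
        have : s = -1 := by omega
        exact e3 ⟨this, rfl⟩
      · have := c4 rfl
        omega
    -- general facts
    have key : ∀ c T0 : ℝ, T0 ≤ T → 0 < T0 → q ≤ c*T → q*τ ≤ c ∧ τ^2/4 ≤ 1/(4*T0^2) := by
      intro c T0 h2 h3 h4
      constructor
      · calc q*τ ≤ c*T*τ := mul_le_mul_of_nonneg_right h4 hτ.le
          _ = c*(τ*T) := by ring
          _ = c := by rw [h1, mul_one]
      · have h5 : τ ≤ 1/T0 := by
          rw [le_div_iff₀ h3]
          calc τ*T0 ≤ τ*T := mul_le_mul_of_nonneg_left h2 hτ.le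
            _ = 1 := h1
        have h6 : τ^2 ≤ (1/T0)^2 := pow_le_pow_left₀ hτ.le h5 2
        calc τ^2/4 ≤ (1/T0)^2/4 := by linarith
          _ = 1/(4*T0^2) := by field_simp
    rcases hcase with ⟨rfl, h3⟩ | ⟨rfl, h3⟩ | ⟨rfl, h3⟩ | ⟨rfl, h3⟩ | h3
    · have h3R : (s:ℝ) ≤ -5 := by exact_mod_cast h3
      have hq4 : 4 ≤ q := by rw [hq]; linarith
      have hT0 : (17:ℝ) ≤ T := by rw [hTq]; push_cast; nlinarith
      obtain ⟨k1, k2⟩ := key (4/17) 17 hT0 (by norm_num) (by rw [hTq]; push_cast; nlinarith)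
      obtain ⟨a1, a2, a3, a4⟩ := gen (θ := 2/3) (b0 := 0.76) (c := 4/17) (T0 := 17)
        (B := ((1:ℤ):ℝ) + -q*τ - τ^2/4) (R := T + 2 * -q*τ) (by norm_num)
        (by norm_num) (by norm_num) (by norm_num at k2 ⊢; linarith) hT0 (by linarith)
        (by norm_num) (by norm_num)
        (by norm_num) (by norm_num)
      exact ⟨2/3, by norm_num, by linarith, a1, a2, a3, a4⟩
    · have h3R : (s:ℝ) ≤ -4 := by exact_mod_cast h3
      have hq4 : 3 ≤ q := by rw [hq]; linarith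
      have hT0 : (11:ℝ) ≤ T := by rw [hTq]; push_cast; nlinarith
      obtain ⟨k1, k2⟩ := key (3/11) 11 hT0 (by norm_num) (by rw [hTq]; push_cast; nlinarith)
      obtain ⟨a1, a2, a3, a4⟩ := gen (θ := 5/8) (b0 := 1.7) (c := 3/11) (T0 := 11)
        (B := ((2:ℤ):ℝ) + -q*τ - τ^2/4) (R := T + 2 * -q*τ) (by norm_num)
        (by norm_num) (by norm_num) (by norm_num at k2 ⊢; linarith) hT0 (by linarith)
        (by norm_num) (by norm_num)
        (by norm_num) (by norm_num)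
      exact ⟨5/8, by norm_num, by linarith, a1, a2, a3, a4⟩
    · have h3R : (s:ℝ) ≤ -3 := by exact_mod_cast h3
      have hq4 : 2 ≤ q := by rw [hq]; linarith
      have hT0 : (7:ℝ) ≤ T := by rw [hTq]; push_cast; nlinarith
      obtain ⟨k1, k2⟩ := key (2/7) 7 hT0 (by norm_num) (by rw [hTq]; push_cast; nlinarith)
      obtain ⟨a1, a2, a3, a4⟩ := gen (θ := 5/8) (b0 := 2.7) (c := 2/7) (T0 := 7)
        (B := ((3:ℤ):ℝ) + -q*τ - τ^2/4) (R := T + 2 * -q*τ) (by norm_num)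
        (by norm_num) (by norm_num) (by norm_num at k2 ⊢; linarith) hT0 (by linarith)
        (by norm_num) (by norm_num)
        (by norm_num) (by norm_num)
      exact ⟨5/8, by norm_num, by linarith, a1, a2, a3, a4⟩
    · have h3R : (s:ℝ) ≤ -2 := by exact_mod_cast h3
      have hq4 : 1 ≤ q := by rw [hq]; linarith
      have hT0 : (5:ℝ) ≤ T := by rw [hTq]; push_cast; nlinarith
      obtain ⟨k1, k2⟩ := key (1/4) 5 hT0 (by norm_num)
        (by rw [hTq]; push_cast; nlinarith [sq_nonneg (q-2)])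
      obtain ⟨a1, a2, a3, a4⟩ := gen (θ := 5/8) (b0 := 3.7) (c := 1/4) (T0 := 5)
        (B := ((4:ℤ):ℝ) + -q*τ - τ^2/4) (R := T + 2 * -q*τ) (by norm_num)
        (by norm_num) (by norm_num) (by norm_num at k2 ⊢; linarith) hT0 (by linarith)
        (by norm_num) (by norm_num)
        (by norm_num) (by norm_num)
      exact ⟨5/8, by norm_num, by linarith, a1, a2, a3, a4⟩
    · have h3R : (5:ℝ) ≤ k := by exact_mod_cast h3
      have hT0 : (5:ℝ) ≤ T := by linarith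
      obtain ⟨k1, k2⟩ := key 0.225 5 hT0 (by norm_num)
        (by rw [hTq]; nlinarith [sq_nonneg (q - 1/0.45)])
      obtain ⟨a1, a2, a3, a4⟩ := gen (θ := 5/8) (b0 := 4.7) (c := 0.225) (T0 := 5)
        (B := (k:ℝ) + -q*τ - τ^2/4) (R := T + 2 * -q*τ) (by norm_num)
        (by norm_num) (by norm_num) (by norm_num at k1 k2 ⊢; linarith) hT0
        (by norm_num at k1 ⊢; linarith)
        (by norm_num) (by norm_num)
        (by norm_num) (by norm_num)
      exact ⟨5/8, by norm_num, by linarith, a1, a2, a3, a4⟩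

end Pool.Agent.Q149.Hess
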