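import Mathlib
import Pool.Agent.Q149.HessB

/-!
The orders `ℤ[t]`, `t³ - p t² + Q t - 1 = 0`, `p`, `Q` even, with one real place and an element of
norm `± 2`: there are twelve.
-/

namespace Pool.Agent.Q149.Hess

/-- The conditions of `core` for `k = 0`. -/
lemma cond_zero {s : ℤ} {τ : ℝ} (hτ : 0 < τ) (h1 : τ*((s+τ)^2) = 1) (hs : 4 ≤ s) :
      (1/2 ≤ (5/8*(s+τ))*((s+τ)*τ-τ^2/4)) ∧
      (2 < 4/9*(5/8*(s+τ))*((s+τ)*τ-τ^2/4)*((s+τ)^2+2*(s+τ)*τ)) ∧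
      5/8*(s+τ)^2 < (s+τ)^2+2*(s+τ)*τ ∧
      6 < ((s+τ)*τ-τ^2/4)*((s+τ)^2+2*(s+τ)*τ-5/8*(s+τ)^2)^2 := by
  have hsR : (4:ℝ) ≤ s := by exact_mod_cast hs
  obtain ⟨σ, hσ⟩ : ∃ σ : ℝ, σ = s + τ := ⟨_, rfl⟩
  rw [← hσ] at h1 ⊢
  have hσ4 : 4 ≤ σ := by rw [hσ]; linarith
  have hστ : σ*τ ≤ 1/4 := by
    have : (σ*τ)*σ = 1 := by linarith
    nlinarith [mul_pos (by linarith : (0:ℝ) < σ) hτ]
  have hτ2 : τ ≤ 1/16 := by nlinarith
  have hστ0 : 0 < σ*τ := by positivity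
  have hx : σ*τ^2 ≤ 1/64 := by
    calc σ*τ^2 = (σ*τ)*τ := by ring
      _ ≤ 1/4*(1/16) := mul_le_mul hστ hτ2 hτ.le (by norm_num)
      _ = 1/64 := by norm_num
  have e1 : σ*(σ*τ-τ^2/4) = 1 - σ*τ^2/4 := by linear_combination h1
  have hR : 16 ≤ σ^2 + 2*σ*τ := by nlinarith
  have hLB : 0.62 ≤ (5/8*σ)*(σ*τ-τ^2/4) := by
    have : (5/8*σ)*(σ*τ-τ^2/4) = 5/8*(σ*(σ*τ-τ^2/4)) := by ring
    rw [this, e1]
    linarith
  have hB0 : 0 < σ*τ-τ^2/4 := by nlinarith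
  refine ⟨by linarith, ?_, by nlinarith, ?_⟩
  · calc (2:ℝ) < 4/9*0.62*16 := by norm_num
      _ ≤ 4/9*((5/8*σ)*(σ*τ-τ^2/4))*(σ^2+2*σ*τ) := by
        apply mul_le_mul _ hR (by norm_num) (by positivity)
        linarith
      _ = _ := by ring
  · have h3 : 0 ≤ 3/8*σ^2 := by positivity
    have h4 : 3/8*σ^2 ≤ σ^2+2*σ*τ-5/8*σ^2 := by linarith
    have h5 : (3/8*σ^2)^2 ≤ (σ^2+2*σ*τ-5/8*σ^2)^2 := pow_le_pow_left₀ h3 h4 2
    have h6 : (4:ℝ)^3 ≤ σ^3 := pow_le_pow_left₀ (by norm_num) hσ4 3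
    have e2 : (σ*τ-τ^2/4)*(3/8*σ^2)^2 = 9/64*(σ^3 - 1/4) := by
      linear_combination (9/64*σ^3 - 9/256*(1 + τ*σ^2)) * h1
    calc (6:ℝ) < 9/64*(64 - 1/4) := by norm_num
      _ ≤ 9/64*(σ^3 - 1/4) := by linarith
      _ = (σ*τ-τ^2/4)*(3/8*σ^2)^2 := e2.symm
      _ ≤ _ := mul_le_mul_of_nonneg_left h5 hB0.le

/-- the six pairs `(p, Q)` with `p < Q` -/
def six : Finset (ℤ × ℤ) := {(-4, 4), (6, 10), (-2, 2), (2, 4), (0, 2), (4, 6)}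

lemma main_zero {s : ℤ} {τ a B : ℝ} (h : Data (-2*s) (s^2) τ a B) (hτ : 0 < τ)
    (ha : a = -s - τ/2) (hB' : B = (s+τ)*τ - τ^2/4) (h1 : τ*((s+τ)^2) = 1) (hs4 : 4 ≤ s)
    {x y z : ℤ} (hN : Nf (-2*s) (s^2) x y z = 2 ∨ Nf (-2*s) (s^2) x y z = -2)
    (hval0 : ((x:ℝ) + y*τ + z*τ^2) ≠ 0) :
    ∃ x y : ℤ, (Nf (-2*s) (s^2) x y 0 = 2 ∨ Nf (-2*s) (s^2) x y 0 = -2) ∧ (y = 1 ∨ y = -1) := by
  obtain ⟨c1, c2, c3, c4⟩ := cond_zero hτ h1 hs4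
  have hsR : (4:ℝ) ≤ s := by exact_mod_cast hs4
  have hR : (τ-a)^2+B = (s+τ)^2+2*(s+τ)*τ := by rw [ha, hB']; ring
  have hroot : τ^3 - (-2*s)*τ^2 + (s^2)*τ - 1 = 0 := by linear_combination h1
  have hne : (s:ℝ)+τ ≠ 0 := by linarith
  -- multiplication by u = t + s
  obtain ⟨v', hv1, hv2, hv3⟩ := normalise
    (fun v : ℤ × ℤ × ℤ => Nf (-2*s) (s^2) v.1 v.2.1 v.2.2 = 2 ∨
      Nf (-2*s) (s^2) v.1 v.2.1 v.2.2 = -2)
    (fun v => (v.1:ℝ) + v.2.1*τ + v.2.2*τ^2)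
    (fun v => (s*v.1 + v.2.2, s*v.2.1 + (v.1 - s^2*v.2.2), s*v.2.2 + (v.2.1 + (-2*s)*v.2.2)))
    (fun v => (s*v.2.2 + (v.2.1 + (-2*s)*v.2.2), s*(v.1 - s^2*v.2.2) + (v.2.2
      - s^2*(v.2.1 + (-2*s)*v.2.2)), s*(v.2.1 + (-2*s)*v.2.2) + ((v.1 - s^2*v.2.2)
      + (-2*s)*(v.2.1 + (-2*s)*v.2.2))))
    (s+τ) (by linarith)
    (by
      rintro ⟨x, y, z⟩ hv
      simp only at hv ⊢
      have e : Nf (-2*s) (s^2) (s*x + z) (s*y + (x - s^2*z)) (s*z + (y + (-2*s)*z))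
          = Nf (-2*s) (s^2) x y z := by unfold Nf; ring
      rw [e]; exact hv)
    (by
      rintro ⟨x, y, z⟩ hv
      simp only at hv ⊢
      have e : Nf (-2*s) (s^2) (s*z + (y + (-2*s)*z)) (s*(x - s^2*z) + (z
          - s^2*(y + (-2*s)*z))) (s*(y + (-2*s)*z) + ((x - s^2*z) + (-2*s)*(y + (-2*s)*z)))
          = Nf (-2*s) (s^2) x y z := by unfold Nf; ring
      rw [e]; exact hv)
    (by
      rintro ⟨x, y, z⟩
      simp only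
      push_cast
      linear_combination (-z:ℝ) * hroot)
    (by
      rintro ⟨x, y, z⟩
      simp only
      rw [eq_inv_mul_iff_mul_eq₀ hne]
      push_cast
      linear_combination (x + y*τ + z*τ^2 : ℝ) * h1
        - ((s+τ)^2*z + (s+τ)*(y + (-2*s)*z)) * hroot)
    (5/8*(s+τ)) (by linarith) (x, y, z) hN hval0
  obtain ⟨x', y', z'⟩ := v'
  simp only at hv1 hv2 hv3
  obtain ⟨rfl, hy⟩ := core h x' y' z' hv1 (5/8*(s+τ)) (5/8*(s+τ)^2) (by linarith) hv2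
    (by linarith [hv3]) (by rw [hB']; exact c1) (by rw [hR, hB']; exact c2)
    (by rw [hR]; exact c3) (by rw [hR, hB']; exact c4)
  exact ⟨x', y', hv1, hy⟩

lemma main_pos {s k : ℤ} {τ a B : ℝ} (h : Data (-2*s) (s^2+k) τ a B) (hτ : 0 < τ)
    (ha : a = -s - τ/2) (hB' : B = k + (s+τ)*τ - τ^2/4) (h1 : τ*((s+τ)^2+k) = 1)
    (hk : 1 ≤ k)
    (hpar : Even (s+k)) (e0 : 1 < (s+1)^2 + k) (e1 : ¬ (s = -3 ∧ k = 1)) (e2 : ¬ (s = 1 ∧ k = 1))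
    (e3 : ¬ (s = -1 ∧ k = 3)) (e4 : ¬ (s = 0 ∧ k = 2)) (e5 : ¬ (s = -2 ∧ k = 2))
    {x y z : ℤ} (hN : Nf (-2*s) (s^2+k) x y z = 2 ∨ Nf (-2*s) (s^2+k) x y z = -2)
    (hval0 : ((x:ℝ) + y*τ + z*τ^2) ≠ 0) :
    ∃ x y : ℤ, (Nf (-2*s) (s^2+k) x y 0 = 2 ∨ Nf (-2*s) (s^2+k) x y 0 = -2) ∧
      (y = 1 ∨ y = -1) := by
  obtain ⟨θ, hθ, hT1, c1, c2, c3, c4⟩ := cond_pos hτ h1 hk hpar e0 e1 e2 e3 e4 e5
  have hR : (τ-a)^2+B = (s+τ)^2+k+2*(s+τ)*τ := by rw [ha, hB']; ring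
  have hroot : τ^3 - (-2*s)*τ^2 + (s^2+k)*τ - 1 = 0 := by linear_combination h1
  have hinv : τ⁻¹ = (s+τ)^2+k := by
    rw [inv_eq_one_div, div_eq_iff hτ.ne']
    linarith
  obtain ⟨v', hv1, hv2, hv3⟩ := normalise
    (fun v : ℤ × ℤ × ℤ => Nf (-2*s) (s^2+k) v.1 v.2.1 v.2.2 = 2 ∨
      Nf (-2*s) (s^2+k) v.1 v.2.1 v.2.2 = -2)
    (fun v => (v.1:ℝ) + v.2.1*τ + v.2.2*τ^2)
    (fun v => (v.2.1 + (s^2+k)*v.1, v.2.2 - (-2*s)*v.1, v.1))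
    (fun v => (v.2.2, v.1 - (s^2+k)*v.2.2, v.2.1 + (-2*s)*v.2.2))
    (τ⁻¹) (by rw [hinv]; exact hT1)
    (by
      rintro ⟨x, y, z⟩ hv
      simp only at hv ⊢
      rw [Nf_tinv]; exact hv)
    (by
      rintro ⟨x, y, z⟩ hv
      simp only at hv ⊢
      rw [Nf_t]; exact hv)
    (by
      rintro ⟨x, y, z⟩
      simp only
      rw [eq_inv_mul_iff_mul_eq₀ hτ.ne']
      push_cast
      linear_combination (x:ℝ) * hroot)
    (by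
      rintro ⟨x, y, z⟩
      simp only
      rw [inv_inv]
      push_cast
      linear_combination (-z:ℝ) * hroot)
    θ hθ (x, y, z) hN hval0
  obtain ⟨x', y', z'⟩ := v'
  simp only at hv1 hv2 hv3
  obtain ⟨rfl, hy⟩ := core h x' y' z' hv1 θ (θ*((s+τ)^2+k)) hθ hv2
    (by rw [← hinv]; exact hv3) (by rw [hB']; exact c1) (by rw [hR, hB']; exact c2)
    (by rw [hR]; exact c3) (by rw [hR, hB']; exact c4)
  exact ⟨x', y', hv1, hy⟩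

theorem main_half {p Q : ℤ} {τ a B : ℝ} (h : Data p Q τ a B) (hp2 : Even p) (hQ2 : Even Q)
    (hlt : p < Q) {x y z : ℤ} (hN : Nf p Q x y z = 2 ∨ Nf p Q x y z = -2) : (p, Q) ∈ six := by
  obtain ⟨s, hs⟩ : ∃ s : ℤ, p = -2*s := by
    obtain ⟨r, hr⟩ := hp2
    exact ⟨-r, by omega⟩
  obtain ⟨k, hk⟩ : ∃ k : ℤ, Q = s^2 + k := ⟨Q - s^2, by ring⟩
  subst hs hk
  have hτ := h.τpos
  have ha : a = -s - τ/2 := by
    have := h.hp; push_cast at this; linarith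
  have hB' : B = k + (s+τ)*τ - τ^2/4 := by
    have := h.hQ; push_cast at this; rw [ha] at this; linarith
  have h1 : τ*((s+τ)^2+k) = 1 := by
    have := h.h1; rw [ha, hB'] at this
    linarith
  have hD : 0 < 4*k*(s^2+k)^2+4*s^3+36*s*k+27 := by
    have hd := h.disc
    have hB := h.hB
    have hτa : (0:ℝ) < ((4*(s^2+k)^3 + 4*(-2*s)^3 + 27 - (-2*s)^2*(s^2+k)^2
        - 18*(-2*s)*(s^2+k) : ℤ) : ℝ) := by
      rw [hd]; positivity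
    have hτb : 0 < (4*(s^2+k)^3 + 4*(-2*s)^3 + 27 - (-2*s)^2*(s^2+k)^2
        - 18*(-2*s)*(s^2+k) : ℤ) := by exact_mod_cast hτa
    linarith
  have hlt2 : -2*s+2 ≤ s^2+k := by
    obtain ⟨r, hr⟩ := hQ2
    omega
  have hk0 : 0 ≤ k := k_nonneg hD hlt2
  have hpar : Even (s+k) := by
    have e : s + k = (s^2+k) - s*(s-1) := by ring
    rw [e]
    apply Even.sub hQ2
    have := Int.even_mul_succ_self (s-1)
    rw [sub_add_cancel, mul_comm] at this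
    exact this
  have hred : 1 < (s+1)^2 + k := by linarith
  have hval0 : ((x:ℝ) + y*τ + z*τ^2) ≠ 0 := by
    intro h0
    have hn := h.norm x y z
    rw [h0, zero_mul] at hn
    have : Nf (-2*s) (s^2+k) x y z = 0 := by exact_mod_cast hn
    omega
  -- the list suffices
  have hlist : (s = 2 ∧ k = 0) ∨ (s = -3 ∧ k = 1) ∨ (s = 1 ∧ k = 1) ∨ (s = -1 ∧ k = 3) ∨
      (s = 0 ∧ k = 2) ∨ (s = -2 ∧ k = 2) := by
    by_contra hcon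
    simp only [not_or] at hcon
    obtain ⟨f1, f2, f3, f4, f5, f6⟩ := hcon
    rcases eq_or_lt_of_le hk0 with hk00 | hkpos
    · -- k = 0
      have hk00 : k = 0 := hk00.symm
      subst hk00
      have hs2 : -1 ≤ s := by
        by_contra hc
        have hc : s ≤ -2 := by omega
        have : s^3 ≤ -8 := by nlinarith [sq_nonneg (s-1), sq_nonneg s]
        linarith
      have hs4 : 4 ≤ s := by
        have hne2 : s ≠ 2 := fun h2 => f1 ⟨h2, rfl⟩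
        have : s ≠ 0 := by rintro rfl; norm_num at hred
        have : s ≠ -1 := by rintro rfl; norm_num at hred
        rw [Int.even_iff] at hpar
        omega
      have h1' : τ*((s+τ)^2) = 1 := by push_cast at h1; linarith
      have e0 : s^2 + 0 = s^2 := by ring
      rw [e0] at h hN
      obtain ⟨x', y', hv, hy⟩ := main_zero h hτ ha (by rw [hB']; push_cast; ring) h1' hs4 hN hval0
      rw [← e0] at hv
      rcases final_list (le_refl 0) hred hD hv hy with h | h | h | h | h | h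
      exacts [f1 h, f2 h, f3 h, f4 h, f5 h, f6 h]
    · obtain ⟨x', y', hv, hy⟩ := main_pos h hτ ha hB' h1 hkpos hpar hred f2 f3 f4 f5 f6 hN hval0
      rcases final_list hk0 hred hD hv hy with h | h | h | h | h | h
      exacts [f1 h, f2 h, f3 h, f4 h, f5 h, f6 h]
  rcases hlist with ⟨rfl, rfl⟩ | ⟨rfl, rfl⟩ | ⟨rfl, rfl⟩ | ⟨rfl, rfl⟩ | ⟨rfl, rfl⟩ | ⟨rfl, rfl⟩
    <;> decide

/-- Both halves. -/
theorem main_all {p Q : ℤ} {τ a B : ℝ} (h : Data p Q τ a B) (hp2 : Even p) (hQ2 : Even Q)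
    (hne : p ≠ Q) {x y z : ℤ} (hN : Nf p Q x y z = 2 ∨ Nf p Q x y z = -2) :
    (p, Q) ∈ six ∨ (Q, p) ∈ six := by
  rcases lt_or_gt_of_ne hne with hlt | hlt
  · exact Or.inl (main_half h hp2 hQ2 hlt hN)
  · right
    rw [Nf_symm] at hN
    exact main_half h.symm hQ2 hp2 hlt hN

end Pool.Agent.Q149.Hess
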