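import Mathlib
import Pool.Agent.Q149.HessC

/-!
The Hessenberg matrices `M(m,n)`: definitions, and the reduction of the problem to elements of norm
`± 2`.
-/

namespace Pool.Agent.Q149.Hess

open Polynomial Matrix

/-- The matrix `M(m,n)` of the problem. -/
def M (m n : ℤ) : Matrix (Fin 3) (Fin 3) ℤ := !![0, 1, n+1; 1, 1, m+n; 0, 2, 2*n+1]

/-- `Δ_A(v) = |det(v, Av, A²v)|` for an integer matrix `A` and an integer vector `v`. -/
def Delta (A : Matrix (Fin 3) (Fin 3) ℤ) (v : Fin 3 → ℤ) : ℤ :=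
  |(Matrix.of ![v, A *ᵥ v, A *ᵥ (A *ᵥ v)]).det|

/-- `M(m,n)` is an NRS-matrix: its characteristic polynomial is irreducible over `ℚ` and has one
real root and two non-real complex conjugate roots. -/
def NRS (m n : ℤ) : Prop :=
  Irreducible ((M m n).charpoly.map (Int.castRingHom ℚ)) ∧
    ∃ (r : ℝ) (w : ℂ), w.im ≠ 0 ∧
      (M m n).charpoly.map (Int.castRingHom ℂ) =
        (X - C (r:ℂ)) * (X - C w) * (X - C (starRingEnd ℂ w))

/-- `M(m,n)` is ς-reduced: `Δ_{M(m,n)}` attains its minimum over `ℤ³ \ {0}` at `e₁`. -/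
def Reduced (m n : ℤ) : Prop :=
  ∀ v : Fin 3 → ℤ, v ≠ 0 → Delta (M m n) ![1, 0, 0] ≤ Delta (M m n) v

lemma charpoly_M (m n : ℤ) :
    (M m n).charpoly = X^3 - C (2*n+2) * X^2 - C (2*m) * X - 1 := by
  unfold Matrix.charpoly Matrix.charmatrix M
  rw [Matrix.det_fin_three]
  simp
  ring

/-- the determinant as a polynomial -/
def F (m n x y z : ℤ) : ℤ :=
  (Matrix.of ![![x, y, z], M m n *ᵥ ![x, y, z], M m n *ᵥ (M m n *ᵥ ![x, y, z])]).det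

lemma F_eq (m n x y z : ℤ) :
    4 * F m n x y z = Nf (2*n+2) (-2*m) (2*x-z) (2*y-z) z := by
  unfold F Nf M
  rw [Matrix.det_fin_three]
  simp [Matrix.mulVec, dotProduct, Fin.sum_univ_three, Matrix.of_apply]
  ring

lemma Delta_eq (m n : ℤ) (v : Fin 3 → ℤ) : Delta (M m n) v = |F m n (v 0) (v 1) (v 2)| := by
  have : v = ![v 0, v 1, v 2] := by
    ext i; fin_cases i <;> rfl
  unfold Delta F
  rw [← this]

lemma Delta_e1 (m n : ℤ) : Delta (M m n) ![1, 0, 0] = 2 := by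
  rw [Delta_eq]
  have h := F_eq m n 1 0 0
  have e : Nf (2*n+2) (-2*m) (2*1-0) (2*0-0) 0 = 8 := by unfold Nf; ring
  rw [e] at h
  have : F m n 1 0 0 = 2 := by linarith
  show |F m n 1 0 0| = 2
  rw [this]; norm_num

/-- half of the adjoint of `(2x-z) + (2y-z) t + z t²` -/
lemma half_adj (m n x y z : ℤ) : ∃ a b c : ℤ,
    Nf (2*n+2) (-2*m) a b c = 2 * (F m n x y z)^2 := by
  have hF := F_eq m n x y z
  -- P = n + 1, q = -m
  refine ⟨2*(x+m*z)^2 - 2*(x+m*z)*z + z^2 - (y+(n+1)*z)*z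
      + (n+1)*(2*(x+m*z)-z)*(2*(y+(n+1)*z)-z) + (-m)*(2*(y+(n+1)*z)-z)^2,
    -(2*(x+m*z)*y - y*z - (x+m*z)*z + (n+1)*(2*y-z)*(2*(y+(n+1)*z)-z)
      + (-m)*(2*(y+(n+1)*z)-z)*z),
    2*y*(y+(n+1)*z) - y*z - (y+(n+1)*z)*z + z^2 - (x+m*z)*z, ?_⟩
  have h2 : 16 * Nf (2*n+2) (-2*m)
      (2*(x+m*z)^2 - 2*(x+m*z)*z + z^2 - (y+(n+1)*z)*z
      + (n+1)*(2*(x+m*z)-z)*(2*(y+(n+1)*z)-z) + (-m)*(2*(y+(n+1)*z)-z)^2)
      (-(2*(x+m*z)*y - y*z - (x+m*z)*z + (n+1)*(2*y-z)*(2*(y+(n+1)*z)-z)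
      + (-m)*(2*(y+(n+1)*z)-z)*z))
      (2*y*(y+(n+1)*z) - y*z - (y+(n+1)*z)*z + z^2 - (x+m*z)*z)
      = 2 * (Nf (2*n+2) (-2*m) (2*x-z) (2*y-z) z)^2 := by
    unfold Nf
    ring
  rw [← hF] at h2
  linarith

end Pool.Agent.Q149.Hess
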