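import Mathlib
import Pool.Agent.Q149.HessD

/-!
NRS-matrices: the real data, independence, and a criterion.
-/

namespace Pool.Agent.Q149.Hess

open Polynomial Matrix

lemma charpoly_natDegree (m n : ℤ) : (M m n).charpoly.natDegree = 3 := by
  simp [Matrix.charpoly_natDegree_eq_dim]

lemma charpoly_monic (m n : ℤ) : (M m n).charpoly.Monic := Matrix.charpoly_monic _

/-- the real data of an NRS-matrix -/
lemma NRS.data {m n : ℤ} (h : NRS m n) : ∃ (r a b : ℝ), b ≠ 0 ∧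
    Data (2*n+2) (-2*m) r a (b^2) := by
  obtain ⟨_, r, w, hw, hf⟩ := h
  have hw1 : w = (w.re:ℂ) + w.im*Complex.I := (Complex.re_add_im w).symm
  have hw2 : starRingEnd ℂ w = (w.re:ℂ) - w.im*Complex.I := by
    apply Complex.ext <;> simp
  refine ⟨r, w.re, w.im, hw, ?_⟩
  rw [hw2] at hf
  nth_rewrite 1 [hw1] at hf
  rw [charpoly_M] at hf
  have f0 := congrArg (Polynomial.eval (0:ℂ)) hf
  have f1 := congrArg (Polynomial.eval (1:ℂ)) hf
  have f2 := congrArg (Polynomial.eval (-1:ℂ)) hf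
  simp at f0 f1 f2
  have g0 := congrArg Complex.re f0
  have g1 := congrArg Complex.re f1
  have g2 := congrArg Complex.re f2
  have e3 : ((-1:ℂ)^3).re = -1 := by
    have : ((-1:ℂ)^3) = -1 := by norm_num
    rw [this]; simp
  simp at g0 g1 g2
  rw [e3] at g2
  refine ⟨?_, ?_, ?_, by positivity⟩
  · push_cast; linarith
  · push_cast; linarith
  · linarith

/-- A root of an irreducible cubic is not a root of a quadratic polynomial. -/
lemma indep {f : ℚ[X]} (hf : Irreducible f) (hd : f.natDegree = 3) {z : ℂ} (hz : aeval z f = 0)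
    {a b c : ℤ} (h : (a:ℂ) + b*z + c*z^2 = 0) : a = 0 ∧ b = 0 ∧ c = 0 := by
  obtain ⟨g, hg⟩ : ∃ g : ℚ[X], g = C (a:ℚ) + C (b:ℚ) * X + C (c:ℚ) * X^2 := ⟨_, rfl⟩
  have hgz : aeval z g = 0 := by
    rw [hg]; simpa using h
  have hg0 : g = 0 := by
    by_contra hne
    have hnd : ¬ f ∣ g := by
      intro hdvd
      have h1 := Polynomial.natDegree_le_of_dvd hdvd hne
      have h2 : g.natDegree ≤ 2 := by
        rw [hg]; compute_degree
      omega
    have hco : IsCoprime f g := (hf.coprime_iff_not_dvd).mpr hnd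
    obtain ⟨u, v, huv⟩ := hco
    have := congrArg (aeval z) huv
    simp [hz, hgz] at this
  have c0 := congrArg (fun p : ℚ[X] => p.coeff 0) hg0
  have c1 := congrArg (fun p : ℚ[X] => p.coeff 1) hg0
  have c2 := congrArg (fun p : ℚ[X] => p.coeff 2) hg0
  simp only [hg, coeff_add, coeff_C_mul, coeff_X_pow, coeff_C, coeff_X, coeff_zero] at c0 c1 c2
  norm_num at c0 c1 c2
  exact ⟨c0, c1, c2⟩

lemma NRS.F_ne {m n : ℤ} (h : NRS m n) {x y z : ℤ} (h0 : F m n x y z = 0) :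
    x = 0 ∧ y = 0 ∧ z = 0 := by
  obtain ⟨r, a, b, hb, hd⟩ := h.data
  have hirr := h.1
  have hdeg : ((M m n).charpoly.map (Int.castRingHom ℚ)).natDegree = 3 := by
    rw [(charpoly_monic m n).natDegree_map, charpoly_natDegree]
  have hn := hd.norm (2*x-z) (2*y-z) z
  have hF := F_eq m n x y z
  rw [h0, mul_zero] at hF
  rw [← hF] at hn
  push_cast at hn
  have hroot : ∀ w : ℂ, w^3 - (2*n+2)*w^2 + (-2*m)*w - 1 = 0 →
      aeval w ((M m n).charpoly.map (Int.castRingHom ℚ)) = 0 := by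
    intro w hw
    rw [charpoly_M]
    simp only [Polynomial.map_sub, Polynomial.map_mul, Polynomial.map_pow, Polynomial.map_X,
      Polynomial.map_C, Polynomial.map_one, map_sub, map_mul, map_pow, aeval_X, aeval_C, map_one]
    simp
    linear_combination hw
  have hp := hd.hp
  have hQ := hd.hQ
  have h1 := hd.h1
  push_cast at hp hQ
  have hpC : (2*n+2:ℂ) = (r:ℂ) + 2*(a:ℂ) := by
    have := congrArg (fun t : ℝ => (t:ℂ)) hp
    push_cast at this; exact this
  have hQC : (-2*m:ℂ) = 2*(r:ℂ)*a + (a:ℂ)^2 + (b:ℂ)^2 := by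
    have := congrArg (fun t : ℝ => (t:ℂ)) hQ
    push_cast at this; exact this
  have h1C : (r:ℂ)*((a:ℂ)^2 + (b:ℂ)^2) = 1 := by
    have := congrArg (fun t : ℝ => (t:ℂ)) h1
    push_cast at this; exact this
  have concl : (2*x-z) = 0 ∧ (2*y-z) = 0 ∧ z = 0 := by
    rcases mul_eq_zero.mp hn.symm with h2 | h2
    · -- real root
      have hr : (r:ℂ)^3 - (2*n+2)*(r:ℂ)^2 + (-2*m)*(r:ℂ) - 1 = 0 := by
        rw [hpC, hQC]
        linear_combination h1C
      apply indep hirr hdeg (hroot _ hr)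
      have := congrArg (fun t : ℝ => (t:ℂ)) h2
      push_cast at this ⊢; exact this
    · have hI : Complex.I^2 = -1 := Complex.I_sq
      have hw : ((a:ℂ) + b*Complex.I)^3 - (2*n+2)*((a:ℂ) + b*Complex.I)^2
          + (-2*m)*((a:ℂ) + b*Complex.I) - 1 = 0 := by
        rw [hpC, hQC]
        linear_combination (3*(a:ℂ)*b^2 + b^3*Complex.I - (r + 2*a)*b^2) * hI + h1C
      apply indep hirr hdeg (hroot _ hw)
      have hb2 : 0 < b^2 := by positivity
      have h3 : (((2*x-z:ℤ):ℝ) + ((2*y-z:ℤ):ℝ)*a + (z:ℝ)*(a^2-b^2)) = 0 ∧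
          (((2*y-z:ℤ):ℝ) + 2*a*z) = 0 := by
        push_cast
        have s1 := sq_nonneg ((2*x-z:ℝ) + (2*y-z)*a + z*(a^2-b^2))
        have s2 := mul_nonneg hb2.le (sq_nonneg ((2*y-z:ℝ) + 2*a*z))
        constructor
        · have : ((2*x-z:ℝ) + (2*y-z)*a + z*(a^2-b^2))^2 = 0 := by linarith
          exact pow_eq_zero_iff (two_ne_zero) |>.mp this
        · have : b^2*((2*y-z:ℝ) + 2*a*z)^2 = 0 := by linarith
          rcases mul_eq_zero.mp this with h | h
          · exact absurd h hb2.ne'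
          · exact pow_eq_zero_iff (two_ne_zero) |>.mp h
      obtain ⟨h4, h5⟩ := h3
      have h4C := congrArg (fun t : ℝ => (t:ℂ)) h4
      have h5C := congrArg (fun t : ℝ => (t:ℂ)) h5
      push_cast at h4C h5C ⊢
      linear_combination h4C + b*Complex.I*h5C + z*b^2*hI
  omega

/-- a criterion -/
lemma nrs_of {m n : ℤ} (hD : 0 < 4*(-2*m)^3 + 4*(2*n+2)^3 + 27 - (2*n+2)^2*(-2*m)^2
    - 18*(2*n+2)*(-2*m)) (hne : 2*n+2 ≠ -2*m) (hne2 : 2*n+2 + (-2*m) ≠ -2) : NRS m n := by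
  constructor
  · have hdeg : ((M m n).charpoly.map (Int.castRingHom ℚ)).natDegree = 3 := by
      rw [(charpoly_monic m n).natDegree_map, charpoly_natDegree]
    have hmon : ((M m n).charpoly.map (Int.castRingHom ℚ)).Monic := (charpoly_monic m n).map _
    rw [hmon.irreducible_iff_roots_eq_zero_of_degree_le_three (by omega) (by omega)]
    rw [Multiset.eq_zero_iff_forall_notMem]
    intro q hq
    have hq' : aeval q (M m n).charpoly = 0 := by
      have := (mem_roots'.mp hq).2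
      rw [IsRoot, eval_map] at this
      exact this
    obtain ⟨k, hk⟩ := isInteger_of_is_root_of_monic (charpoly_monic m n) hq'
    rw [← hk, charpoly_M] at hq'
    simp only [map_sub, map_mul, map_pow, aeval_X, aeval_C, map_one] at hq'
    simp at hq'
    have h2' : ((k^3 - (2*n+2)*k^2 - 2*m*k - 1 : ℤ) : ℚ) = 0 := by
      push_cast; linarith
    have h2 : k^3 - (2*n+2)*k^2 - 2*m*k - 1 = 0 := by exact_mod_cast h2'
    have hdvd : k ∣ 1 := ⟨k^2 - (2*n+2)*k - 2*m, by linarith⟩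
    rcases Int.isUnit_iff.mp (isUnit_of_dvd_one hdvd) with rfl | rfl
    · apply hne; linarith
    · apply hne2; linarith
  · -- real root
    obtain ⟨p, hp⟩ : ∃ p : ℝ, p = 2*n+2 := ⟨_, rfl⟩
    obtain ⟨Q, hQ⟩ : ∃ Q : ℝ, Q = -2*m := ⟨_, rfl⟩
    have hDR : 0 < 4*Q^3 + 4*p^3 + 27 - p^2*Q^2 - 18*p*Q := by
      rw [hp, hQ]; exact_mod_cast hD
    obtain ⟨r, hr⟩ : ∃ r : ℝ, r^3 - p*r^2 + Q*r - 1 = 0 := by
      have hcont : Continuous (fun r : ℝ => r^3 - p*r^2 + Q*r - 1) := by fun_prop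
      obtain ⟨N, hN⟩ : ∃ N : ℝ, N = |p| + |Q| + 1 := ⟨_, rfl⟩
      have hN0 : 0 ≤ N := by rw [hN]; positivity
      have hN1 : 1 ≤ N := by rw [hN]; linarith [abs_nonneg p, abs_nonneg Q]
      have h0 : (fun r : ℝ => r^3 - p*r^2 + Q*r - 1) 0 ≤ 0 := by norm_num
      have h1 : 0 ≤ (fun r : ℝ => r^3 - p*r^2 + Q*r - 1) N := by
        show 0 ≤ N^3 - p*N^2 + Q*N - 1
        have a1 : p ≤ |p| := le_abs_self p
        have a2 : -|Q| ≤ Q := neg_abs_le Q
        have a3 : p*N^2 ≤ |p| * N^2 := mul_le_mul_of_nonneg_right a1 (by positivity)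
        have a4 : -|Q| * N ≤ Q*N := mul_le_mul_of_nonneg_right a2 hN0
        have a5 : |Q| * N ≤ |Q| * N^2 := by
          apply mul_le_mul_of_nonneg_left _ (abs_nonneg Q)
          nlinarith
        have a6 : N^3 = (|p| + |Q| + 1)*N^2 := by rw [← hN]; ring
        nlinarith
      have := intermediate_value_Icc hN0 hcont.continuousOn ⟨h0, h1⟩
      obtain ⟨r, _, hr⟩ := this
      exact ⟨r, hr⟩
    obtain ⟨a, ha⟩ : ∃ a : ℝ, a = (p-r)/2 := ⟨_, rfl⟩
    have hpa : p = r + 2*a := by rw [ha]; ring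
    obtain ⟨B, hB⟩ : ∃ B : ℝ, B = Q - 2*r*a - a^2 := ⟨_, rfl⟩
    have hQa : Q = 2*r*a + a^2 + B := by rw [hB]; ring
    have h1 : r*(a^2+B) = 1 := by
      rw [hpa, hQa] at hr; linarith
    have hdisc : 4*Q^3 + 4*p^3 + 27 - p^2*Q^2 - 18*p*Q = 4*B*((r-a)^2+B)^2 := by
      rw [hpa, hQa]
      linear_combination (-4*(r+2*a)^3 + 18*(r+2*a)*(2*r*a + a^2 + B)
        - 27*(1 + r*(a^2+B)) : ℝ) * h1
    have hBpos : 0 < B := by
      by_contra hc
      have hc : B ≤ 0 := not_lt.mp hc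
      have : B*((r-a)^2+B)^2 ≤ 0 := mul_nonpos_of_nonpos_of_nonneg hc (sq_nonneg _)
      linarith
    have hsq : (Real.sqrt B)^2 = B := Real.sq_sqrt hBpos.le
    refine ⟨r, ⟨a, Real.sqrt B⟩, by simpa using (Real.sqrt_pos.mpr hBpos).ne', ?_⟩
    have hw1 : (⟨a, Real.sqrt B⟩ : ℂ) = (a:ℂ) + (Real.sqrt B)*Complex.I := by
      apply Complex.ext <;> simp
    have hw2 : starRingEnd ℂ (⟨a, Real.sqrt B⟩ : ℂ) = (a:ℂ) - (Real.sqrt B)*Complex.I := by
      apply Complex.ext <;> simp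
    rw [hw2, hw1]
    have q1 : (2*n+2:ℂ) = (r:ℂ) + 2*(a:ℂ) := by
      rw [hp] at hpa
      have := congrArg (fun t : ℝ => (t:ℂ)) hpa
      push_cast at this; exact this
    have q2 : (-2*m:ℂ) = 2*(r:ℂ)*(a:ℂ) + (a:ℂ)^2 + (Real.sqrt B:ℂ)^2 := by
      rw [hQ, ← hsq] at hQa
      have := congrArg (fun t : ℝ => (t:ℂ)) hQa
      push_cast at this; exact this
    have q3 : (r:ℂ)*((a:ℂ)^2 + (Real.sqrt B:ℂ)^2) = 1 := by
      rw [← hsq] at h1
      have := congrArg (fun t : ℝ => (t:ℂ)) h1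
      push_cast at this; exact this
    apply Polynomial.funext
    intro z
    rw [charpoly_M]
    simp only [Polynomial.map_sub, Polynomial.map_mul, Polynomial.map_pow, Polynomial.map_X,
      Polynomial.map_C, Polynomial.map_one, eval_sub, eval_mul, eval_pow, eval_X, eval_C, eval_one]
    simp
    linear_combination (-z^2) * q1 + z * q2 + (Real.sqrt B:ℂ)^2*(z - r) * Complex.I_sq + q3

end Pool.Agent.Q149.Hess
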