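import Mathlib

namespace Q149.IC

variable {d : ℕ}

/-- An integer point regarded as a point of `ℝ^d`. -/
def toR (x : Fin d → ℤ) : Fin d → ℝ := fun i => (x i : ℝ)

/-- `S ⊆ ℤ^d` is integrally convex: every `x ∈ conv(S)` lies in `conv(S ∩ N(x))`, where
`N(x) = {y ∈ ℤ^d : |x_i - y_i| < 1 for all i}`. -/
def IntegrallyConvex (S : Set (Fin d → ℤ)) : Prop :=
  ∀ x ∈ convexHull ℝ (toR '' S),
    x ∈ convexHull ℝ (toR '' {y | y ∈ S ∧ ∀ i, |x i - (y i : ℝ)| < 1})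

/-- The `k`-parallelogram condition: `a₁ + ⋯ + aₘ ≠ b₁ + ⋯ + bₘ` whenever `1 ≤ m ≤ k`,
`aᵢ ∈ A`, `bᵢ ∈ B` (repetitions allowed). -/
def ParallelogramCondition (k : ℕ) (A B : Set (Fin d → ℤ)) : Prop :=
  ∀ m : ℕ, 1 ≤ m → m ≤ k → ∀ a b : Fin m → (Fin d → ℤ),
    (∀ i, a i ∈ A) → (∀ i, b i ∈ B) → ∑ i, a i ≠ ∑ i, b i

/-- `R` is a connected component of `X`. -/
def IsComponent (X R : Set (Fin d → ℝ)) : Prop :=
  ∃ x ∈ X, R = connectedComponentIn X x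

/-- `P` separates `A` and `B` in `L` (where `S = A ∪ B`): the two connected components `Rp`, `Rm`
of `L \ P` can be labelled so that `Rp ∩ S ⊆ A` and `Rm ∩ S ⊆ B`. -/
def Separates (A B : Set (Fin d → ℤ)) (L P : AffineSubspace ℝ (Fin d → ℝ)) : Prop :=
  ∃ Rp Rm : Set (Fin d → ℝ),
    IsComponent ((L : Set (Fin d → ℝ)) \ (P : Set (Fin d → ℝ))) Rp ∧
    IsComponent ((L : Set (Fin d → ℝ)) \ (P : Set (Fin d → ℝ))) Rm ∧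
    Rp ≠ Rm ∧
    (∀ x ∈ A ∪ B, toR x ∈ Rp → x ∈ A) ∧ (∀ x ∈ A ∪ B, toR x ∈ Rm → x ∈ B)

/-- Condition H for `S = A ∪ B ⊆ ℤ^d`: there are `k` and affine subspaces
`H k ⊆ H (k+1) ⊆ ⋯ ⊆ H d = ℝ^d` with `dim (H i) = i` such that `H k ∩ S ⊆ A` or `H k ∩ S ⊆ B`, and
`H i` separates `A` and `B` in `H (i+1)` for `k ≤ i < d`. -/
def ConditionH (A B : Set (Fin d → ℤ)) : Prop :=
  ∃ k : ℕ, k ≤ d ∧ ∃ H : ℕ → AffineSubspace ℝ (Fin d → ℝ),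
    H d = ⊤ ∧
    (∀ i, k ≤ i → i ≤ d →
      (H i : Set (Fin d → ℝ)).Nonempty ∧ Module.finrank ℝ (H i).direction = i) ∧
    (∀ i, k ≤ i → i < d → H i ≤ H (i + 1)) ∧
    ((∀ x ∈ A ∪ B, toR x ∈ H k → x ∈ A) ∨ (∀ x ∈ A ∪ B, toR x ∈ H k → x ∈ B)) ∧
    (∀ i, k ≤ i → i < d → Separates A B (H (i + 1)) (H i))

end Q149.IC
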