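import Mathlib
import Pool.Agent.Q149.ICDefs

namespace Q149.IC

variable {d : ℕ}

/-- Two distinct components of `L \ P` contain the two open half-spaces of `L` bounded by `P`. -/
theorem exists_functional (L P : AffineSubspace ℝ (Fin d → ℝ)) (hPL : P ≤ L)
    (hP : (P : Set (Fin d → ℝ)).Nonempty)
    (hdim : Module.finrank ℝ L.direction = Module.finrank ℝ P.direction + 1)
    (Rp Rm : Set (Fin d → ℝ))
    (hp : IsComponent ((L : Set (Fin d → ℝ)) \ (P : Set (Fin d → ℝ))) Rp)
    (hm : IsComponent ((L : Set (Fin d → ℝ)) \ (P : Set (Fin d → ℝ))) Rm) (hne : Rp ≠ Rm) :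
    ∃ (g : (Fin d → ℝ) →ₗ[ℝ] ℝ) (c : ℝ), (∀ y ∈ L, g y = c → y ∈ P) ∧
      (∀ y ∈ L, c < g y → y ∈ Rp) ∧ (∀ y ∈ L, g y < c → y ∈ Rm) := by
  obtain ⟨x0, hx0⟩ := hP
  have hx0L : x0 ∈ L := hPL hx0
  have hdir : P.direction ≤ L.direction := AffineSubspace.direction_le hPL
  have hlt : ¬ L.direction ≤ P.direction := by
    intro h
    have := Submodule.finrank_mono h
    omega
  obtain ⟨v, hvL, hvP⟩ := Set.not_subset.mp (show ¬ (L.direction : Set (Fin d → ℝ)) ⊆ P.direction
    from hlt)
  obtain ⟨g, hgv, hgP⟩ := Submodule.exists_le_ker_of_notMem (p := P.direction) hvP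
  have hgv' : g v ≠ 0 := hgv
  have hPdir : P.direction = L.direction ⊓ LinearMap.ker g := by
    apply Submodule.eq_of_le_of_finrank_le (le_inf hdir hgP)
    have h1 : L.direction ⊓ LinearMap.ker g < L.direction := by
      refine lt_of_le_of_ne inf_le_left ?_
      intro h
      have : v ∈ L.direction ⊓ LinearMap.ker g := by rw [h]; exact hvL
      exact hgv' (LinearMap.mem_ker.mp (Submodule.mem_inf.mp this).2)
    have h2 := Submodule.finrank_lt_finrank_of_lt h1
    omega
  have hmemP : ∀ y ∈ L, g y = g x0 → y ∈ P := by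
    intro y hy hgy
    have h1 : y -ᵥ x0 ∈ P.direction := by
      rw [hPdir, Submodule.mem_inf]
      refine ⟨AffineSubspace.vsub_mem_direction hy hx0L, ?_⟩
      rw [LinearMap.mem_ker, vsub_eq_sub, map_sub, hgy, sub_self]
    have := AffineSubspace.vadd_mem_of_mem_direction h1 hx0
    simpa using this
  have hP0 : ∀ y ∈ P, g y = g x0 := by
    intro y hy
    have h1 : y -ᵥ x0 ∈ P.direction := AffineSubspace.vsub_mem_direction hy hx0
    have h2 := LinearMap.mem_ker.mp (hgP h1)
    rw [vsub_eq_sub, map_sub] at h2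
    linarith
  set X := (L : Set (Fin d → ℝ)) \ (P : Set (Fin d → ℝ)) with hX
  set Up : Set (Fin d → ℝ) := {y | y ∈ L ∧ g x0 < g y} with hUp
  set Um : Set (Fin d → ℝ) := {y | y ∈ L ∧ g y < g x0} with hUm
  have hUpX : Up ⊆ X := by
    intro y hy
    refine ⟨hy.1, fun h => ?_⟩
    have := hP0 y h
    have := hy.2
    linarith
  have hUmX : Um ⊆ X := by
    intro y hy
    refine ⟨hy.1, fun h => ?_⟩
    have := hP0 y h
    have := hy.2
    linarith
  have hXU : ∀ y ∈ X, y ∈ Up ∨ y ∈ Um := by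
    intro y hy
    rcases lt_trichotomy (g y) (g x0) with h | h | h
    · right; exact ⟨hy.1, h⟩
    · exact absurd (hmemP y hy.1 h) hy.2
    · left; exact ⟨hy.1, h⟩
  have hUpc : IsPreconnected Up := by
    have : Convex ℝ Up := by
      have h1 : Convex ℝ (L : Set (Fin d → ℝ)) := L.convex
      have h2 : Convex ℝ {y : Fin d → ℝ | g x0 < g y} :=
        convex_halfSpace_gt g.isLinear _
      exact h1.inter h2
    exact this.isPreconnected
  have hUmc : IsPreconnected Um := by
    have : Convex ℝ Um := by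
      have h1 : Convex ℝ (L : Set (Fin d → ℝ)) := L.convex
      have h2 : Convex ℝ {y : Fin d → ℝ | g y < g x0} :=
        convex_halfSpace_lt g.isLinear _
      exact h1.inter h2
    exact this.isPreconnected
  obtain ⟨xp, hxp, rfl⟩ := hp
  obtain ⟨xm, hxm, rfl⟩ := hm
  rcases hXU xp hxp with h1 | h1
  · have h2 : Up ⊆ connectedComponentIn X xp := hUpc.subset_connectedComponentIn h1 hUpX
    rcases hXU xm hxm with h3 | h3
    · exact absurd (connectedComponentIn_eq (h2 h3)) hne
    · have h4 : Um ⊆ connectedComponentIn X xm := hUmc.subset_connectedComponentIn h3 hUmX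
      exact ⟨g, g x0, hmemP, fun y hy hgy => h2 ⟨hy, hgy⟩, fun y hy hgy => h4 ⟨hy, hgy⟩⟩
  · have h2 : Um ⊆ connectedComponentIn X xp := hUmc.subset_connectedComponentIn h1 hUmX
    rcases hXU xm hxm with h3 | h3
    · have h4 : Up ⊆ connectedComponentIn X xm := hUpc.subset_connectedComponentIn h3 hUpX
      refine ⟨-g, -(g x0), ?_, ?_, ?_⟩
      · intro y hy hgy
        rw [LinearMap.neg_apply] at hgy
        exact hmemP y hy (by linarith)
      · intro y hy hgy
        rw [LinearMap.neg_apply] at hgy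
        exact h2 ⟨hy, by linarith⟩
      · intro y hy hgy
        rw [LinearMap.neg_apply] at hgy
        exact h4 ⟨hy, by linarith⟩
    · exact absurd (connectedComponentIn_eq (h2 h3)) hne

theorem toR_sum {m : ℕ} (a : Fin m → (Fin d → ℤ)) : toR (∑ i, a i) = ∑ i, toR (a i) := by
  funext j
  simp [toR, Finset.sum_apply]

/-- Condition H excludes every relation `a₁ + ⋯ + aₘ = b₁ + ⋯ + bₘ`, `m ≥ 1`. -/
theorem no_relation_of_conditionH (A B : Set (Fin d → ℤ)) (hAB : Disjoint A B)
    (h : ConditionH A B) (m : ℕ) (hm : 1 ≤ m) (a b : Fin m → (Fin d → ℤ)) (ha : ∀ i, a i ∈ A)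
    (hb : ∀ i, b i ∈ B) : ∑ i, a i ≠ ∑ i, b i := by
  intro hsum
  obtain ⟨k, hkd, H, hHd, hHdim, hHle, hHk, hsep⟩ := h
  have hall : ∀ n, n ≤ d - k → ∀ i, toR (a i) ∈ H (d - n) ∧ toR (b i) ∈ H (d - n) := by
    intro n
    induction n with
    | zero =>
      intro _ i
      rw [Nat.sub_zero, hHd]
      exact ⟨AffineSubspace.mem_top _ _ _, AffineSubspace.mem_top _ _ _⟩
    | succ n ih =>
      intro hn
      have ih' := ih (by omega)
      obtain ⟨t, ht⟩ : ∃ t, t = d - (n + 1) := ⟨_, rfl⟩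
      have ht1 : d - n = t + 1 := by omega
      rw [ht1] at ih'
      rw [← ht]
      have hkt : k ≤ t := by omega
      have htd : t < d := by omega
      obtain ⟨Rp, Rm, hp, hmm, hne, hRp, hRm⟩ := hsep t hkt htd
      obtain ⟨g, c, hg0, hgp, hgm⟩ := exists_functional (H (t + 1)) (H t) (hHle t hkt htd)
        (hHdim t hkt (by omega)).1
        (by rw [(hHdim t hkt (by omega)).2, (hHdim (t + 1) (by omega) (by omega)).2])
        Rp Rm hp hmm hne
      have hga : ∀ i, 0 ≤ g (toR (a i)) - c := by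
        intro i
        by_contra hcon
        push Not at hcon
        have h1 := hgm _ (ih' i).1 (by linarith)
        have h2 := hRm (a i) (Or.inl (ha i)) h1
        exact Set.disjoint_left.mp hAB (ha i) h2
      have hgb : ∀ i, 0 ≤ c - g (toR (b i)) := by
        intro i
        by_contra hcon
        push Not at hcon
        have h1 := hgp _ (ih' i).2 (by linarith)
        have h2 := hRp (b i) (Or.inr (hb i)) h1
        exact Set.disjoint_left.mp hAB h2 (hb i)
      have hs : ∑ i, g (toR (a i)) = ∑ i, g (toR (b i)) := by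
        rw [← map_sum, ← map_sum, ← toR_sum, ← toR_sum, hsum]
      have hs2 : ∑ i, (g (toR (a i)) - c) + ∑ i, (c - g (toR (b i))) = 0 := by
        rw [Finset.sum_sub_distrib, Finset.sum_sub_distrib, hs]
        ring
      have hs3 : 0 ≤ ∑ i, (g (toR (a i)) - c) := Finset.sum_nonneg fun i _ => hga i
      have hs4 : 0 ≤ ∑ i, (c - g (toR (b i))) := Finset.sum_nonneg fun i _ => hgb i
      have hs5 : ∑ i, (g (toR (a i)) - c) = 0 := by linarith
      have hs6 : ∑ i, (c - g (toR (b i))) = 0 := by linarith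
      rw [Finset.sum_eq_zero_iff_of_nonneg (fun i _ => hga i)] at hs5
      rw [Finset.sum_eq_zero_iff_of_nonneg (fun i _ => hgb i)] at hs6
      intro i
      constructor
      · exact hg0 _ (ih' i).1 (by have := hs5 i (Finset.mem_univ i); linarith)
      · exact hg0 _ (ih' i).2 (by have := hs6 i (Finset.mem_univ i); linarith)
  have hfin := hall (d - k) le_rfl ⟨0, by omega⟩
  have hdk : d - (d - k) = k := by omega
  rw [hdk] at hfin
  rcases hHk with h1 | h1
  · exact Set.disjoint_left.mp hAB (h1 _ (Or.inr (hb _)) hfin.2) (hb _)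
  · exact Set.disjoint_left.mp hAB (ha _) (h1 _ (Or.inl (ha _)) hfin.1)

/-- Every set of 0/1 vectors is integrally convex. -/
theorem integrallyConvex_of_01 (S : Set (Fin d → ℤ)) (hS : ∀ y ∈ S, ∀ i, y i = 0 ∨ y i = 1) :
    IntegrallyConvex S := by
  classical
  intro x hx
  rw [convexHull_eq] at hx
  obtain ⟨ι, t, w, z, hw0, hw1, hz, rfl⟩ := hx
  rw [← Finset.centerMass_filter_ne_zero]
  apply Finset.centerMass_mem_convexHull
  · intro i hi
    exact hw0 i (Finset.mem_filter.mp hi).1
  · have : ∑ i ∈ t with w i ≠ 0, w i = ∑ i ∈ t, w i := Finset.sum_filter_ne_zero t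
    rw [this, hw1]; norm_num
  · intro i hi
    obtain ⟨hit, hwi⟩ := Finset.mem_filter.mp hi
    obtain ⟨y, hyS, hyz⟩ := hz i hit
    refine ⟨y, ⟨hyS, ?_⟩, hyz⟩
    intro j
    rw [Finset.centerMass_filter_ne_zero]
    have hwpos : 0 < w i := lt_of_le_of_ne (hw0 i hit) (Ne.symm hwi)
    have hcoord : (t.centerMass w z) j = ∑ l ∈ t, w l * z l j := by
      rw [Finset.centerMass_eq_of_sum_1 _ _ hw1, Finset.sum_apply]
      simp
    rw [hcoord]
    have hz01 : ∀ l ∈ t, 0 ≤ z l j ∧ z l j ≤ 1 := by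
      intro l hl
      obtain ⟨u, hu, huz⟩ := hz l hl
      rw [← huz]
      rcases hS u hu j with h | h <;> simp [toR, h]
    have hyj : z i j = (y j : ℝ) := by rw [← hyz]; rfl
    have hlow : w i * z i j ≤ ∑ l ∈ t, w l * z l j :=
      Finset.single_le_sum (f := fun l => w l * z l j)
        (fun l hl => mul_nonneg (hw0 l hl) (hz01 l hl).1) hit
    have hup : w i * (1 - z i j) ≤ ∑ l ∈ t, w l * (1 - z l j) :=
      Finset.single_le_sum (f := fun l => w l * (1 - z l j))
        (fun l hl => mul_nonneg (hw0 l hl) (by linarith [(hz01 l hl).2])) hit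
    have hsum1 : ∑ l ∈ t, w l * (1 - z l j) = 1 - ∑ l ∈ t, w l * z l j := by
      simp_rw [mul_sub, mul_one]
      rw [Finset.sum_sub_distrib, hw1]
    rw [hsum1] at hup
    have h0 : 0 ≤ ∑ l ∈ t, w l * z l j :=
      Finset.sum_nonneg fun l hl => mul_nonneg (hw0 l hl) (hz01 l hl).1
    have h1 : 0 ≤ ∑ l ∈ t, w l * (1 - z l j) :=
      Finset.sum_nonneg fun l hl => mul_nonneg (hw0 l hl) (by linarith [(hz01 l hl).2])
    rw [hsum1] at h1
    rw [hyj] at hlow hup
    rw [abs_lt]
    rcases hS y hyS j with h | h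
    · rw [h] at hup ⊢
      push_cast at hup ⊢
      constructor <;> linarith
    · rw [h] at hlow ⊢
      push_cast at hlow ⊢
      constructor <;> linarith

end Q149.IC
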