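import Mathlib
import Pool.Agent.Q149.IC1

namespace Q149.IC

/-- The Fibonacci columns: for `J ≡ p (mod 2)` the interval `[0, F_J)`, otherwise the interval
`[F_{J-1}, F_{J+1})`. -/
def col (p i J : ℕ) : ℤ :=
  if J % 2 = p then (if i < Nat.fib J then 1 else 0)
  else (if Nat.fib (J - 1) ≤ i ∧ i < Nat.fib (J + 1) then 1 else 0)

theorem col_01 (p i J : ℕ) : col p i J = 0 ∨ col p i J = 1 := by
  unfold col
  split_ifs <;> simp

theorem col_rel (p i J : ℕ) (hJ : J % 2 = p) :
    col p i (J + 2) = col p i (J + 1) + col p i J := by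
  have h1 : (J + 2) % 2 = p := by omega
  have h2 : ¬ (J + 1) % 2 = p := by omega
  have h3 : Nat.fib J ≤ Nat.fib (J + 2) := Nat.fib_mono (by omega)
  unfold col
  rw [if_pos h1, if_neg h2, if_pos hJ]
  simp only [Nat.add_sub_cancel]
  rw [show J + 1 + 1 = J + 2 from rfl]
  split_ifs <;> first | rfl | (exfalso; omega)

theorem sum_col (p J N : ℕ) (hJ : 1 ≤ J) (hN : Nat.fib (J + 1) ≤ N) :
    ∑ i : Fin N, col p i J = Nat.fib J := by
  have hmono : Nat.fib J ≤ Nat.fib (J + 1) := Nat.fib_mono (by omega)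
  have hmono2 : Nat.fib (J - 1) ≤ Nat.fib (J + 1) := Nat.fib_mono (by omega)
  rw [Fin.sum_univ_eq_sum_range (fun i => col p i J) N]
  unfold col
  by_cases h : J % 2 = p
  · simp only [if_pos h]
    rw [← Finset.sum_filter, Finset.sum_const, nsmul_eq_mul, mul_one]
    have : (Finset.range N).filter (fun i => i < Nat.fib J) = Finset.range (Nat.fib J) := by
      ext i
      simp only [Finset.mem_filter, Finset.mem_range]
      omega
    rw [this, Finset.card_range]
  · simp only [if_neg h]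
    rw [← Finset.sum_filter, Finset.sum_const, nsmul_eq_mul, mul_one]
    have : (Finset.range N).filter (fun i => Nat.fib (J - 1) ≤ i ∧ i < Nat.fib (J + 1)) =
        Finset.Ico (Nat.fib (J - 1)) (Nat.fib (J + 1)) := by
      ext i
      simp only [Finset.mem_filter, Finset.mem_range, Finset.mem_Ico]
      omega
    rw [this, Nat.card_Ico]
    have h2 : Nat.fib (J + 1) = Nat.fib (J - 1) + Nat.fib J := by
      obtain ⟨t, rfl⟩ : ∃ t, J = t + 1 := ⟨J - 1, by omega⟩
      rw [Nat.fib_add_two]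
      simp
    rw [h2]
    simp

variable {d : ℕ}

/-- The vectors with coordinates `1, …, d` of the Fibonacci columns. -/
def vec (d p i : ℕ) : Fin d → ℤ := fun j => col p i (j + 1)

/-- The family of vectors `vec d p i`, `i < F_{d+1}`. -/
def fam (d p : ℕ) : Finset (Fin d → ℤ) := (Finset.range (Nat.fib (d + 1))).image (vec d p)

/-- Extension of a vector by `x_0 = 0` and `x_{d+1} = 1`. -/
def ext (x : Fin d → ℤ) (J : ℕ) : ℤ :=
  if h : 1 ≤ J ∧ J ≤ d then x ⟨J - 1, by omega⟩ else if J = 0 then 0 else 1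

theorem ext_sum {m : ℕ} (a : Fin m → (Fin d → ℤ)) (J : ℕ) (h : 1 ≤ J ∧ J ≤ d) :
    ∑ i, ext (a i) J = (∑ i, a i) ⟨J - 1, by omega⟩ := by
  rw [Finset.sum_apply]
  apply Finset.sum_congr rfl
  intro i _
  unfold ext
  rw [dif_pos h]

theorem ext_vec (p i J : ℕ) (hi : i < Nat.fib (d + 1)) (hJ : J ≤ d + 1)
    (hJ2 : J % 2 = p ∨ J ≤ d) (h0 : J = 0 → p = 0) : ext (vec d p i) J = col p i J := by
  unfold ext vec
  by_cases h : 1 ≤ J ∧ J ≤ d
  · rw [dif_pos h]
    simp only
    congr 1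
    omega
  · rw [dif_neg h]
    by_cases h1 : J = 0
    · have := h0 h1
      subst h1
      subst this
      simp [col]
    · have h2 : J = d + 1 := by omega
      rw [if_neg h1]
      have h3 : J % 2 = p := by omega
      unfold col
      rw [if_pos h3, h2, if_pos hi]

theorem ext_rel (p : ℕ) (x : Fin d → ℤ) (hx : x ∈ fam d p) (J : ℕ) (hJ : J + 1 ≤ d)
    (hp : J % 2 = p) : ext x (J + 2) = ext x (J + 1) + ext x J := by
  obtain ⟨i, hi, rfl⟩ := Finset.mem_image.mp hx
  rw [Finset.mem_range] at hi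
  rw [ext_vec p i (J + 2) hi (by omega) (Or.inl (by omega)) (by omega),
    ext_vec p i (J + 1) hi (by omega) (Or.inr (by omega)) (by omega),
    ext_vec p i J hi (by omega) (Or.inr (by omega)) (by omega)]
  exact col_rel p i J hp

theorem fam_parallelogram (d : ℕ) :
    ParallelogramCondition (Nat.fib (d + 1) - 1) (fam d 1 : Set (Fin d → ℤ))
      (fam d 0 : Set (Fin d → ℤ)) := by
  intro m hm1 hm2 a b ha hb hsum
  set Y : ℕ → ℤ := fun J => ∑ i, ext (a i) J with hY
  have hYb : ∀ J, Y J = ∑ i, ext (b i) J := by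
    intro J
    by_cases h : 1 ≤ J ∧ J ≤ d
    · rw [ext_sum b J h, ← hsum, ← ext_sum a J h]
    · simp only [hY]
      apply Finset.sum_congr rfl
      intro i _
      unfold ext
      rw [dif_neg h, dif_neg h]
  have hrel : ∀ J, J + 1 ≤ d → Y (J + 2) = Y (J + 1) + Y J := by
    intro J hJ
    rcases Nat.mod_two_eq_zero_or_one J with h | h
    · rw [hYb, hYb, hYb, ← Finset.sum_add_distrib]
      apply Finset.sum_congr rfl
      intro i _
      exact ext_rel 0 _ (Finset.mem_coe.mp (hb i)) J hJ h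
    · simp only [hY]
      rw [← Finset.sum_add_distrib]
      apply Finset.sum_congr rfl
      intro i _
      exact ext_rel 1 _ (Finset.mem_coe.mp (ha i)) J hJ h
  have hY0 : Y 0 = 0 := by
    simp only [hY]
    apply Finset.sum_eq_zero
    intro i _
    simp [ext]
  have hYtop : Y (d + 1) = m := by
    simp only [hY]
    have : ∀ i, ext (a i) (d + 1) = 1 := by
      intro i
      unfold ext
      rw [dif_neg (by omega), if_neg (by omega)]
    simp [this]
  have hfib : ∀ J, J ≤ d → Y J = Nat.fib J * Y 1 ∧ Y (J + 1) = Nat.fib (J + 1) * Y 1 := by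
    intro J
    induction J with
    | zero => intro _; simp [hY0]
    | succ J ih =>
      intro hJ
      obtain ⟨h1, h2⟩ := ih (by omega)
      refine ⟨h2, ?_⟩
      rw [hrel J hJ, h1, h2, Nat.fib_add_two]
      push_cast
      ring
  have htop := (hfib d le_rfl).2
  rw [hYtop] at htop
  have hY1 : 1 ≤ Y 1 := by
    by_contra hcon
    push Not at hcon
    have h1 : Y 1 ≤ 0 := by omega
    have h2 : (m : ℤ) ≤ 0 := by
      rw [htop]
      exact mul_nonpos_of_nonneg_of_nonpos (by positivity) h1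
    omega
  have h3 : (Nat.fib (d + 1) : ℤ) ≤ m := by
    rw [htop]
    have : (0 : ℤ) ≤ Nat.fib (d + 1) := by positivity
    nlinarith
  have h4 : Nat.fib (d + 1) ≤ m := by exact_mod_cast h3
  have h5 : 0 < Nat.fib (d + 1) := Nat.fib_pos.mpr (by omega)
  omega

theorem fam_relation (d : ℕ) :
    ∑ i : Fin (Nat.fib (d + 1)), vec d 1 i = ∑ i : Fin (Nat.fib (d + 1)), vec d 0 i := by
  funext j
  rw [Finset.sum_apply, Finset.sum_apply]
  unfold vec
  have hle : Nat.fib (j + 1 + 1) ≤ Nat.fib (d + 1) := Nat.fib_mono (by omega)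
  rw [sum_col 1 (j + 1) _ (by omega) hle, sum_col 0 (j + 1) _ (by omega) hle]

theorem fib_ge (d : ℕ) (hd : 4 ≤ d) : d ≤ Nat.fib (d + 1) - 1 := by
  have h : ∀ n, 4 ≤ n → n + 1 ≤ Nat.fib (n + 1) ∧ n + 2 ≤ Nat.fib (n + 2) := by
    intro n hn
    induction n, hn using Nat.le_induction with
    | base => decide
    | succ n hn ih =>
      refine ⟨ih.2, ?_⟩
      have := @Nat.fib_add_two (n + 1)
      have e : n + 1 + 2 = n + 3 := by ring
      rw [this]
      have := ih.1
      have := ih.2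
      have e2 : n + 1 + 1 = n + 2 := by ring
      rw [e2]
      omega
  have := (h d hd).1
  omega

theorem main (d : ℕ) (hd : 4 ≤ d) : ∃ A B : Finset (Fin d → ℤ),
    A.Nonempty ∧ B.Nonempty ∧ Disjoint A B ∧
    (∀ x ∈ A ∪ B, ∀ i, x i = 0 ∨ x i = 1) ∧
    ParallelogramCondition (Nat.fib (d + 1) - 1) (A : Set (Fin d → ℤ)) (B : Set (Fin d → ℤ)) ∧
    ¬ ConditionH (A : Set (Fin d → ℤ)) (B : Set (Fin d → ℤ)) := by
  have hpos : 0 < Nat.fib (d + 1) := Nat.fib_pos.mpr (by omega)
  have hpar := fam_parallelogram d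
  have hge := fib_ge d hd
  have hdisj : Disjoint (fam d 1) (fam d 0) := by
    rw [Finset.disjoint_left]
    intro x h1 h0
    exact hpar 1 le_rfl (by omega) (fun _ => x) (fun _ => x) (fun _ => Finset.mem_coe.mpr h1)
      (fun _ => Finset.mem_coe.mpr h0) rfl
  have hmem : ∀ (p : ℕ) (i : Fin (Nat.fib (d + 1))),
      vec d p i ∈ (fam d p : Set (Fin d → ℤ)) := by
    intro p i
    apply Finset.mem_coe.mpr
    exact Finset.mem_image.mpr ⟨i, Finset.mem_range.mpr i.2, rfl⟩
  refine ⟨fam d 1, fam d 0, ⟨vec d 1 0, ?_⟩, ⟨vec d 0 0, ?_⟩, hdisj, ?_, hpar, ?_⟩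
  · exact Finset.mem_coe.mp (hmem 1 ⟨0, hpos⟩)
  · exact Finset.mem_coe.mp (hmem 0 ⟨0, hpos⟩)
  · intro x hx i
    rcases Finset.mem_union.mp hx with h | h
    · obtain ⟨t, _, rfl⟩ := Finset.mem_image.mp h
      exact col_01 _ _ _
    · obtain ⟨t, _, rfl⟩ := Finset.mem_image.mp h
      exact col_01 _ _ _
  · intro hH
    exact no_relation_of_conditionH _ _ (Finset.disjoint_coe.mpr hdisj) hH (Nat.fib (d + 1))
      (by omega) _ _ (hmem 1) (hmem 0) (fam_relation d)

end Q149.IC
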