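import Mathlib

set_option autoImplicit false

/-!
Minimal subgraphs of the integer lattice: the definitions of the problem MP_f12303_co.
-/

namespace Q149.Lat

/-- Two integer points are adjacent when their Euclidean distance is `1`. -/
def Adj {n : ℕ} (x y : Fin n → ℤ) : Prop := ∑ i, (x i - y i) ^ 2 = 1

/-- The vertex boundary `δΩ`. -/
def vertexBoundary {n : ℕ} (Ω : Set (Fin n → ℤ)) : Set (Fin n → ℤ) :=
  {x | x ∈ Ω ∧ ∃ y, y ∉ Ω ∧ Adj x y}

/-- The exterior vertex boundary `τΩ`. -/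
def exteriorBoundary {n : ℕ} (Ω : Set (Fin n → ℤ)) : Set (Fin n → ℤ) :=
  {z | z ∉ Ω ∧ ∃ w, w ∈ Ω ∧ Adj z w}

/-- The closure `Ω ∪ τΩ`. -/
def closure {n : ℕ} (Ω : Set (Fin n → ℤ)) : Set (Fin n → ℤ) := Ω ∪ exteriorBoundary Ω

/-- The edge boundary `∂Ω`: the edges with exactly one endpoint in `Ω`. -/
def edgeBoundary {n : ℕ} (Ω : Set (Fin n → ℤ)) : Set (Sym2 (Fin n → ℤ)) :=
  {e | ∃ x y, Adj x y ∧ x ∈ Ω ∧ y ∉ Ω ∧ e = s(x, y)}

/-- The edges `{x, y}` with `x ∈ Ω` and `y` in the closure of `Ω`. -/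
def edgesOf {n : ℕ} (Ω : Set (Fin n → ℤ)) : Set (Sym2 (Fin n → ℤ)) :=
  {e | ∃ x y, Adj x y ∧ x ∈ Ω ∧ y ∈ closure Ω ∧ e = s(x, y)}

/-- `K` has least perimeter in `U`. -/
def LeastPerimeter {n : ℕ} (U K : Set (Fin n → ℤ)) : Prop :=
  K ⊆ closure U ∧ ∀ K' : Set (Fin n → ℤ), K' ⊆ closure U →
    K' ∩ exteriorBoundary U = K ∩ exteriorBoundary U →
    (edgeBoundary K ∩ edgesOf U).encard ≤ (edgeBoundary K' ∩ edgesOf U).encard

/-- A minimal subgraph of the lattice: a proper nonempty set of vertices which has least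
perimeter in every finite set. -/
def IsMinimalSubgraph {n : ℕ} (M : Set (Fin n → ℤ)) : Prop :=
  M.Nonempty ∧ M ≠ Set.univ ∧ ∀ U : Set (Fin n → ℤ), U.Finite → LeastPerimeter U (M ∩ closure U)

/-- The integer points of the cube of half-side `r` around `x`. -/
def cube {n : ℕ} (x : Fin n → ℤ) (r : ℝ) : Set (Fin n → ℤ) :=
  {y | ∀ i, |(y i : ℝ) - (x i : ℝ)| ≤ r}

end Q149.Lat
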