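import Pool.Agent.Q149.LatDefs
import Pool.Agent.Q149.LatLW

set_option autoImplicit false

/-!
Density estimates for minimal subgraphs of the integer lattice.
-/

namespace Q149.Lat

open Function Finset

variable {n : ℕ}

lemma adj_iff (x y : Fin n → ℤ) :
    Adj x y ↔ ∃ i, (y = update x i (x i + 1) ∨ y = update x i (x i - 1)) := by
  constructor
  · intro h
    have h0 : ∃ i, x i ≠ y i := by
      by_contra hc
      push Not at hc
      have : ∑ i, (x i - y i) ^ 2 = 0 := Finset.sum_eq_zero (fun i _ => by rw [hc i]; ring)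
      rw [Adj, this] at h
      exact zero_ne_one h
    obtain ⟨i, hi⟩ := h0
    have h1 := Finset.add_sum_erase Finset.univ (fun i => (x i - y i) ^ 2) (Finset.mem_univ i)
    rw [Adj] at h
    rw [h] at h1
    have h2 : 0 < (x i - y i) ^ 2 := by
      have : x i - y i ≠ 0 := sub_ne_zero.2 hi
      positivity
    have h3 : 0 ≤ ∑ j ∈ Finset.univ.erase i, (x j - y j) ^ 2 :=
      Finset.sum_nonneg (fun j _ => sq_nonneg _)
    have h4 : ∑ j ∈ Finset.univ.erase i, (x j - y j) ^ 2 = 0 := by omega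
    have h5 : (x i - y i) ^ 2 = 1 := by omega
    rw [sq, mul_self_eq_one_iff] at h5
    have h6 : ∀ j, j ≠ i → y j = x j := by
      intro j hj
      have := (Finset.sum_eq_zero_iff_of_nonneg (fun j _ => sq_nonneg (x j - y j))).1 h4 j
        (Finset.mem_erase.2 ⟨hj, Finset.mem_univ _⟩)
      have h7 : x j - y j = 0 := by simpa using this
      omega
    refine ⟨i, ?_⟩
    rcases h5 with h8 | h8
    · right
      ext j
      by_cases hj : j = i
      · subst hj; rw [update_self]; omega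
      · rw [update_of_ne hj, h6 j hj]
    · left
      ext j
      by_cases hj : j = i
      · subst hj; rw [update_self]; omega
      · rw [update_of_ne hj, h6 j hj]
  · rintro ⟨i, h | h⟩ <;>
    · rw [Adj, Finset.sum_eq_single i]
      · rw [h, update_self]; ring
      · intro j _ hj
        rw [h, update_of_ne hj]; ring
      · simp

lemma adj_comm {x y : Fin n → ℤ} (h : Adj x y) : Adj y x := by
  rw [Adj] at h ⊢
  rw [← h]
  exact Finset.sum_congr rfl (fun i _ => by ring)

/-- The discrete cube with centre `x` and half-side `N`. -/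
noncomputable def Q (x : Fin n → ℤ) (N : ℕ) : Finset (Fin n → ℤ) :=
  Finset.Icc (fun i => x i - N) (fun i => x i + N)

lemma mem_Q {x : Fin n → ℤ} {N : ℕ} {y : Fin n → ℤ} :
    y ∈ Q x N ↔ ∀ i, x i - N ≤ y i ∧ y i ≤ x i + N := by
  rw [Q, Finset.mem_Icc, Pi.le_def, Pi.le_def, forall_and]

lemma card_Q (x : Fin n → ℤ) (N : ℕ) : (Q x N).card = (2 * N + 1) ^ n := by
  rw [Q, Pi.card_Icc, Finset.prod_congr rfl (g := fun _ => 2 * N + 1)]
  · simp
  · intro i _
    rw [Int.card_Icc]
    omega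

/-- Projection to the cube. -/
def clamp (x : Fin n → ℤ) (N : ℕ) (w : Fin n → ℤ) : Fin n → ℤ :=
  fun i => max (x i - N) (min (x i + N) (w i))

/-- A neighbour in the cube of a point outside the cube is its projection. -/
lemma clamp_eq {x : Fin n → ℤ} {N : ℕ} {u w : Fin n → ℤ} (hw : w ∉ Q x N) (hu : u ∈ Q x N)
    (h : Adj u w) : clamp x N w = u := by
  rw [adj_iff] at h
  rw [mem_Q] at hw hu
  push Not at hw
  obtain ⟨j, hj⟩ := hw
  obtain ⟨i, hi⟩ := h
  have hji : j = i := by
    by_contra hne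
    have e : w j = u j := by
      rcases hi with hi | hi <;> rw [hi, update_of_ne hne]
    have := hu j
    have := hj (by omega)
    omega
  subst hji
  ext k
  by_cases hk : k = j
  · subst hk
    have e : w k = u k + 1 ∨ w k = u k - 1 := by
      rcases hi with hi | hi
      · left; rw [hi, update_self]
      · right; rw [hi, update_self]
    have h1 := hu k
    rw [clamp]
    rcases le_or_gt (x k - N) (w k) with h2 | h2
    · have := hj h2
      omega
    · omega
  · have e : w k = u k := by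
      rcases hi with hi | hi <;> rw [hi, update_of_ne hk]
    have h1 := hu k
    rw [clamp]
    omega

/-- The neighbours of the cube lie in the next cube. -/
lemma ext_Q {x : Fin n → ℤ} {N : ℕ} {w : Fin n → ℤ}
    (hw : w ∈ exteriorBoundary (Q x N : Set (Fin n → ℤ))) : w ∈ Q x (N + 1) ∧ w ∉ Q x N := by
  obtain ⟨h1, u, hu, h⟩ := hw
  refine ⟨?_, h1⟩
  rw [Finset.mem_coe, mem_Q] at hu
  rw [mem_Q]
  rw [adj_iff] at h
  obtain ⟨i, hi⟩ := h
  intro j
  have h2 := hu j
  push_cast
  by_cases hj : j = i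
  · subst hj
    rcases hi with hi | hi
    · rw [hi, update_self] at h2; omega
    · rw [hi, update_self] at h2; omega
  · rcases hi with hi | hi
    · rw [hi, update_of_ne hj] at h2; omega
    · rw [hi, update_of_ne hj] at h2; omega

open Classical in
/-- The part of `M` in the cube. -/
noncomputable def part (M : Set (Fin n → ℤ)) (x : Fin n → ℤ) (N : ℕ) : Finset (Fin n → ℤ) :=
  (Q x N).filter (· ∈ M)

lemma mem_part {M : Set (Fin n → ℤ)} {x : Fin n → ℤ} {N : ℕ} {y : Fin n → ℤ} :
    y ∈ part M x N ↔ y ∈ Q x N ∧ y ∈ M := by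
  classical
  rw [part, Finset.mem_filter]

lemma Q_mono {x : Fin n → ℤ} {N N' : ℕ} (h : N ≤ N') : Q x N ⊆ Q x N' := by
  intro y hy
  rw [mem_Q] at hy ⊢
  intro i
  have := hy i
  omega

open Classical in
/-- The points of `M` in the exterior boundary of the cube. -/
noncomputable def shell (M : Set (Fin n → ℤ)) (x : Fin n → ℤ) (N : ℕ) : Finset (Fin n → ℤ) :=
  (Q x (N + 1)).filter (fun w => w ∈ M ∧ w ∈ exteriorBoundary (Q x N : Set (Fin n → ℤ)))

lemma mem_shell {M : Set (Fin n → ℤ)} {x : Fin n → ℤ} {N : ℕ} {w : Fin n → ℤ} :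
    w ∈ shell M x N ↔ w ∈ M ∧ w ∈ exteriorBoundary (Q x N : Set (Fin n → ℤ)) := by
  classical
  rw [shell, Finset.mem_filter]
  constructor
  · exact fun h => h.2
  · exact fun h => ⟨(ext_Q h.2).1, h⟩

lemma part_add_shell (M : Set (Fin n → ℤ)) (x : Fin n → ℤ) (N : ℕ) :
    (part M x N).card + (shell M x N).card ≤ (part M x (N + 1)).card := by
  classical
  rw [← Finset.card_union_of_disjoint]
  · apply Finset.card_le_card
    intro y hy
    rw [Finset.mem_union] at hy
    rcases hy with hy | hy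
    · rw [mem_part] at hy ⊢
      exact ⟨Q_mono (Nat.le_succ _) hy.1, hy.2⟩
    · rw [mem_shell] at hy
      rw [mem_part]
      exact ⟨(ext_Q hy.2).1, hy.1⟩
  · rw [Finset.disjoint_left]
    intro y h1 h2
    rw [mem_part] at h1
    rw [mem_shell] at h2
    exact (ext_Q h2.2).2 h1.1

lemma per_shell (M : Set (Fin n → ℤ)) (x : Fin n → ℤ) (N : ℕ) :
    (edgeBoundary (M ∩ exteriorBoundary (Q x N : Set (Fin n → ℤ))) ∩
      edgesOf (Q x N : Set (Fin n → ℤ))).encard ≤ ((shell M x N).card : ℕ∞) := by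
  classical
  have hsub : edgeBoundary (M ∩ exteriorBoundary (Q x N : Set (Fin n → ℤ))) ∩
      edgesOf (Q x N : Set (Fin n → ℤ)) ⊆
      ((shell M x N).image (fun w => s(clamp x N w, w)) : Finset (Sym2 (Fin n → ℤ))) := by
    rintro e ⟨⟨a, b, hab, ha, hb, rfl⟩, ⟨u, v, huv, hu, hv, he⟩⟩
    rw [Finset.coe_image]
    have haQ : a ∉ (Q x N : Set (Fin n → ℤ)) := ha.2.1
    rw [Sym2.eq_iff] at he
    rcases he with ⟨rfl, rfl⟩ | ⟨rfl, rfl⟩
    · exact absurd hu haQ
    · refine ⟨a, Finset.mem_coe.2 (mem_shell.2 ha), ?_⟩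
      simp only
      rw [clamp_eq (fun h => haQ h) (Finset.mem_coe.1 hu) huv, Sym2.eq_swap]
  refine (Set.encard_le_encard hsub).trans ?_
  rw [Set.encard_coe_eq_coe_finsetCard]
  exact_mod_cast Finset.card_image_le

lemma min_per {M : Set (Fin n → ℤ)} (hM : IsMinimalSubgraph M) (x : Fin n → ℤ) (N : ℕ) :
    (edgeBoundary (M ∩ closure (Q x N : Set (Fin n → ℤ))) ∩
      edgesOf (Q x N : Set (Fin n → ℤ))).encard ≤ ((shell M x N).card : ℕ∞) := by
  refine le_trans ?_ (per_shell M x N)
  refine (hM.2.2 (Q x N : Set (Fin n → ℤ)) (Finset.finite_toSet _)).2 _ ?_ ?_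
  · exact fun w hw => Or.inr hw.2
  · ext w
    constructor
    · rintro ⟨⟨h1, h2⟩, h3⟩
      exact ⟨⟨h1, Or.inr h2⟩, h3⟩
    · rintro ⟨⟨h1, h2⟩, h3⟩
      exact ⟨⟨h1, h3⟩, h3⟩

open Classical in
/-- The points of the part which are not below another point of the part in direction `i`. -/
noncomputable def top (M : Set (Fin n → ℤ)) (x : Fin n → ℤ) (N : ℕ) (i : Fin n) :
    Finset (Fin n → ℤ) :=
  (part M x N).filter (fun a => update a i (a i + 1) ∉ part M x N)

lemma mem_top {M : Set (Fin n → ℤ)} {x : Fin n → ℤ} {N : ℕ} {i : Fin n} {a : Fin n → ℤ} :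
    a ∈ top M x N i ↔ a ∈ part M x N ∧ update a i (a i + 1) ∉ part M x N := by
  classical
  rw [top, Finset.mem_filter]

lemma proj_le_top (M : Set (Fin n → ℤ)) (x : Fin n → ℤ) (N : ℕ) (i : Fin n) :
    ((part M x N).image (fun z => update z i 0)).card ≤ (top M x N i).card := by
  classical
  refine le_trans (Finset.card_le_card ?_)
    (Finset.card_image_le (s := top M x N i) (f := fun z => update z i 0))
  intro p hp
  rw [Finset.mem_image] at hp
  obtain ⟨a, ha, rfl⟩ := hp
  set F := (part M x N).filter (fun z => update z i 0 = update a i 0) with hF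
  have hne : F.Nonempty := ⟨a, by rw [hF, Finset.mem_filter]; exact ⟨ha, rfl⟩⟩
  obtain ⟨b, hb, hmax⟩ := Finset.exists_max_image F (fun z => z i) hne
  rw [hF, Finset.mem_filter] at hb
  rw [Finset.mem_image]
  refine ⟨b, ?_, hb.2⟩
  rw [mem_top]
  refine ⟨hb.1, fun hc => ?_⟩
  have h1 : update b i (b i + 1) ∈ F := by
    rw [hF, Finset.mem_filter]
    refine ⟨hc, ?_⟩
    rw [update_idem, hb.2]
  have h2 := hmax _ h1
  simp only [update_self] at h2
  omega

lemma adj_up (a : Fin n → ℤ) (i : Fin n) : Adj a (update a i (a i + 1)) :=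
  (adj_iff _ _).2 ⟨i, Or.inl rfl⟩

lemma update_up_inj {a : Fin n → ℤ} {i j : Fin n}
    (h : update a i (a i + 1) = update a j (a j + 1)) : i = j := by
  by_contra hne
  have := congrFun h i
  rw [update_self, update_of_ne hne] at this
  omega

lemma sum_top {M : Set (Fin n → ℤ)} (hM : IsMinimalSubgraph M) (x : Fin n → ℤ) (N : ℕ) :
    ∑ i, (top M x N i).card ≤ 2 * (shell M x N).card := by
  classical
  set T1 : Fin n → Finset (Fin n → ℤ) := fun i =>
    (top M x N i).filter (fun a => update a i (a i + 1) ∉ M) with hT1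
  set T2 : Fin n → Finset (Fin n → ℤ) := fun i =>
    (top M x N i).filter (fun a => ¬ update a i (a i + 1) ∉ M) with hT2
  have hsum : ∑ i, (top M x N i).card = ∑ i, (T1 i).card + ∑ i, (T2 i).card := by
    rw [← Finset.sum_add_distrib]
    refine Finset.sum_congr rfl (fun i _ => ?_)
    rw [hT1, hT2]
    exact (Finset.card_filter_add_card_filter_not _).symm
  have h1 : ∑ i, (T1 i).card ≤ (shell M x N).card := by
    rw [← Finset.card_sigma]
    have h2 : (((Finset.univ.sigma T1 : Finset (Σ _ : Fin n, (Fin n → ℤ))).card : ℕ) : ℕ∞) ≤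
        ((shell M x N).card : ℕ∞) := by
      refine le_trans ?_ (min_per hM x N)
      rw [← Set.encard_coe_eq_coe_finsetCard]
      refine Set.encard_le_encard_of_injOn
        (f := fun p : (Σ _ : Fin n, (Fin n → ℤ)) => s(p.2, update p.2 p.1 (p.2 p.1 + 1))) ?_ ?_
      · rintro ⟨i, a⟩ hp
        rw [Finset.mem_coe, Finset.mem_sigma, hT1, Finset.mem_filter, mem_top, mem_part] at hp
        obtain ⟨-, ⟨⟨haQ, haM⟩, -⟩, hu⟩ := hp
        simp only at haQ haM hu ⊢
        refine ⟨⟨a, _, adj_up a i, ⟨haM, Or.inl haQ⟩, fun h => hu h.1, rfl⟩,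
          ⟨a, _, adj_up a i, haQ, ?_, rfl⟩⟩
        by_cases hq : update a i (a i + 1) ∈ (Q x N : Set (Fin n → ℤ))
        · exact Or.inl hq
        · exact Or.inr ⟨hq, a, haQ, adj_comm (adj_up a i)⟩
      · rintro ⟨i, a⟩ hp ⟨j, b⟩ hq he
        rw [Finset.mem_coe, Finset.mem_sigma, hT1, Finset.mem_filter, mem_top, mem_part] at hp hq
        obtain ⟨-, ⟨⟨haQ, haM⟩, -⟩, hu⟩ := hp
        obtain ⟨-, ⟨⟨hbQ, hbM⟩, -⟩, hv⟩ := hq
        simp only at he haM hbM hu hv
        rw [Sym2.eq_iff] at he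
        rcases he with ⟨rfl, h4⟩ | ⟨h4, h5⟩
        · have := update_up_inj h4
          subst this
          rfl
        · exact absurd (h4 ▸ haM) hv
    exact_mod_cast h2
  have h2 : ∑ i, (T2 i).card ≤ (shell M x N).card := by
    rw [← Finset.card_sigma]
    refine Finset.card_le_card_of_injOn
      (fun p : (Σ _ : Fin n, (Fin n → ℤ)) => update p.2 p.1 (p.2 p.1 + 1)) ?_ ?_
    · rintro ⟨i, a⟩ hp
      rw [Finset.mem_coe, Finset.mem_sigma, hT2, Finset.mem_filter, mem_top, mem_part] at hp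
      obtain ⟨-, ⟨⟨haQ, haM⟩, h3⟩, hu⟩ := hp
      simp only [not_not] at haQ haM h3 hu ⊢
      rw [Finset.mem_coe, mem_shell]
      refine ⟨hu, fun h => h3 (mem_part.2 ⟨h, hu⟩), a, haQ, adj_comm (adj_up a i)⟩
    · rintro ⟨i, a⟩ hp ⟨j, b⟩ hq he
      rw [Finset.mem_coe, Finset.mem_sigma, hT2, Finset.mem_filter, mem_top, mem_part] at hp hq
      obtain ⟨-, ⟨⟨haQ, haM⟩, h3⟩, hu⟩ := hp
      obtain ⟨-, ⟨⟨hbQ, hbM⟩, h4⟩, hv⟩ := hq
      simp only [not_not] at haQ haM hbQ hbM h3 h4 hu hv he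
      have e1 := clamp_eq (fun h => h3 (mem_part.2 ⟨h, hu⟩)) haQ (adj_up a i)
      have e2 := clamp_eq (fun h => h4 (mem_part.2 ⟨h, hv⟩)) hbQ (adj_up b j)
      rw [he, e2] at e1
      subst e1
      have := update_up_inj he
      subst this
      rfl
  omega

/-- The basic differential inequality. -/
lemma key {M : Set (Fin n → ℤ)} (hM : IsMinimalSubgraph M) (hn : 2 ≤ n) (x : Fin n → ℤ) (N : ℕ) :
    (part M x N).card ^ (n - 1) ≤
      (2 * ((part M x (N + 1)).card - (part M x N).card)) ^ n := by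
  refine (grid_pow hn (part M x N)).trans (Nat.pow_le_pow_left ?_ n)
  have h1 : ∑ i : Fin n, ((part M x N).image (fun z => update z i 0)).card ≤
      ∑ i, (top M x N i).card := Finset.sum_le_sum (fun i _ => proj_le_top M x N i)
  have h2 := sum_top hM x N
  have h3 := part_add_shell M x N
  omega

end Q149.Lat
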