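import Pool.Agent.Q149.LatProof

set_option autoImplicit false

/-!
Density estimates for minimal subgraphs of the integer lattice, second part.
-/

namespace Q149.Lat

open Function Finset

variable {n : ℕ}

lemma pow_succ_le (m : ℝ) (hm : 1 ≤ m) : ∀ k : ℕ,
    (m + 1) ^ (k + 1) ≤ m ^ (k + 1) + (2 ^ (k + 1) - 1) * m ^ k
  | 0 => by norm_num
  | k + 1 => by
    have h := pow_succ_le m hm k
    have h0 : (0 : ℝ) ≤ m := by linarith
    have h1 : m ^ k ≤ m ^ (k + 1) := pow_le_pow_right₀ hm (Nat.le_succ k)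
    have h2 : (1 : ℝ) ≤ 2 ^ (k + 1) := one_le_pow₀ (by norm_num)
    have h3 : (2 ^ (k + 1) - 1) * m ^ k ≤ (2 ^ (k + 1) - 1) * m ^ (k + 1) :=
      mul_le_mul_of_nonneg_left h1 (by linarith)
    calc (m + 1) ^ (k + 1 + 1) = (m + 1) ^ (k + 1) * (m + 1) := pow_succ _ _
      _ ≤ (m ^ (k + 1) + (2 ^ (k + 1) - 1) * m ^ k) * (m + 1) :=
          mul_le_mul_of_nonneg_right h (by linarith)
      _ = m ^ (k + 1 + 1) + m ^ (k + 1) + (2 ^ (k + 1) - 1) * m ^ (k + 1) +
          (2 ^ (k + 1) - 1) * m ^ k := by ring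
      _ ≤ m ^ (k + 1 + 1) + m ^ (k + 1) + (2 ^ (k + 1) - 1) * m ^ (k + 1) +
          (2 ^ (k + 1) - 1) * m ^ (k + 1) := by linarith
      _ = m ^ (k + 1 + 1) + (2 ^ (k + 1 + 1) - 1) * m ^ (k + 1) := by ring

/-- Volume growth. -/
lemma growth {M : Set (Fin n → ℤ)} (hM : IsMinimalSubgraph M) (hn : 2 ≤ n) {x : Fin n → ℤ}
    (hx : x ∈ M) : ∀ N : ℕ, ((1 / 2 : ℝ) ^ (n + 1) * (N + 1)) ^ n ≤ ((part M x N).card : ℝ)
  | 0 => by
    have h1 : x ∈ part M x 0 := by
      rw [mem_part, mem_Q]
      exact ⟨fun i => by simp, hx⟩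
    have h2 : 1 ≤ (part M x 0).card := Finset.card_pos.2 ⟨x, h1⟩
    have h3 : (1 : ℝ) ≤ ((part M x 0).card : ℝ) := by exact_mod_cast h2
    refine le_trans ?_ h3
    refine pow_le_one₀ (by positivity) ?_
    simp only [Nat.cast_zero, zero_add, mul_one]
    exact pow_le_one₀ (by norm_num) (by norm_num)
  | N + 1 => by
    have ih := growth hM hn hx N
    have hk := key hM hn x N
    have hadd := part_add_shell M x N
    obtain ⟨k, rfl⟩ : ∃ k, n = k + 1 := ⟨n - 1, by omega⟩
    set c : ℝ := (1 / 2 : ℝ) ^ (k + 1 + 1) with hc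
    have hc0 : 0 < c := by positivity
    set m : ℝ := (N : ℝ) + 1 with hm
    have hm1 : 1 ≤ m := by
      have : (0 : ℝ) ≤ N := Nat.cast_nonneg N
      linarith
    set W : ℕ := (part M x N).card with hW
    set W' : ℕ := (part M x (N + 1)).card with hW'
    have hWW : W ≤ W' := by omega
    have hk' : (W : ℝ) ^ k ≤ (2 * ((W' : ℝ) - W)) ^ (k + 1) := by
      have h1 : W ^ k ≤ (2 * (W' - W)) ^ (k + 1) := by simpa using hk
      have h2 : ((W ^ k : ℕ) : ℝ) ≤ (((2 * (W' - W)) ^ (k + 1) : ℕ) : ℝ) := by exact_mod_cast h1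
      push_cast [Nat.cast_sub hWW] at h2
      exact h2
    have hD : (0 : ℝ) ≤ (W' : ℝ) - W := by
      have : (W : ℝ) ≤ W' := by exact_mod_cast hWW
      linarith
    have h1 : (c * m) ^ k ≤ 2 * ((W' : ℝ) - W) := by
      rw [← pow_le_pow_iff_left₀ (by positivity) (by positivity) (Nat.succ_ne_zero k)]
      refine le_trans ?_ hk'
      rw [← pow_mul, mul_comm k, pow_mul]
      exact pow_le_pow_left₀ (by positivity) ih k
    have h2 := pow_succ_le m hm1 k
    have h3 : (c * (m + 1)) ^ (k + 1) ≤ (c * m) ^ (k + 1) + (c * m) ^ k / 2 := by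
      have h4 : c * (2 ^ (k + 1) - 1) ≤ 1 / 2 := by
        have : c * 2 ^ (k + 1) = 1 / 2 := by
          rw [hc, pow_succ (1 / 2 : ℝ) (k + 1), mul_right_comm, ← mul_pow]
          norm_num
        nlinarith
      calc (c * (m + 1)) ^ (k + 1) = c ^ (k + 1) * (m + 1) ^ (k + 1) := mul_pow _ _ _
        _ ≤ c ^ (k + 1) * (m ^ (k + 1) + (2 ^ (k + 1) - 1) * m ^ k) :=
            mul_le_mul_of_nonneg_left h2 (by positivity)
        _ = (c * m) ^ (k + 1) + (c * m) ^ k * (c * (2 ^ (k + 1) - 1)) := by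
            rw [mul_pow, mul_pow]; ring
        _ ≤ (c * m) ^ (k + 1) + (c * m) ^ k * (1 / 2) := by
            have : 0 ≤ (c * m) ^ k := by positivity
            nlinarith
        _ = _ := by ring
    have h5 : (c * (m + 1)) ^ (k + 1) ≤ (W' : ℝ) := by linarith
    have e : ((N + 1 : ℕ) : ℝ) + 1 = m + 1 := by push_cast; ring
    rw [e]
    exact h5

lemma closure_of_edge {U : Set (Fin n → ℤ)} {a b : Fin n → ℤ} (h : s(a, b) ∈ edgesOf U) :
    a ∈ closure U ∧ b ∈ closure U := by
  obtain ⟨u, v, -, hu, hv, he⟩ := h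
  rw [Sym2.eq_iff] at he
  rcases he with ⟨rfl, rfl⟩ | ⟨rfl, rfl⟩
  · exact ⟨Or.inl hu, hv⟩
  · exact ⟨hv, Or.inl hu⟩

lemma compl_sub (U K : Set (Fin n → ℤ)) :
    edgeBoundary (closure U \ K) ∩ edgesOf U ⊆ edgeBoundary K ∩ edgesOf U := by
  rintro e ⟨⟨a, b, hab, ha, hb, rfl⟩, he⟩
  refine ⟨⟨b, a, adj_comm hab, ?_, ha.2, Sym2.eq_swap⟩, he⟩
  by_contra hbK
  exact hb ⟨(closure_of_edge he).2, hbK⟩

lemma compl_eq (U K : Set (Fin n → ℤ)) (hK : K ⊆ closure U) :
    edgeBoundary (closure U \ K) ∩ edgesOf U = edgeBoundary K ∩ edgesOf U := by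
  apply Set.Subset.antisymm (compl_sub U K)
  have h := compl_sub U (closure U \ K)
  rwa [Set.sdiff_sdiff_cancel_left hK] at h

/-- The complement of a minimal subgraph is minimal. -/
lemma compl_minimal {M : Set (Fin n → ℤ)} (hM : IsMinimalSubgraph M) : IsMinimalSubgraph Mᶜ := by
  refine ⟨Set.nonempty_compl.2 hM.2.1, ?_, fun U hU => ⟨Set.inter_subset_right, ?_⟩⟩
  · intro h
    obtain ⟨x, hx⟩ := hM.1
    have : x ∈ Mᶜ := by rw [h]; trivial
    exact this hx
  · intro K' hK' hK
    have h1 := (hM.2.2 U hU).2 (closure U \ K') Set.sdiff_subset ?_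
    · have e : Mᶜ ∩ closure U = closure U \ (M ∩ closure U) := by
        ext w
        simp only [Set.mem_inter_iff, Set.mem_compl_iff, Set.mem_sdiff]
        tauto
      rw [e, compl_eq U _ Set.inter_subset_right, ← compl_eq U K' hK']
      exact h1
    · ext w
      have h2 := Set.ext_iff.1 hK w
      simp only [Set.mem_inter_iff, Set.mem_compl_iff, Set.mem_sdiff] at h2 ⊢
      have h3 : w ∈ exteriorBoundary U → w ∈ closure U := fun h => Or.inr h
      tauto

/-- Crossing point on a line. -/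
lemma cross (P : ℤ → Prop) (s t : ℤ) (hs : P s) (ht : ¬ P t) :
    ∃ u, P u ∧ (¬ P (u + 1) ∨ ¬ P (u - 1)) ∧ min s t ≤ u ∧ u ≤ max s t := by
  by_contra hc
  push Not at hc
  rcases le_total s t with h | h
  · have h1 : ∀ k : ℕ, s + k ≤ t → P (s + k) := by
      intro k
      induction k with
      | zero => intro _; simpa using hs
      | succ k ih =>
        intro hk
        push_cast at hk ⊢
        have h2 := ih (by omega)
        have h3 : P (s + k + 1) := by
          by_contra h4
          have := hc (s + k) h2 (Or.inl h4) (by omega)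
          omega
        rwa [add_assoc] at h3
    apply ht
    have := h1 (t - s).toNat (by omega)
    rwa [Int.toNat_of_nonneg (by omega), add_sub_cancel] at this
  · have h1 : ∀ k : ℕ, t ≤ s - k → P (s - k) := by
      intro k
      induction k with
      | zero => intro _; simpa using hs
      | succ k ih =>
        intro hk
        push_cast at hk ⊢
        have h2 := ih (by omega)
        have h3 : P (s - k - 1) := by
          by_contra h4
          have := hc (s - k) h2 (Or.inr h4) (by omega)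
          omega
        rwa [sub_sub] at h3
    apply ht
    have := h1 (s - t).toNat (by omega)
    rwa [Int.toNat_of_nonneg (by omega), sub_sub_cancel] at this

/-- A boundary point of `M` on a hybrid line of a pair. -/
lemma hybrid {M : Set (Fin n → ℤ)} {x : Fin n → ℤ} {N : ℕ} {a b : Fin n → ℤ}
    (ha : a ∈ part M x N) (hb : b ∈ part Mᶜ x N) :
    ∃ (i : Fin n) (z : Fin n → ℤ), z ∈ part (vertexBoundary M) x N ∧ (∀ j < i, z j = b j) ∧
      ∀ j, i < j → z j = a j := by
  classical
  rw [mem_part] at ha hb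
  set h : ℕ → (Fin n → ℤ) := fun k j => if j.val < k then b j else a j with hh
  have h0 : h 0 = a := by ext j; simp [hh]
  have hn : h n = b := by ext j; simp [hh]
  have hex : ∃ k, h k ∉ M := ⟨n, by rw [hn]; exact hb.2⟩
  set k := Nat.find hex with hk
  have hk1 : h k ∉ M := Nat.find_spec hex
  have hk0 : k ≠ 0 := by
    intro e
    rw [e, h0] at hk1
    exact hk1 ha.2
  obtain ⟨l, hl⟩ := Nat.exists_eq_succ_of_ne_zero hk0
  have hl1 : h l ∈ M := by
    by_contra hc
    have := Nat.find_min' hex hc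
    omega
  have hkn : k ≤ n := Nat.find_min' hex (by rw [hn]; exact hb.2)
  have hln : l < n := by omega
  set i : Fin n := ⟨l, hln⟩ with hi
  have e1 : h l = update (h l) i (a i) := by
    ext j
    by_cases hj : j = i
    · rw [hj, update_self]; simp [hh, hi]
    · rw [update_of_ne hj]
  have e2 : h k = update (h l) i (b i) := by
    ext j
    by_cases hj : j = i
    · rw [hj, update_self, hl]; simp [hh, hi]
    · rw [update_of_ne hj, hl]
      have : j.val ≠ l := fun e => hj (Fin.ext e)
      simp only [hh]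
      by_cases hjl : j.val < l
      · rw [if_pos hjl, if_pos (by omega)]
      · rw [if_neg hjl, if_neg (by omega)]
  rw [e2] at hk1
  rw [e1] at hl1
  obtain ⟨u, hu, hu1, hu2, hu3⟩ := cross (fun t => update (h l) i t ∈ M) (a i) (b i) hl1 hk1
  refine ⟨i, update (h l) i u, ?_, ?_, ?_⟩
  · rw [mem_part, mem_Q]
    constructor
    · intro j
      have h1 := mem_Q.1 ha.1 j
      have h2 := mem_Q.1 hb.1 j
      by_cases hj : j = i
      · subst hj
        rw [update_self]
        omega
      · rw [update_of_ne hj]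
        simp only [hh]
        split_ifs <;> omega
    · refine ⟨hu, ?_⟩
      rcases hu1 with h3 | h3
      · refine ⟨_, h3, (adj_iff _ _).2 ⟨i, Or.inl ?_⟩⟩
        rw [update_self, update_idem]
      · refine ⟨_, h3, (adj_iff _ _).2 ⟨i, Or.inr ?_⟩⟩
        rw [update_self, update_idem]
  · intro j hj
    rw [update_of_ne hj.ne]
    simp only [hh]
    rw [if_pos (Fin.lt_def.1 hj)]
  · intro j hj
    rw [update_of_ne hj.ne']
    simp only [hh]
    rw [if_neg]
    have := Fin.lt_def.1 hj
    simp only [hi] at this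
    omega

/-- Relative isoperimetric inequality in a cube. -/
lemma rel_iso (M : Set (Fin n → ℤ)) (x : Fin n → ℤ) (N : ℕ) :
    (part M x N).card * (part Mᶜ x N).card ≤
      n * (part (vertexBoundary M) x N).card * (2 * N + 1) ^ (n + 1) := by
  classical
  have h1 : (part M x N ×ˢ part Mᶜ x N).card ≤
      ((Finset.univ : Finset (Fin n)) ×ˢ part (vertexBoundary M) x N ×ˢ Q x N ×ˢ
        Finset.Icc (-(N : ℤ)) N).card := by
    refine Finset.card_le_card_of_forall_subsingleton
      (fun p q => (∀ j < q.1, q.2.1 j = p.2 j) ∧ (∀ j, q.1 < j → q.2.1 j = p.1 j) ∧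
        (∀ j, q.2.2.1 j = if j ≤ q.1 then p.1 j else p.2 j) ∧ q.2.2.2 = p.2 q.1 - x q.1) ?_ ?_
    · rintro ⟨a, b⟩ hp
      rw [Finset.mem_product] at hp
      obtain ⟨ha, hb⟩ := hp
      simp only at ha hb
      obtain ⟨i, z, hz, hz1, hz2⟩ := hybrid ha hb
      refine ⟨(i, z, (fun j => if j ≤ i then a j else b j), b i - x i), ?_, hz1, hz2,
        fun j => rfl, rfl⟩
      rw [mem_part] at ha hb
      have ha' := mem_Q.1 ha.1
      have hb' := mem_Q.1 hb.1
      simp only [Finset.mem_product, Finset.mem_univ, true_and, Finset.mem_Icc]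
      refine ⟨hz, mem_Q.2 (fun j => ?_), ?_⟩
      · split_ifs
        · exact ha' j
        · exact hb' j
      · have := hb' i
        omega
    · rintro ⟨i, z, w, t⟩ hq
      rintro ⟨a, b⟩ ⟨-, ha1, ha2, ha3, ha4⟩ ⟨a', b'⟩ ⟨-, hb1, hb2, hb3, hb4⟩
      simp only at ha1 ha2 ha3 ha4 hb1 hb2 hb3 hb4
      have e1 : a = a' := by
        ext j
        rcases le_or_gt j i with h | h
        · have h3 := ha3 j
          have h4 := hb3 j
          rw [if_pos h] at h3 h4
          rw [← h3, h4]
        · rw [← ha2 j h, hb2 j h]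
      have e2 : b = b' := by
        ext j
        rcases lt_trichotomy j i with h | h | h
        · rw [← ha1 j h, hb1 j h]
        · subst h
          omega
        · have h3 := ha3 j
          have h4 := hb3 j
          rw [if_neg (not_le.2 h)] at h3 h4
          rw [← h3, h4]
      rw [e1, e2]
  rw [Finset.card_product, Finset.card_product, Finset.card_product, Finset.card_product,
    card_Q, Int.card_Icc, Finset.card_univ, Fintype.card_fin] at h1
  have e : ((N : ℤ) + 1 - -(N : ℤ)).toNat = 2 * N + 1 := by omega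
  rw [e] at h1
  calc _ ≤ _ := h1
    _ = _ := by ring

end Q149.Lat
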