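import Pool.Agent.Q149.LatProof2

set_option autoImplicit false

/-!
Density estimates for minimal subgraphs of the integer lattice, last part.
-/

namespace Q149.Lat

open Function Finset

variable {n : ℕ}

lemma cube_eq (x : Fin n → ℤ) (r : ℝ) (hr : 0 ≤ r) : cube x r = (Q x ⌊r⌋₊ : Set (Fin n → ℤ)) := by
  ext y
  rw [Finset.mem_coe, mem_Q]
  simp only [cube, Set.mem_ofPred_eq]
  refine forall_congr' fun i => ?_
  have h : |(y i : ℝ) - (x i : ℝ)| = (((y i - x i).natAbs : ℕ) : ℝ) := by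
    rw [Nat.cast_natAbs]
    push_cast
    rfl
  rw [h, ← Nat.le_floor_iff hr]
  omega

lemma ncard_cube (M : Set (Fin n → ℤ)) (x : Fin n → ℤ) (r : ℝ) (hr : 0 ≤ r) :
    (M ∩ cube x r).ncard = (part M x ⌊r⌋₊).card := by
  rw [cube_eq x r hr, ← Set.ncard_coe_finset]
  congr 1
  ext y
  rw [Finset.mem_coe, mem_part, Set.mem_inter_iff, Finset.mem_coe]
  tauto

/-- The constant of the volume bound. -/
noncomputable def c2 (n : ℕ) : ℝ := ((1 / 2 : ℝ) ^ (n + 1)) ^ n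

/-- The constant of the boundary bound. -/
noncomputable def c4 (n : ℕ) : ℝ :=
  (c2 n * (c2 n * (1 / 2) ^ n)) / (n * 3 ^ (n + 1))

lemma c2_pos (n : ℕ) : 0 < c2 n := by unfold c2; positivity

lemma c4_pos (n : ℕ) (hn : 0 < n) : 0 < c4 n := by
  have := c2_pos n
  have h : (0 : ℝ) < n := by exact_mod_cast hn
  unfold c4
  positivity

lemma growth' {M : Set (Fin n → ℤ)} (hM : IsMinimalSubgraph M) (hn : 2 ≤ n) {x : Fin n → ℤ}
    (hx : x ∈ M) (N : ℕ) (r : ℝ) (hr : 0 ≤ r) (hN : r ≤ N + 1) :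
    c2 n * r ^ n ≤ ((part M x N).card : ℝ) := by
  refine le_trans ?_ (growth hM hn hx N)
  rw [c2, mul_pow]
  exact mul_le_mul_of_nonneg_left (pow_le_pow_left₀ hr hN n) (by positivity)

theorem volume_bound {M : Set (Fin n → ℤ)} (hM : IsMinimalSubgraph M) (hn : 2 ≤ n)
    {x : Fin n → ℤ} (hx : x ∈ M) (r : ℝ) (hr : 0 ≤ r) :
    c2 n * r ^ n ≤ ((M ∩ cube x r).ncard : ℝ) := by
  rw [ncard_cube M x r hr]
  exact growth' hM hn hx _ r hr (Nat.lt_floor_add_one r).le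

theorem boundary_bound {M : Set (Fin n → ℤ)} (hM : IsMinimalSubgraph M) (hn : 2 ≤ n)
    {x y : Fin n → ℤ} (hx : x ∈ M) (hy : y ∉ M) (r : ℝ) (hr : 1 ≤ r) (hxy : y ∈ cube x (r / 2)) :
    c4 n * r ^ (n - 1) ≤ ((vertexBoundary M ∩ cube x r).ncard : ℝ) := by
  have hr0 : 0 ≤ r := by linarith
  rw [ncard_cube _ x r hr0]
  set N := ⌊r⌋₊ with hN
  set K := ⌊r / 2⌋₊ with hK
  have hKr : (K : ℝ) ≤ r / 2 := Nat.floor_le (by linarith)
  have hNr : (N : ℝ) ≤ r := Nat.floor_le hr0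
  have hrN : r < N + 1 := Nat.lt_floor_add_one r
  have hKN : K ≤ N := Nat.floor_le_floor (by linarith)
  have h1 : c2 n * r ^ n ≤ ((part M x N).card : ℝ) := growth' hM hn hx N r hr0 hrN.le
  have h2 : c2 n * (r / 2) ^ n ≤ ((part Mᶜ y (N - K)).card : ℝ) := by
    refine growth' (compl_minimal hM) hn (x := y) hy (N - K) (r / 2) (by linarith) ?_
    rw [Nat.cast_sub hKN]
    linarith
  have h3 : (part Mᶜ y (N - K)).card ≤ (part Mᶜ x N).card := by
    apply Finset.card_le_card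
    intro w hw
    rw [mem_part] at hw ⊢
    refine ⟨?_, hw.2⟩
    rw [cube_eq x (r / 2) (by linarith), Finset.mem_coe, mem_Q] at hxy
    rw [mem_Q] at hw ⊢
    intro i
    have h4 := hxy i
    have h5 := hw.1 i
    have h6 : ((N - K : ℕ) : ℤ) = N - K := by omega
    omega
  have h4 : ((part M x N).card : ℝ) * ((part Mᶜ x N).card : ℝ) ≤
      n * ((part (vertexBoundary M) x N).card : ℝ) * (2 * N + 1) ^ (n + 1) := by
    exact_mod_cast rel_iso M x N
  set D : ℝ := ((part (vertexBoundary M) x N).card : ℝ) with hD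
  have hD0 : 0 ≤ D := Nat.cast_nonneg _
  have hn0 : (0 : ℝ) < n := by exact_mod_cast (by omega : 0 < n)
  have h5 : (c2 n * r ^ n) * (c2 n * (r / 2) ^ n) ≤ n * D * (3 * r) ^ (n + 1) := by
    have h3' : ((part Mᶜ y (N - K)).card : ℝ) ≤ ((part Mᶜ x N).card : ℝ) := by exact_mod_cast h3
    calc (c2 n * r ^ n) * (c2 n * (r / 2) ^ n)
        ≤ ((part M x N).card : ℝ) * ((part Mᶜ x N).card : ℝ) :=
          mul_le_mul h1 (h2.trans h3') (mul_nonneg (c2_pos n).le (by positivity))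
            (Nat.cast_nonneg _)
      _ ≤ n * D * (2 * N + 1) ^ (n + 1) := h4
      _ ≤ n * D * (3 * r) ^ (n + 1) := by
          refine mul_le_mul_of_nonneg_left ?_ (by positivity)
          exact pow_le_pow_left₀ (by positivity) (by linarith) _
  obtain ⟨k, rfl⟩ : ∃ k, n = k + 1 := ⟨n - 1, by omega⟩
  rw [Nat.add_sub_cancel]
  have hr1 : 0 < r := by linarith
  have h6 : (c2 (k + 1) * (c2 (k + 1) * (1 / 2) ^ (k + 1))) * r ^ k ≤
      ((k + 1 : ℕ) : ℝ) * 3 ^ (k + 1 + 1) * D := by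
    have e1 : (c2 (k + 1) * r ^ (k + 1)) * (c2 (k + 1) * (r / 2) ^ (k + 1)) =
        ((c2 (k + 1) * (c2 (k + 1) * (1 / 2) ^ (k + 1))) * r ^ k) * r ^ (k + 2) := by
      rw [div_eq_mul_one_div r 2, mul_pow]
      ring
    have e2 : ((k + 1 : ℕ) : ℝ) * D * (3 * r) ^ (k + 1 + 1) =
        (((k + 1 : ℕ) : ℝ) * 3 ^ (k + 1 + 1) * D) * r ^ (k + 2) := by
      rw [mul_pow]
      ring
    rw [e1, e2] at h5
    exact le_of_mul_le_mul_right h5 (by positivity)
  rw [c4, div_mul_eq_mul_div, div_le_iff₀ (by positivity)]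
  linarith

end Q149.Lat
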