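import Mathlib

/-!
Mirror Markov tree: linear recurrences.  Ring identities and coefficientwise inequalities.
-/

set_option autoImplicit false

open Polynomial LaurentPolynomial

namespace Pool.Agent.Q149.MM

/-- symmetrisation `X(q) = x(q) x(q⁻¹)` -/
noncomputable def sym (x : ℤ[X]) : ℤ[T;T⁻¹] := toLaurent x * invert (toLaurent x)

section ring
variable {R : Type*} [CommRing R] {a b c a' b' c' Ta Tb Tc Ta' n n' qa qa' qb e e' : R}

theorem idM (hL : Ta * c * b' = qa * (b * b' + c * c' + e * (a * a')))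
    (hn : n = Ta * c - qa * b) : n * b' = qa * (e * (a * a') + c * c') := by
  rw [hn]; linear_combination hL

theorem idL (h1 : qa * qa' = 1) (hM : n * b' = qa * (e * (a * a') + c * c'))
    (hn' : n' = Ta' * c' - qa' * b') :
    (Ta' * qa) * n * c' = qa * (c * c' + n * n' + e * (a * a')) := by
  rw [hn']; linear_combination (n * b') * h1 + hM

theorem idR (h1 : qa * qa' = 1) (h2 : e * e' = 1)
    (hM : n * b' = qa * (e * (a * a') + c * c')) (hM' : n' * b = qa' * (e' * (a * a') + c * c'))
    (hU : Tc * a' * b = qb * e' * (a * a' + b * b' + e * (c * c'))) :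
    (Tc * n * a') * (b * b') =
      (qa * qb * (a * a' + n * n' + e' * (c * c'))) * (b * b') := by
  have e1 : (Tc * n * a') * (b * b') = (Tc * a' * b) * (n * b') := by ring
  have e2 : (qa * qb * (a * a' + n * n' + e' * (c * c'))) * (b * b') =
      qa * qb * ((a * a' + e' * (c * c')) * (b * b') + (n * b') * (n' * b)) := by ring
  rw [e1, e2, hU, hM, hM']
  linear_combination (qb * qa * ((a * a') ^ 2 + (a * a') * (b * b') + (c * c') ^ 2 +
      e * (a * a') * (c * c')) - qa * qb * (a * a') ^ 2 * (qa * qa')) * h2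
    - (qa * qb * ((a * a') ^ 2 + (c * c') ^ 2 + e * (a * a') * (c * c')
      + e' * (a * a') * (c * c'))) * h1

theorem idU (h1 : qa * qa' = 1) (h2 : e * e' = 1)
    (hL : Ta * c * b' = qa * (b * b' + c * c' + e * (a * a')))
    (hR : Tb * c * a' = qb * (a * a' + c * c' + e' * (b * b')))
    (hM : n * b' = qa * (e * (a * a') + c * c')) (hM' : n' * b = qa' * (e' * (a * a') + c * c'))
    (hU : Tc * a' * b = qb * e' * (a * a' + b * b' + e * (c * c'))) :
    ((Ta * Tc - qa * Tb) * a' * c) * (b * b') =
      (qa * qb * e' * (a * a' + c * c' + e * (n * n'))) * (b * b') := by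
  have e1 : ((Ta * Tc - qa * Tb) * a' * c) * (b * b') =
      (Ta * c * b') * (Tc * a' * b) - qa * (Tb * c * a') * (b * b') := by ring
  have e2 : (qa * qb * e' * (a * a' + c * c' + e * (n * n'))) * (b * b') =
      qa * qb * e' * ((a * a' + c * c') * (b * b') + e * ((n * b') * (n' * b))) := by ring
  rw [e1, e2, hL, hU, hR, hM, hM']
  linear_combination (qa * qb * ((b * b') * (c * c') + (a * a') * (b * b') -
      e' * ((a * a') * (c * c')) - e * e' * (a * a') ^ 2)) * h2 -
    (qa * qb * (e * e') * (e * e' * (a * a') ^ 2 + e * ((a * a') * (c * c')) +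
      e' * ((a * a') * (c * c')) + (c * c') ^ 2)) * h1

end ring


/-! ### coefficientwise nonnegative polynomials -/

/-- all coefficients are nonnegative -/
def NN (p : ℤ[X]) : Prop := ∀ j, 0 ≤ p.coeff j

theorem NN.add {p q : ℤ[X]} (hp : NN p) (hq : NN q) : NN (p + q) := fun j => by
  rw [coeff_add]; exact add_nonneg (hp j) (hq j)

theorem NN.mul {p q : ℤ[X]} (hp : NN p) (hq : NN q) : NN (p * q) := fun j => by
  rw [coeff_mul]; exact Finset.sum_nonneg fun x _ => mul_nonneg (hp _) (hq _)

theorem NN.Xmul {p : ℤ[X]} (hp : NN p) (k : ℕ) : NN (X ^ k * p) := by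
  refine NN.mul (fun j => ?_) hp
  rw [coeff_X_pow]; split_ifs <;> norm_num

theorem NN_one : NN 1 := fun j => by
  rw [coeff_one]; split_ifs <;> norm_num

theorem NN_Xpow (k : ℕ) : NN (X ^ k) := fun j => by
  rw [coeff_X_pow]; split_ifs <;> norm_num

theorem NN_of_eq {p q : ℤ[X]} (hq : NN q) (h : p = q) : NN p := h ▸ hq

theorem reverse_coeff_le {p : ℤ[X]} {j : ℕ} (h : j ≤ p.natDegree) :
    p.reverse.coeff j = p.coeff (p.natDegree - j) := by
  rw [coeff_reverse, revAt_le h]

theorem reverse_coeff_gt {p : ℤ[X]} {j : ℕ} (h : p.natDegree < j) : p.reverse.coeff j = 0 := by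
  rw [coeff_reverse]
  have : (revAt p.natDegree) j = j := revAt_eq_self_of_lt h
  rw [this]
  exact coeff_eq_zero_of_natDegree_lt h

theorem natDegree_reverse' {p : ℤ[X]} (h : p.coeff 0 ≠ 0) : p.reverse.natDegree = p.natDegree := by
  rw [reverse_natDegree]
  have : p.natTrailingDegree = 0 := natTrailingDegree_eq_zero_of_constantCoeff_ne_zero h
  omega

theorem reverse_reverse' {p : ℤ[X]} (h : p.coeff 0 ≠ 0) : p.reverse.reverse = p := by
  ext j
  rcases le_or_gt j p.natDegree with hj | hj
  · rw [reverse_coeff_le (by rw [natDegree_reverse' h]; exact hj), natDegree_reverse' h,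
      reverse_coeff_le (by omega)]
    congr 1
    omega
  · rw [reverse_coeff_gt (by rw [natDegree_reverse' h]; exact hj),
      coeff_eq_zero_of_natDegree_lt hj]

/-- reversal of an inequality of the form `1 + X ^ s ≤ p` -/
theorem NN.reverse {p : ℤ[X]} (hp : NN p) : NN p.reverse := fun j => by
  rcases le_or_gt j p.natDegree with hj | hj
  · rw [reverse_coeff_le hj]; exact hp _
  · rw [reverse_coeff_gt hj]

end Pool.Agent.Q149.MM
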