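import Pool.Agent.Q149.MMa

/-!
Mirror Markov tree: the inductive step.
-/

set_option autoImplicit false

open Polynomial LaurentPolynomial

namespace Pool.Agent.Q149.MM

/-- invariants of a triple of the mirror Markov tree -/
structure Good (a b c Ta Tb Tc : ℤ[X]) (s : ℤ) : Prop where
  pa : ∀ j ≤ a.natDegree, 0 < a.coeff j
  pb : ∀ j ≤ b.natDegree, 0 < b.coeff j
  pc : ∀ j ≤ c.natDegree, 0 < c.coeff j
  dc : c.natDegree = a.natDegree + b.natDegree + 1
  dTa : Ta.natDegree = a.natDegree + 1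
  dTb : Tb.natDegree = b.natDegree + 1
  dTc : Tc.natDegree = c.natDegree + 1
  hTa : NN (Ta - 1 - X ^ (a.natDegree + 1))
  hTb : NN (Tb - 1 - X ^ (b.natDegree + 1))
  hTc : NN (Tc - 1 - X ^ (c.natDegree + 1))
  oT : NN (Tc - Tb)
  oR : NN (Tc.reverse - Ta)
  oa : NN (c - a)
  ob : NN (c - b)
  L : toLaurent Ta * toLaurent c * invert (toLaurent b) =
    T ((a.natDegree : ℤ) + 1) * (sym b + sym c + T s * sym a)
  R : toLaurent Tb * toLaurent c * invert (toLaurent a) =
    T ((b.natDegree : ℤ) + 1) * (sym a + sym c + T (-s) * sym b)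
  U : toLaurent Tc * invert (toLaurent a) * toLaurent b =
    T ((b.natDegree : ℤ) + 1) * T (-s) * (sym a + sym b + T s * sym c)

theorem nonneg_of_pos {p : ℤ[X]} (h : ∀ j ≤ p.natDegree, 0 < p.coeff j) : NN p := fun j => by
  rcases le_or_gt j p.natDegree with hj | hj
  · exact (h j hj).le
  · rw [coeff_eq_zero_of_natDegree_lt hj]

theorem coeff_zero_ne {p : ℤ[X]} (k : ℕ) (h : NN (p - 1 - X ^ (k + 1))) : p.coeff 0 ≠ 0 := by
  have := h 0
  rw [coeff_sub, coeff_sub, coeff_one_zero, coeff_X_pow, if_neg (by omega)] at this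
  omega

theorem NN_self {p : ℤ[X]} (k : ℕ) (h : NN (p - 1 - X ^ k)) : NN p :=
  NN_of_eq ((h.add NN_one).add (NN_Xpow k)) (by ring)

/-- reversal of the inequality `1 + X ^ s ≤ p` -/
theorem hT_reverse {p : ℤ[X]} {k : ℕ} (hd : p.natDegree = k + 1) (h : NN (p - 1 - X ^ (k + 1))) :
    NN (p.reverse - 1 - X ^ (k + 1)) := by
  intro j
  rw [coeff_sub, coeff_sub, coeff_one, coeff_X_pow]
  rcases le_or_gt j p.natDegree with hj | hj
  · rw [reverse_coeff_le hj]
    have := h (p.natDegree - j)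
    rw [coeff_sub, coeff_sub, coeff_one, coeff_X_pow] at this
    rw [hd] at this hj ⊢
    split_ifs at this ⊢ <;> omega
  · rw [reverse_coeff_gt hj, if_neg (by omega), if_neg (by omega)]
    norm_num

theorem T_cancel (k : ℤ) : (T k : ℤ[T;T⁻¹]) * T (-k) = 1 := by
  rw [← T_add, add_neg_cancel, T_zero]

theorem invert_invert (x : ℤ[T;T⁻¹]) : invert (invert x) = x := involutive_invert x

theorem invert_sym (x : ℤ[X]) : invert (sym x) = sym x := by
  unfold sym
  rw [map_mul, invert_invert]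
  ring

theorem Good.swap {a b c Ta Tb Tc : ℤ[X]} {s : ℤ} (h : Good a b c Ta Tb Tc s) :
    Good b a c Tb Ta Tc.reverse (-s) where
  pa := h.pb
  pb := h.pa
  pc := h.pc
  dc := by rw [h.dc]; omega
  dTa := h.dTb
  dTb := h.dTa
  dTc := by rw [natDegree_reverse' (coeff_zero_ne _ h.hTc), h.dTc]
  hTa := h.hTb
  hTb := h.hTa
  hTc := hT_reverse h.dTc h.hTc
  oT := h.oR
  oR := by rw [reverse_reverse' (coeff_zero_ne _ h.hTc)]; exact h.oT
  oa := h.ob
  ob := h.oa
  L := h.R
  R := by rw [neg_neg]; exact h.L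
  U := by
    rw [LaurentPolynomial.toLaurent_reverse, h.dTc, neg_neg]
    have h1 := congrArg invert h.U
    rw [map_mul, map_mul, map_mul, map_mul, map_add, map_add, map_mul, invert_sym, invert_sym,
      invert_sym, invert_invert, invert_T, invert_T, invert_T, neg_neg] at h1
    have h2 : (T (((c.natDegree + 1 : ℕ) : ℤ)) : ℤ[T;T⁻¹]) =
        T ((b.natDegree : ℤ) + 1) * T ((a.natDegree : ℤ) + 1) := by
      rw [← T_add, h.dc]
      congr 1
      push_cast
      ring
    rw [h2]
    have h3 := T_cancel ((b.natDegree : ℤ) + 1)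
    linear_combination (T ((b.natDegree : ℤ) + 1) * T ((a.natDegree : ℤ) + 1)) * h1 +
      (T ((a.natDegree : ℤ) + 1) * T s * (sym a + sym b + T (-s) * sym c)) * h3

/-- the new entry -/
noncomputable def nxt (a b c Ta : ℤ[X]) : ℤ[X] := Ta * c - X ^ (a.natDegree + 1) * b

theorem toLaurent_nxt (a b c Ta : ℤ[X]) : toLaurent (nxt a b c Ta) =
    toLaurent Ta * toLaurent c - T ((a.natDegree : ℤ) + 1) * toLaurent b := by
  unfold nxt
  rw [map_sub, map_mul, map_mul, toLaurent_X_pow]
  push_cast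
  rfl

theorem Good.mut {a b c Ta Tb Tc : ℤ[X]} {s : ℤ} (h : Good a b c Ta Tb Tc s) :
    toLaurent (nxt a b c Ta) * invert (toLaurent b) =
      T ((a.natDegree : ℤ) + 1) * (T s * sym a + sym c) := by
  have := h.L
  unfold sym at this ⊢
  exact idM this (toLaurent_nxt a b c Ta)

theorem coeff_nxt_pos {a b c Ta Tb Tc : ℤ[X]} {s : ℤ} (h : Good a b c Ta Tb Tc s) (j : ℕ)
    (hj : j ≤ a.natDegree + c.natDegree + 1) : 0 < (nxt a b c Ta).coeff j := by
  have e : nxt a b c Ta = c + X ^ (a.natDegree + 1) * (c - b) +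
      (Ta - 1 - X ^ (a.natDegree + 1)) * c := by
    unfold nxt; ring
  have h3 := (h.hTa.mul (nonneg_of_pos h.pc)) j
  have h2 := (h.ob.Xmul (a.natDegree + 1)) j
  have h1 := nonneg_of_pos h.pc j
  rw [e, coeff_add, coeff_add]
  rcases le_or_gt j c.natDegree with hjc | hjc
  · have := h.pc j hjc
    linarith
  · have hdc := h.dc
    have h4 : 0 < (X ^ (a.natDegree + 1) * (c - b)).coeff j := by
      rw [coeff_X_pow_mul', if_pos (by omega), coeff_sub]
      have h5 : b.coeff (j - (a.natDegree + 1)) = 0 := by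
        apply coeff_eq_zero_of_natDegree_lt
        have := h.dc
        omega
      rw [h5, sub_zero]
      exact h.pc _ (by omega)
    linarith

theorem natDegree_nxt {a b c Ta Tb Tc : ℤ[X]} {s : ℤ} (h : Good a b c Ta Tb Tc s) :
    (nxt a b c Ta).natDegree = a.natDegree + c.natDegree + 1 := by
  apply natDegree_eq_of_le_of_coeff_ne_zero
  · unfold nxt
    refine (natDegree_sub_le _ _).trans (max_le ?_ ?_)
    · refine natDegree_mul_le.trans ?_
      rw [h.dTa]; omega
    · refine natDegree_mul_le.trans ?_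
      rw [natDegree_X_pow, h.dc]; omega
  · exact (coeff_nxt_pos h _ le_rfl).ne'

/-- the new `T` polynomial -/
noncomputable def nxtT (a Ta Tb Tc : ℤ[X]) : ℤ[X] := Ta * Tc - X ^ (a.natDegree + 1) * Tb

theorem NN_nxtT_sub {a b c Ta Tb Tc : ℤ[X]} {s : ℤ} (h : Good a b c Ta Tb Tc s) :
    NN (nxtT a Ta Tb Tc - Tc) := by
  refine NN_of_eq ((h.oT.Xmul (a.natDegree + 1)).add (h.hTa.mul (NN_self _ h.hTc))) ?_
  unfold nxtT; ring

theorem NN_nxtT_top {a b c Ta Tb Tc : ℤ[X]} {s : ℤ} (h : Good a b c Ta Tb Tc s) :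
    NN (nxtT a Ta Tb Tc - X ^ (c.natDegree + 1) * Ta) := by
  have h1 : NN (Tc - X ^ (c.natDegree + 1)) := NN_of_eq (h.hTc.add NN_one) (by ring)
  have h2 : NN (Tc - X ^ (c.natDegree + 1) - Tb) := by
    intro j
    rw [coeff_sub, coeff_sub, coeff_X_pow]
    by_cases hj : j = c.natDegree + 1
    · have h5 : Tb.coeff j = 0 := by
        apply coeff_eq_zero_of_natDegree_lt
        have := h.dc
        rw [h.dTb]; omega
      have h6 := h1 j
      rw [coeff_sub, coeff_X_pow] at h6
      rw [h5]; linarith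
    · rw [if_neg hj]
      have := h.oT j
      rw [coeff_sub] at this
      linarith
  have h3 : NN (Ta - X ^ (a.natDegree + 1)) := NN_of_eq (h.hTa.add NN_one) (by ring)
  refine NN_of_eq ((h2.Xmul (a.natDegree + 1)).add (h3.mul h1)) ?_
  unfold nxtT; ring

theorem natDegree_nxtT {a b c Ta Tb Tc : ℤ[X]} {s : ℤ} (h : Good a b c Ta Tb Tc s) :
    (nxtT a Ta Tb Tc).natDegree = a.natDegree + c.natDegree + 2 := by
  apply natDegree_eq_of_le_of_coeff_ne_zero
  · unfold nxtT
    refine (natDegree_sub_le _ _).trans (max_le ?_ ?_)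
    · refine natDegree_mul_le.trans ?_
      rw [h.dTa, h.dTc]; omega
    · refine natDegree_mul_le.trans ?_
      rw [natDegree_X_pow, h.dTb, h.dc]; omega
  · have h1 := NN_nxtT_top h (a.natDegree + c.natDegree + 2)
    rw [coeff_sub, coeff_X_pow_mul', if_pos (by omega)] at h1
    have h2 := h.hTa (a.natDegree + 1)
    rw [coeff_sub, coeff_sub, coeff_X_pow, if_pos rfl, coeff_one, if_neg (by omega)] at h2
    have e : a.natDegree + c.natDegree + 2 - (c.natDegree + 1) = a.natDegree + 1 := by omega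
    rw [e] at h1
    intro h3
    rw [h3] at h1
    linarith

theorem Good.left {a b c Ta Tb Tc : ℤ[X]} {s : ℤ} (h : Good a b c Ta Tb Tc s) :
    Good a c (nxt a b c Ta) Ta.reverse Tc (nxtT a Ta Tb Tc) s := by
  have hdn := natDegree_nxt h
  have hdT := natDegree_nxtT h
  have hb0 : b ≠ 0 := by
    rintro rfl
    have := h.pb 0 (Nat.zero_le _)
    simp at this
  have hB : sym b ≠ 0 := by
    unfold sym
    have h1 : toLaurent b ≠ 0 := by
      rw [Ne, ← map_zero (toLaurent (R := ℤ)), toLaurent_injective.eq_iff]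
      exact hb0
    refine mul_ne_zero h1 ?_
    rw [Ne, ← map_zero (invert (R := ℤ)), invert.injective.eq_iff]
    exact h1
  -- ring data
  have h1 := T_cancel ((a.natDegree : ℤ) + 1)
  have h2 := T_cancel s
  have hn := toLaurent_nxt a b c Ta
  have hn' : invert (toLaurent (nxt a b c Ta)) = invert (toLaurent Ta) * invert (toLaurent c) -
      T (-((a.natDegree : ℤ) + 1)) * invert (toLaurent b) := by
    rw [hn, map_sub, map_mul, map_mul, invert_T]
  have hM := h.mut
  have hM' := congrArg invert hM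
  rw [map_mul, map_mul, map_add, map_mul, invert_sym, invert_sym, invert_invert, invert_T,
    invert_T] at hM'
  have hL := h.L
  have hR := h.R
  have hU := h.U
  have hTsc : (T (((c.natDegree : ℤ) + 1)) : ℤ[T;T⁻¹]) =
      T ((a.natDegree : ℤ) + 1) * T ((b.natDegree : ℤ) + 1) := by
    rw [← T_add, h.dc]
    congr 1
    push_cast
    ring
  refine ⟨h.pa, h.pc, ?_, ?_, ?_, ?_, ?_, ?_, ?_, ?_, ?_, ?_, ?_, ?_, ?_, ?_, ?_⟩
  · intro j hj
    exact coeff_nxt_pos h j (hdn ▸ hj)
  · exact hdn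
  · rw [natDegree_reverse' (coeff_zero_ne _ h.hTa), h.dTa]
  · exact h.dTc
  · rw [hdn, hdT]
  · exact hT_reverse h.dTa h.hTa
  · exact h.hTc
  · -- `1 + X^{s_n} ≤ T_n`
    intro j
    rw [coeff_sub, coeff_sub, coeff_one, coeff_X_pow, hdn]
    have e1 := NN_nxtT_sub h j
    have e2 := NN_nxtT_top h j
    have e3 := h.hTc j
    have e4 := NN_self _ h.hTc j
    rw [coeff_sub] at e1
    rw [coeff_sub, coeff_sub, coeff_one, coeff_X_pow] at e3
    rw [coeff_sub, coeff_X_pow_mul'] at e2
    by_cases hj0 : j = 0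
    · subst hj0
      rw [if_pos rfl, if_neg (by omega)] at e3 ⊢
      linarith
    · rw [if_neg hj0] at e3 ⊢
      by_cases hj1 : j = a.natDegree + c.natDegree + 1 + 1
      · rw [if_pos hj1]
        rw [if_pos (by omega)] at e2
        have h6 := h.hTa (a.natDegree + 1)
        rw [coeff_sub, coeff_sub, coeff_X_pow, if_pos rfl, coeff_one, if_neg (by omega)] at h6
        have e : j - (c.natDegree + 1) = a.natDegree + 1 := by omega
        rw [e] at e2
        linarith
      · rw [if_neg hj1]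
        linarith
  · exact NN_nxtT_sub h
  · -- reversed inequality
    intro j
    rw [coeff_sub]
    have hNN : NN (nxtT a Ta Tb Tc) :=
      NN_of_eq ((NN_nxtT_sub h).add (NN_self _ h.hTc)) (by ring)
    rcases le_or_gt j (a.natDegree + 1) with hj | hj
    · rw [reverse_coeff_le (by rw [hdT]; omega), reverse_coeff_le (by rw [h.dTa]; exact hj), hdT,
        h.dTa]
      have := NN_nxtT_top h (a.natDegree + c.natDegree + 2 - j)
      rw [coeff_sub, coeff_X_pow_mul', if_pos (by omega)] at this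
      have e : a.natDegree + c.natDegree + 2 - j - (c.natDegree + 1) = a.natDegree + 1 - j := by
        omega
      rw [e] at this
      exact this
    · rw [reverse_coeff_gt (p := Ta) (by rw [h.dTa]; exact hj), sub_zero]
      exact hNN.reverse j
  · -- `a ≤ n`
    refine NN_of_eq ((h.oa.add (h.ob.Xmul (a.natDegree + 1))).add
      (h.hTa.mul (nonneg_of_pos h.pc))) ?_
    unfold nxt; ring
  · refine NN_of_eq ((h.ob.Xmul (a.natDegree + 1)).add (h.hTa.mul (nonneg_of_pos h.pc))) ?_
    unfold nxt; ring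
  · -- L
    rw [LaurentPolynomial.toLaurent_reverse, h.dTa]
    push_cast
    unfold sym at hM hM' ⊢
    exact idL h1 hM hn'
  · -- R
    rw [hTsc]
    apply mul_right_cancel₀ hB
    unfold sym at hM hM' hU hL hR ⊢
    exact idR h1 h2 hM hM' hU
  · -- U
    apply mul_right_cancel₀ hB
    rw [hTsc]
    unfold nxtT
    rw [map_sub, map_mul, map_mul, toLaurent_X_pow]
    push_cast
    unfold sym at hM hM' hU hL hR ⊢
    exact idU h1 h2 hL hR hM hM' hU

end Pool.Agent.Q149.MM
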