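import Pool.Agent.Q149.MMb

/-!
Mirror Markov tree: the root.
-/

set_option autoImplicit false

open Polynomial LaurentPolynomial

namespace Pool.Agent.Q149.MM

theorem deg_b : (1 + X : ℤ[X]).natDegree = 1 := by compute_degree!
theorem deg_c : (1 + 2 * X + 2 * X ^ 2 : ℤ[X]).natDegree = 2 := by compute_degree!
theorem deg_Ta : (2 + X : ℤ[X]).natDegree = 1 := by compute_degree!
theorem deg_Tb : (3 + 2 * X + X ^ 2 : ℤ[X]).natDegree = 2 := by compute_degree!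
theorem deg_Tc : (3 + 6 * X + 4 * X ^ 2 + 2 * X ^ 3 : ℤ[X]).natDegree = 3 := by compute_degree!

theorem NN_nat (n : ℕ) : NN (n : ℤ[X]) := by
  induction n with
  | zero => intro j; simp
  | succ m ih => rw [Nat.cast_succ]; exact ih.add NN_one

theorem NN_X : NN (X : ℤ[X]) := by
  have := NN_Xpow 1
  rwa [pow_one] at this

theorem root_pb : ∀ j ≤ (1 + X : ℤ[X]).natDegree, 0 < (1 + X : ℤ[X]).coeff j := by
  rw [deg_b]
  intro j hj
  interval_cases j <;> simp [coeff_one, coeff_X]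

theorem root_pc : ∀ j ≤ (1 + 2 * X + 2 * X ^ 2 : ℤ[X]).natDegree,
    0 < (1 + 2 * X + 2 * X ^ 2 : ℤ[X]).coeff j := by
  rw [deg_c]
  intro j hj
  have e : (1 + 2 * X + 2 * X ^ 2 : ℤ[X]) = Polynomial.C 1 + Polynomial.C 2 * X + Polynomial.C 2 * X ^ 2 := by
    simp only [map_ofNat, map_one]
  rw [e]
  simp only [coeff_add, Polynomial.coeff_C_mul, Polynomial.coeff_C, coeff_X, coeff_X_pow]
  interval_cases j <;> norm_num

theorem root_rev : NN ((3 + 6 * X + 4 * X ^ 2 + 2 * X ^ 3 : ℤ[X]).reverse - (2 + X)) := by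
  intro j
  have e : (3 + 6 * X + 4 * X ^ 2 + 2 * X ^ 3 : ℤ[X]) = Polynomial.C 3 + Polynomial.C 6 * X + Polynomial.C 4 * X ^ 2 + Polynomial.C 2 * X ^ 3 := by
    simp only [map_ofNat]
  have e2 : (2 + X : ℤ[X]) = Polynomial.C 2 + X := by simp only [map_ofNat]
  rcases le_or_gt j 3 with hj | hj
  · rw [coeff_sub, reverse_coeff_le (by rw [deg_Tc]; exact hj), deg_Tc, e, e2]
    simp only [coeff_add, Polynomial.coeff_C_mul, Polynomial.coeff_C, coeff_X, coeff_X_pow]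
    interval_cases j <;> norm_num
  · rw [coeff_sub, reverse_coeff_gt (by rw [deg_Tc]; exact hj), e2]
    simp only [coeff_add, Polynomial.coeff_C, coeff_X]
    rw [if_neg (by omega), if_neg (by omega)]
    norm_num

theorem root : Good 1 (1 + X) (1 + 2 * X + 2 * X ^ 2) (2 + X) (3 + 2 * X + X ^ 2)
    (3 + 6 * X + 4 * X ^ 2 + 2 * X ^ 3) 1 := by
  have d1 : (1 : ℤ[X]).natDegree = 0 := natDegree_one
  have hT := T_cancel (1 : ℤ)
  refine ⟨?_, root_pb, root_pc, ?_, ?_, ?_, ?_, ?_, ?_, ?_, ?_, root_rev, ?_, ?_, ?_, ?_, ?_⟩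
  · intro j hj
    rw [d1] at hj
    interval_cases j
    simp
  · rw [deg_b, deg_c, d1]
  · rw [deg_Ta, d1]
  · rw [deg_Tb, deg_b]
  · rw [deg_Tc, deg_c]
  · rw [d1]; exact NN_of_eq (NN_nat 1) (by push_cast; ring)
  · rw [deg_b]; exact NN_of_eq ((NN_nat 2).add ((NN_nat 2).mul NN_X)) (by push_cast; ring)
  · rw [deg_c]
    exact NN_of_eq (((NN_nat 2).add ((NN_nat 6).mul NN_X)).add
      (((NN_nat 4).mul (NN_Xpow 2)).add (NN_Xpow 3))) (by push_cast; ring)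
  · exact NN_of_eq (((NN_nat 4).mul NN_X).add (((NN_nat 3).mul (NN_Xpow 2)).add
      ((NN_nat 2).mul (NN_Xpow 3)))) (by push_cast; ring)
  · exact NN_of_eq (((NN_nat 2).mul NN_X).add ((NN_nat 2).mul (NN_Xpow 2))) (by push_cast; ring)
  · exact NN_of_eq (NN_X.add ((NN_nat 2).mul (NN_Xpow 2))) (by push_cast; ring)
  · rw [d1]
    unfold sym
    simp only [map_add, map_mul, map_pow, map_ofNat, map_one, toLaurent_X, invert_T,
      Nat.cast_zero, zero_add]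
    linear_combination ((-2) * T 1 ^ 0 * T (-1) ^ 0 + (-2) * T 1 ^ 0 * T (-1) ^ 1 +
      (-3) * T 1 ^ 1 * T (-1) ^ 0 + (-4) * T 1 ^ 1 * T (-1) ^ 1 + (-2) * T 1 ^ 2 * T (-1) ^ 0 +
      (-4) * T 1 ^ 2 * T (-1) ^ 1 : ℤ[T;T⁻¹]) * hT
  · rw [deg_b]
    have e : (T (((1 : ℕ) : ℤ) + 1) : ℤ[T;T⁻¹]) = T 1 * T 1 := by
      rw [← T_add]; norm_num
    rw [e]
    unfold sym
    simp only [map_add, map_mul, map_pow, map_ofNat, map_one, toLaurent_X, invert_T]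
    linear_combination ((-3) * T 1 ^ 0 * T (-1) ^ 0 + (-8) * T 1 ^ 1 * T (-1) ^ 0 +
      (-3) * T 1 ^ 1 * T (-1) ^ 1 + (-9) * T 1 ^ 2 * T (-1) ^ 0 + (-5) * T 1 ^ 2 * T (-1) ^ 1 +
      (-4) * T 1 ^ 3 * T (-1) ^ 0 + (-4) * T 1 ^ 3 * T (-1) ^ 1 : ℤ[T;T⁻¹]) * hT
  · rw [deg_b]
    have e : (T (((1 : ℕ) : ℤ) + 1) : ℤ[T;T⁻¹]) = T 1 * T 1 := by
      rw [← T_add]; norm_num
    rw [e]
    unfold sym
    simp only [map_add, map_mul, map_pow, map_ofNat, map_one, toLaurent_X, invert_T]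
    linear_combination ((-3) * T 1 ^ 0 * T (-1) ^ 0 + (-9) * T 1 ^ 1 * T (-1) ^ 0 +
      (-3) * T 1 ^ 1 * T (-1) ^ 1 + (-10) * T 1 ^ 2 * T (-1) ^ 0 + (-7) * T 1 ^ 2 * T (-1) ^ 1 +
      (-2) * T 1 ^ 2 * T (-1) ^ 2 + (-6) * T 1 ^ 3 * T (-1) ^ 0 + (-8) * T 1 ^ 3 * T (-1) ^ 1 +
      (-4) * T 1 ^ 3 * T (-1) ^ 2 + (-2) * T 1 ^ 4 * T (-1) ^ 0 + (-4) * T 1 ^ 4 * T (-1) ^ 1 +
      (-4) * T 1 ^ 4 * T (-1) ^ 2 : ℤ[T;T⁻¹]) * hT

end Pool.Agent.Q149.MM
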