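import Mathlib

set_option autoImplicit false

/-!
Configurations near convex position: the definitions of the problem MP_6a769b_co.
-/

namespace Q149.NearConvex

/-- The Euclidean plane. -/
abbrev Plane : Type := EuclideanSpace ℝ (Fin 2)

/-- The determinant with columns `b - a` and `c - a`. -/
def det3 (a b c : Plane) : ℝ := (b 0 - a 0) * (c 1 - a 1) - (b 1 - a 1) * (c 0 - a 0)

/-- The orientation of an ordered triple, a sign. -/
noncomputable def orient (a b c : Plane) : SignType := SignType.sign (det3 a b c)

/-- Two configurations are equivalent (have the same order type): some bijection preserves the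
orientation of every ordered triple. -/
def SameOrderType (S T : Finset Plane) : Prop :=
  ∃ e : S ≃ T, ∀ a b c : S,
    orient (e a : Plane) (e b : Plane) (e c : Plane) = orient (a : Plane) (b : Plane) (c : Plane)

/-- Equivalence of configurations is an equivalence relation. -/
theorem sameOrderType_equivalence : Equivalence SameOrderType where
  refl S := ⟨Equiv.refl _, fun _ _ _ => rfl⟩
  symm := by
    rintro S T ⟨e, he⟩
    refine ⟨e.symm, fun a b c => ?_⟩
    have := he (e.symm a) (e.symm b) (e.symm c)
    simp only [Equiv.apply_symm_apply] at this
    exact this.symm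
  trans := by
    rintro S T U ⟨e, he⟩ ⟨f, hf⟩
    exact ⟨e.trans f, fun a b c => (hf _ _ _).trans (he _ _ _)⟩

/-- The setoid of configurations up to equivalence. -/
def orderTypeSetoid : Setoid (Finset Plane) := ⟨SameOrderType, sameOrderType_equivalence⟩

/-- Convex position: every point is a vertex (extreme point) of the convex hull. -/
def ConvexPosition (S : Finset Plane) : Prop :=
  ∀ p ∈ S, p ∈ (convexHull ℝ (S : Set Plane)).extremePoints ℝ

open Classical in
/-- `DTC(S)`: the least number of points whose removal leaves a set in convex position. -/
noncomputable def dtc (S : Finset Plane) : ℕ :=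
  sInf {r | ∃ R : Finset Plane, R ⊆ S ∧ R.card = r ∧ ConvexPosition (S \ R)}

/-- The order types of the `n`-point configurations `S` with `DTC(S) < k`. -/
def classes (k n : ℕ) : Set (Quotient orderTypeSetoid) :=
  {q | ∃ S : Finset Plane, S.card = n ∧ dtc S < k ∧ Quotient.mk orderTypeSetoid S = q}

/-- `c_k(n)`: the number of these order types. -/
noncomputable def c (k n : ℕ) : ℕ := (classes k n).ncard

end Q149.NearConvex
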