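import Pool.Agent.Q149.NCUpper

set_option autoImplicit false

/-!
The lower bound: a point together with points on two convex arcs.
-/

namespace Q149.NearConvex

/-- A point with a strictly larger linear functional is extreme. -/
lemma extreme_of_linear (S : Set Plane) (p : Plane) (hp : p ∈ S) (α β : ℝ)
    (h : ∀ q ∈ S, q ≠ p → α * q 0 + β * q 1 < α * p 0 + β * p 1) :
    p ∈ (convexHull ℝ S).extremePoints ℝ := by
  set L : Plane → ℝ := fun q => α * q 0 + β * q 1 with hL
  have hLlin : ∀ (s t : ℝ) (x y : Plane), L (s • x + t • y) = s * L x + t * L y := by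
    intro s t x y
    simp only [hL, PiLp.add_apply, PiLp.smul_apply, smul_eq_mul]
    ring
  have hconv : Convex ℝ {q : Plane | q = p ∨ L q < L p} := by
    intro x hx y hy s t hs ht hst
    rcases hs.eq_or_lt with hs0 | hs0
    · have : t = 1 := by linarith
      rw [← hs0, this, zero_smul, one_smul, zero_add]
      exact hy
    rcases ht.eq_or_lt with ht0 | ht0
    · have : s = 1 := by linarith
      rw [← ht0, this, zero_smul, one_smul, add_zero]
      exact hx
    rcases hx with rfl | hx
    · rcases hy with rfl | hy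
      · left
        rw [← add_smul, hst, one_smul]
      · right
        rw [hLlin]
        have : s = 1 - t := by linarith
        subst this
        nlinarith
    · right
      rw [hLlin]
      have hy' : L y ≤ L p := by
        rcases hy with rfl | hy
        · exact le_rfl
        · exact hy.le
      have : t = 1 - s := by linarith
      subst this
      nlinarith
  have hsub : convexHull ℝ S ⊆ {q : Plane | q = p ∨ L q < L p} := by
    apply convexHull_min _ hconv
    intro q hq
    by_cases hqp : q = p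
    · exact Or.inl hqp
    · exact Or.inr (h q hq hqp)
  rw [mem_extremePoints]
  refine ⟨subset_convexHull ℝ S hp, fun x hx y hy hxy => ?_⟩
  obtain ⟨s, t, hs, ht, hst, rfl⟩ := hxy
  have hx' := hsub hx
  have hy' := hsub hy
  have hxle : L x ≤ L (s • x + t • y) := by
    rcases hx' with h1 | h1
    · rw [← h1]
    · exact h1.le
  have hyle : L y ≤ L (s • x + t • y) := by
    rcases hy' with h1 | h1
    · rw [← h1]
    · exact h1.le
  have e := hLlin s t x y
  have hs' : s = 1 - t := by linarith
  constructor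
  · rcases hx' with h1 | h1
    · exact h1
    · exfalso
      rw [e] at h1 hyle
      subst hs'
      nlinarith
  · rcases hy' with h1 | h1
    · exact h1
    · exfalso
      rw [e] at h1 hxle
      subst hs'
      nlinarith

/-- The inverse first coordinate of the `i`-th point. -/
noncomputable def av (p : ℕ) (w : Finset ℕ) (i : ℕ) : ℝ :=
  if i ∈ w then 1 + 2 * (p + 1) * i - i ^ 2 else 1 + i ^ 2

/-- The `i`-th point. -/
noncomputable def pt (p : ℕ) (w : Finset ℕ) (i : ℕ) : Plane :=
  !₂[1 / av p w i, i / av p w i]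

lemma av_pos (p : ℕ) (w : Finset ℕ) (i : ℕ) (hi : i ≤ p + 1) : 0 < av p w i := by
  have h1 : (i : ℝ) ≤ p + 1 := by exact_mod_cast hi
  have h0 : (0 : ℝ) ≤ i := Nat.cast_nonneg i
  unfold av
  split_ifs
  · nlinarith
  · positivity

/-- The configuration of a word. -/
noncomputable def conf (p : ℕ) (w : Finset ℕ) : Finset Plane :=
  insert 0 ((Finset.range (p + 2)).image (pt p w))

lemma pt_zero (p : ℕ) (w : Finset ℕ) (i : ℕ) : (pt p w i) 0 = 1 / av p w i := rfl
lemma pt_one (p : ℕ) (w : Finset ℕ) (i : ℕ) : (pt p w i) 1 = i / av p w i := rfl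

lemma pt_ne_zero (p : ℕ) (w : Finset ℕ) (i : ℕ) (hi : i ≤ p + 1) : pt p w i ≠ 0 := by
  intro h
  have h1 := congrArg (fun q : Plane => q 0) h
  simp only [pt_zero, PiLp.zero_apply] at h1
  have := av_pos p w i hi
  have h2 : 0 < 1 / av p w i := by positivity
  linarith

lemma det_zero (p : ℕ) (w : Finset ℕ) (i j : ℕ) (hi : i ≤ p + 1) (hj : j ≤ p + 1) :
    det3 0 (pt p w i) (pt p w j) = ((j : ℝ) - i) / (av p w i * av p w j) := by
  have h1 := (av_pos p w i hi).ne'
  have h2 := (av_pos p w j hj).ne'
  simp only [det3, pt_zero, pt_one, PiLp.zero_apply]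
  field_simp
  ring

lemma pt_inj (p : ℕ) (w : Finset ℕ) (i j : ℕ) (hi : i ≤ p + 1) (hj : j ≤ p + 1)
    (h : pt p w i = pt p w j) : i = j := by
  have h1 := det_zero p w i j hi hj
  rw [h] at h1
  have h2 : det3 0 (pt p w j) (pt p w j) = 0 := by unfold det3; ring
  rw [h2] at h1
  have h3 := av_pos p w i hi
  have h4 := av_pos p w j hj
  have h5 : (j : ℝ) - i = 0 := by
    by_contra hne
    have : ((j : ℝ) - i) / (av p w i * av p w j) ≠ 0 := div_ne_zero hne (by positivity)
    exact this h1.symm
  have : (i : ℝ) = j := by linarith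
  exact_mod_cast this

lemma conf_card (p : ℕ) (w : Finset ℕ) : (conf p w).card = p + 3 := by
  classical
  rw [conf, Finset.card_insert_of_notMem, Finset.card_image_of_injOn, Finset.card_range]
  · intro i hi j hj h
    rw [Finset.coe_range, Set.mem_Iio] at hi hj
    exact pt_inj p w i j (by omega) (by omega) h
  · rw [Finset.mem_image]
    rintro ⟨i, hi, h⟩
    rw [Finset.mem_range] at hi
    exact pt_ne_zero p w i (by omega) h

lemma mem_conf (p : ℕ) (w : Finset ℕ) (x : Plane) :
    x ∈ conf p w ↔ x = 0 ∨ ∃ i, i < p + 2 ∧ pt p w i = x := by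
  classical
  rw [conf, Finset.mem_insert, Finset.mem_image]
  simp only [Finset.mem_range]

lemma arc_convex (p : ℕ) (w : Finset ℕ) (hw : ∀ i ∈ w, 1 ≤ i ∧ i ≤ p) :
    ConvexPosition ((Finset.range (p + 2)).image (pt p w)) := by
  classical
  intro x hx
  rw [Finset.mem_image] at hx
  obtain ⟨i, hi, rfl⟩ := hx
  rw [Finset.mem_range] at hi
  have hai := av_pos p w i (by omega)
  have hi' : (i : ℝ) ≤ p + 1 := by exact_mod_cast (by omega : i ≤ p + 1)
  have hi0 : (0 : ℝ) ≤ i := Nat.cast_nonneg i
  by_cases hiw : i ∈ w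
  · -- the functional with minimum at the point
    refine extreme_of_linear _ _ (by rw [Finset.mem_coe]; exact Finset.mem_image_of_mem _ (Finset.mem_range.2 hi))
      (-(1 + (i : ℝ) ^ 2)) (-(2 * ((p : ℝ) + 1 - i))) ?_
    intro q hq hqi
    rw [Finset.mem_coe, Finset.mem_image] at hq
    obtain ⟨j, hj, rfl⟩ := hq
    rw [Finset.mem_range] at hj
    have haj := av_pos p w j (by omega)
    have hij : (i : ℝ) ≠ j := fun e => hqi (by rw [Nat.cast_injective e])
    have hj' : (j : ℝ) ≤ p + 1 := by exact_mod_cast (by omega : j ≤ p + 1)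
    have hj0 : (0 : ℝ) ≤ j := Nat.cast_nonneg j
    have hsq : 0 < ((i : ℝ) - j) ^ 2 := by
      have : (i : ℝ) - j ≠ 0 := sub_ne_zero.2 hij
      positivity
    simp only [pt_zero, pt_one]
    have e1 : -(1 + (i : ℝ) ^ 2) * (1 / av p w i) + -(2 * ((p : ℝ) + 1 - i)) * (i / av p w i) =
        -1 := by
      have : av p w i = 1 + 2 * (p + 1) * i - i ^ 2 := if_pos hiw
      field_simp
      rw [this]
      ring
    rw [e1]
    have e2 : -(1 + (i : ℝ) ^ 2) * (1 / av p w j) + -(2 * ((p : ℝ) + 1 - i)) * (j / av p w j) =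
        -((1 + (i : ℝ) ^ 2 + 2 * ((p : ℝ) + 1 - i) * j) / av p w j) := by
      field_simp
      ring
    rw [e2, neg_lt_neg_iff, one_lt_div haj]
    unfold av
    split_ifs
    · nlinarith
    · nlinarith [mul_nonneg hj0 (sub_nonneg.2 hj')]
  · refine extreme_of_linear _ _ (by rw [Finset.mem_coe]; exact Finset.mem_image_of_mem _ (Finset.mem_range.2 hi))
      (1 - (i : ℝ) ^ 2) (2 * (i : ℝ)) ?_
    intro q hq hqi
    rw [Finset.mem_coe, Finset.mem_image] at hq
    obtain ⟨j, hj, rfl⟩ := hq
    rw [Finset.mem_range] at hj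
    have haj := av_pos p w j (by omega)
    have hij : (i : ℝ) ≠ j := fun e => hqi (by rw [Nat.cast_injective e])
    have hj' : (j : ℝ) ≤ p + 1 := by exact_mod_cast (by omega : j ≤ p + 1)
    have hj0 : (0 : ℝ) ≤ j := Nat.cast_nonneg j
    have hsq : 0 < ((i : ℝ) - j) ^ 2 := by
      have : (i : ℝ) - j ≠ 0 := sub_ne_zero.2 hij
      positivity
    simp only [pt_zero, pt_one]
    have e1 : (1 - (i : ℝ) ^ 2) * (1 / av p w i) + 2 * (i : ℝ) * (i / av p w i) = 1 := by
      have : av p w i = 1 + i ^ 2 := if_neg hiw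
      field_simp
      rw [this]
      ring
    rw [e1]
    have e2 : (1 - (i : ℝ) ^ 2) * (1 / av p w j) + 2 * (i : ℝ) * (j / av p w j) =
        (1 - (i : ℝ) ^ 2 + 2 * i * j) / av p w j := by
      field_simp
    rw [e2, div_lt_one haj]
    unfold av
    split_ifs
    · nlinarith [mul_nonneg hj0 (sub_nonneg.2 hj')]
    · nlinarith

lemma conf_dtc (p : ℕ) (w : Finset ℕ) (hw : ∀ i ∈ w, 1 ≤ i ∧ i ≤ p) : dtc (conf p w) < 2 := by
  classical
  have h : dtc (conf p w) ≤ 1 := by
    apply Nat.sInf_le
    refine ⟨{0}, ?_, rfl, ?_⟩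
    · rw [Finset.singleton_subset_iff, conf]
      exact Finset.mem_insert_self _ _
    · have e : conf p w \ {0} = (Finset.range (p + 2)).image (pt p w) := by
        ext x
        rw [Finset.mem_sdiff, Finset.mem_singleton, conf, Finset.mem_insert]
        constructor
        · rintro ⟨h1 | h1, h2⟩
          · exact absurd h1 h2
          · exact h1
        · intro h1
          refine ⟨Or.inr h1, ?_⟩
          rw [Finset.mem_image] at h1
          obtain ⟨i, hi, rfl⟩ := h1
          rw [Finset.mem_range] at hi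
          exact pt_ne_zero p w i (by omega)
      convert arc_convex p w hw using 1
  omega

lemma det_ends (p : ℕ) (w : Finset ℕ) (hw : ∀ i ∈ w, 1 ≤ i ∧ i ≤ p) (i : ℕ) (hi : i ≤ p + 1) :
    det3 (pt p w 0) (pt p w (p + 1)) (pt p w i) =
      ((p : ℝ) + 1) * (av p w i - 1 - (p + 1) * i) / (av p w (p + 1) * av p w i) := by
  have h0 : av p w 0 = 1 := by
    have : (0 : ℕ) ∉ w := fun h => by have := (hw 0 h).1; omega
    rw [av, if_neg this]
    simp
  have h1 : av p w (p + 1) = 1 + ((p : ℝ) + 1) ^ 2 := by
    have : (p + 1 : ℕ) ∉ w := fun h => by have := (hw _ h).2; omega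
    rw [av, if_neg this]
    push_cast
    ring
  have h2 := (av_pos p w i hi).ne'
  have h3 := (av_pos p w (p + 1) le_rfl).ne'
  simp only [det3, pt_zero, pt_one]
  rw [h0]
  push_cast
  field_simp
  rw [h1]
  ring

/-- An equivalence which fixes the origin determines the word. -/
lemma word_unique (p : ℕ) (w w' : Finset ℕ) (hw : ∀ i ∈ w, 1 ≤ i ∧ i ≤ p)
    (hw' : ∀ i ∈ w', 1 ≤ i ∧ i ≤ p) (e : conf p w ≃ conf p w')
    (he : ∀ a b c : conf p w, orient (e a : Plane) (e b : Plane) (e c : Plane) =
      orient (a : Plane) (b : Plane) (c : Plane))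
    (h0 : ∀ x : conf p w, (x : Plane) = 0 → (e x : Plane) = 0) : w = w' := by
  classical
  have hmem : ∀ (w : Finset ℕ) (i : Fin (p + 2)), pt p w i ∈ conf p w := by
    intro w i
    rw [mem_conf]
    exact Or.inr ⟨i, i.isLt, rfl⟩
  have hmem0 : ∀ w : Finset ℕ, (0 : Plane) ∈ conf p w := fun w => Finset.mem_insert_self _ _
  set o : conf p w := ⟨0, hmem0 w⟩ with ho
  have heo : (e o : Plane) = 0 := h0 o rfl
  have hex : ∀ i : Fin (p + 2), ∃ j : Fin (p + 2), (e ⟨pt p w i, hmem w i⟩ : Plane) = pt p w' j := by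
    intro i
    have h1 := (e ⟨pt p w i, hmem w i⟩).2
    rcases (mem_conf p w' _).1 h1 with h1 | ⟨j, hj, h1⟩
    · exfalso
      have h2 : e ⟨pt p w i, hmem w i⟩ = e o := Subtype.ext (by rw [h1, heo])
      have h3 := congrArg Subtype.val (e.injective h2)
      exact pt_ne_zero p w i (by have := i.isLt; omega) h3
    · exact ⟨⟨j, hj⟩, h1.symm⟩
  choose π hπ using hex
  have hsign : ∀ (w : Finset ℕ) (i j : Fin (p + 2)), i < j ↔
      orient 0 (pt p w i) (pt p w j) = 1 := by
    intro w i j
    have hi := av_pos p w i (by have := i.isLt; omega)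
    have hj := av_pos p w j (by have := j.isLt; omega)
    rw [orient, det_zero p w i j (by have := i.isLt; omega) (by have := j.isLt; omega),
      sign_eq_one_iff, div_pos_iff_of_pos_right (by positivity), sub_pos, Nat.cast_lt,
      Fin.lt_def]
  have hmono : StrictMono π := by
    intro i j hij
    rw [hsign w'] 
    rw [hsign w] at hij
    have h1 := he o ⟨pt p w i, hmem w i⟩ ⟨pt p w j, hmem w j⟩
    rw [heo, hπ, hπ] at h1
    rw [h1]
    exact hij
  have hid : ∀ i, π i = i := by
    intro i
    have h1 : (π : Fin (p + 2) → Fin (p + 2)) = id := by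
      apply (StrictMono.range_inj hmono strictMono_id).1
      rw [Set.range_id]
      exact (Finite.surjective_of_injective hmono.injective).range_eq
    rw [h1]
    rfl
  have hlab : ∀ (w : Finset ℕ), (∀ i ∈ w, 1 ≤ i ∧ i ≤ p) → ∀ i : ℕ, 1 ≤ i → i ≤ p →
      (i ∈ w ↔ orient (pt p w 0) (pt p w (p + 1)) (pt p w i) = 1) := by
    intro w hw i hi1 hi2
    have h1 := av_pos p w i (by omega)
    have h2 := av_pos p w (p + 1) le_rfl
    have g1 : (1 : ℝ) ≤ i := by exact_mod_cast hi1
    have g2 : (i : ℝ) ≤ p := by exact_mod_cast hi2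
    rw [orient, det_ends p w hw i (by omega), sign_eq_one_iff,
      div_pos_iff_of_pos_right (by positivity), mul_pos_iff_of_pos_left (by positivity)]
    constructor
    · intro hiw
      rw [av, if_pos hiw]
      nlinarith
    · intro hpos
      by_contra hiw
      rw [av, if_neg hiw] at hpos
      nlinarith
  ext i
  by_cases hi : 1 ≤ i ∧ i ≤ p
  · rw [hlab w hw i hi.1 hi.2, hlab w' hw' i hi.1 hi.2]
    have h1 := he ⟨pt p w (0 : Fin (p + 2)), hmem w 0⟩ ⟨pt p w (Fin.last (p + 1)), hmem w _⟩
      ⟨pt p w (⟨i, by omega⟩ : Fin (p + 2)), hmem w _⟩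
    rw [hπ, hπ, hπ, hid, hid, hid] at h1
    simp only [Fin.val_zero, Fin.val_last] at h1
    rw [h1]
  · constructor
    · exact fun h => absurd (hw i h) hi
    · exact fun h => absurd (hw' i h) hi

theorem lower (p k : ℕ) (hk : 2 ≤ k) : 2 ^ p ≤ c k (p + 3) * (p + 3) := by
  classical
  obtain ⟨hfin, -⟩ := upper (p + 3) k (by omega)
  set W : Finset (Finset ℕ) := (Finset.Icc 1 p).powerset with hW
  have hWw : ∀ w ∈ W, ∀ i ∈ w, 1 ≤ i ∧ i ≤ p := by
    intro w hw i hi
    rw [hW, Finset.mem_powerset] at hw
    exact Finset.mem_Icc.1 (hw hi)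
  have hmem0 : ∀ w : Finset ℕ, (0 : Plane) ∈ conf p w := fun w => Finset.mem_insert_self _ _
  -- representatives
  have hrep : ∀ q : Quotient orderTypeSetoid, ∃ (R : Finset Plane) , Quotient.mk orderTypeSetoid R = q :=
    fun q => Quotient.exists_rep q
  choose R hR using hrep
  have hiso : ∀ w : Finset ℕ, ∃ e : conf p w ≃ R (Quotient.mk orderTypeSetoid (conf p w)),
      ∀ a b c : conf p w, orient (e a : Plane) (e b : Plane) (e c : Plane) =
        orient (a : Plane) (b : Plane) (c : Plane) := by
    intro w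
    have h1 : orderTypeSetoid (conf p w) (R (Quotient.mk orderTypeSetoid (conf p w))) :=
      Quotient.exact (hR _).symm
    exact h1
  choose E hE using hiso
  have hcard : ∀ w : Finset ℕ, (R (Quotient.mk orderTypeSetoid (conf p w))).card = p + 3 := by
    intro w
    rw [← conf_card p w, ← Fintype.card_coe, ← Fintype.card_coe]
    exact Fintype.card_congr (E w).symm
  set C : Finset (Quotient orderTypeSetoid) := hfin.toFinset with hC
  have hCcard : C.card = c k (p + 3) := by
    rw [hC, c, Set.ncard_eq_toFinset_card _ hfin]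
  have hqC : ∀ w ∈ W, Quotient.mk orderTypeSetoid (conf p w) ∈ C := by
    intro w hw
    rw [hC, Set.Finite.mem_toFinset]
    exact ⟨conf p w, conf_card p w, lt_of_lt_of_le (conf_dtc p w (hWw w hw)) hk, rfl⟩
  have hfib : ∀ q ∈ C, (W.filter fun w => Quotient.mk orderTypeSetoid (conf p w) = q).card ≤
      p + 3 := by
    intro q hq
    by_cases hne : (W.filter fun w => Quotient.mk orderTypeSetoid (conf p w) = q).Nonempty
    · obtain ⟨w0, hw0⟩ := hne
      rw [Finset.mem_filter] at hw0
      have hRq : (R q).card = p + 3 := by rw [← hw0.2]; exact hcard w0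
      rw [← hRq]
      have hval : ∀ w : Finset ℕ, Quotient.mk orderTypeSetoid (conf p w) = q →
          ((E w ⟨0, hmem0 w⟩ : R _) : Plane) ∈ R q := by
        rintro w rfl
        exact (E w ⟨0, hmem0 w⟩).2
      refine Finset.card_le_card_of_injOn (fun w => ((E w ⟨0, hmem0 w⟩ : R _) : Plane)) ?_ ?_
      · intro w hw
        rw [Finset.mem_coe, Finset.mem_filter] at hw
        exact hval w hw.2
      · intro w hw w' hw' h
        rw [Finset.mem_coe, Finset.mem_filter] at hw hw'
        simp only at h
        have hqq : Quotient.mk orderTypeSetoid (conf p w) = Quotient.mk orderTypeSetoid (conf p w') :=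
          hw.2.trans hw'.2.symm
        have hRR : R (Quotient.mk orderTypeSetoid (conf p w)) =
            R (Quotient.mk orderTypeSetoid (conf p w')) := by rw [hqq]
        let F : R (Quotient.mk orderTypeSetoid (conf p w)) ≃
            R (Quotient.mk orderTypeSetoid (conf p w')) :=
          Equiv.subtypeEquivRight (fun x => by rw [hRR])
        have hF : ∀ x, ((F x : R _) : Plane) = x := fun x => rfl
        refine word_unique p w w' (hWw w hw.1) (hWw w' hw'.1)
          (((E w).trans F).trans (E w').symm) ?_ ?_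
        · intro a b c
          have h1 := hE w' ((E w').symm (F (E w a))) ((E w').symm (F (E w b)))
            ((E w').symm (F (E w c)))
          simp only [Equiv.apply_symm_apply, hF] at h1
          rw [hE w] at h1
          exact h1.symm
        · intro x hx
          have hx0 : x = ⟨0, hmem0 w⟩ := Subtype.ext hx
          rw [hx0]
          simp only [Equiv.trans_apply]
          have h2 : F (E w ⟨0, hmem0 w⟩) = E w' ⟨0, hmem0 w'⟩ := Subtype.ext (by rw [hF]; exact h)
          rw [h2, Equiv.symm_apply_apply]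
    · rw [Finset.not_nonempty_iff_eq_empty] at hne
      rw [hne]
      simp
  have h1 := Finset.card_le_mul_card_image_of_maps_to (f := fun w => Quotient.mk orderTypeSetoid (conf p w))
    (s := W) (t := C) hqC (p + 3) hfib
  rw [hW, Finset.card_powerset, Nat.card_Icc, Nat.add_sub_cancel, hCcard] at h1
  rw [mul_comm]
  exact h1

end Q149.NearConvex
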