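import Pool.Agent.Q149.NCode

set_option autoImplicit false

/-!
Labelled planar configurations which are convex up to `k` points: the code determines all
orientations.
-/

namespace Q149.NC

variable {n k : ℕ}

/-- The orientation of a labelled triple. -/
noncomputable def chi (X Y : Fin n → ℝ) (a b c : Fin n) : SignType := SignType.sign (D X Y a b c)

lemma sign_eq_of_iff {u v : ℝ} (h1 : 0 < u ↔ 0 < v) (h2 : u < 0 ↔ v < 0) :
    SignType.sign u = SignType.sign v := by
  rcases lt_trichotomy u 0 with h | h | h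
  · rw [sign_neg h, sign_neg (h2.1 h)]
  · have : v = 0 := by
      rcases lt_trichotomy v 0 with h' | h' | h'
      · have := h2.2 h'; linarith
      · exact h'
      · have := h1.2 h'; linarith
    rw [h, this]
  · rw [sign_pos h, sign_pos (h1.1 h)]

section rank

variable (X Y : Fin n → ℝ) (τ : Fin k → Fin n)

open Classical in
/-- The rank of a slope. -/
noncomputable def rk (i : Fin k) (a : Fin n) : ℕ :=
  (Finset.univ.filter fun b => b ∉ Set.range τ ∧ slope X Y (τ i) b < slope X Y (τ i) a).card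

variable {X Y τ}

lemma rk_le (i : Fin k) (a : Fin n) : rk X Y τ i a ≤ n := by
  classical
  unfold rk
  exact (Finset.card_le_univ _).trans (by simp)

lemma rk_mono (i : Fin k) {a b : Fin n} (h : slope X Y (τ i) a ≤ slope X Y (τ i) b) :
    rk X Y τ i a ≤ rk X Y τ i b := by
  classical
  unfold rk
  apply Finset.card_le_card
  intro c hc
  rw [Finset.mem_filter] at hc ⊢
  exact ⟨hc.1, hc.2.1, lt_of_lt_of_le hc.2.2 h⟩

lemma rk_lt_iff (i : Fin k) {a b : Fin n} (ha : a ∉ Set.range τ) :
    rk X Y τ i a < rk X Y τ i b ↔ slope X Y (τ i) a < slope X Y (τ i) b := by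
  classical
  constructor
  · intro h
    by_contra hc
    push Not at hc
    exact absurd (rk_mono i hc) (not_le.2 h)
  · intro h
    unfold rk
    apply Finset.card_lt_card
    rw [Finset.ssubset_iff_of_subset]
    · refine ⟨a, ?_, ?_⟩
      · rw [Finset.mem_filter]
        exact ⟨Finset.mem_univ _, ha, h⟩
      · rw [Finset.mem_filter]
        exact fun hc => lt_irrefl _ hc.2.2
    · intro c hc
      rw [Finset.mem_filter] at hc ⊢
      exact ⟨hc.1, hc.2.1, hc.2.2.trans h⟩

end rank

/-- The strictly monotone (or antitone) value attached to an index of a class. -/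
noncomputable def key (X Y : Fin n → ℝ) (τ : Fin k → Fin n) (κ : Fin n → Bool) (i : Fin k)
    (a : Fin n) : Fin (2 * n + 1) :=
  ⟨if κ a = true then rk X Y τ i a + a else rk X Y τ i a + (n - a), by
    have := rk_le (X := X) (Y := Y) (τ := τ) i a
    have := a.isLt
    split_ifs <;> omega⟩

open Classical in
/-- The classes of indices. -/
noncomputable def cls (τ : Fin k → Fin n) (lam κ : Fin n → Bool) (i : Fin k)
    (q : Bool × Bool × Bool) : Finset (Fin n) :=
  Finset.univ.filter fun a => a ∉ Set.range τ ∧ lam a = q.1 ∧ decide (a < τ i) = q.2.1 ∧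
    κ a = q.2.2

lemma mem_cls {τ : Fin k → Fin n} {lam κ : Fin n → Bool} {i : Fin k} {q : Bool × Bool × Bool}
    {a : Fin n} : a ∈ cls τ lam κ i q ↔
      a ∉ Set.range τ ∧ lam a = q.1 ∧ decide (a < τ i) = q.2.1 ∧ κ a = q.2.2 := by
  classical
  rw [cls, Finset.mem_filter]
  exact and_iff_right (Finset.mem_univ _)

/-- The code of a labelled configuration. -/
noncomputable def code (X Y : Fin n → ℝ) (τ : Fin k → Fin n) (lam : Fin n → Bool)
    (κ : Fin k → Fin n → Bool) : Code n k :=
  (τ, lam, fun i => (κ i, fun q => (cls τ lam (κ i) i q).image (key X Y τ (κ i) i)),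
    fun i j c => chi X Y (τ i) (τ j) c)

/-- Uniqueness of a strictly monotone function with given image. -/
lemma mono_unique {m N : ℕ} (A : Finset (Fin m)) (f g : Fin m → Fin N)
    (hf : ∀ a ∈ A, ∀ b ∈ A, a < b → f a < f b) (hg : ∀ a ∈ A, ∀ b ∈ A, a < b → g a < g b)
    (h : A.image f = A.image g) : ∀ a ∈ A, f a = g a := by
  classical
  have h1 : StrictMono (fun a : A => f a) := fun a b hab => hf a a.2 b b.2 hab
  have h2 : StrictMono (fun a : A => g a) := fun a b hab => hg a a.2 b b.2 hab
  have h3 : Set.range (fun a : A => f a) = Set.range (fun a : A => g a) := by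
    have e : ∀ u : Fin m → Fin N, Set.range (fun a : A => u a) = (A.image u : Set (Fin N)) := by
      intro u
      ext y
      simp
    rw [e, e, h]
  have h4 := (StrictMono.range_inj h1 h2).1 h3
  intro a ha
  exact congrFun h4 ⟨a, ha⟩

lemma anti_unique {m N : ℕ} (A : Finset (Fin m)) (f g : Fin m → Fin N)
    (hf : ∀ a ∈ A, ∀ b ∈ A, a < b → f b < f a) (hg : ∀ a ∈ A, ∀ b ∈ A, a < b → g b < g a)
    (h : A.image f = A.image g) : ∀ a ∈ A, f a = g a := by
  classical
  have h1 := mono_unique A (fun a => Fin.rev (f a)) (fun a => Fin.rev (g a))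
    (fun a ha b hb hab => Fin.rev_lt_rev.2 (hf a ha b hb hab))
    (fun a ha b hb hab => Fin.rev_lt_rev.2 (hg a ha b hb hab)) (by
      have := congrArg (Finset.image Fin.rev) h
      rwa [Finset.image_image, Finset.image_image] at this)
  intro a ha
  exact Fin.rev_injective (h1 a ha)

/-- The data which go with a labelled configuration. -/
structure Good (X Y : Fin n → ℝ) (τ : Fin k → Fin n) (lam : Fin n → Bool)
    (κ : Fin k → Fin n → Bool) : Prop where
  nf : NF X Y τ
  hlam : ∀ a b c, a ∉ Set.range τ → b ∉ Set.range τ → c ∉ Set.range τ → a < b → b < c →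
      (lam b = true → 0 < D X Y a b c) ∧ (lam b = false → D X Y a b c < 0)
  hκ : ∀ i a b, a ∉ Set.range τ → b ∉ Set.range τ → lam a = lam b →
      decide (a < τ i) = decide (b < τ i) → a < b →
      (κ i a = true → κ i b = true → slope X Y (τ i) a ≤ slope X Y (τ i) b) ∧
      (κ i a = false → κ i b = false → slope X Y (τ i) b ≤ slope X Y (τ i) a)

lemma good_exists {X Y : Fin n → ℝ} {τ : Fin k → Fin n} (h : NF X Y τ) :
    ∃ lam κ, Good X Y τ lam κ := by
  obtain ⟨lam, hlam⟩ := lam_exists h
  have h1 := kappa_exists h lam hlam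
  choose κ hκ using h1
  exact ⟨lam, κ, h, hlam, hκ⟩

section decode

variable {X Y X' Y' : Fin n → ℝ} {τ : Fin k → Fin n} {lam : Fin n → Bool}
  {κ : Fin k → Fin n → Bool}

lemma rk_eq (h : Good X Y τ lam κ) (h' : Good X' Y' τ lam κ) (i : Fin k)
    (hE : ∀ q, (cls τ lam (κ i) i q).image (key X Y τ (κ i) i) =
      (cls τ lam (κ i) i q).image (key X' Y' τ (κ i) i)) (a : Fin n) (ha : a ∉ Set.range τ) :
    rk X Y τ i a = rk X' Y' τ i a := by
  set q : Bool × Bool × Bool := (lam a, decide (a < τ i), κ i a) with hq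
  have haq : a ∈ cls τ lam (κ i) i q := mem_cls.2 ⟨ha, rfl, rfl, rfl⟩
  rcases hκa : κ i a with _ | _
  · -- antitone
    have hanti : ∀ {X Y : Fin n → ℝ}, Good X Y τ lam κ → ∀ a ∈ cls τ lam (κ i) i q,
        ∀ b ∈ cls τ lam (κ i) i q, a < b → key X Y τ (κ i) i b < key X Y τ (κ i) i a := by
      intro X Y hG a ha b hb hab
      rw [mem_cls] at ha hb
      have e1 : κ i a = false := by rw [ha.2.2.2, hq, hκa]
      have e2 : κ i b = false := by rw [hb.2.2.2, hq, hκa]
      have h1 := (hG.hκ i a b ha.1 hb.1 (by rw [ha.2.1, hb.2.1]) (by rw [ha.2.2.1, hb.2.2.1])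
        hab).2 e1 e2
      have h2 := rk_mono (X := X) (Y := Y) (τ := τ) i h1
      rw [Fin.lt_def]
      simp only [key, e1, e2]
      have := b.isLt
      have := Fin.lt_def.1 hab
      simp only [Bool.false_eq_true, if_false]
      omega
    have h1 := anti_unique _ _ _ (hanti h) (hanti h') (hE q) a haq
    have h2 := congrArg Fin.val h1
    simp only [key, hκa, Bool.false_eq_true, if_false] at h2
    omega
  · have hmono : ∀ {X Y : Fin n → ℝ}, Good X Y τ lam κ → ∀ a ∈ cls τ lam (κ i) i q,
        ∀ b ∈ cls τ lam (κ i) i q, a < b → key X Y τ (κ i) i a < key X Y τ (κ i) i b := by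
      intro X Y hG a ha b hb hab
      rw [mem_cls] at ha hb
      have e1 : κ i a = true := by rw [ha.2.2.2, hq, hκa]
      have e2 : κ i b = true := by rw [hb.2.2.2, hq, hκa]
      have h1 := (hG.hκ i a b ha.1 hb.1 (by rw [ha.2.1, hb.2.1]) (by rw [ha.2.2.1, hb.2.2.1])
        hab).1 e1 e2
      have h2 := rk_mono (X := X) (Y := Y) (τ := τ) i h1
      rw [Fin.lt_def]
      simp only [key, e1, e2]
      have := b.isLt
      have := Fin.lt_def.1 hab
      simp only [if_true]
      omega
    have h1 := mono_unique _ _ _ (hmono h) (hmono h') (hE q) a haq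
    have h2 := congrArg Fin.val h1
    simp only [key, hκa, if_true] at h2
    omega

lemma chi_swap12 (X Y : Fin n → ℝ) (a b c : Fin n) : chi X Y b a c = - chi X Y a b c := by
  have : D X Y b a c = - D X Y a b c := by unfold D; ring
  rw [chi, chi, this, Left.sign_neg]

lemma chi_swap23 (X Y : Fin n → ℝ) (a b c : Fin n) : chi X Y a c b = - chi X Y a b c := by
  have : D X Y a c b = - D X Y a b c := by unfold D; ring
  rw [chi, chi, this, Left.sign_neg]

lemma chi_self (X Y : Fin n → ℝ) (a b : Fin n) : chi X Y a a b = 0 := by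
  have : D X Y a a b = 0 := by unfold D; ring
  rw [chi, this, sign_zero]

lemma chi_self' (X Y : Fin n → ℝ) (a b : Fin n) : chi X Y a b b = 0 := by
  have : D X Y a b b = 0 := by unfold D; ring
  rw [chi, this, sign_zero]

lemma chi_self'' (X Y : Fin n → ℝ) (a b : Fin n) : chi X Y a b a = 0 := by
  have : D X Y a b a = 0 := by unfold D; ring
  rw [chi, this, sign_zero]

lemma decode_slope (h : Good X Y τ lam κ) (h' : Good X' Y' τ lam κ) (i : Fin k)
    (hE : ∀ q, (cls τ lam (κ i) i q).image (key X Y τ (κ i) i) =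
      (cls τ lam (κ i) i q).image (key X' Y' τ (κ i) i)) (a b : Fin n) (ha : a ∉ Set.range τ)
    (hb : b ∉ Set.range τ) : chi X Y (τ i) a b = chi X' Y' (τ i) a b := by
  have hat : a ≠ τ i := fun e => ha ⟨i, e.symm⟩
  have hbt : b ≠ τ i := fun e => hb ⟨i, e.symm⟩
  have hsX : ∀ c, SignType.sign (X c - X (τ i)) = SignType.sign (X' c - X' (τ i)) := by
    intro c
    apply sign_eq_of_iff
    · rw [sub_pos, sub_pos, h.nf.mono.lt_iff_lt, h'.nf.mono.lt_iff_lt]
    · rw [sub_neg, sub_neg, h.nf.mono.lt_iff_lt, h'.nf.mono.lt_iff_lt]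
  have hrk := rk_eq h h' i hE
  have hss : SignType.sign (slope X Y (τ i) b - slope X Y (τ i) a) =
      SignType.sign (slope X' Y' (τ i) b - slope X' Y' (τ i) a) := by
    apply sign_eq_of_iff
    · rw [sub_pos, sub_pos, ← rk_lt_iff i ha, ← rk_lt_iff i ha, hrk a ha, hrk b hb]
    · rw [sub_neg, sub_neg, ← rk_lt_iff i hb, ← rk_lt_iff i hb, hrk a ha, hrk b hb]
  rw [chi, chi, D_slope h.nf.mono _ _ _ hat hbt, D_slope h'.nf.mono _ _ _ hat hbt, sign_mul,
    sign_mul, sign_mul, sign_mul, hsX, hsX, hss]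

lemma decode_lam_sorted (h : Good X Y τ lam κ) (h' : Good X' Y' τ lam κ) (a b c : Fin n)
    (ha : a ∉ Set.range τ) (hb : b ∉ Set.range τ) (hc : c ∉ Set.range τ) (hab : a < b)
    (hbc : b < c) : chi X Y a b c = chi X' Y' a b c := by
  have h1 := h.hlam a b c ha hb hc hab hbc
  have h2 := h'.hlam a b c ha hb hc hab hbc
  rcases hl : lam b with _ | _
  · rw [chi, chi, sign_neg (h1.2 hl), sign_neg (h2.2 hl)]
  · rw [chi, chi, sign_pos (h1.1 hl), sign_pos (h2.1 hl)]

lemma decode_lam (h : Good X Y τ lam κ) (h' : Good X' Y' τ lam κ) (a b c : Fin n)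
    (ha : a ∉ Set.range τ) (hb : b ∉ Set.range τ) (hc : c ∉ Set.range τ) :
    chi X Y a b c = chi X' Y' a b c := by
  have s12 : ∀ a b c, chi X Y a b c = chi X' Y' a b c → chi X Y b a c = chi X' Y' b a c := by
    intro a b c e
    rw [chi_swap12 X Y a b c, chi_swap12 X' Y' a b c, e]
  have s23 : ∀ a b c, chi X Y a b c = chi X' Y' a b c → chi X Y a c b = chi X' Y' a c b := by
    intro a b c e
    rw [chi_swap23 X Y a b c, chi_swap23 X' Y' a b c, e]
  rcases lt_trichotomy a b with hab | rfl | hab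
  · rcases lt_trichotomy b c with hbc | rfl | hbc
    · exact decode_lam_sorted h h' a b c ha hb hc hab hbc
    · rw [chi_self', chi_self']
    · rcases lt_trichotomy a c with hac | rfl | hac
      · exact s23 _ _ _ (decode_lam_sorted h h' a c b ha hc hb hac hbc)
      · rw [chi_self'', chi_self'']
      · exact s23 _ _ _ (s12 _ _ _ (decode_lam_sorted h h' c a b hc ha hb hac hab))
  · rw [chi_self, chi_self]
  · rcases lt_trichotomy a c with hac | rfl | hac
    · exact s12 _ _ _ (decode_lam_sorted h h' b a c hb ha hc hab hac)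
    · rw [chi_self'', chi_self'']
    · rcases lt_trichotomy b c with hbc | rfl | hbc
      · exact s12 _ _ _ (s23 _ _ _ (decode_lam_sorted h h' b c a hb hc ha hbc hac))
      · rw [chi_self', chi_self']
      · exact s12 _ _ _ (s23 _ _ _ (s12 _ _ _ (decode_lam_sorted h h' c b a hc hb ha hbc hab)))

end decode

/-- The code determines the orientations. -/
theorem decode {X Y X' Y' : Fin n → ℝ} {τ τ' : Fin k → Fin n} {lam lam' : Fin n → Bool}
    {κ κ' : Fin k → Fin n → Bool} (h : Good X Y τ lam κ) (h' : Good X' Y' τ' lam' κ')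
    (he : code X Y τ lam κ = code X' Y' τ' lam' κ') (a b c : Fin n) :
    chi X Y a b c = chi X' Y' a b c := by
  have e1 : τ = τ' := congrArg (fun q => q.1) he
  subst e1
  have e2 : lam = lam' := congrArg (fun q => q.2.1) he
  subst e2
  have e3 : κ = κ' := by
    funext i
    exact congrArg (fun q => (q.2.2.1 i).1) he
  subst e3
  have hE : ∀ i q, (cls τ lam (κ i) i q).image (key X Y τ (κ i) i) =
      (cls τ lam (κ i) i q).image (key X' Y' τ (κ i) i) := by
    intro i q
    exact congrArg (fun r => (r.2.2.1 i).2 q) he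
  have e4 : ∀ i j c, chi X Y (τ i) (τ j) c = chi X' Y' (τ i) (τ j) c := by
    intro i j c
    exact congrArg (fun r => r.2.2.2 i j c) he
  have s12 : ∀ a b c, chi X Y a b c = chi X' Y' a b c → chi X Y b a c = chi X' Y' b a c := by
    intro a b c e
    rw [chi_swap12 X Y a b c, chi_swap12 X' Y' a b c, e]
  have s23 : ∀ a b c, chi X Y a b c = chi X' Y' a b c → chi X Y a c b = chi X' Y' a c b := by
    intro a b c e
    rw [chi_swap23 X Y a b c, chi_swap23 X' Y' a b c, e]
  by_cases ha : a ∈ Set.range τ <;> by_cases hb : b ∈ Set.range τ <;>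
    by_cases hc : c ∈ Set.range τ
  · obtain ⟨i, rfl⟩ := ha
    obtain ⟨j, rfl⟩ := hb
    exact e4 i j c
  · obtain ⟨i, rfl⟩ := ha
    obtain ⟨j, rfl⟩ := hb
    exact e4 i j c
  · obtain ⟨i, rfl⟩ := ha
    obtain ⟨j, rfl⟩ := hc
    exact s23 _ _ _ (e4 i j b)
  · obtain ⟨i, rfl⟩ := ha
    exact decode_slope h h' i (hE i) b c hb hc
  · obtain ⟨i, rfl⟩ := hb
    obtain ⟨j, rfl⟩ := hc
    exact s12 _ _ _ (s23 _ _ _ (e4 i j a))
  · obtain ⟨i, rfl⟩ := hb
    exact s12 _ _ _ (decode_slope h h' i (hE i) a c ha hc)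
  · obtain ⟨i, rfl⟩ := hc
    exact s23 _ _ _ (s12 _ _ _ (decode_slope h h' i (hE i) a b ha hb))
  · exact decode_lam h h' a b c ha hb hc

/-- The number of codes. -/
lemma card_code (n k : ℕ) : Fintype.card (Code n k) =
    n ^ k * (2 ^ n * ((2 ^ n * (2 ^ (2 * n + 1)) ^ 8) ^ k * ((3 ^ n) ^ k) ^ k)) := by
  have h3 : Fintype.card SignType = 3 := rfl
  simp only [Fintype.card_prod, Fintype.card_fun, Fintype.card_fin, Fintype.card_bool,
    Fintype.card_finset, h3]

end Q149.NC
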