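import Pool.Agent.Q149.NCDefs
import Pool.Agent.Q149.NCode2

set_option autoImplicit false

/-!
The upper bound for the number of order types which are convex up to `k` points.
-/

namespace Q149.NearConvex

open Q149.NC

/-- A point in convex position is separated from the other points by a line. -/
lemma separate (S : Finset Plane) (hS : ConvexPosition S) (p : Plane) (hp : p ∈ S) :
    ∃ α β : ℝ, ∀ q ∈ S, q ≠ p → 0 < α * (q 0 - p 0) + β * (q 1 - p 1) := by
  have h1 : p ∉ convexHull ℝ ((S : Set Plane) \ {p}) := by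
    intro h
    have h2 : p ∈ (convexHull ℝ ((S : Set Plane) \ {p})).extremePoints ℝ :=
      inter_extremePoints_subset_extremePoints_of_subset
        (convexHull_mono Set.sdiff_subset) ⟨h, hS p hp⟩
    exact (extremePoints_convexHull_subset h2).2 rfl
  have hfin : ((S : Set Plane) \ {p}).Finite := (Finset.finite_toSet S).subset Set.sdiff_subset
  have hcl : IsClosed (convexHull ℝ ((S : Set Plane) \ {p})) :=
    (hfin.isCompact_convexHull (𝕜 := ℝ)).isClosed
  obtain ⟨f, u, hu, hf⟩ := geometric_hahn_banach_point_closed (convex_convexHull ℝ _) hcl h1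
  have hfv : ∀ v : Plane, f v = f (EuclideanSpace.single 0 1) * v 0 +
      f (EuclideanSpace.single 1 1) * v 1 := by
    intro v
    have e : v = v 0 • EuclideanSpace.single (0 : Fin 2) (1 : ℝ) +
        v 1 • EuclideanSpace.single (1 : Fin 2) (1 : ℝ) := by
      ext i
      fin_cases i <;> simp
    conv_lhs => rw [e]
    rw [map_add, map_smul, map_smul, smul_eq_mul, smul_eq_mul]
    ring
  refine ⟨f (EuclideanSpace.single 0 1), f (EuclideanSpace.single 1 1), fun q hq hqp => ?_⟩
  have h2 := hf q (subset_convexHull ℝ _ ⟨hq, hqp⟩)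
  rw [hfv] at h2 hu
  linarith

/-- A shear makes the first coordinates distinct. -/
lemma shear_exists (S : Finset Plane) : ∃ ε : ℝ, ∀ p ∈ S, ∀ q ∈ S,
    p 0 + ε * p 1 = q 0 + ε * q 1 → p = q := by
  classical
  obtain ⟨ε, hε⟩ := Infinite.exists_notMem_finset
    ((S ×ˢ S).image fun r => -(r.1 0 - r.2 0) / (r.1 1 - r.2 1))
  refine ⟨ε, fun p hp q hq h => ?_⟩
  by_cases h1 : p 1 = q 1
  · have h0 : p 0 = q 0 := by rw [h1] at h; linarith
    ext i
    fin_cases i
    · exact h0
    · exact h1
  · exfalso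
    apply hε
    rw [Finset.mem_image]
    refine ⟨(p, q), Finset.mem_product.2 ⟨hp, hq⟩, ?_⟩
    have : p 1 - q 1 ≠ 0 := sub_ne_zero.2 h1
    simp only
    rw [div_eq_iff this]
    linarith

/-- The normal form of a configuration. -/
lemma normal_form (S : Finset Plane) (n k : ℕ) (hn : 0 < n) (hS : S.card = n) (hk : dtc S < k) :
    ∃ (e : Fin n ≃ S) (X Y : Fin n → ℝ) (τ : Fin k → Fin n), NF X Y τ ∧
      ∀ a b c, orient (e a : Plane) (e b : Plane) (e c : Plane) = chi X Y a b c := by
  classical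
  have hne : {r | ∃ R : Finset Plane, R ⊆ S ∧ R.card = r ∧ ConvexPosition (S \ R)}.Nonempty := by
    refine ⟨S.card, S, Finset.Subset.refl _, rfl, ?_⟩
    intro p hp
    rw [Finset.sdiff_self] at hp
    exact absurd hp (Finset.notMem_empty p)
  obtain ⟨R, hRS, hR, hconv⟩ := Nat.sInf_mem hne
  have hRk : R.card < k := by
    have : dtc S = R.card := by
      rw [hR, dtc]
    omega
  obtain ⟨ε, hε⟩ := shear_exists S
  set f : Plane → ℝ := fun p => p 0 + ε * p 1 with hf
  have hinj : Set.InjOn f S := fun p hp q hq h => hε p hp q hq h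
  have hcard : (S.image f).card = n := by
    rw [Finset.card_image_of_injOn hinj, hS]
  set g := (S.image f).orderEmbOfFin hcard with hg
  have h1 : ∀ a : Fin n, ∃ p : S, f p = g a := by
    intro a
    have := Finset.orderEmbOfFin_mem (S.image f) hcard a
    rw [Finset.mem_image] at this
    obtain ⟨p, hp, hpa⟩ := this
    exact ⟨⟨p, hp⟩, hpa⟩
  choose e0 he0 using h1
  have he0inj : Function.Injective e0 := by
    intro a b hab
    have : g a = g b := by rw [← he0, ← he0, hab]
    exact g.injective this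
  have hbij : Function.Bijective e0 := by
    rw [Fintype.bijective_iff_injective_and_card]
    refine ⟨he0inj, ?_⟩
    rw [Fintype.card_fin, Fintype.card_coe, hS]
  set e : Fin n ≃ S := Equiv.ofBijective e0 hbij with he
  set X : Fin n → ℝ := fun a => f (e a) with hX
  set Y : Fin n → ℝ := fun a => (e a : Plane) 1 with hY
  have hXmono : StrictMono X := by
    intro a b hab
    have : g a < g b := g.strictMono hab
    rw [← he0, ← he0] at this
    exact this
  set R' : Finset (Fin n) := Finset.univ.filter fun a => (e a : Plane) ∈ R with hR'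
  have hR'card : R'.card ≤ R.card := by
    refine Finset.card_le_card_of_injOn (fun a => (e a : Plane)) ?_ ?_
    · intro a ha
      rw [hR', Finset.mem_coe, Finset.mem_filter] at ha
      exact ha.2
    · intro a _ b _ hab
      exact e.injective (Subtype.ext hab)
  set τ : Fin k → Fin n := fun i =>
    if h : i.val < R'.card then R'.orderEmbOfFin rfl ⟨i, h⟩ else ⟨0, hn⟩ with hτ
  have hτR : ∀ a, a ∉ Set.range τ → (e a : Plane) ∉ R := by
    intro a ha haR
    apply ha
    have haR' : a ∈ R' := by rw [hR', Finset.mem_filter]; exact ⟨Finset.mem_univ _, haR⟩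
    have h2 : a ∈ Set.range (R'.orderEmbOfFin rfl) := by
      rw [Finset.range_orderEmbOfFin]
      exact haR'
    obtain ⟨j, hj⟩ := h2
    refine ⟨⟨j.val, by have := j.isLt; omega⟩, ?_⟩
    simp only [hτ]
    rw [dif_pos j.isLt]
    exact hj
  refine ⟨e, X, Y, τ, ⟨hXmono, fun a ha => ?_⟩, fun a b c => ?_⟩
  · have haC : (e a : Plane) ∈ S \ R := Finset.mem_sdiff.2 ⟨(e a).2, hτR a ha⟩
    obtain ⟨α, β, hαβ⟩ := separate (S \ R) hconv (e a) haC
    refine ⟨α, β - ε * α, fun b hb hba => ?_⟩
    have hbC : (e b : Plane) ∈ S \ R := Finset.mem_sdiff.2 ⟨(e b).2, hτR b hb⟩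
    have h2 := hαβ (e b) hbC (fun h => hba (e.injective (Subtype.ext h)))
    simp only [hX, hY, hf]
    calc 0 < _ := h2
      _ = _ := by ring
  · rw [orient, chi]
    congr 1
    simp only [det3, D, hX, hY, hf]
    ring

theorem upper (n k : ℕ) (hn : 0 < n) :
    (classes k n).Finite ∧ c k n ≤ Fintype.card (Code n k) := by
  classical
  have h1 : ∀ q : classes k n, ∃ (S : Finset Plane) (e : Fin n ≃ S) (X Y : Fin n → ℝ)
      (τ : Fin k → Fin n) (lam : Fin n → Bool) (κ : Fin k → Fin n → Bool),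
      Quotient.mk orderTypeSetoid S = q ∧ Good X Y τ lam κ ∧
      ∀ a b c, orient (e a : Plane) (e b : Plane) (e c : Plane) = chi X Y a b c := by
    rintro ⟨q, S, hS, hk, hq⟩
    obtain ⟨e, X, Y, τ, hnf, hor⟩ := normal_form S n k hn hS hk
    obtain ⟨lam, κ, hgood⟩ := good_exists hnf
    exact ⟨S, e, X, Y, τ, lam, κ, hq, hgood, hor⟩
  choose S e X Y τ lam κ hq hgood hor using h1
  have hinj : Function.Injective (fun q => code (X q) (Y q) (τ q) (lam q) (κ q)) := by
    intro q q' h
    apply Subtype.ext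
    rw [← hq q, ← hq q']
    apply Quotient.sound
    refine ⟨(e q).symm.trans (e q'), fun a b c => ?_⟩
    have h2 := decode (hgood q) (hgood q') h ((e q).symm a) ((e q).symm b) ((e q).symm c)
    rw [← hor, ← hor] at h2
    simp only [Equiv.apply_symm_apply] at h2
    exact h2.symm
  have hfin : Finite (classes k n) := Finite.of_injective _ hinj
  refine ⟨hfin, ?_⟩
  rw [c, ← Nat.card_coe_set_eq]
  refine (Nat.card_le_card_of_injective _ hinj).trans ?_
  rw [Nat.card_eq_fintype_card]

theorem upper_pow (n k : ℕ) (hn : 0 < n) : c k n ≤ 2 ^ ((1 + 26 * k + 2 * k ^ 2) * n) := by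
  refine (upper n k hn).2.trans ?_
  rw [card_code]
  have h1 : n ^ k ≤ 2 ^ (n * k) := by
    rw [pow_mul]
    exact Nat.pow_le_pow_left (Nat.lt_two_pow_self).le k
  have h2 : ((3 ^ n) ^ k) ^ k ≤ 2 ^ (2 * (n * k * k)) := by
    rw [← pow_mul, ← pow_mul, pow_mul 2 2 (n * k * k), ← mul_assoc]
    exact Nat.pow_le_pow_left (by norm_num : 3 ≤ 2 ^ 2) (n * k * k)
  have h3 : (2 ^ n * (2 ^ (2 * n + 1)) ^ 8) ^ k = 2 ^ ((n + (2 * n + 1) * 8) * k) := by
    rw [← pow_mul, ← pow_add, ← pow_mul]
  rw [h3]
  calc n ^ k * (2 ^ n * (2 ^ ((n + (2 * n + 1) * 8) * k) * ((3 ^ n) ^ k) ^ k))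
      ≤ 2 ^ (n * k) * (2 ^ n * (2 ^ ((n + (2 * n + 1) * 8) * k) * 2 ^ (2 * (n * k * k)))) := by
        gcongr
    _ = 2 ^ (n * k + (n + ((n + (2 * n + 1) * 8) * k + 2 * (n * k * k)))) := by
        rw [pow_add, pow_add, pow_add]
    _ ≤ 2 ^ ((1 + 26 * k + 2 * k ^ 2) * n) := by
        apply Nat.pow_le_pow_right (by norm_num)
        have h4 : k ≤ k * n := Nat.le_mul_of_pos_right k hn
        nlinarith

end Q149.NearConvex
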