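import Mathlib

set_option autoImplicit false

/-!
Labelled planar configurations which are convex up to `k` points: a code of linear length for the
orientations.
-/

namespace Q149.NC

variable {n k : ℕ}

/-- Twice the signed area of a triangle of a labelled configuration. -/
def D (X Y : Fin n → ℝ) (a b c : Fin n) : ℝ :=
  (X b - X a) * (Y c - Y a) - (Y b - Y a) * (X c - X a)

/-- The points outside the range of `τ` are in convex position and all points are labelled from
left to right. -/
structure NF (X Y : Fin n → ℝ) (τ : Fin k → Fin n) : Prop where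
  mono : StrictMono X
  sep : ∀ a, a ∉ Set.range τ → ∃ α β : ℝ, ∀ b, b ∉ Set.range τ → b ≠ a →
    0 < α * (X b - X a) + β * (Y b - Y a)

/-- The code type. -/
abbrev Code (n k : ℕ) : Type :=
  (Fin k → Fin n) × (Fin n → Bool) ×
    (Fin k → (Fin n → Bool) × (Bool × Bool × Bool → Finset (Fin (2 * n + 1)))) ×
    (Fin k → Fin k → Fin n → SignType)

section lemmas

variable {X Y : Fin n → ℝ} {τ : Fin k → Fin n}

lemma lam_exists (h : NF X Y τ) : ∃ lam : Fin n → Bool, ∀ a b c, a ∉ Set.range τ →
    b ∉ Set.range τ → c ∉ Set.range τ → a < b → b < c →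
    (lam b = true → 0 < D X Y a b c) ∧ (lam b = false → D X Y a b c < 0) := by
  have h1 : ∀ b, ∃ l : Bool, ∀ a c, a ∉ Set.range τ →
      b ∉ Set.range τ → c ∉ Set.range τ → a < b → b < c →
      (l = true → 0 < D X Y a b c) ∧ (l = false → D X Y a b c < 0) := by
    intro b
    by_cases hb : b ∈ Set.range τ
    · exact ⟨true, fun a c _ hb' => absurd hb hb'⟩
    · obtain ⟨α, β, hs⟩ := h.sep b hb
      have key : ∀ a c, a ∉ Set.range τ → c ∉ Set.range τ → a < b → b < c →
          0 < β * D X Y a b c := by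
        intro a c ha hc hab hbc
        have h1 := hs a ha hab.ne
        have h2 := hs c hc hbc.ne'
        have h3 : 0 < X b - X a := sub_pos.2 (h.mono hab)
        have h4 : 0 < X c - X b := sub_pos.2 (h.mono hbc)
        have h5 := mul_pos h1 h4
        have h6 := mul_pos h2 h3
        have e : β * D X Y a b c = (α * (X a - X b) + β * (Y a - Y b)) * (X c - X b) +
            (α * (X c - X b) + β * (Y c - Y b)) * (X b - X a) := by
          unfold D; ring
        rw [e]
        exact add_pos h5 h6
      by_cases hβ : 0 < β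
      · refine ⟨true, fun a c ha _ hc hab hbc => ⟨fun _ => ?_, fun hf => by simp at hf⟩⟩
        exact (mul_pos_iff_of_pos_left hβ).1 (key a c ha hc hab hbc)
      · refine ⟨false, fun a c ha _ hc hab hbc => ⟨fun hf => by simp at hf, fun _ => ?_⟩⟩
        have h1 := key a c ha hc hab hbc
        by_contra h2
        push Not at h2
        push Not at hβ
        have := mul_nonpos_of_nonpos_of_nonneg hβ h2
        linarith
  choose lam hlam using h1
  exact ⟨lam, fun a b c ha hb hc hab hbc => hlam b a c ha hb hc hab hbc⟩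

/-- A quasi-concave sequence on a set of indices is monotone and then antitone. -/
lemma unimodal (A : Fin n → Prop) (s : Fin n → ℝ)
    (hs : ∀ a b c, A a → A b → A c → a < b → b < c → min (s a) (s c) ≤ s b) :
    ∃ κ : Fin n → Bool, ∀ a b, A a → A b → a < b →
      (κ a = true → κ b = true → s a ≤ s b) ∧ (κ a = false → κ b = false → s b ≤ s a) := by
  classical
  by_cases hne : (Finset.univ.filter A).Nonempty
  · obtain ⟨p, hp, hmax⟩ := Finset.exists_max_image _ s hne
    rw [Finset.mem_filter] at hp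
    have hmax' : ∀ a, A a → s a ≤ s p := fun a ha => hmax a (by simp [ha])
    refine ⟨fun a => decide (a ≤ p), fun a b ha hb hab => ⟨fun _ h2 => ?_, fun h1 _ => ?_⟩⟩
    · rw [decide_eq_true_eq] at h2
      rcases h2.eq_or_lt with rfl | h2
      · exact hmax' a ha
      · have h3 := hs a b p ha hb hp.2 hab h2
        rwa [min_eq_left (hmax' a ha)] at h3
    · rw [decide_eq_false_iff_not, not_le] at h1
      have h3 := hs p a b hp.2 ha hb h1 hab
      rwa [min_eq_right (hmax' b hb)] at h3
  · refine ⟨fun _ => true, fun a b ha _ _ => absurd ⟨a, by simp [ha]⟩ hne⟩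

lemma unimodal' (A : Fin n → Prop) (s : Fin n → ℝ)
    (hs : ∀ a b c, A a → A b → A c → a < b → b < c → s b ≤ max (s a) (s c)) :
    ∃ κ : Fin n → Bool, ∀ a b, A a → A b → a < b →
      (κ a = true → κ b = true → s a ≤ s b) ∧ (κ a = false → κ b = false → s b ≤ s a) := by
  obtain ⟨κ, hκ⟩ := unimodal A (fun a => -s a) (fun a b c ha hb hc hab hbc => by
    have := hs a b c ha hb hc hab hbc
    rw [min_neg_neg]
    exact neg_le_neg this)
  refine ⟨fun a => !κ a, fun a b ha hb hab => ?_⟩
  obtain ⟨h1, h2⟩ := hκ a b ha hb hab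
  constructor
  · intro h3 h4
    have := h2 (by simpa using h3) (by simpa using h4)
    linarith
  · intro h3 h4
    have := h1 (by simpa using h3) (by simpa using h4)
    linarith

/-- The slope of the line from `t` to `a`. -/
noncomputable def slope (X Y : Fin n → ℝ) (t a : Fin n) : ℝ := (Y a - Y t) / (X a - X t)

lemma D_slope (hX : StrictMono X) (t a b : Fin n) (ha : a ≠ t) (hb : b ≠ t) :
    D X Y t a b = (X a - X t) * (X b - X t) * (slope X Y t b - slope X Y t a) := by
  have h1 : X a - X t ≠ 0 := sub_ne_zero.2 (fun e => ha (hX.injective e))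
  have h2 : X b - X t ≠ 0 := sub_ne_zero.2 (fun e => hb (hX.injective e))
  unfold D slope
  field_simp

lemma D_key (hX : StrictMono X) (t a b c : Fin n) (ha : a ≠ t) (hb : b ≠ t) (hc : c ≠ t) :
    D X Y a b c = (X b - X a) * ((slope X Y t c - slope X Y t b) * (X c - X t)) +
      (X c - X b) * ((slope X Y t a - slope X Y t b) * (X a - X t)) := by
  have h1 : X a - X t ≠ 0 := sub_ne_zero.2 (fun e => ha (hX.injective e))
  have h2 : X b - X t ≠ 0 := sub_ne_zero.2 (fun e => hb (hX.injective e))
  have h3 : X c - X t ≠ 0 := sub_ne_zero.2 (fun e => hc (hX.injective e))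
  have e1 : Y a = slope X Y t a * (X a - X t) + Y t := by unfold slope; field_simp; ring
  have e2 : Y b = slope X Y t b * (X b - X t) + Y t := by unfold slope; field_simp; ring
  have e3 : Y c = slope X Y t c * (X c - X t) + Y t := by unfold slope; field_simp; ring
  rw [D, e1, e2, e3]
  ring

/-- The slopes are piecewise monotone. -/
lemma kappa_exists (h : NF X Y τ) (lam : Fin n → Bool)
    (hlam : ∀ a b c, a ∉ Set.range τ → b ∉ Set.range τ → c ∉ Set.range τ → a < b → b < c →
      (lam b = true → 0 < D X Y a b c) ∧ (lam b = false → D X Y a b c < 0)) (i : Fin k) :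
    ∃ κ : Fin n → Bool, ∀ a b, a ∉ Set.range τ → b ∉ Set.range τ → lam a = lam b →
      decide (a < τ i) = decide (b < τ i) → a < b →
      (κ a = true → κ b = true → slope X Y (τ i) a ≤ slope X Y (τ i) b) ∧
      (κ a = false → κ b = false → slope X Y (τ i) b ≤ slope X Y (τ i) a) := by
  have hne : ∀ a, a ∉ Set.range τ → a ≠ τ i := fun a ha e => ha ⟨i, e.symm⟩
  have h1 : ∀ l side : Bool, ∃ κ : Fin n → Bool, ∀ a b,
      (a ∉ Set.range τ ∧ lam a = l ∧ decide (a < τ i) = side) →
      (b ∉ Set.range τ ∧ lam b = l ∧ decide (b < τ i) = side) → a < b →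
      (κ a = true → κ b = true → slope X Y (τ i) a ≤ slope X Y (τ i) b) ∧
      (κ a = false → κ b = false → slope X Y (τ i) b ≤ slope X Y (τ i) a) := by
    intro l side
    rcases l with _ | _ <;> rcases side with _ | _
    · -- `D < 0`, right side: quasi-concave
      refine unimodal _ _ ?_
      rintro a b c ⟨ha, -, ha2⟩ ⟨hb, hb1, hb2⟩ ⟨hc, -, hc2⟩ hab hbc
      have h3 := (hlam a b c ha hb hc hab hbc).2 hb1
      rw [D_key h.mono (τ i) a b c (hne a ha) (hne b hb) (hne c hc)] at h3
      rw [decide_eq_false_iff_not, not_lt] at ha2 hc2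
      have g1 : 0 < X a - X (τ i) := sub_pos.2 (h.mono (lt_of_le_of_ne ha2 (hne a ha).symm))
      have g2 : 0 < X c - X (τ i) := sub_pos.2 (h.mono (lt_of_le_of_ne hc2 (hne c hc).symm))
      have g3 : 0 < X b - X a := sub_pos.2 (h.mono hab)
      have g4 : 0 < X c - X b := sub_pos.2 (h.mono hbc)
      by_contra hcon
      push Not at hcon
      rw [lt_min_iff] at hcon
      have g5 := mul_pos g3 (mul_pos (sub_pos.2 hcon.2) g2)
      have g6 := mul_pos g4 (mul_pos (sub_pos.2 hcon.1) g1)
      linarith
    · -- `D < 0`, left side: quasi-convex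
      refine unimodal' _ _ ?_
      rintro a b c ⟨ha, -, ha2⟩ ⟨hb, hb1, hb2⟩ ⟨hc, -, hc2⟩ hab hbc
      have h3 := (hlam a b c ha hb hc hab hbc).2 hb1
      rw [D_key h.mono (τ i) a b c (hne a ha) (hne b hb) (hne c hc)] at h3
      rw [decide_eq_true_eq] at ha2 hc2
      have g1 : 0 < X (τ i) - X a := sub_pos.2 (h.mono ha2)
      have g2 : 0 < X (τ i) - X c := sub_pos.2 (h.mono hc2)
      have g3 : 0 < X b - X a := sub_pos.2 (h.mono hab)
      have g4 : 0 < X c - X b := sub_pos.2 (h.mono hbc)
      by_contra hcon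
      push Not at hcon
      rw [max_lt_iff] at hcon
      have g5 := mul_pos g3 (mul_pos (sub_pos.2 hcon.2) g2)
      have g6 := mul_pos g4 (mul_pos (sub_pos.2 hcon.1) g1)
      nlinarith
    · -- `D > 0`, right side: quasi-convex
      refine unimodal' _ _ ?_
      rintro a b c ⟨ha, -, ha2⟩ ⟨hb, hb1, hb2⟩ ⟨hc, -, hc2⟩ hab hbc
      have h3 := (hlam a b c ha hb hc hab hbc).1 hb1
      rw [D_key h.mono (τ i) a b c (hne a ha) (hne b hb) (hne c hc)] at h3
      rw [decide_eq_false_iff_not, not_lt] at ha2 hc2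
      have g1 : 0 < X a - X (τ i) := sub_pos.2 (h.mono (lt_of_le_of_ne ha2 (hne a ha).symm))
      have g2 : 0 < X c - X (τ i) := sub_pos.2 (h.mono (lt_of_le_of_ne hc2 (hne c hc).symm))
      have g3 : 0 < X b - X a := sub_pos.2 (h.mono hab)
      have g4 : 0 < X c - X b := sub_pos.2 (h.mono hbc)
      by_contra hcon
      push Not at hcon
      rw [max_lt_iff] at hcon
      have g5 := mul_pos g3 (mul_pos (sub_pos.2 hcon.2) g2)
      have g6 := mul_pos g4 (mul_pos (sub_pos.2 hcon.1) g1)
      nlinarith
    · -- `D > 0`, left side: quasi-concave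
      refine unimodal _ _ ?_
      rintro a b c ⟨ha, -, ha2⟩ ⟨hb, hb1, hb2⟩ ⟨hc, -, hc2⟩ hab hbc
      have h3 := (hlam a b c ha hb hc hab hbc).1 hb1
      rw [D_key h.mono (τ i) a b c (hne a ha) (hne b hb) (hne c hc)] at h3
      rw [decide_eq_true_eq] at ha2 hc2
      have g1 : 0 < X (τ i) - X a := sub_pos.2 (h.mono ha2)
      have g2 : 0 < X (τ i) - X c := sub_pos.2 (h.mono hc2)
      have g3 : 0 < X b - X a := sub_pos.2 (h.mono hab)
      have g4 : 0 < X c - X b := sub_pos.2 (h.mono hbc)
      by_contra hcon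
      push Not at hcon
      rw [lt_min_iff] at hcon
      have g5 := mul_pos g3 (mul_pos (sub_pos.2 hcon.2) g2)
      have g6 := mul_pos g4 (mul_pos (sub_pos.2 hcon.1) g1)
      nlinarith
  choose κ hκ using h1
  refine ⟨fun a => κ (lam a) (decide (a < τ i)) a, fun a b ha hb hl hs hab => ?_⟩
  have h2 := hκ (lam a) (decide (a < τ i)) a b ⟨ha, rfl, rfl⟩ ⟨hb, hl.symm, hs.symm⟩ hab
  simp only
  rw [← hl, ← hs]
  exact h2

end lemmas

end Q149.NC
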