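import Mathlib

/-!
A topological lemma: a symmetric continuous map of two angles that changes sign when one angle is
increased by `π`, and whose imaginary part is positive on the diagonal, has a zero.
-/

namespace Q149.Oct

theorem const_of_int {h : ℝ × ℝ → ℝ} (hc : Continuous h) (hk : ∀ x, ∃ k : ℤ, h x = k) :
    ∀ x y, h x = h y := by
  intro x y
  have hdisc : DiscreteTopology (AddSubgroup.zmultiples (1 : ℝ) : Set ℝ) :=
    inferInstanceAs (DiscreteTopology (AddSubgroup.zmultiples (1 : ℝ)))
  refine isPreconnected_univ.constant_of_mapsTo (T := (AddSubgroup.zmultiples (1 : ℝ) : Set ℝ))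
    ⟨hdisc⟩ hc.continuousOn ?_ (Set.mem_univ x) (Set.mem_univ y)
  intro z _
  obtain ⟨k, hk⟩ := hk z
  rw [hk]
  exact ⟨k, by simp⟩

theorem exists_zero (f : ℝ × ℝ → ℂ) (hf : Continuous f)
    (h1 : ∀ a b, f (a + Real.pi, b) = - f (a, b)) (h2 : ∀ a b, f (a, b) = f (b, a))
    (h3 : ∀ a, 0 < (f (a, a)).im) : ∃ a b, f (a, b) = 0 := by
  by_contra hcon
  push Not at hcon
  have h0 : ∀ x : ℝ × ℝ, f x ≠ 0 := fun x => hcon x.1 x.2
  have he : Complex.exp (Complex.log (f 0)) = (⟨f, hf⟩ : C(ℝ × ℝ, ℂ)) 0 := Complex.exp_log (h0 0)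
  obtain ⟨F, ⟨-, hF⟩, -⟩ := Complex.isCoveringMapOn_exp.existsUnique_continuousMap_lifts
    (⟨f, hf⟩ : C(ℝ × ℝ, ℂ)) (a₀ := (0 : ℝ × ℝ)) he (fun a => by simpa using h0 a)
  have hFx : ∀ x, Complex.exp (F x) = f x := fun x => congrFun hF x
  have hFc : Continuous F := F.continuous
  -- first relation
  have r1 : ∀ x : ℝ × ℝ, ∃ k : ℤ, ((F (x.1 + Real.pi, x.2)).im - (F x).im) / (2 * Real.pi) - 1 / 2
      = k := by
    intro x
    have e1 : Complex.exp (F (x.1 + Real.pi, x.2)) = Complex.exp (F x + Real.pi * Complex.I) := by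
      rw [Complex.exp_add, Complex.exp_pi_mul_I, hFx, hFx, h1]; simp
    rw [Complex.exp_eq_exp_iff_exists_int] at e1
    obtain ⟨k, hk⟩ := e1
    refine ⟨k, ?_⟩
    have h := congrArg Complex.im hk
    simp at h
    rw [h]
    field_simp
    ring
  have r2 : ∀ x : ℝ × ℝ, ∃ k : ℤ, ((F (x.2, x.1)).im - (F x).im) / (2 * Real.pi) = k := by
    intro x
    have e1 : Complex.exp (F (x.2, x.1)) = Complex.exp (F x) := by
      rw [hFx, hFx, h2]
    rw [Complex.exp_eq_exp_iff_exists_int] at e1
    obtain ⟨k, hk⟩ := e1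
    refine ⟨k, ?_⟩
    have h := congrArg Complex.im hk
    simp at h
    rw [h]
    field_simp
    ring
  have c1 := const_of_int (by fun_prop) r1
  have c2 := const_of_int (by fun_prop) r2
  obtain ⟨k, hk⟩ := r1 0
  have d1 : ∀ a b, (F (a + Real.pi, b)).im = (F (a, b)).im + (2 * k + 1) * Real.pi := by
    intro a b
    have h := c1 (a, b) 0
    rw [hk] at h
    field_simp at h
    linarith
  have d2 : ∀ a b, (F (b, a)).im = (F (a, b)).im := by
    intro a b
    have h := c2 (a, b) (0, 0)
    simp only [sub_self, zero_div] at h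
    have hp := Real.pi_pos
    have : (F (b, a)).im - (F (a, b)).im = 0 := by
      rw [div_eq_zero_iff] at h
      rcases h with h | h
      · exact h
      · exfalso; linarith
    linarith
  have d3 : (F (Real.pi, Real.pi)).im = (F (0, 0)).im + 2 * (2 * k + 1) * Real.pi := by
    have e1 := d1 0 (0 + Real.pi)
    have e2 := d2 (0 + Real.pi) 0
    have e3 := d1 0 0
    simp only [zero_add] at e1 e2 e3
    linarith
  -- the path along the diagonal
  have hsin : ∀ t : ℝ, 0 < Real.sin (F (t, t)).im := by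
    intro t
    have h := h3 t
    rw [← hFx, Complex.exp_im] at h
    exact (mul_pos_iff_of_pos_left (Real.exp_pos _)).1 h
  have hg : Continuous fun t : ℝ => (F (t, t)).im := by fun_prop
  -- some multiple of pi strictly between the end values
  have key : ∀ j : ℤ, ¬ ∃ t : ℝ, (F (t, t)).im = j * Real.pi := by
    rintro j ⟨t, ht⟩
    have := hsin t
    rw [ht, Real.sin_int_mul_pi] at this
    exact lt_irrefl _ this
  set u := (F (0, 0)).im with hu
  set v := (F (Real.pi, Real.pi)).im with hv
  have hp := Real.pi_pos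
  have huv : Real.pi ≤ |v - u| := by
    have : v - u = 2 * (2 * k + 1) * Real.pi := by linarith
    rw [this, abs_mul, abs_of_pos hp]
    have h1 : (1 : ℝ) ≤ |2 * (2 * (k : ℝ) + 1)| := by
      have : (2 * (2 * k + 1) : ℤ) ≠ 0 := by omega
      have := Int.one_le_abs this
      exact_mod_cast this
    nlinarith
  -- floor argument
  have hiv : Set.uIcc u v ⊆ Set.range fun t : ℝ => (F (t, t)).im := by
    intro y hy
    have := intermediate_value_uIcc (a := 0) (b := Real.pi) hg.continuousOn hy
    exact Set.image_subset_range _ _ this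
  obtain ⟨j, hj⟩ : ∃ j : ℤ, (j : ℝ) * Real.pi ∈ Set.uIcc u v := by
    rcases le_total u v with h | h
    · refine ⟨⌈u / Real.pi⌉, ?_⟩
      rw [Set.uIcc_of_le h]
      rw [abs_of_nonneg (by linarith)] at huv
      constructor
      · have := Int.le_ceil (u / Real.pi)
        rwa [div_le_iff₀ hp] at this
      · have := (Int.ceil_lt_add_one (u / Real.pi)).le
        have h2 : (⌈u / Real.pi⌉ : ℝ) * Real.pi ≤ (u / Real.pi + 1) * Real.pi :=
          mul_le_mul_of_nonneg_right this hp.le
        have h3 : (u / Real.pi + 1) * Real.pi = u + Real.pi := by field_simp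
        linarith
    · refine ⟨⌈v / Real.pi⌉, ?_⟩
      rw [Set.uIcc_of_ge h]
      rw [abs_of_nonpos (by linarith)] at huv
      constructor
      · have := Int.le_ceil (v / Real.pi)
        rwa [div_le_iff₀ hp] at this
      · have := (Int.ceil_lt_add_one (v / Real.pi)).le
        have h2 : (⌈v / Real.pi⌉ : ℝ) * Real.pi ≤ (v / Real.pi + 1) * Real.pi :=
          mul_le_mul_of_nonneg_right this hp.le
        have h3 : (v / Real.pi + 1) * Real.pi = v + Real.pi := by field_simp
        linarith
  obtain ⟨t, ht⟩ := hiv hj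
  exact key j ⟨t, ht⟩

end Q149.Oct
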