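import Mathlib

/-!
Families of soft bisecting planes: existence, uniqueness and continuity.
-/

namespace Q149.Oct

open Real

/-- A strictly decreasing family of functions has a continuous family of zeros. -/
theorem implicit {X : Type*} [TopologicalSpace X] (F : X → ℝ → ℝ)
    (hF : Continuous fun p : X × ℝ => F p.1 p.2) (hmono : ∀ x, StrictAnti (F x))
    (hpos : ∀ x, ∃ t, 0 < F x t) (hneg : ∀ x, ∃ t, F x t < 0) :
    ∃ g : X → ℝ, Continuous g ∧ ∀ x, F x (g x) = 0 := by
  have hex : ∀ x, ∃ t, F x t = 0 := by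
    intro x
    obtain ⟨a, ha⟩ := hpos x
    obtain ⟨b, hb⟩ := hneg x
    have hc : Continuous (F x) := hF.comp (by fun_prop : Continuous fun t : ℝ => (x, t))
    have hab : a ≤ b := by
      by_contra h
      push Not at h
      have := hmono x h
      linarith
    have := intermediate_value_Icc' hab hc.continuousOn
    obtain ⟨t, _, ht⟩ := this ⟨hb.le, ha.le⟩
    exact ⟨t, ht⟩
  choose g hg using hex
  refine ⟨g, ?_, hg⟩
  rw [continuous_iff_continuousAt]
  intro x
  rw [Metric.continuousAt_iff']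
  intro ε hε
  have h1 : 0 < F x (g x - ε) := by
    rw [← hg x]; exact hmono x (by linarith)
  have h2 : F x (g x + ε) < 0 := by
    rw [← hg x]; exact hmono x (by linarith)
  have c1 : Continuous fun y => F y (g x - ε) :=
    hF.comp (by fun_prop : Continuous fun y : X => (y, g x - ε))
  have c2 : Continuous fun y => F y (g x + ε) :=
    hF.comp (by fun_prop : Continuous fun y : X => (y, g x + ε))
  have e1 := c1.continuousAt.eventually (lt_mem_nhds h1)
  have e2 := c2.continuousAt.eventually (gt_mem_nhds h2)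
  filter_upwards [e1, e2] with y hy1 hy2
  rw [Real.dist_eq, abs_lt]
  constructor
  · by_contra h
    push Not at h
    have : g y ≤ g x - ε := by linarith
    have := (hmono y).antitone this
    rw [hg y] at this
    linarith
  · by_contra h
    push Not at h
    have : g x + ε ≤ g y := by linarith
    have := (hmono y).antitone this
    rw [hg y] at this
    linarith

section

variable {ι : Type*} (u v z : ι → ℝ)

/-- The horizontal coordinate orthogonal to direction `θ`. -/
noncomputable def V (θ : ℝ) (x : ι) : ℝ := cos θ * u x + sin θ * v x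

theorem V_pi (θ : ℝ) (x : ι) : V u v (θ + π) x = - V u v θ x := by
  unfold V; rw [cos_add_pi, sin_add_pi]; ring

theorem V_abs {C : ℝ} (θ : ℝ) (x : ι) (h : |u x| + |v x| ≤ C) : |V u v θ x| ≤ C := by
  unfold V
  calc |cos θ * u x + sin θ * v x| ≤ |cos θ * u x| + |sin θ * v x| := abs_add_le _ _
    _ = |cos θ| * |u x| + |sin θ| * |v x| := by rw [abs_mul, abs_mul]
    _ ≤ 1 * |u x| + 1 * |v x| := by
        gcongr
        · exact abs_cos_le_one θ
        · exact abs_sin_le_one θ
    _ ≤ C := by linarith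

/-- The soft sum. -/
noncomputable def S (A : Finset ι) (ε θ q p : ℝ) : ℝ :=
  ∑ a ∈ A, arctan ((V u v θ a - p - q * z a) / ε)

theorem S_continuous (A : Finset ι) (ε : ℝ) :
    Continuous fun x : (ℝ × ℝ) × ℝ => S u v z A ε x.1.1 x.1.2 x.2 := by
  unfold S V
  fun_prop

theorem S_anti {A : Finset ι} (hA : A.Nonempty) {ε : ℝ} (hε : 0 < ε) (θ q : ℝ) :
    StrictAnti (S u v z A ε θ q) := by
  intro p p' hp
  apply Finset.sum_lt_sum_of_nonempty hA
  intro a _
  apply arctan_strictMono
  apply div_lt_div_of_pos_right _ hε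
  linarith

theorem S_pos {A : Finset ι} (hA : A.Nonempty) {ε : ℝ} (hε : 0 < ε) {θ q p : ℝ}
    (h : ∀ a ∈ A, 0 < V u v θ a - p - q * z a) : 0 < S u v z A ε θ q p := by
  apply Finset.sum_pos _ hA
  intro a ha
  apply arctan_pos.2
  exact div_pos (h a ha) hε

theorem S_neg {A : Finset ι} (hA : A.Nonempty) {ε : ℝ} (hε : 0 < ε) {θ q p : ℝ}
    (h : ∀ a ∈ A, V u v θ a - p - q * z a < 0) : S u v z A ε θ q p < 0 := by
  apply Finset.sum_neg _ hA
  intro a ha
  apply arctan_lt_zero.2
  exact div_neg_of_neg_of_pos (h a ha) hε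

theorem S_pi (A : Finset ι) (ε θ q p : ℝ) :
    S u v z A ε (θ + π) (-q) (-p) = - S u v z A ε θ q p := by
  unfold S
  rw [← Finset.sum_neg_distrib]
  apply Finset.sum_congr rfl
  intro a _
  rw [← arctan_neg]
  congr 1
  rw [V_pi]
  ring

variable {u v z}

/-- The family of soft bisecting planes. -/
theorem exists_family {A B : Finset ι} (hA : A.Nonempty) (hB : B.Nonempty) {C δ Z : ℝ}
    (hδ : 0 < δ)
    (hCA : ∀ a ∈ A, |u a| + |v a| ≤ C) (hCB : ∀ a ∈ B, |u a| + |v a| ≤ C)
    (hzA : ∀ a ∈ A, δ ≤ z a) (hzB : ∀ a ∈ B, z a ≤ -δ) (hZA : ∀ a ∈ A, |z a| ≤ Z)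
    {ε : ℝ} (hε : 0 < ε) :
    ∃ p q : ℝ → ℝ, Continuous p ∧ Continuous q ∧
      (∀ θ, S u v z A ε θ (q θ) (p θ) = 0) ∧ (∀ θ, S u v z B ε θ (q θ) (p θ) = 0) ∧
      (∀ θ, p (θ + π) = - p θ) ∧ (∀ θ, q (θ + π) = - q θ) ∧
      (∀ θ, |q θ| ≤ C / δ) ∧ (∀ θ, |p θ| ≤ C + C / δ * Z) := by
  have hC : 0 ≤ C := by
    obtain ⟨a, ha⟩ := hA
    have := hCA a ha
    have := abs_nonneg (u a)
    have := abs_nonneg (v a)
    linarith
  -- solving for p
  have solve : ∀ A : Finset ι, A.Nonempty → (∀ a ∈ A, |u a| + |v a| ≤ C) →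
      ∃ g : ℝ × ℝ → ℝ, Continuous g ∧ ∀ x, S u v z A ε x.1 x.2 (g x) = 0 := by
    intro A hA _
    refine implicit (fun x : ℝ × ℝ => S u v z A ε x.1 x.2) (S_continuous u v z A ε)
      (fun x => S_anti u v z hA hε x.1 x.2) ?_ ?_
    · intro x
      obtain ⟨M, hM⟩ : ∃ M, ∀ a ∈ A, |V u v x.1 a - x.2 * z a| < M := by
        refine ⟨∑ a ∈ A, |V u v x.1 a - x.2 * z a| + 1, fun a ha => ?_⟩
        have := Finset.single_le_sum (f := fun a => |V u v x.1 a - x.2 * z a|)
          (fun i _ => abs_nonneg _) ha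
        linarith
      refine ⟨-M, S_pos u v z hA hε fun a ha => ?_⟩
      have := (abs_lt.1 (hM a ha)).1
      linarith
    · intro x
      obtain ⟨M, hM⟩ : ∃ M, ∀ a ∈ A, |V u v x.1 a - x.2 * z a| < M := by
        refine ⟨∑ a ∈ A, |V u v x.1 a - x.2 * z a| + 1, fun a ha => ?_⟩
        have := Finset.single_le_sum (f := fun a => |V u v x.1 a - x.2 * z a|)
          (fun i _ => abs_nonneg _) ha
        linarith
      refine ⟨M, S_neg u v z hA hε fun a ha => ?_⟩
      have := (abs_lt.1 (hM a ha)).2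
      linarith
  obtain ⟨pA, hpAc, hpA⟩ := solve A hA hCA
  obtain ⟨pB, hpBc, hpB⟩ := solve B hB hCB
  have exA1 : ∀ θ q, ∃ a ∈ A, 0 ≤ V u v θ a - pA (θ, q) - q * z a := by
    intro θ q
    by_contra h
    push Not at h
    have := S_neg u v z hA hε h
    rw [hpA (θ, q)] at this
    exact lt_irrefl _ this
  have exA2 : ∀ θ q, ∃ a ∈ A, V u v θ a - pA (θ, q) - q * z a ≤ 0 := by
    intro θ q
    by_contra h
    push Not at h
    have := S_pos u v z hA hε h
    rw [hpA (θ, q)] at this
    exact lt_irrefl _ this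
  have exB1 : ∀ θ q, ∃ a ∈ B, 0 ≤ V u v θ a - pB (θ, q) - q * z a := by
    intro θ q
    by_contra h
    push Not at h
    have := S_neg u v z hB hε h
    rw [hpB (θ, q)] at this
    exact lt_irrefl _ this
  have exB2 : ∀ θ q, ∃ a ∈ B, V u v θ a - pB (θ, q) - q * z a ≤ 0 := by
    intro θ q
    by_contra h
    push Not at h
    have := S_pos u v z hB hε h
    rw [hpB (θ, q)] at this
    exact lt_irrefl _ this
  -- bounds on the difference
  have up : ∀ θ q, 0 ≤ q → pA (θ, q) - pB (θ, q) ≤ 2 * C - 2 * (q * δ) := by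
    intro θ q hq
    obtain ⟨a, ha, h1⟩ := exA1 θ q
    obtain ⟨b, hb, h2⟩ := exB2 θ q
    have := (abs_le.1 (V_abs u v θ a (hCA a ha))).2
    have := (abs_le.1 (V_abs u v θ b (hCB b hb))).1
    have := mul_le_mul_of_nonneg_left (hzA a ha) hq
    have := mul_le_mul_of_nonneg_left (hzB b hb) hq
    linarith
  have down : ∀ θ q, q ≤ 0 → -2 * C - 2 * (q * δ) ≤ pA (θ, q) - pB (θ, q) := by
    intro θ q hq
    obtain ⟨a, ha, h1⟩ := exA2 θ q
    obtain ⟨b, hb, h2⟩ := exB1 θ q
    have := (abs_le.1 (V_abs u v θ a (hCA a ha))).1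
    have := (abs_le.1 (V_abs u v θ b (hCB b hb))).2
    have := mul_le_mul_of_nonpos_left (hzA a ha) hq
    have := mul_le_mul_of_nonpos_left (hzB b hb) hq
    linarith
  have antiA : ∀ θ q q', q < q' → pA (θ, q') < pA (θ, q) := by
    intro θ q q' hq
    by_contra h
    push Not at h
    have h1 := (S_anti u v z hA hε θ q').antitone h
    rw [hpA (θ, q')] at h1
    have h2 : S u v z A ε θ q' (pA (θ, q)) < S u v z A ε θ q (pA (θ, q)) := by
      apply Finset.sum_lt_sum_of_nonempty hA
      intro a ha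
      apply arctan_strictMono
      apply div_lt_div_of_pos_right _ hε
      have := hzA a ha
      nlinarith
    rw [hpA (θ, q)] at h2
    linarith
  have monoB : ∀ θ q q', q < q' → pB (θ, q) < pB (θ, q') := by
    intro θ q q' hq
    by_contra h
    push Not at h
    have h1 := (S_anti u v z hB hε θ q').antitone h
    rw [hpB (θ, q')] at h1
    have h2 : S u v z B ε θ q (pB (θ, q)) < S u v z B ε θ q' (pB (θ, q)) := by
      apply Finset.sum_lt_sum_of_nonempty hB
      intro a ha
      apply arctan_strictMono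
      apply div_lt_div_of_pos_right _ hε
      have := hzB a ha
      nlinarith
    rw [hpB (θ, q)] at h2
    linarith
  obtain ⟨q, hqc, hq⟩ := implicit (fun θ q : ℝ => pA (θ, q) - pB (θ, q)) (by fun_prop)
    (fun θ q q' h => by
      have := antiA θ q q' h
      have := monoB θ q q' h
      simp only; linarith)
    (fun θ => by
      refine ⟨-(C / δ + 1), ?_⟩
      have h0 : 0 ≤ C / δ := by positivity
      have := down θ (-(C / δ + 1)) (by linarith)
      have h1 : -(C / δ + 1) * δ = -C - δ := by field_simp; ring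
      rw [h1] at this
      linarith)
    (fun θ => by
      refine ⟨C / δ + 1, ?_⟩
      have h0 : 0 ≤ C / δ := by positivity
      have := up θ (C / δ + 1) (by linarith)
      have h1 : (C / δ + 1) * δ = C + δ := by field_simp
      rw [h1] at this
      linarith)
  have hq' : ∀ θ, pA (θ, q θ) = pB (θ, q θ) := fun θ => by linarith [hq θ]
  have hSA : ∀ θ, S u v z A ε θ (q θ) (pA (θ, q θ)) = 0 := fun θ => hpA (θ, q θ)
  have hSB : ∀ θ, S u v z B ε θ (q θ) (pA (θ, q θ)) = 0 := fun θ => by
    rw [hq' θ]; exact hpB (θ, q θ)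
  -- uniqueness
  have uniqA : ∀ θ q p, S u v z A ε θ q p = 0 → p = pA (θ, q) := by
    intro θ q p h
    have h2 := hpA (θ, q)
    exact (S_anti u v z hA hε θ q).injective (h.trans h2.symm)
  have uniqB : ∀ θ q p, S u v z B ε θ q p = 0 → p = pB (θ, q) := by
    intro θ q p h
    have h2 := hpB (θ, q)
    exact (S_anti u v z hB hε θ q).injective (h.trans h2.symm)
  have uniqq : ∀ θ q₁, pA (θ, q₁) = pB (θ, q₁) → q₁ = q θ := by
    intro θ q₁ h
    rcases lt_trichotomy q₁ (q θ) with h1 | h1 | h1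
    · have := antiA θ _ _ h1
      have := monoB θ _ _ h1
      have := hq' θ
      linarith
    · exact h1
    · have := antiA θ _ _ h1
      have := monoB θ _ _ h1
      have := hq' θ
      linarith
  have hqpi : ∀ θ, q (θ + π) = - q θ := by
    intro θ
    have h1 : S u v z A ε (θ + π) (-q θ) (-pA (θ, q θ)) = 0 := by rw [S_pi, hSA, neg_zero]
    have h2 : S u v z B ε (θ + π) (-q θ) (-pA (θ, q θ)) = 0 := by rw [S_pi, hSB, neg_zero]
    have e1 := uniqA _ _ _ h1
    have e2 := uniqB _ _ _ h2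
    exact (uniqq _ _ (e1.symm.trans e2)).symm
  have hqb : ∀ θ, |q θ| ≤ C / δ := by
    intro θ
    rw [abs_le]
    constructor
    · rcases le_total (q θ) 0 with h | h
      · have := down θ (q θ) h
        rw [hq θ] at this
        rw [neg_le, le_div_iff₀ hδ]
        linarith
      · have : 0 ≤ C / δ := by positivity
        linarith
    · rcases le_total 0 (q θ) with h | h
      · have := up θ (q θ) h
        rw [hq θ] at this
        rw [le_div_iff₀ hδ]
        linarith
      · have : 0 ≤ C / δ := by positivity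
        linarith
  refine ⟨fun θ => pA (θ, q θ), q, by fun_prop, hqc, hSA, hSB, ?_, hqpi, hqb, ?_⟩
  · intro θ
    have h1 : S u v z A ε (θ + π) (-q θ) (-pA (θ, q θ)) = 0 := by rw [S_pi, hSA, neg_zero]
    have e1 := uniqA _ _ _ h1
    simp only
    rw [hqpi, ← e1]
  · intro θ
    obtain ⟨a, ha, h1⟩ := exA1 θ (q θ)
    obtain ⟨b, hb, h2⟩ := exA2 θ (q θ)
    have v1 := (abs_le.1 (V_abs u v θ a (hCA a ha))).2
    have v2 := (abs_le.1 (V_abs u v θ b (hCA b hb))).1
    have b1 : |q θ * z a| ≤ C / δ * Z := by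
      rw [abs_mul]; exact mul_le_mul (hqb θ) (hZA a ha) (abs_nonneg _) (by positivity)
    have b2 : |q θ * z b| ≤ C / δ * Z := by
      rw [abs_mul]; exact mul_le_mul (hqb θ) (hZA b hb) (abs_nonneg _) (by positivity)
    have := abs_le.1 b1
    have := abs_le.1 b2
    rw [abs_le]
    constructor <;> linarith

end

end Q149.Oct
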