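import Pool.Agent.Q149.Oct1
import Pool.Agent.Q149.Oct2

/-!
Two soft planes that cut both halves into four equal soft parts, and the rounding step.
-/

namespace Q149.Oct

open Real

section

variable {ι : Type*} {u v z : ι → ℝ}

/-- The two soft planes. -/
theorem exists_pair {A B : Finset ι} (hA : A.Nonempty) (hB : B.Nonempty) {C δ Z : ℝ}
    (hδ : 0 < δ)
    (hCA : ∀ a ∈ A, |u a| + |v a| ≤ C) (hCB : ∀ a ∈ B, |u a| + |v a| ≤ C)
    (hzA : ∀ a ∈ A, δ ≤ z a) (hzB : ∀ a ∈ B, z a ≤ -δ) (hZA : ∀ a ∈ A, |z a| ≤ Z)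
    (hgen : ∀ θ p q : ℝ, ∃ b ∈ B, V u v θ b - p - q * z b ≠ 0)
    {ε : ℝ} (hε : 0 < ε) :
    ∃ θ φ p q p' q' : ℝ,
      |q| ≤ C / δ ∧ |p| ≤ C + C / δ * Z ∧ |q'| ≤ C / δ ∧ |p'| ≤ C + C / δ * Z ∧
      (∑ a ∈ A, arctan ((V u v θ a - p - q * z a) / ε) = 0) ∧
      (∑ a ∈ B, arctan ((V u v θ a - p - q * z a) / ε) = 0) ∧
      (∑ a ∈ A, arctan ((V u v φ a - p' - q' * z a) / ε) = 0) ∧
      (∑ a ∈ B, arctan ((V u v φ a - p' - q' * z a) / ε) = 0) ∧
      (∑ a ∈ A, arctan ((V u v θ a - p - q * z a) / ε) *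
        arctan ((V u v φ a - p' - q' * z a) / ε) = 0) ∧
      (∑ a ∈ B, arctan ((V u v θ a - p - q * z a) / ε) *
        arctan ((V u v φ a - p' - q' * z a) / ε) = 0) := by
  obtain ⟨p, q, hpc, hqc, hSA, hSB, hppi, hqpi, hqb, hpb⟩ :=
    exists_family hA hB hδ hCA hCB hzA hzB hZA hε
  set T : ℝ → ι → ℝ := fun θ a => arctan ((V u v θ a - p θ - q θ * z a) / ε) with hT
  have hTc : ∀ a, Continuous fun θ => T θ a := by
    intro a
    simp only [hT]
    unfold V
    fun_prop
  have hTpi : ∀ θ a, T (θ + π) a = - T θ a := by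
    intro θ a
    simp only [hT]
    rw [← arctan_neg, V_pi, hppi, hqpi]
    congr 1
    ring
  set f : ℝ × ℝ → ℂ := fun x => (((∑ a ∈ A, T x.1 a * T x.2 a : ℝ) : ℂ)) +
    ((∑ a ∈ B, T x.1 a * T x.2 a : ℝ) : ℂ) * Complex.I with hf
  have hfim : ∀ x, (f x).im = ∑ a ∈ B, T x.1 a * T x.2 a := by
    intro x; simp [hf]
  have hfre : ∀ x, (f x).re = ∑ a ∈ A, T x.1 a * T x.2 a := by
    intro x; simp [hf]
  have hfc : Continuous f := by
    have hc : ∀ D : Finset ι, Continuous fun x : ℝ × ℝ => ∑ a ∈ D, T x.1 a * T x.2 a := by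
      intro D
      refine continuous_finsetSum D fun a _ => ?_
      exact ((hTc a).comp continuous_fst).mul ((hTc a).comp continuous_snd)
    simp only [hf]
    exact (Complex.continuous_ofReal.comp (hc A)).add
      ((Complex.continuous_ofReal.comp (hc B)).mul continuous_const)
  obtain ⟨θ, φ, h0⟩ := exists_zero f hfc
    (by
      intro a b
      apply Complex.ext
      · rw [hfre, Complex.neg_re, hfre, ← Finset.sum_neg_distrib]
        apply Finset.sum_congr rfl
        intro x _
        simp only [hTpi]; ring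
      · rw [hfim, Complex.neg_im, hfim, ← Finset.sum_neg_distrib]
        apply Finset.sum_congr rfl
        intro x _
        simp only [hTpi]; ring)
    (by
      intro a b
      apply Complex.ext
      · rw [hfre, hfre]
        apply Finset.sum_congr rfl
        intro x _
        simp only; ring
      · rw [hfim, hfim]
        apply Finset.sum_congr rfl
        intro x _
        simp only; ring)
    (by
      intro a
      rw [hfim]
      simp only
      obtain ⟨b, hb, hne⟩ := hgen a (p a) (q a)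
      apply Finset.sum_pos'
      · intro i _; exact mul_self_nonneg _
      · refine ⟨b, hb, ?_⟩
        apply mul_self_pos.2
        simp only [hT]
        rw [Ne, arctan_eq_zero_iff]
        exact div_ne_zero hne hε.ne')
  have hre := hfre (θ, φ)
  have him := hfim (θ, φ)
  rw [h0] at hre him
  simp only [Complex.zero_re, Complex.zero_im] at hre him
  exact ⟨θ, φ, p θ, q θ, p φ, q φ, hqb θ, hpb θ, hqb φ, hpb φ, hSA θ, hSB θ, hSA φ, hSB φ,
    hre.symm, him.symm⟩

end

/-- Rounding of a fractional assignment by Birkhoff's theorem. -/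
theorem round {α : Type*} [Fintype α] [DecidableEq α] {m : ℕ} (hm : 0 < m)
    (hcard : Fintype.card α = 4 * m) (M : α → Bool × Bool → ℝ) (h0 : ∀ a q, 0 ≤ M a q)
    (hrow : ∀ a, ∑ q, M a q = 1) (hcol : ∀ q, ∑ a, M a q = m) :
    ∃ s : α → Bool × Bool, (∀ q, (Finset.univ.filter fun a => s a = q).card = m) ∧
      ∀ a, 1 / ((4 * m).factorial : ℝ) ≤ M a (s a) := by
  have hm' : (0 : ℝ) < m := by exact_mod_cast hm
  have hc2 : Fintype.card α = Fintype.card ((Bool × Bool) × Fin m) := by
    rw [hcard]; simp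
  let e : α ≃ (Bool × Bool) × Fin m := Fintype.equivOfCardEq hc2
  let N : Matrix α α ℝ := fun a b => M a (e b).1 / m
  have hN : N ∈ doublyStochastic ℝ α := by
    rw [mem_doublyStochastic_iff_sum]
    refine ⟨fun i j => div_nonneg (h0 _ _) hm'.le, fun a => ?_, fun b => ?_⟩
    · have : ∑ b, N a b = ∑ y : (Bool × Bool) × Fin m, M a y.1 / m :=
        Fintype.sum_equiv e _ _ (fun b => rfl)
      rw [this, Fintype.sum_prod_type]
      simp only [Finset.sum_const, Finset.card_univ, Fintype.card_fin, nsmul_eq_mul]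
      rw [← hrow a]
      apply Finset.sum_congr rfl
      intro q _
      field_simp
    · show ∑ a, M a (e b).1 / m = 1
      rw [← Finset.sum_div, hcol, div_self hm'.ne']
  obtain ⟨w, hw0, hw1, hw⟩ := exists_eq_sum_perm_of_mem_doublyStochastic hN
  have hcp : Fintype.card (Equiv.Perm α) = (4 * m).factorial := by
    rw [Fintype.card_perm, hcard]
  obtain ⟨σ, hσ⟩ : ∃ σ : Equiv.Perm α, 1 / ((4 * m).factorial : ℝ) ≤ w σ := by
    by_contra h
    push Not at h
    have : ∑ σ, w σ < ∑ σ : Equiv.Perm α, 1 / ((4 * m).factorial : ℝ) :=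
      Finset.sum_lt_sum_of_nonempty ⟨1, Finset.mem_univ _⟩ (fun σ _ => h σ)
    rw [hw1] at this
    simp only [Finset.sum_const, Finset.card_univ, hcp, nsmul_eq_mul] at this
    have hf : (0 : ℝ) < ((4 * m).factorial : ℝ) := by exact_mod_cast Nat.factorial_pos _
    rw [mul_one_div_cancel hf.ne'] at this
    exact lt_irrefl _ this
  have hNσ : ∀ a, w σ ≤ N a (σ a) := by
    intro a
    have h1 : N a (σ a) = ∑ τ, w τ * (τ.permMatrix ℝ) a (σ a) := by
      have := congrFun (congrFun hw a) (σ a)
      rw [← this, Matrix.sum_apply]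
      rfl
    rw [h1]
    have h2 : w σ = w σ * (σ.permMatrix ℝ) a (σ a) := by
      simp [Equiv.Perm.permMatrix, PEquiv.toMatrix_apply]
    conv_lhs => rw [h2]
    refine Finset.single_le_sum (f := fun τ => w τ * (τ.permMatrix ℝ) a (σ a)) ?_
      (Finset.mem_univ σ)
    intro τ _
    apply mul_nonneg (hw0 τ)
    simp only [Equiv.Perm.permMatrix, PEquiv.toMatrix_apply]
    split_ifs <;> norm_num
  refine ⟨fun a => (e (σ a)).1, fun q => ?_, fun a => ?_⟩
  · have : (Finset.univ.filter fun a => (e (σ a)).1 = q).card =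
        (Finset.univ.filter fun y : (Bool × Bool) × Fin m => y.1 = q).card := by
      apply Finset.card_bij (fun a _ => e (σ a))
      · intro a ha; simpa using ha
      · intro a _ b _ h; exact σ.injective (e.injective h)
      · intro y hy
        refine ⟨σ.symm (e.symm y), ?_, by simp⟩
        simpa using hy
    rw [this]
    have h2 : (Finset.univ.filter fun y : (Bool × Bool) × Fin m => y.1 = q) =
        Finset.univ.image fun j : Fin m => (q, j) := by
      ext y
      simp only [Finset.mem_filter, Finset.mem_univ, true_and, Finset.mem_image]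
      constructor
      · rintro rfl; exact ⟨y.2, rfl⟩
      · rintro ⟨j, rfl⟩; rfl
    rw [h2, Finset.card_image_of_injective _ (fun a b h => (Prod.mk.inj h).2)]
    simp
  · have h1 := hσ.trans (hNσ a)
    have h2 : N a (σ a) ≤ M a (e (σ a)).1 := by
      show M a (e (σ a)).1 / m ≤ M a (e (σ a)).1
      apply div_le_self (h0 _ _)
      exact_mod_cast hm
    exact h1.trans h2

end Q149.Oct
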