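import Pool.Agent.Q149.Oct3

/-!
The limit of the soft planes: two planes that weakly realise a balanced assignment.
-/

namespace Q149.Oct

open Real Filter Topology

/-- The sign of a Boolean. -/
def sg (b : Bool) : ℝ := if b then 1 else -1

theorem sg_abs (b : Bool) : |sg b| = 1 := by cases b <;> simp [sg]

theorem arctan_sg (b : Bool) (t : ℝ) : arctan (sg b * t) = sg b * arctan t := by
  cases b <;> simp [sg, arctan_neg]

section

variable {ι : Type*} [DecidableEq ι]

theorem assign {m : ℕ} (hm : 0 < m) {A : Finset ι} (hA : A.card = 4 * m) (t t' : ι → ℝ)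
    (ht : ∀ a ∈ A, |t a| ≤ 1) (ht' : ∀ a ∈ A, |t' a| ≤ 1)
    (h1 : ∑ a ∈ A, t a = 0) (h2 : ∑ a ∈ A, t' a = 0) (h3 : ∑ a ∈ A, t a * t' a = 0) :
    ∃ s : ι → Bool × Bool, (∀ q, (A.filter fun a => s a = q).card = m) ∧
      ∀ a ∈ A, 1 / ((4 * m).factorial : ℝ) ≤ (1 + sg (s a).1 * t a) / 2 ∧
        1 / ((4 * m).factorial : ℝ) ≤ (1 + sg (s a).2 * t' a) / 2 := by
  have b1 : ∀ (b : Bool), ∀ a ∈ A, 0 ≤ (1 + sg b * t a) / 2 ∧ (1 + sg b * t a) / 2 ≤ 1 := by
    intro b a ha
    have : |sg b * t a| ≤ 1 := by rw [abs_mul, sg_abs, one_mul]; exact ht a ha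
    have := abs_le.1 this
    constructor <;> linarith
  have b2 : ∀ (b : Bool), ∀ a ∈ A, 0 ≤ (1 + sg b * t' a) / 2 ∧ (1 + sg b * t' a) / 2 ≤ 1 := by
    intro b a ha
    have : |sg b * t' a| ≤ 1 := by rw [abs_mul, sg_abs, one_mul]; exact ht' a ha
    have := abs_le.1 this
    constructor <;> linarith
  let M : A → Bool × Bool → ℝ := fun a q => (1 + sg q.1 * t a) / 2 * ((1 + sg q.2 * t' a) / 2)
  obtain ⟨s, hs1, hs2⟩ := round (α := A) hm (by simpa using hA) M
    (fun a q => mul_nonneg (b1 q.1 a a.2).1 (b2 q.2 a a.2).1)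
    (fun a => by
      simp only [M, Fintype.sum_prod_type, Fintype.sum_bool, sg]
      simp
      ring)
    (fun q => by
      have e : ∀ a : A, M a q = (1 + sg q.1 * t a + sg q.2 * t' a +
          sg q.1 * sg q.2 * (t a * t' a)) / 4 := by
        intro a; simp only [M]; ring
      simp only [e]
      rw [← Finset.sum_div]
      simp only [Finset.sum_add_distrib, ← Finset.mul_sum]
      have f1 : ∑ a : A, t a = 0 := by rw [← h1]; exact Finset.sum_coe_sort A t
      have f2 : ∑ a : A, t' a = 0 := by rw [← h2]; exact Finset.sum_coe_sort A t'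
      have f3 : ∑ a : A, t a * t' a = 0 := by
        rw [← h3]; exact Finset.sum_coe_sort A fun a => t a * t' a
      rw [f1, f2, f3]
      simp only [Finset.sum_const, Finset.card_univ, Fintype.card_coe, hA, nsmul_eq_mul]
      push_cast
      ring)
  refine ⟨fun a => if h : a ∈ A then s ⟨a, h⟩ else (true, true), ?_, ?_⟩
  · intro q
    rw [← hs1 q]
    symm
    apply Finset.card_bij (fun (a : A) _ => (a : ι))
    · intro a ha
      simp only [Finset.mem_filter, Finset.mem_univ, true_and] at ha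
      simp [ha]
    · intro a _ b _ h; exact Subtype.ext h
    · intro b hb
      simp only [Finset.mem_filter] at hb
      refine ⟨⟨b, hb.1⟩, ?_, rfl⟩
      have := hb.2
      simp only [hb.1, dite_true] at this
      simp [this]
  · intro a ha
    have h := hs2 ⟨a, ha⟩
    simp only [ha, dite_true]
    simp only [M] at h
    have c1 := b1 (s ⟨a, ha⟩).1 a ha
    have c2 := b2 (s ⟨a, ha⟩).2 a ha
    constructor
    · exact h.trans (mul_le_of_le_one_right c1.1 c2.2)
    · exact h.trans (mul_le_of_le_one_left c2.1 c1.2)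

/-- A lower bound for a soft sign gives a lower bound for the argument. -/
theorem exists_K (κ : ℝ) (hκ : 0 < κ) : ∃ K : ℝ, ∀ (b : Bool) (t : ℝ),
    κ ≤ (1 + sg b * (2 / π * arctan t)) / 2 → -K ≤ sg b * t := by
  have h : ∀ᶠ x in atBot, arctan x < -(π / 2) + κ * π := by
    have h1 := (tendsto_arctan_atBot.mono_right nhdsWithin_le_nhds)
    exact h1.eventually (gt_mem_nhds (by nlinarith [pi_pos]))
  obtain ⟨x, hx⟩ := h.exists
  refine ⟨-x, fun b t hb => ?_⟩
  rw [neg_neg]
  by_contra hlt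
  push Not at hlt
  have h2 := arctan_strictMono hlt
  rw [arctan_sg] at h2
  have h3 : κ * π ≤ π / 2 + sg b * arctan t := by
    have hp := pi_pos
    have := mul_le_mul_of_nonneg_right hb hp.le
    have e : (1 + sg b * (2 / π * arctan t)) / 2 * π = π / 2 + sg b * arctan t := by
      field_simp
    linarith
  linarith

variable [Fintype ι] {u v z : ι → ℝ}

/-- The signed value of the plane with parameters `k = ((c, s), (q, p))`. -/
def G (u v z : ι → ℝ) (k : (ℝ × ℝ) × (ℝ × ℝ)) (x : ι) : ℝ :=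
  k.1.1 * u x + k.1.2 * v x - k.2.2 - k.2.1 * z x

omit [DecidableEq ι] [Fintype ι] in
theorem G_cont (x : ι) : Continuous fun k => G u v z k x := by unfold G; fun_prop

theorem exists_weak {m : ℕ} (hm : 0 < m) {A B : Finset ι} (hA : A.card = 4 * m)
    (hB : B.card = 4 * m) (hAB : Disjoint A B) {C δ Z : ℝ} (hδ : 0 < δ)
    (hCA : ∀ a ∈ A, |u a| + |v a| ≤ C) (hCB : ∀ a ∈ B, |u a| + |v a| ≤ C)
    (hzA : ∀ a ∈ A, δ ≤ z a) (hzB : ∀ a ∈ B, z a ≤ -δ) (hZA : ∀ a ∈ A, |z a| ≤ Z)
    (hgen : ∀ θ p q : ℝ, ∃ b ∈ B, V u v θ b - p - q * z b ≠ 0) :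
    ∃ (k k' : (ℝ × ℝ) × (ℝ × ℝ)) (s : ι → Bool × Bool),
      k.1.1 ^ 2 + k.1.2 ^ 2 = 1 ∧ k'.1.1 ^ 2 + k'.1.2 ^ 2 = 1 ∧
      (∀ q, (A.filter fun a => s a = q).card = m) ∧
      (∀ q, (B.filter fun a => s a = q).card = m) ∧
      ∀ a ∈ A ∪ B, 0 ≤ sg (s a).1 * G u v z k a ∧ 0 ≤ sg (s a).2 * G u v z k' a := by
  have hAne : A.Nonempty := by rw [← Finset.card_pos, hA]; omega
  have hBne : B.Nonempty := by rw [← Finset.card_pos, hB]; omega
  obtain ⟨K, hK⟩ := exists_K (1 / ((4 * m).factorial : ℝ))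
    (by have := Nat.factorial_pos (4 * m); positivity)
  -- the compact set of parameters
  set Q0 := C / δ with hQ0
  set P0 := C + C / δ * Z with hP0
  let K0 : Set ((ℝ × ℝ) × (ℝ × ℝ)) := {k | k.1.1 ^ 2 + k.1.2 ^ 2 = 1} ∩
    ((Set.Icc (-1) 1 ×ˢ Set.Icc (-1) 1) ×ˢ (Set.Icc (-Q0) Q0 ×ˢ Set.Icc (-P0) P0))
  have hK0 : IsCompact K0 := by
    apply IsCompact.inter_left
    · exact (isCompact_Icc.prod isCompact_Icc).prod (isCompact_Icc.prod isCompact_Icc)
    · exact isClosed_eq (by fun_prop) continuous_const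
  have step : ∀ n : ℕ, ∃ (k k' : (ℝ × ℝ) × (ℝ × ℝ)) (s : ι → Bool × Bool), k ∈ K0 ∧ k' ∈ K0 ∧
      (∀ q, (A.filter fun a => s a = q).card = m) ∧
      (∀ q, (B.filter fun a => s a = q).card = m) ∧
      ∀ a ∈ A ∪ B, -K * (1 / ((n : ℝ) + 1)) ≤ sg (s a).1 * G u v z k a ∧
        -K * (1 / ((n : ℝ) + 1)) ≤ sg (s a).2 * G u v z k' a := by
    intro n
    have hε : (0 : ℝ) < 1 / ((n : ℝ) + 1) := by positivity
    set ε := 1 / ((n : ℝ) + 1) with hεd
    obtain ⟨θ, φ, p, q, p', q', hq, hp, hq', hp', a1, b1, a2, b2, a3, b3⟩ :=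
      exists_pair hAne hBne hδ hCA hCB hzA hzB hZA hgen hε
    have hpi := pi_pos
    have hbd : ∀ x : ℝ, |2 / π * arctan x| ≤ 1 := by
      intro x
      rw [abs_mul, abs_of_pos (by positivity)]
      have h1 : |arctan x| ≤ π / 2 := abs_le.2 ⟨(neg_pi_div_two_lt_arctan x).le,
        (arctan_lt_pi_div_two x).le⟩
      calc 2 / π * |arctan x| ≤ 2 / π * (π / 2) := by gcongr
        _ = 1 := by field_simp
    have fac : ∀ (D : Finset ι), D.card = 4 * m →
        (∑ a ∈ D, arctan ((V u v θ a - p - q * z a) / ε) = 0) →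
        (∑ a ∈ D, arctan ((V u v φ a - p' - q' * z a) / ε) = 0) →
        (∑ a ∈ D, arctan ((V u v θ a - p - q * z a) / ε) *
          arctan ((V u v φ a - p' - q' * z a) / ε) = 0) →
        ∃ s : ι → Bool × Bool, (∀ q, (D.filter fun a => s a = q).card = m) ∧
          ∀ a ∈ D, -K * ε ≤ sg (s a).1 * (V u v θ a - p - q * z a) ∧
            -K * ε ≤ sg (s a).2 * (V u v φ a - p' - q' * z a) := by
      intro D hD d1 d2 d3
      obtain ⟨s, hs1, hs2⟩ := assign hm hD
        (fun a => 2 / π * arctan ((V u v θ a - p - q * z a) / ε))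
        (fun a => 2 / π * arctan ((V u v φ a - p' - q' * z a) / ε))
        (fun a _ => hbd _) (fun a _ => hbd _)
        (by rw [← Finset.mul_sum, d1, mul_zero]) (by rw [← Finset.mul_sum, d2, mul_zero])
        (by
          have : ∀ a ∈ D, 2 / π * arctan ((V u v θ a - p - q * z a) / ε) *
              (2 / π * arctan ((V u v φ a - p' - q' * z a) / ε)) = (2 / π) ^ 2 *
              (arctan ((V u v θ a - p - q * z a) / ε) *
                arctan ((V u v φ a - p' - q' * z a) / ε)) := by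
            intro a _; ring
          rw [Finset.sum_congr rfl this, ← Finset.mul_sum, d3, mul_zero])
      refine ⟨s, hs1, fun a ha => ?_⟩
      obtain ⟨c1, c2⟩ := hs2 a ha
      have e1 := hK _ _ c1
      have e2 := hK _ _ c2
      constructor
      · have := mul_le_mul_of_nonneg_right e1 hε.le
        rwa [mul_assoc, div_mul_cancel₀ _ hε.ne'] at this
      · have := mul_le_mul_of_nonneg_right e2 hε.le
        rwa [mul_assoc, div_mul_cancel₀ _ hε.ne'] at this
    obtain ⟨sA, sA1, sA2⟩ := fac A hA a1 a2 a3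
    obtain ⟨sB, sB1, sB2⟩ := fac B hB b1 b2 b3
    refine ⟨((cos θ, sin θ), (q, p)), ((cos φ, sin φ), (q', p')),
      fun a => if a ∈ A then sA a else sB a, ?_, ?_, ?_, ?_, ?_⟩
    · refine ⟨by simp, ?_⟩
      simp only [Set.mem_prod, Set.mem_Icc]
      exact ⟨⟨⟨neg_one_le_cos _, cos_le_one _⟩, ⟨neg_one_le_sin _, sin_le_one _⟩⟩,
        ⟨abs_le.1 hq, abs_le.1 hp⟩⟩
    · refine ⟨by simp, ?_⟩
      simp only [Set.mem_prod, Set.mem_Icc]
      exact ⟨⟨⟨neg_one_le_cos _, cos_le_one _⟩, ⟨neg_one_le_sin _, sin_le_one _⟩⟩,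
        ⟨abs_le.1 hq', abs_le.1 hp'⟩⟩
    · intro q
      rw [← sA1 q]
      congr 1
      apply Finset.filter_congr
      intro a ha
      simp [ha]
    · intro q
      rw [← sB1 q]
      congr 1
      apply Finset.filter_congr
      intro a ha
      have : a ∉ A := fun h => Finset.disjoint_left.1 hAB h ha
      simp [this]
    · intro a ha
      by_cases h : a ∈ A
      · simp only [h, if_true]
        exact sA2 a h
      · have hb : a ∈ B := by
          rcases Finset.mem_union.1 ha with h' | h'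
          · exact absurd h' h
          · exact h'
        simp only [h, if_false]
        exact sB2 a hb
  choose k k' s hk hk' hsA hsB hs using step
  have hcomp : IsCompact ((K0 ×ˢ K0) ×ˢ (Set.univ : Set (ι → Bool × Bool))) :=
    (hK0.prod hK0).prod isCompact_univ
  obtain ⟨⟨⟨l, l'⟩, t⟩, hl, φ, hφ, hlim⟩ := hcomp.tendsto_subseq
    (x := fun n => ((k n, k' n), s n)) (fun n => ⟨⟨hk n, hk' n⟩, Set.mem_univ _⟩)
  have lim1 : Tendsto (fun n => k (φ n)) atTop (𝓝 l) :=
    (((continuous_fst.comp continuous_fst).tendsto _).comp hlim)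
  have lim2 : Tendsto (fun n => k' (φ n)) atTop (𝓝 l') :=
    (((continuous_snd.comp continuous_fst).tendsto _).comp hlim)
  have lim3 : Tendsto (fun n => s (φ n)) atTop (𝓝 t) :=
    ((continuous_snd.tendsto _).comp hlim)
  rw [nhds_discrete, tendsto_pure] at lim3
  have lim4 : Tendsto (fun n : ℕ => -K * (1 / (((φ n : ℕ) : ℝ) + 1))) atTop (𝓝 0) := by
    have h1 : Tendsto (fun n : ℕ => (1 : ℝ) / ((n : ℝ) + 1)) atTop (𝓝 0) :=
      tendsto_one_div_add_atTop_nhds_zero_nat
    have h2 := (h1.comp hφ.tendsto_atTop).const_mul (-K)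
    rw [mul_zero] at h2
    exact h2
  refine ⟨l, l', t, hl.1.1.1, hl.1.2.1, ?_, ?_, ?_⟩
  · obtain ⟨n, hn⟩ := lim3.exists
    rw [← hn]; exact hsA _
  · obtain ⟨n, hn⟩ := lim3.exists
    rw [← hn]; exact hsB _
  · intro a ha
    constructor
    · refine le_of_tendsto_of_tendsto lim4
        ((((G_cont (u := u) (v := v) (z := z) a).tendsto l).comp lim1).const_mul (sg (t a).1)) ?_
      filter_upwards [lim3] with n hn
      have := (hs (φ n) a ha).1
      rw [hn] at this
      exact this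
    · refine le_of_tendsto_of_tendsto lim4
        ((((G_cont (u := u) (v := v) (z := z) a).tendsto l').comp lim2).const_mul (sg (t a).2)) ?_
      filter_upwards [lim3] with n hn
      have := (hs (φ n) a ha).2
      rw [hn] at this
      exact this

end

end Q149.Oct
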