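import Mathlib

/-!
Definitions for the separation of point sets in space by three planes.
-/

namespace Q149.Oct

/-- Euclidean three-space. -/
abbrev E3 := EuclideanSpace ℝ (Fin 3)

/-- General position in space: every affine plane, that is every set `{x | ⟪n, x⟫ = c}` with
`n ≠ 0`, contains at most three points of the finite set `P`. -/
def GeneralPosition (P : Finset E3) : Prop :=
  ∀ (n : E3) (c : ℝ), n ≠ 0 → (P.filter fun x => inner ℝ n x = c).card ≤ 3

/-- There are three affine planes `H i = {x | ⟪n i, x⟫ = c i}`, none of them meeting `P`, such that
for each of the eight choices of one open half-space for every plane (`s i = true` stands for the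
side `c i < ⟪n i, x⟫` and `s i = false` for the other side) exactly `m` points of `P` lie in the
intersection of the three chosen half-spaces. -/
def SeparatedByThreePlanes (m : ℕ) (P : Finset E3) : Prop :=
  ∃ (n : Fin 3 → E3) (c : Fin 3 → ℝ), (∀ i, n i ≠ 0) ∧ (∀ i, ∀ x ∈ P, inner ℝ (n i) x ≠ c i) ∧
    ∀ s : Fin 3 → Bool,
      (P.filter fun x => ∀ i, if s i then c i < inner ℝ (n i) x else inner ℝ (n i) x < c i).card = m

end Q149.Oct
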