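import Pool.Agent.Q149.Oct4
import Pool.Agent.Q149.OctDefs

/-!
The splitting plane, the perturbation step and the main theorem.
-/

namespace Q149.Oct

open Real Filter Topology

/-- A finite set can be split by the values of an injective function at any size. -/
theorem split {α : Type*} [DecidableEq α] (P : Finset α) (L : α → ℝ)
    (hL : Set.InjOn L P) : ∀ k, k ≤ P.card →
    ∃ c, (∀ x ∈ P, L x ≠ c) ∧ (P.filter fun x => L x < c).card = k := by
  intro k
  induction k with
  | zero =>
    intro _
    refine ⟨-(∑ x ∈ P, |L x|) - 1, ?_⟩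
    have h : ∀ x ∈ P, -(∑ x ∈ P, |L x|) - 1 < L x := by
      intro x hx
      have h1 := Finset.single_le_sum (f := fun x => |L x|) (fun i _ => abs_nonneg _) hx
      have h2 := neg_abs_le (L x)
      linarith
    refine ⟨fun x hx => (h x hx).ne', ?_⟩
    rw [Finset.card_eq_zero, Finset.filter_eq_empty_iff]
    intro x hx
    exact not_lt.2 (h x hx).le
  | succ k ih =>
    intro hk
    obtain ⟨c, hc, hck⟩ := ih (by omega)
    have hR : (P.filter fun x => c < L x).Nonempty := by
      rw [← Finset.card_pos]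
      have h1 := Finset.card_filter_add_card_filter_not (s := P) (fun x => L x < c)
      have h2 : (P.filter fun x => ¬ L x < c) = P.filter fun x => c < L x := by
        apply Finset.filter_congr
        intro x hx
        rw [not_lt]
        exact ⟨fun h => lt_of_le_of_ne h (hc x hx).symm, fun h => h.le⟩
      rw [h2] at h1
      omega
    obtain ⟨y, hy, hmin⟩ := Finset.exists_min_image _ L hR
    rw [Finset.mem_filter] at hy
    have hev : ∀ᶠ c' in 𝓝[>] (L y), ∀ x ∈ (P.filter fun x => c < L x).erase y, c' < L x := by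
      rw [Filter.eventually_all_finset]
      intro x hx
      rw [Finset.mem_erase, Finset.mem_filter] at hx
      have h1 : L y < L x := by
        apply lt_of_le_of_ne (hmin x (Finset.mem_filter.2 hx.2))
        intro h
        exact hx.1 (hL hx.2.1 hy.1 h.symm)
      exact mem_nhdsWithin_of_mem_nhds (gt_mem_nhds h1)
    obtain ⟨c', hc'1, hc'2⟩ := (hev.and self_mem_nhdsWithin).exists
    have hc'2 : L y < c' := hc'2
    refine ⟨c', ?_, ?_⟩
    · intro x hx h
      rcases lt_trichotomy (L x) c with h1 | h1 | h1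
      · linarith [hy.2]
      · exact hc x hx h1
      · by_cases hxy : x = y
        · subst hxy; linarith
        · have := hc'1 x (Finset.mem_erase.2 ⟨hxy, Finset.mem_filter.2 ⟨hx, h1⟩⟩)
          linarith
    · have : (P.filter fun x => L x < c') = insert y (P.filter fun x => L x < c) := by
        ext x
        simp only [Finset.mem_filter, Finset.mem_insert]
        constructor
        · rintro ⟨hx, h⟩
          rcases lt_trichotomy (L x) c with h1 | h1 | h1
          · exact Or.inr ⟨hx, h1⟩
          · exact absurd h1 (hc x hx)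
          · left
            by_contra hxy
            have := hc'1 x (Finset.mem_erase.2 ⟨hxy, Finset.mem_filter.2 ⟨hx, h1⟩⟩)
            linarith
        · rintro (rfl | ⟨hx, h⟩)
          · exact ⟨hy.1, hc'2⟩
          · exact ⟨hx, by linarith [hy.2]⟩
      rw [this, Finset.card_insert_of_notMem, hck]
      simp only [Finset.mem_filter, not_and, not_lt]
      intro _
      exact hy.2.le

/-- A direction of the moment type whose linear form is injective on a finite set. -/
theorem exists_direction (P : Finset E3) :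
    ∃ t : ℝ, Set.InjOn (fun x : E3 => x 0 * t + x 1 * t ^ 2 + x 2) P := by
  have hfin : ∀ x y : E3, x ≠ y →
      {t : ℝ | x 0 * t + x 1 * t ^ 2 + x 2 = y 0 * t + y 1 * t ^ 2 + y 2}.Finite := by
    intro x y hxy
    let p : Polynomial ℝ := Polynomial.C (x 1 - y 1) * Polynomial.X ^ 2 +
      Polynomial.C (x 0 - y 0) * Polynomial.X + Polynomial.C (x 2 - y 2)
    have key : ∀ a b d : ℝ, Polynomial.C b * Polynomial.X ^ 2 + Polynomial.C a * Polynomial.X +
        Polynomial.C d = 0 → a = 0 ∧ b = 0 ∧ d = 0 := by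
      intro a b d h
      have c0 := congrArg (fun q => Polynomial.coeff q 0) h
      have c1 := congrArg (fun q => Polynomial.coeff q 1) h
      have c2 := congrArg (fun q => Polynomial.coeff q 2) h
      simp [Polynomial.coeff_X, Polynomial.coeff_C] at c0 c1 c2
      exact ⟨c1, c2, c0⟩
    have hp : p ≠ 0 := by
      intro h
      apply hxy
      obtain ⟨c0, c1, c2⟩ := key _ _ _ h
      ext i
      fin_cases i
      · simp; linarith
      · simp; linarith
      · simp; linarith
    apply (Polynomial.finite_setOfPred_isRoot hp).subset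
    intro t ht
    simp only [Set.mem_ofPred_eq] at ht ⊢
    simp only [p, Polynomial.IsRoot.def, Polynomial.eval_add, Polynomial.eval_mul,
      Polynomial.eval_C, Polynomial.eval_pow, Polynomial.eval_X]
    linarith
  have hU : (⋃ x ∈ P, ⋃ y ∈ P.erase x,
      {t : ℝ | x 0 * t + x 1 * t ^ 2 + x 2 = y 0 * t + y 1 * t ^ 2 + y 2}).Finite := by
    apply Set.Finite.biUnion P.finite_toSet
    intro x _
    apply Set.Finite.biUnion (P.erase x).finite_toSet
    intro y hy
    rw [Finset.mem_coe, Finset.mem_erase] at hy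
    exact hfin x y hy.1.symm
  obtain ⟨t, ht⟩ := hU.infinite_compl.nonempty
  refine ⟨t, ?_⟩
  intro x hx y hy h
  by_contra hxy
  apply ht
  simp only [Set.mem_iUnion]
  exact ⟨x, hx, y, Finset.mem_erase.2 ⟨fun e => hxy e.symm, hy⟩, h⟩

/-- Pushing a plane off the points it contains, with prescribed sides. -/
theorem perturb {P : Finset E3} (hP : GeneralPosition P) (h4 : 4 ≤ P.card) (n : E3) (c : ℝ)
    (hn : n ≠ 0) (s : E3 → Bool) (hw : ∀ x ∈ P, 0 ≤ sg (s x) * (inner ℝ n x - c)) :
    ∃ (n' : E3) (c' : ℝ), ∀ x ∈ P, 0 < sg (s x) * (inner ℝ n' x - c') := by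
  have hZ := hP n c hn
  obtain ⟨Z, hZ1, hZ2, hZ3⟩ := Finset.exists_subsuperset_card_eq
    (Finset.filter_subset (fun x => inner ℝ n x = c) P) (by omega) h4
  let Λ : E3 × ℝ →ₗ[ℝ] (Z → ℝ) :=
    { toFun := fun y x => inner ℝ y.1 (x : E3) - y.2
      map_add' := by
        intro y y'
        funext x
        simp only [Prod.fst_add, Prod.snd_add, inner_add_left, Pi.add_apply]
        ring
      map_smul' := by
        intro r y
        funext x
        simp only [Prod.smul_fst, Prod.smul_snd, inner_smul_left, Pi.smul_apply, smul_eq_mul,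
          RingHom.id_apply, conj_trivial]
        ring }
  have hinj : Function.Injective Λ := by
    rw [injective_iff_map_eq_zero]
    rintro ⟨n1, c1⟩ h
    have h' : ∀ x ∈ Z, inner ℝ n1 x = c1 := by
      intro x hx
      have := congrFun h ⟨x, hx⟩
      simp only [Λ, LinearMap.coe_mk, AddHom.coe_mk, Pi.zero_apply] at this
      linarith
    have hn1 : n1 = 0 := by
      by_contra hne
      have h1 := hP n1 c1 hne
      have h2 : Z ⊆ P.filter fun x => inner ℝ n1 x = c1 := by
        intro x hx
        exact Finset.mem_filter.2 ⟨hZ2 hx, h' x hx⟩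
      have := Finset.card_le_card h2
      omega
    have hZne : Z.Nonempty := by rw [← Finset.card_pos]; omega
    obtain ⟨x, hx⟩ := hZne
    have h2 := h' x hx
    rw [hn1, inner_zero_left] at h2
    rw [hn1, ← h2]
    rfl
  have hfr : Module.finrank ℝ (E3 × ℝ) = Module.finrank ℝ (Z → ℝ) := by
    rw [Module.finrank_prod, Module.finrank_fintype_fun_eq_card, Fintype.card_coe, hZ3]
    simp
  have hsurj : Function.Surjective Λ := (LinearMap.injective_iff_surjective_of_finrank_eq_finrank
    hfr).1 hinj
  obtain ⟨⟨n0, c0⟩, h0⟩ := hsurj fun x => sg (s x)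
  have h0' : ∀ x ∈ Z, inner ℝ n0 x - c0 = sg (s x) := fun x hx => congrFun h0 ⟨x, hx⟩
  have hev : ∀ᶠ η in 𝓝[>] (0 : ℝ), ∀ x ∈ P.filter fun x => inner ℝ n x ≠ c,
      η * |inner ℝ n0 x - c0| < |inner ℝ n x - c| := by
    rw [Filter.eventually_all_finset]
    intro x hx
    rw [Finset.mem_filter] at hx
    have h1 : (0 : ℝ) < |inner ℝ n x - c| := abs_pos.2 (sub_ne_zero.2 hx.2)
    have h2 : Tendsto (fun η : ℝ => η * |inner ℝ n0 x - c0|) (𝓝 0) (𝓝 0) := by
      have : Continuous fun η : ℝ => η * |inner ℝ n0 x - c0| := by fun_prop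
      have := this.tendsto 0
      simpa using this
    exact mem_nhdsWithin_of_mem_nhds (h2.eventually (gt_mem_nhds h1))
  obtain ⟨η, hη1, hη2⟩ := (hev.and self_mem_nhdsWithin).exists
  have hη2 : 0 < η := hη2
  refine ⟨n + η • n0, c + η * c0, fun x hx => ?_⟩
  have e : inner ℝ (n + η • n0) x - (c + η * c0) =
      (inner ℝ n x - c) + η * (inner ℝ n0 x - c0) := by
    rw [inner_add_left, inner_smul_left]
    simp only [conj_trivial]
    ring
  rw [e]
  by_cases hxc : inner ℝ n x = c
  · have hxZ : x ∈ Z := hZ1 (Finset.mem_filter.2 ⟨hx, hxc⟩)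
    rw [h0' x hxZ, hxc, sub_self, zero_add]
    have : sg (s x) * sg (s x) = 1 := by cases s x <;> simp [sg]
    calc 0 < η := hη2
      _ = sg (s x) * (η * sg (s x)) := by rw [mul_left_comm, this, mul_one]
  · have h1 := hη1 x (Finset.mem_filter.2 ⟨hx, hxc⟩)
    have h2 := hw x hx
    rw [mul_add]
    have h3 : sg (s x) * (inner ℝ n x - c) = |inner ℝ n x - c| := by
      rw [← abs_of_nonneg h2, abs_mul, sg_abs, one_mul]
    have h4 : |sg (s x) * (η * (inner ℝ n0 x - c0))| = η * |inner ℝ n0 x - c0| := by
      rw [abs_mul, sg_abs, one_mul, abs_mul, abs_of_pos hη2]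
    have h5 := neg_abs_le (sg (s x) * (η * (inner ℝ n0 x - c0)))
    rw [h3]
    rw [h4] at h5
    linarith

theorem inner3 (a b c : ℝ) (x : E3) :
    inner ℝ (!₂[a, b, c] : E3) x = a * x 0 + b * x 1 + c * x 2 := by
  simp [PiLp.inner_apply, Fin.sum_univ_three]
  ring

theorem main (m : ℕ) (hm : 0 < m) (P : Finset E3) (hcard : P.card = 8 * m)
    (hP : GeneralPosition P) : SeparatedByThreePlanes m P := by
  classical
  obtain ⟨t, ht⟩ := exists_direction P
  set L : E3 → ℝ := fun x => x 0 * t + x 1 * t ^ 2 + x 2 with hLdef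
  obtain ⟨c, hc, hck⟩ := split P L ht (4 * m) (by omega)
  have hck' : (P.filter fun x => c < L x).card = 4 * m := by
    have h1 := Finset.card_filter_add_card_filter_not (s := P) (fun x => L x < c)
    have h2 : (P.filter fun x => ¬ L x < c) = P.filter fun x => c < L x := by
      apply Finset.filter_congr
      intro x hx
      rw [not_lt]
      exact ⟨fun h => lt_of_le_of_ne h (hc x hx).symm, fun h => h.le⟩
    rw [h2] at h1
    omega
  let u : P → ℝ := fun x => x.1 0
  let v : P → ℝ := fun x => x.1 1
  let z : P → ℝ := fun x => L x.1 - c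
  have cardsub : ∀ Q : E3 → Prop, ∀ [DecidablePred Q],
      (Finset.univ.filter fun x : P => Q x.1).card = (P.filter Q).card := by
    intro Q _
    apply Finset.card_bij (fun (x : P) _ => x.1)
    · intro x hx
      simp only [Finset.mem_filter, Finset.mem_univ, true_and] at hx
      exact Finset.mem_filter.2 ⟨x.2, hx⟩
    · intro x _ y _ h; exact Subtype.ext h
    · intro y hy
      rw [Finset.mem_filter] at hy
      exact ⟨⟨y, hy.1⟩, by simpa using hy.2, rfl⟩
  let A : Finset P := Finset.univ.filter fun x : P => c < L x.1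
  let B : Finset P := Finset.univ.filter fun x : P => L x.1 < c
  have hA : A.card = 4 * m := by rw [← hck']; exact cardsub (fun x => c < L x)
  have hB : B.card = 4 * m := by rw [← hck]; exact cardsub (fun x => L x < c)
  have hAB : Disjoint A B := by
    rw [Finset.disjoint_left]
    intro x hx hx'
    simp only [A, B, Finset.mem_filter, Finset.mem_univ, true_and] at hx hx'
    linarith
  have hcover : ∀ x : P, x ∈ A ∪ B := by
    intro x
    rw [Finset.mem_union]
    simp only [A, B, Finset.mem_filter, Finset.mem_univ, true_and]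
    rcases lt_trichotomy (L x.1) c with h | h | h
    · exact Or.inr h
    · exact absurd h (hc x.1 x.2)
    · exact Or.inl h
  -- constants
  obtain ⟨C, hC⟩ : ∃ C, ∀ x : P, |u x| + |v x| ≤ C :=
    ⟨∑ x : P, (|u x| + |v x|), fun x =>
      Finset.single_le_sum (f := fun x : P => |u x| + |v x|) (fun i _ => by positivity)
        (Finset.mem_univ x)⟩
  obtain ⟨Z, hZ⟩ : ∃ Z, ∀ x : P, |z x| ≤ Z :=
    ⟨∑ x : P, |z x|, fun x =>
      Finset.single_le_sum (f := fun x : P => |z x|) (fun i _ => by positivity)
        (Finset.mem_univ x)⟩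
  obtain ⟨δ, hδ, hδ'⟩ : ∃ δ : ℝ, (∀ x : P, δ < |z x|) ∧ 0 < δ := by
    have hev : ∀ᶠ δ in 𝓝[>] (0 : ℝ), ∀ x ∈ (Finset.univ : Finset P), δ < |z x| := by
      rw [Filter.eventually_all_finset]
      intro x _
      have h1 : (0 : ℝ) < |z x| := abs_pos.2 (sub_ne_zero.2 (hc x.1 x.2))
      exact mem_nhdsWithin_of_mem_nhds (gt_mem_nhds h1)
    obtain ⟨δ, h1, h2⟩ := (hev.and self_mem_nhdsWithin).exists
    exact ⟨δ, fun x => h1 x (Finset.mem_univ x), h2⟩
  have hzA : ∀ a ∈ A, δ ≤ z a := by
    intro a ha
    simp only [A, Finset.mem_filter, Finset.mem_univ, true_and] at ha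
    have h1 := (hδ a).le
    rwa [abs_of_pos (sub_pos.2 ha : 0 < z a)] at h1
  have hzB : ∀ a ∈ B, z a ≤ -δ := by
    intro a ha
    simp only [B, Finset.mem_filter, Finset.mem_univ, true_and] at ha
    have h1 := (hδ a).le
    rw [abs_of_neg (sub_neg.2 ha : z a < 0)] at h1
    linarith
  -- normal vectors
  let nv : (ℝ × ℝ) × (ℝ × ℝ) → E3 := fun k =>
    !₂[k.1.1 - k.2.1 * t, k.1.2 - k.2.1 * t ^ 2, -k.2.1]
  let ov : (ℝ × ℝ) × (ℝ × ℝ) → ℝ := fun k => k.2.2 - k.2.1 * c
  have hG : ∀ k (x : P), G u v z k x = inner ℝ (nv k) x.1 - ov k := by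
    intro k x
    simp only [nv, ov, inner3, G, u, v, z, hLdef]
    ring
  have hnv : ∀ k : (ℝ × ℝ) × (ℝ × ℝ), k.1.1 ^ 2 + k.1.2 ^ 2 = 1 → nv k ≠ 0 := by
    intro k hk h
    have h0 := congrArg (fun y : E3 => y 0) h
    have h1 := congrArg (fun y : E3 => y 1) h
    have h2 := congrArg (fun y : E3 => y 2) h
    simp [nv] at h0 h1 h2
    rw [h2] at h0 h1
    simp only [zero_mul, sub_zero] at h0 h1
    rw [h0, h1] at hk
    norm_num at hk
  have hgen : ∀ θ p q : ℝ, ∃ b ∈ B, V u v θ b - p - q * z b ≠ 0 := by
    intro θ p q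
    by_contra h
    push Not at h
    have hk : (cos θ) ^ 2 + (sin θ) ^ 2 = 1 := by simp
    have h1 := hP (nv ((cos θ, sin θ), (q, p))) (ov ((cos θ, sin θ), (q, p)))
      (hnv _ hk)
    have h2 : (P.filter fun x => L x < c) ⊆ P.filter fun x =>
        inner ℝ (nv ((cos θ, sin θ), (q, p))) x = ov ((cos θ, sin θ), (q, p)) := by
      intro x hx
      rw [Finset.mem_filter] at hx ⊢
      refine ⟨hx.1, ?_⟩
      have h3 := h ⟨x, hx.1⟩ (by simp only [B, Finset.mem_filter, Finset.mem_univ, true_and]; exact hx.2)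
      have h4 := hG ((cos θ, sin θ), (q, p)) ⟨x, hx.1⟩
      have h5 : G u v z ((cos θ, sin θ), (q, p)) ⟨x, hx.1⟩ = V u v θ ⟨x, hx.1⟩ - p - q * z ⟨x, hx.1⟩ := by
        simp only [G, V]
      rw [h5, h3] at h4
      simp only at h4
      linarith
    have := Finset.card_le_card h2
    rw [hck] at this
    omega
  obtain ⟨k, k', s, hk, hk', hsA, hsB, hs⟩ := exists_weak hm hA hB hAB hδ'
    (fun a _ => hC a) (fun a _ => hC a) hzA hzB (fun a _ => hZ a) hgen
  let S1 : E3 → Bool := fun x => if h : x ∈ P then (s ⟨x, h⟩).1 else true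
  let S2 : E3 → Bool := fun x => if h : x ∈ P then (s ⟨x, h⟩).2 else true
  have hP4 : 4 ≤ P.card := by omega
  obtain ⟨n1, c1, h1⟩ := perturb hP hP4 (nv k) (ov k) (hnv k hk) S1 (by
    intro x hx
    have := (hs ⟨x, hx⟩ (hcover _)).1
    rw [hG] at this
    simp only [S1, hx, dite_true]
    exact this)
  obtain ⟨n2, c2, h2⟩ := perturb hP hP4 (nv k') (ov k') (hnv k' hk') S2 (by
    intro x hx
    have := (hs ⟨x, hx⟩ (hcover _)).2
    rw [hG] at this
    simp only [S2, hx, dite_true]
    exact this)
  have cases1 : ∀ x (hx : x ∈ P) (b : Bool), (if b then c1 < inner ℝ n1 x else inner ℝ n1 x < c1) ↔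
      (s ⟨x, hx⟩).1 = b := by
    intro x hx b
    have := h1 x hx
    simp only [S1, hx, dite_true] at this
    cases b <;> cases h : (s ⟨x, hx⟩).1 <;> simp [h, sg] at this ⊢ <;> linarith
  have cases2 : ∀ x (hx : x ∈ P) (b : Bool), (if b then c2 < inner ℝ n2 x else inner ℝ n2 x < c2) ↔
      (s ⟨x, hx⟩).2 = b := by
    intro x hx b
    have := h2 x hx
    simp only [S2, hx, dite_true] at this
    cases b <;> cases h : (s ⟨x, hx⟩).2 <;> simp [h, sg] at this ⊢ <;> linarith
  -- existence of points of every kind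
  have exq : ∀ q : Bool × Bool, ∃ x : P, s x = q := by
    intro q
    have h := hsA q
    have : (A.filter fun a => s a = q).Nonempty := by rw [← Finset.card_pos, h]; exact hm
    obtain ⟨x, hx⟩ := this
    exact ⟨x, (Finset.mem_filter.1 hx).2⟩
  have hn1 : n1 ≠ 0 := by
    intro h
    obtain ⟨x, hx⟩ := exq (true, true)
    obtain ⟨y, hy⟩ := exq (false, true)
    have e1 := (cases1 x.1 x.2 true).2 (by rw [hx])
    have e2 := (cases1 y.1 y.2 false).2 (by rw [hy])
    rw [h] at e1 e2
    simp at e1 e2
    linarith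
  have hn2 : n2 ≠ 0 := by
    intro h
    obtain ⟨x, hx⟩ := exq (true, true)
    obtain ⟨y, hy⟩ := exq (true, false)
    have e1 := (cases2 x.1 x.2 true).2 (by rw [hx])
    have e2 := (cases2 y.1 y.2 false).2 (by rw [hy])
    rw [h] at e1 e2
    simp at e1 e2
    linarith
  have hn0 : (!₂[t, t ^ 2, 1] : E3) ≠ 0 := by
    intro h
    have := congrArg (fun y : E3 => y 2) h
    simp at this
  have hL : ∀ x : E3, inner ℝ (!₂[t, t ^ 2, 1] : E3) x = L x := by
    intro x
    rw [inner3]
    simp only [hLdef]
    ring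
  refine ⟨![!₂[t, t ^ 2, 1], n1, n2], ![c, c1, c2], ?_, ?_, ?_⟩
  · intro i
    fin_cases i
    · exact hn0
    · exact hn1
    · exact hn2
  · intro i x hx
    fin_cases i
    · simp only [Fin.zero_eta, Matrix.cons_val_zero]
      rw [hL]; exact hc x hx
    · simp only [Fin.mk_one, Matrix.cons_val_one, Matrix.cons_val_zero]
      intro h
      have := h1 x hx
      rw [h, sub_self, mul_zero] at this
      exact lt_irrefl _ this
    · simp only [Fin.reduceFinMk, Matrix.cons_val]
      intro h
      have := h2 x hx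
      rw [h, sub_self, mul_zero] at this
      exact lt_irrefl _ this
  · intro σ
    have key : (P.filter fun x => ∀ i, if σ i then ![c, c1, c2] i <
        inner ℝ ((![!₂[t, t ^ 2, 1], n1, n2] : Fin 3 → E3) i) x else
        inner ℝ ((![!₂[t, t ^ 2, 1], n1, n2] : Fin 3 → E3) i) x < ![c, c1, c2] i) =
        ((if σ 0 then A else B).filter fun a => s a = (σ 1, σ 2)).map
          ⟨fun x : P => x.1, Subtype.val_injective⟩ := by
      ext x
      simp only [Finset.mem_filter, Fin.forall_fin_succ, Fin.isValue, Matrix.cons_val_zero,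
        Fin.succ_zero_eq_one, Matrix.cons_val_one, Fin.succ_one_eq_two, Matrix.cons_val,
        Finset.mem_map, Function.Embedding.coeFn_mk, IsEmpty.forall_iff, and_true]
      constructor
      · rintro ⟨hx, q0, q1, q2⟩
        refine ⟨⟨x, hx⟩, ⟨?_, ?_⟩, rfl⟩
        · rw [hL] at q0
          cases h : σ 0
          · rw [h] at q0
            simp only [Bool.false_eq_true, if_false] at q0 ⊢
            simp only [B, Finset.mem_filter, Finset.mem_univ, true_and]
            exact q0
          · rw [h] at q0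
            simp only [if_true] at q0 ⊢
            simp only [A, Finset.mem_filter, Finset.mem_univ, true_and]
            exact q0
        · have r1 := (cases1 x hx (σ 1)).1 q1
          have r2 := (cases2 x hx (σ 2)).1 q2
          exact Prod.ext r1 r2
      · rintro ⟨⟨y, hy⟩, ⟨h1', h2'⟩, rfl⟩
        refine ⟨hy, ?_, ?_, ?_⟩
        · rw [hL]
          cases h : σ 0
          · rw [h] at h1'
            simp only [Bool.false_eq_true, if_false] at h1' ⊢
            simp only [B, Finset.mem_filter, Finset.mem_univ, true_and] at h1'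
            exact h1'
          · rw [h] at h1'
            simp only [if_true] at h1' ⊢
            simp only [A, Finset.mem_filter, Finset.mem_univ, true_and] at h1'
            exact h1'
        · exact (cases1 y hy (σ 1)).2 (by rw [h2'])
        · exact (cases2 y hy (σ 2)).2 (by rw [h2'])
    rw [key, Finset.card_map]
    cases σ 0
    · exact hsB _
    · exact hsA _

end Q149.Oct
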