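import Pool.Agent.TH559.LE.Bkw

/-!
# Tools for extending total colourings of bipartite graphs

`greedy` extends a proper colouring of some vertices, the new vertices avoiding a set of colours;
`assemble` makes a total colouring from a proper colouring of the vertices, colours of the edges of
a subgraph and a list colouring of the other edges.
-/

set_option autoImplicit false

namespace Pool.Agent.Q149.TotExt

open Finset

/-- A proper colouring of the vertices in `P` extends greedily, the new vertices avoiding `X`. -/
theorem greedy {V : Type} [Fintype V] (G : SimpleGraph V) (D k : ℕ)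
    (hD : ∀ v, (G.neighborSet v).ncard ≤ D) (X : Finset (Fin k)) (hk : D + X.card + 1 ≤ k)
    (P : Finset V) (φ0 : V → Fin k)
    (hP : ∀ u ∈ P, ∀ v ∈ P, G.Adj u v → φ0 u ≠ φ0 v) :
    ∃ φ : V → Fin k, (∀ u ∈ P, φ u = φ0 u) ∧ (∀ u, u ∉ P → φ u ∉ X) ∧
      ∀ u v, G.Adj u v → φ u ≠ φ v := by
  classical
  have h : ∀ T : Finset V, ∃ φ : V → Fin k, (∀ u ∈ P, φ u = φ0 u) ∧
      (∀ u ∈ T, u ∉ P → φ u ∉ X) ∧
      ∀ u ∈ P ∪ T, ∀ v ∈ P ∪ T, G.Adj u v → φ u ≠ φ v := by
    intro T
    induction T using Finset.induction_on with
    | empty =>
      refine ⟨φ0, fun _ _ => rfl, by simp, ?_⟩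
      intro u hu v hv huv
      rw [Finset.union_empty] at hu hv
      exact hP u hu v hv huv
    | insert x T hx ih =>
      obtain ⟨φ, h1, h0, h2⟩ := ih
      by_cases hxP : x ∈ P
      · refine ⟨φ, h1, ?_, ?_⟩
        · intro u hu huP
          rw [Finset.mem_insert] at hu
          rcases hu with rfl | hu
          · exact absurd hxP huP
          · exact h0 u hu huP
        have h3 : P ∪ insert x T = P ∪ T := by
          ext y
          simp only [Finset.mem_union, Finset.mem_insert]
          constructor
          · rintro (h | h | h)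
            · exact Or.inl h
            · exact Or.inl (h ▸ hxP)
            · exact Or.inr h
          · rintro (h | h)
            · exact Or.inl h
            · exact Or.inr (Or.inr h)
        rw [h3]
        exact h2
      · obtain ⟨c, hc⟩ : ∃ c : Fin k, c ∉ (G.neighborSet x).toFinset.image φ ∪ X := by
          by_contra hcon
          push Not at hcon
          have h4 : (Finset.univ : Finset (Fin k)).card ≤
              ((G.neighborSet x).toFinset.image φ ∪ X).card :=
            Finset.card_le_card (fun c _ => hcon c)
          have h5 := Finset.card_image_le (s := (G.neighborSet x).toFinset) (f := φ)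
          have h6 := hD x
          have h8 := Finset.card_union_le ((G.neighborSet x).toFinset.image φ) X
          rw [Finset.card_univ, Fintype.card_fin] at h4
          have h7 : (G.neighborSet x).toFinset.card = (G.neighborSet x).ncard := by
            rw [Set.ncard_eq_toFinset_card']
          omega
        rw [Finset.mem_union, not_or] at hc
        have hc' : ∀ y, G.Adj x y → φ y ≠ c := by
          intro y hy h
          apply hc.1
          rw [← h]
          exact Finset.mem_image_of_mem _ (by simpa using hy)
        refine ⟨Function.update φ x c, ?_, ?_, ?_⟩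
        · intro u hu
          rw [Function.update_of_ne]
          · exact h1 u hu
          · rintro rfl
            exact hxP hu
        · intro u hu huP
          by_cases hux : u = x
          · subst hux
            rw [Function.update_self]
            exact hc.2
          · rw [Function.update_of_ne hux]
            rw [Finset.mem_insert] at hu
            exact h0 u (hu.resolve_left hux) huP
        · intro u hu v hv huv
          by_cases hux : u = x
          · subst hux
            rw [Function.update_self, Function.update_of_ne huv.ne']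
            exact (hc' v huv).symm
          · rw [Function.update_of_ne hux]
            by_cases hvx : v = x
            · subst hvx
              rw [Function.update_self]
              exact hc' u huv.symm
            · rw [Function.update_of_ne hvx]
              apply h2 u _ v _ huv
              · simp only [Finset.mem_union, Finset.mem_insert] at hu ⊢
                tauto
              · simp only [Finset.mem_union, Finset.mem_insert] at hv ⊢
                tauto
  obtain ⟨φ, h1, h0, h2⟩ := h Finset.univ
  refine ⟨φ, h1, fun u hu => h0 u (Finset.mem_univ _) hu, ?_⟩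
  intro u v huv
  exact h2 u (Finset.mem_union_right _ (Finset.mem_univ _)) v
    (Finset.mem_union_right _ (Finset.mem_univ _)) huv

/-- A total colouring from a proper colouring `φ` of the vertices, colours `f1` of the edges of the
subgraph `M` and colours `ψ` of the other edges which avoid, at each end `v`, the set `P v`. -/
theorem assemble {V : Type} (G M : SimpleGraph V) (side : V → Bool)
    (hside : ∀ u v, G.Adj u v → side u ≠ side v) (k : ℕ) (hk : 0 < k) (hMG : M ≤ G)
    (φ : V → Fin k) (hφ : ∀ u v, G.Adj u v → φ u ≠ φ v) (f1 : Sym2 V → Fin k)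
    (h1 : ∀ u v w, M.Adj u v → M.Adj u w → v ≠ w → f1 s(u, v) ≠ f1 s(u, w))
    (h2 : ∀ u v, M.Adj u v → φ u ≠ f1 s(u, v)) (P : V → Finset ℕ)
    (hP1 : ∀ v, (φ v : ℕ) ∈ P v) (hP2 : ∀ u v, M.Adj u v → (f1 s(u, v) : ℕ) ∈ P u)
    (ψ : V × V → ℕ)
    (hψ : ∀ x y, side x = true → G.Adj x y → ¬ M.Adj x y →
      ψ (x, y) < k ∧ ψ (x, y) ∉ P x ∧ ψ (x, y) ∉ P y)
    (hψp : ∀ x y x' y', side x = true → side x' = true → G.Adj x y → ¬ M.Adj x y → G.Adj x' y' →
      ¬ M.Adj x' y' → (x, y) ≠ (x', y') → (x = x' ∨ y = y') → ψ (x, y) ≠ ψ (x', y')) :
    ∃ f : Sym2 V → Fin k,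
      (∀ u v w, G.Adj u v → G.Adj u w → v ≠ w → f s(u, v) ≠ f s(u, w)) ∧
      (∀ u v, G.Adj u v → φ u ≠ f s(u, v)) ∧ ∀ e ∈ M.edgeSet, f e = f1 e := by
  classical
  have hrep : ∀ e : Sym2 V, ∃ q : V × V, s(q.1, q.2) = e := by
    intro e
    induction e using Sym2.ind with
    | _ x y => exact ⟨(x, y), rfl⟩
  choose Q hQ using hrep
  let R : V → V → V × V := fun x y => if side x = true then (x, y) else (y, x)
  have hRsym : ∀ x y, G.Adj x y → R x y = R y x := by
    intro x y hxy
    have h := hside x y hxy
    simp only [R]
    by_cases hx : side x = true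
    · have hy : ¬ side y = true := fun hy => h (hx.trans hy.symm)
      rw [if_pos hx, if_neg hy]
    · have hy : side y = true := by
        revert h hx
        cases side x <;> cases side y <;> simp
      rw [if_neg hx, if_pos hy]
  -- facts on the colour of the pair of an edge
  have hA : ∀ x y, G.Adj x y → ¬ M.Adj x y → ψ (R x y) < k ∧ ψ (R x y) ∉ P x ∧
      ψ (R x y) ∉ P y := by
    intro x y hxy hM
    have h := hside x y hxy
    simp only [R]
    by_cases hx : side x = true
    · rw [if_pos hx]
      exact hψ x y hx hxy hM
    · have hy : side y = true := by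
        revert h hx
        cases side x <;> cases side y <;> simp
      rw [if_neg hx]
      obtain ⟨a, b, c⟩ := hψ y x hy hxy.symm (fun h => hM h.symm)
      exact ⟨a, c, b⟩
  have hB : ∀ u v w, G.Adj u v → ¬ M.Adj u v → G.Adj u w → ¬ M.Adj u w → v ≠ w →
      ψ (R u v) ≠ ψ (R u w) := by
    intro u v w huv hM huw hM' hvw
    by_cases hu : side u = true
    · have e1 : R u v = (u, v) := by simp only [R]; rw [if_pos hu]
      have e2 : R u w = (u, w) := by simp only [R]; rw [if_pos hu]
      rw [e1, e2]
      exact hψp u v u w hu hu huv hM huw hM' (fun h => hvw (Prod.ext_iff.1 h).2) (Or.inl rfl)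
    · have hsv : ∀ z, G.Adj u z → side z = true := by
        intro z hz
        have h := hside u z hz
        revert h hu
        cases side u <;> cases side z <;> simp
      have e1 : R u v = (v, u) := by simp only [R]; rw [if_neg hu]
      have e2 : R u w = (w, u) := by simp only [R]; rw [if_neg hu]
      rw [e1, e2]
      exact hψp v u w u (hsv v huv) (hsv w huw) huv.symm (fun h => hM h.symm) huw.symm
        (fun h => hM' h.symm) (fun h => hvw (Prod.ext_iff.1 h).1) (Or.inr rfl)
  let F : Sym2 V → Fin k := fun e => if e ∈ M.edgeSet then f1 e else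
    if h : ψ (R (Q e).1 (Q e).2) < k then ⟨ψ (R (Q e).1 (Q e).2), h⟩ else ⟨0, hk⟩
  have hF0 : ∀ e ∈ M.edgeSet, F e = f1 e := by
    intro e he
    simp only [F]
    rw [if_pos he]
  have key : ∀ x y, G.Adj x y → R (Q s(x, y)).1 (Q s(x, y)).2 = R x y := by
    intro x y hxy
    rcases Sym2.eq_iff.1 (hQ s(x, y)) with ⟨h2, h3⟩ | ⟨h2, h3⟩
    · rw [h2, h3]
    · rw [h2, h3, hRsym x y hxy]
  have hF1 : ∀ x y, G.Adj x y → ¬ M.Adj x y → ((F s(x, y) : Fin k) : ℕ) = ψ (R x y) := by
    intro x y hxy hM
    have h1 : s(x, y) ∉ M.edgeSet := hM
    have h2 := key x y hxy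
    have h3 : ψ (R (Q s(x, y)).1 (Q s(x, y)).2) < k := by
      rw [h2]
      exact (hA x y hxy hM).1
    simp only [F]
    rw [if_neg h1, dif_pos h3]
    exact congrArg ψ h2
  refine ⟨F, ?_, ?_, hF0⟩
  · intro u v w huv huw hvw
    by_cases h : M.Adj u v
    · by_cases h' : M.Adj u w
      · rw [hF0 _ h, hF0 _ h']
        exact h1 u v w h h' hvw
      · intro he
        have h3 := congrArg Fin.val he
        rw [hF0 _ h, hF1 u w huw h'] at h3
        apply (hA u w huw h').2.1
        rw [← h3]
        exact hP2 u v h
    · by_cases h' : M.Adj u w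
      · intro he
        have h3 := congrArg Fin.val he
        rw [hF1 u v huv h, hF0 s(u, w) h'] at h3
        apply (hA u v huv h).2.1
        rw [h3]
        exact hP2 u w h'
      · intro he
        have h3 := congrArg Fin.val he
        rw [hF1 u v huv h, hF1 u w huw h'] at h3
        exact hB u v w huv h huw h' hvw h3
  · intro u v huv
    by_cases h : M.Adj u v
    · rw [hF0 _ h]
      exact h2 u v h
    · intro he
      have h3 := congrArg Fin.val he
      rw [hF1 u v huv h] at h3
      apply (hA u v huv h).2.1
      rw [← h3]
      exact hP1 u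

end Pool.Agent.Q149.TotExt
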