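import Pool.Agent.Q149.TotExt

/-!
# Extending total colourings of matchings: one colour class is saturated
-/

set_option autoImplicit false

namespace Pool.Agent.Q149.TotExtA

open Finset

theorem edist_adj {V : Type} (G : SimpleGraph V) (u v : V) (h : G.Adj u v)
    (h3 : 3 ≤ G.edist u v) : False := by
  have h1 : G.edist u v ≤ 1 := by
    have := SimpleGraph.Walk.edist_le (SimpleGraph.Walk.cons h SimpleGraph.Walk.nil)
    simpa using this
  have h2 : (3 : ℕ∞) ≤ 1 := h3.trans h1
  exact absurd h2 (by decide)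

theorem edist_two {V : Type} (G : SimpleGraph V) (u v w : V) (h : G.Adj w u) (h' : G.Adj w v)
    (h3 : 3 ≤ G.edist u v) : False := by
  have h1 : G.edist u v ≤ 2 := by
    have := SimpleGraph.Walk.edist_le
      (SimpleGraph.Walk.cons h.symm (SimpleGraph.Walk.cons h' SimpleGraph.Walk.nil))
    simpa using this
  have h2 : (3 : ℕ∞) ≤ 2 := h3.trans h1
  exact absurd h2 (by decide)

theorem partA {V : Type} [Fintype V] (G : SimpleGraph V) (side : V → Bool)
    (hside : ∀ u v, G.Adj u v → side u ≠ side v) (D : ℕ)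
    (hD : ∀ v, (G.neighborSet v).ncard ≤ D) (k : ℕ) (hk : D + 2 ≤ k)
    (H : SimpleGraph V) (hHG : H ≤ G) (hmat : ∀ u v w, H.Adj u v → H.Adj u w → v = w)
    (g0 : V → Fin k) (f0 : Sym2 V → Fin k)
    (hc3 : ∀ u v, H.Adj u v → g0 u ≠ f0 s(u, v))
    (hprop : ∀ u v, u ∈ H.support → v ∈ H.support → G.Adj u v → g0 u ≠ g0 v)
    (c : Fin k) (hu : ∀ v ∈ H.support, g0 v ≠ c)
    (hfar : ∀ s s' t, H.Adj s s' → f0 s(s, s') ≠ c → t ∈ H.support → t ≠ s → t ≠ s' →
      3 ≤ G.edist s t)
    (hcon : ∀ s s' w w' t t', H.Adj s s' → H.Adj t t' → f0 s(s, s') ≠ c → G.Adj s w →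
      G.Adj w w' → G.Adj w' t → w ∉ H.support → w' ∉ H.support →
      f0 s(s, s') ≠ f0 s(t, t')) :
    ∃ (g : V → Fin k) (f : Sym2 V → Fin k), ((∀ u v, G.Adj u v → g u ≠ g v) ∧
      (∀ u v w, G.Adj u v → G.Adj u w → v ≠ w → f s(u, v) ≠ f s(u, w)) ∧
      (∀ u v, G.Adj u v → g u ≠ f s(u, v))) ∧
      (∀ v ∈ H.support, g v = g0 v) ∧ ∀ e ∈ H.edgeSet, f e = f0 e := by
  classical
  have hkpos : 0 < k := by omega
  -- the partner and the colour of the edge of `H`
  let p : V → V := fun v => if h : ∃ w, H.Adj v w then h.choose else v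
  have hp : ∀ v, v ∈ H.support → H.Adj v (p v) := by
    intro v hv
    have h := (SimpleGraph.mem_support H).1 hv
    simp only [p]
    rw [dif_pos h]
    exact h.choose_spec
  have hsup : ∀ u v, H.Adj u v → u ∈ H.support :=
    fun u v h => (SimpleGraph.mem_support H).2 ⟨v, h⟩
  have hp' : ∀ v w, H.Adj v w → p v = w := by
    intro v w h
    exact hmat v _ _ (hp v (hsup v w h)) h
  let b : V → Fin k := fun v => f0 s(v, p v)
  have hb : ∀ v w, H.Adj v w → b v = f0 s(v, w) := by
    intro v w h
    simp only [b]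
    rw [hp' v w h]
  -- vertices of `H` with edge colour not `c`, and equal to `c`
  let S1 : V → Prop := fun v => v ∈ H.support ∧ b v ≠ c
  let Sc : V → Prop := fun v => v ∈ H.support ∧ b v = c
  have hfar' : ∀ s t, S1 s → t ∈ H.support → t ≠ s → t ≠ p s → 3 ≤ G.edist s t := by
    intro s t hs ht h1 h2
    exact hfar s (p s) t (hp s hs.1) hs.2 ht h1 h2
  -- a vertex of `H` adjacent to a vertex of `S1` is its partner
  have hS1H : ∀ s t, S1 s → t ∈ H.support → G.Adj s t → H.Adj s t := by
    intro s t hs ht hst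
    by_cases h : t = p s
    · rw [h]
      exact hp s hs.1
    · exact (edist_adj G s t hst (hfar' s t hs ht hst.ne' h)).elim
  -- neighbours of `S1`
  let N1 : V → Prop := fun w => w ∉ H.support ∧ ∃ s, S1 s ∧ G.Adj s w
  have huniq : ∀ w s t, S1 s → t ∈ H.support → G.Adj s w → G.Adj t w → s = t := by
    intro w s t hs ht hws hwt
    by_contra hne
    by_cases h : t = p s
    · have h1 := hside s w hws
      have h2 := hside t w hwt
      have h3 := hside s t (by rw [h]; exact hHG (hp s hs.1))
      revert h1 h2 h3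
      cases side w <;> cases side s <;> cases side t <;> simp
    · exact edist_two G s t w hws.symm hwt.symm (hfar' s t hs ht (Ne.symm hne) h)
  let nb : V → V := fun w => if h : ∃ s, S1 s ∧ G.Adj s w then h.choose else w
  have hnb : ∀ s w, S1 s → G.Adj s w → nb w = s := by
    intro s w hs hsw
    have h : ∃ s, S1 s ∧ G.Adj s w := ⟨s, hs, hsw⟩
    simp only [nb]
    rw [dif_pos h]
    exact huniq w _ _ h.choose_spec.1 hs.1 h.choose_spec.2 hsw
  -- the edges which may get the colour `c`
  let E2 : Finset (V × V) := Finset.univ.filter (fun e => side e.1 = true ∧ G.Adj e.1 e.2 ∧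
    ¬ H.Adj e.1 e.2 ∧ ¬ Sc e.1 ∧ ¬ Sc e.2)
  have hE2 : ∀ x y, (x, y) ∈ E2 ↔ side x = true ∧ G.Adj x y ∧ ¬ H.Adj x y ∧ ¬ Sc x ∧ ¬ Sc y := by
    intro x y
    simp [E2]
  have hN1Sc : ∀ w v, N1 w → G.Adj w v → ¬ Sc v := by
    intro w v hw hwv hv
    obtain ⟨s, hs, hsw⟩ := hw.2
    have h := huniq w s v hs hv.1 hsw hwv.symm
    rw [h] at hs
    exact hs.2 hv.2
  let Good : Finset (V × V) → Prop := fun M =>
    (∀ e ∈ M, ∀ f ∈ M, e.1 = f.1 ∨ e.2 = f.2 → e = f) ∧
    ∀ w, N1 w → (G.neighborSet w).ncard = D → ∃ e ∈ M, e.1 = w ∨ e.2 = w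
  have hex : ∃ M ∈ E2.powerset.filter Good, ∀ M' ∈ E2.powerset.filter Good,
      M'.card ≤ M.card := by
    apply Finset.exists_max_image
    rcases Nat.eq_zero_or_pos D with hD0 | hD0
    · refine ⟨∅, ?_⟩
      rw [Finset.mem_filter, Finset.mem_powerset]
      refine ⟨Finset.empty_subset _, ?_, ?_⟩
      · intro e he
        exact absurd he (Finset.notMem_empty _)
      · intro w hw _
        obtain ⟨s, hs, hsw⟩ := hw.2
        have h1 := hD w
        rw [hD0] at h1
        have h2 : (G.neighborSet w) = ∅ := by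
          have h3 : (G.neighborSet w).ncard = 0 := by omega
          rwa [Set.ncard_eq_zero (Set.toFinite _)] at h3
        have h4 : s ∈ G.neighborSet w := hsw.symm
        rw [h2] at h4
        exact absurd h4 (Set.notMem_empty _)
    · have hcardl : ∀ u, (E2.filter (fun e => e.1 = u)).card ≤ (G.neighborSet u).ncard := by
        intro u
        rw [Set.ncard_eq_toFinset_card']
        apply Finset.card_le_card_of_injOn (fun e => e.2)
        · rintro ⟨x, y⟩ he
          rw [Finset.mem_coe, Finset.mem_filter, hE2] at he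
          have h1 : x = u := he.2
          subst h1
          simpa using he.1.2.1
        · rintro ⟨x1, y1⟩ h1 ⟨x2, y2⟩ h2 h
          rw [Finset.mem_coe, Finset.mem_filter] at h1 h2
          exact Prod.ext (h1.2.trans h2.2.symm) h
      have hcardr : ∀ u, (E2.filter (fun e => e.2 = u)).card ≤ (G.neighborSet u).ncard := by
        intro u
        rw [Set.ncard_eq_toFinset_card']
        apply Finset.card_le_card_of_injOn (fun e => e.1)
        · rintro ⟨x, y⟩ he
          rw [Finset.mem_coe, Finset.mem_filter, hE2] at he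
          have h1 : y = u := he.2
          subst h1
          simpa using he.1.2.1.symm
        · rintro ⟨x1, y1⟩ h1 ⟨x2, y2⟩ h2 h
          rw [Finset.mem_coe, Finset.mem_filter] at h1 h2
          exact Prod.ext h (h1.2.trans h2.2.symm)
      obtain ⟨M, _, _, hME, hM, hMl, hMr, _⟩ := TH559.LE.cover E2 D hD0
        (fun u => (hcardl u).trans (hD u)) (fun u => (hcardr u).trans (hD u))
      refine ⟨M, ?_⟩
      rw [Finset.mem_filter, Finset.mem_powerset]
      refine ⟨hME, hM, ?_⟩
      intro w hw hdeg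
      have hnoH : ∀ v, ¬ H.Adj w v := fun v h => hw.1 (hsup w v h)
      have hnSc : ¬ Sc w := fun h => hw.1 h.1
      by_cases hwside : side w = true
      · obtain ⟨e, he, he1⟩ := hMl w (by
          apply le_antisymm ((hcardl w).trans (hD w))
          rw [← hdeg, Set.ncard_eq_toFinset_card']
          apply Finset.card_le_card_of_injOn (fun v => (w, v))
          · intro v hv
            rw [Finset.mem_coe, Finset.mem_filter, hE2]
            have hv' : G.Adj w v := by simpa using hv
            exact ⟨⟨hwside, hv', hnoH v, hnSc, hN1Sc w v hw hv'⟩, rfl⟩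
          · intro a _ a' _ h
            exact (Prod.ext_iff.1 h).2)
        exact ⟨e, he, Or.inl he1⟩
      · obtain ⟨e, he, he1⟩ := hMr w (by
          apply le_antisymm ((hcardr w).trans (hD w))
          rw [← hdeg, Set.ncard_eq_toFinset_card']
          apply Finset.card_le_card_of_injOn (fun v => (v, w))
          · intro v hv
            rw [Finset.mem_coe, Finset.mem_filter, hE2]
            have hv' : G.Adj w v := by simpa using hv
            have hvs : side v = true := by
              have h := hside w v hv'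
              revert h hwside
              cases side w <;> cases side v <;> simp
            exact ⟨⟨hvs, hv'.symm, fun h => hnoH v h.symm, hN1Sc w v hw hv', hnSc⟩, rfl⟩
          · intro a _ a' _ h
            exact (Prod.ext_iff.1 h).1)
        exact ⟨e, he, Or.inr he1⟩
  obtain ⟨M, hMmem, hMmax⟩ := hex
  rw [Finset.mem_filter, Finset.mem_powerset] at hMmem
  obtain ⟨hME, hMm, hMN⟩ := hMmem
  let CM : V → Prop := fun v => ∃ e ∈ M, e.1 = v ∨ e.2 = v
  let Cov : V → Prop := fun v => Sc v ∨ CM v
  have hMe : ∀ x y, (x, y) ∈ M → side x = true ∧ G.Adj x y ∧ ¬ H.Adj x y ∧ ¬ Sc x ∧ ¬ Sc y :=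
    fun x y h => (hE2 x y).1 (hME h)
  have hMnSc : ∀ v, CM v → ¬ Sc v := by
    rintro v ⟨⟨x, y⟩, he, h | h⟩
    · have h' : x = v := h
      rw [← h']
      exact (hMe x y he).2.2.2.1
    · have h' : y = v := h
      rw [← h']
      exact (hMe x y he).2.2.2.2
  -- maximality
  have hmaxl : ∀ x y, side x = true → G.Adj x y → ¬ H.Adj x y → ¬ Cov x → ¬ Cov y → False := by
    intro x y hx hxy hH hcx hcy
    have hnx : ∀ e ∈ M, e.1 ≠ x := fun e he h => hcx (Or.inr ⟨e, he, Or.inl h⟩)
    have hny : ∀ e ∈ M, e.2 ≠ y := fun e he h => hcy (Or.inr ⟨e, he, Or.inr h⟩)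
    have hnot : (x, y) ∉ M := fun h => hnx _ h rfl
    have hgood : insert (x, y) M ∈ E2.powerset.filter Good := by
      rw [Finset.mem_filter, Finset.mem_powerset]
      refine ⟨?_, ?_, ?_⟩
      · rw [Finset.insert_subset_iff]
        refine ⟨?_, hME⟩
        rw [hE2]
        exact ⟨hx, hxy, hH, fun h => hcx (Or.inl h), fun h => hcy (Or.inl h)⟩
      · intro e he f hf hor
        rw [Finset.mem_insert] at he hf
        rcases he with he | he
        · rcases hf with hf | hf
          · rw [he, hf]
          · rw [he] at hor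
            rcases hor with h | h
            · exact absurd h.symm (hnx f hf)
            · exact absurd h.symm (hny f hf)
        · rcases hf with hf | hf
          · rw [hf] at hor
            rcases hor with h | h
            · exact absurd h (hnx e he)
            · exact absurd h (hny e he)
          · exact hMm e he f hf hor
      · intro w hw hdeg
        obtain ⟨e, he, h⟩ := hMN w hw hdeg
        exact ⟨e, Finset.mem_insert_of_mem he, h⟩
    have h := hMmax _ hgood
    rw [Finset.card_insert_of_notMem hnot] at h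
    omega
  have hmax : ∀ x y, G.Adj x y → ¬ H.Adj x y → ¬ Cov x → ¬ Cov y → False := by
    intro x y hxy hH hcx hcy
    by_cases hx : side x = true
    · exact hmaxl x y hx hxy hH hcx hcy
    · have hy : side y = true := by
        have h := hside x y hxy
        revert h hx
        cases side x <;> cases side y <;> simp
      exact hmaxl y x hy hxy.symm (fun h => hH h.symm) hcy hcx
  -- the colouring of the vertices
  let φ0 : V → Fin k := fun v => if v ∈ H.support then g0 v else if N1 v then b (nb v) else c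
  have hφ0S : ∀ s, s ∈ H.support → φ0 s = g0 s := by
    intro s hs
    simp only [φ0]
    rw [if_pos hs]
  have hφ0N : ∀ s w, S1 s → w ∉ H.support → G.Adj s w → φ0 w = b s := by
    intro s w hs hw hsw
    simp only [φ0]
    rw [if_neg hw, if_pos (show N1 w from ⟨hw, s, hs, hsw⟩), hnb s w hs hsw]
  have hφ0c : ∀ v, v ∉ H.support → ¬ N1 v → φ0 v = c := by
    intro v hv hn
    simp only [φ0]
    rw [if_neg hv, if_neg hn]
  let P : Finset V := Finset.univ.filter (fun v => v ∈ H.support ∨ N1 v ∨ ¬ Cov v)
  have hPm : ∀ v, v ∈ P ↔ (v ∈ H.support ∨ N1 v ∨ ¬ Cov v) := by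
    intro v
    simp [P]
  have hPproper : ∀ u ∈ P, ∀ v ∈ P, G.Adj u v → φ0 u ≠ φ0 v := by
    have hSN : ∀ u v, u ∈ H.support → v ∉ H.support → G.Adj u v → φ0 u ≠ φ0 v := by
      intro u v huS hvS huv
      rw [hφ0S u huS]
      by_cases hv : N1 v
      · obtain ⟨s, hs, hsv⟩ := hv.2
        have h := huniq v s u hs huS hsv huv
        subst h
        rw [hφ0N s v hs hvS hsv, hb s (p s) (hp s hs.1)]
        exact hc3 s (p s) (hp s hs.1)
      · rw [hφ0c v hvS hv]
        exact hu u huS
    have hNc : ∀ u v, N1 u → v ∉ H.support → ¬ N1 v → φ0 u ≠ φ0 v := by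
      intro u v huN hvS hvN
      obtain ⟨s, hs, hsu⟩ := huN.2
      rw [hφ0N s u hs huN.1 hsu, hφ0c v hvS hvN]
      exact hs.2
    intro u huP v hvP huv
    by_cases huS : u ∈ H.support
    · by_cases hvS : v ∈ H.support
      · rw [hφ0S u huS, hφ0S v hvS]
        exact hprop u v huS hvS huv
      · exact hSN u v huS hvS huv
    · by_cases hvS : v ∈ H.support
      · exact (hSN v u hvS huS huv.symm).symm
      · by_cases huN : N1 u
        · by_cases hvN : N1 v
          · obtain ⟨s, hs, hsu⟩ := huN.2
            obtain ⟨t, ht, htv⟩ := hvN.2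
            rw [hφ0N s u hs huS hsu, hφ0N t v ht hvS htv]
            exact hcon s (p s) u v t (p t) (hp s hs.1) (hp t ht.1) hs.2 hsu huv htv.symm huS hvS
          · exact hNc u v huN hvS hvN
        · by_cases hvN : N1 v
          · exact (hNc v u hvN huS huN).symm
          · have h1 : ¬ Cov u := by
              rcases (hPm u).1 huP with h | h | h
              · exact absurd h huS
              · exact absurd h huN
              · exact h
            have h2 : ¬ Cov v := by
              rcases (hPm v).1 hvP with h | h | h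
              · exact absurd h hvS
              · exact absurd h hvN
              · exact h
            exact (hmax u v huv (fun h => huS (hsup u v h)) h1 h2).elim
  obtain ⟨φ, hφP, hφX, hφ⟩ := TotExt.greedy G D k hD {c} (by
    rw [Finset.card_singleton]; omega) P φ0 hPproper
  have hφS : ∀ s, s ∈ H.support → φ s = g0 s := by
    intro s hs
    rw [hφP s ((hPm s).2 (Or.inl hs)), hφ0S s hs]
  have hφN : ∀ s w, S1 s → w ∉ H.support → G.Adj s w → φ w = b s := by
    intro s w hs hw hsw
    rw [hφP w ((hPm w).2 (Or.inr (Or.inl ⟨hw, s, hs, hsw⟩))), hφ0N s w hs hw hsw]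
  have hφc : ∀ v, v ∉ H.support → ¬ N1 v → ¬ Cov v → φ v = c := by
    intro v hv hn hcv
    rw [hφP v ((hPm v).2 (Or.inr (Or.inr hcv))), hφ0c v hv hn]
  have hφCov : ∀ v, Cov v → φ v ≠ c := by
    intro v hv
    by_cases hvS : v ∈ H.support
    · rw [hφS v hvS]
      exact hu v hvS
    · by_cases hvN : N1 v
      · obtain ⟨s, hs, hsv⟩ := hvN.2
        rw [hφN s v hs hvS hsv]
        exact hs.2
      · have h := hφX v (by
          rw [hPm]
          push Not
          exact ⟨hvS, hvN, hv⟩)
        simpa using h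
  -- the precoloured subgraph
  let Mg : SimpleGraph V :=
    { Adj := fun u v => H.Adj u v ∨ (u, v) ∈ M ∨ (v, u) ∈ M
      symm := ⟨by
        intro u v h
        rcases h with h | h | h
        · exact Or.inl h.symm
        · exact Or.inr (Or.inr h)
        · exact Or.inr (Or.inl h)⟩
      loopless := ⟨by
        intro u h
        rcases h with h | h | h
        · exact H.loopless.irrefl u h
        · exact G.loopless.irrefl u (hMe u u h).2.1
        · exact G.loopless.irrefl u (hMe u u h).2.1⟩ }
  have hMg : ∀ u v, Mg.Adj u v ↔ H.Adj u v ∨ (u, v) ∈ M ∨ (v, u) ∈ M := fun u v => Iff.rfl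
  have hMgG : Mg ≤ G := by
    intro u v h
    rcases h with h | h | h
    · exact hHG h
    · exact (hMe u v h).2.1
    · exact (hMe v u h).2.1.symm
  let f1 : Sym2 V → Fin k := fun e => if e ∈ H.edgeSet then f0 e else c
  have hf1H : ∀ u v, H.Adj u v → f1 s(u, v) = f0 s(u, v) := by
    intro u v h
    simp only [f1]
    rw [if_pos]
    exact h
  have hf1M : ∀ u v, ¬ H.Adj u v → f1 s(u, v) = c := by
    intro u v h
    simp only [f1]
    rw [if_neg]
    exact h
  have hMCM : ∀ u v, ((u, v) ∈ M ∨ (v, u) ∈ M) → CM u := by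
    intro u v h
    rcases h with h | h
    · exact ⟨_, h, Or.inl rfl⟩
    · exact ⟨_, h, Or.inr rfl⟩
  have hbc : ∀ u v, H.Adj u v → CM u → f0 s(u, v) ≠ c := by
    intro u v h hC he
    apply hMnSc u hC
    exact ⟨hsup u v h, (hb u v h).trans he⟩
  let Pc : V → Finset ℕ := fun v => {(φ v : ℕ)} ∪
    ((if S1 v then {(b v : ℕ)} else ∅) ∪ (if Cov v then {(c : ℕ)} else ∅))
  let Er : Finset (V × V) := Finset.univ.filter
    (fun e => side e.1 = true ∧ G.Adj e.1 e.2 ∧ ¬ Mg.Adj e.1 e.2)
  have hEr : ∀ x y, (x, y) ∈ Er ↔ side x = true ∧ G.Adj x y ∧ ¬ Mg.Adj x y := by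
    intro x y
    simp [Er]
  let L : V × V → Finset ℕ := fun e => Finset.range k \ (Pc e.1 ∪ Pc e.2)
  let dg : V → ℕ := fun v => (Finset.univ.filter (fun w => G.Adj v w ∧ ¬ Mg.Adj v w)).card
  have hdgD : ∀ v, dg v ≤ (G.neighborSet v).ncard := by
    intro v
    simp only [dg]
    rw [Set.ncard_eq_toFinset_card']
    apply Finset.card_le_card
    intro w hw
    rw [Finset.mem_filter] at hw
    simpa using hw.2.1
  have hdg1 : ∀ v, (∃ w, Mg.Adj v w) → dg v + 1 ≤ D := by
    rintro v ⟨w, hw⟩
    refine le_trans ?_ (hD v)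
    simp only [dg]
    rw [Set.ncard_eq_toFinset_card']
    have hnot : w ∉ Finset.univ.filter (fun w => G.Adj v w ∧ ¬ Mg.Adj v w) := by
      rw [Finset.mem_filter]
      exact fun h => h.2.2 hw
    rw [← Finset.card_insert_of_notMem hnot]
    apply Finset.card_le_card
    intro u hu'
    rw [Finset.mem_insert, Finset.mem_filter] at hu'
    rcases hu' with rfl | hu'
    · simpa using hMgG hw
    · simpa using hu'.2.1
  have hdgCov : ∀ v, Cov v → dg v + 1 ≤ D := by
    intro v hv
    apply hdg1
    rcases hv with hv | ⟨⟨x, y⟩, he, h⟩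
    · exact ⟨p v, (hMg _ _).2 (Or.inl (hp v hv.1))⟩
    · rcases h with h | h
      · have h' : x = v := h
        subst h'
        exact ⟨y, (hMg _ _).2 (Or.inr (Or.inl he))⟩
      · have h' : y = v := h
        subst h'
        exact ⟨x, (hMg _ _).2 (Or.inr (Or.inr he))⟩
  have hdgS1 : ∀ v, S1 v → dg v + 1 ≤ D := by
    intro v hv
    exact hdg1 v ⟨p v, (hMg _ _).2 (Or.inl (hp v hv.1))⟩
  have hdgN : ∀ v, N1 v → dg v + 1 ≤ D := by
    intro v hv
    by_cases hcv : Cov v
    · exact hdgCov v hcv
    · have h1 : (G.neighborSet v).ncard ≠ D := by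
        intro h
        obtain ⟨e, he, h'⟩ := hMN v hv h
        exact hcv (Or.inr ⟨e, he, h'⟩)
      have h2 := hD v
      have h3 := hdgD v
      omega
  have hdg' : ∀ v, dg v ≤ D := fun v => (hdgD v).trans (hD v)
  -- the key bound
  have hPcm : ∀ v (z : ℕ), z ∈ Pc v → z = (φ v : ℕ) ∨ (S1 v ∧ z = (b v : ℕ)) ∨
      (Cov v ∧ z = (c : ℕ)) := by
    intro v z hz
    simp only [Pc, Finset.mem_union, Finset.mem_singleton] at hz
    rcases hz with h | h | h
    · exact Or.inl h
    · by_cases h' : S1 v
      · rw [if_pos h', Finset.mem_singleton] at h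
        exact Or.inr (Or.inl ⟨h', h⟩)
      · rw [if_neg h'] at h
        exact absurd h (Finset.notMem_empty _)
    · by_cases h' : Cov v
      · rw [if_pos h', Finset.mem_singleton] at h
        exact Or.inr (Or.inr ⟨h', h⟩)
      · rw [if_neg h'] at h
        exact absurd h (Finset.notMem_empty _)
  have hPcc : ∀ v, Cov v → (c : ℕ) ∈ Pc v := by
    intro v hv
    simp only [Pc, Finset.mem_union]
    right; right
    rw [if_pos hv]
    exact Finset.mem_singleton_self _
  have hPcb : ∀ v, S1 v → (b v : ℕ) ∈ Pc v := by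
    intro v hv
    simp only [Pc, Finset.mem_union]
    right; left
    rw [if_pos hv]
    exact Finset.mem_singleton_self _
  have hgen : ∀ x y, G.Adj x y → ¬ Mg.Adj x y → (S1 x ∨ (¬ S1 x ∧ ¬ S1 y ∧ (Cov y → Cov x))) →
      ∃ A : Finset ℕ, Pc x ∪ Pc y ⊆ A ∧ (A.card ≤ 2 ∨ (A.card ≤ 3 ∧ dg x + 1 ≤ D ∧
        dg y + 1 ≤ D)) := by
    intro x y hxy hM hor
    have hH : ¬ H.Adj x y := fun h => hM ((hMg _ _).2 (Or.inl h))
    have h3 : ∀ a a' a'' : ℕ, a ∈ ({a, a', a''} : Finset ℕ) ∧ a' ∈ ({a, a', a''} : Finset ℕ) ∧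
        a'' ∈ ({a, a', a''} : Finset ℕ) := by
      intro a a' a''
      simp
    have h2 : ∀ a a' : ℕ, a ∈ ({a, a'} : Finset ℕ) ∧ a' ∈ ({a, a'} : Finset ℕ) := by
      intro a a'
      simp
    rcases hor with hx | ⟨hx, hy, hcc⟩
    · have hyS : y ∉ H.support := fun hy => hH (hS1H x y hx hy hxy)
      have hyN : N1 y := ⟨hyS, x, hx, hxy⟩
      have hφy : φ y = b x := hφN x y hx hyS hxy
      refine ⟨{(φ x : ℕ), (b x : ℕ), (c : ℕ)}, ?_, Or.inr ⟨Finset.card_le_three, hdgS1 x hx,
        hdgN y hyN⟩⟩
      intro z hz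
      rcases Finset.mem_union.1 hz with hz | hz
      · rcases hPcm x z hz with h | ⟨_, h⟩ | ⟨_, h⟩
        · rw [h]; exact (h3 _ _ _).1
        · rw [h]; exact (h3 _ _ _).2.1
        · rw [h]; exact (h3 _ _ _).2.2
      · rcases hPcm y z hz with h | ⟨h', _⟩ | ⟨_, h⟩
        · rw [h, hφy]; exact (h3 _ _ _).2.1
        · exact absurd h'.1 hyS
        · rw [h]; exact (h3 _ _ _).2.2
    · by_cases hcx : Cov x
      · by_cases hyy : Cov y ∨ N1 y
        · refine ⟨{(φ x : ℕ), (φ y : ℕ), (c : ℕ)}, ?_, Or.inr ⟨Finset.card_le_three,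
            hdgCov x hcx, ?_⟩⟩
          · intro z hz
            rcases Finset.mem_union.1 hz with hz | hz
            · rcases hPcm x z hz with h | ⟨h', _⟩ | ⟨_, h⟩
              · rw [h]; exact (h3 _ _ _).1
              · exact absurd h' hx
              · rw [h]; exact (h3 _ _ _).2.2
            · rcases hPcm y z hz with h | ⟨h', _⟩ | ⟨_, h⟩
              · rw [h]; exact (h3 _ _ _).2.1
              · exact absurd h' hy
              · rw [h]; exact (h3 _ _ _).2.2
          · rcases hyy with h | h
            · exact hdgCov y h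
            · exact hdgN y h
        · push Not at hyy
          have hyS : y ∉ H.support := by
            intro h
            by_cases hbc' : b y = c
            · exact hyy.1 (Or.inl ⟨h, hbc'⟩)
            · exact hy ⟨h, hbc'⟩
          have hφy : φ y = c := hφc y hyS hyy.2 hyy.1
          refine ⟨{(φ x : ℕ), (c : ℕ)}, ?_, Or.inl Finset.card_le_two⟩
          intro z hz
          rcases Finset.mem_union.1 hz with hz | hz
          · rcases hPcm x z hz with h | ⟨h', _⟩ | ⟨_, h⟩
            · rw [h]; exact (h2 _ _).1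
            · exact absurd h' hx
            · rw [h]; exact (h2 _ _).2
          · rcases hPcm y z hz with h | ⟨h', _⟩ | ⟨_, h⟩
            · rw [h, hφy]; exact (h2 _ _).2
            · exact absurd h' hy
            · rw [h]; exact (h2 _ _).2
      · have hcy : ¬ Cov y := fun h => hcx (hcc h)
        refine ⟨{(φ x : ℕ), (φ y : ℕ)}, ?_, Or.inl Finset.card_le_two⟩
        intro z hz
        rcases Finset.mem_union.1 hz with hz | hz
        · rcases hPcm x z hz with h | ⟨h', _⟩ | ⟨h', _⟩
          · rw [h]; exact (h2 _ _).1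
          · exact absurd h' hx
          · exact absurd h' hcx
        · rcases hPcm y z hz with h | ⟨h', _⟩ | ⟨h', _⟩
          · rw [h]; exact (h2 _ _).2
          · exact absurd h' hy
          · exact absurd h' hcy
  have hbound : ∀ x y, G.Adj x y → ¬ Mg.Adj x y → ∃ A : Finset ℕ, Pc x ∪ Pc y ⊆ A ∧
      (A.card ≤ 2 ∨ (A.card ≤ 3 ∧ dg x + 1 ≤ D ∧ dg y + 1 ≤ D)) := by
    intro x y hxy hM
    by_cases hx : S1 x
    · exact hgen x y hxy hM (Or.inl hx)
    · have hsw : (S1 y ∨ (¬ S1 y ∧ ¬ S1 x ∧ (Cov x → Cov y))) → ∃ A : Finset ℕ,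
          Pc x ∪ Pc y ⊆ A ∧ (A.card ≤ 2 ∨ (A.card ≤ 3 ∧ dg x + 1 ≤ D ∧ dg y + 1 ≤ D)) := by
        intro h
        obtain ⟨A, hA, h'⟩ := hgen y x hxy.symm (fun h => hM h.symm) h
        refine ⟨A, by rwa [Finset.union_comm] at hA, ?_⟩
        rcases h' with h' | h'
        · exact Or.inl h'
        · exact Or.inr ⟨h'.1, h'.2.2, h'.2.1⟩
      by_cases hy : S1 y
      · exact hsw (Or.inl hy)
      · by_cases hcc : Cov y → Cov x
        · exact hgen x y hxy hM (Or.inr ⟨hx, hy, hcc⟩)
        · push Not at hcc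
          exact hsw (Or.inr ⟨hy, hx, fun _ => hcc.1⟩)
  -- the theorem of Borodin, Kostochka and Woodall
  obtain ⟨ψ, hψ⟩ := TH559.LE.bkw Er L (by
    rintro ⟨x, y⟩ he
    rw [hEr] at he
    obtain ⟨A, hA, hor⟩ := hbound x y he.2.1 he.2.2
    have hdx : (Er.filter (fun f => f.1 = x)).card ≤ dg x := by
      apply Finset.card_le_card_of_injOn (fun f => f.2)
      · rintro ⟨x', y'⟩ hf
        rw [Finset.mem_coe, Finset.mem_filter, hEr] at hf
        rw [Finset.mem_coe, Finset.mem_filter]
        have h1 : x' = x := hf.2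
        rw [h1] at hf
        exact ⟨Finset.mem_univ _, hf.1.2⟩
      · rintro ⟨x1, y1⟩ h1 ⟨x2, y2⟩ h2 h
        rw [Finset.mem_coe, Finset.mem_filter] at h1 h2
        exact Prod.ext (h1.2.trans h2.2.symm) h
    have hdy : (Er.filter (fun f => f.2 = y)).card ≤ dg y := by
      apply Finset.card_le_card_of_injOn (fun f => f.1)
      · rintro ⟨x', y'⟩ hf
        rw [Finset.mem_coe, Finset.mem_filter, hEr] at hf
        rw [Finset.mem_coe, Finset.mem_filter]
        have h1 : y' = y := hf.2
        rw [h1] at hf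
        exact ⟨Finset.mem_univ _, hf.1.2.1.symm, fun h => hf.1.2.2 h.symm⟩
      · rintro ⟨x1, y1⟩ h1 ⟨x2, y2⟩ h2 h
        rw [Finset.mem_coe, Finset.mem_filter] at h1 h2
        exact Prod.ext h (h1.2.trans h2.2.symm)
    have hL : k - A.card ≤ (L (x, y)).card := by
      have h1 := Finset.le_card_sdiff (Pc x ∪ Pc y) (Finset.range k)
      have h2 := Finset.card_le_card hA
      rw [Finset.card_range] at h1
      simp only [L]
      omega
    have h1 := hdg' x
    have h2 := hdg' y
    refine max_le (le_trans hdx ?_) (le_trans hdy ?_)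
    · rcases hor with h | ⟨h, h', h''⟩ <;> omega
    · rcases hor with h | ⟨h, h', h''⟩ <;> omega)
  obtain ⟨f, hf1, hf2, hf3⟩ := TotExt.assemble G Mg side hside k hkpos hMgG φ hφ f1
    (by
      intro u v w huv huw hvw
      rw [hMg] at huv huw
      by_cases h : H.Adj u v
      · by_cases h' : H.Adj u w
        · exact absurd (hmat u v w h h') hvw
        · rw [hf1H u v h, hf1M u w h']
          exact hbc u v h (hMCM u w (huw.resolve_left h'))
      · by_cases h' : H.Adj u w
        · rw [hf1H u w h', hf1M u v h]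
          exact (hbc u w h' (hMCM u v (huv.resolve_left h))).symm
        · exfalso
          have a1 := huv.resolve_left h
          have a2 := huw.resolve_left h'
          rcases a1 with a1 | a1
          · rcases a2 with a2 | a2
            · have := hMm _ a1 _ a2 (Or.inl rfl)
              exact hvw (Prod.ext_iff.1 this).2
            · have s1 := (hMe _ _ a1).1
              have s2 := (hMe _ _ a2).1
              have s3 := hside _ _ (hMe _ _ a2).2.1
              rw [s1, s2] at s3
              exact s3 rfl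
          · rcases a2 with a2 | a2
            · have s1 := (hMe _ _ a1).1
              have s2 := (hMe _ _ a2).1
              have s3 := hside _ _ (hMe _ _ a1).2.1
              rw [s1, s2] at s3
              exact s3 rfl
            · have := hMm _ a1 _ a2 (Or.inr rfl)
              exact hvw (Prod.ext_iff.1 this).1)
    (by
      intro u v huv
      rw [hMg] at huv
      by_cases h : H.Adj u v
      · rw [hf1H u v h, hφS u (hsup u v h)]
        exact hc3 u v h
      · rw [hf1M u v h]
        exact hφCov u (Or.inr (hMCM u v (huv.resolve_left h))))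
    Pc (by
      intro v
      simp only [Pc]
      exact Finset.mem_union_left _ (Finset.mem_singleton_self _))
    (by
      intro u v huv
      rw [hMg] at huv
      by_cases h : H.Adj u v
      · rw [hf1H u v h, ← hb u v h]
        by_cases hbu : b u = c
        · rw [hbu]
          exact hPcc u (Or.inl ⟨hsup u v h, hbu⟩)
        · exact hPcb u ⟨hsup u v h, hbu⟩
      · rw [hf1M u v h]
        exact hPcc u (Or.inr (hMCM u v (huv.resolve_left h))))
    ψ (by
      intro x y hx hxy hM
      have h := (hψ (x, y) ((hEr x y).2 ⟨hx, hxy, hM⟩)).1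
      simp only [L, Finset.mem_sdiff, Finset.mem_range, Finset.mem_union, not_or] at h
      exact ⟨h.1, h.2.1, h.2.2⟩)
    (by
      intro x y x' y' hx hx' hxy hM hxy' hM' hne hor
      have h := (hψ (x', y') ((hEr x' y').2 ⟨hx', hxy', hM'⟩)).2 (x, y)
        ((hEr x y).2 ⟨hx, hxy, hM⟩) hne
      exact h hor)
  refine ⟨φ, f, ⟨hφ, hf1, hf2⟩, hφS, ?_⟩
  intro e he
  rw [hf3 e ?_]
  · simp only [f1]
    rw [if_pos he]
  · revert he
    induction e using Sym2.ind with
    | _ x y =>
      intro he
      exact (hMg x y).2 (Or.inl he)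

end Pool.Agent.Q149.TotExtA
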