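import Pool.Agent.Q149.TotExtA

/-!
# Extending total colourings of matchings: a matching avoiding bad vertices
-/

set_option autoImplicit false

namespace Pool.Agent.Q149.TotExtB

open Finset

open Classical in
/-- Galvin's argument for sets of pairs. -/
theorem galvinE {V : Type} [Fintype V] (E : Finset (V × V)) (L : V × V → Finset ℕ)
    (c : V × V → ℕ)
    (hc1 : ∀ e ∈ E, ∀ f ∈ E, e.1 = f.1 ∨ e.2 = f.2 → c e = c f → e = f)
    (hc2 : ∀ e ∈ E, (E.filter (fun f => f.1 = e.1 ∧ c e < c f)).card +
        (E.filter (fun f => f.2 = e.2 ∧ c f < c e)).card < (L e).card) :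
    ∃ φ : V × V → ℕ, ∀ e ∈ E, φ e ∈ L e ∧
      ∀ f ∈ E, f ≠ e → (f.1 = e.1 ∨ f.2 = e.2) → φ f ≠ φ e := by
  have tr : ∀ P : V × V → Prop, ((univ : Finset {e // e ∈ E}).filter (fun f => P f.1)).card =
      (E.filter P).card := by
    intro P
    refine Finset.card_bij (fun f _ => f.1) ?_ ?_ ?_
    · intro f hf
      rw [Finset.mem_filter] at hf ⊢
      exact ⟨f.2, hf.2⟩
    · intro a _ b _ h
      exact Subtype.ext h
    · intro f hf
      rw [Finset.mem_filter] at hf
      exact ⟨⟨f, hf.1⟩, Finset.mem_filter.2 ⟨Finset.mem_univ _, hf.2⟩, rfl⟩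
  obtain ⟨φ, hφ⟩ := TH559.LE.galvin (α := {e // e ∈ E}) (fun e => e.1.1) (fun e => e.1.2)
    (fun e => c e.1) (fun e => c e.1)
    (fun e f h1 h2 => Subtype.ext (hc1 e.1 e.2 f.1 f.2 (Or.inl h1) h2))
    (fun e f h1 h2 => Subtype.ext (hc1 e.1 e.2 f.1 f.2 (Or.inr h1) h2))
    _ univ (fun e => L e.1) rfl (by
      intro e _
      refine lt_of_le_of_lt (le_of_eq ?_) (hc2 e.1 e.2)
      refine congrArg₂ (· + ·) ?_ ?_
      · have h := tr (fun f => f.1 = e.1.1 ∧ c e.1 < c f)
        convert h
      · have h := tr (fun f => f.2 = e.1.2 ∧ c f < c e.1)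
        convert h)
  refine ⟨fun e => if h : e ∈ E then φ ⟨e, h⟩ else 0, ?_⟩
  intro e he
  obtain ⟨h1, h2⟩ := hφ ⟨e, he⟩ (Finset.mem_univ _)
  simp only [dif_pos he]
  refine ⟨h1, fun f hf hfe hor => ?_⟩
  simp only [dif_pos hf]
  intro heq
  have := h2 ⟨f, hf⟩ (Finset.mem_univ _) (fun h => hfe (congrArg Subtype.val h)) heq
  rcases hor with h | h
  · exact this.1 h
  · exact this.2 h

theorem partB {V : Type} [Fintype V] (G : SimpleGraph V) (side : V → Bool)
    (hside : ∀ u v, G.Adj u v → side u ≠ side v) (D : ℕ)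
    (hD : ∀ v, (G.neighborSet v).ncard ≤ D) (k : ℕ) (hk : D + 2 ≤ k)
    (H : SimpleGraph V) (hHG : H ≤ G) (hmat : ∀ u v w, H.Adj u v → H.Adj u w → v = w)
    (hdist : ∀ u v, u ∈ H.support → v ∈ H.support → u ≠ v → ¬ H.Adj u v → 3 ≤ G.edist u v)
    (g0 : V → Fin k) (f0 : Sym2 V → Fin k)
    (hc1 : ∀ u v, H.Adj u v → g0 u ≠ g0 v)
    (hc3 : ∀ u v, H.Adj u v → g0 u ≠ f0 s(u, v))
    (N : SimpleGraph V) (hNG : N ≤ G) (hNm : ∀ u v w, N.Adj u v → N.Adj u w → v = w)
    (hN1 : ∀ v, v ∉ H.support → (G.neighborSet v).ncard = D → v ∈ N.support)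
    (hN2 : ∀ s s' w w' t t', side s = true → H.Adj s s' → H.Adj t t' → G.Adj s w →
      G.Adj w w' → G.Adj w' t → w ∉ H.support → w' ∉ H.support →
      f0 s(s, s') = f0 s(t, t') → s ∉ N.support) :
    ∃ (g : V → Fin k) (f : Sym2 V → Fin k), ((∀ u v, G.Adj u v → g u ≠ g v) ∧
      (∀ u v w, G.Adj u v → G.Adj u w → v ≠ w → f s(u, v) ≠ f s(u, w)) ∧
      (∀ u v, G.Adj u v → g u ≠ f s(u, v))) ∧
      (∀ v ∈ H.support, g v = g0 v) ∧ ∀ e ∈ H.edgeSet, f e = f0 e := by
  classical
  have hkpos : 0 < k := by omega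
  let p : V → V := fun v => if h : ∃ w, H.Adj v w then h.choose else v
  have hp : ∀ v, v ∈ H.support → H.Adj v (p v) := by
    intro v hv
    have h := (SimpleGraph.mem_support H).1 hv
    simp only [p]
    rw [dif_pos h]
    exact h.choose_spec
  have hsup : ∀ u v, H.Adj u v → u ∈ H.support :=
    fun u v h => (SimpleGraph.mem_support H).2 ⟨v, h⟩
  have hp' : ∀ v w, H.Adj v w → p v = w := by
    intro v w h
    exact hmat v _ _ (hp v (hsup v w h)) h
  let b : V → Fin k := fun v => f0 s(v, p v)
  have hb : ∀ v w, H.Adj v w → b v = f0 s(v, w) := by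
    intro v w h
    simp only [b]
    rw [hp' v w h]
  have hSadj : ∀ s t, s ∈ H.support → t ∈ H.support → G.Adj s t → H.Adj s t := by
    intro s t hs ht hst
    by_contra hn
    exact TotExtA.edist_adj G s t hst (hdist s t hs ht hst.ne hn)
  have huniq : ∀ w s t, s ∈ H.support → t ∈ H.support → G.Adj s w → G.Adj t w → s = t := by
    intro w s t hs ht hws hwt
    by_contra hne
    by_cases hst : H.Adj s t
    · have h1 := hside s w hws
      have h2 := hside t w hwt
      have h3 := hside s t (hHG hst)
      revert h1 h2 h3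
      cases side w <;> cases side s <;> cases side t <;> simp
    · exact TotExtA.edist_two G s t w hws.symm hwt.symm (hdist s t hs ht hne hst)
  -- bad vertices
  let Bad : V → Prop := fun s => side s = true ∧ s ∈ H.support ∧ ∃ w w' t, t ∈ H.support ∧
    G.Adj s w ∧ G.Adj w w' ∧ G.Adj w' t ∧ w ∉ H.support ∧ w' ∉ H.support ∧ b s = b t
  have hBad : ∀ s, Bad s → s ∉ N.support := by
    rintro s ⟨hs1, hs, w, w', t, ht, h1, h2, h3, h4, h5, h6⟩
    exact hN2 s (p s) w w' t (p t) hs1 (hp s hs) (hp t ht) h1 h2 h3 h4 h5 h6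
  let nb : V → V := fun w => if h : ∃ s, s ∈ H.support ∧ G.Adj s w then h.choose else w
  have hnb : ∀ s w, s ∈ H.support → G.Adj s w → nb w = s := by
    intro s w hs hsw
    have h : ∃ s, s ∈ H.support ∧ G.Adj s w := ⟨s, hs, hsw⟩
    simp only [nb]
    rw [dif_pos h]
    exact huniq w _ _ h.choose_spec.1 hs h.choose_spec.2 hsw
  let φ0 : V → Fin k := fun v => if v ∈ H.support then g0 v else b (nb v)
  have hφ0S : ∀ s, s ∈ H.support → φ0 s = g0 s := by
    intro s hs
    simp only [φ0]
    rw [if_pos hs]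
  have hφ0N : ∀ s w, s ∈ H.support → w ∉ H.support → G.Adj s w → φ0 w = b s := by
    intro s w hs hw hsw
    simp only [φ0]
    rw [if_neg hw, hnb s w hs hsw]
  let P : Finset V := Finset.univ.filter (fun v => v ∈ H.support ∨
    ∃ s, s ∈ H.support ∧ G.Adj s v ∧ ¬ Bad s)
  have hPm : ∀ v, v ∈ P ↔ (v ∈ H.support ∨ ∃ s, s ∈ H.support ∧ G.Adj s v ∧ ¬ Bad s) := by
    intro v
    simp [P]
  have hPproper : ∀ u ∈ P, ∀ v ∈ P, G.Adj u v → φ0 u ≠ φ0 v := by
    have hSN : ∀ u v, u ∈ H.support → v ∉ H.support → G.Adj u v → φ0 u ≠ φ0 v := by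
      intro u v huS hvS huv
      rw [hφ0S u huS, hφ0N u v huS hvS huv, hb u (p u) (hp u huS)]
      exact hc3 u (p u) (hp u huS)
    have hNN : ∀ u v, u ∉ H.support → v ∉ H.support → u ∈ P → v ∈ P → side v = true →
        G.Adj u v → φ0 u ≠ φ0 v := by
      intro u v huS hvS huP hvP hv huv
      obtain ⟨s, hs, hsu, hsb⟩ := ((hPm u).1 huP).resolve_left huS
      obtain ⟨t, ht, htv, _⟩ := ((hPm v).1 hvP).resolve_left hvS
      rw [hφ0N s u hs huS hsu, hφ0N t v ht hvS htv]
      intro heq
      apply hsb
      refine ⟨?_, hs, u, v, t, ht, hsu, huv, htv.symm, huS, hvS, heq⟩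
      have h1 := hside s u hsu
      have h2 := hside u v huv
      revert h1 h2 hv
      cases side s <;> cases side u <;> cases side v <;> simp
    intro u huP v hvP huv
    by_cases huS : u ∈ H.support
    · by_cases hvS : v ∈ H.support
      · rw [hφ0S u huS, hφ0S v hvS]
        exact hc1 u v (hSadj u v huS hvS huv)
      · exact hSN u v huS hvS huv
    · by_cases hvS : v ∈ H.support
      · exact (hSN v u hvS huS huv.symm).symm
      · by_cases hv : side v = true
        · exact hNN u v huS hvS huP hvP hv huv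
        · have hu : side u = true := by
            have h := hside u v huv
            revert h hv
            cases side u <;> cases side v <;> simp
          exact (hNN v u hvS huS hvP huP hu huv.symm).symm
  obtain ⟨φ, hφP, -, hφ⟩ := TotExt.greedy G D k hD ∅ (by
    rw [Finset.card_empty]; omega) P φ0 hPproper
  have hφS : ∀ s, s ∈ H.support → φ s = g0 s := by
    intro s hs
    rw [hφP s ((hPm s).2 (Or.inl hs)), hφ0S s hs]
  have hφN : ∀ s w, s ∈ H.support → ¬ Bad s → w ∉ H.support → G.Adj s w → φ w = b s := by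
    intro s w hs hsb hw hsw
    rw [hφP w ((hPm w).2 (Or.inr ⟨s, hs, hsw, hsb⟩)), hφ0N s w hs hw hsw]
  -- the edges and their classes
  let Er : Finset (V × V) := Finset.univ.filter
    (fun e => side e.1 = true ∧ G.Adj e.1 e.2 ∧ ¬ H.Adj e.1 e.2)
  have hEr : ∀ x y, (x, y) ∈ Er ↔ side x = true ∧ G.Adj x y ∧ ¬ H.Adj x y := by
    intro x y
    simp [Er]
  have hdegl : ∀ v, ((Er.filter (fun e => ¬ N.Adj e.1 e.2)).filter (fun e => e.1 = v)).card
      ≤ D - 1 := by
    intro v
    by_cases hex : ∃ w, G.Adj v w ∧ (H.Adj v w ∨ N.Adj v w)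
    · obtain ⟨w, hw, hor⟩ := hex
      have h1 : ((Er.filter (fun e => ¬ N.Adj e.1 e.2)).filter (fun e => e.1 = v)).card ≤
          ((G.neighborSet v).toFinset.erase w).card := by
        apply Finset.card_le_card_of_injOn (fun e => e.2)
        · rintro ⟨x, y⟩ he
          rw [Finset.mem_coe, Finset.mem_filter, Finset.mem_filter, hEr] at he
          have hx : x = v := he.2
          subst hx
          rw [Finset.mem_coe, Finset.mem_erase]
          refine ⟨?_, by simpa using he.1.1.2.1⟩
          rintro h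
          have h' : y = w := h
          subst h'
          rcases hor with h | h
          · exact he.1.1.2.2 h
          · exact he.1.2 h
        · rintro ⟨x1, y1⟩ h1 ⟨x2, y2⟩ h2 h
          rw [Finset.mem_coe, Finset.mem_filter] at h1 h2
          exact Prod.ext (h1.2.trans h2.2.symm) h
      have h2 : w ∈ (G.neighborSet v).toFinset := by simpa using hw
      rw [Finset.card_erase_of_mem h2] at h1
      have h3 := hD v
      rw [Set.ncard_eq_toFinset_card'] at h3
      omega
    · have h1 : ((Er.filter (fun e => ¬ N.Adj e.1 e.2)).filter (fun e => e.1 = v)).card ≤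
          (G.neighborSet v).toFinset.card := by
        apply Finset.card_le_card_of_injOn (fun e => e.2)
        · rintro ⟨x, y⟩ he
          rw [Finset.mem_coe, Finset.mem_filter, Finset.mem_filter, hEr] at he
          have hx : x = v := he.2
          subst hx
          simpa using he.1.1.2.1
        · rintro ⟨x1, y1⟩ h1 ⟨x2, y2⟩ h2 h
          rw [Finset.mem_coe, Finset.mem_filter] at h1 h2
          exact Prod.ext (h1.2.trans h2.2.symm) h
      have h2 : (G.neighborSet v).ncard ≠ D := by
        intro hd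
        by_cases hv : v ∈ H.support
        · exact hex ⟨p v, hHG (hp v hv), Or.inl (hp v hv)⟩
        · obtain ⟨w, hw⟩ := (SimpleGraph.mem_support N).1 (hN1 v hv hd)
          exact hex ⟨w, hNG hw, Or.inr hw⟩
      have h3 := hD v
      rw [← Set.ncard_eq_toFinset_card'] at h1
      omega
  have hdegr : ∀ v, ((Er.filter (fun e => ¬ N.Adj e.1 e.2)).filter (fun e => e.2 = v)).card
      ≤ D - 1 := by
    intro v
    by_cases hex : ∃ w, G.Adj v w ∧ (H.Adj v w ∨ N.Adj v w)
    · obtain ⟨w, hw, hor⟩ := hex
      have h1 : ((Er.filter (fun e => ¬ N.Adj e.1 e.2)).filter (fun e => e.2 = v)).card ≤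
          ((G.neighborSet v).toFinset.erase w).card := by
        apply Finset.card_le_card_of_injOn (fun e => e.1)
        · rintro ⟨x, y⟩ he
          rw [Finset.mem_coe, Finset.mem_filter, Finset.mem_filter, hEr] at he
          have hx : y = v := he.2
          subst hx
          rw [Finset.mem_coe, Finset.mem_erase]
          refine ⟨?_, by simpa using he.1.1.2.1.symm⟩
          rintro h
          have h' : x = w := h
          subst h'
          rcases hor with h | h
          · exact he.1.1.2.2 h.symm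
          · exact he.1.2 h.symm
        · rintro ⟨x1, y1⟩ h1 ⟨x2, y2⟩ h2 h
          rw [Finset.mem_coe, Finset.mem_filter] at h1 h2
          exact Prod.ext h (h1.2.trans h2.2.symm)
      have h2 : w ∈ (G.neighborSet v).toFinset := by simpa using hw
      rw [Finset.card_erase_of_mem h2] at h1
      have h3 := hD v
      rw [Set.ncard_eq_toFinset_card'] at h3
      omega
    · have h1 : ((Er.filter (fun e => ¬ N.Adj e.1 e.2)).filter (fun e => e.2 = v)).card ≤
          (G.neighborSet v).toFinset.card := by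
        apply Finset.card_le_card_of_injOn (fun e => e.1)
        · rintro ⟨x, y⟩ he
          rw [Finset.mem_coe, Finset.mem_filter, Finset.mem_filter, hEr] at he
          have hx : y = v := he.2
          subst hx
          simpa using he.1.1.2.1.symm
        · rintro ⟨x1, y1⟩ h1 ⟨x2, y2⟩ h2 h
          rw [Finset.mem_coe, Finset.mem_filter] at h1 h2
          exact Prod.ext h (h1.2.trans h2.2.symm)
      have h2 : (G.neighborSet v).ncard ≠ D := by
        intro hd
        by_cases hv : v ∈ H.support
        · exact hex ⟨p v, hHG (hp v hv), Or.inl (hp v hv)⟩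
        · obtain ⟨w, hw⟩ := (SimpleGraph.mem_support N).1 (hN1 v hv hd)
          exact hex ⟨w, hNG hw, Or.inr hw⟩
      have h3 := hD v
      rw [← Set.ncard_eq_toFinset_card'] at h1
      omega
  obtain ⟨c0, hc0, hc0p⟩ := TH559.LE.K1 (Er.filter (fun e => ¬ N.Adj e.1 e.2)) (D - 1)
    hdegl hdegr
  let cl : V × V → ℕ := fun e => if N.Adj e.1 e.2 then D - 1 else c0 e
  have hcl1 : ∀ e, N.Adj e.1 e.2 → cl e = D - 1 := by
    intro e he
    simp only [cl]
    rw [if_pos he]
  have hcl2 : ∀ e ∈ Er, ¬ N.Adj e.1 e.2 → cl e < D - 1 := by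
    intro e he hN
    simp only [cl]
    rw [if_neg hN]
    exact hc0 e (Finset.mem_filter.2 ⟨he, hN⟩)
  have hclle : ∀ e ∈ Er, cl e ≤ D - 1 := by
    intro e he
    by_cases h : N.Adj e.1 e.2
    · exact (hcl1 e h).le
    · exact (hcl2 e he h).le
  have hclp : ∀ e ∈ Er, ∀ f ∈ Er, e.1 = f.1 ∨ e.2 = f.2 → cl e = cl f → e = f := by
    intro e he f hf hor heq
    by_cases h1 : N.Adj e.1 e.2
    · by_cases h2 : N.Adj f.1 f.2
      · rcases hor with h | h
        · apply Prod.ext h
          rw [← h] at h2
          exact hNm _ _ _ h1 h2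
        · refine Prod.ext ?_ h
          rw [← h] at h2
          exact hNm _ _ _ h1.symm h2.symm
      · have a1 := hcl1 e h1
        have a2 := hcl2 f hf h2
        omega
    · by_cases h2 : N.Adj f.1 f.2
      · have a1 := hcl1 f h2
        have a2 := hcl2 e he h1
        omega
      · by_contra hne
        refine hc0p e (Finset.mem_filter.2 ⟨he, h1⟩) f (Finset.mem_filter.2 ⟨hf, h2⟩) hne hor ?_
        simp only [cl] at heq
        rwa [if_neg h1, if_neg h2] at heq
  -- the lists
  let ex : V → Finset ℕ := fun v => if v ∈ H.support then {(b v : ℕ)} else ∅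
  let Pc : V → Finset ℕ := fun v => {(φ v : ℕ)} ∪ ex v
  have hPcm : ∀ v (z : ℕ), z ∈ Pc v → z = (φ v : ℕ) ∨ (v ∈ H.support ∧ z = (b v : ℕ)) := by
    intro v z hz
    simp only [Pc, ex, Finset.mem_union, Finset.mem_singleton] at hz
    rcases hz with h | h
    · exact Or.inl h
    · by_cases h' : v ∈ H.support
      · rw [if_pos h', Finset.mem_singleton] at h
        exact Or.inr ⟨h', h⟩
      · rw [if_neg h'] at h
        exact absurd h (Finset.notMem_empty _)
  have hPcb : ∀ v, v ∈ H.support → (b v : ℕ) ∈ Pc v := by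
    intro v hv
    simp only [Pc, ex, Finset.mem_union]
    right
    rw [if_pos hv]
    exact Finset.mem_singleton_self _
  let L : V × V → Finset ℕ := fun e => Finset.range k \ (Pc e.1 ∪ Pc e.2)
  have hLA : ∀ x y (A : Finset ℕ), Pc x ∪ Pc y ⊆ A → k - A.card ≤ (L (x, y)).card := by
    intro x y A hA
    have h1 := Finset.le_card_sdiff (Pc x ∪ Pc y) (Finset.range k)
    have h2 := Finset.card_le_card hA
    rw [Finset.card_range] at h1
    simp only [L]
    omega
  have hgood : ∀ s w, s ∈ H.support → ¬ Bad s → w ∉ H.support → G.Adj s w →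
      ∃ A : Finset ℕ, A.card ≤ 2 ∧ Pc s ⊆ A ∧ Pc w ⊆ A := by
    intro s w hs hsb hw hsw
    refine ⟨{(φ s : ℕ), (b s : ℕ)}, Finset.card_le_two, ?_, ?_⟩
    · intro z hz
      rcases hPcm s z hz with h | ⟨_, h⟩
      · rw [h]; simp
      · rw [h]; simp
    · intro z hz
      rcases hPcm w z hz with h | ⟨h', _⟩
      · rw [h, hφN s w hs hsb hw hsw]; simp
      · exact absurd h' hw
  have hL2 : ∀ x y, (x, y) ∈ Er → ¬ Bad x → D ≤ (L (x, y)).card := by
    intro x y he hxb
    rw [hEr] at he
    obtain ⟨A, hA, h1, h2⟩ : ∃ A : Finset ℕ, A.card ≤ 2 ∧ Pc x ⊆ A ∧ Pc y ⊆ A := by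
      by_cases hx : x ∈ H.support
      · have hy : y ∉ H.support := fun hy => he.2.2 (hSadj x y hx hy he.2.1)
        exact hgood x y hx hxb hy he.2.1
      · by_cases hy : y ∈ H.support
        · have hyb : ¬ Bad y := by
            intro h
            have h1 := hside x y he.2.1
            rw [he.1, h.1] at h1
            exact h1 rfl
          obtain ⟨A, hA, h1, h2⟩ := hgood y x hy hyb hx he.2.1.symm
          exact ⟨A, hA, h2, h1⟩
        · refine ⟨{(φ x : ℕ), (φ y : ℕ)}, Finset.card_le_two, ?_, ?_⟩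
          · intro z hz
            rcases hPcm x z hz with h | ⟨h', _⟩
            · rw [h]; simp
            · exact absurd h' hx
          · intro z hz
            rcases hPcm y z hz with h | ⟨h', _⟩
            · rw [h]; simp
            · exact absurd h' hy
    have h3 := hLA x y A (Finset.union_subset h1 h2)
    omega
  have hL3 : ∀ x y, (x, y) ∈ Er → Bad x → D - 1 ≤ (L (x, y)).card := by
    intro x y he hxb
    rw [hEr] at he
    have hx : x ∈ H.support := hxb.2.1
    have hy : y ∉ H.support := fun hy => he.2.2 (hSadj x y hx hy he.2.1)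
    have h3 := hLA x y {(φ x : ℕ), (b x : ℕ), (φ y : ℕ)} (by
      intro z hz
      rcases Finset.mem_union.1 hz with hz | hz
      · rcases hPcm x z hz with h | ⟨_, h⟩
        · rw [h]; simp
        · rw [h]; simp
      · rcases hPcm y z hz with h | ⟨h', _⟩
        · rw [h]; simp
        · exact absurd h' hy)
    have h4 := Finset.card_le_three (a := (φ x : ℕ)) (b := (b x : ℕ)) (c := (φ y : ℕ))
    omega
  obtain ⟨ψ, hψ⟩ := galvinE Er L cl hclp (by
    rintro ⟨x, y⟩ he
    have hDpos : 1 ≤ D := by
      have h1 := hD x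
      have h2 : 0 < (G.neighborSet x).ncard := by
        rw [Set.ncard_pos (Set.toFinite _)]
        exact ⟨y, ((hEr x y).1 he).2.1⟩
      omega
    have hle := hclle _ he
    have h2 : (Er.filter (fun f => f.2 = y ∧ cl f < cl (x, y))).card ≤ cl (x, y) := by
      calc (Er.filter (fun f => f.2 = y ∧ cl f < cl (x, y))).card
          ≤ (Finset.range (cl (x, y))).card := by
            apply Finset.card_le_card_of_injOn cl
            · intro f hf
              rw [Finset.mem_coe, Finset.mem_filter] at hf
              rw [Finset.mem_coe, Finset.mem_range]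
              exact hf.2.2
            · intro f hf g hg heq
              rw [Finset.mem_coe, Finset.mem_filter] at hf hg
              exact hclp f hf.1 g hg.1 (Or.inr (hf.2.1.trans hg.2.1.symm)) heq
        _ = cl (x, y) := Finset.card_range _
    by_cases hxb : Bad x
    · have h3 := hL3 x y he hxb
      have hxN : ∀ z, ¬ N.Adj x z := fun z hz => hBad x hxb ((SimpleGraph.mem_support N).2 ⟨z, hz⟩)
      have h4 : cl (x, y) < D - 1 := hcl2 _ he (hxN y)
      have h1 : (Er.filter (fun f => f.1 = x ∧ cl (x, y) < cl f)).card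
          ≤ D - 1 - cl (x, y) - 1 := by
        calc (Er.filter (fun f => f.1 = x ∧ cl (x, y) < cl f)).card
            ≤ (Finset.Ioo (cl (x, y)) (D - 1)).card := by
              apply Finset.card_le_card_of_injOn cl
              · intro f hf
                rw [Finset.mem_coe, Finset.mem_filter] at hf
                rw [Finset.mem_coe, Finset.mem_Ioo]
                refine ⟨hf.2.2, hcl2 f hf.1 ?_⟩
                rw [hf.2.1]
                exact hxN _
              · intro f hf g hg heq
                rw [Finset.mem_coe, Finset.mem_filter] at hf hg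
                exact hclp f hf.1 g hg.1 (Or.inl (hf.2.1.trans hg.2.1.symm)) heq
          _ = D - 1 - cl (x, y) - 1 := Nat.card_Ioo _ _
      show (Er.filter (fun f => f.1 = x ∧ cl (x, y) < cl f)).card +
        (Er.filter (fun f => f.2 = y ∧ cl f < cl (x, y))).card < (L (x, y)).card
      omega
    · have h3 := hL2 x y he hxb
      have h1 : (Er.filter (fun f => f.1 = x ∧ cl (x, y) < cl f)).card ≤ D - 1 - cl (x, y) := by
        calc (Er.filter (fun f => f.1 = x ∧ cl (x, y) < cl f)).card
            ≤ (Finset.Ioc (cl (x, y)) (D - 1)).card := by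
              apply Finset.card_le_card_of_injOn cl
              · intro f hf
                rw [Finset.mem_coe, Finset.mem_filter] at hf
                rw [Finset.mem_coe, Finset.mem_Ioc]
                exact ⟨hf.2.2, hclle f hf.1⟩
              · intro f hf g hg heq
                rw [Finset.mem_coe, Finset.mem_filter] at hf hg
                exact hclp f hf.1 g hg.1 (Or.inl (hf.2.1.trans hg.2.1.symm)) heq
          _ = D - 1 - cl (x, y) := Nat.card_Ioc _ _
      show (Er.filter (fun f => f.1 = x ∧ cl (x, y) < cl f)).card +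
        (Er.filter (fun f => f.2 = y ∧ cl f < cl (x, y))).card < (L (x, y)).card
      omega)
  obtain ⟨f, hf1, hf2, hf3⟩ := TotExt.assemble G H side hside k hkpos hHG φ hφ f0
    (by
      intro u v w huv huw hvw
      exact absurd (hmat u v w huv huw) hvw)
    (by
      intro u v huv
      rw [hφS u (hsup u v huv)]
      exact hc3 u v huv)
    Pc (by
      intro v
      simp only [Pc]
      exact Finset.mem_union_left _ (Finset.mem_singleton_self _))
    (by
      intro u v huv
      rw [← hb u v huv]
      exact hPcb u (hsup u v huv))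
    ψ (by
      intro x y hx hxy hM
      have h := (hψ (x, y) ((hEr x y).2 ⟨hx, hxy, hM⟩)).1
      simp only [L, Finset.mem_sdiff, Finset.mem_range, Finset.mem_union, not_or] at h
      exact ⟨h.1, h.2.1, h.2.2⟩)
    (by
      intro x y x' y' hx hx' hxy hM hxy' hM' hne hor
      have h := (hψ (x', y') ((hEr x' y').2 ⟨hx', hxy', hM'⟩)).2 (x, y)
        ((hEr x y).2 ⟨hx, hxy, hM⟩) hne
      exact h hor)
  exact ⟨φ, f, ⟨hφ, hf1, hf2⟩, hφS, hf3⟩

end Pool.Agent.Q149.TotExtB
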