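import Mathlib

/-!
# Unions of two lower sets of finsets

If `D₁, D₂` are lower sets of subsets of an `n`-element set, `p + q = n + 1`, `|D₁| ≤ 2 ^ p`,
`|D₂| ≤ 2 ^ q` and (`2 ^ p ≤ 2 |D₁|` or `2 ^ q ≤ 2 |D₂|`), then at least
`(2 ^ p - |D₁|) (2 ^ q - |D₂|)` subsets are not of the form `P ∪ Q` with `P ∈ D₁`, `Q ∈ D₂`.
-/

set_option autoImplicit false

namespace Pool.Agent.Q149.UnionLow

open Finset
open scoped FinsetFamily

/-- the numerical inequality behind the induction step -/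
lemma num {m0 m1 k0 k1 v00 v10 v01 : ℝ} (hm1 : 0 ≤ m1) (hm : m1 ≤ m0) (hk1 : 0 ≤ k1)
    (hk : k1 ≤ k0) (hM : m0 + m1 ≤ 2) (hK : k0 + k1 ≤ 2) (hor : 1 ≤ m0 + m1 ∨ 1 ≤ k0 + k1)
    (p00 : 0 ≤ v00) (p10 : 0 ≤ v10)
    (a00 : 1 - m0 * k0 ≤ v00) (a10 : 1 - m1 * k0 ≤ v10) (a01 : 1 - m0 * k1 ≤ v01)
    (b00 : 1 ≤ k0 → m0 ≤ 1 → (1 - m0) * (2 - k0) ≤ v00)
    (b10 : 1 ≤ k0 → (1 - m1) * (2 - k0) ≤ v10)
    (c00 : 1 ≤ m0 → k0 ≤ 1 → (2 - m0) * (1 - k0) ≤ v00)
    (c01 : 1 ≤ m0 → (2 - m0) * (1 - k1) ≤ v01) :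
    (2 - (m0 + m1)) * (2 - (k0 + k1)) ≤ v00 + v10 * v01 := by
  have hm1' : m1 ≤ 1 := by linarith
  have hk1' : k1 ≤ 1 := by linarith
  have hm0' : m0 ≤ 2 := by linarith
  have hk0' : k0 ≤ 2 := by linarith
  rcases le_total 1 m0 with h1 | h1 <;> rcases le_total 1 k0 with h2 | h2
  · -- both large
    have e1 := b10 h2
    have e2 := c01 h1
    have f1 : 2 - (m0 + m1) ≤ (1 - m1) * (2 - m0) := by nlinarith
    have f2 : 2 - (k0 + k1) ≤ (1 - k1) * (2 - k0) := by nlinarith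
    have g1 : 0 ≤ 2 - (m0 + m1) := by linarith
    have g2 : 0 ≤ 2 - (k0 + k1) := by linarith
    calc (2 - (m0 + m1)) * (2 - (k0 + k1)) ≤ ((1 - m1) * (2 - m0)) * ((1 - k1) * (2 - k0)) :=
          mul_le_mul f1 f2 g2 (by nlinarith)
      _ = ((1 - m1) * (2 - k0)) * ((2 - m0) * (1 - k1)) := by ring
      _ ≤ v10 * v01 := mul_le_mul e1 e2 (mul_nonneg (by linarith) (by linarith)) p10
      _ ≤ v00 + v10 * v01 := by linarith
  · -- `m0 ≥ 1`, `k0 ≤ 1`
    have e1 := c00 h1 h2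
    have e2 := c01 h1
    have e3 : (1 - m1 * k0) * ((2 - m0) * (1 - k1)) ≤ v10 * v01 :=
      mul_le_mul a10 e2 (mul_nonneg (by linarith) (by linarith)) p10
    have key : 0 ≤ m1 * ((2 - (k0 + k1)) - (2 - m0) * k0 * (1 - k1)) := by
      apply mul_nonneg hm1
      have h3 : (2 - m0) * k0 * (1 - k1) ≤ 1 * k0 * (1 - k1) := by
        have : 0 ≤ k0 * (1 - k1) := mul_nonneg (by linarith) (by linarith)
        nlinarith
      nlinarith
    nlinarith
  · have e1 := b00 h2 h1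
    have e2 := b10 h2
    have e3 : ((1 - m1) * (2 - k0)) * (1 - m0 * k1) ≤ v10 * v01 := by
      apply mul_le_mul e2 a01 _ p10
      nlinarith
    have key : 0 ≤ k1 * ((2 - (m0 + m1)) - (2 - k0) * m0 * (1 - m1)) := by
      apply mul_nonneg hk1
      have h3 : (2 - k0) * m0 * (1 - m1) ≤ 1 * m0 * (1 - m1) := by
        have : 0 ≤ m0 * (1 - m1) := mul_nonneg (by linarith) (by linarith)
        nlinarith
      nlinarith
    nlinarith
  · -- both small
    have q1 : 0 ≤ 1 - m1 * k0 := by nlinarith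
    have q2 : 0 ≤ 1 - m0 * k1 := by nlinarith
    have e3 : (1 - m1 * k0) * (1 - m0 * k1) ≤ v10 * v01 := mul_le_mul a10 a01 q2 p10
    have key : 2 * (1 - (m0 + m1)) * (1 - (k0 + k1)) ≤ m1 * k1 * (1 + m0 * k0) := by
      have r0 : 0 ≤ m1 * k1 := mul_nonneg hm1 hk1
      have r1 : 0 ≤ m0 * k0 := mul_nonneg (by linarith) (by linarith)
      have r2 : m0 * k0 ≤ 1 := by nlinarith
      rcases le_total 1 (m0 + m1) with h3 | h3 <;> rcases le_total 1 (k0 + k1) with h4 | h4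
      · have s1 : m0 + m1 - 1 ≤ m1 * m0 := by nlinarith
        have s2 : k0 + k1 - 1 ≤ k1 * k0 := by nlinarith
        have s3 : (m0 + m1 - 1) * (k0 + k1 - 1) ≤ (m1 * m0) * (k1 * k0) :=
          mul_le_mul s1 s2 (by linarith) (mul_nonneg hm1 (by linarith))
        have s4 : (m1 * k1) * (m0 * k0) ≤ (m1 * k1) * 1 := mul_le_mul_of_nonneg_left r2 r0
        nlinarith
      · have : (1 - (m0 + m1)) * (1 - (k0 + k1)) ≤ 0 :=
          mul_nonpos_of_nonpos_of_nonneg (by linarith) (by linarith)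
        nlinarith [mul_nonneg r0 (show 0 ≤ 1 + m0 * k0 by linarith)]
      · have : (1 - (m0 + m1)) * (1 - (k0 + k1)) ≤ 0 :=
          mul_nonpos_of_nonneg_of_nonpos (by linarith) (by linarith)
        nlinarith [mul_nonneg r0 (show 0 ≤ 1 + m0 * k0 by linarith)]
      · have h5 : (1 - (m0 + m1)) * (1 - (k0 + k1)) = 0 := by
          rcases hor with h | h
          · rw [show m0 + m1 = 1 by linarith]; ring
          · rw [show k0 + k1 = 1 by linarith]; ring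
        nlinarith [mul_nonneg r0 (show 0 ≤ 1 + m0 * k0 by linarith)]
    nlinarith

variable {α : Type*} [DecidableEq α]

lemma lower_sups {D E : Finset (Finset α)} (hD : IsLowerSet (D : Set (Finset α)))
    (hE : IsLowerSet (E : Set (Finset α))) : IsLowerSet ((D ⊻ E : Finset (Finset α)) : Set (Finset α)) := by
  intro X Y hYX hX
  rw [mem_coe, mem_sups] at hX ⊢
  obtain ⟨P, hP, Q, hQ, rfl⟩ := hX
  refine ⟨P ∩ Y, hD (inter_subset_left : P ∩ Y ⊆ P) hP, Q ∩ Y,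
    hE (inter_subset_left : Q ∩ Y ⊆ Q) hQ, ?_⟩
  rw [sup_eq_union, ← union_inter_distrib_right]
  exact inter_eq_right.mpr hYX

lemma sub_sups {s : Finset α} {D E : Finset (Finset α)} (hD : ∀ t ∈ D, t ⊆ s)
    (hE : ∀ t ∈ E, t ⊆ s) : ∀ t ∈ D ⊻ E, t ⊆ s := by
  intro t ht
  rw [mem_sups] at ht
  obtain ⟨P, hP, Q, hQ, rfl⟩ := ht
  exact union_subset (hD P hP) (hE Q hQ)

omit [DecidableEq α] in
lemma card_le_pow {s : Finset α} {D : Finset (Finset α)} (hD : ∀ t ∈ D, t ⊆ s) :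
    #D ≤ 2 ^ #s := by
  rw [← card_powerset]
  exact card_le_card fun t ht => mem_powerset.mpr (hD t ht)

lemma non_sups (x : α) (D E : Finset (Finset α)) :
    (D ⊻ E).nonMemberSubfamily x ⊆ D.nonMemberSubfamily x ⊻ E.nonMemberSubfamily x := by
  intro X hX
  rw [mem_nonMemberSubfamily, mem_sups] at hX
  obtain ⟨⟨P, hP, Q, hQ, rfl⟩, hx⟩ := hX
  rw [sup_eq_union, mem_union, not_or] at hx
  rw [mem_sups]
  exact ⟨P, mem_nonMemberSubfamily.mpr ⟨hP, hx.1⟩, Q, mem_nonMemberSubfamily.mpr ⟨hQ, hx.2⟩, rfl⟩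

lemma mem_sub_sups (x : α) {D E : Finset (Finset α)} (hD : IsLowerSet (D : Set (Finset α)))
    (hE : IsLowerSet (E : Set (Finset α))) :
    (D ⊻ E).memberSubfamily x ⊆ (D.memberSubfamily x ⊻ E.nonMemberSubfamily x) ∪
      (D.nonMemberSubfamily x ⊻ E.memberSubfamily x) := by
  intro X hX
  rw [mem_memberSubfamily, mem_sups] at hX
  obtain ⟨⟨P, hP, Q, hQ, hPQ⟩, hx⟩ := hX
  have hX : X = (P.erase x) ∪ (Q.erase x) := by
    rw [← erase_union_distrib, ← sup_eq_union, hPQ, erase_insert hx]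
  have hmem : x ∈ P ∪ Q := by
    rw [← sup_eq_union, hPQ]; exact mem_insert_self _ _
  have hP' : P.erase x ∈ D := hD (erase_subset x P) hP
  have hQ' : Q.erase x ∈ E := hE (erase_subset x Q) hQ
  rw [mem_union, mem_sups, mem_sups]
  rcases mem_union.mp hmem with h | h
  · left
    refine ⟨P.erase x, ?_, Q.erase x, ?_, hX.symm⟩
    · rw [mem_memberSubfamily, insert_erase h]; exact ⟨hP, notMem_erase _ _⟩
    · rw [mem_nonMemberSubfamily]; exact ⟨hQ', notMem_erase _ _⟩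
  · right
    refine ⟨P.erase x, ?_, Q.erase x, ?_, hX.symm⟩
    · rw [mem_nonMemberSubfamily]; exact ⟨hP', notMem_erase _ _⟩
    · rw [mem_memberSubfamily, insert_erase h]; exact ⟨hQ, notMem_erase _ _⟩

/-- Kleitman's inequality for the number of sets outside two lower sets -/
lemma outside {s : Finset α} {D E : Finset (Finset α)} (hD : IsLowerSet (D : Set (Finset α)))
    (hE : IsLowerSet (E : Set (Finset α))) (hDs : ∀ t ∈ D, t ⊆ s) (hEs : ∀ t ∈ E, t ⊆ s) :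
    ((2 : ℝ) ^ #s - #D) * (2 ^ #s - #E) ≤ 2 ^ #s * (2 ^ #s - #(D ∪ E)) := by
  have h1 := hD.le_card_inter_finset' hE hDs hEs
  have h2 := card_union_add_card_inter D E
  have h1' : (#D : ℝ) * #E ≤ 2 ^ #s * #(D ∩ E) := by exact_mod_cast h1
  have h2' : (#(D ∪ E) : ℝ) + #(D ∩ E) = #D + #E := by exact_mod_cast h2
  have h3 : (2 : ℝ) ^ #s * (#(D ∪ E) + #(D ∩ E)) = 2 ^ #s * (#D + #E) := by rw [h2']
  calc ((2 : ℝ) ^ #s - #D) * (2 ^ #s - #E) = 2 ^ #s * 2 ^ #s - 2 ^ #s * (#D + #E) + #D * #E := by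
        ring
    _ ≤ 2 ^ #s * 2 ^ #s - 2 ^ #s * (#D + #E) + 2 ^ #s * #(D ∩ E) := by linarith
    _ = 2 ^ #s * (2 ^ #s - #(D ∪ E)) := by rw [← h3]; ring

/-- the degenerate case `#D ≤ 1` -/
lemma degen {s : Finset α} {D E : Finset (Finset α)} (hDs : ∀ t ∈ D, t ⊆ s)
    (hEs : ∀ t ∈ E, t ⊆ s) (hD1 : #D ≤ 1) (hor : 1 ≤ 2 * #D ∨ 2 ^ (#s + 1) ≤ 2 * #E) :
    ((2 : ℝ) ^ 0 - #D) * (2 ^ (#s + 1) - #E) ≤ 2 ^ #s - #(D ⊻ E) := by
  rcases Nat.eq_zero_or_pos #D with h | h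
  · have hD0 : D = ∅ := card_eq_zero.mp h
    subst hD0
    have h1 : 2 ^ (#s + 1) ≤ 2 * #E := by
      rcases hor with h | h
      · simp at h
      · exact h
    have h2 : (2 : ℝ) ^ (#s + 1) ≤ 2 * #E := by exact_mod_cast h1
    simp only [card_empty, empty_sups, Nat.cast_zero, pow_zero, sub_zero, one_mul]
    rw [pow_succ] at h2 ⊢
    linarith
  · have h1 : #D = 1 := le_antisymm hD1 h
    have h2 : #(D ⊻ E) ≤ 2 ^ #s := card_le_pow (sub_sups hDs hEs)
    have h3 : (#(D ⊻ E) : ℝ) ≤ 2 ^ #s := by exact_mod_cast h2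
    rw [h1]
    simp only [pow_zero, Nat.cast_one, sub_self, zero_mul]
    linarith

/-- the number of sets that are not unions -/
theorem card_not_union (s : Finset α) : ∀ D E : Finset (Finset α),
    IsLowerSet (D : Set (Finset α)) → IsLowerSet (E : Set (Finset α)) →
    (∀ t ∈ D, t ⊆ s) → (∀ t ∈ E, t ⊆ s) → ∀ p q : ℕ, p + q = #s + 1 → #D ≤ 2 ^ p → #E ≤ 2 ^ q →
    (2 ^ p ≤ 2 * #D ∨ 2 ^ q ≤ 2 * #E) →
    ((2 : ℝ) ^ p - #D) * (2 ^ q - #E) ≤ 2 ^ #s - #(D ⊻ E) := by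
  induction s using Finset.induction with
  | empty =>
    intro D E _ _ hDs hEs p q hpq hDp hEq hor
    simp only [card_empty, zero_add] at hpq
    rcases Nat.eq_zero_or_pos p with hp | hp
    · subst hp
      rw [zero_add] at hpq
      subst hpq
      simpa using degen hDs hEs (by simpa using hDp) (by simpa using hor)
    · have hp1 : p = 1 := by omega
      have hq : q = 0 := by omega
      subst hp1 hq
      have := degen hEs hDs (by simpa using hEq) (by simpa [or_comm] using hor)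
      rw [sups_comm] at this
      simp only [card_empty, zero_add] at this ⊢
      linarith
  | insert x s hx ih =>
    intro D E hD hE hDs hEs p q hpq hDp hEq hor
    rcases Nat.eq_zero_or_pos p with hp | hp
    · subst hp
      rw [zero_add] at hpq
      subst hpq
      exact degen hDs hEs (by simpa using hDp) (by simpa using hor)
    rcases Nat.eq_zero_or_pos q with hq | hq
    · subst hq
      rw [add_zero] at hpq
      subst hpq
      have := degen hEs hDs (by simpa using hEq) (by simpa [or_comm] using hor)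
      rw [sups_comm] at this
      linarith
    obtain ⟨p, rfl⟩ : ∃ p', p = p' + 1 := ⟨p - 1, by omega⟩
    obtain ⟨q, rfl⟩ : ∃ q', q = q' + 1 := ⟨q - 1, by omega⟩
    rw [card_insert_of_notMem hx] at hpq
    have hpq' : p + q = #s := by omega
    have h₀ : ∀ C : Finset (Finset α), (∀ t ∈ C, t ⊆ insert x s) →
        ∀ t ∈ C.nonMemberSubfamily x, t ⊆ s := by
      intro C hC t ht
      rw [mem_nonMemberSubfamily] at ht
      exact (subset_insert_iff_of_notMem ht.2).1 (hC _ ht.1)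
    have h₁ : ∀ C : Finset (Finset α), (∀ t ∈ C, t ⊆ insert x s) →
        ∀ t ∈ C.memberSubfamily x, t ⊆ s := by
      intro C hC t ht
      rw [mem_memberSubfamily] at ht
      exact (subset_insert_iff_of_notMem ht.2).1 ((subset_insert _ _).trans <| hC _ ht.1)
    set A0 := D.nonMemberSubfamily x with hA0
    set A1 := D.memberSubfamily x with hA1
    set B0 := E.nonMemberSubfamily x with hB0
    set B1 := E.memberSubfamily x with hB1
    have lA0 : IsLowerSet (A0 : Set (Finset α)) := hD.nonMemberSubfamily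
    have lA1 : IsLowerSet (A1 : Set (Finset α)) := hD.memberSubfamily
    have lB0 : IsLowerSet (B0 : Set (Finset α)) := hE.nonMemberSubfamily
    have lB1 : IsLowerSet (B1 : Set (Finset α)) := hE.memberSubfamily
    have sA0 := h₀ D hDs
    have sA1 := h₁ D hDs
    have sB0 := h₀ E hEs
    have sB1 := h₁ E hEs
    have cA : #A1 + #A0 = #D := card_memberSubfamily_add_card_nonMemberSubfamily x D
    have cB : #B1 + #B0 = #E := card_memberSubfamily_add_card_nonMemberSubfamily x E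
    have lA : #A1 ≤ #A0 := card_le_card hD.memberSubfamily_subset_nonMemberSubfamily
    have lB : #B1 ≤ #B0 := card_le_card hE.memberSubfamily_subset_nonMemberSubfamily
    -- the union
    have cU : #(D ⊻ E) ≤ #(A0 ⊻ B0) + #((A1 ⊻ B0) ∪ (A0 ⊻ B1)) := by
      rw [← card_memberSubfamily_add_card_nonMemberSubfamily x (D ⊻ E), add_comm]
      exact add_le_add (card_le_card (non_sups x D E)) (card_le_card (mem_sub_sups x hD hE))
    have kl := outside (lower_sups lA1 lB0) (lower_sups lA0 lB1) (sub_sups sA1 sB0)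
      (sub_sups sA0 sB1)
    have t00 : #(A0 ⊻ B0) ≤ #A0 * #B0 := card_sups_le _ _
    have t10 : #(A1 ⊻ B0) ≤ #A1 * #B0 := card_sups_le _ _
    have t01 : #(A0 ⊻ B1) ≤ #A0 * #B1 := card_sups_le _ _
    -- the two inductive bounds
    have iL : ∀ F G : Finset (Finset α), IsLowerSet (F : Set (Finset α)) →
        IsLowerSet (G : Set (Finset α)) → (∀ t ∈ F, t ⊆ s) → (∀ t ∈ G, t ⊆ s) →
        #F ≤ 2 ^ p → #G ≤ 2 ^ (q + 1) → 2 ^ (q + 1) ≤ 2 * #G →
        ((2 : ℝ) ^ p - #F) * (2 ^ (q + 1) - #G) ≤ 2 ^ #s - #(F ⊻ G) := fun F G h1 h2 h3 h4 h5 h6 h7 =>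
      ih F G h1 h2 h3 h4 p (q + 1) (by omega) h5 h6 (Or.inr h7)
    have iR : ∀ F G : Finset (Finset α), IsLowerSet (F : Set (Finset α)) →
        IsLowerSet (G : Set (Finset α)) → (∀ t ∈ F, t ⊆ s) → (∀ t ∈ G, t ⊆ s) →
        #F ≤ 2 ^ (p + 1) → #G ≤ 2 ^ q → 2 ^ (p + 1) ≤ 2 * #F →
        ((2 : ℝ) ^ (p + 1) - #F) * (2 ^ q - #G) ≤ 2 ^ #s - #(F ⊻ G) := fun F G h1 h2 h3 h4 h5 h6 h7 =>
      ih F G h1 h2 h3 h4 (p + 1) q (by omega) h5 h6 (Or.inl h7)
    have pS : (2 : ℝ) ^ #s = 2 ^ p * 2 ^ q := by rw [← pow_add, hpq']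
    rw [card_insert_of_notMem hx]
    have hM : (0 : ℝ) < 2 ^ p := by positivity
    have hK : (0 : ℝ) < 2 ^ q := by positivity
    have hS : (0 : ℝ) < 2 ^ #s := by positivity
    have triv : ∀ F G : Finset (Finset α), #(F ⊻ G) ≤ #F * #G →
        1 - (#F : ℝ) / 2 ^ p * (#G / 2 ^ q) ≤ (2 ^ #s - #(F ⊻ G)) / 2 ^ #s := by
      intro F G h
      have h' : (#(F ⊻ G) : ℝ) ≤ #F * #G := by exact_mod_cast h
      rw [le_div_iff₀ hS, pS]
      have : (1 - (#F : ℝ) / 2 ^ p * (#G / 2 ^ q)) * (2 ^ p * 2 ^ q) = 2 ^ p * 2 ^ q - #F * #G := by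
        field_simp
      rw [this]
      linarith
    have nonneg : ∀ F G : Finset (Finset α), (∀ t ∈ F, t ⊆ s) → (∀ t ∈ G, t ⊆ s) →
        (0 : ℝ) ≤ (2 ^ #s - #(F ⊻ G)) / 2 ^ #s := by
      intro F G h1 h2
      have h3 : #(F ⊻ G) ≤ 2 ^ #s := card_le_pow (sub_sups h1 h2)
      have h4 : (#(F ⊻ G) : ℝ) ≤ 2 ^ #s := by exact_mod_cast h3
      apply div_nonneg _ hS.le
      linarith
    have cast_le : ∀ (F : Finset (Finset α)) (r : ℕ), (#F : ℝ) / 2 ^ r ≤ 1 → #F ≤ 2 ^ r := by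
      intro F r h
      rw [div_le_one (by positivity)] at h
      exact_mod_cast h
    have cast_ge : ∀ (F : Finset (Finset α)) (r : ℕ), 1 ≤ (#F : ℝ) / 2 ^ r → 2 ^ (r + 1) ≤ 2 * #F := by
      intro F r h
      rw [one_le_div (by positivity)] at h
      have : 2 ^ r ≤ #F := by exact_mod_cast h
      rw [pow_succ]
      omega
    have bA1 : #A1 ≤ 2 ^ p := by
      have : 2 * #A1 ≤ 2 * 2 ^ p := by
        rw [pow_succ] at hDp
        omega
      omega
    have bB1 : #B1 ≤ 2 ^ q := by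
      have : 2 * #B1 ≤ 2 * 2 ^ q := by
        rw [pow_succ] at hEq
        omega
      omega
    have bA0 : #A0 ≤ 2 ^ (p + 1) := by omega
    have bB0 : #B0 ≤ 2 ^ (q + 1) := by omega
    have left : ∀ F G : Finset (Finset α),
        ((2 : ℝ) ^ p - #F) * (2 ^ (q + 1) - #G) ≤ 2 ^ #s - #(F ⊻ G) →
        (1 - (#F : ℝ) / 2 ^ p) * (2 - #G / 2 ^ q) ≤ (2 ^ #s - #(F ⊻ G)) / 2 ^ #s := by
      intro F G h
      rw [le_div_iff₀ hS, pS]
      rw [pS] at h
      have : (1 - (#F : ℝ) / 2 ^ p) * (2 - #G / 2 ^ q) * (2 ^ p * 2 ^ q) =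
          ((2 : ℝ) ^ p - #F) * (2 ^ (q + 1) - #G) := by
        rw [pow_succ]
        field_simp
      rw [this]
      exact h
    have right : ∀ F G : Finset (Finset α),
        ((2 : ℝ) ^ (p + 1) - #F) * (2 ^ q - #G) ≤ 2 ^ #s - #(F ⊻ G) →
        (2 - (#F : ℝ) / 2 ^ p) * (1 - #G / 2 ^ q) ≤ (2 ^ #s - #(F ⊻ G)) / 2 ^ #s := by
      intro F G h
      rw [le_div_iff₀ hS, pS]
      rw [pS] at h
      have : (2 - (#F : ℝ) / 2 ^ p) * (1 - #G / 2 ^ q) * (2 ^ p * 2 ^ q) =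
          ((2 : ℝ) ^ (p + 1) - #F) * (2 ^ q - #G) := by
        rw [pow_succ]
        field_simp
      rw [this]
      exact h
    have cA' : (#A1 : ℝ) + #A0 = #D := by exact_mod_cast cA
    have cB' : (#B1 : ℝ) + #B0 = #E := by exact_mod_cast cB
    have lA' : (#A1 : ℝ) ≤ #A0 := by exact_mod_cast lA
    have lB' : (#B1 : ℝ) ≤ #B0 := by exact_mod_cast lB
    have hDp' : (#D : ℝ) ≤ 2 ^ (p + 1) := by exact_mod_cast hDp
    have hEq' : (#E : ℝ) ≤ 2 ^ (q + 1) := by exact_mod_cast hEq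
    have main := num (m0 := #A0 / 2 ^ p) (m1 := #A1 / 2 ^ p) (k0 := #B0 / 2 ^ q)
      (k1 := #B1 / 2 ^ q) (v00 := (2 ^ #s - #(A0 ⊻ B0)) / 2 ^ #s)
      (v10 := (2 ^ #s - #(A1 ⊻ B0)) / 2 ^ #s) (v01 := (2 ^ #s - #(A0 ⊻ B1)) / 2 ^ #s)
      (by positivity) (by gcongr) (by positivity) (by gcongr)
      (by rw [← add_div, div_le_iff₀ hM]; rw [pow_succ] at hDp'; linarith)
      (by rw [← add_div, div_le_iff₀ hK]; rw [pow_succ] at hEq'; linarith)
      (by
        rcases hor with h | h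
        · left
          rw [← add_div, one_le_div hM]
          have : (2 : ℝ) ^ (p + 1) ≤ 2 * #D := by exact_mod_cast h
          rw [pow_succ] at this
          linarith
        · right
          rw [← add_div, one_le_div hK]
          have : (2 : ℝ) ^ (q + 1) ≤ 2 * #E := by exact_mod_cast h
          rw [pow_succ] at this
          linarith)
      (nonneg _ _ sA0 sB0) (nonneg _ _ sA1 sB0) (triv _ _ t00) (triv _ _ t10) (triv _ _ t01)
      (fun h1 h2 => left _ _ (iL A0 B0 lA0 lB0 sA0 sB0 (cast_le _ _ h2) bB0 (cast_ge _ _ h1)))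
      (fun h1 => left _ _ (iL A1 B0 lA1 lB0 sA1 sB0 bA1 bB0 (cast_ge _ _ h1)))
      (fun h1 h2 => right _ _ (iR A0 B0 lA0 lB0 sA0 sB0 bA0 (cast_le _ _ h2) (cast_ge _ _ h1)))
      (fun h1 => right _ _ (iR A0 B1 lA0 lB1 sA0 sB1 bA0 bB1 (cast_ge _ _ h1)))
    have cU' : (#(D ⊻ E) : ℝ) ≤ #(A0 ⊻ B0) + #((A1 ⊻ B0) ∪ (A0 ⊻ B1)) := by exact_mod_cast cU
    set u : ℝ := ((#((A1 ⊻ B0) ∪ (A0 ⊻ B1)) : ℕ) : ℝ) with hu
    set a : ℝ := ((#(A0 ⊻ B0) : ℕ) : ℝ) with ha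
    set b : ℝ := ((#(A1 ⊻ B0) : ℕ) : ℝ) with hb
    set c : ℝ := ((#(A0 ⊻ B1) : ℕ) : ℝ) with hc
    have kl' : (2 ^ #s - b) / 2 ^ #s * ((2 ^ #s - c) / 2 ^ #s) ≤ (2 ^ #s - u) / 2 ^ #s := by
      rw [div_mul_div_comm, div_le_div_iff₀ (by positivity) hS]
      nlinarith
    have fin : (2 - ((#A0 : ℝ) / 2 ^ p + #A1 / 2 ^ p)) * (2 - (#B0 / 2 ^ q + #B1 / 2 ^ q)) ≤
        ((2 ^ #s - a) + (2 ^ #s - u)) / 2 ^ #s := by
      rw [add_div ((2 : ℝ) ^ #s - a) (2 ^ #s - u) (2 ^ #s)]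
      linarith
    rw [le_div_iff₀ hS] at fin
    have lhs : (2 - ((#A0 : ℝ) / 2 ^ p + #A1 / 2 ^ p)) * (2 - (#B0 / 2 ^ q + #B1 / 2 ^ q)) * 2 ^ #s =
        (2 ^ (p + 1) - #D) * (2 ^ (q + 1) - #E) := by
      rw [pS, ← cA', ← cB', pow_succ, pow_succ]
      field_simp
      ring
    rw [lhs] at fin
    have e5 : (2 : ℝ) ^ (#s + 1) = 2 ^ #s * 2 := pow_succ _ _
    rw [e5]
    linarith

end Pool.Agent.Q149.UnionLow
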